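import Pool.Agent.MP_48470b_gt.Run.OkB
import Pool.Agent.MP_48470b_gt.Run.F5

/-! Runs of the tests. -/

namespace Pool.Agent.MP_48470b_gt.Run

/-- the boxes of this part -/
def b10l : List (Nat × Nat × Nat) :=
  [(0, 8, 8), (0, 8, 9), (0, 8, 10), (0, 8, 11), (0, 8, 12), (0, 8, 13), (0, 8, 14), (0, 8, 15), (0, 8, 16), (0, 8, 17), (0, 8, 18), (0, 8, 19), (0, 8, 20), (0, 8, 21), (0, 8, 22), (0, 9, 9), (0, 9, 10), (0, 9, 11)]

theorem b10 : AllL OkB b10l :=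
  AllL.cons (i := 0) (j := 8) (k := 8) (OkB.mk ⟨21, 23, 24, 63, 72, 103, 14⟩ ⟨14, 15, 15, 52, 82, 103, 7⟩
    20 0 0 16 54 (-56) 102274830264183029761 (by decide +kernel)) <|
  AllL.cons (i := 0) (j := 8) (k := 9) (OkB.mk ⟨21, 20, 22, 63, 72, 103, 14⟩ ⟨13, 12, 15, 52, 82, 103, 7⟩
    22 0 0 15 46 (-39) 85949635795148079105 (by decide +kernel)) <|
  AllL.cons (i := 0) (j := 8) (k := 10) (OkB.mk ⟨19, 18, 21, 63, 72, 103, 14⟩ ⟨11, 11, 13, 52, 82, 103, 7⟩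
    23 0 0 16 39 (-27) 73608744497903042561 (by decide +kernel)) <|
  AllL.cons (i := 0) (j := 8) (k := 11) (OkB.mk ⟨19, 16, 20, 63, 72, 103, 15⟩ ⟨11, 10, 12, 52, 82, 103, 7⟩
    25 0 0 17 34 (-19) 72886200981465858049 (by decide +kernel)) <|
  AllL.cons (i := 0) (j := 8) (k := 12) (OkB.mk ⟨18, 16, 20, 63, 72, 103, 15⟩ ⟨10, 10, 12, 52, 82, 103, 7⟩
    26 0 0 17 27 (-14) 76097567407577497601 (by decide +kernel)) <|
  AllL.cons (i := 0) (j := 8) (k := 13) (OkB.mk ⟨17, 16, 20, 63, 72, 103, 15⟩ ⟨10, 10, 12, 52, 82, 103, 7⟩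
    27 0 0 20 25 (-11) 60509275939399532545 (by decide +kernel)) <|
  AllL.cons (i := 0) (j := 8) (k := 14) (OkB.mk ⟨17, 15, 20, 63, 72, 103, 15⟩ ⟨10, 9, 12, 52, 82, 103, 7⟩
    28 0 0 24 22 (-9) 67403937461645082625 (by decide +kernel)) <|
  AllL.cons (i := 0) (j := 8) (k := 15) (OkB.mk ⟨17, 15, 21, 63, 72, 103, 15⟩ ⟨10, 9, 12, 52, 82, 103, 7⟩
    29 0 0 29 18 (-7) 55426101880234704897 (by decide +kernel)) <|
  AllL.cons (i := 0) (j := 8) (k := 16) (OkB.mk ⟨17, 14, 22, 63, 72, 103, 15⟩ ⟨10, 9, 12, 52, 82, 103, 7⟩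
    30 0 0 36 10 (-6) 62927584144727736321 (by decide +kernel)) <|
  AllL.cons (i := 0) (j := 8) (k := 17) (OkB.mk ⟨16, 14, 23, 63, 72, 103, 14⟩ ⟨10, 8, 13, 52, 82, 103, 7⟩
    32 0 0 41 (-3) (-6) 85235717809991843841 (by decide +kernel)) <|
  AllL.cons (i := 0) (j := 8) (k := 18) (OkB.mk ⟨17, 14, 22, 63, 72, 103, 14⟩ ⟨10, 9, 13, 52, 82, 103, 7⟩
    33 0 0 41 (-19) (-6) 63424808179258621953 (by decide +kernel)) <|
  AllL.cons (i := 0) (j := 8) (k := 19) (OkB.mk ⟨17, 14, 22, 63, 72, 103, 14⟩ ⟨10, 9, 13, 52, 82, 103, 7⟩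
    34 0 0 38 (-32) (-7) 69165272213653291009 (by decide +kernel)) <|
  AllL.cons (i := 0) (j := 8) (k := 20) (OkB.mk ⟨17, 14, 22, 63, 72, 103, 14⟩ ⟨10, 9, 14, 52, 82, 103, 7⟩
    35 0 0 35 (-44) (-9) 71723128235755569153 (by decide +kernel)) <|
  AllL.cons (i := 0) (j := 8) (k := 21) (OkB.mk ⟨17, 14, 21, 63, 72, 103, 14⟩ ⟨10, 9, 13, 52, 82, 103, 7⟩
    36 0 0 35 (-59) (-12) 76512780106743152641 (by decide +kernel)) <|
  AllL.cons (i := 0) (j := 8) (k := 22) (OkB.mk ⟨17, 13, 21, 63, 72, 103, 13⟩ ⟨10, 9, 13, 52, 82, 103, 7⟩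
    36 0 0 37 (-75) (-14) 80346893426152701953 (by decide +kernel)) <|
  AllL.cons (i := 0) (j := 9) (k := 9) (OkB.mk ⟨19, 19, 19, 63, 72, 103, 15⟩ ⟨11, 11, 12, 52, 82, 103, 7⟩
    24 0 0 12 30 (-32) 73275372984678219777 (by decide +kernel)) <|
  AllL.cons (i := 0) (j := 9) (k := 10) (OkB.mk ⟨19, 17, 18, 63, 72, 103, 15⟩ ⟨11, 10, 11, 52, 82, 103, 7⟩
    25 0 0 12 25 (-22) 68444068039817691137 (by decide +kernel)) <|
  AllL.cons (i := 0) (j := 9) (k := 11) (OkB.mk ⟨17, 17, 18, 63, 72, 103, 15⟩ ⟨11, 10, 11, 52, 82, 103, 7⟩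
    26 0 0 13 22 (-16) 70877794146946383873 (by decide +kernel)) <|
  AllL.nil

end Pool.Agent.MP_48470b_gt.Run
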