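import Pool.Agent.MP_48470b_gt.Run.OkB
import Pool.Agent.MP_48470b_gt.Run.B10

/-! Runs of the tests. -/

namespace Pool.Agent.MP_48470b_gt.Run

/-- the boxes of this part -/
def b11l : List (Nat × Nat × Nat) :=
  [(0, 9, 12), (0, 9, 13), (0, 9, 14), (0, 9, 15), (0, 9, 16), (0, 9, 17), (0, 9, 18), (0, 9, 19), (0, 9, 20), (0, 9, 21), (0, 9, 22), (0, 10, 10), (0, 10, 11), (0, 10, 12), (0, 10, 13), (0, 10, 14), (0, 10, 15), (0, 10, 16), (0, 10, 17), (0, 10, 18), (0, 10, 19), (0, 10, 20), (0, 10, 21)]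

theorem b11 : AllL OkB b11l :=
  AllL.cons (i := 0) (j := 9) (k := 12) (OkB.mk ⟨17, 16, 19, 63, 72, 103, 15⟩ ⟨10, 9, 11, 52, 82, 103, 7⟩
    27 0 0 14 18 (-13) 66069853136981327873 (by decide +kernel)) <|
  AllL.cons (i := 0) (j := 9) (k := 13) (OkB.mk ⟨17, 16, 19, 63, 72, 103, 15⟩ ⟨9, 9, 11, 52, 82, 103, 7⟩
    27 0 0 15 16 (-10) 56769976668749037569 (by decide +kernel)) <|
  AllL.cons (i := 0) (j := 9) (k := 14) (OkB.mk ⟨16, 15, 20, 63, 72, 103, 15⟩ ⟨9, 9, 11, 52, 82, 103, 7⟩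
    28 0 0 18 15 (-8) 78808339796019118081 (by decide +kernel)) <|
  AllL.cons (i := 0) (j := 9) (k := 15) (OkB.mk ⟨15, 15, 21, 63, 72, 103, 15⟩ ⟨9, 9, 11, 52, 82, 103, 7⟩
    29 0 0 21 12 (-7) 60177324995197796353 (by decide +kernel)) <|
  AllL.cons (i := 0) (j := 9) (k := 16) (OkB.mk ⟨15, 14, 22, 63, 72, 103, 15⟩ ⟨9, 8, 12, 52, 82, 103, 7⟩
    30 0 0 25 8 (-6) 66182669489621958657 (by decide +kernel)) <|
  AllL.cons (i := 0) (j := 9) (k := 17) (OkB.mk ⟨15, 14, 22, 63, 72, 103, 15⟩ ⟨9, 8, 12, 52, 82, 103, 7⟩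
    32 0 0 29 0 (-6) 61846403025054203905 (by decide +kernel)) <|
  AllL.cons (i := 0) (j := 9) (k := 18) (OkB.mk ⟨15, 14, 22, 63, 72, 103, 15⟩ ⟨9, 8, 13, 52, 82, 103, 7⟩
    33 0 0 30 (-10) (-6) 64553711814429376513 (by decide +kernel)) <|
  AllL.cons (i := 0) (j := 9) (k := 19) (OkB.mk ⟨15, 14, 23, 63, 72, 103, 15⟩ ⟨9, 9, 13, 52, 82, 103, 7⟩
    35 0 0 29 (-19) (-6) 65530124731699691521 (by decide +kernel)) <|
  AllL.cons (i := 0) (j := 9) (k := 20) (OkB.mk ⟨15, 14, 23, 63, 72, 103, 15⟩ ⟨9, 9, 13, 52, 82, 103, 7⟩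
    37 0 0 27 (-28) (-8) 69464426375265910785 (by decide +kernel)) <|
  AllL.cons (i := 0) (j := 9) (k := 21) (OkB.mk ⟨15, 14, 23, 63, 72, 103, 14⟩ ⟨9, 9, 13, 52, 82, 103, 7⟩
    38 0 0 27 (-37) (-9) 62537323075248062465 (by decide +kernel)) <|
  AllL.cons (i := 0) (j := 9) (k := 22) (OkB.mk ⟨15, 14, 22, 63, 72, 103, 14⟩ ⟨9, 9, 13, 52, 82, 103, 7⟩
    39 0 0 29 (-48) (-11) 67170923185050746881 (by decide +kernel)) <|
  AllL.cons (i := 0) (j := 10) (k := 10) (OkB.mk ⟨17, 18, 17, 63, 72, 103, 15⟩ ⟨9, 11, 10, 52, 82, 103, 7⟩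
    26 0 0 10 17 (-20) 66489706737288871937 (by decide +kernel)) <|
  AllL.cons (i := 0) (j := 10) (k := 11) (OkB.mk ⟨17, 17, 18, 63, 72, 103, 15⟩ ⟨9, 9, 10, 52, 82, 103, 7⟩
    26 0 0 11 15 (-15) 53271464259828580353 (by decide +kernel)) <|
  AllL.cons (i := 0) (j := 10) (k := 12) (OkB.mk ⟨16, 17, 18, 63, 72, 103, 15⟩ ⟨9, 9, 10, 52, 82, 103, 7⟩
    26 0 0 11 13 (-12) 85613611572682293249 (by decide +kernel)) <|
  AllL.cons (i := 0) (j := 10) (k := 13) (OkB.mk ⟨15, 16, 18, 63, 72, 103, 15⟩ ⟨9, 9, 10, 52, 82, 103, 7⟩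
    26 0 0 13 11 (-10) 66178290822003294209 (by decide +kernel)) <|
  AllL.cons (i := 0) (j := 10) (k := 14) (OkB.mk ⟨15, 15, 18, 63, 72, 103, 15⟩ ⟨9, 8, 10, 52, 82, 103, 7⟩
    27 0 0 14 10 (-8) 65422850055102005249 (by decide +kernel)) <|
  AllL.cons (i := 0) (j := 10) (k := 15) (OkB.mk ⟨15, 14, 19, 63, 72, 103, 15⟩ ⟨9, 8, 10, 52, 82, 103, 7⟩
    27 0 0 17 9 (-7) 62212033659682160641 (by decide +kernel)) <|
  AllL.cons (i := 0) (j := 10) (k := 16) (OkB.mk ⟨15, 14, 19, 63, 72, 103, 15⟩ ⟨9, 8, 10, 52, 82, 103, 7⟩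
    28 0 0 19 6 (-6) 62617652707578609665 (by decide +kernel)) <|
  AllL.cons (i := 0) (j := 10) (k := 17) (OkB.mk ⟨15, 14, 19, 63, 72, 103, 15⟩ ⟨9, 8, 11, 52, 82, 103, 7⟩
    29 0 0 22 2 (-6) 65478327426109931521 (by decide +kernel)) <|
  AllL.cons (i := 0) (j := 10) (k := 18) (OkB.mk ⟨15, 14, 20, 63, 72, 103, 15⟩ ⟨9, 8, 11, 52, 82, 103, 7⟩
    30 0 0 24 (-5) (-6) 57928525198988935169 (by decide +kernel)) <|
  AllL.cons (i := 0) (j := 10) (k := 19) (OkB.mk ⟨15, 14, 20, 63, 72, 103, 15⟩ ⟨9, 9, 11, 52, 82, 103, 7⟩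
    32 0 0 24 (-12) (-6) 65998243456492765185 (by decide +kernel)) <|
  AllL.cons (i := 0) (j := 10) (k := 20) (OkB.mk ⟨15, 14, 21, 63, 72, 103, 15⟩ ⟨9, 8, 12, 52, 82, 103, 7⟩
    34 0 0 23 (-19) (-7) 59128355168171589633 (by decide +kernel)) <|
  AllL.cons (i := 0) (j := 10) (k := 21) (OkB.mk ⟨15, 13, 22, 63, 72, 103, 15⟩ ⟨9, 8, 12, 52, 82, 103, 7⟩
    36 0 0 23 (-26) (-8) 68866115715578462209 (by decide +kernel)) <|
  AllL.nil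

end Pool.Agent.MP_48470b_gt.Run
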