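import Pool.Agent.MP_48470b_gt.Run.OkB
import Pool.Agent.MP_48470b_gt.Run.F6

/-! Runs of the tests. -/

namespace Pool.Agent.MP_48470b_gt.Run

/-- the boxes of this part -/
def b12l : List (Nat × Nat × Nat) :=
  [(0, 10, 22), (0, 11, 11), (0, 11, 12), (0, 11, 13), (0, 11, 14), (0, 11, 15), (0, 11, 16), (0, 11, 17), (0, 11, 18), (0, 11, 19), (0, 11, 20), (0, 11, 21), (0, 11, 22), (0, 12, 12), (0, 12, 13), (0, 12, 14), (0, 12, 15), (0, 12, 16), (0, 12, 17), (0, 12, 18), (0, 12, 19), (0, 12, 20), (0, 12, 21), (0, 12, 22), (0, 13, 13)]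

theorem b12 : AllL OkB b12l :=
  AllL.cons (i := 0) (j := 10) (k := 22) (OkB.mk ⟨15, 13, 22, 63, 72, 103, 15⟩ ⟨9, 8, 13, 52, 82, 103, 7⟩
    37 0 0 24 (-34) (-10) 60730096082286018561 (by decide +kernel)) <|
  AllL.cons (i := 0) (j := 11) (k := 11) (OkB.mk ⟨16, 17, 17, 63, 72, 103, 15⟩ ⟨9, 9, 9, 52, 82, 103, 7⟩
    26 0 0 10 11 (-15) 79778652485339578369 (by decide +kernel)) <|
  AllL.cons (i := 0) (j := 11) (k := 12) (OkB.mk ⟨15, 17, 17, 63, 72, 103, 16⟩ ⟨9, 9, 9, 52, 82, 103, 7⟩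
    25 0 0 10 10 (-12) 59822177379306962945 (by decide +kernel)) <|
  AllL.cons (i := 0) (j := 11) (k := 13) (OkB.mk ⟨15, 15, 17, 63, 72, 103, 16⟩ ⟨8, 9, 9, 52, 82, 103, 7⟩
    25 0 0 11 9 (-10) 66242518793739829249 (by decide +kernel)) <|
  AllL.cons (i := 0) (j := 11) (k := 14) (OkB.mk ⟨15, 14, 17, 63, 72, 103, 16⟩ ⟨8, 8, 9, 52, 82, 103, 7⟩
    25 0 0 12 8 (-9) 67755111305074180097 (by decide +kernel)) <|
  AllL.cons (i := 0) (j := 11) (k := 15) (OkB.mk ⟨15, 14, 17, 63, 72, 103, 16⟩ ⟨8, 8, 9, 52, 82, 103, 7⟩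
    25 0 0 14 7 (-8) 56953193376526630913 (by decide +kernel)) <|
  AllL.cons (i := 0) (j := 11) (k := 16) (OkB.mk ⟨15, 14, 17, 63, 72, 103, 15⟩ ⟨8, 8, 9, 52, 82, 103, 7⟩
    25 0 0 16 5 (-7) 57487413915747876865 (by decide +kernel)) <|
  AllL.cons (i := 0) (j := 11) (k := 17) (OkB.mk ⟨15, 14, 17, 63, 72, 103, 15⟩ ⟨8, 8, 9, 52, 82, 103, 7⟩
    26 0 0 18 2 (-6) 62187884673484455937 (by decide +kernel)) <|
  AllL.cons (i := 0) (j := 11) (k := 18) (OkB.mk ⟨14, 14, 18, 63, 72, 103, 15⟩ ⟨7, 8, 10, 52, 82, 103, 7⟩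
    27 0 0 20 (-3) (-6) 101022655020303122433 (by decide +kernel)) <|
  AllL.cons (i := 0) (j := 11) (k := 19) (OkB.mk ⟨15, 13, 18, 63, 72, 103, 15⟩ ⟨8, 8, 10, 52, 82, 103, 7⟩
    28 0 0 20 (-8) (-6) 75711615186728124417 (by decide +kernel)) <|
  AllL.cons (i := 0) (j := 11) (k := 20) (OkB.mk ⟨15, 13, 19, 63, 72, 103, 15⟩ ⟨8, 8, 10, 52, 82, 103, 7⟩
    29 0 0 20 (-14) (-7) 64983594060293865473 (by decide +kernel)) <|
  AllL.cons (i := 0) (j := 11) (k := 21) (OkB.mk ⟨15, 13, 19, 63, 72, 103, 15⟩ ⟨8, 8, 11, 52, 82, 103, 7⟩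
    31 0 0 20 (-20) (-8) 58338238140992454657 (by decide +kernel)) <|
  AllL.cons (i := 0) (j := 11) (k := 22) (OkB.mk ⟨15, 12, 20, 63, 72, 103, 15⟩ ⟨8, 8, 11, 52, 82, 103, 7⟩
    33 0 0 21 (-26) (-9) 72607610436071718913 (by decide +kernel)) <|
  AllL.cons (i := 0) (j := 12) (k := 12) (OkB.mk ⟨15, 16, 16, 63, 72, 103, 16⟩ ⟨8, 8, 9, 52, 82, 103, 7⟩
    24 0 0 9 7 (-12) 69656000745804136449 (by decide +kernel)) <|
  AllL.cons (i := 0) (j := 12) (k := 13) (OkB.mk ⟨15, 15, 16, 63, 72, 103, 16⟩ ⟨7, 8, 9, 52, 82, 103, 7⟩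
    24 0 0 10 7 (-10) 63703707000225398785 (by decide +kernel)) <|
  AllL.cons (i := 0) (j := 12) (k := 14) (OkB.mk ⟨15, 14, 16, 63, 72, 103, 16⟩ ⟨7, 8, 8, 52, 82, 103, 7⟩
    23 0 0 11 6 (-9) 63948136543978258433 (by decide +kernel)) <|
  AllL.cons (i := 0) (j := 12) (k := 15) (OkB.mk ⟨15, 14, 16, 63, 72, 103, 16⟩ ⟨7, 8, 8, 52, 82, 103, 7⟩
    23 0 0 12 5 (-8) 57352963297441218561 (by decide +kernel)) <|
  AllL.cons (i := 0) (j := 12) (k := 16) (OkB.mk ⟨14, 14, 17, 63, 72, 103, 16⟩ ⟨7, 8, 8, 52, 82, 103, 7⟩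
    23 0 0 14 4 (-7) 105209884745310142465 (by decide +kernel)) <|
  AllL.cons (i := 0) (j := 12) (k := 17) (OkB.mk ⟨14, 14, 16, 63, 72, 103, 16⟩ ⟨8, 8, 8, 52, 82, 103, 7⟩
    23 0 0 15 2 (-6) 99322473730642280449 (by decide +kernel)) <|
  AllL.cons (i := 0) (j := 12) (k := 18) (OkB.mk ⟨13, 14, 17, 63, 72, 103, 16⟩ ⟨7, 7, 9, 52, 82, 103, 7⟩
    24 0 0 17 (-1) (-6) 83539160785534058497 (by decide +kernel)) <|
  AllL.cons (i := 0) (j := 12) (k := 19) (OkB.mk ⟨13, 14, 17, 63, 72, 103, 15⟩ ⟨8, 7, 9, 52, 82, 103, 7⟩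
    25 0 0 18 (-5) (-6) 79174972635495792641 (by decide +kernel)) <|
  AllL.cons (i := 0) (j := 12) (k := 20) (OkB.mk ⟨13, 13, 18, 63, 72, 103, 15⟩ ⟨8, 7, 10, 52, 82, 103, 7⟩
    26 0 0 17 (-10) (-6) 82260517547994513409 (by decide +kernel)) <|
  AllL.cons (i := 0) (j := 12) (k := 21) (OkB.mk ⟨13, 13, 18, 63, 72, 103, 15⟩ ⟨7, 7, 10, 52, 82, 103, 7⟩
    27 0 0 18 (-15) (-7) 68238103810850947073 (by decide +kernel)) <|
  AllL.cons (i := 0) (j := 12) (k := 22) (OkB.mk ⟨13, 12, 18, 63, 72, 103, 15⟩ ⟨7, 7, 10, 52, 82, 103, 7⟩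
    29 0 0 19 (-20) (-8) 79450352194619965441 (by decide +kernel)) <|
  AllL.cons (i := 0) (j := 13) (k := 13) (OkB.mk ⟨15, 15, 15, 63, 72, 103, 16⟩ ⟨7, 8, 8, 52, 82, 103, 7⟩
    22 0 0 9 5 (-11) 60911883974703316993 (by decide +kernel)) <|
  AllL.nil

end Pool.Agent.MP_48470b_gt.Run
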