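import Pool.Agent.MP_48470b_gt.Run.OkB
import Pool.Agent.MP_48470b_gt.Run.B12

/-! Runs of the tests. -/

namespace Pool.Agent.MP_48470b_gt.Run

/-- the boxes of this part -/
def b13l : List (Nat × Nat × Nat) :=
  [(0, 13, 14), (0, 13, 15), (0, 13, 16), (0, 13, 17), (0, 13, 18), (0, 13, 19), (0, 13, 20), (0, 13, 21), (0, 13, 22), (0, 14, 14), (0, 14, 15), (0, 14, 16), (0, 14, 17), (0, 14, 18), (0, 14, 19), (0, 14, 20), (0, 14, 21), (0, 14, 22), (0, 15, 15), (0, 15, 16), (0, 15, 17), (0, 15, 18), (0, 15, 19), (0, 15, 20), (0, 15, 21), (0, 15, 22), (0, 16, 16), (0, 16, 17)]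

theorem b13 : AllL OkB b13l :=
  AllL.cons (i := 0) (j := 13) (k := 14) (OkB.mk ⟨15, 14, 15, 63, 72, 103, 16⟩ ⟨7, 7, 8, 52, 82, 103, 7⟩
    22 0 0 10 5 (-10) 66795609563833827329 (by decide +kernel)) <|
  AllL.cons (i := 0) (j := 13) (k := 15) (OkB.mk ⟨14, 14, 16, 63, 72, 103, 16⟩ ⟨7, 7, 8, 52, 82, 103, 7⟩
    22 0 0 11 4 (-9) 106797607023609380865 (by decide +kernel)) <|
  AllL.cons (i := 0) (j := 13) (k := 16) (OkB.mk ⟨13, 14, 17, 63, 72, 103, 16⟩ ⟨7, 7, 8, 52, 82, 103, 7⟩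
    21 0 0 12 4 (-8) 92843263639024566273 (by decide +kernel)) <|
  AllL.cons (i := 0) (j := 13) (k := 17) (OkB.mk ⟨13, 14, 16, 63, 72, 103, 16⟩ ⟨7, 7, 8, 52, 82, 103, 7⟩
    22 0 0 13 2 (-7) 85940698277442748417 (by decide +kernel)) <|
  AllL.cons (i := 0) (j := 13) (k := 18) (OkB.mk ⟨13, 13, 16, 63, 72, 103, 16⟩ ⟨7, 7, 8, 52, 82, 103, 7⟩
    22 0 0 14 0 (-7) 96386965563529756673 (by decide +kernel)) <|
  AllL.cons (i := 0) (j := 13) (k := 19) (OkB.mk ⟨13, 13, 16, 63, 72, 103, 16⟩ ⟨7, 8, 8, 52, 82, 103, 7⟩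
    23 0 0 15 (-3) (-6) 92656260488078819329 (by decide +kernel)) <|
  AllL.cons (i := 0) (j := 13) (k := 20) (OkB.mk ⟨13, 13, 16, 63, 72, 103, 16⟩ ⟨7, 8, 8, 52, 82, 103, 7⟩
    23 0 0 15 (-7) (-7) 80771546807032348673 (by decide +kernel)) <|
  AllL.cons (i := 0) (j := 13) (k := 21) (OkB.mk ⟨14, 12, 16, 63, 72, 103, 16⟩ ⟨8, 8, 8, 52, 82, 103, 7⟩
    24 0 0 17 (-11) (-7) 92416287402392289281 (by decide +kernel)) <|
  AllL.cons (i := 0) (j := 13) (k := 22) (OkB.mk ⟨13, 12, 16, 63, 72, 103, 15⟩ ⟨8, 8, 8, 52, 82, 103, 7⟩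
    25 0 0 18 (-16) (-8) 80625727375933440001 (by decide +kernel)) <|
  AllL.cons (i := 0) (j := 14) (k := 14) (OkB.mk ⟨14, 15, 15, 63, 72, 103, 16⟩ ⟨7, 7, 7, 52, 82, 103, 7⟩
    21 0 0 9 4 (-10) 104429837457935040513 (by decide +kernel)) <|
  AllL.cons (i := 0) (j := 14) (k := 15) (OkB.mk ⟨13, 15, 15, 63, 72, 103, 16⟩ ⟨7, 7, 7, 52, 82, 103, 7⟩
    21 0 0 10 4 (-9) 94394489552985128961 (by decide +kernel)) <|
  AllL.cons (i := 0) (j := 14) (k := 16) (OkB.mk ⟨13, 14, 16, 63, 72, 103, 16⟩ ⟨7, 7, 7, 52, 82, 103, 7⟩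
    21 0 0 11 3 (-8) 92159757458297847809 (by decide +kernel)) <|
  AllL.cons (i := 0) (j := 14) (k := 17) (OkB.mk ⟨13, 14, 15, 63, 72, 103, 16⟩ ⟨7, 8, 7, 52, 82, 103, 7⟩
    21 0 0 11 2 (-8) 92105392518179323905 (by decide +kernel)) <|
  AllL.cons (i := 0) (j := 14) (k := 18) (OkB.mk ⟨13, 13, 15, 63, 72, 103, 16⟩ ⟨7, 7, 8, 52, 82, 103, 7⟩
    21 0 0 12 1 (-7) 108862664820360478721 (by decide +kernel)) <|
  AllL.cons (i := 0) (j := 14) (k := 19) (OkB.mk ⟨13, 13, 15, 63, 72, 103, 16⟩ ⟨7, 7, 8, 52, 82, 103, 7⟩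
    21 0 0 13 (-2) (-7) 102527486766251769857 (by decide +kernel)) <|
  AllL.cons (i := 0) (j := 14) (k := 20) (OkB.mk ⟨13, 13, 15, 63, 72, 103, 16⟩ ⟨8, 7, 8, 52, 82, 103, 7⟩
    22 0 0 14 (-5) (-7) 94389262612145635329 (by decide +kernel)) <|
  AllL.cons (i := 0) (j := 14) (k := 21) (OkB.mk ⟨13, 13, 15, 63, 72, 103, 16⟩ ⟨7, 7, 8, 52, 82, 103, 7⟩
    23 0 0 15 (-8) (-7) 85939893297492262913 (by decide +kernel)) <|
  AllL.cons (i := 0) (j := 14) (k := 22) (OkB.mk ⟨13, 12, 15, 63, 72, 103, 16⟩ ⟨7, 7, 8, 52, 82, 103, 7⟩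
    23 0 0 16 (-12) (-8) 101256450912225853441 (by decide +kernel)) <|
  AllL.cons (i := 0) (j := 15) (k := 15) (OkB.mk ⟨13, 15, 15, 63, 72, 103, 16⟩ ⟨7, 7, 8, 52, 82, 103, 7⟩
    20 0 0 9 3 (-10) 88615063911743356929 (by decide +kernel)) <|
  AllL.cons (i := 0) (j := 15) (k := 16) (OkB.mk ⟨13, 14, 15, 63, 72, 103, 16⟩ ⟨7, 7, 7, 52, 82, 103, 7⟩
    20 0 0 10 3 (-9) 99933469593418334209 (by decide +kernel)) <|
  AllL.cons (i := 0) (j := 15) (k := 17) (OkB.mk ⟨13, 14, 15, 63, 72, 103, 16⟩ ⟨7, 7, 7, 52, 82, 103, 7⟩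
    20 0 0 10 2 (-8) 91751101146968621057 (by decide +kernel)) <|
  AllL.cons (i := 0) (j := 15) (k := 18) (OkB.mk ⟨13, 13, 15, 63, 72, 103, 16⟩ ⟨7, 8, 7, 52, 82, 103, 7⟩
    20 0 0 11 1 (-7) 126840296348204400641 (by decide +kernel)) <|
  AllL.cons (i := 0) (j := 15) (k := 19) (OkB.mk ⟨13, 13, 15, 63, 72, 103, 16⟩ ⟨7, 8, 7, 52, 82, 103, 7⟩
    20 0 0 12 (-1) (-7) 117972246887028228097 (by decide +kernel)) <|
  AllL.cons (i := 0) (j := 15) (k := 20) (OkB.mk ⟨13, 13, 15, 63, 72, 103, 16⟩ ⟨7, 7, 8, 52, 82, 103, 7⟩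
    21 0 0 12 (-4) (-7) 126414967454868439041 (by decide +kernel)) <|
  AllL.cons (i := 0) (j := 15) (k := 21) (OkB.mk ⟨13, 13, 15, 63, 72, 103, 16⟩ ⟨7, 7, 8, 52, 82, 103, 7⟩
    22 0 0 13 (-7) (-7) 106342533729401962497 (by decide +kernel)) <|
  AllL.cons (i := 0) (j := 15) (k := 22) (OkB.mk ⟨13, 13, 15, 63, 72, 103, 16⟩ ⟨7, 7, 8, 52, 82, 103, 7⟩
    22 0 0 15 (-10) (-8) 84146386972694282241 (by decide +kernel)) <|
  AllL.cons (i := 0) (j := 16) (k := 16) (OkB.mk ⟨13, 14, 15, 63, 72, 103, 16⟩ ⟨7, 7, 7, 52, 82, 103, 7⟩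
    20 0 0 9 2 (-9) 103848465187190341633 (by decide +kernel)) <|
  AllL.cons (i := 0) (j := 16) (k := 17) (OkB.mk ⟨13, 14, 14, 63, 72, 103, 16⟩ ⟨7, 7, 7, 52, 82, 103, 7⟩
    20 0 0 9 2 (-8) 114776075024417685505 (by decide +kernel)) <|
  AllL.nil

end Pool.Agent.MP_48470b_gt.Run
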