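import Pool.Agent.MP_48470b_gt.Run.OkF

/-! Runs of the tests. -/

namespace Pool.Agent.MP_48470b_gt.Run

/-- the boxes of this part -/
def f7l : List (Nat × Nat × Nat) :=
  [(0, 19, 22), (0, 20, 20), (0, 20, 21), (0, 20, 22), (0, 21, 21), (0, 21, 22), (0, 22, 22), (1, 1, 1), (1, 1, 2), (1, 1, 3), (1, 1, 4), (1, 1, 5), (1, 1, 6), (1, 1, 7), (1, 1, 8), (1, 1, 9), (1, 1, 10), (1, 1, 11), (1, 1, 12), (1, 1, 13), (1, 1, 14), (1, 1, 15), (1, 1, 16), (1, 1, 17), (1, 1, 18), (1, 1, 19), (1, 1, 20), (1, 1, 21), (1, 1, 22), (1, 2, 2), (1, 2, 3), (1, 2, 4), (1, 2, 5), (1, 2, 6), (1, 2, 7), (1, 2, 8), (1, 2, 9), (1, 2, 10), (1, 2, 11), (1, 2, 12), (1, 2, 13), (1, 2, 14), (1, 2, 15), (1, 2, 16), (1, 2, 17), (1, 2, 18), (1, 2, 19)]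

theorem f7 : AllL OkF f7l :=
  AllL.cons (i := 0) (j := 19) (k := 22) (OkF.mk (by decide +kernel)) <|
  AllL.cons (i := 0) (j := 20) (k := 20) (OkF.mk (by decide +kernel)) <|
  AllL.cons (i := 0) (j := 20) (k := 21) (OkF.mk (by decide +kernel)) <|
  AllL.cons (i := 0) (j := 20) (k := 22) (OkF.mk (by decide +kernel)) <|
  AllL.cons (i := 0) (j := 21) (k := 21) (OkF.mk (by decide +kernel)) <|
  AllL.cons (i := 0) (j := 21) (k := 22) (OkF.mk (by decide +kernel)) <|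
  AllL.cons (i := 0) (j := 22) (k := 22) (OkF.mk (by decide +kernel)) <|
  AllL.cons (i := 1) (j := 1) (k := 1) (OkF.mk (by decide +kernel)) <|
  AllL.cons (i := 1) (j := 1) (k := 2) (OkF.mk (by decide +kernel)) <|
  AllL.cons (i := 1) (j := 1) (k := 3) (OkF.mk (by decide +kernel)) <|
  AllL.cons (i := 1) (j := 1) (k := 4) (OkF.mk (by decide +kernel)) <|
  AllL.cons (i := 1) (j := 1) (k := 5) (OkF.mk (by decide +kernel)) <|
  AllL.cons (i := 1) (j := 1) (k := 6) (OkF.mk (by decide +kernel)) <|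
  AllL.cons (i := 1) (j := 1) (k := 7) (OkF.mk (by decide +kernel)) <|
  AllL.cons (i := 1) (j := 1) (k := 8) (OkF.mk (by decide +kernel)) <|
  AllL.cons (i := 1) (j := 1) (k := 9) (OkF.mk (by decide +kernel)) <|
  AllL.cons (i := 1) (j := 1) (k := 10) (OkF.mk (by decide +kernel)) <|
  AllL.cons (i := 1) (j := 1) (k := 11) (OkF.mk (by decide +kernel)) <|
  AllL.cons (i := 1) (j := 1) (k := 12) (OkF.mk (by decide +kernel)) <|
  AllL.cons (i := 1) (j := 1) (k := 13) (OkF.mk (by decide +kernel)) <|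
  AllL.cons (i := 1) (j := 1) (k := 14) (OkF.mk (by decide +kernel)) <|
  AllL.cons (i := 1) (j := 1) (k := 15) (OkF.mk (by decide +kernel)) <|
  AllL.cons (i := 1) (j := 1) (k := 16) (OkF.mk (by decide +kernel)) <|
  AllL.cons (i := 1) (j := 1) (k := 17) (OkF.mk (by decide +kernel)) <|
  AllL.cons (i := 1) (j := 1) (k := 18) (OkF.mk (by decide +kernel)) <|
  AllL.cons (i := 1) (j := 1) (k := 19) (OkF.mk (by decide +kernel)) <|
  AllL.cons (i := 1) (j := 1) (k := 20) (OkF.mk (by decide +kernel)) <|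
  AllL.cons (i := 1) (j := 1) (k := 21) (OkF.mk (by decide +kernel)) <|
  AllL.cons (i := 1) (j := 1) (k := 22) (OkF.mk (by decide +kernel)) <|
  AllL.cons (i := 1) (j := 2) (k := 2) (OkF.mk (by decide +kernel)) <|
  AllL.cons (i := 1) (j := 2) (k := 3) (OkF.mk (by decide +kernel)) <|
  AllL.cons (i := 1) (j := 2) (k := 4) (OkF.mk (by decide +kernel)) <|
  AllL.cons (i := 1) (j := 2) (k := 5) (OkF.mk (by decide +kernel)) <|
  AllL.cons (i := 1) (j := 2) (k := 6) (OkF.mk (by decide +kernel)) <|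
  AllL.cons (i := 1) (j := 2) (k := 7) (OkF.mk (by decide +kernel)) <|
  AllL.cons (i := 1) (j := 2) (k := 8) (OkF.mk (by decide +kernel)) <|
  AllL.cons (i := 1) (j := 2) (k := 9) (OkF.mk (by decide +kernel)) <|
  AllL.cons (i := 1) (j := 2) (k := 10) (OkF.mk (by decide +kernel)) <|
  AllL.cons (i := 1) (j := 2) (k := 11) (OkF.mk (by decide +kernel)) <|
  AllL.cons (i := 1) (j := 2) (k := 12) (OkF.mk (by decide +kernel)) <|
  AllL.cons (i := 1) (j := 2) (k := 13) (OkF.mk (by decide +kernel)) <|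
  AllL.cons (i := 1) (j := 2) (k := 14) (OkF.mk (by decide +kernel)) <|
  AllL.cons (i := 1) (j := 2) (k := 15) (OkF.mk (by decide +kernel)) <|
  AllL.cons (i := 1) (j := 2) (k := 16) (OkF.mk (by decide +kernel)) <|
  AllL.cons (i := 1) (j := 2) (k := 17) (OkF.mk (by decide +kernel)) <|
  AllL.cons (i := 1) (j := 2) (k := 18) (OkF.mk (by decide +kernel)) <|
  AllL.cons (i := 1) (j := 2) (k := 19) (OkF.mk (by decide +kernel)) <|
  AllL.nil

end Pool.Agent.MP_48470b_gt.Run
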