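import Pool.Agent.MP_48470b_gt.Run.OkB
import Pool.Agent.MP_48470b_gt.Run.F7

/-! Runs of the tests. -/

namespace Pool.Agent.MP_48470b_gt.Run

/-- the boxes of this part -/
def b14l : List (Nat × Nat × Nat) :=
  [(0, 16, 18), (0, 16, 19), (0, 16, 20), (0, 16, 21), (0, 16, 22), (0, 17, 17), (0, 17, 18), (0, 17, 19), (0, 17, 20), (0, 17, 21), (0, 17, 22), (0, 18, 18), (0, 18, 19), (0, 18, 20), (0, 18, 21), (0, 18, 22), (0, 19, 19), (0, 19, 20), (0, 19, 21), (0, 19, 22), (0, 20, 20), (0, 20, 21), (0, 20, 22), (0, 21, 21), (0, 21, 22), (0, 22, 22), (1, 1, 1), (1, 1, 2), (1, 1, 3)]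

theorem b14 : AllL OkB b14l :=
  AllL.cons (i := 0) (j := 16) (k := 18) (OkB.mk ⟨13, 14, 14, 63, 72, 103, 16⟩ ⟨7, 8, 7, 52, 82, 103, 7⟩
    20 0 0 10 1 (-8) 119384452749796048897 (by decide +kernel)) <|
  AllL.cons (i := 0) (j := 16) (k := 19) (OkB.mk ⟨13, 14, 14, 63, 72, 103, 16⟩ ⟨7, 8, 7, 52, 82, 103, 7⟩
    20 0 0 11 (-1) (-7) 126204176782172618753 (by decide +kernel)) <|
  AllL.cons (i := 0) (j := 16) (k := 20) (OkB.mk ⟨13, 14, 14, 63, 72, 103, 16⟩ ⟨7, 8, 7, 52, 82, 103, 7⟩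
    21 0 0 11 (-3) (-7) 128716373522347196417 (by decide +kernel)) <|
  AllL.cons (i := 0) (j := 16) (k := 21) (OkB.mk ⟨13, 13, 15, 63, 72, 103, 16⟩ ⟨7, 8, 8, 52, 82, 103, 7⟩
    21 0 0 12 (-6) (-8) 137753025120183517185 (by decide +kernel)) <|
  AllL.cons (i := 0) (j := 16) (k := 22) (OkB.mk ⟨13, 13, 14, 63, 72, 103, 16⟩ ⟨7, 7, 8, 52, 82, 103, 7⟩
    22 0 0 13 (-8) (-8) 128734832810749067265 (by decide +kernel)) <|
  AllL.cons (i := 0) (j := 17) (k := 17) (OkB.mk ⟨13, 14, 14, 63, 72, 103, 16⟩ ⟨7, 7, 8, 52, 82, 103, 7⟩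
    20 0 0 9 1 (-9) 101955332113799577601 (by decide +kernel)) <|
  AllL.cons (i := 0) (j := 17) (k := 18) (OkB.mk ⟨13, 14, 14, 63, 72, 103, 16⟩ ⟨7, 8, 8, 52, 82, 103, 7⟩
    20 0 0 9 1 (-8) 112689731919503425537 (by decide +kernel)) <|
  AllL.cons (i := 0) (j := 17) (k := 19) (OkB.mk ⟨13, 14, 14, 63, 72, 103, 16⟩ ⟨7, 8, 8, 52, 82, 103, 7⟩
    20 0 0 10 (-1) (-7) 126573201884073426945 (by decide +kernel)) <|
  AllL.cons (i := 0) (j := 17) (k := 20) (OkB.mk ⟨13, 14, 14, 63, 72, 103, 16⟩ ⟨7, 8, 8, 52, 82, 103, 7⟩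
    20 0 0 10 (-2) (-7) 149027542008529420289 (by decide +kernel)) <|
  AllL.cons (i := 0) (j := 17) (k := 21) (OkB.mk ⟨13, 14, 14, 63, 72, 103, 16⟩ ⟨7, 8, 8, 52, 82, 103, 7⟩
    21 0 0 11 (-5) (-8) 132842003108408066049 (by decide +kernel)) <|
  AllL.cons (i := 0) (j := 17) (k := 22) (OkB.mk ⟨13, 13, 14, 63, 72, 103, 16⟩ ⟨7, 8, 7, 52, 82, 103, 7⟩
    21 0 0 12 (-7) (-8) 146627369010550800385 (by decide +kernel)) <|
  AllL.cons (i := 0) (j := 18) (k := 18) (OkB.mk ⟨13, 14, 14, 63, 72, 103, 16⟩ ⟨7, 8, 8, 52, 82, 103, 7⟩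
    20 0 0 8 0 (-8) 129586518778231914497 (by decide +kernel)) <|
  AllL.cons (i := 0) (j := 18) (k := 19) (OkB.mk ⟨13, 14, 14, 63, 72, 103, 16⟩ ⟨7, 8, 8, 52, 82, 103, 7⟩
    20 0 0 9 (-1) (-8) 170676786321462132737 (by decide +kernel)) <|
  AllL.cons (i := 0) (j := 18) (k := 20) (OkB.mk ⟨13, 14, 14, 63, 72, 103, 15⟩ ⟨7, 8, 8, 52, 82, 103, 7⟩
    20 0 0 9 (-2) (-8) 217194934989647511553 (by decide +kernel)) <|
  AllL.cons (i := 0) (j := 18) (k := 21) (OkB.mk ⟨13, 14, 14, 63, 72, 103, 15⟩ ⟨7, 8, 8, 52, 82, 103, 7⟩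
    21 0 0 11 (-4) (-8) 171486994862054572033 (by decide +kernel)) <|
  AllL.cons (i := 0) (j := 18) (k := 22) (OkB.mk ⟨13, 13, 14, 63, 72, 103, 15⟩ ⟨7, 8, 8, 52, 82, 103, 7⟩
    21 0 0 12 (-6) (-8) 209379722337892433921 (by decide +kernel)) <|
  AllL.cons (i := 0) (j := 19) (k := 19) (OkB.mk ⟨13, 14, 14, 63, 72, 103, 15⟩ ⟨7, 8, 8, 52, 82, 103, 7⟩
    20 0 0 8 (-1) (-8) 219139429412267622401 (by decide +kernel)) <|
  AllL.cons (i := 0) (j := 19) (k := 20) (OkB.mk ⟨13, 15, 14, 63, 72, 103, 15⟩ ⟨8, 8, 8, 52, 82, 103, 7⟩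
    21 0 0 9 (-2) (-8) 203570412108046663681 (by decide +kernel)) <|
  AllL.cons (i := 0) (j := 19) (k := 21) (OkB.mk ⟨13, 14, 14, 63, 72, 103, 15⟩ ⟨8, 8, 8, 52, 82, 103, 7⟩
    21 0 0 10 (-4) (-8) 257971242760002338817 (by decide +kernel)) <|
  AllL.cons (i := 0) (j := 19) (k := 22) (OkB.mk ⟨13, 14, 14, 63, 72, 103, 15⟩ ⟨7, 8, 8, 52, 82, 103, 7⟩
    21 0 0 11 (-6) (-9) 193632020650262528001 (by decide +kernel)) <|
  AllL.cons (i := 0) (j := 20) (k := 20) (OkB.mk ⟨13, 15, 15, 63, 72, 103, 15⟩ ⟨7, 8, 9, 52, 82, 103, 7⟩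
    21 0 0 8 (-3) (-9) 208966953028441604097 (by decide +kernel)) <|
  AllL.cons (i := 0) (j := 20) (k := 21) (OkB.mk ⟨13, 15, 15, 63, 72, 103, 15⟩ ⟨7, 8, 9, 52, 82, 103, 7⟩
    21 0 0 10 (-4) (-9) 219032198853574000641 (by decide +kernel)) <|
  AllL.cons (i := 0) (j := 20) (k := 22) (OkB.mk ⟨13, 14, 15, 63, 72, 103, 15⟩ ⟨7, 8, 9, 52, 82, 103, 7⟩
    22 0 0 11 (-6) (-9) 236538609384567078913 (by decide +kernel)) <|
  AllL.cons (i := 0) (j := 21) (k := 21) (OkB.mk ⟨13, 15, 15, 63, 72, 103, 15⟩ ⟨7, 8, 10, 52, 82, 103, 7⟩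
    22 0 0 9 (-4) (-10) 248025117199989473281 (by decide +kernel)) <|
  AllL.cons (i := 0) (j := 21) (k := 22) (OkB.mk ⟨13, 14, 15, 63, 72, 103, 15⟩ ⟨7, 8, 9, 52, 82, 103, 7⟩
    22 0 0 10 (-6) (-10) 308592458623329763329 (by decide +kernel)) <|
  AllL.cons (i := 0) (j := 22) (k := 22) (OkB.mk ⟨13, 14, 15, 63, 72, 103, 15⟩ ⟨7, 8, 9, 52, 82, 103, 7⟩
    22 0 0 10 (-6) (-12) 323397748278949838849 (by decide +kernel)) <|
  AllL.cons (i := 1) (j := 1) (k := 1) (OkB.mk ⟨15, 15, 15, 63, 72, 103, 15⟩ ⟨7, 7, 9, 52, 82, 103, 7⟩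
    34 (-2) 2 34 2 (-34) 186240556069000577025 (by decide +kernel)) <|
  AllL.cons (i := 1) (j := 1) (k := 2) (OkB.mk ⟨15, 15, 15, 63, 72, 103, 15⟩ ⟨7, 8, 8, 52, 82, 103, 7⟩
    32 (-4) 1 35 4 (-32) 185219874752011698177 (by decide +kernel)) <|
  AllL.cons (i := 1) (j := 1) (k := 3) (OkB.mk ⟨15, 15, 15, 63, 72, 103, 15⟩ ⟨8, 8, 8, 52, 82, 103, 7⟩
    30 (-5) 0 38 6 (-31) 214061525999529492481 (by decide +kernel)) <|
  AllL.nil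

end Pool.Agent.MP_48470b_gt.Run
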