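import Pool.Agent.MP_48470b_gt.Run.OkB
import Pool.Agent.MP_48470b_gt.Run.B14

/-! Runs of the tests. -/

namespace Pool.Agent.MP_48470b_gt.Run

/-- the boxes of this part -/
def b15l : List (Nat × Nat × Nat) :=
  [(1, 1, 4), (1, 1, 5), (1, 1, 6), (1, 1, 7), (1, 1, 8), (1, 1, 9), (1, 1, 10), (1, 1, 11), (1, 1, 12), (1, 1, 13), (1, 1, 14), (1, 1, 15), (1, 1, 16), (1, 1, 17), (1, 1, 18), (1, 1, 19), (1, 1, 20), (1, 1, 21), (1, 1, 22), (1, 2, 2), (1, 2, 3), (1, 2, 4)]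

theorem b15 : AllL OkB b15l :=
  AllL.cons (i := 1) (j := 1) (k := 4) (OkB.mk ⟨15, 15, 16, 63, 72, 103, 15⟩ ⟨8, 8, 9, 52, 82, 103, 7⟩
    28 (-5) 0 43 7 (-29) 216642570859300519937 (by decide +kernel)) <|
  AllL.cons (i := 1) (j := 1) (k := 5) (OkB.mk ⟨15, 16, 16, 63, 72, 103, 14⟩ ⟨8, 9, 9, 52, 82, 103, 7⟩
    27 (-5) 1 52 9 (-27) 209372624165701419009 (by decide +kernel)) <|
  AllL.cons (i := 1) (j := 1) (k := 6) (OkB.mk ⟨16, 16, 17, 63, 72, 103, 14⟩ ⟨9, 9, 9, 52, 82, 103, 7⟩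
    25 (-5) 2 65 11 (-26) 186087781264783310849 (by decide +kernel)) <|
  AllL.cons (i := 1) (j := 1) (k := 7) (OkB.mk ⟨17, 16, 18, 63, 72, 103, 14⟩ ⟨10, 10, 10, 52, 82, 103, 7⟩
    24 (-5) 3 80 15 (-24) 175971766864627892225 (by decide +kernel)) <|
  AllL.cons (i := 1) (j := 1) (k := 8) (OkB.mk ⟨17, 16, 19, 63, 72, 103, 13⟩ ⟨10, 10, 12, 52, 82, 103, 7⟩
    23 (-5) 3 95 19 (-24) 209774060946243715073 (by decide +kernel)) <|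
  AllL.cons (i := 1) (j := 1) (k := 9) (OkB.mk ⟨18, 16, 19, 63, 72, 103, 13⟩ ⟨11, 9, 12, 52, 82, 103, 7⟩
    22 (-5) 3 106 23 (-23) 174205105803416829953 (by decide +kernel)) <|
  AllL.cons (i := 1) (j := 1) (k := 10) (OkB.mk ⟨18, 16, 19, 63, 72, 103, 13⟩ ⟨11, 9, 12, 52, 82, 103, 7⟩
    21 (-5) 2 116 26 (-22) 182947210468238819329 (by decide +kernel)) <|
  AllL.cons (i := 1) (j := 1) (k := 11) (OkB.mk ⟨18, 16, 19, 63, 72, 103, 13⟩ ⟨11, 9, 12, 52, 82, 103, 7⟩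
    20 (-5) 2 127 29 (-21) 176531800363456528385 (by decide +kernel)) <|
  AllL.cons (i := 1) (j := 1) (k := 12) (OkB.mk ⟨18, 16, 19, 63, 72, 103, 13⟩ ⟨11, 9, 12, 52, 82, 103, 7⟩
    20 (-5) 1 130 29 (-20) 184918882069518483457 (by decide +kernel)) <|
  AllL.cons (i := 1) (j := 1) (k := 13) (OkB.mk ⟨18, 16, 19, 63, 72, 103, 13⟩ ⟨11, 9, 11, 52, 82, 103, 7⟩
    19 (-5) 1 146 32 (-20) 170889029036701384705 (by decide +kernel)) <|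
  AllL.cons (i := 1) (j := 1) (k := 14) (OkB.mk ⟨18, 15, 19, 63, 72, 103, 13⟩ ⟨11, 9, 11, 52, 82, 103, 7⟩
    19 (-4) 1 163 37 (-20) 191562987156904345601 (by decide +kernel)) <|
  AllL.cons (i := 1) (j := 1) (k := 15) (OkB.mk ⟨18, 15, 19, 63, 72, 103, 13⟩ ⟨10, 9, 11, 52, 82, 103, 7⟩
    19 (-4) 0 178 38 (-19) 168533731368859860993 (by decide +kernel)) <|
  AllL.cons (i := 1) (j := 1) (k := 16) (OkB.mk ⟨18, 15, 18, 63, 72, 103, 13⟩ ⟨10, 9, 11, 52, 82, 103, 7⟩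
    19 (-3) 0 189 34 (-19) 204695146807441752065 (by decide +kernel)) <|
  AllL.cons (i := 1) (j := 1) (k := 17) (OkB.mk ⟨18, 15, 18, 63, 72, 103, 12⟩ ⟨10, 8, 11, 52, 82, 103, 7⟩
    19 (-2) 0 199 24 (-19) 187960962325298544641 (by decide +kernel)) <|
  AllL.cons (i := 1) (j := 1) (k := 18) (OkB.mk ⟨17, 15, 19, 63, 72, 103, 12⟩ ⟨10, 8, 11, 52, 82, 103, 7⟩
    19 (-1) 0 206 9 (-19) 217921387682238300161 (by decide +kernel)) <|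
  AllL.cons (i := 1) (j := 1) (k := 19) (OkB.mk ⟨18, 14, 19, 63, 72, 103, 12⟩ ⟨10, 8, 10, 52, 82, 103, 7⟩
    19 1 0 212 (-9) (-19) 180436335066162921473 (by decide +kernel)) <|
  AllL.cons (i := 1) (j := 1) (k := 20) (OkB.mk ⟨17, 14, 18, 63, 72, 103, 12⟩ ⟨10, 8, 10, 52, 82, 103, 7⟩
    19 2 0 217 (-27) (-19) 207323591063730388993 (by decide +kernel)) <|
  AllL.cons (i := 1) (j := 1) (k := 21) (OkB.mk ⟨17, 13, 19, 63, 72, 103, 12⟩ ⟨10, 8, 10, 52, 82, 103, 7⟩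
    19 4 (-1) 241 (-48) (-20) 195148281132387139585 (by decide +kernel)) <|
  AllL.cons (i := 1) (j := 1) (k := 22) (OkB.mk ⟨17, 13, 18, 63, 72, 103, 12⟩ ⟨10, 8, 10, 52, 82, 103, 7⟩
    20 5 (-1) 268 (-71) (-20) 164179985005872676865 (by decide +kernel)) <|
  AllL.cons (i := 1) (j := 2) (k := 2) (OkB.mk ⟨15, 15, 15, 63, 72, 103, 15⟩ ⟨7, 8, 9, 52, 82, 103, 7⟩
    31 (-3) 2 34 7 (-35) 193103698166290579457 (by decide +kernel)) <|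
  AllL.cons (i := 1) (j := 2) (k := 3) (OkB.mk ⟨15, 15, 16, 63, 72, 103, 15⟩ ⟨8, 8, 8, 52, 82, 103, 7⟩
    30 (-4) 1 37 10 (-34) 205990412874086875137 (by decide +kernel)) <|
  AllL.cons (i := 1) (j := 2) (k := 4) (OkB.mk ⟨15, 16, 16, 63, 72, 103, 15⟩ ⟨8, 8, 10, 52, 82, 103, 7⟩
    27 (-6) 1 42 14 (-32) 217501516764622618625 (by decide +kernel)) <|
  AllL.nil

end Pool.Agent.MP_48470b_gt.Run
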