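import Pool.Agent.MP_48470b_gt.Run.OkB
import Pool.Agent.MP_48470b_gt.Run.F8

/-! Runs of the tests. -/

namespace Pool.Agent.MP_48470b_gt.Run

/-- the boxes of this part -/
def b16l : List (Nat × Nat × Nat) :=
  [(1, 2, 5), (1, 2, 6), (1, 2, 7), (1, 2, 8), (1, 2, 9), (1, 2, 10), (1, 2, 11), (1, 2, 12), (1, 2, 13), (1, 2, 14), (1, 2, 15), (1, 2, 16), (1, 2, 17), (1, 2, 18), (1, 2, 19), (1, 2, 20), (1, 2, 21)]

theorem b16 : AllL OkB b16l :=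
  AllL.cons (i := 1) (j := 2) (k := 5) (OkB.mk ⟨16, 16, 16, 63, 72, 103, 14⟩ ⟨8, 10, 10, 52, 82, 103, 7⟩
    25 (-7) 1 50 18 (-31) 197723828983775100929 (by decide +kernel)) <|
  AllL.cons (i := 1) (j := 2) (k := 6) (OkB.mk ⟨16, 16, 17, 63, 72, 103, 14⟩ ⟨9, 9, 10, 52, 82, 103, 7⟩
    23 (-7) 2 60 24 (-29) 201017324805313003521 (by decide +kernel)) <|
  AllL.cons (i := 1) (j := 2) (k := 7) (OkB.mk ⟨17, 16, 18, 63, 72, 103, 14⟩ ⟨10, 9, 11, 52, 82, 103, 7⟩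
    22 (-7) 3 72 31 (-28) 179370448290670706689 (by decide +kernel)) <|
  AllL.cons (i := 1) (j := 2) (k := 8) (OkB.mk ⟨17, 16, 19, 63, 72, 103, 14⟩ ⟨10, 10, 12, 52, 82, 103, 7⟩
    21 (-6) 3 82 40 (-26) 204272243986512478209 (by decide +kernel)) <|
  AllL.cons (i := 1) (j := 2) (k := 9) (OkB.mk ⟨18, 16, 19, 63, 72, 103, 13⟩ ⟨11, 9, 12, 52, 82, 103, 7⟩
    20 (-5) 3 90 49 (-25) 180784499683705749505 (by decide +kernel)) <|
  AllL.cons (i := 1) (j := 2) (k := 10) (OkB.mk ⟨18, 16, 20, 63, 72, 103, 13⟩ ⟨11, 9, 12, 52, 82, 103, 7⟩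
    19 (-4) 3 100 57 (-23) 186369979582706089985 (by decide +kernel)) <|
  AllL.cons (i := 1) (j := 2) (k := 11) (OkB.mk ⟨19, 16, 20, 63, 72, 103, 13⟩ ⟨11, 10, 12, 52, 82, 103, 7⟩
    19 (-3) 3 112 65 (-22) 152414834968009637889 (by decide +kernel)) <|
  AllL.cons (i := 1) (j := 2) (k := 12) (OkB.mk ⟨19, 16, 20, 63, 72, 103, 13⟩ ⟨11, 10, 13, 52, 82, 103, 7⟩
    19 (-3) 2 119 65 (-21) 187345713963863113729 (by decide +kernel)) <|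
  AllL.cons (i := 1) (j := 2) (k := 13) (OkB.mk ⟨19, 16, 21, 63, 72, 103, 13⟩ ⟨12, 9, 13, 52, 82, 103, 7⟩
    19 (-3) 1 139 68 (-20) 163601200985499762689 (by decide +kernel)) <|
  AllL.cons (i := 1) (j := 2) (k := 14) (OkB.mk ⟨19, 16, 21, 63, 72, 103, 13⟩ ⟨12, 9, 12, 52, 82, 103, 7⟩
    19 (-2) 1 160 68 (-19) 159763115130579058689 (by decide +kernel)) <|
  AllL.cons (i := 1) (j := 2) (k := 15) (OkB.mk ⟨19, 15, 21, 63, 72, 103, 13⟩ ⟨12, 9, 12, 52, 82, 103, 7⟩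
    19 (-2) 1 178 60 (-18) 165002184545399734273 (by decide +kernel)) <|
  AllL.cons (i := 1) (j := 2) (k := 16) (OkB.mk ⟨18, 15, 22, 63, 72, 103, 12⟩ ⟨11, 9, 12, 52, 82, 103, 7⟩
    19 (-1) 1 193 44 (-18) 196937264616104263681 (by decide +kernel)) <|
  AllL.cons (i := 1) (j := 2) (k := 17) (OkB.mk ⟨18, 15, 21, 63, 72, 103, 12⟩ ⟨11, 9, 12, 52, 82, 103, 7⟩
    19 (-1) 1 205 21 (-17) 184254959702710943745 (by decide +kernel)) <|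
  AllL.cons (i := 1) (j := 2) (k := 18) (OkB.mk ⟨18, 15, 21, 63, 72, 103, 12⟩ ⟨11, 9, 12, 52, 82, 103, 7⟩
    19 1 0 215 (-7) (-18) 167033205585323491329 (by decide +kernel)) <|
  AllL.cons (i := 1) (j := 2) (k := 19) (OkB.mk ⟨18, 14, 21, 63, 72, 103, 12⟩ ⟨11, 9, 12, 52, 82, 103, 7⟩
    19 2 0 222 (-41) (-18) 182521311065806995457 (by decide +kernel)) <|
  AllL.cons (i := 1) (j := 2) (k := 20) (OkB.mk ⟨18, 14, 21, 63, 72, 103, 12⟩ ⟨11, 9, 12, 52, 82, 103, 7⟩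
    19 3 (-1) 225 (-76) (-19) 157395765440907575297 (by decide +kernel)) <|
  AllL.cons (i := 1) (j := 2) (k := 21) (OkB.mk ⟨18, 13, 21, 63, 72, 103, 12⟩ ⟨11, 8, 12, 52, 82, 103, 7⟩
    20 4 (-2) 243 (-117) (-20) 180501291189474951169 (by decide +kernel)) <|
  AllL.nil

end Pool.Agent.MP_48470b_gt.Run
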