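import Pool.Agent.MP_48470b_gt.Run.OkB
import Pool.Agent.MP_48470b_gt.Run.B16

/-! Runs of the tests. -/

namespace Pool.Agent.MP_48470b_gt.Run

/-- the boxes of this part -/
def b17l : List (Nat × Nat × Nat) :=
  [(1, 2, 22), (1, 3, 3), (1, 3, 4), (1, 3, 5), (1, 3, 6), (1, 3, 7), (1, 3, 8), (1, 3, 9), (1, 3, 10), (1, 3, 11), (1, 3, 12), (1, 3, 13), (1, 3, 14), (1, 3, 15), (1, 3, 16)]

theorem b17 : AllL OkB b17l :=
  AllL.cons (i := 1) (j := 2) (k := 22) (OkB.mk ⟨17, 13, 20, 63, 72, 103, 12⟩ ⟨10, 8, 12, 52, 82, 103, 7⟩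
    20 5 (-3) 261 (-158) (-22) 189334224035966353409 (by decide +kernel)) <|
  AllL.cons (i := 1) (j := 3) (k := 3) (OkB.mk ⟨15, 16, 16, 63, 72, 103, 15⟩ ⟨8, 9, 9, 52, 82, 103, 7⟩
    28 (-4) 3 36 14 (-39) 203793467420633464833 (by decide +kernel)) <|
  AllL.cons (i := 1) (j := 3) (k := 4) (OkB.mk ⟨16, 16, 16, 63, 72, 103, 15⟩ ⟨9, 9, 9, 52, 82, 103, 7⟩
    26 (-7) 2 41 20 (-38) 186799609628090957825 (by decide +kernel)) <|
  AllL.cons (i := 1) (j := 3) (k := 5) (OkB.mk ⟨16, 16, 17, 63, 72, 103, 14⟩ ⟨9, 9, 10, 52, 82, 103, 7⟩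
    24 (-8) 2 47 28 (-37) 214957647080181465089 (by decide +kernel)) <|
  AllL.cons (i := 1) (j := 3) (k := 6) (OkB.mk ⟨17, 16, 18, 63, 72, 103, 14⟩ ⟨10, 10, 10, 52, 82, 103, 7⟩
    21 (-8) 2 54 38 (-35) 202942988304601055233 (by decide +kernel)) <|
  AllL.cons (i := 1) (j := 3) (k := 7) (OkB.mk ⟨18, 16, 18, 63, 72, 103, 14⟩ ⟨10, 10, 11, 52, 82, 103, 7⟩
    20 (-7) 2 60 49 (-34) 197776733497574031361 (by decide +kernel)) <|
  AllL.cons (i := 1) (j := 3) (k := 8) (OkB.mk ⟨18, 16, 20, 63, 72, 103, 14⟩ ⟨11, 10, 11, 52, 82, 103, 7⟩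
    19 (-6) 2 66 61 (-33) 184709143354572537857 (by decide +kernel)) <|
  AllL.cons (i := 1) (j := 3) (k := 9) (OkB.mk ⟨19, 16, 20, 63, 72, 103, 13⟩ ⟨11, 10, 12, 52, 82, 103, 7⟩
    18 (-4) 3 72 74 (-31) 160608698258771935233 (by decide +kernel)) <|
  AllL.cons (i := 1) (j := 3) (k := 10) (OkB.mk ⟨19, 16, 21, 63, 72, 103, 13⟩ ⟨11, 10, 14, 52, 82, 103, 7⟩
    18 (-3) 4 80 86 (-29) 177801453719049469953 (by decide +kernel)) <|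
  AllL.cons (i := 1) (j := 3) (k := 11) (OkB.mk ⟨20, 16, 22, 63, 72, 103, 13⟩ ⟨12, 10, 14, 52, 82, 103, 7⟩
    18 (-2) 4 91 97 (-27) 154154127123221053441 (by decide +kernel)) <|
  AllL.cons (i := 1) (j := 3) (k := 12) (OkB.mk ⟨21, 16, 23, 63, 72, 103, 13⟩ ⟨13, 11, 14, 52, 82, 103, 7⟩
    18 (-2) 3 101 98 (-25) 172686612762932019201 (by decide +kernel)) <|
  AllL.cons (i := 1) (j := 3) (k := 13) (OkB.mk ⟨21, 16, 24, 63, 72, 103, 13⟩ ⟨13, 11, 15, 52, 82, 103, 7⟩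
    18 (-1) 3 126 102 (-22) 182404834988713312257 (by decide +kernel)) <|
  AllL.cons (i := 1) (j := 3) (k := 14) (OkB.mk ⟨21, 16, 24, 63, 72, 103, 13⟩ ⟨13, 11, 15, 52, 82, 103, 7⟩
    19 0 3 156 90 (-19) 170923045590002565121 (by decide +kernel)) <|
  AllL.cons (i := 1) (j := 3) (k := 15) (OkB.mk ⟨20, 16, 24, 63, 72, 103, 12⟩ ⟨13, 10, 15, 52, 82, 103, 7⟩
    19 0 3 180 60 (-18) 163598829338918649857 (by decide +kernel)) <|
  AllL.cons (i := 1) (j := 3) (k := 16) (OkB.mk ⟨20, 15, 24, 63, 72, 103, 12⟩ ⟨13, 10, 15, 52, 82, 103, 7⟩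
    19 1 2 195 25 (-17) 157165059039219941377 (by decide +kernel)) <|
  AllL.nil

end Pool.Agent.MP_48470b_gt.Run
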