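import Pool.Agent.MP_48470b_gt.Run.OkB
import Pool.Agent.MP_48470b_gt.Run.F9

/-! Runs of the tests. -/

namespace Pool.Agent.MP_48470b_gt.Run

/-- the boxes of this part -/
def b18l : List (Nat × Nat × Nat) :=
  [(1, 3, 17), (1, 3, 18), (1, 3, 19), (1, 3, 20), (1, 3, 21), (1, 3, 22), (1, 4, 4), (1, 4, 5), (1, 4, 6), (1, 4, 7), (1, 4, 8), (1, 4, 9), (1, 4, 10), (1, 4, 11), (1, 4, 12)]

theorem b18 : AllL OkB b18l :=
  AllL.cons (i := 1) (j := 3) (k := 17) (OkB.mk ⟨19, 15, 24, 63, 72, 103, 12⟩ ⟨13, 9, 15, 52, 82, 103, 7⟩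
    19 2 2 204 (-11) (-17) 186692944218374012929 (by decide +kernel)) <|
  AllL.cons (i := 1) (j := 3) (k := 18) (OkB.mk ⟨20, 14, 24, 63, 72, 103, 12⟩ ⟨13, 9, 15, 52, 82, 103, 7⟩
    20 3 1 211 (-48) (-18) 181655942500750196737 (by decide +kernel)) <|
  AllL.cons (i := 1) (j := 3) (k := 19) (OkB.mk ⟨19, 15, 23, 63, 72, 103, 12⟩ ⟨13, 9, 15, 52, 82, 103, 7⟩
    20 3 0 215 (-90) (-19) 183585484802183135233 (by decide +kernel)) <|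
  AllL.cons (i := 1) (j := 3) (k := 20) (OkB.mk ⟨19, 14, 24, 63, 72, 103, 12⟩ ⟨13, 9, 15, 52, 82, 103, 7⟩
    20 4 (-2) 215 (-134) (-21) 181045457910881058817 (by decide +kernel)) <|
  AllL.cons (i := 1) (j := 3) (k := 21) (OkB.mk ⟨19, 14, 23, 63, 72, 103, 12⟩ ⟨12, 9, 15, 52, 82, 103, 7⟩
    21 5 (-3) 226 (-187) (-24) 164310977385232072705 (by decide +kernel)) <|
  AllL.cons (i := 1) (j := 3) (k := 22) (OkB.mk ⟨18, 13, 24, 63, 72, 103, 12⟩ ⟨11, 9, 15, 52, 82, 103, 7⟩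
    21 5 (-4) 238 (-239) (-27) 196421336651834327041 (by decide +kernel)) <|
  AllL.cons (i := 1) (j := 4) (k := 4) (OkB.mk ⟨16, 16, 17, 63, 72, 103, 15⟩ ⟨9, 9, 10, 52, 82, 103, 7⟩
    24 (-7) 4 38 25 (-46) 221025268462958673921 (by decide +kernel)) <|
  AllL.cons (i := 1) (j := 4) (k := 5) (OkB.mk ⟨17, 16, 17, 63, 72, 103, 14⟩ ⟨10, 10, 10, 52, 82, 103, 7⟩
    22 (-8) 2 42 36 (-45) 209781133005033570305 (by decide +kernel)) <|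
  AllL.cons (i := 1) (j := 4) (k := 6) (OkB.mk ⟨18, 17, 17, 63, 72, 103, 14⟩ ⟨11, 10, 10, 52, 82, 103, 7⟩
    20 (-8) 0 45 48 (-44) 195751717440405372929 (by decide +kernel)) <|
  AllL.cons (i := 1) (j := 4) (k := 7) (OkB.mk ⟨19, 16, 20, 63, 72, 103, 14⟩ ⟨12, 11, 11, 52, 82, 103, 7⟩
    19 (-7) 0 50 63 (-44) 195502145893086265345 (by decide +kernel)) <|
  AllL.cons (i := 1) (j := 4) (k := 8) (OkB.mk ⟨20, 16, 21, 63, 72, 103, 13⟩ ⟨12, 10, 13, 52, 82, 103, 7⟩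
    18 (-5) 2 54 79 (-43) 184501026969033375745 (by decide +kernel)) <|
  AllL.cons (i := 1) (j := 4) (k := 9) (OkB.mk ⟨20, 16, 22, 63, 72, 103, 13⟩ ⟨12, 10, 14, 52, 82, 103, 7⟩
    18 (-4) 3 58 93 (-41) 183063752790908076033 (by decide +kernel)) <|
  AllL.cons (i := 1) (j := 4) (k := 10) (OkB.mk ⟨21, 16, 23, 63, 72, 103, 13⟩ ⟨13, 11, 15, 52, 82, 103, 7⟩
    18 (-3) 4 64 107 (-39) 176533463512232493057 (by decide +kernel)) <|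
  AllL.cons (i := 1) (j := 4) (k := 11) (OkB.mk ⟨21, 16, 26, 63, 72, 103, 13⟩ ⟨14, 11, 16, 52, 82, 103, 7⟩
    18 (-3) 4 73 118 (-35) 164283187916034801665 (by decide +kernel)) <|
  AllL.cons (i := 1) (j := 4) (k := 12) (OkB.mk ⟨22, 17, 26, 63, 72, 103, 13⟩ ⟨15, 12, 17, 52, 82, 103, 7⟩
    18 (-3) 5 82 117 (-31) 146495660711682768897 (by decide +kernel)) <|
  AllL.nil

end Pool.Agent.MP_48470b_gt.Run
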