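import Pool.Agent.MP_48470b_gt.Run.OkB
import Pool.Agent.MP_48470b_gt.Run.B18

/-! Runs of the tests. -/

namespace Pool.Agent.MP_48470b_gt.Run

/-- the boxes of this part -/
def b19l : List (Nat × Nat × Nat) :=
  [(1, 4, 13), (1, 4, 14), (1, 4, 15), (1, 4, 16), (1, 4, 17), (1, 4, 18), (1, 4, 19), (1, 4, 20), (1, 4, 21), (1, 4, 22), (1, 5, 5), (1, 5, 6), (1, 5, 7)]

theorem b19 : AllL OkB b19l :=
  AllL.cons (i := 1) (j := 4) (k := 13) (OkB.mk ⟨22, 17, 27, 63, 72, 103, 13⟩ ⟨15, 12, 18, 52, 82, 103, 7⟩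
    18 (-2) 6 106 119 (-25) 148582927543803314177 (by decide +kernel)) <|
  AllL.cons (i := 1) (j := 4) (k := 14) (OkB.mk ⟨22, 17, 27, 63, 72, 103, 13⟩ ⟨15, 12, 18, 52, 82, 103, 7⟩
    19 (-1) 6 138 98 (-20) 142982069187982131201 (by decide +kernel)) <|
  AllL.cons (i := 1) (j := 4) (k := 15) (OkB.mk ⟨22, 16, 27, 63, 72, 103, 13⟩ ⟨15, 11, 18, 52, 82, 103, 7⟩
    19 1 6 166 55 (-17) 144837417819162279937 (by decide +kernel)) <|
  AllL.cons (i := 1) (j := 4) (k := 16) (OkB.mk ⟨21, 15, 28, 63, 72, 103, 12⟩ ⟨15, 10, 18, 52, 82, 103, 7⟩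
    20 3 5 179 5 (-16) 155868260803121512449 (by decide +kernel)) <|
  AllL.cons (i := 1) (j := 4) (k := 17) (OkB.mk ⟨21, 15, 27, 63, 72, 103, 12⟩ ⟨14, 10, 18, 52, 82, 103, 7⟩
    20 4 4 182 (-39) (-16) 148564875487020580865 (by decide +kernel)) <|
  AllL.cons (i := 1) (j := 4) (k := 18) (OkB.mk ⟨21, 15, 27, 63, 72, 103, 12⟩ ⟨14, 10, 19, 52, 82, 103, 7⟩
    21 5 3 184 (-79) (-18) 144038238754585968641 (by decide +kernel)) <|
  AllL.cons (i := 1) (j := 4) (k := 19) (OkB.mk ⟨21, 15, 27, 63, 72, 103, 12⟩ ⟨14, 10, 19, 52, 82, 103, 7⟩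
    21 6 1 185 (-122) (-20) 149150257539232825345 (by decide +kernel)) <|
  AllL.cons (i := 1) (j := 4) (k := 20) (OkB.mk ⟨20, 15, 28, 63, 72, 103, 12⟩ ⟨14, 10, 19, 52, 82, 103, 7⟩
    22 6 0 181 (-169) (-23) 162038319011334193153 (by decide +kernel)) <|
  AllL.cons (i := 1) (j := 4) (k := 21) (OkB.mk ⟨21, 14, 27, 63, 72, 103, 12⟩ ⟨13, 10, 19, 52, 82, 103, 7⟩
    22 7 (-3) 189 (-225) (-28) 171474330824564801537 (by decide +kernel)) <|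
  AllL.cons (i := 1) (j := 4) (k := 22) (OkB.mk ⟨20, 14, 26, 63, 72, 103, 12⟩ ⟨13, 10, 18, 52, 82, 103, 7⟩
    22 7 (-4) 198 (-281) (-32) 175908816387963879425 (by decide +kernel)) <|
  AllL.cons (i := 1) (j := 5) (k := 5) (OkB.mk ⟨19, 16, 17, 63, 72, 103, 14⟩ ⟨10, 10, 10, 52, 82, 103, 7⟩
    20 (-7) 3 36 42 (-55) 198487031615573721089 (by decide +kernel)) <|
  AllL.cons (i := 1) (j := 5) (k := 6) (OkB.mk ⟨19, 17, 18, 63, 72, 103, 14⟩ ⟨11, 11, 11, 52, 82, 103, 7⟩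
    19 (-7) 0 38 55 (-55) 176568088370341740545 (by decide +kernel)) <|
  AllL.cons (i := 1) (j := 5) (k := 7) (OkB.mk ⟨20, 17, 21, 63, 72, 103, 14⟩ ⟨12, 12, 13, 52, 82, 103, 7⟩
    18 (-6) 0 41 71 (-54) 171012005701416386561 (by decide +kernel)) <|
  AllL.nil

end Pool.Agent.MP_48470b_gt.Run
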