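import Pool.Agent.MP_48470b_gt.Run.OkB
import Pool.Agent.MP_48470b_gt.Run.F10

/-! Runs of the tests. -/

namespace Pool.Agent.MP_48470b_gt.Run

/-- the boxes of this part -/
def b20l : List (Nat × Nat × Nat) :=
  [(1, 5, 8), (1, 5, 9), (1, 5, 10), (1, 5, 11), (1, 5, 12), (1, 5, 13), (1, 5, 14), (1, 5, 15), (1, 5, 16), (1, 5, 17)]

theorem b20 : AllL OkB b20l :=
  AllL.cons (i := 1) (j := 5) (k := 8) (OkB.mk ⟨21, 18, 23, 63, 72, 103, 13⟩ ⟨13, 13, 14, 52, 82, 103, 7⟩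
    18 (-6) 0 43 87 (-53) 149897306146196160513 (by decide +kernel)) <|
  AllL.cons (i := 1) (j := 5) (k := 9) (OkB.mk ⟨21, 18, 26, 63, 72, 103, 13⟩ ⟨14, 12, 16, 52, 82, 103, 7⟩
    17 (-6) 1 46 100 (-50) 147625319299024945153 (by decide +kernel)) <|
  AllL.cons (i := 1) (j := 5) (k := 10) (OkB.mk ⟨22, 18, 27, 63, 72, 103, 13⟩ ⟨14, 12, 18, 52, 82, 103, 7⟩
    18 (-6) 2 49 110 (-45) 123478686331081588737 (by decide +kernel)) <|
  AllL.cons (i := 1) (j := 5) (k := 11) (OkB.mk ⟨23, 17, 28, 63, 72, 103, 13⟩ ⟨15, 12, 18, 52, 82, 103, 7⟩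
    18 (-6) 4 55 115 (-38) 130427390773977677825 (by decide +kernel)) <|
  AllL.cons (i := 1) (j := 5) (k := 12) (OkB.mk ⟨22, 18, 28, 63, 72, 103, 13⟩ ⟨16, 12, 19, 52, 82, 103, 7⟩
    18 (-6) 6 60 108 (-31) 120844946964232536065 (by decide +kernel)) <|
  AllL.cons (i := 1) (j := 5) (k := 13) (OkB.mk ⟨22, 17, 28, 63, 72, 103, 13⟩ ⟨16, 12, 19, 52, 82, 103, 7⟩
    19 (-6) 7 76 103 (-24) 117293602609280581633 (by decide +kernel)) <|
  AllL.cons (i := 1) (j := 5) (k := 14) (OkB.mk ⟨22, 17, 27, 63, 72, 103, 13⟩ ⟨15, 11, 19, 52, 82, 103, 7⟩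
    19 (-4) 9 99 90 (-18) 113546250515468255233 (by decide +kernel)) <|
  AllL.cons (i := 1) (j := 5) (k := 15) (OkB.mk ⟨21, 16, 28, 63, 72, 103, 13⟩ ⟨15, 11, 18, 52, 82, 103, 7⟩
    20 (-2) 10 125 54 (-14) 115165548706132918273 (by decide +kernel)) <|
  AllL.cons (i := 1) (j := 5) (k := 16) (OkB.mk ⟨21, 15, 27, 63, 72, 103, 13⟩ ⟨14, 11, 18, 52, 82, 103, 7⟩
    20 2 10 141 8 (-13) 119485561914940981249 (by decide +kernel)) <|
  AllL.cons (i := 1) (j := 5) (k := 17) (OkB.mk ⟨21, 15, 27, 63, 72, 103, 13⟩ ⟨14, 11, 18, 52, 82, 103, 7⟩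
    21 5 9 144 (-39) (-13) 109748270996438122497 (by decide +kernel)) <|
  AllL.nil

end Pool.Agent.MP_48470b_gt.Run
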