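import Pool.Agent.MP_48470b_gt.Run.OkB
import Pool.Agent.MP_48470b_gt.Run.B20

/-! Runs of the tests. -/

namespace Pool.Agent.MP_48470b_gt.Run

/-- the boxes of this part -/
def b21l : List (Nat × Nat × Nat) :=
  [(1, 5, 18), (1, 5, 19), (1, 5, 20), (1, 5, 21), (1, 5, 22), (1, 6, 6), (1, 6, 7), (1, 6, 8), (1, 6, 9), (1, 6, 10), (1, 6, 11)]

theorem b21 : AllL OkB b21l :=
  AllL.cons (i := 1) (j := 5) (k := 18) (OkB.mk ⟨21, 15, 27, 63, 72, 103, 12⟩ ⟨14, 11, 18, 52, 82, 103, 7⟩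
    21 8 7 142 (-78) (-14) 110511286848698974209 (by decide +kernel)) <|
  AllL.cons (i := 1) (j := 5) (k := 19) (OkB.mk ⟨21, 15, 28, 63, 72, 103, 12⟩ ⟨15, 11, 18, 52, 82, 103, 7⟩
    22 9 5 136 (-121) (-17) 103897530068946124801 (by decide +kernel)) <|
  AllL.cons (i := 1) (j := 5) (k := 20) (OkB.mk ⟨21, 15, 28, 63, 72, 103, 12⟩ ⟨15, 10, 19, 52, 82, 103, 7⟩
    22 10 3 129 (-162) (-21) 113521845892817092609 (by decide +kernel)) <|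
  AllL.cons (i := 1) (j := 5) (k := 21) (OkB.mk ⟨20, 15, 29, 63, 72, 103, 12⟩ ⟨14, 10, 19, 52, 82, 103, 7⟩
    23 11 0 132 (-212) (-27) 125888835198059020289 (by decide +kernel)) <|
  AllL.cons (i := 1) (j := 5) (k := 22) (OkB.mk ⟨20, 14, 29, 63, 72, 103, 12⟩ ⟨14, 10, 19, 52, 82, 103, 7⟩
    23 11 (-2) 138 (-264) (-32) 140396998466386001921 (by decide +kernel)) <|
  AllL.cons (i := 1) (j := 6) (k := 6) (OkB.mk ⟨21, 19, 19, 63, 72, 103, 14⟩ ⟨12, 12, 12, 52, 82, 103, 7⟩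
    18 (-6) 2 32 58 (-66) 173078693936472522753 (by decide +kernel)) <|
  AllL.cons (i := 1) (j := 6) (k := 7) (OkB.mk ⟨22, 20, 23, 63, 72, 103, 14⟩ ⟨14, 13, 14, 52, 82, 103, 7⟩
    18 (-7) 0 33 70 (-63) 138693730160391225345 (by decide +kernel)) <|
  AllL.cons (i := 1) (j := 6) (k := 8) (OkB.mk ⟨23, 20, 25, 63, 72, 103, 13⟩ ⟨14, 14, 16, 52, 82, 103, 7⟩
    18 (-7) 1 33 83 (-58) 140179724248499093505 (by decide +kernel)) <|
  AllL.cons (i := 1) (j := 6) (k := 9) (OkB.mk ⟨22, 20, 27, 63, 72, 103, 13⟩ ⟨15, 14, 18, 52, 82, 103, 7⟩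
    18 (-8) 1 34 89 (-50) 114514927956120305665 (by decide +kernel)) <|
  AllL.cons (i := 1) (j := 6) (k := 10) (OkB.mk ⟨22, 19, 27, 63, 72, 103, 13⟩ ⟨15, 14, 18, 52, 82, 103, 7⟩
    18 (-9) 2 36 87 (-41) 99939326829298450433 (by decide +kernel)) <|
  AllL.cons (i := 1) (j := 6) (k := 11) (OkB.mk ⟨21, 18, 27, 63, 72, 103, 13⟩ ⟨15, 12, 18, 52, 82, 103, 7⟩
    18 (-9) 5 39 83 (-32) 96552340771001335809 (by decide +kernel)) <|
  AllL.nil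

end Pool.Agent.MP_48470b_gt.Run
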