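import Pool.Agent.MP_48470b_gt.Run.OkB
import Pool.Agent.MP_48470b_gt.Run.F11

/-! Runs of the tests. -/

namespace Pool.Agent.MP_48470b_gt.Run

/-- the boxes of this part -/
def b22l : List (Nat × Nat × Nat) :=
  [(1, 6, 12), (1, 6, 13), (1, 6, 14), (1, 6, 15), (1, 6, 16), (1, 6, 17), (1, 6, 18), (1, 6, 19), (1, 6, 20), (1, 6, 21), (1, 6, 22), (1, 7, 7), (1, 7, 8)]

theorem b22 : AllL OkB b22l :=
  AllL.cons (i := 1) (j := 6) (k := 12) (OkB.mk ⟨21, 17, 27, 63, 72, 103, 13⟩ ⟨14, 12, 18, 52, 82, 103, 7⟩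
    19 (-10) 6 41 69 (-24) 94375204668789751809 (by decide +kernel)) <|
  AllL.cons (i := 1) (j := 6) (k := 13) (OkB.mk ⟨21, 16, 25, 63, 72, 103, 13⟩ ⟨14, 12, 17, 52, 82, 103, 7⟩
    20 (-9) 8 49 66 (-18) 91127912799752159233 (by decide +kernel)) <|
  AllL.cons (i := 1) (j := 6) (k := 14) (OkB.mk ⟨20, 16, 24, 63, 72, 103, 13⟩ ⟨14, 10, 17, 52, 82, 103, 7⟩
    20 (-8) 10 62 57 (-14) 89458382595738828801 (by decide +kernel)) <|
  AllL.cons (i := 1) (j := 6) (k := 15) (OkB.mk ⟨20, 15, 24, 63, 72, 103, 13⟩ ⟨13, 10, 16, 52, 82, 103, 7⟩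
    21 (-5) 13 77 40 (-11) 89405541578736402433 (by decide +kernel)) <|
  AllL.cons (i := 1) (j := 6) (k := 16) (OkB.mk ⟨19, 15, 24, 63, 72, 103, 13⟩ ⟨13, 10, 15, 52, 82, 103, 7⟩
    21 0 14 91 14 (-10) 93491535282444435457 (by decide +kernel)) <|
  AllL.cons (i := 1) (j := 6) (k := 17) (OkB.mk ⟨20, 14, 24, 63, 72, 103, 13⟩ ⟨13, 10, 15, 52, 82, 103, 7⟩
    22 5 14 97 (-19) (-10) 90384758388096499713 (by decide +kernel)) <|
  AllL.cons (i := 1) (j := 6) (k := 18) (OkB.mk ⟨20, 14, 24, 63, 72, 103, 13⟩ ⟨13, 10, 15, 52, 82, 103, 7⟩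
    22 9 12 96 (-53) (-11) 92451628180010172417 (by decide +kernel)) <|
  AllL.cons (i := 1) (j := 6) (k := 19) (OkB.mk ⟨19, 15, 24, 63, 72, 103, 13⟩ ⟨13, 10, 16, 52, 82, 103, 7⟩
    23 12 9 91 (-83) (-13) 91596473665658552321 (by decide +kernel)) <|
  AllL.cons (i := 1) (j := 6) (k := 20) (OkB.mk ⟨20, 14, 25, 63, 72, 103, 13⟩ ⟨14, 10, 16, 52, 82, 103, 7⟩
    23 14 6 85 (-110) (-17) 96800227041872969729 (by decide +kernel)) <|
  AllL.cons (i := 1) (j := 6) (k := 21) (OkB.mk ⟨19, 14, 25, 63, 72, 103, 12⟩ ⟨14, 10, 16, 52, 82, 103, 7⟩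
    24 14 4 86 (-151) (-21) 97636954703415738369 (by decide +kernel)) <|
  AllL.cons (i := 1) (j := 6) (k := 22) (OkB.mk ⟨19, 14, 25, 63, 72, 103, 12⟩ ⟨14, 11, 16, 52, 82, 103, 7⟩
    24 14 3 89 (-192) (-26) 98448443487859769345 (by decide +kernel)) <|
  AllL.cons (i := 1) (j := 7) (k := 7) (OkB.mk ⟨22, 23, 24, 63, 72, 103, 14⟩ ⟨14, 15, 16, 52, 82, 103, 7⟩
    18 (-8) 0 25 63 (-69) 124835744126574002177 (by decide +kernel)) <|
  AllL.cons (i := 1) (j := 7) (k := 8) (OkB.mk ⟨22, 22, 25, 63, 72, 103, 14⟩ ⟨15, 15, 16, 52, 82, 103, 7⟩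
    18 (-9) 1 24 66 (-56) 111135382293008351233 (by decide +kernel)) <|
  AllL.nil

end Pool.Agent.MP_48470b_gt.Run
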