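import Pool.Agent.MP_48470b_gt.Run.OkB
import Pool.Agent.MP_48470b_gt.Run.B22

/-! Runs of the tests. -/

namespace Pool.Agent.MP_48470b_gt.Run

/-- the boxes of this part -/
def b23l : List (Nat × Nat × Nat) :=
  [(1, 7, 9), (1, 7, 10), (1, 7, 11), (1, 7, 12), (1, 7, 13), (1, 7, 14), (1, 7, 15), (1, 7, 16), (1, 7, 17), (1, 7, 18), (1, 7, 19), (1, 7, 20), (1, 7, 21), (1, 7, 22), (1, 8, 8)]

theorem b23 : AllL OkB b23l :=
  AllL.cons (i := 1) (j := 7) (k := 9) (OkB.mk ⟨21, 21, 25, 63, 72, 103, 14⟩ ⟨14, 15, 16, 52, 82, 103, 7⟩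
    18 (-10) 2 24 63 (-43) 90586348484930043905 (by decide +kernel)) <|
  AllL.cons (i := 1) (j := 7) (k := 10) (OkB.mk ⟨20, 19, 24, 63, 72, 103, 14⟩ ⟨13, 15, 16, 52, 82, 103, 7⟩
    19 (-11) 4 26 57 (-32) 85487835826240880641 (by decide +kernel)) <|
  AllL.cons (i := 1) (j := 7) (k := 11) (OkB.mk ⟨19, 17, 24, 63, 72, 103, 14⟩ ⟨13, 11, 15, 52, 82, 103, 7⟩
    20 (-12) 5 27 49 (-24) 83607394827886395393 (by decide +kernel)) <|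
  AllL.cons (i := 1) (j := 7) (k := 12) (OkB.mk ⟨19, 16, 23, 63, 72, 103, 14⟩ ⟨12, 11, 14, 52, 82, 103, 7⟩
    21 (-12) 7 28 40 (-18) 79530765802151084033 (by decide +kernel)) <|
  AllL.cons (i := 1) (j := 7) (k := 13) (OkB.mk ⟨19, 15, 22, 63, 72, 103, 14⟩ ⟨11, 11, 14, 52, 82, 103, 7⟩
    21 (-12) 10 33 36 (-14) 77496965884027076609 (by decide +kernel)) <|
  AllL.cons (i := 1) (j := 7) (k := 14) (OkB.mk ⟨18, 15, 21, 63, 72, 103, 14⟩ ⟨11, 10, 13, 52, 82, 103, 7⟩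
    22 (-11) 12 39 30 (-11) 75156629683221561345 (by decide +kernel)) <|
  AllL.cons (i := 1) (j := 7) (k := 15) (OkB.mk ⟨18, 15, 21, 63, 72, 103, 14⟩ ⟨11, 10, 13, 52, 82, 103, 7⟩
    23 (-8) 16 47 23 (-9) 67994353627845099521 (by decide +kernel)) <|
  AllL.cons (i := 1) (j := 7) (k := 16) (OkB.mk ⟨18, 14, 22, 63, 72, 103, 14⟩ ⟨11, 10, 13, 52, 82, 103, 7⟩
    23 (-3) 18 56 10 (-8) 75670066841337724929 (by decide +kernel)) <|
  AllL.cons (i := 1) (j := 7) (k := 17) (OkB.mk ⟨18, 14, 21, 63, 72, 103, 14⟩ ⟨11, 9, 13, 52, 82, 103, 7⟩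
    24 3 19 61 (-8) (-8) 70014201430607396865 (by decide +kernel)) <|
  AllL.cons (i := 1) (j := 7) (k := 18) (OkB.mk ⟨18, 14, 21, 63, 72, 103, 14⟩ ⟨11, 9, 14, 52, 82, 103, 7⟩
    24 9 18 62 (-28) (-9) 71097634212655661057 (by decide +kernel)) <|
  AllL.cons (i := 1) (j := 7) (k := 19) (OkB.mk ⟨18, 14, 21, 63, 72, 103, 13⟩ ⟨11, 9, 14, 52, 82, 103, 7⟩
    25 14 15 60 (-45) (-10) 74874179714574974977 (by decide +kernel)) <|
  AllL.cons (i := 1) (j := 7) (k := 20) (OkB.mk ⟨18, 14, 21, 63, 72, 103, 13⟩ ⟨11, 10, 14, 52, 82, 103, 7⟩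
    25 17 12 57 (-63) (-13) 75195849812740145153 (by decide +kernel)) <|
  AllL.cons (i := 1) (j := 7) (k := 21) (OkB.mk ⟨18, 14, 21, 63, 72, 103, 13⟩ ⟨11, 9, 14, 52, 82, 103, 7⟩
    26 18 9 59 (-88) (-16) 72309900757860089857 (by decide +kernel)) <|
  AllL.cons (i := 1) (j := 7) (k := 22) (OkB.mk ⟨18, 13, 21, 63, 72, 103, 13⟩ ⟨11, 9, 14, 52, 82, 103, 7⟩
    26 19 6 61 (-112) (-19) 87535150941293510657 (by decide +kernel)) <|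
  AllL.cons (i := 1) (j := 8) (k := 8) (OkB.mk ⟨21, 22, 23, 63, 72, 103, 14⟩ ⟨14, 15, 15, 52, 82, 103, 7⟩
    19 (-11) 2 18 47 (-51) 96705262634898817025 (by decide +kernel)) <|
  AllL.nil

end Pool.Agent.MP_48470b_gt.Run
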