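import Pool.Agent.MP_48470b_gt.Run.OkF

/-! Runs of the tests. -/

namespace Pool.Agent.MP_48470b_gt.Run

/-- the boxes of this part -/
def f13l : List (Nat × Nat × Nat) :=
  [(1, 16, 19), (1, 16, 20), (1, 16, 21), (1, 16, 22), (1, 17, 17), (1, 17, 18), (1, 17, 19), (1, 17, 20), (1, 17, 21), (1, 17, 22), (1, 18, 18), (1, 18, 19), (1, 18, 20), (1, 18, 21), (1, 18, 22), (1, 19, 19), (1, 19, 20), (1, 19, 21), (1, 19, 22), (1, 20, 20), (1, 20, 21), (1, 20, 22), (1, 21, 21), (1, 21, 22), (1, 22, 22), (2, 2, 2), (2, 2, 3), (2, 2, 4), (2, 2, 5), (2, 2, 6), (2, 2, 7), (2, 2, 8), (2, 2, 9), (2, 2, 10), (2, 2, 11), (2, 2, 12), (2, 2, 13), (2, 2, 14), (2, 2, 15), (2, 2, 16), (2, 2, 17), (2, 2, 18), (2, 2, 19), (2, 2, 20), (2, 2, 21), (2, 2, 22), (2, 3, 3), (2, 3, 4), (2, 3, 5), (2, 3, 6), (2, 3, 7)]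

theorem f13 : AllL OkF f13l :=
  AllL.cons (i := 1) (j := 16) (k := 19) (OkF.mk (by decide +kernel)) <|
  AllL.cons (i := 1) (j := 16) (k := 20) (OkF.mk (by decide +kernel)) <|
  AllL.cons (i := 1) (j := 16) (k := 21) (OkF.mk (by decide +kernel)) <|
  AllL.cons (i := 1) (j := 16) (k := 22) (OkF.mk (by decide +kernel)) <|
  AllL.cons (i := 1) (j := 17) (k := 17) (OkF.mk (by decide +kernel)) <|
  AllL.cons (i := 1) (j := 17) (k := 18) (OkF.mk (by decide +kernel)) <|
  AllL.cons (i := 1) (j := 17) (k := 19) (OkF.mk (by decide +kernel)) <|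
  AllL.cons (i := 1) (j := 17) (k := 20) (OkF.mk (by decide +kernel)) <|
  AllL.cons (i := 1) (j := 17) (k := 21) (OkF.mk (by decide +kernel)) <|
  AllL.cons (i := 1) (j := 17) (k := 22) (OkF.mk (by decide +kernel)) <|
  AllL.cons (i := 1) (j := 18) (k := 18) (OkF.mk (by decide +kernel)) <|
  AllL.cons (i := 1) (j := 18) (k := 19) (OkF.mk (by decide +kernel)) <|
  AllL.cons (i := 1) (j := 18) (k := 20) (OkF.mk (by decide +kernel)) <|
  AllL.cons (i := 1) (j := 18) (k := 21) (OkF.mk (by decide +kernel)) <|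
  AllL.cons (i := 1) (j := 18) (k := 22) (OkF.mk (by decide +kernel)) <|
  AllL.cons (i := 1) (j := 19) (k := 19) (OkF.mk (by decide +kernel)) <|
  AllL.cons (i := 1) (j := 19) (k := 20) (OkF.mk (by decide +kernel)) <|
  AllL.cons (i := 1) (j := 19) (k := 21) (OkF.mk (by decide +kernel)) <|
  AllL.cons (i := 1) (j := 19) (k := 22) (OkF.mk (by decide +kernel)) <|
  AllL.cons (i := 1) (j := 20) (k := 20) (OkF.mk (by decide +kernel)) <|
  AllL.cons (i := 1) (j := 20) (k := 21) (OkF.mk (by decide +kernel)) <|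
  AllL.cons (i := 1) (j := 20) (k := 22) (OkF.mk (by decide +kernel)) <|
  AllL.cons (i := 1) (j := 21) (k := 21) (OkF.mk (by decide +kernel)) <|
  AllL.cons (i := 1) (j := 21) (k := 22) (OkF.mk (by decide +kernel)) <|
  AllL.cons (i := 1) (j := 22) (k := 22) (OkF.mk (by decide +kernel)) <|
  AllL.cons (i := 2) (j := 2) (k := 2) (OkF.mk (by decide +kernel)) <|
  AllL.cons (i := 2) (j := 2) (k := 3) (OkF.mk (by decide +kernel)) <|
  AllL.cons (i := 2) (j := 2) (k := 4) (OkF.mk (by decide +kernel)) <|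
  AllL.cons (i := 2) (j := 2) (k := 5) (OkF.mk (by decide +kernel)) <|
  AllL.cons (i := 2) (j := 2) (k := 6) (OkF.mk (by decide +kernel)) <|
  AllL.cons (i := 2) (j := 2) (k := 7) (OkF.mk (by decide +kernel)) <|
  AllL.cons (i := 2) (j := 2) (k := 8) (OkF.mk (by decide +kernel)) <|
  AllL.cons (i := 2) (j := 2) (k := 9) (OkF.mk (by decide +kernel)) <|
  AllL.cons (i := 2) (j := 2) (k := 10) (OkF.mk (by decide +kernel)) <|
  AllL.cons (i := 2) (j := 2) (k := 11) (OkF.mk (by decide +kernel)) <|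
  AllL.cons (i := 2) (j := 2) (k := 12) (OkF.mk (by decide +kernel)) <|
  AllL.cons (i := 2) (j := 2) (k := 13) (OkF.mk (by decide +kernel)) <|
  AllL.cons (i := 2) (j := 2) (k := 14) (OkF.mk (by decide +kernel)) <|
  AllL.cons (i := 2) (j := 2) (k := 15) (OkF.mk (by decide +kernel)) <|
  AllL.cons (i := 2) (j := 2) (k := 16) (OkF.mk (by decide +kernel)) <|
  AllL.cons (i := 2) (j := 2) (k := 17) (OkF.mk (by decide +kernel)) <|
  AllL.cons (i := 2) (j := 2) (k := 18) (OkF.mk (by decide +kernel)) <|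
  AllL.cons (i := 2) (j := 2) (k := 19) (OkF.mk (by decide +kernel)) <|
  AllL.cons (i := 2) (j := 2) (k := 20) (OkF.mk (by decide +kernel)) <|
  AllL.cons (i := 2) (j := 2) (k := 21) (OkF.mk (by decide +kernel)) <|
  AllL.cons (i := 2) (j := 2) (k := 22) (OkF.mk (by decide +kernel)) <|
  AllL.cons (i := 2) (j := 3) (k := 3) (OkF.mk (by decide +kernel)) <|
  AllL.cons (i := 2) (j := 3) (k := 4) (OkF.mk (by decide +kernel)) <|
  AllL.cons (i := 2) (j := 3) (k := 5) (OkF.mk (by decide +kernel)) <|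
  AllL.cons (i := 2) (j := 3) (k := 6) (OkF.mk (by decide +kernel)) <|
  AllL.cons (i := 2) (j := 3) (k := 7) (OkF.mk (by decide +kernel)) <|
  AllL.nil

end Pool.Agent.MP_48470b_gt.Run
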