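import Pool.Agent.MP_48470b_gt.Run.OkB
import Pool.Agent.MP_48470b_gt.Run.F13

/-! Runs of the tests. -/

namespace Pool.Agent.MP_48470b_gt.Run

/-- the boxes of this part -/
def b26l : List (Nat × Nat × Nat) :=
  [(1, 10, 20), (1, 10, 21), (1, 10, 22), (1, 11, 11), (1, 11, 12), (1, 11, 13), (1, 11, 14), (1, 11, 15), (1, 11, 16), (1, 11, 17), (1, 11, 18), (1, 11, 19), (1, 11, 20), (1, 11, 21), (1, 11, 22), (1, 12, 12), (1, 12, 13), (1, 12, 14), (1, 12, 15), (1, 12, 16), (1, 12, 17), (1, 12, 18), (1, 12, 19), (1, 12, 20), (1, 12, 21), (1, 12, 22)]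

theorem b26 : AllL OkB b26l :=
  AllL.cons (i := 1) (j := 10) (k := 20) (OkB.mk ⟨15, 14, 22, 63, 72, 103, 15⟩ ⟨9, 9, 13, 52, 82, 103, 7⟩
    30 12 16 24 (-16) (-8) 64362048246010347521 (by decide +kernel)) <|
  AllL.cons (i := 1) (j := 10) (k := 21) (OkB.mk ⟨15, 14, 22, 63, 72, 103, 15⟩ ⟨9, 9, 13, 52, 82, 103, 7⟩
    31 15 16 26 (-24) (-9) 67277617182070013953 (by decide +kernel)) <|
  AllL.cons (i := 1) (j := 10) (k := 22) (OkB.mk ⟨16, 13, 22, 63, 72, 103, 15⟩ ⟨10, 8, 13, 52, 82, 103, 7⟩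
    32 18 15 27 (-30) (-10) 63047194517155348481 (by decide +kernel)) <|
  AllL.cons (i := 1) (j := 11) (k := 11) (OkB.mk ⟨16, 17, 17, 63, 72, 103, 15⟩ ⟨9, 9, 10, 52, 82, 103, 7⟩
    25 (-11) 5 11 10 (-15) 61080745321229713409 (by decide +kernel)) <|
  AllL.cons (i := 1) (j := 11) (k := 12) (OkB.mk ⟨15, 17, 17, 63, 72, 103, 15⟩ ⟨8, 9, 10, 52, 82, 103, 7⟩
    25 (-9) 5 11 9 (-12) 62204146725337169921 (by decide +kernel)) <|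
  AllL.cons (i := 1) (j := 11) (k := 13) (OkB.mk ⟨15, 15, 17, 63, 72, 103, 15⟩ ⟨8, 9, 9, 52, 82, 103, 7⟩
    25 (-7) 6 12 8 (-11) 67647571371296292865 (by decide +kernel)) <|
  AllL.cons (i := 1) (j := 11) (k := 14) (OkB.mk ⟨15, 14, 18, 63, 72, 103, 15⟩ ⟨8, 8, 9, 52, 82, 103, 7⟩
    25 (-6) 6 13 7 (-9) 67147706997030256641 (by decide +kernel)) <|
  AllL.cons (i := 1) (j := 11) (k := 15) (OkB.mk ⟨15, 14, 17, 63, 72, 103, 15⟩ ⟨8, 8, 9, 52, 82, 103, 7⟩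
    25 (-5) 7 14 6 (-8) 59293773806352465921 (by decide +kernel)) <|
  AllL.cons (i := 1) (j := 11) (k := 16) (OkB.mk ⟨14, 14, 18, 63, 72, 103, 15⟩ ⟨8, 8, 9, 52, 82, 103, 7⟩
    26 (-3) 9 16 5 (-7) 82848077320424521729 (by decide +kernel)) <|
  AllL.cons (i := 1) (j := 11) (k := 17) (OkB.mk ⟨14, 14, 18, 63, 72, 103, 15⟩ ⟨8, 8, 9, 52, 82, 103, 7⟩
    26 (-1) 10 18 2 (-7) 74998058116263706625 (by decide +kernel)) <|
  AllL.cons (i := 1) (j := 11) (k := 18) (OkB.mk ⟨14, 14, 18, 63, 72, 103, 15⟩ ⟨8, 8, 10, 52, 82, 103, 7⟩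
    27 1 11 20 (-2) (-7) 71061596207226814465 (by decide +kernel)) <|
  AllL.cons (i := 1) (j := 11) (k := 19) (OkB.mk ⟨14, 14, 18, 63, 72, 103, 15⟩ ⟨8, 8, 10, 52, 82, 103, 7⟩
    28 4 12 20 (-7) (-7) 75841760804695179265 (by decide +kernel)) <|
  AllL.cons (i := 1) (j := 11) (k := 20) (OkB.mk ⟨15, 13, 19, 63, 72, 103, 15⟩ ⟨8, 8, 11, 52, 82, 103, 7⟩
    29 7 12 20 (-12) (-7) 68502229181270065153 (by decide +kernel)) <|
  AllL.cons (i := 1) (j := 11) (k := 21) (OkB.mk ⟨14, 13, 20, 63, 72, 103, 15⟩ ⟨9, 8, 11, 52, 82, 103, 7⟩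
    30 10 12 22 (-18) (-8) 75867594929901404161 (by decide +kernel)) <|
  AllL.cons (i := 1) (j := 11) (k := 22) (OkB.mk ⟨15, 13, 19, 63, 72, 103, 15⟩ ⟨9, 8, 11, 52, 82, 103, 7⟩
    31 13 11 23 (-24) (-9) 70662302924602867713 (by decide +kernel)) <|
  AllL.cons (i := 1) (j := 12) (k := 12) (OkB.mk ⟨15, 16, 17, 63, 72, 103, 15⟩ ⟨8, 9, 9, 52, 82, 103, 7⟩
    25 (-7) 4 10 7 (-12) 63314618147579887617 (by decide +kernel)) <|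
  AllL.cons (i := 1) (j := 12) (k := 13) (OkB.mk ⟨15, 15, 16, 63, 72, 103, 15⟩ ⟨8, 8, 8, 52, 82, 103, 7⟩
    25 (-6) 4 10 6 (-10) 65607670263149756417 (by decide +kernel)) <|
  AllL.cons (i := 1) (j := 12) (k := 14) (OkB.mk ⟨14, 15, 16, 63, 72, 103, 16⟩ ⟨8, 8, 8, 52, 82, 103, 7⟩
    24 (-4) 5 11 6 (-9) 86544801851580088321 (by decide +kernel)) <|
  AllL.cons (i := 1) (j := 12) (k := 15) (OkB.mk ⟨14, 14, 16, 63, 72, 103, 16⟩ ⟨8, 8, 8, 52, 82, 103, 7⟩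
    24 (-3) 5 12 5 (-8) 79774914832999907329 (by decide +kernel)) <|
  AllL.cons (i := 1) (j := 12) (k := 16) (OkB.mk ⟨14, 14, 16, 63, 72, 103, 15⟩ ⟨8, 8, 8, 52, 82, 103, 7⟩
    24 (-3) 6 14 4 (-7) 75156879272361066497 (by decide +kernel)) <|
  AllL.cons (i := 1) (j := 12) (k := 17) (OkB.mk ⟨14, 14, 16, 63, 72, 103, 15⟩ ⟨8, 7, 9, 52, 82, 103, 7⟩
    24 (-1) 7 15 2 (-7) 74795783573441871873 (by decide +kernel)) <|
  AllL.cons (i := 1) (j := 12) (k := 18) (OkB.mk ⟨14, 13, 17, 63, 72, 103, 15⟩ ⟨8, 7, 9, 52, 82, 103, 7⟩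
    25 0 7 17 (-1) (-6) 91934559609865371649 (by decide +kernel)) <|
  AllL.cons (i := 1) (j := 12) (k := 19) (OkB.mk ⟨14, 13, 17, 63, 72, 103, 15⟩ ⟨8, 8, 9, 52, 82, 103, 7⟩
    26 2 8 17 (-5) (-6) 83056127735266017281 (by decide +kernel)) <|
  AllL.cons (i := 1) (j := 12) (k := 20) (OkB.mk ⟨14, 13, 17, 63, 72, 103, 15⟩ ⟨8, 8, 9, 52, 82, 103, 7⟩
    27 4 8 18 (-9) (-7) 80714042211460710401 (by decide +kernel)) <|
  AllL.cons (i := 1) (j := 12) (k := 21) (OkB.mk ⟨14, 13, 17, 63, 72, 103, 15⟩ ⟨8, 7, 10, 52, 82, 103, 7⟩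
    28 7 8 19 (-14) (-7) 81604574337069744129 (by decide +kernel)) <|
  AllL.cons (i := 1) (j := 12) (k := 22) (OkB.mk ⟨14, 12, 18, 63, 72, 103, 15⟩ ⟨8, 7, 10, 52, 82, 103, 7⟩
    29 8 8 20 (-19) (-8) 73271938522669907969 (by decide +kernel)) <|
  AllL.nil

end Pool.Agent.MP_48470b_gt.Run
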