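import Pool.Agent.MP_48470b_gt.Run.OkB
import Pool.Agent.MP_48470b_gt.Run.B26

/-! Runs of the tests. -/

namespace Pool.Agent.MP_48470b_gt.Run

/-- the boxes of this part -/
def b27l : List (Nat × Nat × Nat) :=
  [(1, 13, 13), (1, 13, 14), (1, 13, 15), (1, 13, 16), (1, 13, 17), (1, 13, 18), (1, 13, 19), (1, 13, 20), (1, 13, 21), (1, 13, 22), (1, 14, 14), (1, 14, 15), (1, 14, 16), (1, 14, 17), (1, 14, 18), (1, 14, 19), (1, 14, 20), (1, 14, 21), (1, 14, 22), (1, 15, 15), (1, 15, 16), (1, 15, 17), (1, 15, 18), (1, 15, 19), (1, 15, 20), (1, 15, 21), (1, 15, 22), (1, 16, 16), (1, 16, 17), (1, 16, 18), (1, 16, 19), (1, 16, 20)]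

theorem b27 : AllL OkB b27l :=
  AllL.cons (i := 1) (j := 13) (k := 13) (OkB.mk ⟨14, 15, 15, 63, 72, 103, 16⟩ ⟨7, 8, 10, 52, 82, 103, 7⟩
    24 (-5) 3 10 5 (-11) 90936785105812717569 (by decide +kernel)) <|
  AllL.cons (i := 1) (j := 13) (k := 14) (OkB.mk ⟨14, 14, 16, 63, 72, 103, 16⟩ ⟨7, 8, 8, 52, 82, 103, 7⟩
    23 (-4) 3 10 5 (-10) 82946929050758676481 (by decide +kernel)) <|
  AllL.cons (i := 1) (j := 13) (k := 15) (OkB.mk ⟨14, 14, 15, 63, 72, 103, 16⟩ ⟨7, 8, 8, 52, 82, 103, 7⟩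
    23 (-3) 3 11 4 (-9) 80848012068308123649 (by decide +kernel)) <|
  AllL.cons (i := 1) (j := 13) (k := 16) (OkB.mk ⟨14, 14, 15, 63, 72, 103, 16⟩ ⟨7, 7, 8, 52, 82, 103, 7⟩
    23 (-2) 4 12 3 (-8) 79403183832983142401 (by decide +kernel)) <|
  AllL.cons (i := 1) (j := 13) (k := 17) (OkB.mk ⟨14, 13, 16, 63, 72, 103, 16⟩ ⟨8, 7, 8, 52, 82, 103, 7⟩
    23 (-1) 4 13 2 (-7) 88988112539007057921 (by decide +kernel)) <|
  AllL.cons (i := 1) (j := 13) (k := 18) (OkB.mk ⟨14, 13, 15, 63, 72, 103, 16⟩ ⟨8, 7, 8, 52, 82, 103, 7⟩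
    23 0 5 14 0 (-7) 95133449602658729985 (by decide +kernel)) <|
  AllL.cons (i := 1) (j := 13) (k := 19) (OkB.mk ⟨14, 13, 15, 63, 72, 103, 16⟩ ⟨8, 8, 8, 52, 82, 103, 7⟩
    24 1 6 15 (-3) (-7) 96496763756752142337 (by decide +kernel)) <|
  AllL.cons (i := 1) (j := 13) (k := 20) (OkB.mk ⟨14, 13, 15, 63, 72, 103, 15⟩ ⟨8, 8, 8, 52, 82, 103, 7⟩
    25 3 6 15 (-6) (-7) 93090093279221907457 (by decide +kernel)) <|
  AllL.cons (i := 1) (j := 13) (k := 21) (OkB.mk ⟨13, 13, 16, 63, 72, 103, 15⟩ ⟨7, 8, 9, 52, 82, 103, 7⟩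
    26 4 6 17 (-11) (-7) 101818478512830414849 (by decide +kernel)) <|
  AllL.cons (i := 1) (j := 13) (k := 22) (OkB.mk ⟨13, 12, 17, 63, 72, 103, 15⟩ ⟨7, 8, 9, 52, 82, 103, 7⟩
    27 5 6 18 (-15) (-8) 99087090143929040897 (by decide +kernel)) <|
  AllL.cons (i := 1) (j := 14) (k := 14) (OkB.mk ⟨14, 15, 14, 63, 72, 103, 16⟩ ⟨7, 8, 7, 52, 82, 103, 7⟩
    23 (-3) 2 9 4 (-10) 86604995852593266689 (by decide +kernel)) <|
  AllL.cons (i := 1) (j := 14) (k := 15) (OkB.mk ⟨14, 14, 15, 63, 72, 103, 16⟩ ⟨7, 8, 7, 52, 82, 103, 7⟩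
    22 (-2) 2 10 4 (-9) 84472809160114700289 (by decide +kernel)) <|
  AllL.cons (i := 1) (j := 14) (k := 16) (OkB.mk ⟨14, 14, 15, 63, 72, 103, 16⟩ ⟨7, 8, 7, 52, 82, 103, 7⟩
    22 (-2) 3 11 3 (-8) 81757767093144518657 (by decide +kernel)) <|
  AllL.cons (i := 1) (j := 14) (k := 17) (OkB.mk ⟨14, 14, 15, 63, 72, 103, 16⟩ ⟨7, 8, 7, 52, 82, 103, 7⟩
    22 (-1) 3 11 2 (-8) 78983745710631944193 (by decide +kernel)) <|
  AllL.cons (i := 1) (j := 14) (k := 18) (OkB.mk ⟨14, 13, 15, 63, 72, 103, 16⟩ ⟨7, 8, 8, 52, 82, 103, 7⟩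
    22 0 4 12 1 (-7) 99797942003472269313 (by decide +kernel)) <|
  AllL.cons (i := 1) (j := 14) (k := 19) (OkB.mk ⟨13, 13, 16, 63, 72, 103, 16⟩ ⟨7, 7, 8, 52, 82, 103, 7⟩
    23 1 4 13 (-2) (-7) 128508510024482422785 (by decide +kernel)) <|
  AllL.cons (i := 1) (j := 14) (k := 20) (OkB.mk ⟨13, 13, 16, 63, 72, 103, 16⟩ ⟨7, 8, 8, 52, 82, 103, 7⟩
    23 2 4 14 (-5) (-7) 116334172611173941249 (by decide +kernel)) <|
  AllL.cons (i := 1) (j := 14) (k := 21) (OkB.mk ⟨13, 13, 15, 63, 72, 103, 16⟩ ⟨7, 8, 8, 52, 82, 103, 7⟩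
    24 3 4 15 (-8) (-8) 110193035269623513089 (by decide +kernel)) <|
  AllL.cons (i := 1) (j := 14) (k := 22) (OkB.mk ⟨14, 12, 15, 63, 72, 103, 15⟩ ⟨7, 8, 8, 52, 82, 103, 7⟩
    25 4 4 16 (-12) (-8) 101813016139063623681 (by decide +kernel)) <|
  AllL.cons (i := 1) (j := 15) (k := 15) (OkB.mk ⟨14, 14, 16, 63, 72, 103, 16⟩ ⟨7, 7, 8, 52, 82, 103, 7⟩
    22 (-2) 2 9 3 (-10) 90107755949809729537 (by decide +kernel)) <|
  AllL.cons (i := 1) (j := 15) (k := 16) (OkB.mk ⟨13, 15, 15, 63, 72, 103, 16⟩ ⟨7, 7, 8, 52, 82, 103, 7⟩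
    22 (-2) 2 10 3 (-9) 128499999667044483073 (by decide +kernel)) <|
  AllL.cons (i := 1) (j := 15) (k := 17) (OkB.mk ⟨13, 14, 15, 63, 72, 103, 16⟩ ⟨7, 7, 8, 52, 82, 103, 7⟩
    22 (-1) 2 10 2 (-8) 127217285900019957761 (by decide +kernel)) <|
  AllL.cons (i := 1) (j := 15) (k := 18) (OkB.mk ⟨13, 14, 15, 63, 72, 103, 16⟩ ⟨7, 7, 8, 52, 82, 103, 7⟩
    22 0 3 11 1 (-7) 120019540424165163009 (by decide +kernel)) <|
  AllL.cons (i := 1) (j := 15) (k := 19) (OkB.mk ⟨13, 14, 15, 63, 72, 103, 16⟩ ⟨7, 7, 8, 52, 82, 103, 7⟩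
    22 0 3 12 (-1) (-7) 120312137923063447553 (by decide +kernel)) <|
  AllL.cons (i := 1) (j := 15) (k := 20) (OkB.mk ⟨13, 14, 15, 63, 72, 103, 16⟩ ⟨7, 8, 8, 52, 82, 103, 7⟩
    23 1 3 12 (-4) (-7) 117963245460209532929 (by decide +kernel)) <|
  AllL.cons (i := 1) (j := 15) (k := 21) (OkB.mk ⟨13, 13, 15, 63, 72, 103, 16⟩ ⟨7, 8, 8, 52, 82, 103, 7⟩
    23 2 3 13 (-7) (-8) 127062980025861013505 (by decide +kernel)) <|
  AllL.cons (i := 1) (j := 15) (k := 22) (OkB.mk ⟨13, 13, 15, 63, 72, 103, 16⟩ ⟨7, 7, 8, 52, 82, 103, 7⟩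
    24 2 3 15 (-10) (-8) 100920913910850125825 (by decide +kernel)) <|
  AllL.cons (i := 1) (j := 16) (k := 16) (OkB.mk ⟨13, 15, 15, 63, 72, 103, 16⟩ ⟨7, 7, 7, 52, 82, 103, 7⟩
    21 (-2) 1 9 2 (-9) 119976529453431914497 (by decide +kernel)) <|
  AllL.cons (i := 1) (j := 16) (k := 17) (OkB.mk ⟨13, 14, 15, 63, 72, 103, 16⟩ ⟨7, 7, 7, 52, 82, 103, 7⟩
    21 (-1) 2 9 2 (-8) 123529005755604664321 (by decide +kernel)) <|
  AllL.cons (i := 1) (j := 16) (k := 18) (OkB.mk ⟨13, 14, 15, 63, 72, 103, 16⟩ ⟨7, 8, 7, 52, 82, 103, 7⟩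
    21 (-1) 2 10 1 (-8) 123542102176042057729 (by decide +kernel)) <|
  AllL.cons (i := 1) (j := 16) (k := 19) (OkB.mk ⟨13, 14, 14, 63, 72, 103, 16⟩ ⟨7, 8, 7, 52, 82, 103, 7⟩
    22 0 2 11 (-1) (-7) 150381995198414585857 (by decide +kernel)) <|
  AllL.cons (i := 1) (j := 16) (k := 20) (OkB.mk ⟨13, 14, 14, 63, 72, 103, 16⟩ ⟨7, 8, 8, 52, 82, 103, 7⟩
    22 1 2 11 (-3) (-7) 150740754297685803009 (by decide +kernel)) <|
  AllL.nil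

end Pool.Agent.MP_48470b_gt.Run
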