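import Pool.Agent.MP_48470b_gt.Run.OkB
import Pool.Agent.MP_48470b_gt.Run.F14

/-! Runs of the tests. -/

namespace Pool.Agent.MP_48470b_gt.Run

/-- the boxes of this part -/
def b28l : List (Nat × Nat × Nat) :=
  [(1, 16, 21), (1, 16, 22), (1, 17, 17), (1, 17, 18), (1, 17, 19), (1, 17, 20), (1, 17, 21), (1, 17, 22), (1, 18, 18), (1, 18, 19), (1, 18, 20), (1, 18, 21), (1, 18, 22), (1, 19, 19), (1, 19, 20), (1, 19, 21), (1, 19, 22), (1, 20, 20), (1, 20, 21), (1, 20, 22), (1, 21, 21), (1, 21, 22), (1, 22, 22), (2, 2, 2), (2, 2, 3), (2, 2, 4), (2, 2, 5), (2, 2, 6), (2, 2, 7), (2, 2, 8)]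

theorem b28 : AllL OkB b28l :=
  AllL.cons (i := 1) (j := 16) (k := 21) (OkB.mk ⟨13, 13, 15, 63, 72, 103, 16⟩ ⟨7, 8, 8, 52, 82, 103, 7⟩
    23 1 2 12 (-5) (-8) 158162711497481912321 (by decide +kernel)) <|
  AllL.cons (i := 1) (j := 16) (k := 22) (OkB.mk ⟨13, 13, 15, 63, 72, 103, 16⟩ ⟨7, 7, 8, 52, 82, 103, 7⟩
    23 2 2 13 (-8) (-8) 112204673019061207041 (by decide +kernel)) <|
  AllL.cons (i := 1) (j := 17) (k := 17) (OkB.mk ⟨13, 14, 14, 63, 72, 103, 16⟩ ⟨7, 7, 8, 52, 82, 103, 7⟩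
    21 (-1) 1 9 1 (-9) 129014954700962791425 (by decide +kernel)) <|
  AllL.cons (i := 1) (j := 17) (k := 18) (OkB.mk ⟨13, 14, 14, 63, 72, 103, 16⟩ ⟨7, 8, 8, 52, 82, 103, 7⟩
    21 (-1) 1 9 1 (-8) 136592675727336275969 (by decide +kernel)) <|
  AllL.cons (i := 1) (j := 17) (k := 19) (OkB.mk ⟨13, 14, 14, 63, 72, 103, 16⟩ ⟨7, 8, 8, 52, 82, 103, 7⟩
    22 0 1 10 (-1) (-8) 148053770393066930177 (by decide +kernel)) <|
  AllL.cons (i := 1) (j := 17) (k := 20) (OkB.mk ⟨13, 14, 14, 63, 72, 103, 16⟩ ⟨7, 8, 8, 52, 82, 103, 7⟩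
    22 0 2 10 (-2) (-7) 168878369165417644033 (by decide +kernel)) <|
  AllL.cons (i := 1) (j := 17) (k := 21) (OkB.mk ⟨13, 14, 14, 63, 72, 103, 16⟩ ⟨7, 8, 8, 52, 82, 103, 7⟩
    22 1 1 11 (-5) (-8) 149988396973705658369 (by decide +kernel)) <|
  AllL.cons (i := 1) (j := 17) (k := 22) (OkB.mk ⟨13, 13, 14, 63, 72, 103, 16⟩ ⟨7, 8, 8, 52, 82, 103, 7⟩
    23 1 2 12 (-7) (-8) 161953827452614606849 (by decide +kernel)) <|
  AllL.cons (i := 1) (j := 18) (k := 18) (OkB.mk ⟨13, 14, 14, 63, 72, 103, 16⟩ ⟨7, 8, 8, 52, 82, 103, 7⟩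
    22 (-1) 1 8 0 (-8) 151825983681733853185 (by decide +kernel)) <|
  AllL.cons (i := 1) (j := 18) (k := 19) (OkB.mk ⟨13, 14, 14, 63, 72, 103, 15⟩ ⟨7, 8, 8, 52, 82, 103, 7⟩
    22 0 1 9 (-1) (-8) 191069228508146302977 (by decide +kernel)) <|
  AllL.cons (i := 1) (j := 18) (k := 20) (OkB.mk ⟨13, 14, 15, 63, 72, 103, 15⟩ ⟨7, 8, 8, 52, 82, 103, 7⟩
    22 0 1 9 (-2) (-8) 218548208128678166529 (by decide +kernel)) <|
  AllL.cons (i := 1) (j := 18) (k := 21) (OkB.mk ⟨13, 14, 14, 63, 72, 103, 15⟩ ⟨7, 8, 8, 52, 82, 103, 7⟩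
    23 0 1 11 (-4) (-8) 189770356043362074625 (by decide +kernel)) <|
  AllL.cons (i := 1) (j := 18) (k := 22) (OkB.mk ⟨12, 14, 15, 63, 72, 103, 15⟩ ⟨7, 8, 8, 52, 82, 103, 7⟩
    23 1 1 12 (-6) (-8) 195121509948396142593 (by decide +kernel)) <|
  AllL.cons (i := 1) (j := 19) (k := 19) (OkB.mk ⟨13, 14, 14, 63, 72, 103, 15⟩ ⟨7, 8, 8, 52, 82, 103, 7⟩
    22 0 0 8 (-1) (-8) 238075296456273559553 (by decide +kernel)) <|
  AllL.cons (i := 1) (j := 19) (k := 20) (OkB.mk ⟨13, 15, 14, 63, 72, 103, 15⟩ ⟨8, 8, 8, 52, 82, 103, 7⟩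
    22 0 1 9 (-2) (-8) 222831965628755083265 (by decide +kernel)) <|
  AllL.cons (i := 1) (j := 19) (k := 21) (OkB.mk ⟨12, 15, 15, 63, 72, 103, 15⟩ ⟨8, 8, 8, 52, 82, 103, 7⟩
    23 0 1 10 (-4) (-8) 246355210962999443457 (by decide +kernel)) <|
  AllL.cons (i := 1) (j := 19) (k := 22) (OkB.mk ⟨12, 14, 15, 63, 72, 103, 15⟩ ⟨7, 8, 8, 52, 82, 103, 7⟩
    23 1 0 11 (-6) (-9) 231308439966617436161 (by decide +kernel)) <|
  AllL.cons (i := 1) (j := 20) (k := 20) (OkB.mk ⟨12, 15, 16, 63, 72, 103, 15⟩ ⟨7, 8, 9, 52, 82, 103, 7⟩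
    23 0 0 8 (-3) (-9) 271977304697656573953 (by decide +kernel)) <|
  AllL.cons (i := 1) (j := 20) (k := 21) (OkB.mk ⟨12, 15, 15, 63, 72, 103, 15⟩ ⟨7, 8, 9, 52, 82, 103, 7⟩
    23 0 0 10 (-4) (-9) 284006086425217859585 (by decide +kernel)) <|
  AllL.cons (i := 1) (j := 20) (k := 22) (OkB.mk ⟨12, 14, 15, 63, 72, 103, 15⟩ ⟨7, 8, 9, 52, 82, 103, 7⟩
    24 0 0 11 (-6) (-9) 288226664612773232641 (by decide +kernel)) <|
  AllL.cons (i := 1) (j := 21) (k := 21) (OkB.mk ⟨12, 15, 15, 63, 72, 103, 15⟩ ⟨7, 8, 9, 52, 82, 103, 7⟩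
    24 0 0 9 (-4) (-10) 298785216637628841985 (by decide +kernel)) <|
  AllL.cons (i := 1) (j := 21) (k := 22) (OkB.mk ⟨12, 14, 16, 63, 72, 103, 15⟩ ⟨7, 8, 9, 52, 82, 103, 7⟩
    24 0 0 10 (-6) (-10) 333849584591431532545 (by decide +kernel)) <|
  AllL.cons (i := 1) (j := 22) (k := 22) (OkB.mk ⟨12, 14, 15, 63, 72, 103, 15⟩ ⟨7, 8, 8, 52, 82, 103, 7⟩
    24 0 0 10 (-6) (-12) 359091170199625269249 (by decide +kernel)) <|
  AllL.cons (i := 2) (j := 2) (k := 2) (OkB.mk ⟨15, 15, 15, 63, 72, 103, 15⟩ ⟨7, 8, 8, 52, 82, 103, 7⟩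
    33 (-6) 5 33 5 (-34) 188972219453247848449 (by decide +kernel)) <|
  AllL.cons (i := 2) (j := 2) (k := 3) (OkB.mk ⟨15, 15, 16, 63, 72, 103, 15⟩ ⟨8, 8, 8, 52, 82, 103, 7⟩
    31 (-9) 3 36 9 (-33) 209532677187138748417 (by decide +kernel)) <|
  AllL.cons (i := 2) (j := 2) (k := 4) (OkB.mk ⟨15, 16, 16, 63, 72, 103, 15⟩ ⟨8, 9, 9, 52, 82, 103, 7⟩
    29 (-12) 2 41 15 (-31) 223631693624511561729 (by decide +kernel)) <|
  AllL.cons (i := 2) (j := 2) (k := 5) (OkB.mk ⟨16, 18, 16, 63, 72, 103, 14⟩ ⟨9, 10, 10, 52, 82, 103, 7⟩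
    27 (-14) 2 49 22 (-30) 214826618554377306113 (by decide +kernel)) <|
  AllL.cons (i := 2) (j := 2) (k := 6) (OkB.mk ⟨17, 17, 18, 63, 72, 103, 14⟩ ⟨10, 10, 10, 52, 82, 103, 7⟩
    24 (-15) 3 60 29 (-29) 187499694245141282817 (by decide +kernel)) <|
  AllL.cons (i := 2) (j := 2) (k := 7) (OkB.mk ⟨18, 17, 19, 63, 72, 103, 14⟩ ⟨11, 10, 11, 52, 82, 103, 7⟩
    22 (-15) 4 72 34 (-27) 188574895533388201985 (by decide +kernel)) <|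
  AllL.cons (i := 2) (j := 2) (k := 8) (OkB.mk ⟨18, 17, 20, 63, 72, 103, 14⟩ ⟨11, 10, 12, 52, 82, 103, 7⟩
    21 (-13) 5 84 37 (-25) 193301102147479273473 (by decide +kernel)) <|
  AllL.nil

end Pool.Agent.MP_48470b_gt.Run
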