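import Pool.Agent.MP_48470b_gt.Run.OkB
import Pool.Agent.MP_48470b_gt.Run.B28

/-! Runs of the tests. -/

namespace Pool.Agent.MP_48470b_gt.Run

/-- the boxes of this part -/
def b29l : List (Nat × Nat × Nat) :=
  [(2, 2, 9), (2, 2, 10), (2, 2, 11), (2, 2, 12), (2, 2, 13), (2, 2, 14), (2, 2, 15), (2, 2, 16), (2, 2, 17), (2, 2, 18), (2, 2, 19), (2, 2, 20), (2, 2, 21), (2, 2, 22), (2, 3, 3), (2, 3, 4), (2, 3, 5), (2, 3, 6), (2, 3, 7)]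

theorem b29 : AllL OkB b29l :=
  AllL.cons (i := 2) (j := 2) (k := 9) (OkB.mk ⟨19, 16, 20, 63, 72, 103, 13⟩ ⟨11, 10, 12, 52, 82, 103, 7⟩
    20 (-11) 5 93 37 (-23) 160783539436724944897 (by decide +kernel)) <|
  AllL.cons (i := 2) (j := 2) (k := 10) (OkB.mk ⟨19, 16, 20, 63, 72, 103, 13⟩ ⟨12, 10, 12, 52, 82, 103, 7⟩
    19 (-9) 4 103 38 (-21) 156952686856486518785 (by decide +kernel)) <|
  AllL.cons (i := 2) (j := 2) (k := 11) (OkB.mk ⟨19, 16, 20, 63, 72, 103, 13⟩ ⟨12, 10, 12, 52, 82, 103, 7⟩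
    18 (-8) 4 115 38 (-20) 169786167196995551233 (by decide +kernel)) <|
  AllL.cons (i := 2) (j := 2) (k := 12) (OkB.mk ⟨20, 16, 21, 63, 72, 103, 13⟩ ⟨12, 10, 13, 52, 82, 103, 7⟩
    17 (-7) 3 123 36 (-19) 146247202145008877569 (by decide +kernel)) <|
  AllL.cons (i := 2) (j := 2) (k := 13) (OkB.mk ⟨20, 16, 21, 63, 72, 103, 13⟩ ⟨12, 10, 13, 52, 82, 103, 7⟩
    17 (-5) 3 144 37 (-18) 144718250687359614977 (by decide +kernel)) <|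
  AllL.cons (i := 2) (j := 2) (k := 14) (OkB.mk ⟨20, 16, 21, 63, 72, 103, 13⟩ ⟨12, 10, 13, 52, 82, 103, 7⟩
    17 (-4) 2 165 30 (-17) 140888010535097860097 (by decide +kernel)) <|
  AllL.cons (i := 2) (j := 2) (k := 15) (OkB.mk ⟨20, 15, 21, 63, 72, 103, 13⟩ ⟨12, 9, 13, 52, 82, 103, 7⟩
    17 (-2) 2 181 20 (-17) 152284161447022297089 (by decide +kernel)) <|
  AllL.cons (i := 2) (j := 2) (k := 16) (OkB.mk ⟨19, 15, 21, 63, 72, 103, 12⟩ ⟨12, 9, 13, 52, 82, 103, 7⟩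
    17 (-1) 2 192 5 (-17) 168584888208926441473 (by decide +kernel)) <|
  AllL.cons (i := 2) (j := 2) (k := 17) (OkB.mk ⟨20, 14, 21, 63, 72, 103, 12⟩ ⟨12, 9, 12, 52, 82, 103, 7⟩
    17 1 1 201 (-12) (-17) 174166219650555183105 (by decide +kernel)) <|
  AllL.cons (i := 2) (j := 2) (k := 18) (OkB.mk ⟨19, 15, 20, 63, 72, 103, 12⟩ ⟨12, 9, 12, 52, 82, 103, 7⟩
    17 3 0 211 (-34) (-18) 177558426602377838593 (by decide +kernel)) <|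
  AllL.cons (i := 2) (j := 2) (k := 19) (OkB.mk ⟨19, 15, 20, 63, 72, 103, 12⟩ ⟨12, 9, 12, 52, 82, 103, 7⟩
    18 5 (-1) 220 (-62) (-18) 181065137382311854081 (by decide +kernel)) <|
  AllL.cons (i := 2) (j := 2) (k := 20) (OkB.mk ⟨19, 14, 21, 63, 72, 103, 12⟩ ⟨12, 9, 12, 52, 82, 103, 7⟩
    18 7 (-3) 228 (-94) (-20) 184438218466808299521 (by decide +kernel)) <|
  AllL.cons (i := 2) (j := 2) (k := 21) (OkB.mk ⟨19, 14, 20, 63, 72, 103, 12⟩ ⟨12, 9, 12, 52, 82, 103, 7⟩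
    19 9 (-5) 250 (-135) (-21) 173313851298668347393 (by decide +kernel)) <|
  AllL.cons (i := 2) (j := 2) (k := 22) (OkB.mk ⟨19, 13, 20, 63, 72, 103, 12⟩ ⟨11, 9, 12, 52, 82, 103, 7⟩
    19 10 (-7) 272 (-177) (-23) 179475927189902327809 (by decide +kernel)) <|
  AllL.cons (i := 2) (j := 3) (k := 3) (OkB.mk ⟨15, 16, 16, 63, 72, 103, 15⟩ ⟨8, 9, 9, 52, 82, 103, 7⟩
    29 (-9) 6 34 13 (-37) 180612904538955841537 (by decide +kernel)) <|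
  AllL.cons (i := 2) (j := 3) (k := 4) (OkB.mk ⟨16, 16, 17, 63, 72, 103, 15⟩ ⟨9, 9, 9, 52, 82, 103, 7⟩
    27 (-13) 4 39 19 (-36) 219971891106133573633 (by decide +kernel)) <|
  AllL.cons (i := 2) (j := 3) (k := 5) (OkB.mk ⟨17, 17, 17, 63, 72, 103, 14⟩ ⟨10, 10, 10, 52, 82, 103, 7⟩
    24 (-16) 3 46 28 (-36) 207023509876376600577 (by decide +kernel)) <|
  AllL.cons (i := 2) (j := 3) (k := 6) (OkB.mk ⟨18, 18, 19, 63, 72, 103, 14⟩ ⟨11, 11, 11, 52, 82, 103, 7⟩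
    22 (-17) 2 55 39 (-35) 180425241681033428993 (by decide +kernel)) <|
  AllL.cons (i := 2) (j := 3) (k := 7) (OkB.mk ⟨19, 18, 20, 63, 72, 103, 14⟩ ⟨11, 12, 12, 52, 82, 103, 7⟩
    20 (-15) 2 64 51 (-34) 184623612619925749761 (by decide +kernel)) <|
  AllL.nil

end Pool.Agent.MP_48470b_gt.Run
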