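import Pool.Agent.MP_48470b_gt.Run.OkB
import Pool.Agent.MP_48470b_gt.Run.F1

/-! Runs of the tests. -/

namespace Pool.Agent.MP_48470b_gt.Run

/-- the boxes of this part -/
def b2l : List (Nat × Nat × Nat) :=
  [(0, 1, 20), (0, 1, 21), (0, 1, 22), (0, 2, 2), (0, 2, 3), (0, 2, 4), (0, 2, 5), (0, 2, 6), (0, 2, 7), (0, 2, 8), (0, 2, 9), (0, 2, 10), (0, 2, 11), (0, 2, 12), (0, 2, 13), (0, 2, 14), (0, 2, 15), (0, 2, 16), (0, 2, 17), (0, 2, 18), (0, 2, 19)]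

theorem b2 : AllL OkB b2l :=
  AllL.cons (i := 0) (j := 1) (k := 20) (OkB.mk ⟨17, 14, 18, 63, 72, 103, 12⟩ ⟨9, 8, 10, 52, 82, 103, 7⟩
    18 0 0 210 (-23) (-19) 152276295128520327169 (by decide +kernel)) <|
  AllL.cons (i := 0) (j := 1) (k := 21) (OkB.mk ⟨17, 13, 18, 63, 72, 103, 12⟩ ⟨9, 7, 10, 52, 82, 103, 7⟩
    18 0 0 232 (-43) (-19) 161187522686197170177 (by decide +kernel)) <|
  AllL.cons (i := 0) (j := 1) (k := 22) (OkB.mk ⟨17, 13, 17, 63, 72, 103, 12⟩ ⟨9, 7, 10, 52, 82, 103, 7⟩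
    19 0 0 258 (-65) (-20) 168916342448750329857 (by decide +kernel)) <|
  AllL.cons (i := 0) (j := 2) (k := 2) (OkB.mk ⟨15, 15, 15, 63, 72, 103, 15⟩ ⟨7, 7, 8, 52, 82, 103, 7⟩
    28 0 0 34 8 (-35) 192399421248842498049 (by decide +kernel)) <|
  AllL.cons (i := 0) (j := 2) (k := 3) (OkB.mk ⟨15, 15, 15, 63, 72, 103, 15⟩ ⟨7, 8, 8, 52, 82, 103, 7⟩
    27 0 0 37 11 (-34) 222682893704822259713 (by decide +kernel)) <|
  AllL.cons (i := 0) (j := 2) (k := 4) (OkB.mk ⟨15, 15, 16, 63, 72, 103, 15⟩ ⟨8, 8, 9, 52, 82, 103, 7⟩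
    25 0 0 43 13 (-33) 224671761118204526593 (by decide +kernel)) <|
  AllL.cons (i := 0) (j := 2) (k := 5) (OkB.mk ⟨15, 15, 17, 63, 72, 103, 14⟩ ⟨8, 9, 9, 52, 82, 103, 7⟩
    23 0 0 50 16 (-31) 226282902856736440321 (by decide +kernel)) <|
  AllL.cons (i := 0) (j := 2) (k := 6) (OkB.mk ⟨15, 16, 17, 63, 72, 103, 14⟩ ⟨9, 9, 9, 52, 82, 103, 7⟩
    21 0 0 61 21 (-29) 223670908531349913601 (by decide +kernel)) <|
  AllL.cons (i := 0) (j := 2) (k := 7) (OkB.mk ⟨17, 15, 18, 63, 72, 103, 14⟩ ⟨9, 9, 10, 52, 82, 103, 7⟩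
    20 0 0 72 30 (-28) 186186964635312193537 (by decide +kernel)) <|
  AllL.cons (i := 0) (j := 2) (k := 8) (OkB.mk ⟨17, 15, 19, 63, 72, 103, 14⟩ ⟨9, 9, 11, 52, 82, 103, 7⟩
    19 0 0 82 42 (-26) 175630585107994116097 (by decide +kernel)) <|
  AllL.cons (i := 0) (j := 2) (k := 9) (OkB.mk ⟨17, 15, 20, 63, 72, 103, 13⟩ ⟨10, 9, 12, 52, 82, 103, 7⟩
    19 0 0 90 54 (-25) 203671376962290450433 (by decide +kernel)) <|
  AllL.cons (i := 0) (j := 2) (k := 10) (OkB.mk ⟨18, 16, 20, 63, 72, 103, 13⟩ ⟨11, 9, 11, 52, 82, 103, 7⟩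
    19 0 0 98 66 (-24) 208207835494657032193 (by decide +kernel)) <|
  AllL.cons (i := 0) (j := 2) (k := 11) (OkB.mk ⟨19, 16, 19, 63, 72, 103, 13⟩ ⟨11, 9, 11, 52, 82, 103, 7⟩
    18 0 0 110 75 (-23) 183913958815739936769 (by decide +kernel)) <|
  AllL.cons (i := 0) (j := 2) (k := 12) (OkB.mk ⟨19, 16, 20, 63, 72, 103, 13⟩ ⟨11, 9, 12, 52, 82, 103, 7⟩
    18 0 0 117 77 (-22) 173848395231747112961 (by decide +kernel)) <|
  AllL.cons (i := 0) (j := 2) (k := 13) (OkB.mk ⟨19, 16, 20, 63, 72, 103, 13⟩ ⟨11, 9, 12, 52, 82, 103, 7⟩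
    18 0 0 136 82 (-21) 186114775099878932481 (by decide +kernel)) <|
  AllL.cons (i := 0) (j := 2) (k := 14) (OkB.mk ⟨19, 15, 21, 63, 72, 103, 13⟩ ⟨11, 9, 12, 52, 82, 103, 7⟩
    18 0 0 156 83 (-20) 193141664577675591681 (by decide +kernel)) <|
  AllL.cons (i := 0) (j := 2) (k := 15) (OkB.mk ⟨19, 15, 20, 63, 72, 103, 13⟩ ⟨11, 9, 11, 52, 82, 103, 7⟩
    18 0 0 175 76 (-19) 200790780742331269121 (by decide +kernel)) <|
  AllL.cons (i := 0) (j := 2) (k := 16) (OkB.mk ⟨19, 15, 20, 63, 72, 103, 12⟩ ⟨11, 9, 11, 52, 82, 103, 7⟩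
    18 0 0 190 60 (-18) 191318605716785201153 (by decide +kernel)) <|
  AllL.cons (i := 0) (j := 2) (k := 17) (OkB.mk ⟨19, 14, 21, 63, 72, 103, 12⟩ ⟨11, 9, 11, 52, 82, 103, 7⟩
    18 0 0 204 36 (-18) 198341161469500981249 (by decide +kernel)) <|
  AllL.cons (i := 0) (j := 2) (k := 18) (OkB.mk ⟨19, 14, 21, 63, 72, 103, 12⟩ ⟨11, 9, 11, 52, 82, 103, 7⟩
    18 0 0 214 4 (-18) 178549739276594053121 (by decide +kernel)) <|
  AllL.cons (i := 0) (j := 2) (k := 19) (OkB.mk ⟨17, 15, 21, 63, 72, 103, 12⟩ ⟨11, 8, 12, 52, 82, 103, 7⟩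
    19 0 0 221 (-32) (-18) 189862918154868490241 (by decide +kernel)) <|
  AllL.nil

end Pool.Agent.MP_48470b_gt.Run
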