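import Pool.Agent.MP_48470b_gt.Run.OkB
import Pool.Agent.MP_48470b_gt.Run.B2

/-! Runs of the tests. -/

namespace Pool.Agent.MP_48470b_gt.Run

/-- the boxes of this part -/
def b3l : List (Nat × Nat × Nat) :=
  [(0, 2, 20), (0, 2, 21), (0, 2, 22), (0, 3, 3), (0, 3, 4), (0, 3, 5), (0, 3, 6), (0, 3, 7), (0, 3, 8), (0, 3, 9), (0, 3, 10), (0, 3, 11), (0, 3, 12), (0, 3, 13), (0, 3, 14), (0, 3, 15), (0, 3, 16), (0, 3, 17)]

theorem b3 : AllL OkB b3l :=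
  AllL.cons (i := 0) (j := 2) (k := 20) (OkB.mk ⟨17, 14, 21, 63, 72, 103, 12⟩ ⟨11, 8, 12, 52, 82, 103, 7⟩
    19 0 0 222 (-68) (-19) 174660959613441015809 (by decide +kernel)) <|
  AllL.cons (i := 0) (j := 2) (k := 21) (OkB.mk ⟨17, 13, 21, 63, 72, 103, 12⟩ ⟨10, 8, 12, 52, 82, 103, 7⟩
    19 0 0 239 (-109) (-20) 181339556380590211073 (by decide +kernel)) <|
  AllL.cons (i := 0) (j := 2) (k := 22) (OkB.mk ⟨17, 13, 20, 63, 72, 103, 12⟩ ⟨10, 8, 12, 52, 82, 103, 7⟩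
    19 0 0 256 (-150) (-22) 159138727903371460609 (by decide +kernel)) <|
  AllL.cons (i := 0) (j := 3) (k := 3) (OkB.mk ⟨15, 15, 16, 63, 72, 103, 15⟩ ⟨8, 8, 9, 52, 82, 103, 7⟩
    26 0 0 37 15 (-39) 235930158753770373121 (by decide +kernel)) <|
  AllL.cons (i := 0) (j := 3) (k := 4) (OkB.mk ⟨15, 16, 17, 63, 72, 103, 15⟩ ⟨9, 8, 9, 52, 82, 103, 7⟩
    24 0 0 41 20 (-39) 241536570055628685313 (by decide +kernel)) <|
  AllL.cons (i := 0) (j := 3) (k := 5) (OkB.mk ⟨17, 15, 16, 63, 72, 103, 14⟩ ⟨10, 8, 9, 52, 82, 103, 7⟩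
    21 0 0 47 27 (-37) 211957434165602811905 (by decide +kernel)) <|
  AllL.cons (i := 0) (j := 3) (k := 6) (OkB.mk ⟨17, 15, 17, 63, 72, 103, 14⟩ ⟨9, 9, 9, 52, 82, 103, 7⟩
    20 0 0 53 36 (-35) 178792693962937204737 (by decide +kernel)) <|
  AllL.cons (i := 0) (j := 3) (k := 7) (OkB.mk ⟨17, 15, 17, 63, 72, 103, 14⟩ ⟨9, 9, 10, 52, 82, 103, 7⟩
    18 0 0 59 48 (-34) 200584801532518596609 (by decide +kernel)) <|
  AllL.cons (i := 0) (j := 3) (k := 8) (OkB.mk ⟨17, 15, 18, 63, 72, 103, 14⟩ ⟨9, 9, 11, 52, 82, 103, 7⟩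
    18 0 0 65 62 (-33) 195514538763520835585 (by decide +kernel)) <|
  AllL.cons (i := 0) (j := 3) (k := 9) (OkB.mk ⟨17, 15, 20, 63, 72, 103, 13⟩ ⟨10, 9, 12, 52, 82, 103, 7⟩
    17 0 0 70 77 (-32) 201578866009461227521 (by decide +kernel)) <|
  AllL.cons (i := 0) (j := 3) (k := 10) (OkB.mk ⟨19, 15, 21, 63, 72, 103, 13⟩ ⟨11, 10, 12, 52, 82, 103, 7⟩
    17 0 0 78 93 (-31) 163136186319470854145 (by decide +kernel)) <|
  AllL.cons (i := 0) (j := 3) (k := 11) (OkB.mk ⟨19, 15, 23, 63, 72, 103, 13⟩ ⟨11, 10, 14, 52, 82, 103, 7⟩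
    18 0 0 90 108 (-29) 197012993342028382209 (by decide +kernel)) <|
  AllL.cons (i := 0) (j := 3) (k := 12) (OkB.mk ⟨21, 16, 22, 63, 72, 103, 13⟩ ⟨13, 10, 14, 52, 82, 103, 7⟩
    18 0 0 100 113 (-27) 191025231000605032449 (by decide +kernel)) <|
  AllL.cons (i := 0) (j := 3) (k := 13) (OkB.mk ⟨21, 16, 23, 63, 72, 103, 13⟩ ⟨13, 10, 14, 52, 82, 103, 7⟩
    18 0 0 126 119 (-24) 186045433024683704321 (by decide +kernel)) <|
  AllL.cons (i := 0) (j := 3) (k := 14) (OkB.mk ⟨21, 16, 23, 63, 72, 103, 13⟩ ⟨13, 10, 14, 52, 82, 103, 7⟩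
    19 0 0 155 108 (-21) 190415606641145675777 (by decide +kernel)) <|
  AllL.cons (i := 0) (j := 3) (k := 15) (OkB.mk ⟨21, 15, 23, 63, 72, 103, 13⟩ ⟨13, 10, 14, 52, 82, 103, 7⟩
    19 0 0 181 80 (-19) 203363324865391099905 (by decide +kernel)) <|
  AllL.cons (i := 0) (j := 3) (k := 16) (OkB.mk ⟨19, 15, 25, 63, 72, 103, 12⟩ ⟨13, 10, 14, 52, 82, 103, 7⟩
    19 0 0 198 44 (-18) 218631225379743858689 (by decide +kernel)) <|
  AllL.cons (i := 0) (j := 3) (k := 17) (OkB.mk ⟨19, 14, 25, 63, 72, 103, 12⟩ ⟨13, 9, 14, 52, 82, 103, 7⟩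
    19 0 0 209 5 (-17) 214255566986965680129 (by decide +kernel)) <|
  AllL.nil

end Pool.Agent.MP_48470b_gt.Run
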