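import Pool.Agent.MP_48470b_gt.Run.OkB
import Pool.Agent.MP_48470b_gt.Run.F15

/-! Runs of the tests. -/

namespace Pool.Agent.MP_48470b_gt.Run

/-- the boxes of this part -/
def b30l : List (Nat × Nat × Nat) :=
  [(2, 3, 8), (2, 3, 9), (2, 3, 10), (2, 3, 11), (2, 3, 12), (2, 3, 13), (2, 3, 14), (2, 3, 15), (2, 3, 16), (2, 3, 17), (2, 3, 18), (2, 3, 19), (2, 3, 20), (2, 3, 21), (2, 3, 22)]

theorem b30 : AllL OkB b30l :=
  AllL.cons (i := 2) (j := 3) (k := 8) (OkB.mk ⟨20, 17, 21, 63, 72, 103, 14⟩ ⟨12, 11, 12, 52, 82, 103, 7⟩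
    19 (-12) 3 72 60 (-31) 185869543462393610241 (by decide +kernel)) <|
  AllL.cons (i := 2) (j := 3) (k := 9) (OkB.mk ⟨20, 17, 20, 63, 72, 103, 13⟩ ⟨13, 11, 12, 52, 82, 103, 7⟩
    18 (-9) 4 78 64 (-29) 165522367619669164033 (by decide +kernel)) <|
  AllL.cons (i := 2) (j := 3) (k := 10) (OkB.mk ⟨20, 16, 21, 63, 72, 103, 13⟩ ⟨12, 10, 13, 52, 82, 103, 7⟩
    17 (-7) 4 85 67 (-26) 151911579562444587009 (by decide +kernel)) <|
  AllL.cons (i := 2) (j := 3) (k := 11) (OkB.mk ⟨20, 16, 21, 63, 72, 103, 13⟩ ⟨12, 10, 14, 52, 82, 103, 7⟩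
    17 (-6) 4 95 68 (-23) 155937058620060991489 (by decide +kernel)) <|
  AllL.cons (i := 2) (j := 3) (k := 12) (OkB.mk ⟨20, 17, 22, 63, 72, 103, 13⟩ ⟨13, 11, 14, 52, 82, 103, 7⟩
    17 (-4) 4 103 68 (-21) 151709050482680922113 (by decide +kernel)) <|
  AllL.cons (i := 2) (j := 3) (k := 13) (OkB.mk ⟨20, 17, 23, 63, 72, 103, 13⟩ ⟨13, 11, 14, 52, 82, 103, 7⟩
    16 (-3) 4 125 62 (-19) 147575307050562879489 (by decide +kernel)) <|
  AllL.cons (i := 2) (j := 3) (k := 14) (OkB.mk ⟨21, 16, 23, 63, 72, 103, 13⟩ ⟨13, 10, 15, 52, 82, 103, 7⟩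
    16 (-1) 4 150 45 (-17) 143494366427418198017 (by decide +kernel)) <|
  AllL.cons (i := 2) (j := 3) (k := 15) (OkB.mk ⟨20, 16, 23, 63, 72, 103, 13⟩ ⟨13, 10, 15, 52, 82, 103, 7⟩
    16 1 4 168 17 (-16) 133490296467182583809 (by decide +kernel)) <|
  AllL.cons (i := 2) (j := 3) (k := 16) (OkB.mk ⟨20, 15, 23, 63, 72, 103, 13⟩ ⟨12, 10, 15, 52, 82, 103, 7⟩
    17 3 3 178 (-11) (-16) 137250580879321858049 (by decide +kernel)) <|
  AllL.cons (i := 2) (j := 3) (k := 17) (OkB.mk ⟨19, 15, 23, 63, 72, 103, 12⟩ ⟨12, 10, 15, 52, 82, 103, 7⟩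
    17 4 2 184 (-38) (-17) 155372531279770681345 (by decide +kernel)) <|
  AllL.cons (i := 2) (j := 3) (k := 18) (OkB.mk ⟨19, 15, 23, 63, 72, 103, 12⟩ ⟨12, 10, 15, 52, 82, 103, 7⟩
    17 6 1 192 (-65) (-18) 142418351638005678081 (by decide +kernel)) <|
  AllL.cons (i := 2) (j := 3) (k := 19) (OkB.mk ⟨19, 15, 23, 63, 72, 103, 12⟩ ⟨12, 10, 15, 52, 82, 103, 7⟩
    18 7 (-1) 199 (-100) (-19) 141896558603835277313 (by decide +kernel)) <|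
  AllL.cons (i := 2) (j := 3) (k := 20) (OkB.mk ⟨19, 15, 23, 63, 72, 103, 12⟩ ⟨12, 10, 15, 52, 82, 103, 7⟩
    18 8 (-3) 203 (-141) (-21) 144932444623421308929 (by decide +kernel)) <|
  AllL.cons (i := 2) (j := 3) (k := 21) (OkB.mk ⟨19, 14, 23, 63, 72, 103, 12⟩ ⟨12, 9, 15, 52, 82, 103, 7⟩
    19 9 (-6) 218 (-193) (-24) 158533560826612154369 (by decide +kernel)) <|
  AllL.cons (i := 2) (j := 3) (k := 22) (OkB.mk ⟨19, 14, 22, 63, 72, 103, 12⟩ ⟨12, 9, 14, 52, 82, 103, 7⟩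
    19 10 (-9) 233 (-245) (-26) 164257341696200671233 (by decide +kernel)) <|
  AllL.nil

end Pool.Agent.MP_48470b_gt.Run
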