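import Pool.Agent.MP_48470b_gt.Run.OkB
import Pool.Agent.MP_48470b_gt.Run.B30

/-! Runs of the tests. -/

namespace Pool.Agent.MP_48470b_gt.Run

/-- the boxes of this part -/
def b31l : List (Nat × Nat × Nat) :=
  [(2, 4, 4), (2, 4, 5), (2, 4, 6), (2, 4, 7), (2, 4, 8), (2, 4, 9), (2, 4, 10), (2, 4, 11), (2, 4, 12), (2, 4, 13), (2, 4, 14), (2, 4, 15), (2, 4, 16), (2, 4, 17), (2, 4, 18)]

theorem b31 : AllL OkB b31l :=
  AllL.cons (i := 2) (j := 4) (k := 4) (OkB.mk ⟨17, 17, 17, 63, 72, 103, 15⟩ ⟨9, 11, 11, 52, 82, 103, 7⟩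
    24 (-13) 7 36 23 (-43) 164681641171775127553 (by decide +kernel)) <|
  AllL.cons (i := 2) (j := 4) (k := 5) (OkB.mk ⟨18, 18, 17, 63, 72, 103, 14⟩ ⟨10, 11, 11, 52, 82, 103, 7⟩
    22 (-15) 4 42 33 (-43) 191600417968687677441 (by decide +kernel)) <|
  AllL.cons (i := 2) (j := 4) (k := 6) (OkB.mk ⟨21, 18, 18, 63, 72, 103, 14⟩ ⟨12, 11, 12, 52, 82, 103, 7⟩
    20 (-16) 1 48 45 (-42) 186740423604362543105 (by decide +kernel)) <|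
  AllL.cons (i := 2) (j := 4) (k := 7) (OkB.mk ⟨20, 18, 20, 63, 72, 103, 14⟩ ⟨12, 11, 13, 52, 82, 103, 7⟩
    18 (-14) 0 54 60 (-42) 181404617644701646849 (by decide +kernel)) <|
  AllL.cons (i := 2) (j := 4) (k := 8) (OkB.mk ⟨20, 18, 21, 63, 72, 103, 13⟩ ⟨13, 11, 13, 52, 82, 103, 7⟩
    17 (-11) 1 59 73 (-40) 171445362541463601153 (by decide +kernel)) <|
  AllL.cons (i := 2) (j := 4) (k := 9) (OkB.mk ⟨21, 17, 22, 63, 72, 103, 13⟩ ⟨13, 11, 14, 52, 82, 103, 7⟩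
    17 (-9) 3 63 79 (-36) 143463866936936366081 (by decide +kernel)) <|
  AllL.cons (i := 2) (j := 4) (k := 10) (OkB.mk ⟨21, 17, 23, 63, 72, 103, 13⟩ ⟨13, 11, 14, 52, 82, 103, 7⟩
    16 (-7) 5 68 85 (-33) 120323715368187068417 (by decide +kernel)) <|
  AllL.cons (i := 2) (j := 4) (k := 11) (OkB.mk ⟨21, 16, 24, 63, 72, 103, 13⟩ ⟨13, 11, 15, 52, 82, 103, 7⟩
    16 (-6) 5 75 87 (-29) 131398094202242859009 (by decide +kernel)) <|
  AllL.cons (i := 2) (j := 4) (k := 12) (OkB.mk ⟨21, 17, 24, 63, 72, 103, 13⟩ ⟨14, 11, 16, 52, 82, 103, 7⟩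
    16 (-5) 6 81 81 (-25) 127406845552939237377 (by decide +kernel)) <|
  AllL.cons (i := 2) (j := 4) (k := 13) (OkB.mk ⟨21, 17, 25, 63, 72, 103, 13⟩ ⟨14, 11, 16, 52, 82, 103, 7⟩
    16 (-3) 7 101 78 (-21) 115330307362459222017 (by decide +kernel)) <|
  AllL.cons (i := 2) (j := 4) (k := 14) (OkB.mk ⟨21, 17, 25, 63, 72, 103, 13⟩ ⟨14, 11, 16, 52, 82, 103, 7⟩
    16 (-1) 8 125 57 (-18) 109990661908194131969 (by decide +kernel)) <|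
  AllL.cons (i := 2) (j := 4) (k := 15) (OkB.mk ⟨21, 16, 25, 63, 72, 103, 13⟩ ⟨14, 11, 16, 52, 82, 103, 7⟩
    16 2 8 145 23 (-16) 110188214460891529217 (by decide +kernel)) <|
  AllL.cons (i := 2) (j := 4) (k := 16) (OkB.mk ⟨20, 15, 26, 63, 72, 103, 13⟩ ⟨13, 11, 16, 52, 82, 103, 7⟩
    16 5 7 153 (-10) (-16) 130469279418216873985 (by decide +kernel)) <|
  AllL.cons (i := 2) (j := 4) (k := 17) (OkB.mk ⟨20, 15, 25, 63, 72, 103, 13⟩ ⟨13, 10, 16, 52, 82, 103, 7⟩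
    17 6 6 158 (-44) (-16) 126735769900920340481 (by decide +kernel)) <|
  AllL.cons (i := 2) (j := 4) (k := 18) (OkB.mk ⟨20, 15, 25, 63, 72, 103, 12⟩ ⟨13, 10, 17, 52, 82, 103, 7⟩
    17 8 4 162 (-72) (-17) 123219673002536861697 (by decide +kernel)) <|
  AllL.nil

end Pool.Agent.MP_48470b_gt.Run
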