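import Pool.Agent.MP_48470b_gt.Run.OkB
import Pool.Agent.MP_48470b_gt.Run.F16

/-! Runs of the tests. -/

namespace Pool.Agent.MP_48470b_gt.Run

/-- the boxes of this part -/
def b32l : List (Nat × Nat × Nat) :=
  [(2, 4, 19), (2, 4, 20), (2, 4, 21), (2, 4, 22), (2, 5, 5), (2, 5, 6), (2, 5, 7), (2, 5, 8), (2, 5, 9), (2, 5, 10), (2, 5, 11), (2, 5, 12), (2, 5, 13)]

theorem b32 : AllL OkB b32l :=
  AllL.cons (i := 2) (j := 4) (k := 19) (OkB.mk ⟨20, 15, 26, 63, 72, 103, 12⟩ ⟨13, 10, 17, 52, 82, 103, 7⟩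
    17 9 2 166 (-111) (-19) 113652346515600965633 (by decide +kernel)) <|
  AllL.cons (i := 2) (j := 4) (k := 20) (OkB.mk ⟨20, 15, 26, 63, 72, 103, 12⟩ ⟨14, 10, 17, 52, 82, 103, 7⟩
    18 11 (-1) 166 (-149) (-22) 123738815801367461889 (by decide +kernel)) <|
  AllL.cons (i := 2) (j := 4) (k := 21) (OkB.mk ⟨20, 15, 26, 63, 72, 103, 12⟩ ⟨13, 10, 17, 52, 82, 103, 7⟩
    18 11 (-4) 176 (-208) (-26) 117265791012411801601 (by decide +kernel)) <|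
  AllL.cons (i := 2) (j := 4) (k := 22) (OkB.mk ⟨20, 14, 26, 63, 72, 103, 12⟩ ⟨13, 10, 17, 52, 82, 103, 7⟩
    19 12 (-7) 185 (-259) (-30) 129975751666900664321 (by decide +kernel)) <|
  AllL.cons (i := 2) (j := 5) (k := 5) (OkB.mk ⟨19, 18, 18, 63, 72, 103, 14⟩ ⟨11, 11, 11, 52, 82, 103, 7⟩
    20 (-13) 6 37 36 (-51) 168980529188800823297 (by decide +kernel)) <|
  AllL.cons (i := 2) (j := 5) (k := 6) (OkB.mk ⟨21, 18, 18, 63, 72, 103, 14⟩ ⟨12, 12, 12, 52, 82, 103, 7⟩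
    18 (-13) 2 40 47 (-49) 159535134967972495361 (by decide +kernel)) <|
  AllL.cons (i := 2) (j := 5) (k := 7) (OkB.mk ⟨22, 18, 20, 63, 72, 103, 14⟩ ⟨13, 12, 13, 52, 82, 103, 7⟩
    17 (-12) 0 44 61 (-48) 150044985126335545345 (by decide +kernel)) <|
  AllL.cons (i := 2) (j := 5) (k := 8) (OkB.mk ⟨21, 18, 23, 63, 72, 103, 13⟩ ⟨13, 12, 14, 52, 82, 103, 7⟩
    16 (-11) 1 47 73 (-45) 131689595900365111297 (by decide +kernel)) <|
  AllL.cons (i := 2) (j := 5) (k := 9) (OkB.mk ⟨22, 17, 24, 63, 72, 103, 13⟩ ⟨13, 12, 16, 52, 82, 103, 7⟩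
    16 (-10) 2 50 81 (-41) 124537572241161846785 (by decide +kernel)) <|
  AllL.cons (i := 2) (j := 5) (k := 10) (OkB.mk ⟨21, 17, 25, 63, 72, 103, 13⟩ ⟨14, 11, 16, 52, 82, 103, 7⟩
    15 (-9) 5 53 84 (-36) 114536626268338651137 (by decide +kernel)) <|
  AllL.cons (i := 2) (j := 5) (k := 11) (OkB.mk ⟨21, 17, 25, 63, 72, 103, 13⟩ ⟨14, 11, 16, 52, 82, 103, 7⟩
    15 (-9) 6 58 80 (-31) 98037775620007526401 (by decide +kernel)) <|
  AllL.cons (i := 2) (j := 5) (k := 12) (OkB.mk ⟨21, 17, 25, 63, 72, 103, 13⟩ ⟨14, 12, 16, 52, 82, 103, 7⟩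
    15 (-8) 8 61 73 (-25) 94791919713155809281 (by decide +kernel)) <|
  AllL.cons (i := 2) (j := 5) (k := 13) (OkB.mk ⟨21, 16, 25, 63, 72, 103, 13⟩ ⟨14, 11, 16, 52, 82, 103, 7⟩
    15 (-7) 10 74 66 (-21) 102595727130795966465 (by decide +kernel)) <|
  AllL.nil

end Pool.Agent.MP_48470b_gt.Run
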