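import Pool.Agent.MP_48470b_gt.Run.OkB
import Pool.Agent.MP_48470b_gt.Run.B32

/-! Runs of the tests. -/

namespace Pool.Agent.MP_48470b_gt.Run

/-- the boxes of this part -/
def b33l : List (Nat × Nat × Nat) :=
  [(2, 5, 14), (2, 5, 15), (2, 5, 16), (2, 5, 17), (2, 5, 18), (2, 5, 19), (2, 5, 20), (2, 5, 21), (2, 5, 22), (2, 6, 6), (2, 6, 7), (2, 6, 8), (2, 6, 9)]

theorem b33 : AllL OkB b33l :=
  AllL.cons (i := 2) (j := 5) (k := 14) (OkB.mk ⟨20, 16, 25, 63, 72, 103, 13⟩ ⟨14, 11, 16, 52, 82, 103, 7⟩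
    15 (-5) 12 92 50 (-17) 105484627000007065601 (by decide +kernel)) <|
  AllL.cons (i := 2) (j := 5) (k := 15) (OkB.mk ⟨20, 16, 24, 63, 72, 103, 13⟩ ⟨14, 10, 16, 52, 82, 103, 7⟩
    15 (-1) 13 108 28 (-15) 103559692751806136321 (by decide +kernel)) <|
  AllL.cons (i := 2) (j := 5) (k := 16) (OkB.mk ⟨20, 15, 25, 63, 72, 103, 13⟩ ⟨13, 10, 16, 52, 82, 103, 7⟩
    16 3 13 118 0 (-14) 89826960471285039105 (by decide +kernel)) <|
  AllL.cons (i := 2) (j := 5) (k := 17) (OkB.mk ⟨20, 15, 24, 63, 72, 103, 13⟩ ⟨13, 10, 16, 52, 82, 103, 7⟩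
    16 7 12 123 (-24) (-14) 103584379948945637377 (by decide +kernel)) <|
  AllL.cons (i := 2) (j := 5) (k := 18) (OkB.mk ⟨20, 15, 25, 63, 72, 103, 13⟩ ⟨13, 10, 16, 52, 82, 103, 7⟩
    16 10 10 126 (-52) (-15) 84650988455369637889 (by decide +kernel)) <|
  AllL.cons (i := 2) (j := 5) (k := 19) (OkB.mk ⟨20, 15, 25, 63, 72, 103, 12⟩ ⟨13, 10, 17, 52, 82, 103, 7⟩
    17 12 7 128 (-88) (-17) 91533183302462603265 (by decide +kernel)) <|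
  AllL.cons (i := 2) (j := 5) (k := 20) (OkB.mk ⟨20, 15, 25, 63, 72, 103, 12⟩ ⟨14, 10, 17, 52, 82, 103, 7⟩
    17 14 4 125 (-122) (-20) 104149320430730084353 (by decide +kernel)) <|
  AllL.cons (i := 2) (j := 5) (k := 21) (OkB.mk ⟨20, 15, 25, 63, 72, 103, 12⟩ ⟨14, 10, 17, 52, 82, 103, 7⟩
    18 15 0 131 (-171) (-24) 110896707318237364225 (by decide +kernel)) <|
  AllL.cons (i := 2) (j := 5) (k := 22) (OkB.mk ⟨20, 14, 26, 63, 72, 103, 12⟩ ⟨14, 10, 17, 52, 82, 103, 7⟩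
    18 15 (-2) 137 (-223) (-29) 105148674245797085185 (by decide +kernel)) <|
  AllL.cons (i := 2) (j := 6) (k := 6) (OkB.mk ⟨22, 19, 19, 63, 72, 103, 14⟩ ⟨13, 12, 12, 52, 82, 103, 7⟩
    17 (-11) 4 34 46 (-57) 123350088688047489025 (by decide +kernel)) <|
  AllL.cons (i := 2) (j := 6) (k := 7) (OkB.mk ⟨22, 19, 21, 63, 72, 103, 14⟩ ⟨14, 13, 13, 52, 82, 103, 7⟩
    16 (-11) 2 35 56 (-52) 129298904403469664257 (by decide +kernel)) <|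
  AllL.cons (i := 2) (j := 6) (k := 8) (OkB.mk ⟨22, 19, 23, 63, 72, 103, 14⟩ ⟨15, 14, 14, 52, 82, 103, 7⟩
    15 (-12) 2 37 62 (-46) 106471911338497015809 (by decide +kernel)) <|
  AllL.cons (i := 2) (j := 6) (k := 9) (OkB.mk ⟨21, 18, 25, 63, 72, 103, 13⟩ ⟨14, 13, 15, 52, 82, 103, 7⟩
    15 (-12) 3 38 65 (-39) 104918588793301237761 (by decide +kernel)) <|
  AllL.nil

end Pool.Agent.MP_48470b_gt.Run
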