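import Pool.Agent.MP_48470b_gt.Run.OkB
import Pool.Agent.MP_48470b_gt.Run.F17

/-! Runs of the tests. -/

namespace Pool.Agent.MP_48470b_gt.Run

/-- the boxes of this part -/
def b34l : List (Nat × Nat × Nat) :=
  [(2, 6, 10), (2, 6, 11), (2, 6, 12), (2, 6, 13), (2, 6, 14), (2, 6, 15), (2, 6, 16), (2, 6, 17), (2, 6, 18), (2, 6, 19), (2, 6, 20), (2, 6, 21), (2, 6, 22), (2, 7, 7)]

theorem b34 : AllL OkB b34l :=
  AllL.cons (i := 2) (j := 6) (k := 10) (OkB.mk ⟨20, 18, 24, 63, 72, 103, 13⟩ ⟨14, 13, 15, 52, 82, 103, 7⟩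
    15 (-12) 5 40 63 (-32) 92738112256819068929 (by decide +kernel)) <|
  AllL.cons (i := 2) (j := 6) (k := 11) (OkB.mk ⟨20, 17, 23, 63, 72, 103, 13⟩ ⟨14, 11, 15, 52, 82, 103, 7⟩
    15 (-12) 7 44 59 (-26) 90207327860260077569 (by decide +kernel)) <|
  AllL.cons (i := 2) (j := 6) (k := 12) (OkB.mk ⟨20, 16, 23, 63, 72, 103, 14⟩ ⟨13, 11, 15, 52, 82, 103, 7⟩
    15 (-12) 10 45 47 (-22) 87056982955100471297 (by decide +kernel)) <|
  AllL.cons (i := 2) (j := 6) (k := 13) (OkB.mk ⟨19, 16, 23, 63, 72, 103, 14⟩ ⟨12, 11, 15, 52, 82, 103, 7⟩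
    15 (-11) 13 52 40 (-18) 76275305798669697025 (by decide +kernel)) <|
  AllL.cons (i := 2) (j := 6) (k := 14) (OkB.mk ⟨19, 15, 23, 63, 72, 103, 14⟩ ⟨12, 10, 15, 52, 82, 103, 7⟩
    15 (-8) 15 61 35 (-15) 80277446485035974657 (by decide +kernel)) <|
  AllL.cons (i := 2) (j := 6) (k := 15) (OkB.mk ⟨19, 15, 22, 63, 72, 103, 13⟩ ⟨12, 10, 14, 52, 82, 103, 7⟩
    16 (-4) 18 71 25 (-13) 76750515961145065473 (by decide +kernel)) <|
  AllL.cons (i := 2) (j := 6) (k := 16) (OkB.mk ⟨19, 14, 23, 63, 72, 103, 13⟩ ⟨12, 10, 14, 52, 82, 103, 7⟩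
    16 0 19 79 5 (-12) 85317285904732127233 (by decide +kernel)) <|
  AllL.cons (i := 2) (j := 6) (k := 17) (OkB.mk ⟨19, 14, 22, 63, 72, 103, 13⟩ ⟨12, 9, 14, 52, 82, 103, 7⟩
    16 5 18 85 (-12) (-12) 80464957335475847169 (by decide +kernel)) <|
  AllL.cons (i := 2) (j := 6) (k := 18) (OkB.mk ⟨18, 14, 23, 63, 72, 103, 13⟩ ⟨12, 10, 14, 52, 82, 103, 7⟩
    16 10 17 88 (-29) (-13) 89269282126363099137 (by decide +kernel)) <|
  AllL.cons (i := 2) (j := 6) (k := 19) (OkB.mk ⟨19, 14, 23, 63, 72, 103, 13⟩ ⟨13, 10, 14, 52, 82, 103, 7⟩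
    17 14 14 90 (-51) (-14) 77437736704467271681 (by decide +kernel)) <|
  AllL.cons (i := 2) (j := 6) (k := 20) (OkB.mk ⟨19, 14, 23, 63, 72, 103, 13⟩ ⟨12, 10, 15, 52, 82, 103, 7⟩
    17 17 11 89 (-74) (-17) 81797780795180449793 (by decide +kernel)) <|
  AllL.cons (i := 2) (j := 6) (k := 21) (OkB.mk ⟨18, 14, 24, 63, 72, 103, 12⟩ ⟨12, 10, 16, 52, 82, 103, 7⟩
    18 18 7 93 (-113) (-20) 86712942330795524097 (by decide +kernel)) <|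
  AllL.cons (i := 2) (j := 6) (k := 22) (OkB.mk ⟨19, 13, 24, 63, 72, 103, 12⟩ ⟨12, 10, 16, 52, 82, 103, 7⟩
    18 19 4 98 (-149) (-24) 90801532393773596673 (by decide +kernel)) <|
  AllL.cons (i := 2) (j := 7) (k := 7) (OkB.mk ⟨22, 21, 21, 63, 72, 103, 14⟩ ⟨15, 13, 14, 52, 82, 103, 7⟩
    15 (-12) 3 28 46 (-54) 105233880487074725889 (by decide +kernel)) <|
  AllL.nil

end Pool.Agent.MP_48470b_gt.Run
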