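import Pool.Agent.MP_48470b_gt.Run.OkB
import Pool.Agent.MP_48470b_gt.Run.B34

/-! Runs of the tests. -/

namespace Pool.Agent.MP_48470b_gt.Run

/-- the boxes of this part -/
def b35l : List (Nat × Nat × Nat) :=
  [(2, 7, 8), (2, 7, 9), (2, 7, 10), (2, 7, 11), (2, 7, 12), (2, 7, 13), (2, 7, 14), (2, 7, 15), (2, 7, 16), (2, 7, 17), (2, 7, 18), (2, 7, 19), (2, 7, 20), (2, 7, 21), (2, 7, 22), (2, 8, 8), (2, 8, 9)]

theorem b35 : AllL OkB b35l :=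
  AllL.cons (i := 2) (j := 7) (k := 8) (OkB.mk ⟨21, 20, 22, 63, 72, 103, 14⟩ ⟨13, 13, 14, 52, 82, 103, 7⟩
    15 (-13) 3 29 49 (-44) 96503212804765908993 (by decide +kernel)) <|
  AllL.cons (i := 2) (j := 7) (k := 9) (OkB.mk ⟨20, 19, 22, 63, 72, 103, 14⟩ ⟨12, 13, 14, 52, 82, 103, 7⟩
    15 (-15) 4 29 42 (-34) 81728391578424180737 (by decide +kernel)) <|
  AllL.cons (i := 2) (j := 7) (k := 10) (OkB.mk ⟨19, 17, 22, 63, 72, 103, 14⟩ ⟨12, 13, 13, 52, 82, 103, 7⟩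
    15 (-15) 6 31 41 (-27) 83212255087875325953 (by decide +kernel)) <|
  AllL.cons (i := 2) (j := 7) (k := 11) (OkB.mk ⟨18, 16, 21, 63, 72, 103, 14⟩ ⟨12, 10, 13, 52, 82, 103, 7⟩
    15 (-15) 9 33 36 (-22) 78823844009482387457 (by decide +kernel)) <|
  AllL.cons (i := 2) (j := 7) (k := 12) (OkB.mk ⟨18, 16, 20, 63, 72, 103, 14⟩ ⟨11, 10, 13, 52, 82, 103, 7⟩
    16 (-15) 12 33 27 (-18) 72311009477897748481 (by decide +kernel)) <|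
  AllL.cons (i := 2) (j := 7) (k := 13) (OkB.mk ⟨18, 15, 20, 63, 72, 103, 14⟩ ⟨11, 10, 13, 52, 82, 103, 7⟩
    16 (-13) 15 36 24 (-15) 69017740705510981633 (by decide +kernel)) <|
  AllL.cons (i := 2) (j := 7) (k := 14) (OkB.mk ⟨17, 15, 21, 63, 72, 103, 14⟩ ⟨11, 9, 13, 52, 82, 103, 7⟩
    16 (-11) 19 41 18 (-13) 70343039794829852673 (by decide +kernel)) <|
  AllL.cons (i := 2) (j := 7) (k := 15) (OkB.mk ⟨17, 15, 21, 63, 72, 103, 14⟩ ⟨11, 9, 13, 52, 82, 103, 7⟩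
    17 (-7) 22 46 13 (-12) 67042028124121333761 (by decide +kernel)) <|
  AllL.cons (i := 2) (j := 7) (k := 16) (OkB.mk ⟨18, 14, 21, 63, 72, 103, 14⟩ ⟨11, 9, 13, 52, 82, 103, 7⟩
    17 (-2) 24 51 7 (-11) 73002248111585755137 (by decide +kernel)) <|
  AllL.cons (i := 2) (j := 7) (k := 17) (OkB.mk ⟨17, 14, 21, 63, 72, 103, 14⟩ ⟨11, 9, 13, 52, 82, 103, 7⟩
    17 3 24 55 (-5) (-11) 73866591656927559681 (by decide +kernel)) <|
  AllL.cons (i := 2) (j := 7) (k := 18) (OkB.mk ⟨17, 14, 21, 63, 72, 103, 14⟩ ⟨11, 9, 13, 52, 82, 103, 7⟩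
    17 9 24 59 (-14) (-12) 75642589358564835329 (by decide +kernel)) <|
  AllL.cons (i := 2) (j := 7) (k := 19) (OkB.mk ⟨17, 14, 22, 63, 72, 103, 14⟩ ⟨11, 9, 13, 52, 82, 103, 7⟩
    18 14 22 61 (-26) (-13) 72952957829946277889 (by decide +kernel)) <|
  AllL.cons (i := 2) (j := 7) (k := 20) (OkB.mk ⟨17, 14, 21, 63, 72, 103, 13⟩ ⟨11, 9, 14, 52, 82, 103, 7⟩
    18 18 19 62 (-41) (-14) 79024983031670636545 (by decide +kernel)) <|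
  AllL.cons (i := 2) (j := 7) (k := 21) (OkB.mk ⟨17, 14, 21, 63, 72, 103, 13⟩ ⟨11, 9, 13, 52, 82, 103, 7⟩
    18 21 16 67 (-60) (-16) 70970095261880156161 (by decide +kernel)) <|
  AllL.cons (i := 2) (j := 7) (k := 22) (OkB.mk ⟨17, 13, 21, 63, 72, 103, 13⟩ ⟨11, 9, 13, 52, 82, 103, 7⟩
    19 22 12 72 (-89) (-19) 80631745277950164993 (by decide +kernel)) <|
  AllL.cons (i := 2) (j := 8) (k := 8) (OkB.mk ⟨19, 20, 21, 63, 72, 103, 14⟩ ⟨12, 13, 13, 52, 82, 103, 7⟩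
    15 (-15) 4 23 35 (-41) 88981486881938079745 (by decide +kernel)) <|
  AllL.cons (i := 2) (j := 8) (k := 9) (OkB.mk ⟨18, 18, 21, 63, 72, 103, 14⟩ ⟨11, 11, 13, 52, 82, 103, 7⟩
    15 (-17) 6 23 29 (-30) 82311322132023345153 (by decide +kernel)) <|
  AllL.nil

end Pool.Agent.MP_48470b_gt.Run
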