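import Pool.Agent.MP_48470b_gt.Run.OkB
import Pool.Agent.MP_48470b_gt.Run.F18

/-! Runs of the tests. -/

namespace Pool.Agent.MP_48470b_gt.Run

/-- the boxes of this part -/
def b36l : List (Nat × Nat × Nat) :=
  [(2, 8, 10), (2, 8, 11), (2, 8, 12), (2, 8, 13), (2, 8, 14), (2, 8, 15), (2, 8, 16), (2, 8, 17), (2, 8, 18), (2, 8, 19), (2, 8, 20), (2, 8, 21), (2, 8, 22), (2, 9, 9), (2, 9, 10), (2, 9, 11), (2, 9, 12), (2, 9, 13), (2, 9, 14), (2, 9, 15)]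

theorem b36 : AllL OkB b36l :=
  AllL.cons (i := 2) (j := 8) (k := 10) (OkB.mk ⟨18, 17, 19, 63, 72, 103, 15⟩ ⟨11, 10, 12, 52, 82, 103, 7⟩
    16 (-17) 8 24 27 (-23) 68092430752237486081 (by decide +kernel)) <|
  AllL.cons (i := 2) (j := 8) (k := 11) (OkB.mk ⟨17, 16, 19, 63, 72, 103, 15⟩ ⟨11, 10, 11, 52, 82, 103, 7⟩
    17 (-17) 11 25 22 (-18) 70840468613401411585 (by decide +kernel)) <|
  AllL.cons (i := 2) (j := 8) (k := 12) (OkB.mk ⟨17, 16, 20, 63, 72, 103, 15⟩ ⟨11, 9, 12, 52, 82, 103, 7⟩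
    17 (-16) 14 24 17 (-15) 59680080482262843393 (by decide +kernel)) <|
  AllL.cons (i := 2) (j := 8) (k := 13) (OkB.mk ⟨17, 15, 20, 63, 72, 103, 15⟩ ⟨10, 9, 12, 52, 82, 103, 7⟩
    18 (-15) 17 26 13 (-13) 66787836291503357953 (by decide +kernel)) <|
  AllL.cons (i := 2) (j := 8) (k := 14) (OkB.mk ⟨16, 15, 21, 63, 72, 103, 15⟩ ⟨10, 9, 12, 52, 82, 103, 7⟩
    18 (-12) 20 28 11 (-12) 67501936383272943617 (by decide +kernel)) <|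
  AllL.cons (i := 2) (j := 8) (k := 15) (OkB.mk ⟨16, 15, 21, 63, 72, 103, 15⟩ ⟨10, 9, 13, 52, 82, 103, 7⟩
    18 (-9) 24 31 7 (-11) 69515276176710434817 (by decide +kernel)) <|
  AllL.cons (i := 2) (j := 8) (k := 16) (OkB.mk ⟨16, 14, 22, 63, 72, 103, 15⟩ ⟨10, 9, 13, 52, 82, 103, 7⟩
    19 (-4) 26 35 4 (-11) 70281712059889483777 (by decide +kernel)) <|
  AllL.cons (i := 2) (j := 8) (k := 17) (OkB.mk ⟨16, 14, 23, 63, 72, 103, 15⟩ ⟨10, 9, 13, 52, 82, 103, 7⟩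
    19 1 28 38 (-2) (-10) 67400930434782068737 (by decide +kernel)) <|
  AllL.cons (i := 2) (j := 8) (k := 18) (OkB.mk ⟨16, 14, 24, 63, 72, 103, 14⟩ ⟨10, 9, 14, 52, 82, 103, 7⟩
    19 7 29 40 (-8) (-11) 70287204807664992257 (by decide +kernel)) <|
  AllL.cons (i := 2) (j := 8) (k := 19) (OkB.mk ⟨17, 14, 23, 63, 72, 103, 14⟩ ⟨10, 9, 14, 52, 82, 103, 7⟩
    19 13 28 42 (-13) (-12) 70422894438137200641 (by decide +kernel)) <|
  AllL.cons (i := 2) (j := 8) (k := 20) (OkB.mk ⟨16, 15, 23, 63, 72, 103, 14⟩ ⟨11, 9, 14, 52, 82, 103, 7⟩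
    19 17 26 44 (-25) (-13) 70252516177881333761 (by decide +kernel)) <|
  AllL.cons (i := 2) (j := 8) (k := 21) (OkB.mk ⟨16, 14, 23, 63, 72, 103, 14⟩ ⟨10, 9, 14, 52, 82, 103, 7⟩
    20 21 23 49 (-37) (-14) 72698639553491107841 (by decide +kernel)) <|
  AllL.cons (i := 2) (j := 8) (k := 22) (OkB.mk ⟨16, 14, 22, 63, 72, 103, 14⟩ ⟨10, 9, 14, 52, 82, 103, 7⟩
    20 24 21 54 (-50) (-16) 69548970160787816449 (by decide +kernel)) <|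
  AllL.cons (i := 2) (j := 9) (k := 9) (OkB.mk ⟨17, 18, 19, 63, 72, 103, 15⟩ ⟨10, 11, 11, 52, 82, 103, 7⟩
    16 (-18) 7 19 21 (-27) 78160764968093351937 (by decide +kernel)) <|
  AllL.cons (i := 2) (j := 9) (k := 10) (OkB.mk ⟨17, 17, 18, 63, 72, 103, 15⟩ ⟨10, 11, 11, 52, 82, 103, 7⟩
    17 (-18) 9 19 18 (-21) 66888975418340147201 (by decide +kernel)) <|
  AllL.cons (i := 2) (j := 9) (k := 11) (OkB.mk ⟨17, 16, 19, 63, 72, 103, 15⟩ ⟨10, 10, 11, 52, 82, 103, 7⟩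
    18 (-18) 11 19 14 (-17) 61886094432744243201 (by decide +kernel)) <|
  AllL.cons (i := 2) (j := 9) (k := 12) (OkB.mk ⟨16, 17, 19, 63, 72, 103, 15⟩ ⟨9, 10, 11, 52, 82, 103, 7⟩
    19 (-16) 13 18 11 (-14) 69244626579170000897 (by decide +kernel)) <|
  AllL.cons (i := 2) (j := 9) (k := 13) (OkB.mk ⟨17, 15, 20, 63, 72, 103, 15⟩ ⟨9, 10, 11, 52, 82, 103, 7⟩
    20 (-15) 16 19 9 (-12) 60082047364848680961 (by decide +kernel)) <|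
  AllL.cons (i := 2) (j := 9) (k := 14) (OkB.mk ⟨16, 15, 20, 63, 72, 103, 15⟩ ⟨9, 9, 11, 52, 82, 103, 7⟩
    20 (-12) 19 21 8 (-11) 55792695412170686465 (by decide +kernel)) <|
  AllL.cons (i := 2) (j := 9) (k := 15) (OkB.mk ⟨16, 14, 21, 63, 72, 103, 15⟩ ⟨9, 9, 12, 52, 82, 103, 7⟩
    20 (-9) 21 23 7 (-10) 62743905092310663169 (by decide +kernel)) <|
  AllL.nil

end Pool.Agent.MP_48470b_gt.Run
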