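import Pool.Agent.MP_48470b_gt.Run.OkB
import Pool.Agent.MP_48470b_gt.Run.B36

/-! Runs of the tests. -/

namespace Pool.Agent.MP_48470b_gt.Run

/-- the boxes of this part -/
def b37l : List (Nat × Nat × Nat) :=
  [(2, 9, 16), (2, 9, 17), (2, 9, 18), (2, 9, 19), (2, 9, 20), (2, 9, 21), (2, 9, 22), (2, 10, 10), (2, 10, 11), (2, 10, 12), (2, 10, 13), (2, 10, 14), (2, 10, 15), (2, 10, 16), (2, 10, 17), (2, 10, 18), (2, 10, 19), (2, 10, 20), (2, 10, 21), (2, 10, 22), (2, 11, 11), (2, 11, 12)]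

theorem b37 : AllL OkB b37l :=
  AllL.cons (i := 2) (j := 9) (k := 16) (OkB.mk ⟨16, 14, 21, 63, 72, 103, 15⟩ ⟨9, 9, 12, 52, 82, 103, 7⟩
    21 (-5) 24 25 4 (-9) 64765830009976782849 (by decide +kernel)) <|
  AllL.cons (i := 2) (j := 9) (k := 17) (OkB.mk ⟨16, 14, 22, 63, 72, 103, 15⟩ ⟨10, 9, 12, 52, 82, 103, 7⟩
    21 0 26 28 0 (-9) 57153800097648082945 (by decide +kernel)) <|
  AllL.cons (i := 2) (j := 9) (k := 18) (OkB.mk ⟨16, 14, 22, 63, 72, 103, 15⟩ ⟨10, 9, 13, 52, 82, 103, 7⟩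
    21 5 28 30 (-5) (-10) 61957978991139749889 (by decide +kernel)) <|
  AllL.cons (i := 2) (j := 9) (k := 19) (OkB.mk ⟨16, 14, 23, 63, 72, 103, 15⟩ ⟨10, 9, 14, 52, 82, 103, 7⟩
    21 11 29 31 (-9) (-10) 63684886384814850049 (by decide +kernel)) <|
  AllL.cons (i := 2) (j := 9) (k := 20) (OkB.mk ⟨16, 14, 24, 63, 72, 103, 15⟩ ⟨10, 9, 14, 52, 82, 103, 7⟩
    21 16 29 32 (-14) (-11) 69606883087490220033 (by decide +kernel)) <|
  AllL.cons (i := 2) (j := 9) (k := 21) (OkB.mk ⟨16, 14, 23, 63, 72, 103, 14⟩ ⟨10, 9, 14, 52, 82, 103, 7⟩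
    21 20 27 36 (-22) (-13) 66379288419508420609 (by decide +kernel)) <|
  AllL.cons (i := 2) (j := 9) (k := 22) (OkB.mk ⟨16, 14, 23, 63, 72, 103, 14⟩ ⟨10, 9, 14, 52, 82, 103, 7⟩
    21 23 26 40 (-32) (-14) 58565601752453742593 (by decide +kernel)) <|
  AllL.cons (i := 2) (j := 10) (k := 10) (OkB.mk ⟨17, 17, 18, 63, 72, 103, 15⟩ ⟨10, 10, 10, 52, 82, 103, 7⟩
    19 (-18) 9 15 12 (-19) 62738589778224087041 (by decide +kernel)) <|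
  AllL.cons (i := 2) (j := 10) (k := 11) (OkB.mk ⟨16, 17, 18, 63, 72, 103, 15⟩ ⟨9, 10, 10, 52, 82, 103, 7⟩
    20 (-17) 10 15 10 (-16) 66477746112362971137 (by decide +kernel)) <|
  AllL.cons (i := 2) (j := 10) (k := 12) (OkB.mk ⟨16, 16, 19, 63, 72, 103, 15⟩ ⟨9, 9, 10, 52, 82, 103, 7⟩
    21 (-15) 12 14 8 (-13) 63214957863882457089 (by decide +kernel)) <|
  AllL.cons (i := 2) (j := 10) (k := 13) (OkB.mk ⟨16, 15, 19, 63, 72, 103, 15⟩ ⟨9, 9, 10, 52, 82, 103, 7⟩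
    21 (-13) 13 15 8 (-11) 61048405110844030977 (by decide +kernel)) <|
  AllL.cons (i := 2) (j := 10) (k := 14) (OkB.mk ⟨15, 15, 19, 63, 72, 103, 15⟩ ⟨9, 8, 10, 52, 82, 103, 7⟩
    22 (-11) 15 16 7 (-10) 59679016155007156225 (by decide +kernel)) <|
  AllL.cons (i := 2) (j := 10) (k := 15) (OkB.mk ⟨15, 14, 19, 63, 72, 103, 15⟩ ⟨9, 8, 10, 52, 82, 103, 7⟩
    22 (-9) 17 18 5 (-9) 65968744659031162881 (by decide +kernel)) <|
  AllL.cons (i := 2) (j := 10) (k := 16) (OkB.mk ⟨15, 14, 19, 63, 72, 103, 15⟩ ⟨9, 9, 10, 52, 82, 103, 7⟩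
    22 (-6) 19 20 3 (-9) 66453972197069291521 (by decide +kernel)) <|
  AllL.cons (i := 2) (j := 10) (k := 17) (OkB.mk ⟨15, 14, 19, 63, 72, 103, 15⟩ ⟨9, 8, 11, 52, 82, 103, 7⟩
    22 (-2) 21 22 0 (-8) 70402949022331437057 (by decide +kernel)) <|
  AllL.cons (i := 2) (j := 10) (k := 18) (OkB.mk ⟨15, 14, 20, 63, 72, 103, 15⟩ ⟨9, 8, 12, 52, 82, 103, 7⟩
    22 3 23 23 (-3) (-8) 62087884915571949569 (by decide +kernel)) <|
  AllL.cons (i := 2) (j := 10) (k := 19) (OkB.mk ⟨15, 14, 20, 63, 72, 103, 15⟩ ⟨9, 8, 12, 52, 82, 103, 7⟩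
    22 8 24 25 (-8) (-9) 71626843590194364417 (by decide +kernel)) <|
  AllL.cons (i := 2) (j := 10) (k := 20) (OkB.mk ⟨15, 14, 21, 63, 72, 103, 15⟩ ⟨9, 9, 12, 52, 82, 103, 7⟩
    22 13 24 25 (-12) (-10) 67139040234063265793 (by decide +kernel)) <|
  AllL.cons (i := 2) (j := 10) (k := 21) (OkB.mk ⟨16, 13, 22, 63, 72, 103, 15⟩ ⟨9, 8, 13, 52, 82, 103, 7⟩
    23 17 24 28 (-18) (-11) 65452644208874618881 (by decide +kernel)) <|
  AllL.cons (i := 2) (j := 10) (k := 22) (OkB.mk ⟨15, 13, 23, 63, 72, 103, 15⟩ ⟨10, 8, 13, 52, 82, 103, 7⟩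
    23 20 24 31 (-25) (-12) 71290264526673412097 (by decide +kernel)) <|
  AllL.cons (i := 2) (j := 11) (k := 11) (OkB.mk ⟨16, 17, 17, 63, 72, 103, 15⟩ ⟨9, 9, 9, 52, 82, 103, 7⟩
    21 (-16) 9 13 8 (-15) 55898134454105800705 (by decide +kernel)) <|
  AllL.cons (i := 2) (j := 11) (k := 12) (OkB.mk ⟨15, 17, 17, 63, 72, 103, 15⟩ ⟨9, 9, 9, 52, 82, 103, 7⟩
    22 (-13) 9 12 7 (-13) 65348306602712629249 (by decide +kernel)) <|
  AllL.nil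

end Pool.Agent.MP_48470b_gt.Run
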