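import Pool.Agent.MP_48470b_gt.Run.OkB
import Pool.Agent.MP_48470b_gt.Run.F19

/-! Runs of the tests. -/

namespace Pool.Agent.MP_48470b_gt.Run

/-- the boxes of this part -/
def b38l : List (Nat × Nat × Nat) :=
  [(2, 11, 13), (2, 11, 14), (2, 11, 15), (2, 11, 16), (2, 11, 17), (2, 11, 18), (2, 11, 19), (2, 11, 20), (2, 11, 21), (2, 11, 22), (2, 12, 12), (2, 12, 13), (2, 12, 14), (2, 12, 15), (2, 12, 16), (2, 12, 17), (2, 12, 18), (2, 12, 19), (2, 12, 20), (2, 12, 21), (2, 12, 22), (2, 13, 13), (2, 13, 14), (2, 13, 15), (2, 13, 16), (2, 13, 17), (2, 13, 18), (2, 13, 19)]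

theorem b38 : AllL OkB b38l :=
  AllL.cons (i := 2) (j := 11) (k := 13) (OkB.mk ⟨15, 15, 17, 63, 72, 103, 15⟩ ⟨8, 9, 9, 52, 82, 103, 7⟩
    22 (-11) 10 13 6 (-11) 63596809456116039681 (by decide +kernel)) <|
  AllL.cons (i := 2) (j := 11) (k := 14) (OkB.mk ⟨15, 14, 17, 63, 72, 103, 15⟩ ⟨8, 8, 9, 52, 82, 103, 7⟩
    23 (-9) 11 13 6 (-10) 66100724812149161985 (by decide +kernel)) <|
  AllL.cons (i := 2) (j := 11) (k := 15) (OkB.mk ⟨14, 14, 18, 63, 72, 103, 15⟩ ⟨8, 8, 9, 52, 82, 103, 7⟩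
    23 (-7) 13 15 5 (-9) 72450429613884047361 (by decide +kernel)) <|
  AllL.cons (i := 2) (j := 11) (k := 16) (OkB.mk ⟨14, 14, 17, 63, 72, 103, 15⟩ ⟨8, 8, 9, 52, 82, 103, 7⟩
    23 (-5) 14 16 3 (-8) 71285412381860036609 (by decide +kernel)) <|
  AllL.cons (i := 2) (j := 11) (k := 17) (OkB.mk ⟨14, 14, 17, 63, 72, 103, 15⟩ ⟨8, 8, 9, 52, 82, 103, 7⟩
    23 (-2) 16 18 1 (-8) 72299171860835205121 (by decide +kernel)) <|
  AllL.cons (i := 2) (j := 11) (k := 18) (OkB.mk ⟨14, 14, 18, 63, 72, 103, 15⟩ ⟨8, 8, 10, 52, 82, 103, 7⟩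
    23 1 18 19 (-2) (-8) 62737372756291092481 (by decide +kernel)) <|
  AllL.cons (i := 2) (j := 11) (k := 19) (OkB.mk ⟨14, 13, 19, 63, 72, 103, 15⟩ ⟨8, 8, 10, 52, 82, 103, 7⟩
    23 6 18 20 (-5) (-8) 75298240596126203905 (by decide +kernel)) <|
  AllL.cons (i := 2) (j := 11) (k := 20) (OkB.mk ⟨14, 13, 19, 63, 72, 103, 15⟩ ⟨9, 8, 10, 52, 82, 103, 7⟩
    23 10 19 21 (-9) (-9) 75110512729578799105 (by decide +kernel)) <|
  AllL.cons (i := 2) (j := 11) (k := 21) (OkB.mk ⟨14, 13, 19, 63, 72, 103, 15⟩ ⟨8, 8, 11, 52, 82, 103, 7⟩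
    24 13 19 23 (-15) (-10) 70047041231588950017 (by decide +kernel)) <|
  AllL.cons (i := 2) (j := 11) (k := 22) (OkB.mk ⟨15, 12, 20, 63, 72, 103, 15⟩ ⟨9, 8, 11, 52, 82, 103, 7⟩
    24 16 19 25 (-20) (-11) 73032563433869934593 (by decide +kernel)) <|
  AllL.cons (i := 2) (j := 12) (k := 12) (OkB.mk ⟨15, 16, 16, 63, 72, 103, 15⟩ ⟨8, 9, 9, 52, 82, 103, 7⟩
    22 (-12) 7 11 6 (-12) 66555347031711285249 (by decide +kernel)) <|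
  AllL.cons (i := 2) (j := 12) (k := 13) (OkB.mk ⟨14, 15, 17, 63, 72, 103, 15⟩ ⟨8, 8, 8, 52, 82, 103, 7⟩
    23 (-9) 7 11 5 (-11) 74680571110086410241 (by decide +kernel)) <|
  AllL.cons (i := 2) (j := 12) (k := 14) (OkB.mk ⟨14, 14, 16, 63, 72, 103, 15⟩ ⟨8, 8, 8, 52, 82, 103, 7⟩
    23 (-7) 8 12 5 (-10) 73312125260348260353 (by decide +kernel)) <|
  AllL.cons (i := 2) (j := 12) (k := 15) (OkB.mk ⟨14, 14, 16, 63, 72, 103, 16⟩ ⟨8, 8, 8, 52, 82, 103, 7⟩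
    23 (-6) 9 13 4 (-9) 65152581988096409601 (by decide +kernel)) <|
  AllL.cons (i := 2) (j := 12) (k := 16) (OkB.mk ⟨14, 14, 16, 63, 72, 103, 15⟩ ⟨8, 8, 8, 52, 82, 103, 7⟩
    23 (-4) 10 14 3 (-8) 64015837460630077441 (by decide +kernel)) <|
  AllL.cons (i := 2) (j := 12) (k := 17) (OkB.mk ⟨14, 14, 16, 63, 72, 103, 15⟩ ⟨8, 8, 9, 52, 82, 103, 7⟩
    23 (-2) 12 15 2 (-7) 66904680017797578753 (by decide +kernel)) <|
  AllL.cons (i := 2) (j := 12) (k := 18) (OkB.mk ⟨14, 13, 17, 63, 72, 103, 15⟩ ⟨8, 8, 9, 52, 82, 103, 7⟩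
    23 0 13 16 (-1) (-7) 83551057776224501761 (by decide +kernel)) <|
  AllL.cons (i := 2) (j := 12) (k := 19) (OkB.mk ⟨14, 13, 17, 63, 72, 103, 15⟩ ⟨8, 8, 9, 52, 82, 103, 7⟩
    23 3 14 17 (-4) (-7) 77382117496459362305 (by decide +kernel)) <|
  AllL.cons (i := 2) (j := 12) (k := 20) (OkB.mk ⟨14, 13, 17, 63, 72, 103, 15⟩ ⟨8, 8, 9, 52, 82, 103, 7⟩
    23 7 14 18 (-8) (-8) 73884714082454470657 (by decide +kernel)) <|
  AllL.cons (i := 2) (j := 12) (k := 21) (OkB.mk ⟨14, 13, 17, 63, 72, 103, 15⟩ ⟨8, 7, 10, 52, 82, 103, 7⟩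
    24 10 14 20 (-12) (-8) 73039672738616180737 (by decide +kernel)) <|
  AllL.cons (i := 2) (j := 12) (k := 22) (OkB.mk ⟨14, 12, 18, 63, 72, 103, 15⟩ ⟨8, 7, 10, 52, 82, 103, 7⟩
    24 12 14 21 (-17) (-9) 70213669882316193793 (by decide +kernel)) <|
  AllL.cons (i := 2) (j := 13) (k := 13) (OkB.mk ⟨14, 15, 15, 63, 72, 103, 16⟩ ⟨7, 9, 9, 52, 82, 103, 7⟩
    23 (-8) 5 10 5 (-11) 69494657584910565377 (by decide +kernel)) <|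
  AllL.cons (i := 2) (j := 13) (k := 14) (OkB.mk ⟨14, 14, 15, 63, 72, 103, 16⟩ ⟨7, 8, 8, 52, 82, 103, 7⟩
    22 (-6) 6 11 4 (-10) 76239603831482089473 (by decide +kernel)) <|
  AllL.cons (i := 2) (j := 13) (k := 15) (OkB.mk ⟨14, 14, 15, 63, 72, 103, 16⟩ ⟨7, 8, 8, 52, 82, 103, 7⟩
    22 (-5) 7 11 4 (-9) 74593907191268245505 (by decide +kernel)) <|
  AllL.cons (i := 2) (j := 13) (k := 16) (OkB.mk ⟨14, 14, 15, 63, 72, 103, 16⟩ ⟨7, 8, 8, 52, 82, 103, 7⟩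
    22 (-4) 7 12 3 (-8) 75856653552254451713 (by decide +kernel)) <|
  AllL.cons (i := 2) (j := 13) (k := 17) (OkB.mk ⟨14, 13, 16, 63, 72, 103, 16⟩ ⟨7, 8, 8, 52, 82, 103, 7⟩
    22 (-2) 8 13 2 (-8) 84856133685612642305 (by decide +kernel)) <|
  AllL.cons (i := 2) (j := 13) (k := 18) (OkB.mk ⟨14, 13, 15, 63, 72, 103, 16⟩ ⟨7, 8, 8, 52, 82, 103, 7⟩
    22 0 9 14 0 (-7) 92576064858727907329 (by decide +kernel)) <|
  AllL.cons (i := 2) (j := 13) (k := 19) (OkB.mk ⟨13, 13, 16, 63, 72, 103, 16⟩ ⟨8, 8, 8, 52, 82, 103, 7⟩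
    22 2 10 15 (-3) (-7) 109583712726105980929 (by decide +kernel)) <|
  AllL.nil

end Pool.Agent.MP_48470b_gt.Run
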