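import Pool.Agent.MP_48470b_gt.Run.OkB
import Pool.Agent.MP_48470b_gt.Run.B38

/-! Runs of the tests. -/

namespace Pool.Agent.MP_48470b_gt.Run

/-- the boxes of this part -/
def b39l : List (Nat × Nat × Nat) :=
  [(2, 13, 20), (2, 13, 21), (2, 13, 22), (2, 14, 14), (2, 14, 15), (2, 14, 16), (2, 14, 17), (2, 14, 18), (2, 14, 19), (2, 14, 20), (2, 14, 21), (2, 14, 22), (2, 15, 15), (2, 15, 16), (2, 15, 17), (2, 15, 18), (2, 15, 19), (2, 15, 20), (2, 15, 21), (2, 15, 22), (2, 16, 16), (2, 16, 17), (2, 16, 18), (2, 16, 19), (2, 16, 20), (2, 16, 21), (2, 16, 22), (2, 17, 17), (2, 17, 18), (2, 17, 19), (2, 17, 20), (2, 17, 21), (2, 17, 22)]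

theorem b39 : AllL OkB b39l :=
  AllL.cons (i := 2) (j := 13) (k := 20) (OkB.mk ⟨13, 13, 16, 63, 72, 103, 15⟩ ⟨7, 8, 9, 52, 82, 103, 7⟩
    23 4 10 15 (-6) (-7) 95298182008144920577 (by decide +kernel)) <|
  AllL.cons (i := 2) (j := 13) (k := 21) (OkB.mk ⟨13, 13, 16, 63, 72, 103, 15⟩ ⟨7, 8, 9, 52, 82, 103, 7⟩
    23 7 10 17 (-9) (-8) 83967296044860964865 (by decide +kernel)) <|
  AllL.cons (i := 2) (j := 13) (k := 22) (OkB.mk ⟨13, 12, 16, 63, 72, 103, 15⟩ ⟨8, 7, 9, 52, 82, 103, 7⟩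
    24 9 10 19 (-13) (-9) 90931773944130174977 (by decide +kernel)) <|
  AllL.cons (i := 2) (j := 14) (k := 14) (OkB.mk ⟨14, 15, 14, 63, 72, 103, 16⟩ ⟨7, 8, 7, 52, 82, 103, 7⟩
    22 (-6) 4 10 4 (-10) 83392540085336408065 (by decide +kernel)) <|
  AllL.cons (i := 2) (j := 14) (k := 15) (OkB.mk ⟨14, 14, 15, 63, 72, 103, 16⟩ ⟨7, 8, 7, 52, 82, 103, 7⟩
    22 (-5) 4 10 3 (-10) 81427611239114080257 (by decide +kernel)) <|
  AllL.cons (i := 2) (j := 14) (k := 16) (OkB.mk ⟨14, 14, 15, 63, 72, 103, 16⟩ ⟨8, 8, 7, 52, 82, 103, 7⟩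
    22 (-3) 5 11 3 (-9) 80168257558694330369 (by decide +kernel)) <|
  AllL.cons (i := 2) (j := 14) (k := 17) (OkB.mk ⟨13, 14, 16, 63, 72, 103, 16⟩ ⟨8, 8, 7, 52, 82, 103, 7⟩
    22 (-2) 6 11 2 (-8) 109262818333394206721 (by decide +kernel)) <|
  AllL.cons (i := 2) (j := 14) (k := 18) (OkB.mk ⟨13, 13, 16, 63, 72, 103, 16⟩ ⟨7, 8, 8, 52, 82, 103, 7⟩
    22 (-1) 7 12 0 (-8) 121487550900089126913 (by decide +kernel)) <|
  AllL.cons (i := 2) (j := 14) (k := 19) (OkB.mk ⟨13, 13, 16, 63, 72, 103, 16⟩ ⟨7, 8, 8, 52, 82, 103, 7⟩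
    22 1 7 13 (-2) (-7) 116628480262970277889 (by decide +kernel)) <|
  AllL.cons (i := 2) (j := 14) (k := 20) (OkB.mk ⟨13, 13, 16, 63, 72, 103, 16⟩ ⟨7, 8, 8, 52, 82, 103, 7⟩
    22 3 8 14 (-4) (-7) 107837464648020393985 (by decide +kernel)) <|
  AllL.cons (i := 2) (j := 14) (k := 21) (OkB.mk ⟨13, 13, 15, 63, 72, 103, 16⟩ ⟨7, 8, 8, 52, 82, 103, 7⟩
    23 5 8 15 (-7) (-8) 100164994169195986945 (by decide +kernel)) <|
  AllL.cons (i := 2) (j := 14) (k := 22) (OkB.mk ⟨13, 12, 16, 63, 72, 103, 15⟩ ⟨7, 8, 8, 52, 82, 103, 7⟩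
    23 6 8 16 (-11) (-9) 111473747925485486081 (by decide +kernel)) <|
  AllL.cons (i := 2) (j := 15) (k := 15) (OkB.mk ⟨13, 15, 16, 63, 72, 103, 16⟩ ⟨7, 7, 8, 52, 82, 103, 7⟩
    21 (-4) 3 9 3 (-10) 116391550625469431809 (by decide +kernel)) <|
  AllL.cons (i := 2) (j := 15) (k := 16) (OkB.mk ⟨13, 15, 15, 63, 72, 103, 16⟩ ⟨7, 7, 8, 52, 82, 103, 7⟩
    21 (-3) 4 10 3 (-9) 111253338450191974401 (by decide +kernel)) <|
  AllL.cons (i := 2) (j := 15) (k := 17) (OkB.mk ⟨13, 14, 15, 63, 72, 103, 16⟩ ⟨7, 7, 8, 52, 82, 103, 7⟩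
    21 (-2) 4 10 2 (-8) 112983098526785339393 (by decide +kernel)) <|
  AllL.cons (i := 2) (j := 15) (k := 18) (OkB.mk ⟨13, 14, 15, 63, 72, 103, 16⟩ ⟨7, 8, 7, 52, 82, 103, 7⟩
    21 (-1) 5 11 1 (-8) 107298036409413140481 (by decide +kernel)) <|
  AllL.cons (i := 2) (j := 15) (k := 19) (OkB.mk ⟨13, 14, 15, 63, 72, 103, 16⟩ ⟨7, 8, 8, 52, 82, 103, 7⟩
    22 0 5 12 (-1) (-7) 108752541034257317889 (by decide +kernel)) <|
  AllL.cons (i := 2) (j := 15) (k := 20) (OkB.mk ⟨13, 14, 15, 63, 72, 103, 16⟩ ⟨7, 8, 8, 52, 82, 103, 7⟩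
    22 2 6 12 (-3) (-7) 108615533226782359553 (by decide +kernel)) <|
  AllL.cons (i := 2) (j := 15) (k := 21) (OkB.mk ⟨13, 13, 15, 63, 72, 103, 16⟩ ⟨7, 8, 8, 52, 82, 103, 7⟩
    22 3 6 13 (-6) (-8) 121367015151187787777 (by decide +kernel)) <|
  AllL.cons (i := 2) (j := 15) (k := 22) (OkB.mk ⟨13, 13, 15, 63, 72, 103, 16⟩ ⟨7, 7, 8, 52, 82, 103, 7⟩
    23 4 6 15 (-9) (-8) 92587526030496890881 (by decide +kernel)) <|
  AllL.cons (i := 2) (j := 16) (k := 16) (OkB.mk ⟨13, 15, 15, 63, 72, 103, 16⟩ ⟨7, 7, 8, 52, 82, 103, 7⟩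
    21 (-3) 3 9 2 (-9) 106152305710851948545 (by decide +kernel)) <|
  AllL.cons (i := 2) (j := 16) (k := 17) (OkB.mk ⟨13, 14, 15, 63, 72, 103, 16⟩ ⟨7, 7, 8, 52, 82, 103, 7⟩
    21 (-2) 3 9 2 (-8) 112167773408833044481 (by decide +kernel)) <|
  AllL.cons (i := 2) (j := 16) (k := 18) (OkB.mk ⟨13, 14, 14, 63, 72, 103, 16⟩ ⟨7, 8, 7, 52, 82, 103, 7⟩
    21 (-1) 4 10 1 (-8) 137621715806597414913 (by decide +kernel)) <|
  AllL.cons (i := 2) (j := 16) (k := 19) (OkB.mk ⟨13, 14, 14, 63, 72, 103, 16⟩ ⟨8, 8, 7, 52, 82, 103, 7⟩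
    21 0 4 11 (-1) (-7) 143928526323270549505 (by decide +kernel)) <|
  AllL.cons (i := 2) (j := 16) (k := 20) (OkB.mk ⟨13, 14, 14, 63, 72, 103, 16⟩ ⟨7, 8, 8, 52, 82, 103, 7⟩
    22 1 4 11 (-3) (-7) 145662964546962194433 (by decide +kernel)) <|
  AllL.cons (i := 2) (j := 16) (k := 21) (OkB.mk ⟨13, 13, 16, 63, 72, 103, 16⟩ ⟨7, 8, 8, 52, 82, 103, 7⟩
    22 2 4 12 (-5) (-8) 152609285386088218625 (by decide +kernel)) <|
  AllL.cons (i := 2) (j := 16) (k := 22) (OkB.mk ⟨13, 13, 15, 63, 72, 103, 16⟩ ⟨7, 7, 8, 52, 82, 103, 7⟩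
    23 3 4 13 (-8) (-8) 105406264943734423553 (by decide +kernel)) <|
  AllL.cons (i := 2) (j := 17) (k := 17) (OkB.mk ⟨13, 14, 14, 63, 72, 103, 16⟩ ⟨7, 7, 8, 52, 82, 103, 7⟩
    21 (-2) 2 9 1 (-9) 119381381813819670529 (by decide +kernel)) <|
  AllL.cons (i := 2) (j := 17) (k := 18) (OkB.mk ⟨13, 14, 14, 63, 72, 103, 16⟩ ⟨7, 8, 8, 52, 82, 103, 7⟩
    21 (-1) 3 9 1 (-8) 126894514228642709505 (by decide +kernel)) <|
  AllL.cons (i := 2) (j := 17) (k := 19) (OkB.mk ⟨13, 14, 14, 63, 72, 103, 16⟩ ⟨7, 8, 8, 52, 82, 103, 7⟩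
    21 0 3 10 (-1) (-8) 139157417166129594369 (by decide +kernel)) <|
  AllL.cons (i := 2) (j := 17) (k := 20) (OkB.mk ⟨13, 14, 14, 63, 72, 103, 16⟩ ⟨7, 8, 8, 52, 82, 103, 7⟩
    22 1 3 10 (-2) (-8) 159723051675641970689 (by decide +kernel)) <|
  AllL.cons (i := 2) (j := 17) (k := 21) (OkB.mk ⟨13, 14, 14, 63, 72, 103, 16⟩ ⟨7, 8, 8, 52, 82, 103, 7⟩
    22 1 3 11 (-5) (-8) 142167295062794305537 (by decide +kernel)) <|
  AllL.cons (i := 2) (j := 17) (k := 22) (OkB.mk ⟨13, 13, 14, 63, 72, 103, 16⟩ ⟨7, 8, 8, 52, 82, 103, 7⟩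
    23 2 3 12 (-7) (-8) 156962713715337068545 (by decide +kernel)) <|
  AllL.nil

end Pool.Agent.MP_48470b_gt.Run
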