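import Pool.Agent.MP_48470b_gt.Run.OkB
import Pool.Agent.MP_48470b_gt.Run.F20

/-! Runs of the tests. -/

namespace Pool.Agent.MP_48470b_gt.Run

/-- the boxes of this part -/
def b40l : List (Nat × Nat × Nat) :=
  [(2, 18, 18), (2, 18, 19), (2, 18, 20), (2, 18, 21), (2, 18, 22), (2, 19, 19), (2, 19, 20), (2, 19, 21), (2, 19, 22), (2, 20, 20), (2, 20, 21), (2, 20, 22), (2, 21, 21), (2, 21, 22), (2, 22, 22), (3, 3, 3), (3, 3, 4), (3, 3, 5), (3, 3, 6), (3, 3, 7), (3, 3, 8), (3, 3, 9), (3, 3, 10), (3, 3, 11)]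

theorem b40 : AllL OkB b40l :=
  AllL.cons (i := 2) (j := 18) (k := 18) (OkB.mk ⟨13, 14, 14, 63, 72, 103, 16⟩ ⟨7, 8, 8, 52, 82, 103, 7⟩
    21 (-2) 2 8 0 (-8) 141759682462877745153 (by decide +kernel)) <|
  AllL.cons (i := 2) (j := 18) (k := 19) (OkB.mk ⟨13, 14, 14, 63, 72, 103, 15⟩ ⟨7, 8, 8, 52, 82, 103, 7⟩
    22 (-1) 2 9 (-1) (-8) 178988750630065012737 (by decide +kernel)) <|
  AllL.cons (i := 2) (j := 18) (k := 20) (OkB.mk ⟨13, 14, 15, 63, 72, 103, 15⟩ ⟨7, 8, 8, 52, 82, 103, 7⟩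
    22 0 2 9 (-2) (-8) 209811939396698505217 (by decide +kernel)) <|
  AllL.cons (i := 2) (j := 18) (k := 21) (OkB.mk ⟨13, 14, 14, 63, 72, 103, 15⟩ ⟨7, 8, 8, 52, 82, 103, 7⟩
    22 1 2 11 (-4) (-8) 180629886083729981441 (by decide +kernel)) <|
  AllL.cons (i := 2) (j := 18) (k := 22) (OkB.mk ⟨13, 13, 15, 63, 72, 103, 15⟩ ⟨7, 8, 8, 52, 82, 103, 7⟩
    23 2 2 12 (-6) (-8) 210286706730865786881 (by decide +kernel)) <|
  AllL.cons (i := 2) (j := 19) (k := 19) (OkB.mk ⟨13, 14, 14, 63, 72, 103, 15⟩ ⟨7, 8, 8, 52, 82, 103, 7⟩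
    22 (-1) 1 8 (-1) (-9) 225840727521117601793 (by decide +kernel)) <|
  AllL.cons (i := 2) (j := 19) (k := 20) (OkB.mk ⟨13, 15, 14, 63, 72, 103, 15⟩ ⟨8, 8, 8, 52, 82, 103, 7⟩
    22 0 1 9 (-2) (-8) 211577757407368970241 (by decide +kernel)) <|
  AllL.cons (i := 2) (j := 19) (k := 21) (OkB.mk ⟨13, 14, 15, 63, 72, 103, 15⟩ ⟨8, 8, 8, 52, 82, 103, 7⟩
    23 1 1 10 (-4) (-8) 229251017590926475265 (by decide +kernel)) <|
  AllL.cons (i := 2) (j := 19) (k := 22) (OkB.mk ⟨13, 14, 14, 63, 72, 103, 15⟩ ⟨7, 8, 8, 52, 82, 103, 7⟩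
    23 1 1 11 (-6) (-9) 193195307413532573697 (by decide +kernel)) <|
  AllL.cons (i := 2) (j := 20) (k := 20) (OkB.mk ⟨13, 15, 15, 63, 72, 103, 15⟩ ⟨7, 8, 9, 52, 82, 103, 7⟩
    23 0 0 8 (-3) (-9) 215954800360164425729 (by decide +kernel)) <|
  AllL.cons (i := 2) (j := 20) (k := 21) (OkB.mk ⟨13, 15, 15, 63, 72, 103, 15⟩ ⟨7, 8, 9, 52, 82, 103, 7⟩
    23 0 1 10 (-4) (-9) 220445634657536442369 (by decide +kernel)) <|
  AllL.cons (i := 2) (j := 20) (k := 22) (OkB.mk ⟨13, 14, 15, 63, 72, 103, 15⟩ ⟨7, 8, 9, 52, 82, 103, 7⟩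
    23 1 1 11 (-6) (-9) 237372189831514292225 (by decide +kernel)) <|
  AllL.cons (i := 2) (j := 21) (k := 21) (OkB.mk ⟨13, 15, 15, 63, 72, 103, 15⟩ ⟨7, 8, 9, 52, 82, 103, 7⟩
    23 0 0 9 (-4) (-10) 245212696885705310209 (by decide +kernel)) <|
  AllL.cons (i := 2) (j := 21) (k := 22) (OkB.mk ⟨13, 14, 15, 63, 72, 103, 15⟩ ⟨7, 8, 9, 52, 82, 103, 7⟩
    24 0 0 10 (-5) (-10) 291557102788053827585 (by decide +kernel)) <|
  AllL.cons (i := 2) (j := 22) (k := 22) (OkB.mk ⟨12, 15, 15, 63, 72, 103, 15⟩ ⟨7, 8, 8, 52, 82, 103, 7⟩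
    24 0 0 10 (-6) (-12) 373328122019970023425 (by decide +kernel)) <|
  AllL.cons (i := 3) (j := 3) (k := 3) (OkB.mk ⟨16, 16, 16, 63, 72, 103, 15⟩ ⟨9, 9, 9, 52, 82, 103, 7⟩
    30 (-15) 11 34 11 (-35) 186333514004692992001 (by decide +kernel)) <|
  AllL.cons (i := 3) (j := 3) (k := 4) (OkB.mk ⟨16, 17, 18, 63, 72, 103, 15⟩ ⟨9, 11, 10, 52, 82, 103, 7⟩
    27 (-19) 8 38 18 (-34) 201926197197190201345 (by decide +kernel)) <|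
  AllL.cons (i := 3) (j := 3) (k := 5) (OkB.mk ⟨18, 18, 18, 63, 72, 103, 14⟩ ⟨10, 12, 11, 52, 82, 103, 7⟩
    25 (-23) 5 45 27 (-34) 182421642260894449665 (by decide +kernel)) <|
  AllL.cons (i := 3) (j := 3) (k := 6) (OkB.mk ⟨19, 19, 20, 63, 72, 103, 14⟩ ⟨12, 13, 12, 52, 82, 103, 7⟩
    22 (-25) 2 55 38 (-33) 163920245449897803777 (by decide +kernel)) <|
  AllL.cons (i := 3) (j := 3) (k := 7) (OkB.mk ⟨20, 19, 21, 63, 72, 103, 14⟩ ⟨13, 12, 13, 52, 82, 103, 7⟩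
    21 (-24) 1 67 47 (-31) 165931973084411068417 (by decide +kernel)) <|
  AllL.cons (i := 3) (j := 3) (k := 8) (OkB.mk ⟨20, 18, 22, 63, 72, 103, 13⟩ ⟨13, 12, 13, 52, 82, 103, 7⟩
    19 (-20) 3 77 51 (-28) 170165225754816675841 (by decide +kernel)) <|
  AllL.cons (i := 3) (j := 3) (k := 9) (OkB.mk ⟨20, 17, 21, 63, 72, 103, 13⟩ ⟨12, 11, 13, 52, 82, 103, 7⟩
    18 (-16) 4 84 47 (-25) 158550352705630502913 (by decide +kernel)) <|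
  AllL.cons (i := 3) (j := 3) (k := 10) (OkB.mk ⟨20, 16, 21, 63, 72, 103, 13⟩ ⟨12, 11, 13, 52, 82, 103, 7⟩
    17 (-13) 5 89 42 (-22) 137248406320200024065 (by decide +kernel)) <|
  AllL.cons (i := 3) (j := 3) (k := 11) (OkB.mk ⟨20, 16, 20, 63, 72, 103, 13⟩ ⟨12, 10, 13, 52, 82, 103, 7⟩
    16 (-10) 5 95 41 (-20) 124047454212842323969 (by decide +kernel)) <|
  AllL.nil

end Pool.Agent.MP_48470b_gt.Run
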