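import Pool.Agent.MP_48470b_gt.Run.OkB
import Pool.Agent.MP_48470b_gt.Run.B40

/-! Runs of the tests. -/

namespace Pool.Agent.MP_48470b_gt.Run

/-- the boxes of this part -/
def b41l : List (Nat × Nat × Nat) :=
  [(3, 3, 12), (3, 3, 13), (3, 3, 14), (3, 3, 15), (3, 3, 16), (3, 3, 17), (3, 3, 18), (3, 3, 19), (3, 3, 20), (3, 3, 21), (3, 3, 22), (3, 4, 4), (3, 4, 5), (3, 4, 6), (3, 4, 7)]

theorem b41 : AllL OkB b41l :=
  AllL.cons (i := 3) (j := 3) (k := 12) (OkB.mk ⟨20, 16, 21, 63, 72, 103, 13⟩ ⟨13, 10, 13, 52, 82, 103, 7⟩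
    16 (-8) 5 99 34 (-18) 117940799480084299777 (by decide +kernel)) <|
  AllL.cons (i := 3) (j := 3) (k := 13) (OkB.mk ⟨20, 16, 21, 63, 72, 103, 13⟩ ⟨13, 11, 13, 52, 82, 103, 7⟩
    15 (-5) 6 115 27 (-17) 117796612273996824577 (by decide +kernel)) <|
  AllL.cons (i := 3) (j := 3) (k := 14) (OkB.mk ⟨20, 16, 21, 63, 72, 103, 13⟩ ⟨13, 11, 13, 52, 82, 103, 7⟩
    15 (-2) 6 132 8 (-16) 121479310610194759681 (by decide +kernel)) <|
  AllL.cons (i := 3) (j := 3) (k := 15) (OkB.mk ⟨20, 16, 21, 63, 72, 103, 13⟩ ⟨13, 10, 13, 52, 82, 103, 7⟩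
    15 2 6 143 (-10) (-16) 119990847981043580929 (by decide +kernel)) <|
  AllL.cons (i := 3) (j := 3) (k := 16) (OkB.mk ⟨21, 15, 21, 63, 72, 103, 13⟩ ⟨13, 10, 13, 52, 82, 103, 7⟩
    15 4 5 150 (-32) (-16) 126612974930501828609 (by decide +kernel)) <|
  AllL.cons (i := 3) (j := 3) (k := 17) (OkB.mk ⟨20, 15, 22, 63, 72, 103, 13⟩ ⟨13, 10, 13, 52, 82, 103, 7⟩
    15 6 4 157 (-49) (-17) 120309169104229498881 (by decide +kernel)) <|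
  AllL.cons (i := 3) (j := 3) (k := 18) (OkB.mk ⟨20, 15, 22, 63, 72, 103, 12⟩ ⟨13, 10, 14, 52, 82, 103, 7⟩
    15 8 2 166 (-68) (-17) 121718052792613994497 (by decide +kernel)) <|
  AllL.cons (i := 3) (j := 3) (k := 19) (OkB.mk ⟨21, 15, 21, 63, 72, 103, 12⟩ ⟨13, 10, 14, 52, 82, 103, 7⟩
    16 10 0 176 (-95) (-19) 123578654478034796545 (by decide +kernel)) <|
  AllL.cons (i := 3) (j := 3) (k := 20) (OkB.mk ⟨21, 15, 22, 63, 72, 103, 12⟩ ⟨14, 10, 14, 52, 82, 103, 7⟩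
    16 12 (-3) 184 (-130) (-21) 113779886703327051777 (by decide +kernel)) <|
  AllL.cons (i := 3) (j := 3) (k := 21) (OkB.mk ⟨21, 15, 22, 63, 72, 103, 12⟩ ⟨14, 10, 14, 52, 82, 103, 7⟩
    17 14 (-7) 203 (-180) (-23) 111936198805276327937 (by decide +kernel)) <|
  AllL.cons (i := 3) (j := 3) (k := 22) (OkB.mk ⟨21, 14, 22, 63, 72, 103, 12⟩ ⟨13, 10, 14, 52, 82, 103, 7⟩
    17 15 (-11) 221 (-232) (-25) 123852684936391688193 (by decide +kernel)) <|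
  AllL.cons (i := 3) (j := 4) (k := 4) (OkB.mk ⟨18, 18, 18, 63, 72, 103, 15⟩ ⟨10, 11, 11, 52, 82, 103, 7⟩
    24 (-19) 11 35 19 (-40) 144918977667565355009 (by decide +kernel)) <|
  AllL.cons (i := 3) (j := 4) (k := 5) (OkB.mk ⟨19, 19, 18, 63, 72, 103, 14⟩ ⟨11, 12, 12, 52, 82, 103, 7⟩
    22 (-21) 7 40 27 (-39) 166759024768751501313 (by decide +kernel)) <|
  AllL.cons (i := 3) (j := 4) (k := 6) (OkB.mk ⟨21, 19, 19, 63, 72, 103, 14⟩ ⟨12, 13, 13, 52, 82, 103, 7⟩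
    20 (-22) 3 48 38 (-38) 163883106833329553409 (by decide +kernel)) <|
  AllL.cons (i := 3) (j := 4) (k := 7) (OkB.mk ⟨21, 19, 20, 63, 72, 103, 14⟩ ⟨13, 13, 13, 52, 82, 103, 7⟩
    18 (-20) 1 56 50 (-36) 152095263012908171265 (by decide +kernel)) <|
  AllL.nil

end Pool.Agent.MP_48470b_gt.Run
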