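import Pool.Agent.MP_48470b_gt.Run.OkF

/-! Runs of the tests. -/

namespace Pool.Agent.MP_48470b_gt.Run

/-- the boxes of this part -/
def f21l : List (Nat × Nat × Nat) :=
  [(3, 7, 16), (3, 7, 17), (3, 7, 18), (3, 7, 19), (3, 7, 20), (3, 7, 21), (3, 7, 22), (3, 8, 8), (3, 8, 9), (3, 8, 10), (3, 8, 11), (3, 8, 12), (3, 8, 13), (3, 8, 14), (3, 8, 15), (3, 8, 16), (3, 8, 17), (3, 8, 18), (3, 8, 19), (3, 8, 20), (3, 8, 21), (3, 8, 22), (3, 9, 9), (3, 9, 10), (3, 9, 11), (3, 9, 12), (3, 9, 13), (3, 9, 14), (3, 9, 15), (3, 9, 16), (3, 9, 17), (3, 9, 18), (3, 9, 19), (3, 9, 20), (3, 9, 21), (3, 9, 22), (3, 10, 10), (3, 10, 11), (3, 10, 12)]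

theorem f21 : AllL OkF f21l :=
  AllL.cons (i := 3) (j := 7) (k := 16) (OkF.mk (by decide +kernel)) <|
  AllL.cons (i := 3) (j := 7) (k := 17) (OkF.mk (by decide +kernel)) <|
  AllL.cons (i := 3) (j := 7) (k := 18) (OkF.mk (by decide +kernel)) <|
  AllL.cons (i := 3) (j := 7) (k := 19) (OkF.mk (by decide +kernel)) <|
  AllL.cons (i := 3) (j := 7) (k := 20) (OkF.mk (by decide +kernel)) <|
  AllL.cons (i := 3) (j := 7) (k := 21) (OkF.mk (by decide +kernel)) <|
  AllL.cons (i := 3) (j := 7) (k := 22) (OkF.mk (by decide +kernel)) <|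
  AllL.cons (i := 3) (j := 8) (k := 8) (OkF.mk (by decide +kernel)) <|
  AllL.cons (i := 3) (j := 8) (k := 9) (OkF.mk (by decide +kernel)) <|
  AllL.cons (i := 3) (j := 8) (k := 10) (OkF.mk (by decide +kernel)) <|
  AllL.cons (i := 3) (j := 8) (k := 11) (OkF.mk (by decide +kernel)) <|
  AllL.cons (i := 3) (j := 8) (k := 12) (OkF.mk (by decide +kernel)) <|
  AllL.cons (i := 3) (j := 8) (k := 13) (OkF.mk (by decide +kernel)) <|
  AllL.cons (i := 3) (j := 8) (k := 14) (OkF.mk (by decide +kernel)) <|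
  AllL.cons (i := 3) (j := 8) (k := 15) (OkF.mk (by decide +kernel)) <|
  AllL.cons (i := 3) (j := 8) (k := 16) (OkF.mk (by decide +kernel)) <|
  AllL.cons (i := 3) (j := 8) (k := 17) (OkF.mk (by decide +kernel)) <|
  AllL.cons (i := 3) (j := 8) (k := 18) (OkF.mk (by decide +kernel)) <|
  AllL.cons (i := 3) (j := 8) (k := 19) (OkF.mk (by decide +kernel)) <|
  AllL.cons (i := 3) (j := 8) (k := 20) (OkF.mk (by decide +kernel)) <|
  AllL.cons (i := 3) (j := 8) (k := 21) (OkF.mk (by decide +kernel)) <|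
  AllL.cons (i := 3) (j := 8) (k := 22) (OkF.mk (by decide +kernel)) <|
  AllL.cons (i := 3) (j := 9) (k := 9) (OkF.mk (by decide +kernel)) <|
  AllL.cons (i := 3) (j := 9) (k := 10) (OkF.mk (by decide +kernel)) <|
  AllL.cons (i := 3) (j := 9) (k := 11) (OkF.mk (by decide +kernel)) <|
  AllL.cons (i := 3) (j := 9) (k := 12) (OkF.mk (by decide +kernel)) <|
  AllL.cons (i := 3) (j := 9) (k := 13) (OkF.mk (by decide +kernel)) <|
  AllL.cons (i := 3) (j := 9) (k := 14) (OkF.mk (by decide +kernel)) <|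
  AllL.cons (i := 3) (j := 9) (k := 15) (OkF.mk (by decide +kernel)) <|
  AllL.cons (i := 3) (j := 9) (k := 16) (OkF.mk (by decide +kernel)) <|
  AllL.cons (i := 3) (j := 9) (k := 17) (OkF.mk (by decide +kernel)) <|
  AllL.cons (i := 3) (j := 9) (k := 18) (OkF.mk (by decide +kernel)) <|
  AllL.cons (i := 3) (j := 9) (k := 19) (OkF.mk (by decide +kernel)) <|
  AllL.cons (i := 3) (j := 9) (k := 20) (OkF.mk (by decide +kernel)) <|
  AllL.cons (i := 3) (j := 9) (k := 21) (OkF.mk (by decide +kernel)) <|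
  AllL.cons (i := 3) (j := 9) (k := 22) (OkF.mk (by decide +kernel)) <|
  AllL.cons (i := 3) (j := 10) (k := 10) (OkF.mk (by decide +kernel)) <|
  AllL.cons (i := 3) (j := 10) (k := 11) (OkF.mk (by decide +kernel)) <|
  AllL.cons (i := 3) (j := 10) (k := 12) (OkF.mk (by decide +kernel)) <|
  AllL.nil

end Pool.Agent.MP_48470b_gt.Run
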