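import Pool.Agent.MP_48470b_gt.Run.OkB
import Pool.Agent.MP_48470b_gt.Run.F21

/-! Runs of the tests. -/

namespace Pool.Agent.MP_48470b_gt.Run

/-- the boxes of this part -/
def b42l : List (Nat × Nat × Nat) :=
  [(3, 4, 8), (3, 4, 9), (3, 4, 10), (3, 4, 11), (3, 4, 12), (3, 4, 13), (3, 4, 14), (3, 4, 15), (3, 4, 16), (3, 4, 17), (3, 4, 18), (3, 4, 19), (3, 4, 20), (3, 4, 21), (3, 4, 22), (3, 5, 5)]

theorem b42 : AllL OkB b42l :=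
  AllL.cons (i := 3) (j := 4) (k := 8) (OkB.mk ⟨21, 18, 21, 63, 72, 103, 13⟩ ⟨13, 12, 14, 52, 82, 103, 7⟩
    17 (-17) 2 63 58 (-33) 137701926554233208833 (by decide +kernel)) <|
  AllL.cons (i := 3) (j := 4) (k := 9) (OkB.mk ⟨20, 17, 21, 63, 72, 103, 13⟩ ⟨12, 11, 14, 52, 82, 103, 7⟩
    16 (-14) 4 67 57 (-30) 138162429786614398977 (by decide +kernel)) <|
  AllL.cons (i := 3) (j := 4) (k := 10) (OkB.mk ⟨20, 16, 22, 63, 72, 103, 13⟩ ⟨12, 11, 13, 52, 82, 103, 7⟩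
    15 (-11) 5 70 57 (-26) 124618361744230711297 (by decide +kernel)) <|
  AllL.cons (i := 3) (j := 4) (k := 11) (OkB.mk ⟨19, 16, 22, 63, 72, 103, 13⟩ ⟨12, 11, 13, 52, 82, 103, 7⟩
    15 (-9) 6 74 54 (-23) 109141503168187727873 (by decide +kernel)) <|
  AllL.cons (i := 3) (j := 4) (k := 12) (OkB.mk ⟨20, 16, 21, 63, 72, 103, 13⟩ ⟨13, 11, 13, 52, 82, 103, 7⟩
    14 (-7) 7 76 47 (-20) 107945000458629677057 (by decide +kernel)) <|
  AllL.cons (i := 3) (j := 4) (k := 13) (OkB.mk ⟨19, 16, 22, 63, 72, 103, 13⟩ ⟨13, 11, 13, 52, 82, 103, 7⟩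
    14 (-5) 8 89 38 (-18) 102441097862779502593 (by decide +kernel)) <|
  AllL.cons (i := 3) (j := 4) (k := 14) (OkB.mk ⟨19, 16, 22, 63, 72, 103, 13⟩ ⟨13, 10, 14, 52, 82, 103, 7⟩
    14 (-2) 9 104 22 (-16) 98191571320771182593 (by decide +kernel)) <|
  AllL.cons (i := 3) (j := 4) (k := 15) (OkB.mk ⟨19, 16, 22, 63, 72, 103, 13⟩ ⟨12, 10, 14, 52, 82, 103, 7⟩
    14 2 10 116 4 (-16) 92887896801725644801 (by decide +kernel)) <|
  AllL.cons (i := 3) (j := 4) (k := 16) (OkB.mk ⟨19, 15, 22, 63, 72, 103, 13⟩ ⟨12, 10, 14, 52, 82, 103, 7⟩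
    14 5 9 123 (-15) (-16) 103846564818780684289 (by decide +kernel)) <|
  AllL.cons (i := 3) (j := 4) (k := 17) (OkB.mk ⟨19, 15, 22, 63, 72, 103, 13⟩ ⟨12, 10, 14, 52, 82, 103, 7⟩
    14 7 8 129 (-35) (-16) 100217018249058975745 (by decide +kernel)) <|
  AllL.cons (i := 3) (j := 4) (k := 18) (OkB.mk ⟨19, 15, 22, 63, 72, 103, 13⟩ ⟨12, 10, 14, 52, 82, 103, 7⟩
    14 9 6 135 (-55) (-17) 100695985442766454785 (by decide +kernel)) <|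
  AllL.cons (i := 3) (j := 4) (k := 19) (OkB.mk ⟨19, 15, 23, 63, 72, 103, 12⟩ ⟨13, 10, 15, 52, 82, 103, 7⟩
    15 11 4 142 (-83) (-18) 95073658297779224577 (by decide +kernel)) <|
  AllL.cons (i := 3) (j := 4) (k := 20) (OkB.mk ⟨19, 15, 23, 63, 72, 103, 12⟩ ⟨13, 10, 15, 52, 82, 103, 7⟩
    15 13 0 146 (-117) (-20) 106257957508287037441 (by decide +kernel)) <|
  AllL.cons (i := 3) (j := 4) (k := 21) (OkB.mk ⟨19, 15, 23, 63, 72, 103, 12⟩ ⟨13, 10, 15, 52, 82, 103, 7⟩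
    15 15 (-4) 159 (-163) (-23) 110507865031074381825 (by decide +kernel)) <|
  AllL.cons (i := 3) (j := 4) (k := 22) (OkB.mk ⟨20, 14, 23, 63, 72, 103, 12⟩ ⟨13, 10, 15, 52, 82, 103, 7⟩
    16 16 (-8) 170 (-212) (-26) 111807377823942836225 (by decide +kernel)) <|
  AllL.cons (i := 3) (j := 5) (k := 5) (OkB.mk ⟨21, 18, 19, 63, 72, 103, 14⟩ ⟨13, 11, 12, 52, 82, 103, 7⟩
    19 (-18) 9 36 28 (-45) 149623669725318873089 (by decide +kernel)) <|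
  AllL.nil

end Pool.Agent.MP_48470b_gt.Run
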