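import Pool.Agent.MP_48470b_gt.Run.OkB
import Pool.Agent.MP_48470b_gt.Run.B42

/-! Runs of the tests. -/

namespace Pool.Agent.MP_48470b_gt.Run

/-- the boxes of this part -/
def b43l : List (Nat × Nat × Nat) :=
  [(3, 5, 6), (3, 5, 7), (3, 5, 8), (3, 5, 9), (3, 5, 10), (3, 5, 11), (3, 5, 12), (3, 5, 13), (3, 5, 14), (3, 5, 15), (3, 5, 16), (3, 5, 17), (3, 5, 18), (3, 5, 19), (3, 5, 20), (3, 5, 21)]

theorem b43 : AllL OkB b43l :=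
  AllL.cons (i := 3) (j := 5) (k := 6) (OkB.mk ⟨22, 18, 19, 63, 72, 103, 14⟩ ⟨13, 12, 12, 52, 82, 103, 7⟩
    18 (-18) 5 40 33 (-42) 144478381230644002817 (by decide +kernel)) <|
  AllL.cons (i := 3) (j := 5) (k := 7) (OkB.mk ⟨21, 18, 20, 63, 72, 103, 14⟩ ⟨13, 12, 13, 52, 82, 103, 7⟩
    16 (-16) 3 45 45 (-39) 120091116706988032001 (by decide +kernel)) <|
  AllL.cons (i := 3) (j := 5) (k := 8) (OkB.mk ⟨20, 18, 20, 63, 72, 103, 14⟩ ⟨13, 12, 13, 52, 82, 103, 7⟩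
    15 (-15) 3 50 52 (-35) 124881621386681909249 (by decide +kernel)) <|
  AllL.cons (i := 3) (j := 5) (k := 9) (OkB.mk ⟨20, 17, 21, 63, 72, 103, 14⟩ ⟨13, 11, 14, 52, 82, 103, 7⟩
    14 (-13) 4 52 55 (-32) 99230632898763685889 (by decide +kernel)) <|
  AllL.cons (i := 3) (j := 5) (k := 10) (OkB.mk ⟨20, 16, 21, 63, 72, 103, 14⟩ ⟨12, 11, 14, 52, 82, 103, 7⟩
    14 (-12) 6 54 51 (-27) 106884805167639691265 (by decide +kernel)) <|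
  AllL.cons (i := 3) (j := 5) (k := 11) (OkB.mk ⟨19, 16, 21, 63, 72, 103, 14⟩ ⟨12, 10, 14, 52, 82, 103, 7⟩
    13 (-10) 8 57 50 (-24) 91233988046602895361 (by decide +kernel)) <|
  AllL.cons (i := 3) (j := 5) (k := 12) (OkB.mk ⟨19, 16, 21, 63, 72, 103, 14⟩ ⟨12, 10, 14, 52, 82, 103, 7⟩
    13 (-9) 10 58 40 (-21) 86335017644340543489 (by decide +kernel)) <|
  AllL.cons (i := 3) (j := 5) (k := 13) (OkB.mk ⟨18, 16, 22, 63, 72, 103, 13⟩ ⟨12, 10, 13, 52, 82, 103, 7⟩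
    13 (-7) 12 66 34 (-18) 88896611731099353089 (by decide +kernel)) <|
  AllL.cons (i := 3) (j := 5) (k := 14) (OkB.mk ⟨18, 16, 21, 63, 72, 103, 13⟩ ⟨12, 10, 13, 52, 82, 103, 7⟩
    13 (-4) 13 77 25 (-17) 88381768847367077889 (by decide +kernel)) <|
  AllL.cons (i := 3) (j := 5) (k := 15) (OkB.mk ⟨18, 15, 22, 63, 72, 103, 13⟩ ⟨12, 10, 13, 52, 82, 103, 7⟩
    13 (-1) 14 86 8 (-16) 84137652589762183169 (by decide +kernel)) <|
  AllL.cons (i := 3) (j := 5) (k := 16) (OkB.mk ⟨18, 15, 21, 63, 72, 103, 13⟩ ⟨12, 10, 13, 52, 82, 103, 7⟩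
    13 3 15 93 (-3) (-15) 93507589664038453249 (by decide +kernel)) <|
  AllL.cons (i := 3) (j := 5) (k := 17) (OkB.mk ⟨18, 15, 22, 63, 72, 103, 13⟩ ⟨12, 10, 13, 52, 82, 103, 7⟩
    13 6 14 99 (-18) (-15) 80248241394617942017 (by decide +kernel)) <|
  AllL.cons (i := 3) (j := 5) (k := 18) (OkB.mk ⟨19, 14, 22, 63, 72, 103, 13⟩ ⟨12, 9, 14, 52, 82, 103, 7⟩
    13 9 12 104 (-34) (-16) 96613608719996944385 (by decide +kernel)) <|
  AllL.cons (i := 3) (j := 5) (k := 19) (OkB.mk ⟨18, 15, 22, 63, 72, 103, 13⟩ ⟨12, 10, 14, 52, 82, 103, 7⟩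
    14 12 10 109 (-53) (-17) 88912672572324184065 (by decide +kernel)) <|
  AllL.cons (i := 3) (j := 5) (k := 20) (OkB.mk ⟨18, 15, 23, 63, 72, 103, 13⟩ ⟨12, 10, 15, 52, 82, 103, 7⟩
    14 15 7 112 (-76) (-19) 86333871540907540481 (by decide +kernel)) <|
  AllL.cons (i := 3) (j := 5) (k := 21) (OkB.mk ⟨18, 14, 24, 63, 72, 103, 12⟩ ⟨12, 10, 15, 52, 82, 103, 7⟩
    14 17 3 121 (-113) (-21) 94846739163893465089 (by decide +kernel)) <|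
  AllL.nil

end Pool.Agent.MP_48470b_gt.Run
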