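import Pool.Agent.MP_48470b_gt.Run.OkB
import Pool.Agent.MP_48470b_gt.Run.F22

/-! Runs of the tests. -/

namespace Pool.Agent.MP_48470b_gt.Run

/-- the boxes of this part -/
def b44l : List (Nat × Nat × Nat) :=
  [(3, 5, 22), (3, 6, 6), (3, 6, 7), (3, 6, 8), (3, 6, 9), (3, 6, 10), (3, 6, 11), (3, 6, 12), (3, 6, 13), (3, 6, 14), (3, 6, 15), (3, 6, 16), (3, 6, 17), (3, 6, 18), (3, 6, 19), (3, 6, 20), (3, 6, 21), (3, 6, 22)]

theorem b44 : AllL OkB b44l :=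
  AllL.cons (i := 3) (j := 5) (k := 22) (OkB.mk ⟨18, 14, 23, 63, 72, 103, 12⟩ ⟨12, 10, 15, 52, 82, 103, 7⟩
    15 18 (-1) 129 (-155) (-25) 96602744720480796673 (by decide +kernel)) <|
  AllL.cons (i := 3) (j := 6) (k := 6) (OkB.mk ⟨21, 18, 18, 63, 72, 103, 14⟩ ⟨13, 11, 12, 52, 82, 103, 7⟩
    16 (-15) 6 34 31 (-46) 107108430302127587329 (by decide +kernel)) <|
  AllL.cons (i := 3) (j := 6) (k := 7) (OkB.mk ⟨21, 17, 19, 63, 72, 103, 14⟩ ⟨13, 11, 12, 52, 82, 103, 7⟩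
    15 (-14) 4 36 37 (-40) 112958035434108092417 (by decide +kernel)) <|
  AllL.cons (i := 3) (j := 6) (k := 8) (OkB.mk ⟨20, 17, 20, 63, 72, 103, 14⟩ ⟨12, 11, 13, 52, 82, 103, 7⟩
    14 (-14) 4 39 42 (-35) 96476233263321448449 (by decide +kernel)) <|
  AllL.cons (i := 3) (j := 6) (k := 9) (OkB.mk ⟨19, 17, 20, 63, 72, 103, 14⟩ ⟨12, 11, 13, 52, 82, 103, 7⟩
    13 (-14) 5 41 41 (-30) 95367917433624985601 (by decide +kernel)) <|
  AllL.cons (i := 3) (j := 6) (k := 10) (OkB.mk ⟨18, 16, 21, 63, 72, 103, 14⟩ ⟨11, 11, 13, 52, 82, 103, 7⟩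
    13 (-13) 7 42 40 (-26) 87969252288151683073 (by decide +kernel)) <|
  AllL.cons (i := 3) (j := 6) (k := 11) (OkB.mk ⟨18, 16, 20, 63, 72, 103, 14⟩ ⟨11, 10, 13, 52, 82, 103, 7⟩
    13 (-12) 10 44 36 (-22) 79114500732918693889 (by decide +kernel)) <|
  AllL.cons (i := 3) (j := 6) (k := 12) (OkB.mk ⟨18, 16, 20, 63, 72, 103, 14⟩ ⟨11, 10, 13, 52, 82, 103, 7⟩
    13 (-11) 12 43 28 (-20) 70361226679225942017 (by decide +kernel)) <|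
  AllL.cons (i := 3) (j := 6) (k := 13) (OkB.mk ⟨18, 15, 20, 63, 72, 103, 14⟩ ⟨11, 10, 12, 52, 82, 103, 7⟩
    13 (-9) 15 48 25 (-18) 71344782848664010753 (by decide +kernel)) <|
  AllL.cons (i := 3) (j := 6) (k := 14) (OkB.mk ⟨17, 15, 20, 63, 72, 103, 14⟩ ⟨11, 9, 12, 52, 82, 103, 7⟩
    13 (-7) 18 54 15 (-16) 80637308119591944193 (by decide +kernel)) <|
  AllL.cons (i := 3) (j := 6) (k := 15) (OkB.mk ⟨17, 15, 20, 63, 72, 103, 14⟩ ⟨11, 9, 12, 52, 82, 103, 7⟩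
    13 (-3) 19 60 12 (-15) 74083703971727278081 (by decide +kernel)) <|
  AllL.cons (i := 3) (j := 6) (k := 16) (OkB.mk ⟨17, 14, 21, 63, 72, 103, 14⟩ ⟨11, 9, 12, 52, 82, 103, 7⟩
    13 1 20 65 6 (-15) 80508907838895030273 (by decide +kernel)) <|
  AllL.cons (i := 3) (j := 6) (k := 17) (OkB.mk ⟨17, 14, 20, 63, 72, 103, 14⟩ ⟨11, 9, 12, 52, 82, 103, 7⟩
    13 4 20 70 (-10) (-15) 79096363601423761409 (by decide +kernel)) <|
  AllL.cons (i := 3) (j := 6) (k := 18) (OkB.mk ⟨17, 14, 20, 63, 72, 103, 13⟩ ⟨11, 9, 13, 52, 82, 103, 7⟩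
    13 8 20 75 (-19) (-15) 80448051794442977281 (by decide +kernel)) <|
  AllL.cons (i := 3) (j := 6) (k := 19) (OkB.mk ⟨17, 14, 21, 63, 72, 103, 13⟩ ⟨11, 9, 13, 52, 82, 103, 7⟩
    13 12 18 79 (-29) (-16) 74041371949424181249 (by decide +kernel)) <|
  AllL.cons (i := 3) (j := 6) (k := 20) (OkB.mk ⟨17, 14, 21, 63, 72, 103, 13⟩ ⟨11, 10, 13, 52, 82, 103, 7⟩
    14 15 15 82 (-50) (-17) 79938947536773971969 (by decide +kernel)) <|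
  AllL.cons (i := 3) (j := 6) (k := 21) (OkB.mk ⟨17, 14, 21, 63, 72, 103, 13⟩ ⟨12, 9, 13, 52, 82, 103, 7⟩
    14 18 11 90 (-72) (-19) 77785981448919973889 (by decide +kernel)) <|
  AllL.cons (i := 3) (j := 6) (k := 22) (OkB.mk ⟨17, 13, 22, 63, 72, 103, 13⟩ ⟨12, 9, 13, 52, 82, 103, 7⟩
    14 20 8 98 (-99) (-22) 86579493505020723201 (by decide +kernel)) <|
  AllL.nil

end Pool.Agent.MP_48470b_gt.Run
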