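import Pool.Agent.MP_48470b_gt.Run.OkB
import Pool.Agent.MP_48470b_gt.Run.B44

/-! Runs of the tests. -/

namespace Pool.Agent.MP_48470b_gt.Run

/-- the boxes of this part -/
def b45l : List (Nat × Nat × Nat) :=
  [(3, 7, 7), (3, 7, 8), (3, 7, 9), (3, 7, 10), (3, 7, 11), (3, 7, 12), (3, 7, 13), (3, 7, 14), (3, 7, 15), (3, 7, 16), (3, 7, 17), (3, 7, 18), (3, 7, 19), (3, 7, 20), (3, 7, 21), (3, 7, 22), (3, 8, 8), (3, 8, 9), (3, 8, 10), (3, 8, 11)]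

theorem b45 : AllL OkB b45l :=
  AllL.cons (i := 3) (j := 7) (k := 7) (OkB.mk ⟨20, 18, 19, 63, 72, 103, 14⟩ ⟨13, 11, 12, 52, 82, 103, 7⟩
    14 (-14) 6 29 29 (-41) 92184757191617544193 (by decide +kernel)) <|
  AllL.cons (i := 3) (j := 7) (k := 8) (OkB.mk ⟨19, 17, 20, 63, 72, 103, 14⟩ ⟨11, 11, 12, 52, 82, 103, 7⟩
    13 (-15) 6 30 28 (-34) 91557864177410244609 (by decide +kernel)) <|
  AllL.cons (i := 3) (j := 7) (k := 9) (OkB.mk ⟨18, 17, 19, 63, 72, 103, 14⟩ ⟨11, 11, 12, 52, 82, 103, 7⟩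
    13 (-15) 7 32 29 (-28) 73859251867056340993 (by decide +kernel)) <|
  AllL.cons (i := 3) (j := 7) (k := 10) (OkB.mk ⟨17, 16, 19, 63, 72, 103, 14⟩ ⟨10, 11, 12, 52, 82, 103, 7⟩
    13 (-15) 9 33 26 (-23) 78869477178008928257 (by decide +kernel)) <|
  AllL.cons (i := 3) (j := 7) (k := 11) (OkB.mk ⟨17, 15, 19, 63, 72, 103, 14⟩ ⟨10, 9, 12, 52, 82, 103, 7⟩
    13 (-14) 12 34 23 (-20) 74504276790078341121 (by decide +kernel)) <|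
  AllL.cons (i := 3) (j := 7) (k := 12) (OkB.mk ⟨17, 15, 19, 63, 72, 103, 15⟩ ⟨10, 9, 12, 52, 82, 103, 7⟩
    13 (-13) 15 32 16 (-18) 72047177677083246593 (by decide +kernel)) <|
  AllL.cons (i := 3) (j := 7) (k := 13) (OkB.mk ⟨17, 15, 20, 63, 72, 103, 15⟩ ⟨10, 9, 12, 52, 82, 103, 7⟩
    13 (-11) 18 35 15 (-16) 59053891292936273921 (by decide +kernel)) <|
  AllL.cons (i := 3) (j := 7) (k := 14) (OkB.mk ⟨16, 15, 21, 63, 72, 103, 14⟩ ⟨10, 9, 12, 52, 82, 103, 7⟩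
    13 (-9) 21 38 9 (-15) 76363865412973101057 (by decide +kernel)) <|
  AllL.cons (i := 3) (j := 7) (k := 15) (OkB.mk ⟨16, 15, 21, 63, 72, 103, 14⟩ ⟨10, 9, 12, 52, 82, 103, 7⟩
    13 (-5) 23 41 9 (-15) 76952119939312910337 (by decide +kernel)) <|
  AllL.cons (i := 3) (j := 7) (k := 16) (OkB.mk ⟨17, 14, 21, 63, 72, 103, 14⟩ ⟨10, 9, 13, 52, 82, 103, 7⟩
    13 (-2) 26 45 0 (-14) 73334320276944453633 (by decide +kernel)) <|
  AllL.cons (i := 3) (j := 7) (k := 17) (OkB.mk ⟨17, 14, 21, 63, 72, 103, 14⟩ ⟨10, 9, 13, 52, 82, 103, 7⟩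
    14 3 27 48 1 (-15) 71458439640505122817 (by decide +kernel)) <|
  AllL.cons (i := 3) (j := 7) (k := 18) (OkB.mk ⟨17, 14, 21, 63, 72, 103, 14⟩ ⟨11, 9, 13, 52, 82, 103, 7⟩
    14 7 27 52 (-7) (-15) 75341720096251838465 (by decide +kernel)) <|
  AllL.cons (i := 3) (j := 7) (k := 19) (OkB.mk ⟨17, 14, 22, 63, 72, 103, 14⟩ ⟨11, 9, 13, 52, 82, 103, 7⟩
    14 11 26 55 (-15) (-16) 67695837732732403713 (by decide +kernel)) <|
  AllL.cons (i := 3) (j := 7) (k := 20) (OkB.mk ⟨17, 14, 21, 63, 72, 103, 14⟩ ⟨11, 9, 13, 52, 82, 103, 7⟩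
    14 15 24 58 (-25) (-17) 73040183874084143105 (by decide +kernel)) <|
  AllL.cons (i := 3) (j := 7) (k := 21) (OkB.mk ⟨17, 14, 20, 63, 72, 103, 13⟩ ⟨11, 9, 13, 52, 82, 103, 7⟩
    14 18 20 66 (-45) (-18) 74098672860466774017 (by decide +kernel)) <|
  AllL.cons (i := 3) (j := 7) (k := 22) (OkB.mk ⟨17, 13, 20, 63, 72, 103, 13⟩ ⟨10, 9, 13, 52, 82, 103, 7⟩
    15 21 18 73 (-58) (-20) 76257048682968383489 (by decide +kernel)) <|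
  AllL.cons (i := 3) (j := 8) (k := 8) (OkB.mk ⟨17, 18, 19, 63, 72, 103, 15⟩ ⟨10, 11, 11, 52, 82, 103, 7⟩
    13 (-16) 7 25 21 (-33) 85341410839112974337 (by decide +kernel)) <|
  AllL.cons (i := 3) (j := 8) (k := 9) (OkB.mk ⟨17, 17, 18, 63, 72, 103, 15⟩ ⟨10, 11, 11, 52, 82, 103, 7⟩
    13 (-17) 10 25 17 (-26) 67886159759526592513 (by decide +kernel)) <|
  AllL.cons (i := 3) (j := 8) (k := 10) (OkB.mk ⟨17, 16, 18, 63, 72, 103, 15⟩ ⟨10, 9, 11, 52, 82, 103, 7⟩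
    14 (-16) 11 25 16 (-21) 63459031028428963841 (by decide +kernel)) <|
  AllL.cons (i := 3) (j := 8) (k := 11) (OkB.mk ⟨17, 15, 19, 63, 72, 103, 15⟩ ⟨10, 9, 11, 52, 82, 103, 7⟩
    14 (-16) 14 26 13 (-18) 66811926178951069697 (by decide +kernel)) <|
  AllL.nil

end Pool.Agent.MP_48470b_gt.Run
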