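import Pool.Agent.MP_48470b_gt.Run.OkF

/-! Runs of the tests. -/

namespace Pool.Agent.MP_48470b_gt.Run

/-- the boxes of this part -/
def f23l : List (Nat × Nat × Nat) :=
  [(3, 15, 18), (3, 15, 19), (3, 15, 20), (3, 15, 21), (3, 15, 22), (3, 16, 16), (3, 16, 17), (3, 16, 18), (3, 16, 19), (3, 16, 20), (3, 16, 21), (3, 16, 22), (3, 17, 17), (3, 17, 18), (3, 17, 19), (3, 17, 20), (3, 17, 21), (3, 17, 22), (3, 18, 18), (3, 18, 19), (3, 18, 20), (3, 18, 21), (3, 18, 22), (3, 19, 19), (3, 19, 20), (3, 19, 21), (3, 19, 22), (3, 20, 20), (3, 20, 21), (3, 20, 22), (3, 21, 21), (3, 21, 22), (3, 22, 22), (4, 4, 4), (4, 4, 5), (4, 4, 6), (4, 4, 7), (4, 4, 8), (4, 4, 9), (4, 4, 10), (4, 4, 11), (4, 4, 12), (4, 4, 13), (4, 4, 14), (4, 4, 15), (4, 4, 16), (4, 4, 17), (4, 4, 18), (4, 4, 19), (4, 4, 20), (4, 4, 21), (4, 4, 22), (4, 5, 5), (4, 5, 6)]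

theorem f23 : AllL OkF f23l :=
  AllL.cons (i := 3) (j := 15) (k := 18) (OkF.mk (by decide +kernel)) <|
  AllL.cons (i := 3) (j := 15) (k := 19) (OkF.mk (by decide +kernel)) <|
  AllL.cons (i := 3) (j := 15) (k := 20) (OkF.mk (by decide +kernel)) <|
  AllL.cons (i := 3) (j := 15) (k := 21) (OkF.mk (by decide +kernel)) <|
  AllL.cons (i := 3) (j := 15) (k := 22) (OkF.mk (by decide +kernel)) <|
  AllL.cons (i := 3) (j := 16) (k := 16) (OkF.mk (by decide +kernel)) <|
  AllL.cons (i := 3) (j := 16) (k := 17) (OkF.mk (by decide +kernel)) <|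
  AllL.cons (i := 3) (j := 16) (k := 18) (OkF.mk (by decide +kernel)) <|
  AllL.cons (i := 3) (j := 16) (k := 19) (OkF.mk (by decide +kernel)) <|
  AllL.cons (i := 3) (j := 16) (k := 20) (OkF.mk (by decide +kernel)) <|
  AllL.cons (i := 3) (j := 16) (k := 21) (OkF.mk (by decide +kernel)) <|
  AllL.cons (i := 3) (j := 16) (k := 22) (OkF.mk (by decide +kernel)) <|
  AllL.cons (i := 3) (j := 17) (k := 17) (OkF.mk (by decide +kernel)) <|
  AllL.cons (i := 3) (j := 17) (k := 18) (OkF.mk (by decide +kernel)) <|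
  AllL.cons (i := 3) (j := 17) (k := 19) (OkF.mk (by decide +kernel)) <|
  AllL.cons (i := 3) (j := 17) (k := 20) (OkF.mk (by decide +kernel)) <|
  AllL.cons (i := 3) (j := 17) (k := 21) (OkF.mk (by decide +kernel)) <|
  AllL.cons (i := 3) (j := 17) (k := 22) (OkF.mk (by decide +kernel)) <|
  AllL.cons (i := 3) (j := 18) (k := 18) (OkF.mk (by decide +kernel)) <|
  AllL.cons (i := 3) (j := 18) (k := 19) (OkF.mk (by decide +kernel)) <|
  AllL.cons (i := 3) (j := 18) (k := 20) (OkF.mk (by decide +kernel)) <|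
  AllL.cons (i := 3) (j := 18) (k := 21) (OkF.mk (by decide +kernel)) <|
  AllL.cons (i := 3) (j := 18) (k := 22) (OkF.mk (by decide +kernel)) <|
  AllL.cons (i := 3) (j := 19) (k := 19) (OkF.mk (by decide +kernel)) <|
  AllL.cons (i := 3) (j := 19) (k := 20) (OkF.mk (by decide +kernel)) <|
  AllL.cons (i := 3) (j := 19) (k := 21) (OkF.mk (by decide +kernel)) <|
  AllL.cons (i := 3) (j := 19) (k := 22) (OkF.mk (by decide +kernel)) <|
  AllL.cons (i := 3) (j := 20) (k := 20) (OkF.mk (by decide +kernel)) <|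
  AllL.cons (i := 3) (j := 20) (k := 21) (OkF.mk (by decide +kernel)) <|
  AllL.cons (i := 3) (j := 20) (k := 22) (OkF.mk (by decide +kernel)) <|
  AllL.cons (i := 3) (j := 21) (k := 21) (OkF.mk (by decide +kernel)) <|
  AllL.cons (i := 3) (j := 21) (k := 22) (OkF.mk (by decide +kernel)) <|
  AllL.cons (i := 3) (j := 22) (k := 22) (OkF.mk (by decide +kernel)) <|
  AllL.cons (i := 4) (j := 4) (k := 4) (OkF.mk (by decide +kernel)) <|
  AllL.cons (i := 4) (j := 4) (k := 5) (OkF.mk (by decide +kernel)) <|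
  AllL.cons (i := 4) (j := 4) (k := 6) (OkF.mk (by decide +kernel)) <|
  AllL.cons (i := 4) (j := 4) (k := 7) (OkF.mk (by decide +kernel)) <|
  AllL.cons (i := 4) (j := 4) (k := 8) (OkF.mk (by decide +kernel)) <|
  AllL.cons (i := 4) (j := 4) (k := 9) (OkF.mk (by decide +kernel)) <|
  AllL.cons (i := 4) (j := 4) (k := 10) (OkF.mk (by decide +kernel)) <|
  AllL.cons (i := 4) (j := 4) (k := 11) (OkF.mk (by decide +kernel)) <|
  AllL.cons (i := 4) (j := 4) (k := 12) (OkF.mk (by decide +kernel)) <|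
  AllL.cons (i := 4) (j := 4) (k := 13) (OkF.mk (by decide +kernel)) <|
  AllL.cons (i := 4) (j := 4) (k := 14) (OkF.mk (by decide +kernel)) <|
  AllL.cons (i := 4) (j := 4) (k := 15) (OkF.mk (by decide +kernel)) <|
  AllL.cons (i := 4) (j := 4) (k := 16) (OkF.mk (by decide +kernel)) <|
  AllL.cons (i := 4) (j := 4) (k := 17) (OkF.mk (by decide +kernel)) <|
  AllL.cons (i := 4) (j := 4) (k := 18) (OkF.mk (by decide +kernel)) <|
  AllL.cons (i := 4) (j := 4) (k := 19) (OkF.mk (by decide +kernel)) <|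
  AllL.cons (i := 4) (j := 4) (k := 20) (OkF.mk (by decide +kernel)) <|
  AllL.cons (i := 4) (j := 4) (k := 21) (OkF.mk (by decide +kernel)) <|
  AllL.cons (i := 4) (j := 4) (k := 22) (OkF.mk (by decide +kernel)) <|
  AllL.cons (i := 4) (j := 5) (k := 5) (OkF.mk (by decide +kernel)) <|
  AllL.cons (i := 4) (j := 5) (k := 6) (OkF.mk (by decide +kernel)) <|
  AllL.nil

end Pool.Agent.MP_48470b_gt.Run
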