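import Pool.Agent.MP_48470b_gt.Run.OkB
import Pool.Agent.MP_48470b_gt.Run.F23

/-! Runs of the tests. -/

namespace Pool.Agent.MP_48470b_gt.Run

/-- the boxes of this part -/
def b46l : List (Nat × Nat × Nat) :=
  [(3, 8, 12), (3, 8, 13), (3, 8, 14), (3, 8, 15), (3, 8, 16), (3, 8, 17), (3, 8, 18), (3, 8, 19), (3, 8, 20), (3, 8, 21), (3, 8, 22), (3, 9, 9), (3, 9, 10), (3, 9, 11), (3, 9, 12), (3, 9, 13), (3, 9, 14), (3, 9, 15), (3, 9, 16), (3, 9, 17)]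

theorem b46 : AllL OkB b46l :=
  AllL.cons (i := 3) (j := 8) (k := 12) (OkB.mk ⟨17, 15, 20, 63, 72, 103, 15⟩ ⟨10, 9, 11, 52, 82, 103, 7⟩
    15 (-14) 16 24 10 (-16) 63511929357474988033 (by decide +kernel)) <|
  AllL.cons (i := 3) (j := 8) (k := 13) (OkB.mk ⟨16, 15, 20, 63, 72, 103, 15⟩ ⟨10, 9, 11, 52, 82, 103, 7⟩
    15 (-13) 20 26 7 (-15) 68417458071719116801 (by decide +kernel)) <|
  AllL.cons (i := 3) (j := 8) (k := 14) (OkB.mk ⟨16, 15, 21, 63, 72, 103, 15⟩ ⟨10, 9, 12, 52, 82, 103, 7⟩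
    15 (-10) 23 27 6 (-14) 59554570542757445633 (by decide +kernel)) <|
  AllL.cons (i := 3) (j := 8) (k := 15) (OkB.mk ⟨16, 15, 21, 63, 72, 103, 15⟩ ⟨10, 9, 12, 52, 82, 103, 7⟩
    15 (-7) 25 30 4 (-13) 65146765846463381505 (by decide +kernel)) <|
  AllL.cons (i := 3) (j := 8) (k := 16) (OkB.mk ⟨16, 14, 23, 63, 72, 103, 15⟩ ⟨10, 9, 13, 52, 82, 103, 7⟩
    15 (-3) 28 32 3 (-13) 68881774135547527169 (by decide +kernel)) <|
  AllL.cons (i := 3) (j := 8) (k := 17) (OkB.mk ⟨16, 14, 23, 63, 72, 103, 15⟩ ⟨10, 9, 13, 52, 82, 103, 7⟩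
    15 1 29 35 (-1) (-14) 70924760748199510017 (by decide +kernel)) <|
  AllL.cons (i := 3) (j := 8) (k := 18) (OkB.mk ⟨17, 14, 23, 63, 72, 103, 15⟩ ⟨10, 9, 14, 52, 82, 103, 7⟩
    15 5 30 37 (-7) (-14) 63613247429829197825 (by decide +kernel)) <|
  AllL.cons (i := 3) (j := 8) (k := 19) (OkB.mk ⟨17, 14, 24, 63, 72, 103, 14⟩ ⟨10, 9, 14, 52, 82, 103, 7⟩
    15 10 31 39 (-7) (-15) 70379099240735440897 (by decide +kernel)) <|
  AllL.cons (i := 3) (j := 8) (k := 20) (OkB.mk ⟨17, 15, 23, 63, 72, 103, 14⟩ ⟨11, 9, 14, 52, 82, 103, 7⟩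
    15 14 30 42 (-15) (-16) 57753987898562052097 (by decide +kernel)) <|
  AllL.cons (i := 3) (j := 8) (k := 21) (OkB.mk ⟨17, 14, 23, 63, 72, 103, 14⟩ ⟨11, 9, 14, 52, 82, 103, 7⟩
    15 18 29 48 (-22) (-17) 61996581470001430529 (by decide +kernel)) <|
  AllL.cons (i := 3) (j := 8) (k := 22) (OkB.mk ⟨17, 14, 22, 63, 72, 103, 14⟩ ⟨10, 9, 14, 52, 82, 103, 7⟩
    15 21 27 54 (-32) (-18) 58434699395608870913 (by decide +kernel)) <|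
  AllL.cons (i := 3) (j := 9) (k := 9) (OkB.mk ⟨17, 17, 17, 63, 72, 103, 15⟩ ⟨10, 10, 10, 52, 82, 103, 7⟩
    14 (-18) 10 21 13 (-24) 64640530489509150721 (by decide +kernel)) <|
  AllL.cons (i := 3) (j := 9) (k := 10) (OkB.mk ⟨17, 16, 18, 63, 72, 103, 15⟩ ⟨10, 10, 10, 52, 82, 103, 7⟩
    15 (-17) 12 20 11 (-20) 65944951914600857601 (by decide +kernel)) <|
  AllL.cons (i := 3) (j := 9) (k := 11) (OkB.mk ⟨17, 16, 18, 63, 72, 103, 15⟩ ⟨10, 9, 10, 52, 82, 103, 7⟩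
    16 (-16) 14 20 9 (-17) 56875809748163756033 (by decide +kernel)) <|
  AllL.cons (i := 3) (j := 9) (k := 12) (OkB.mk ⟨16, 16, 19, 63, 72, 103, 15⟩ ⟨10, 9, 10, 52, 82, 103, 7⟩
    16 (-15) 16 19 7 (-15) 63779189160666988545 (by decide +kernel)) <|
  AllL.cons (i := 3) (j := 9) (k := 13) (OkB.mk ⟨16, 15, 19, 63, 72, 103, 15⟩ ⟨10, 9, 10, 52, 82, 103, 7⟩
    17 (-13) 18 20 6 (-13) 61610849151477612545 (by decide +kernel)) <|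
  AllL.cons (i := 3) (j := 9) (k := 14) (OkB.mk ⟨16, 15, 19, 63, 72, 103, 15⟩ ⟨10, 8, 11, 52, 82, 103, 7⟩
    17 (-11) 21 21 5 (-12) 65386121144054054913 (by decide +kernel)) <|
  AllL.cons (i := 3) (j := 9) (k := 15) (OkB.mk ⟨16, 14, 20, 63, 72, 103, 15⟩ ⟨10, 8, 11, 52, 82, 103, 7⟩
    17 (-8) 24 22 3 (-12) 64546233623532011521 (by decide +kernel)) <|
  AllL.cons (i := 3) (j := 9) (k := 16) (OkB.mk ⟨16, 14, 21, 63, 72, 103, 15⟩ ⟨10, 8, 12, 52, 82, 103, 7⟩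
    17 (-5) 26 24 1 (-12) 58782568931718594561 (by decide +kernel)) <|
  AllL.cons (i := 3) (j := 9) (k := 17) (OkB.mk ⟨16, 14, 21, 63, 72, 103, 15⟩ ⟨10, 8, 12, 52, 82, 103, 7⟩
    16 (-1) 28 26 (-2) (-12) 61313045190143901697 (by decide +kernel)) <|
  AllL.nil

end Pool.Agent.MP_48470b_gt.Run
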