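import Pool.Agent.MP_48470b_gt.Run.OkB
import Pool.Agent.MP_48470b_gt.Run.B46

/-! Runs of the tests. -/

namespace Pool.Agent.MP_48470b_gt.Run

/-- the boxes of this part -/
def b47l : List (Nat × Nat × Nat) :=
  [(3, 9, 18), (3, 9, 19), (3, 9, 20), (3, 9, 21), (3, 9, 22), (3, 10, 10), (3, 10, 11), (3, 10, 12), (3, 10, 13), (3, 10, 14), (3, 10, 15), (3, 10, 16), (3, 10, 17), (3, 10, 18), (3, 10, 19), (3, 10, 20), (3, 10, 21), (3, 10, 22), (3, 11, 11), (3, 11, 12), (3, 11, 13), (3, 11, 14), (3, 11, 15)]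

theorem b47 : AllL OkB b47l :=
  AllL.cons (i := 3) (j := 9) (k := 18) (OkB.mk ⟨16, 14, 22, 63, 72, 103, 15⟩ ⟨10, 8, 13, 52, 82, 103, 7⟩
    16 4 30 28 (-3) (-12) 56839473500205875201 (by decide +kernel)) <|
  AllL.cons (i := 3) (j := 9) (k := 19) (OkB.mk ⟨16, 14, 22, 63, 72, 103, 15⟩ ⟨10, 9, 13, 52, 82, 103, 7⟩
    16 8 30 30 (-8) (-13) 66871303655141670913 (by decide +kernel)) <|
  AllL.cons (i := 3) (j := 9) (k := 20) (OkB.mk ⟨16, 14, 23, 63, 72, 103, 15⟩ ⟨10, 9, 14, 52, 82, 103, 7⟩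
    16 13 31 32 (-10) (-14) 70189206298353991681 (by decide +kernel)) <|
  AllL.cons (i := 3) (j := 9) (k := 21) (OkB.mk ⟨16, 14, 23, 63, 72, 103, 15⟩ ⟨10, 9, 14, 52, 82, 103, 7⟩
    16 17 32 36 (-14) (-15) 68716673531104985089 (by decide +kernel)) <|
  AllL.cons (i := 3) (j := 9) (k := 22) (OkB.mk ⟨16, 14, 23, 63, 72, 103, 14⟩ ⟨10, 9, 14, 52, 82, 103, 7⟩
    16 20 30 41 (-22) (-16) 64849567716036575233 (by decide +kernel)) <|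
  AllL.cons (i := 3) (j := 10) (k := 10) (OkB.mk ⟨17, 17, 17, 63, 72, 103, 15⟩ ⟨9, 10, 10, 52, 82, 103, 7⟩
    16 (-18) 11 17 8 (-19) 55722195413792456705 (by decide +kernel)) <|
  AllL.cons (i := 3) (j := 10) (k := 11) (OkB.mk ⟨16, 16, 18, 63, 72, 103, 15⟩ ⟨9, 9, 10, 52, 82, 103, 7⟩
    17 (-16) 12 17 8 (-16) 65092651594995990529 (by decide +kernel)) <|
  AllL.cons (i := 3) (j := 10) (k := 12) (OkB.mk ⟨16, 16, 17, 63, 72, 103, 15⟩ ⟨9, 9, 9, 52, 82, 103, 7⟩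
    18 (-14) 14 15 6 (-14) 67527116024182734849 (by decide +kernel)) <|
  AllL.cons (i := 3) (j := 10) (k := 13) (OkB.mk ⟨15, 16, 18, 63, 72, 103, 15⟩ ⟨9, 9, 9, 52, 82, 103, 7⟩
    18 (-13) 16 16 5 (-12) 69260088323996647425 (by decide +kernel)) <|
  AllL.cons (i := 3) (j := 10) (k := 14) (OkB.mk ⟨15, 14, 19, 63, 72, 103, 15⟩ ⟨9, 8, 10, 52, 82, 103, 7⟩
    19 (-11) 18 17 4 (-11) 67657904856452038657 (by decide +kernel)) <|
  AllL.cons (i := 3) (j := 10) (k := 15) (OkB.mk ⟨15, 14, 18, 63, 72, 103, 15⟩ ⟨9, 8, 10, 52, 82, 103, 7⟩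
    19 (-8) 20 18 4 (-11) 69877131500725469185 (by decide +kernel)) <|
  AllL.cons (i := 3) (j := 10) (k := 16) (OkB.mk ⟨15, 14, 19, 63, 72, 103, 15⟩ ⟨9, 8, 10, 52, 82, 103, 7⟩
    18 (-5) 22 19 2 (-10) 61660981246707105793 (by decide +kernel)) <|
  AllL.cons (i := 3) (j := 10) (k := 17) (OkB.mk ⟨15, 14, 19, 63, 72, 103, 15⟩ ⟨9, 8, 11, 52, 82, 103, 7⟩
    18 (-2) 24 21 (-1) (-10) 62345720529724375041 (by decide +kernel)) <|
  AllL.cons (i := 3) (j := 10) (k := 18) (OkB.mk ⟨15, 14, 19, 63, 72, 103, 15⟩ ⟨9, 8, 11, 52, 82, 103, 7⟩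
    18 2 25 23 (-4) (-11) 67708610072117510145 (by decide +kernel)) <|
  AllL.cons (i := 3) (j := 10) (k := 19) (OkB.mk ⟨15, 13, 21, 63, 72, 103, 15⟩ ⟨9, 9, 11, 52, 82, 103, 7⟩
    18 7 26 24 (-5) (-11) 73225774977221918721 (by decide +kernel)) <|
  AllL.cons (i := 3) (j := 10) (k := 20) (OkB.mk ⟨15, 14, 20, 63, 72, 103, 15⟩ ⟨9, 8, 12, 52, 82, 103, 7⟩
    18 11 27 25 (-9) (-12) 70440116501079916545 (by decide +kernel)) <|
  AllL.cons (i := 3) (j := 10) (k := 21) (OkB.mk ⟨15, 13, 21, 63, 72, 103, 15⟩ ⟨9, 8, 13, 52, 82, 103, 7⟩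
    18 15 27 29 (-13) (-13) 70971865887917735937 (by decide +kernel)) <|
  AllL.cons (i := 3) (j := 10) (k := 22) (OkB.mk ⟨15, 13, 22, 63, 72, 103, 15⟩ ⟨9, 8, 13, 52, 82, 103, 7⟩
    18 18 28 32 (-18) (-14) 65700049580848054273 (by decide +kernel)) <|
  AllL.cons (i := 3) (j := 11) (k := 11) (OkB.mk ⟨16, 16, 16, 63, 72, 103, 15⟩ ⟨9, 9, 9, 52, 82, 103, 7⟩
    18 (-16) 10 14 6 (-15) 65645538130805129217 (by decide +kernel)) <|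
  AllL.cons (i := 3) (j := 11) (k := 12) (OkB.mk ⟨15, 16, 17, 63, 72, 103, 15⟩ ⟨8, 9, 9, 52, 82, 103, 7⟩
    19 (-14) 11 13 5 (-13) 63560596903216283649 (by decide +kernel)) <|
  AllL.cons (i := 3) (j := 11) (k := 13) (OkB.mk ⟨15, 15, 16, 63, 72, 103, 15⟩ ⟨8, 9, 9, 52, 82, 103, 7⟩
    20 (-12) 13 13 4 (-12) 66248147331201368065 (by decide +kernel)) <|
  AllL.cons (i := 3) (j := 11) (k := 14) (OkB.mk ⟨15, 14, 16, 63, 72, 103, 15⟩ ⟨8, 8, 9, 52, 82, 103, 7⟩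
    20 (-10) 14 14 4 (-11) 71478054103310925825 (by decide +kernel)) <|
  AllL.cons (i := 3) (j := 11) (k := 15) (OkB.mk ⟨15, 14, 16, 63, 72, 103, 15⟩ ⟨8, 8, 9, 52, 82, 103, 7⟩
    20 (-8) 16 15 3 (-10) 74521542283730354177 (by decide +kernel)) <|
  AllL.nil

end Pool.Agent.MP_48470b_gt.Run
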