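import Pool.Agent.MP_48470b_gt.Run.OkB
import Pool.Agent.MP_48470b_gt.Run.F24

/-! Runs of the tests. -/

namespace Pool.Agent.MP_48470b_gt.Run

/-- the boxes of this part -/
def b48l : List (Nat × Nat × Nat) :=
  [(3, 11, 16), (3, 11, 17), (3, 11, 18), (3, 11, 19), (3, 11, 20), (3, 11, 21), (3, 11, 22), (3, 12, 12), (3, 12, 13), (3, 12, 14), (3, 12, 15), (3, 12, 16), (3, 12, 17), (3, 12, 18), (3, 12, 19), (3, 12, 20), (3, 12, 21), (3, 12, 22), (3, 13, 13), (3, 13, 14), (3, 13, 15), (3, 13, 16), (3, 13, 17), (3, 13, 18), (3, 13, 19), (3, 13, 20), (3, 13, 21), (3, 13, 22), (3, 14, 14)]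

theorem b48 : AllL OkB b48l :=
  AllL.cons (i := 3) (j := 11) (k := 16) (OkB.mk ⟨14, 14, 17, 63, 72, 103, 15⟩ ⟨8, 8, 9, 52, 82, 103, 7⟩
    20 (-5) 17 16 3 (-10) 72203775620669243393 (by decide +kernel)) <|
  AllL.cons (i := 3) (j := 11) (k := 17) (OkB.mk ⟨14, 14, 17, 63, 72, 103, 15⟩ ⟨8, 8, 9, 52, 82, 103, 7⟩
    19 (-2) 19 17 1 (-9) 73792097957439340545 (by decide +kernel)) <|
  AllL.cons (i := 3) (j := 11) (k := 18) (OkB.mk ⟨14, 14, 17, 63, 72, 103, 15⟩ ⟨9, 8, 9, 52, 82, 103, 7⟩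
    19 1 21 19 (-2) (-9) 75150216506774650881 (by decide +kernel)) <|
  AllL.cons (i := 3) (j := 11) (k := 19) (OkB.mk ⟨14, 13, 18, 63, 72, 103, 15⟩ ⟨8, 8, 10, 52, 82, 103, 7⟩
    19 5 22 20 (-5) (-10) 79389255906877243393 (by decide +kernel)) <|
  AllL.cons (i := 3) (j := 11) (k := 20) (OkB.mk ⟨14, 13, 19, 63, 72, 103, 15⟩ ⟨8, 8, 11, 52, 82, 103, 7⟩
    19 9 22 21 (-8) (-10) 75819082415299624961 (by decide +kernel)) <|
  AllL.cons (i := 3) (j := 11) (k := 21) (OkB.mk ⟨14, 13, 19, 63, 72, 103, 15⟩ ⟨8, 8, 11, 52, 82, 103, 7⟩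
    19 13 22 24 (-11) (-11) 69007321458448269313 (by decide +kernel)) <|
  AllL.cons (i := 3) (j := 11) (k := 22) (OkB.mk ⟨15, 12, 19, 63, 72, 103, 15⟩ ⟨9, 8, 11, 52, 82, 103, 7⟩
    19 16 23 27 (-16) (-12) 71011923570418778113 (by decide +kernel)) <|
  AllL.cons (i := 3) (j := 12) (k := 12) (OkB.mk ⟨15, 16, 16, 63, 72, 103, 15⟩ ⟨8, 8, 9, 52, 82, 103, 7⟩
    20 (-13) 9 12 5 (-12) 56720725419772346369 (by decide +kernel)) <|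
  AllL.cons (i := 3) (j := 12) (k := 13) (OkB.mk ⟨14, 15, 16, 63, 72, 103, 15⟩ ⟨8, 8, 8, 52, 82, 103, 7⟩
    20 (-11) 10 12 4 (-11) 77364253593603932161 (by decide +kernel)) <|
  AllL.cons (i := 3) (j := 12) (k := 14) (OkB.mk ⟨14, 14, 16, 63, 72, 103, 16⟩ ⟨8, 8, 8, 52, 82, 103, 7⟩
    20 (-9) 11 12 4 (-10) 75002581094783516673 (by decide +kernel)) <|
  AllL.cons (i := 3) (j := 12) (k := 15) (OkB.mk ⟨14, 14, 16, 63, 72, 103, 16⟩ ⟨8, 8, 8, 52, 82, 103, 7⟩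
    20 (-7) 12 13 3 (-10) 67564890158471839745 (by decide +kernel)) <|
  AllL.cons (i := 3) (j := 12) (k := 16) (OkB.mk ⟨14, 14, 16, 63, 72, 103, 15⟩ ⟨8, 8, 8, 52, 82, 103, 7⟩
    20 (-5) 14 14 3 (-9) 66477309881124651009 (by decide +kernel)) <|
  AllL.cons (i := 3) (j := 12) (k := 17) (OkB.mk ⟨14, 13, 17, 63, 72, 103, 15⟩ ⟨8, 8, 9, 52, 82, 103, 7⟩
    20 (-3) 15 15 1 (-8) 81555657477066850305 (by decide +kernel)) <|
  AllL.cons (i := 3) (j := 12) (k := 18) (OkB.mk ⟨14, 13, 16, 63, 72, 103, 15⟩ ⟨8, 8, 9, 52, 82, 103, 7⟩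
    20 0 16 16 (-1) (-8) 86499535919937224705 (by decide +kernel)) <|
  AllL.cons (i := 3) (j := 12) (k := 19) (OkB.mk ⟨14, 13, 17, 63, 72, 103, 15⟩ ⟨8, 8, 9, 52, 82, 103, 7⟩
    20 3 17 17 (-4) (-8) 75703804805880217601 (by decide +kernel)) <|
  AllL.cons (i := 3) (j := 12) (k := 20) (OkB.mk ⟨14, 13, 17, 63, 72, 103, 15⟩ ⟨8, 8, 9, 52, 82, 103, 7⟩
    20 7 18 18 (-6) (-9) 69445074833178099713 (by decide +kernel)) <|
  AllL.cons (i := 3) (j := 12) (k := 21) (OkB.mk ⟨14, 13, 17, 63, 72, 103, 15⟩ ⟨8, 8, 10, 52, 82, 103, 7⟩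
    20 10 18 20 (-10) (-9) 65774975250967035905 (by decide +kernel)) <|
  AllL.cons (i := 3) (j := 12) (k := 22) (OkB.mk ⟨14, 12, 17, 63, 72, 103, 15⟩ ⟨8, 8, 10, 52, 82, 103, 7⟩
    21 13 18 22 (-14) (-10) 82260018232276549633 (by decide +kernel)) <|
  AllL.cons (i := 3) (j := 13) (k := 13) (OkB.mk ⟨14, 15, 15, 63, 72, 103, 16⟩ ⟨7, 8, 8, 52, 82, 103, 7⟩
    21 (-10) 7 11 4 (-11) 70508648511083380737 (by decide +kernel)) <|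
  AllL.cons (i := 3) (j := 13) (k := 14) (OkB.mk ⟨14, 14, 15, 63, 72, 103, 16⟩ ⟨7, 8, 8, 52, 82, 103, 7⟩
    21 (-8) 8 11 4 (-11) 82677107385473957889 (by decide +kernel)) <|
  AllL.cons (i := 3) (j := 13) (k := 15) (OkB.mk ⟨14, 14, 15, 63, 72, 103, 16⟩ ⟨7, 8, 8, 52, 82, 103, 7⟩
    20 (-7) 9 11 3 (-10) 78832565473152860161 (by decide +kernel)) <|
  AllL.cons (i := 3) (j := 13) (k := 16) (OkB.mk ⟨14, 14, 15, 63, 72, 103, 16⟩ ⟨7, 8, 8, 52, 82, 103, 7⟩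
    20 (-5) 10 12 2 (-9) 79020890374514147329 (by decide +kernel)) <|
  AllL.cons (i := 3) (j := 13) (k := 17) (OkB.mk ⟨13, 14, 16, 63, 72, 103, 16⟩ ⟨7, 8, 8, 52, 82, 103, 7⟩
    20 (-3) 11 13 1 (-9) 93549348016149757953 (by decide +kernel)) <|
  AllL.cons (i := 3) (j := 13) (k := 18) (OkB.mk ⟨14, 13, 15, 63, 72, 103, 16⟩ ⟨8, 8, 8, 52, 82, 103, 7⟩
    20 (-1) 12 14 0 (-8) 93851712339398623233 (by decide +kernel)) <|
  AllL.cons (i := 3) (j := 13) (k := 19) (OkB.mk ⟨13, 13, 16, 63, 72, 103, 16⟩ ⟨8, 8, 8, 52, 82, 103, 7⟩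
    20 2 13 15 (-2) (-8) 99601028679347470337 (by decide +kernel)) <|
  AllL.cons (i := 3) (j := 13) (k := 20) (OkB.mk ⟨13, 13, 16, 63, 72, 103, 15⟩ ⟨8, 8, 9, 52, 82, 103, 7⟩
    20 5 14 15 (-5) (-8) 93005980227380183041 (by decide +kernel)) <|
  AllL.cons (i := 3) (j := 13) (k := 21) (OkB.mk ⟨13, 13, 16, 63, 72, 103, 15⟩ ⟨7, 8, 9, 52, 82, 103, 7⟩
    21 8 14 17 (-8) (-9) 80980360145504567297 (by decide +kernel)) <|
  AllL.cons (i := 3) (j := 13) (k := 22) (OkB.mk ⟨13, 12, 17, 63, 72, 103, 15⟩ ⟨7, 8, 9, 52, 82, 103, 7⟩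
    21 10 14 19 (-12) (-9) 88560960380514336769 (by decide +kernel)) <|
  AllL.cons (i := 3) (j := 14) (k := 14) (OkB.mk ⟨14, 15, 15, 63, 72, 103, 16⟩ ⟨7, 8, 8, 52, 82, 103, 7⟩
    21 (-8) 6 10 3 (-11) 68835585026454192129 (by decide +kernel)) <|
  AllL.nil

end Pool.Agent.MP_48470b_gt.Run
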