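import Pool.Agent.MP_48470b_gt.Run.OkB
import Pool.Agent.MP_48470b_gt.Run.B48

/-! Runs of the tests. -/

namespace Pool.Agent.MP_48470b_gt.Run

/-- the boxes of this part -/
def b49l : List (Nat × Nat × Nat) :=
  [(3, 14, 15), (3, 14, 16), (3, 14, 17), (3, 14, 18), (3, 14, 19), (3, 14, 20), (3, 14, 21), (3, 14, 22), (3, 15, 15), (3, 15, 16), (3, 15, 17), (3, 15, 18), (3, 15, 19), (3, 15, 20), (3, 15, 21), (3, 15, 22), (3, 16, 16), (3, 16, 17), (3, 16, 18), (3, 16, 19), (3, 16, 20), (3, 16, 21), (3, 16, 22), (3, 17, 17), (3, 17, 18), (3, 17, 19), (3, 17, 20), (3, 17, 21), (3, 17, 22), (3, 18, 18), (3, 18, 19), (3, 18, 20), (3, 18, 21)]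

theorem b49 : AllL OkB b49l :=
  AllL.cons (i := 3) (j := 14) (k := 15) (OkB.mk ⟨14, 14, 15, 63, 72, 103, 16⟩ ⟨7, 8, 8, 52, 82, 103, 7⟩
    20 (-6) 7 10 3 (-10) 86349249860289429505 (by decide +kernel)) <|
  AllL.cons (i := 3) (j := 14) (k := 16) (OkB.mk ⟨14, 14, 15, 63, 72, 103, 16⟩ ⟨7, 7, 8, 52, 82, 103, 7⟩
    20 (-5) 8 11 2 (-9) 83439885743223209985 (by decide +kernel)) <|
  AllL.cons (i := 3) (j := 14) (k := 17) (OkB.mk ⟨13, 14, 16, 63, 72, 103, 16⟩ ⟨8, 7, 8, 52, 82, 103, 7⟩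
    20 (-3) 9 11 2 (-9) 97769992999036518401 (by decide +kernel)) <|
  AllL.cons (i := 3) (j := 14) (k := 18) (OkB.mk ⟨13, 13, 16, 63, 72, 103, 16⟩ ⟨8, 7, 8, 52, 82, 103, 7⟩
    20 (-1) 10 12 0 (-8) 115388034471696531457 (by decide +kernel)) <|
  AllL.cons (i := 3) (j := 14) (k := 19) (OkB.mk ⟨13, 13, 16, 63, 72, 103, 16⟩ ⟨8, 7, 8, 52, 82, 103, 7⟩
    20 1 10 13 (-2) (-8) 118059874940104998913 (by decide +kernel)) <|
  AllL.cons (i := 3) (j := 14) (k := 20) (OkB.mk ⟨13, 13, 16, 63, 72, 103, 16⟩ ⟨8, 8, 8, 52, 82, 103, 7⟩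
    21 3 11 13 (-4) (-8) 112111185943397924865 (by decide +kernel)) <|
  AllL.cons (i := 3) (j := 14) (k := 21) (OkB.mk ⟨13, 13, 15, 63, 72, 103, 16⟩ ⟨8, 8, 8, 52, 82, 103, 7⟩
    21 6 11 15 (-7) (-8) 103348303395028992001 (by decide +kernel)) <|
  AllL.cons (i := 3) (j := 14) (k := 22) (OkB.mk ⟨13, 13, 15, 63, 72, 103, 15⟩ ⟨7, 8, 8, 52, 82, 103, 7⟩
    21 8 11 17 (-10) (-9) 86809210483682312193 (by decide +kernel)) <|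
  AllL.cons (i := 3) (j := 15) (k := 15) (OkB.mk ⟨13, 15, 15, 63, 72, 103, 16⟩ ⟨7, 8, 8, 52, 82, 103, 7⟩
    20 (-6) 5 10 3 (-10) 103580187923425787905 (by decide +kernel)) <|
  AllL.cons (i := 3) (j := 15) (k := 16) (OkB.mk ⟨13, 15, 15, 63, 72, 103, 16⟩ ⟨7, 7, 8, 52, 82, 103, 7⟩
    20 (-5) 6 10 2 (-9) 103598935558752043009 (by decide +kernel)) <|
  AllL.cons (i := 3) (j := 15) (k := 17) (OkB.mk ⟨13, 14, 15, 63, 72, 103, 16⟩ ⟨7, 7, 8, 52, 82, 103, 7⟩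
    20 (-3) 7 10 2 (-9) 109265955652385112065 (by decide +kernel)) <|
  AllL.cons (i := 3) (j := 15) (k := 18) (OkB.mk ⟨13, 14, 15, 63, 72, 103, 16⟩ ⟨7, 8, 8, 52, 82, 103, 7⟩
    20 (-2) 7 11 0 (-8) 105826096966126272513 (by decide +kernel)) <|
  AllL.cons (i := 3) (j := 15) (k := 19) (OkB.mk ⟨13, 14, 15, 63, 72, 103, 16⟩ ⟨7, 8, 8, 52, 82, 103, 7⟩
    20 0 8 12 (-1) (-8) 109832079895875813377 (by decide +kernel)) <|
  AllL.cons (i := 3) (j := 15) (k := 20) (OkB.mk ⟨13, 14, 15, 63, 72, 103, 16⟩ ⟨7, 8, 8, 52, 82, 103, 7⟩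
    21 2 8 12 (-3) (-8) 111444285274468646913 (by decide +kernel)) <|
  AllL.cons (i := 3) (j := 15) (k := 21) (OkB.mk ⟨13, 13, 15, 63, 72, 103, 16⟩ ⟨7, 8, 8, 52, 82, 103, 7⟩
    21 4 8 13 (-6) (-8) 130599272891262435329 (by decide +kernel)) <|
  AllL.cons (i := 3) (j := 15) (k := 22) (OkB.mk ⟨13, 13, 15, 63, 72, 103, 16⟩ ⟨7, 8, 8, 52, 82, 103, 7⟩
    22 6 8 15 (-8) (-9) 96678029930902061057 (by decide +kernel)) <|
  AllL.cons (i := 3) (j := 16) (k := 16) (OkB.mk ⟨13, 15, 15, 63, 72, 103, 16⟩ ⟨7, 7, 8, 52, 82, 103, 7⟩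
    20 (-5) 4 9 2 (-9) 101510075809160757249 (by decide +kernel)) <|
  AllL.cons (i := 3) (j := 16) (k := 17) (OkB.mk ⟨13, 14, 15, 63, 72, 103, 16⟩ ⟨7, 7, 8, 52, 82, 103, 7⟩
    20 (-4) 5 10 1 (-9) 109425195859851608065 (by decide +kernel)) <|
  AllL.cons (i := 3) (j := 16) (k := 18) (OkB.mk ⟨13, 14, 15, 63, 72, 103, 16⟩ ⟨7, 8, 7, 52, 82, 103, 7⟩
    20 (-2) 5 10 1 (-8) 112512849223335542785 (by decide +kernel)) <|
  AllL.cons (i := 3) (j := 16) (k := 19) (OkB.mk ⟨13, 14, 15, 63, 72, 103, 16⟩ ⟨8, 8, 7, 52, 82, 103, 7⟩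
    21 0 6 11 (-1) (-8) 120941701925892521985 (by decide +kernel)) <|
  AllL.cons (i := 3) (j := 16) (k := 20) (OkB.mk ⟨13, 14, 15, 63, 72, 103, 16⟩ ⟨7, 8, 8, 52, 82, 103, 7⟩
    21 1 6 11 (-3) (-8) 127271319199943753729 (by decide +kernel)) <|
  AllL.cons (i := 3) (j := 16) (k := 21) (OkB.mk ⟨13, 14, 15, 63, 72, 103, 16⟩ ⟨7, 8, 8, 52, 82, 103, 7⟩
    21 3 6 12 (-5) (-8) 112088148426016948225 (by decide +kernel)) <|
  AllL.cons (i := 3) (j := 16) (k := 22) (OkB.mk ⟨13, 13, 15, 63, 72, 103, 16⟩ ⟨7, 8, 8, 52, 82, 103, 7⟩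
    22 4 6 13 (-8) (-9) 111817249789092823041 (by decide +kernel)) <|
  AllL.cons (i := 3) (j := 17) (k := 17) (OkB.mk ⟨13, 14, 14, 63, 72, 103, 16⟩ ⟨7, 8, 8, 52, 82, 103, 7⟩
    20 (-4) 3 9 1 (-9) 118398957866480304129 (by decide +kernel)) <|
  AllL.cons (i := 3) (j := 17) (k := 18) (OkB.mk ⟨13, 14, 14, 63, 72, 103, 16⟩ ⟨7, 8, 8, 52, 82, 103, 7⟩
    21 (-2) 4 9 0 (-8) 126742482694285819905 (by decide +kernel)) <|
  AllL.cons (i := 3) (j := 17) (k := 19) (OkB.mk ⟨13, 14, 14, 63, 72, 103, 16⟩ ⟨7, 8, 8, 52, 82, 103, 7⟩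
    21 (-1) 4 10 (-1) (-8) 143143590469759401985 (by decide +kernel)) <|
  AllL.cons (i := 3) (j := 17) (k := 20) (OkB.mk ⟨13, 14, 14, 63, 72, 103, 16⟩ ⟨7, 8, 8, 52, 82, 103, 7⟩
    21 1 5 10 (-2) (-8) 167326834563567583233 (by decide +kernel)) <|
  AllL.cons (i := 3) (j := 17) (k := 21) (OkB.mk ⟨13, 14, 14, 63, 72, 103, 16⟩ ⟨7, 8, 8, 52, 82, 103, 7⟩
    21 2 5 11 (-4) (-8) 151914094008098357249 (by decide +kernel)) <|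
  AllL.cons (i := 3) (j := 17) (k := 22) (OkB.mk ⟨13, 13, 15, 63, 72, 103, 16⟩ ⟨7, 8, 8, 52, 82, 103, 7⟩
    22 3 5 12 (-7) (-8) 151642823186488229889 (by decide +kernel)) <|
  AllL.cons (i := 3) (j := 18) (k := 18) (OkB.mk ⟨13, 14, 14, 63, 72, 103, 16⟩ ⟨7, 8, 8, 52, 82, 103, 7⟩
    21 (-3) 3 9 0 (-9) 142396018907578105857 (by decide +kernel)) <|
  AllL.cons (i := 3) (j := 18) (k := 19) (OkB.mk ⟨13, 14, 14, 63, 72, 103, 15⟩ ⟨7, 8, 8, 52, 82, 103, 7⟩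
    21 (-1) 3 9 (-1) (-8) 179675785006166310913 (by decide +kernel)) <|
  AllL.cons (i := 3) (j := 18) (k := 20) (OkB.mk ⟨13, 14, 15, 63, 72, 103, 15⟩ ⟨7, 8, 8, 52, 82, 103, 7⟩
    21 0 3 9 (-2) (-8) 217552702741747335169 (by decide +kernel)) <|
  AllL.cons (i := 3) (j := 18) (k := 21) (OkB.mk ⟨13, 14, 14, 63, 72, 103, 15⟩ ⟨7, 8, 8, 52, 82, 103, 7⟩
    22 1 3 10 (-4) (-8) 190844601031370735617 (by decide +kernel)) <|
  AllL.nil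

end Pool.Agent.MP_48470b_gt.Run
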