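import Pool.Agent.MP_48470b_gt.Run.OkB
import Pool.Agent.MP_48470b_gt.Run.F2

/-! Runs of the tests. -/

namespace Pool.Agent.MP_48470b_gt.Run

/-- the boxes of this part -/
def b4l : List (Nat × Nat × Nat) :=
  [(0, 3, 18), (0, 3, 19), (0, 3, 20), (0, 3, 21), (0, 3, 22), (0, 4, 4), (0, 4, 5), (0, 4, 6), (0, 4, 7), (0, 4, 8), (0, 4, 9), (0, 4, 10), (0, 4, 11), (0, 4, 12), (0, 4, 13), (0, 4, 14)]

theorem b4 : AllL OkB b4l :=
  AllL.cons (i := 0) (j := 3) (k := 18) (OkB.mk ⟨19, 14, 24, 63, 72, 103, 12⟩ ⟨13, 9, 14, 52, 82, 103, 7⟩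
    20 0 0 217 (-37) (-18) 207009013227881234433 (by decide +kernel)) <|
  AllL.cons (i := 0) (j := 3) (k := 19) (OkB.mk ⟨19, 14, 24, 63, 72, 103, 12⟩ ⟨13, 9, 15, 52, 82, 103, 7⟩
    20 0 0 221 (-82) (-19) 181424383290356269057 (by decide +kernel)) <|
  AllL.cons (i := 0) (j := 3) (k := 20) (OkB.mk ⟨19, 14, 23, 63, 72, 103, 12⟩ ⟨12, 9, 15, 52, 82, 103, 7⟩
    20 0 0 219 (-128) (-21) 197705105537704656897 (by decide +kernel)) <|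
  AllL.cons (i := 0) (j := 3) (k := 21) (OkB.mk ⟨19, 14, 23, 63, 72, 103, 12⟩ ⟨11, 9, 15, 52, 82, 103, 7⟩
    20 0 0 229 (-182) (-24) 163408571496115732481 (by decide +kernel)) <|
  AllL.cons (i := 0) (j := 3) (k := 22) (OkB.mk ⟨19, 13, 23, 63, 72, 103, 12⟩ ⟨11, 9, 14, 52, 82, 103, 7⟩
    21 0 0 240 (-234) (-27) 164832117034617667585 (by decide +kernel)) <|
  AllL.cons (i := 0) (j := 4) (k := 4) (OkB.mk ⟨17, 16, 16, 63, 72, 103, 15⟩ ⟨9, 9, 9, 52, 82, 103, 7⟩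
    22 0 0 38 26 (-47) 177168157561438863361 (by decide +kernel)) <|
  AllL.cons (i := 0) (j := 4) (k := 5) (OkB.mk ⟨17, 16, 16, 63, 72, 103, 14⟩ ⟨9, 9, 9, 52, 82, 103, 7⟩
    20 0 0 41 37 (-46) 180012989142047653889 (by decide +kernel)) <|
  AllL.cons (i := 0) (j := 4) (k := 6) (OkB.mk ⟨17, 15, 18, 63, 72, 103, 14⟩ ⟨9, 9, 10, 52, 82, 103, 7⟩
    18 0 0 44 49 (-45) 210755593876847722497 (by decide +kernel)) <|
  AllL.cons (i := 0) (j := 4) (k := 7) (OkB.mk ⟨17, 16, 18, 63, 72, 103, 14⟩ ⟨10, 9, 11, 52, 82, 103, 7⟩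
    17 0 0 48 63 (-44) 187135115293385293825 (by decide +kernel)) <|
  AllL.cons (i := 0) (j := 4) (k := 8) (OkB.mk ⟨19, 15, 20, 63, 72, 103, 13⟩ ⟨11, 9, 12, 52, 82, 103, 7⟩
    17 0 0 52 79 (-43) 185631972397296910337 (by decide +kernel)) <|
  AllL.cons (i := 0) (j := 4) (k := 9) (OkB.mk ⟨19, 15, 22, 63, 72, 103, 13⟩ ⟨11, 10, 13, 52, 82, 103, 7⟩
    17 0 0 56 97 (-43) 190269080086631153665 (by decide +kernel)) <|
  AllL.cons (i := 0) (j := 4) (k := 10) (OkB.mk ⟨20, 16, 23, 63, 72, 103, 13⟩ ⟨13, 11, 14, 52, 82, 103, 7⟩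
    17 0 0 63 114 (-41) 197898850619074019329 (by decide +kernel)) <|
  AllL.cons (i := 0) (j := 4) (k := 11) (OkB.mk ⟨21, 16, 24, 63, 72, 103, 13⟩ ⟨14, 10, 16, 52, 82, 103, 7⟩
    18 0 0 73 131 (-38) 184836115781981831169 (by decide +kernel)) <|
  AllL.cons (i := 0) (j := 4) (k := 12) (OkB.mk ⟨21, 17, 26, 63, 72, 103, 13⟩ ⟨15, 11, 17, 52, 82, 103, 7⟩
    18 0 0 82 135 (-33) 193456150604303826945 (by decide +kernel)) <|
  AllL.cons (i := 0) (j := 4) (k := 13) (OkB.mk ⟨22, 17, 27, 63, 72, 103, 13⟩ ⟨15, 11, 18, 52, 82, 103, 7⟩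
    19 0 0 107 138 (-27) 199509092407338598401 (by decide +kernel)) <|
  AllL.cons (i := 0) (j := 4) (k := 14) (OkB.mk ⟨21, 17, 28, 63, 72, 103, 12⟩ ⟨15, 11, 18, 52, 82, 103, 7⟩
    20 0 0 142 118 (-21) 199658461061971968001 (by decide +kernel)) <|
  AllL.nil

end Pool.Agent.MP_48470b_gt.Run
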