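import Pool.Agent.MP_48470b_gt.Run.OkB
import Pool.Agent.MP_48470b_gt.Run.B4

/-! Runs of the tests. -/

namespace Pool.Agent.MP_48470b_gt.Run

/-- the boxes of this part -/
def b5l : List (Nat × Nat × Nat) :=
  [(0, 4, 15), (0, 4, 16), (0, 4, 17), (0, 4, 18), (0, 4, 19), (0, 4, 20), (0, 4, 21), (0, 4, 22), (0, 5, 5), (0, 5, 6), (0, 5, 7), (0, 5, 8)]

theorem b5 : AllL OkB b5l :=
  AllL.cons (i := 0) (j := 4) (k := 15) (OkB.mk ⟨21, 16, 28, 63, 72, 103, 13⟩ ⟨15, 11, 18, 52, 82, 103, 7⟩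
    20 0 0 174 70 (-17) 176024959862790160385 (by decide +kernel)) <|
  AllL.cons (i := 0) (j := 4) (k := 16) (OkB.mk ⟨21, 15, 27, 63, 72, 103, 12⟩ ⟨15, 10, 18, 52, 82, 103, 7⟩
    21 0 0 189 13 (-16) 182356105870320861185 (by decide +kernel)) <|
  AllL.cons (i := 0) (j := 4) (k := 17) (OkB.mk ⟨21, 15, 27, 63, 72, 103, 12⟩ ⟨15, 9, 18, 52, 82, 103, 7⟩
    21 0 0 192 (-36) (-16) 163991915191209033729 (by decide +kernel)) <|
  AllL.cons (i := 0) (j := 4) (k := 18) (OkB.mk ⟨21, 15, 27, 63, 72, 103, 12⟩ ⟨15, 10, 18, 52, 82, 103, 7⟩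
    21 0 0 192 (-79) (-18) 159682394759303790593 (by decide +kernel)) <|
  AllL.cons (i := 0) (j := 4) (k := 19) (OkB.mk ⟨21, 15, 27, 63, 72, 103, 12⟩ ⟨15, 10, 18, 52, 82, 103, 7⟩
    22 0 0 191 (-125) (-20) 161309026829964673025 (by decide +kernel)) <|
  AllL.cons (i := 0) (j := 4) (k := 20) (OkB.mk ⟨21, 15, 27, 63, 72, 103, 12⟩ ⟨15, 9, 18, 52, 82, 103, 7⟩
    22 0 0 187 (-172) (-24) 160143729359914532865 (by decide +kernel)) <|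
  AllL.cons (i := 0) (j := 4) (k := 21) (OkB.mk ⟨21, 14, 27, 63, 72, 103, 12⟩ ⟨13, 9, 18, 52, 82, 103, 7⟩
    22 0 0 195 (-230) (-28) 167706159203202629633 (by decide +kernel)) <|
  AllL.cons (i := 0) (j := 4) (k := 22) (OkB.mk ⟨19, 14, 28, 63, 72, 103, 12⟩ ⟨13, 9, 17, 52, 82, 103, 7⟩
    23 0 0 203 (-286) (-32) 223263849123221078017 (by decide +kernel)) <|
  AllL.cons (i := 0) (j := 5) (k := 5) (OkB.mk ⟨17, 16, 16, 63, 72, 103, 14⟩ ⟨9, 9, 10, 52, 82, 103, 7⟩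
    19 0 0 36 44 (-57) 178779956533046280193 (by decide +kernel)) <|
  AllL.cons (i := 0) (j := 5) (k := 6) (OkB.mk ⟨17, 16, 19, 63, 72, 103, 14⟩ ⟨10, 10, 10, 52, 82, 103, 7⟩
    18 0 0 37 58 (-57) 203725601164920619009 (by decide +kernel)) <|
  AllL.cons (i := 0) (j := 5) (k := 7) (OkB.mk ⟨19, 17, 20, 63, 72, 103, 14⟩ ⟨11, 11, 12, 52, 82, 103, 7⟩
    17 0 0 39 73 (-56) 162027831182233698305 (by decide +kernel)) <|
  AllL.cons (i := 0) (j := 5) (k := 8) (OkB.mk ⟨19, 17, 24, 63, 72, 103, 13⟩ ⟨12, 11, 14, 52, 82, 103, 7⟩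
    17 0 0 41 91 (-56) 183951979515511570433 (by decide +kernel)) <|
  AllL.nil

end Pool.Agent.MP_48470b_gt.Run
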