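import Pool.Agent.MP_48470b_gt.Run.OkB
import Pool.Agent.MP_48470b_gt.Run.F26

/-! Runs of the tests. -/

namespace Pool.Agent.MP_48470b_gt.Run

/-- the boxes of this part -/
def b52l : List (Nat × Nat × Nat) :=
  [(4, 5, 15), (4, 5, 16), (4, 5, 17), (4, 5, 18), (4, 5, 19), (4, 5, 20), (4, 5, 21), (4, 5, 22), (4, 6, 6), (4, 6, 7), (4, 6, 8), (4, 6, 9), (4, 6, 10), (4, 6, 11), (4, 6, 12), (4, 6, 13), (4, 6, 14), (4, 6, 15), (4, 6, 16), (4, 6, 17)]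

theorem b52 : AllL OkB b52l :=
  AllL.cons (i := 4) (j := 5) (k := 15) (OkB.mk ⟨17, 15, 19, 63, 72, 103, 14⟩ ⟨11, 9, 11, 52, 82, 103, 7⟩
    11 (-1) 16 68 4 (-17) 72590470286745272321 (by decide +kernel)) <|
  AllL.cons (i := 4) (j := 5) (k := 16) (OkB.mk ⟨18, 14, 19, 63, 72, 103, 14⟩ ⟨11, 9, 11, 52, 82, 103, 7⟩
    11 2 17 73 (-3) (-17) 87104331774083203073 (by decide +kernel)) <|
  AllL.cons (i := 4) (j := 5) (k := 17) (OkB.mk ⟨17, 14, 20, 63, 72, 103, 13⟩ ⟨11, 9, 11, 52, 82, 103, 7⟩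
    11 5 16 78 (-8) (-17) 84183622758602637313 (by decide +kernel)) <|
  AllL.cons (i := 4) (j := 5) (k := 18) (OkB.mk ⟨17, 14, 20, 63, 72, 103, 13⟩ ⟨11, 9, 12, 52, 82, 103, 7⟩
    11 7 15 83 (-24) (-18) 85726056427831689217 (by decide +kernel)) <|
  AllL.cons (i := 4) (j := 5) (k := 19) (OkB.mk ⟨18, 14, 19, 63, 72, 103, 13⟩ ⟨11, 9, 12, 52, 82, 103, 7⟩
    11 10 14 88 (-33) (-18) 82420556688097542145 (by decide +kernel)) <|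
  AllL.cons (i := 4) (j := 5) (k := 20) (OkB.mk ⟨18, 14, 20, 63, 72, 103, 13⟩ ⟨12, 9, 12, 52, 82, 103, 7⟩
    12 14 12 94 (-39) (-19) 74432740089674072065 (by decide +kernel)) <|
  AllL.cons (i := 4) (j := 5) (k := 21) (OkB.mk ⟨18, 14, 20, 63, 72, 103, 13⟩ ⟨12, 10, 12, 52, 82, 103, 7⟩
    12 17 9 106 (-62) (-21) 69901299865815613441 (by decide +kernel)) <|
  AllL.cons (i := 4) (j := 5) (k := 22) (OkB.mk ⟨18, 13, 20, 63, 72, 103, 12⟩ ⟨12, 9, 13, 52, 82, 103, 7⟩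
    12 19 5 118 (-96) (-22) 88737918668106629121 (by decide +kernel)) <|
  AllL.cons (i := 4) (j := 6) (k := 6) (OkB.mk ⟨20, 17, 17, 63, 72, 103, 15⟩ ⟨11, 11, 12, 52, 82, 103, 7⟩
    15 (-16) 9 31 21 (-37) 103995115986518802433 (by decide +kernel)) <|
  AllL.cons (i := 4) (j := 6) (k := 7) (OkB.mk ⟨19, 16, 18, 63, 72, 103, 14⟩ ⟨14, 10, 11, 52, 82, 103, 7⟩
    14 (-15) 7 33 23 (-32) 91651581738198499329 (by decide +kernel)) <|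
  AllL.cons (i := 4) (j := 6) (k := 8) (OkB.mk ⟨18, 16, 18, 63, 72, 103, 14⟩ ⟨11, 10, 11, 52, 82, 103, 7⟩
    13 (-15) 7 36 23 (-28) 86035612656637837313 (by decide +kernel)) <|
  AllL.cons (i := 4) (j := 6) (k := 9) (OkB.mk ⟨17, 16, 18, 63, 72, 103, 14⟩ ⟨11, 10, 11, 52, 82, 103, 7⟩
    13 (-14) 8 38 23 (-25) 81372760589733986305 (by decide +kernel)) <|
  AllL.cons (i := 4) (j := 6) (k := 10) (OkB.mk ⟨16, 16, 19, 63, 72, 103, 14⟩ ⟨10, 10, 11, 52, 82, 103, 7⟩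
    12 (-13) 10 39 21 (-22) 84720610906029948929 (by decide +kernel)) <|
  AllL.cons (i := 4) (j := 6) (k := 11) (OkB.mk ⟨17, 15, 18, 63, 72, 103, 14⟩ ⟨10, 9, 11, 52, 82, 103, 7⟩
    12 (-12) 12 40 17 (-20) 71728854629751980033 (by decide +kernel)) <|
  AllL.cons (i := 4) (j := 6) (k := 12) (OkB.mk ⟨17, 15, 18, 63, 72, 103, 14⟩ ⟨10, 9, 11, 52, 82, 103, 7⟩
    12 (-10) 14 38 14 (-19) 76969359731880624129 (by decide +kernel)) <|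
  AllL.cons (i := 4) (j := 6) (k := 13) (OkB.mk ⟨17, 15, 19, 63, 72, 103, 14⟩ ⟨10, 9, 11, 52, 82, 103, 7⟩
    12 (-8) 17 41 12 (-18) 64386702732678922241 (by decide +kernel)) <|
  AllL.cons (i := 4) (j := 6) (k := 14) (OkB.mk ⟨17, 15, 19, 63, 72, 103, 14⟩ ⟨10, 9, 12, 52, 82, 103, 7⟩
    11 (-6) 19 45 5 (-18) 70746074440645214209 (by decide +kernel)) <|
  AllL.cons (i := 4) (j := 6) (k := 15) (OkB.mk ⟨17, 15, 19, 63, 72, 103, 14⟩ ⟨10, 9, 12, 52, 82, 103, 7⟩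
    11 (-3) 21 50 3 (-18) 82759558525490298881 (by decide +kernel)) <|
  AllL.cons (i := 4) (j := 6) (k := 16) (OkB.mk ⟨17, 14, 21, 63, 72, 103, 14⟩ ⟨10, 9, 12, 52, 82, 103, 7⟩
    11 0 22 53 (-2) (-18) 82110594327183884289 (by decide +kernel)) <|
  AllL.cons (i := 4) (j := 6) (k := 17) (OkB.mk ⟨17, 14, 20, 63, 72, 103, 14⟩ ⟨11, 9, 12, 52, 82, 103, 7⟩
    11 3 22 57 (-7) (-18) 82773817679474065409 (by decide +kernel)) <|
  AllL.nil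

end Pool.Agent.MP_48470b_gt.Run
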