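import Pool.Agent.MP_48470b_gt.Run.OkB
import Pool.Agent.MP_48470b_gt.Run.B52

/-! Runs of the tests. -/

namespace Pool.Agent.MP_48470b_gt.Run

/-- the boxes of this part -/
def b53l : List (Nat × Nat × Nat) :=
  [(4, 6, 18), (4, 6, 19), (4, 6, 20), (4, 6, 21), (4, 6, 22), (4, 7, 7), (4, 7, 8), (4, 7, 9), (4, 7, 10), (4, 7, 11), (4, 7, 12), (4, 7, 13), (4, 7, 14), (4, 7, 15), (4, 7, 16), (4, 7, 17), (4, 7, 18), (4, 7, 19), (4, 7, 20), (4, 7, 21)]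

theorem b53 : AllL OkB b53l :=
  AllL.cons (i := 4) (j := 6) (k := 18) (OkB.mk ⟨17, 14, 21, 63, 72, 103, 14⟩ ⟨11, 9, 12, 52, 82, 103, 7⟩
    11 6 22 61 (-13) (-18) 80201196040844476417 (by decide +kernel)) <|
  AllL.cons (i := 4) (j := 6) (k := 19) (OkB.mk ⟨17, 14, 20, 63, 72, 103, 14⟩ ⟨11, 9, 12, 52, 82, 103, 7⟩
    11 9 20 65 (-22) (-19) 80803012905673949185 (by decide +kernel)) <|
  AllL.cons (i := 4) (j := 6) (k := 20) (OkB.mk ⟨17, 14, 20, 63, 72, 103, 13⟩ ⟨11, 9, 12, 52, 82, 103, 7⟩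
    11 13 20 69 (-23) (-19) 75694943017038249985 (by decide +kernel)) <|
  AllL.cons (i := 4) (j := 6) (k := 21) (OkB.mk ⟨17, 14, 19, 63, 72, 103, 13⟩ ⟨11, 9, 12, 52, 82, 103, 7⟩
    12 16 16 79 (-42) (-20) 69423276740279533569 (by decide +kernel)) <|
  AllL.cons (i := 4) (j := 6) (k := 22) (OkB.mk ⟨17, 13, 19, 63, 72, 103, 13⟩ ⟨11, 9, 12, 52, 82, 103, 7⟩
    12 19 14 89 (-55) (-22) 73269473005283573761 (by decide +kernel)) <|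
  AllL.cons (i := 4) (j := 7) (k := 7) (OkB.mk ⟨18, 16, 17, 63, 72, 103, 15⟩ ⟨12, 10, 10, 52, 82, 103, 7⟩
    13 (-14) 8 27 17 (-33) 85049099762993725441 (by decide +kernel)) <|
  AllL.cons (i := 4) (j := 7) (k := 8) (OkB.mk ⟨17, 16, 17, 63, 72, 103, 15⟩ ⟨10, 10, 10, 52, 82, 103, 7⟩
    13 (-14) 8 29 18 (-27) 73872493560467554305 (by decide +kernel)) <|
  AllL.cons (i := 4) (j := 7) (k := 9) (OkB.mk ⟨17, 15, 18, 63, 72, 103, 15⟩ ⟨10, 10, 10, 52, 82, 103, 7⟩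
    12 (-14) 9 30 16 (-24) 80103548962937503745 (by decide +kernel)) <|
  AllL.cons (i := 4) (j := 7) (k := 10) (OkB.mk ⟨17, 15, 18, 63, 72, 103, 15⟩ ⟨10, 10, 10, 52, 82, 103, 7⟩
    12 (-13) 11 30 15 (-21) 66767252196880809985 (by decide +kernel)) <|
  AllL.cons (i := 4) (j := 7) (k := 11) (OkB.mk ⟨17, 15, 18, 63, 72, 103, 15⟩ ⟨10, 9, 10, 52, 82, 103, 7⟩
    12 (-12) 13 31 14 (-19) 63298482814442274817 (by decide +kernel)) <|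
  AllL.cons (i := 4) (j := 7) (k := 12) (OkB.mk ⟨17, 15, 19, 63, 72, 103, 15⟩ ⟨10, 9, 11, 52, 82, 103, 7⟩
    12 (-11) 16 29 9 (-18) 61416593209518194689 (by decide +kernel)) <|
  AllL.cons (i := 4) (j := 7) (k := 13) (OkB.mk ⟨17, 15, 19, 63, 72, 103, 15⟩ ⟨10, 9, 11, 52, 82, 103, 7⟩
    12 (-9) 19 31 9 (-17) 71171206658838757377 (by decide +kernel)) <|
  AllL.cons (i := 4) (j := 7) (k := 14) (OkB.mk ⟨17, 15, 20, 63, 72, 103, 15⟩ ⟨10, 9, 12, 52, 82, 103, 7⟩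
    12 (-7) 22 33 5 (-17) 64646677171825278977 (by decide +kernel)) <|
  AllL.cons (i := 4) (j := 7) (k := 15) (OkB.mk ⟨17, 15, 21, 63, 72, 103, 15⟩ ⟨10, 9, 12, 52, 82, 103, 7⟩
    12 (-5) 25 36 (-1) (-17) 65289674870283567105 (by decide +kernel)) <|
  AllL.cons (i := 4) (j := 7) (k := 16) (OkB.mk ⟨18, 14, 22, 63, 72, 103, 15⟩ ⟨11, 9, 12, 52, 82, 103, 7⟩
    12 (-1) 26 39 4 (-17) 68977028813591412737 (by decide +kernel)) <|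
  AllL.cons (i := 4) (j := 7) (k := 17) (OkB.mk ⟨18, 14, 22, 63, 72, 103, 14⟩ ⟨11, 9, 13, 52, 82, 103, 7⟩
    11 2 28 42 0 (-18) 64877859936925646849 (by decide +kernel)) <|
  AllL.cons (i := 4) (j := 7) (k := 18) (OkB.mk ⟨18, 14, 22, 63, 72, 103, 14⟩ ⟨11, 9, 13, 52, 82, 103, 7⟩
    11 5 28 44 (-6) (-18) 70279606220244385793 (by decide +kernel)) <|
  AllL.cons (i := 4) (j := 7) (k := 19) (OkB.mk ⟨18, 14, 23, 63, 72, 103, 14⟩ ⟨11, 9, 13, 52, 82, 103, 7⟩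
    11 8 27 47 (-14) (-19) 72943551782848561153 (by decide +kernel)) <|
  AllL.cons (i := 4) (j := 7) (k := 20) (OkB.mk ⟨18, 15, 21, 63, 72, 103, 14⟩ ⟨11, 9, 14, 52, 82, 103, 7⟩
    11 12 28 50 (-13) (-20) 71309561368057741313 (by decide +kernel)) <|
  AllL.cons (i := 4) (j := 7) (k := 21) (OkB.mk ⟨18, 14, 21, 63, 72, 103, 14⟩ ⟨11, 9, 13, 52, 82, 103, 7⟩
    12 15 24 58 (-27) (-20) 65525076598938664961 (by decide +kernel)) <|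
  AllL.nil

end Pool.Agent.MP_48470b_gt.Run
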