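import Pool.Agent.MP_48470b_gt.Run.OkF

/-! Runs of the tests. -/

namespace Pool.Agent.MP_48470b_gt.Run

/-- the boxes of this part -/
def f27l : List (Nat × Nat × Nat) :=
  [(4, 15, 22), (4, 16, 16), (4, 16, 17), (4, 16, 18), (4, 16, 19), (4, 16, 20), (4, 16, 21), (4, 16, 22), (4, 17, 17), (4, 17, 18), (4, 17, 19), (4, 17, 20), (4, 17, 21), (4, 17, 22), (4, 18, 18), (4, 18, 19), (4, 18, 20), (4, 18, 21), (4, 18, 22), (4, 19, 19), (4, 19, 20), (4, 19, 21), (4, 19, 22), (4, 20, 20), (4, 20, 21), (4, 20, 22), (4, 21, 21), (4, 21, 22), (4, 22, 22), (5, 5, 5), (5, 5, 6), (5, 5, 7), (5, 5, 8), (5, 5, 9), (5, 5, 10), (5, 5, 11), (5, 5, 12), (5, 5, 13), (5, 5, 14), (5, 5, 15), (5, 5, 16), (5, 5, 17), (5, 5, 18), (5, 5, 19), (5, 5, 20), (5, 5, 21), (5, 5, 22), (5, 6, 6), (5, 6, 7), (5, 6, 8), (5, 6, 9), (5, 6, 10), (5, 6, 11), (5, 6, 12), (5, 6, 13)]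

theorem f27 : AllL OkF f27l :=
  AllL.cons (i := 4) (j := 15) (k := 22) (OkF.mk (by decide +kernel)) <|
  AllL.cons (i := 4) (j := 16) (k := 16) (OkF.mk (by decide +kernel)) <|
  AllL.cons (i := 4) (j := 16) (k := 17) (OkF.mk (by decide +kernel)) <|
  AllL.cons (i := 4) (j := 16) (k := 18) (OkF.mk (by decide +kernel)) <|
  AllL.cons (i := 4) (j := 16) (k := 19) (OkF.mk (by decide +kernel)) <|
  AllL.cons (i := 4) (j := 16) (k := 20) (OkF.mk (by decide +kernel)) <|
  AllL.cons (i := 4) (j := 16) (k := 21) (OkF.mk (by decide +kernel)) <|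
  AllL.cons (i := 4) (j := 16) (k := 22) (OkF.mk (by decide +kernel)) <|
  AllL.cons (i := 4) (j := 17) (k := 17) (OkF.mk (by decide +kernel)) <|
  AllL.cons (i := 4) (j := 17) (k := 18) (OkF.mk (by decide +kernel)) <|
  AllL.cons (i := 4) (j := 17) (k := 19) (OkF.mk (by decide +kernel)) <|
  AllL.cons (i := 4) (j := 17) (k := 20) (OkF.mk (by decide +kernel)) <|
  AllL.cons (i := 4) (j := 17) (k := 21) (OkF.mk (by decide +kernel)) <|
  AllL.cons (i := 4) (j := 17) (k := 22) (OkF.mk (by decide +kernel)) <|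
  AllL.cons (i := 4) (j := 18) (k := 18) (OkF.mk (by decide +kernel)) <|
  AllL.cons (i := 4) (j := 18) (k := 19) (OkF.mk (by decide +kernel)) <|
  AllL.cons (i := 4) (j := 18) (k := 20) (OkF.mk (by decide +kernel)) <|
  AllL.cons (i := 4) (j := 18) (k := 21) (OkF.mk (by decide +kernel)) <|
  AllL.cons (i := 4) (j := 18) (k := 22) (OkF.mk (by decide +kernel)) <|
  AllL.cons (i := 4) (j := 19) (k := 19) (OkF.mk (by decide +kernel)) <|
  AllL.cons (i := 4) (j := 19) (k := 20) (OkF.mk (by decide +kernel)) <|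
  AllL.cons (i := 4) (j := 19) (k := 21) (OkF.mk (by decide +kernel)) <|
  AllL.cons (i := 4) (j := 19) (k := 22) (OkF.mk (by decide +kernel)) <|
  AllL.cons (i := 4) (j := 20) (k := 20) (OkF.mk (by decide +kernel)) <|
  AllL.cons (i := 4) (j := 20) (k := 21) (OkF.mk (by decide +kernel)) <|
  AllL.cons (i := 4) (j := 20) (k := 22) (OkF.mk (by decide +kernel)) <|
  AllL.cons (i := 4) (j := 21) (k := 21) (OkF.mk (by decide +kernel)) <|
  AllL.cons (i := 4) (j := 21) (k := 22) (OkF.mk (by decide +kernel)) <|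
  AllL.cons (i := 4) (j := 22) (k := 22) (OkF.mk (by decide +kernel)) <|
  AllL.cons (i := 5) (j := 5) (k := 5) (OkF.mk (by decide +kernel)) <|
  AllL.cons (i := 5) (j := 5) (k := 6) (OkF.mk (by decide +kernel)) <|
  AllL.cons (i := 5) (j := 5) (k := 7) (OkF.mk (by decide +kernel)) <|
  AllL.cons (i := 5) (j := 5) (k := 8) (OkF.mk (by decide +kernel)) <|
  AllL.cons (i := 5) (j := 5) (k := 9) (OkF.mk (by decide +kernel)) <|
  AllL.cons (i := 5) (j := 5) (k := 10) (OkF.mk (by decide +kernel)) <|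
  AllL.cons (i := 5) (j := 5) (k := 11) (OkF.mk (by decide +kernel)) <|
  AllL.cons (i := 5) (j := 5) (k := 12) (OkF.mk (by decide +kernel)) <|
  AllL.cons (i := 5) (j := 5) (k := 13) (OkF.mk (by decide +kernel)) <|
  AllL.cons (i := 5) (j := 5) (k := 14) (OkF.mk (by decide +kernel)) <|
  AllL.cons (i := 5) (j := 5) (k := 15) (OkF.mk (by decide +kernel)) <|
  AllL.cons (i := 5) (j := 5) (k := 16) (OkF.mk (by decide +kernel)) <|
  AllL.cons (i := 5) (j := 5) (k := 17) (OkF.mk (by decide +kernel)) <|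
  AllL.cons (i := 5) (j := 5) (k := 18) (OkF.mk (by decide +kernel)) <|
  AllL.cons (i := 5) (j := 5) (k := 19) (OkF.mk (by decide +kernel)) <|
  AllL.cons (i := 5) (j := 5) (k := 20) (OkF.mk (by decide +kernel)) <|
  AllL.cons (i := 5) (j := 5) (k := 21) (OkF.mk (by decide +kernel)) <|
  AllL.cons (i := 5) (j := 5) (k := 22) (OkF.mk (by decide +kernel)) <|
  AllL.cons (i := 5) (j := 6) (k := 6) (OkF.mk (by decide +kernel)) <|
  AllL.cons (i := 5) (j := 6) (k := 7) (OkF.mk (by decide +kernel)) <|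
  AllL.cons (i := 5) (j := 6) (k := 8) (OkF.mk (by decide +kernel)) <|
  AllL.cons (i := 5) (j := 6) (k := 9) (OkF.mk (by decide +kernel)) <|
  AllL.cons (i := 5) (j := 6) (k := 10) (OkF.mk (by decide +kernel)) <|
  AllL.cons (i := 5) (j := 6) (k := 11) (OkF.mk (by decide +kernel)) <|
  AllL.cons (i := 5) (j := 6) (k := 12) (OkF.mk (by decide +kernel)) <|
  AllL.cons (i := 5) (j := 6) (k := 13) (OkF.mk (by decide +kernel)) <|
  AllL.nil

end Pool.Agent.MP_48470b_gt.Run
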