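import Pool.Agent.MP_48470b_gt.Run.OkB
import Pool.Agent.MP_48470b_gt.Run.F27

/-! Runs of the tests. -/

namespace Pool.Agent.MP_48470b_gt.Run

/-- the boxes of this part -/
def b54l : List (Nat × Nat × Nat) :=
  [(4, 7, 22), (4, 8, 8), (4, 8, 9), (4, 8, 10), (4, 8, 11), (4, 8, 12), (4, 8, 13), (4, 8, 14), (4, 8, 15), (4, 8, 16), (4, 8, 17), (4, 8, 18), (4, 8, 19), (4, 8, 20), (4, 8, 21), (4, 8, 22), (4, 9, 9), (4, 9, 10), (4, 9, 11), (4, 9, 12), (4, 9, 13)]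

theorem b54 : AllL OkB b54l :=
  AllL.cons (i := 4) (j := 7) (k := 22) (OkB.mk ⟨17, 14, 21, 63, 72, 103, 13⟩ ⟨11, 9, 13, 52, 82, 103, 7⟩
    12 18 22 67 (-40) (-21) 66764987890122358785 (by decide +kernel)) <|
  AllL.cons (i := 4) (j := 8) (k := 8) (OkB.mk ⟨17, 16, 16, 63, 72, 103, 15⟩ ⟨10, 9, 11, 52, 82, 103, 7⟩
    13 (-15) 9 24 12 (-27) 78840021398939762689 (by decide +kernel)) <|
  AllL.cons (i := 4) (j := 8) (k := 9) (OkB.mk ⟨18, 16, 16, 63, 72, 103, 15⟩ ⟨10, 9, 10, 52, 82, 103, 7⟩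
    13 (-15) 11 24 10 (-23) 73067390602118692865 (by decide +kernel)) <|
  AllL.cons (i := 4) (j := 8) (k := 10) (OkB.mk ⟨17, 15, 18, 63, 72, 103, 15⟩ ⟨10, 9, 10, 52, 82, 103, 7⟩
    13 (-14) 12 24 10 (-20) 65688426505991880705 (by decide +kernel)) <|
  AllL.cons (i := 4) (j := 8) (k := 11) (OkB.mk ⟨17, 15, 18, 63, 72, 103, 15⟩ ⟨10, 8, 10, 52, 82, 103, 7⟩
    13 (-13) 14 24 8 (-18) 59091557125330042881 (by decide +kernel)) <|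
  AllL.cons (i := 4) (j := 8) (k := 12) (OkB.mk ⟨17, 15, 19, 63, 72, 103, 15⟩ ⟨10, 9, 10, 52, 82, 103, 7⟩
    13 (-12) 17 23 6 (-16) 56146337109448327169 (by decide +kernel)) <|
  AllL.cons (i := 4) (j := 8) (k := 13) (OkB.mk ⟨17, 15, 19, 63, 72, 103, 15⟩ ⟨10, 8, 11, 52, 82, 103, 7⟩
    13 (-10) 19 24 6 (-16) 61884911220793802753 (by decide +kernel)) <|
  AllL.cons (i := 4) (j := 8) (k := 14) (OkB.mk ⟨17, 14, 21, 63, 72, 103, 15⟩ ⟨10, 8, 12, 52, 82, 103, 7⟩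
    13 (-8) 22 25 4 (-15) 63559389639448985601 (by decide +kernel)) <|
  AllL.cons (i := 4) (j := 8) (k := 15) (OkB.mk ⟨17, 14, 21, 63, 72, 103, 15⟩ ⟨10, 8, 12, 52, 82, 103, 7⟩
    13 (-6) 25 27 1 (-16) 66987068623090089985 (by decide +kernel)) <|
  AllL.cons (i := 4) (j := 8) (k := 16) (OkB.mk ⟨17, 14, 22, 63, 72, 103, 15⟩ ⟨10, 9, 12, 52, 82, 103, 7⟩
    13 (-3) 28 29 (-1) (-16) 61834985421433470977 (by decide +kernel)) <|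
  AllL.cons (i := 4) (j := 8) (k := 17) (OkB.mk ⟨17, 14, 22, 63, 72, 103, 15⟩ ⟨10, 9, 13, 52, 82, 103, 7⟩
    12 1 29 31 2 (-16) 63970831151170322433 (by decide +kernel)) <|
  AllL.cons (i := 4) (j := 8) (k := 18) (OkB.mk ⟨17, 14, 23, 63, 72, 103, 15⟩ ⟨10, 9, 14, 52, 82, 103, 7⟩
    12 4 31 33 (-3) (-17) 64955020089550176257 (by decide +kernel)) <|
  AllL.cons (i := 4) (j := 8) (k := 19) (OkB.mk ⟨18, 14, 23, 63, 72, 103, 15⟩ ⟨11, 9, 14, 52, 82, 103, 7⟩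
    12 7 31 35 (-9) (-18) 70005023257294536705 (by decide +kernel)) <|
  AllL.cons (i := 4) (j := 8) (k := 20) (OkB.mk ⟨18, 15, 23, 63, 72, 103, 15⟩ ⟨11, 9, 14, 52, 82, 103, 7⟩
    12 11 32 38 (-10) (-19) 56156815730138939393 (by decide +kernel)) <|
  AllL.cons (i := 4) (j := 8) (k := 21) (OkB.mk ⟨18, 14, 23, 63, 72, 103, 14⟩ ⟨11, 9, 14, 52, 82, 103, 7⟩
    12 14 29 44 (-20) (-20) 65089969611257937921 (by decide +kernel)) <|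
  AllL.cons (i := 4) (j := 8) (k := 22) (OkB.mk ⟨18, 14, 22, 63, 72, 103, 14⟩ ⟨11, 9, 14, 52, 82, 103, 7⟩
    13 18 32 50 (-14) (-21) 63140956745603481601 (by decide +kernel)) <|
  AllL.cons (i := 4) (j := 9) (k := 9) (OkB.mk ⟨18, 16, 16, 63, 72, 103, 15⟩ ⟨10, 9, 9, 52, 82, 103, 7⟩
    13 (-15) 10 20 9 (-22) 63792456417723547649 (by decide +kernel)) <|
  AllL.cons (i := 4) (j := 9) (k := 10) (OkB.mk ⟨17, 16, 17, 63, 72, 103, 16⟩ ⟨10, 9, 9, 52, 82, 103, 7⟩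
    14 (-15) 12 20 7 (-19) 56899758760684158977 (by decide +kernel)) <|
  AllL.cons (i := 4) (j := 9) (k := 11) (OkB.mk ⟨17, 15, 17, 63, 72, 103, 16⟩ ⟨10, 9, 9, 52, 82, 103, 7⟩
    14 (-14) 14 20 6 (-17) 65218586358306570241 (by decide +kernel)) <|
  AllL.cons (i := 4) (j := 9) (k := 12) (OkB.mk ⟨16, 15, 18, 63, 72, 103, 15⟩ ⟨9, 8, 10, 52, 82, 103, 7⟩
    15 (-12) 16 18 5 (-15) 65260058287638839297 (by decide +kernel)) <|
  AllL.cons (i := 4) (j := 9) (k := 13) (OkB.mk ⟨16, 15, 18, 63, 72, 103, 15⟩ ⟨9, 8, 10, 52, 82, 103, 7⟩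
    15 (-11) 18 19 4 (-14) 64288471264341786625 (by decide +kernel)) <|
  AllL.nil

end Pool.Agent.MP_48470b_gt.Run
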