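import Pool.Agent.MP_48470b_gt.Run.OkB
import Pool.Agent.MP_48470b_gt.Run.B54

/-! Runs of the tests. -/

namespace Pool.Agent.MP_48470b_gt.Run

/-- the boxes of this part -/
def b55l : List (Nat × Nat × Nat) :=
  [(4, 9, 14), (4, 9, 15), (4, 9, 16), (4, 9, 17), (4, 9, 18), (4, 9, 19), (4, 9, 20), (4, 9, 21), (4, 9, 22), (4, 10, 10), (4, 10, 11), (4, 10, 12), (4, 10, 13), (4, 10, 14), (4, 10, 15), (4, 10, 16), (4, 10, 17), (4, 10, 18), (4, 10, 19), (4, 10, 20), (4, 10, 21), (4, 10, 22), (4, 11, 11), (4, 11, 12)]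

theorem b55 : AllL OkB b55l :=
  AllL.cons (i := 4) (j := 9) (k := 14) (OkB.mk ⟨16, 14, 19, 63, 72, 103, 15⟩ ⟨9, 9, 10, 52, 82, 103, 7⟩
    15 (-9) 21 20 3 (-14) 62689845678985707521 (by decide +kernel)) <|
  AllL.cons (i := 4) (j := 9) (k := 15) (OkB.mk ⟨16, 14, 20, 63, 72, 103, 15⟩ ⟨9, 8, 11, 52, 82, 103, 7⟩
    14 (-7) 24 21 1 (-14) 58791934571763990529 (by decide +kernel)) <|
  AllL.cons (i := 4) (j := 9) (k := 16) (OkB.mk ⟨16, 14, 20, 63, 72, 103, 15⟩ ⟨10, 8, 11, 52, 82, 103, 7⟩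
    14 (-4) 26 23 0 (-14) 60449869051272888321 (by decide +kernel)) <|
  AllL.cons (i := 4) (j := 9) (k := 17) (OkB.mk ⟨16, 14, 20, 63, 72, 103, 15⟩ ⟨10, 8, 12, 52, 82, 103, 7⟩
    14 (-1) 28 25 (-2) (-14) 66344350887780024321 (by decide +kernel)) <|
  AllL.cons (i := 4) (j := 9) (k := 18) (OkB.mk ⟨16, 14, 21, 63, 72, 103, 15⟩ ⟨10, 8, 12, 52, 82, 103, 7⟩
    14 3 29 26 (-2) (-15) 58139465817582993409 (by decide +kernel)) <|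
  AllL.cons (i := 4) (j := 9) (k := 19) (OkB.mk ⟨16, 14, 21, 63, 72, 103, 15⟩ ⟨10, 8, 13, 52, 82, 103, 7⟩
    13 7 31 28 (-3) (-15) 70223059024422633473 (by decide +kernel)) <|
  AllL.cons (i := 4) (j := 9) (k := 20) (OkB.mk ⟨16, 14, 23, 63, 72, 103, 15⟩ ⟨10, 9, 13, 52, 82, 103, 7⟩
    13 10 31 30 (-9) (-16) 66795775864967528449 (by decide +kernel)) <|
  AllL.cons (i := 4) (j := 9) (k := 21) (OkB.mk ⟨17, 14, 22, 63, 72, 103, 15⟩ ⟨10, 9, 13, 52, 82, 103, 7⟩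
    13 14 33 34 (-8) (-17) 61863673329069588481 (by decide +kernel)) <|
  AllL.cons (i := 4) (j := 9) (k := 22) (OkB.mk ⟨17, 14, 22, 63, 72, 103, 14⟩ ⟨11, 9, 13, 52, 82, 103, 7⟩
    14 17 33 39 (-12) (-19) 61738647174680412161 (by decide +kernel)) <|
  AllL.cons (i := 4) (j := 10) (k := 10) (OkB.mk ⟨17, 16, 16, 63, 72, 103, 16⟩ ⟨9, 9, 9, 52, 82, 103, 7⟩
    15 (-15) 11 17 6 (-18) 59682112929506787329 (by decide +kernel)) <|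
  AllL.cons (i := 4) (j := 10) (k := 11) (OkB.mk ⟨16, 15, 17, 63, 72, 103, 16⟩ ⟨9, 8, 9, 52, 82, 103, 7⟩
    15 (-14) 12 17 6 (-16) 64300739752523464705 (by decide +kernel)) <|
  AllL.cons (i := 4) (j := 10) (k := 12) (OkB.mk ⟨16, 15, 17, 63, 72, 103, 15⟩ ⟨9, 8, 9, 52, 82, 103, 7⟩
    16 (-12) 14 15 4 (-14) 56265797261099794433 (by decide +kernel)) <|
  AllL.cons (i := 4) (j := 10) (k := 13) (OkB.mk ⟨16, 14, 17, 63, 72, 103, 15⟩ ⟨9, 8, 9, 52, 82, 103, 7⟩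
    16 (-11) 16 16 4 (-13) 64969924107103633409 (by decide +kernel)) <|
  AllL.cons (i := 4) (j := 10) (k := 14) (OkB.mk ⟨15, 14, 18, 63, 72, 103, 15⟩ ⟨9, 8, 9, 52, 82, 103, 7⟩
    16 (-9) 18 16 3 (-13) 61016401213577494529 (by decide +kernel)) <|
  AllL.cons (i := 4) (j := 10) (k := 15) (OkB.mk ⟨15, 14, 18, 63, 72, 103, 15⟩ ⟨9, 8, 10, 52, 82, 103, 7⟩
    16 (-7) 20 17 2 (-12) 62081019564968116225 (by decide +kernel)) <|
  AllL.cons (i := 4) (j := 10) (k := 16) (OkB.mk ⟨15, 14, 18, 63, 72, 103, 15⟩ ⟨9, 8, 10, 52, 82, 103, 7⟩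
    16 (-5) 22 19 1 (-12) 63831777839750840321 (by decide +kernel)) <|
  AllL.cons (i := 4) (j := 10) (k := 17) (OkB.mk ⟨15, 14, 18, 63, 72, 103, 15⟩ ⟨9, 8, 10, 52, 82, 103, 7⟩
    15 (-2) 24 20 (-1) (-12) 67297980274855378945 (by decide +kernel)) <|
  AllL.cons (i := 4) (j := 10) (k := 18) (OkB.mk ⟨16, 13, 19, 63, 72, 103, 15⟩ ⟨9, 8, 11, 52, 82, 103, 7⟩
    15 2 25 21 (-2) (-12) 76377106281750593537 (by decide +kernel)) <|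
  AllL.cons (i := 4) (j := 10) (k := 19) (OkB.mk ⟨15, 13, 20, 63, 72, 103, 15⟩ ⟨9, 8, 11, 52, 82, 103, 7⟩
    15 5 26 23 (-6) (-13) 71722782439348633601 (by decide +kernel)) <|
  AllL.cons (i := 4) (j := 10) (k := 20) (OkB.mk ⟨15, 13, 20, 63, 72, 103, 15⟩ ⟨9, 8, 11, 52, 82, 103, 7⟩
    15 9 27 24 (-7) (-14) 71072746217205137409 (by decide +kernel)) <|
  AllL.cons (i := 4) (j := 10) (k := 21) (OkB.mk ⟨15, 13, 20, 63, 72, 103, 15⟩ ⟨9, 8, 12, 52, 82, 103, 7⟩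
    15 12 27 28 (-13) (-15) 69710291194009878529 (by decide +kernel)) <|
  AllL.cons (i := 4) (j := 10) (k := 22) (OkB.mk ⟨15, 13, 21, 63, 72, 103, 15⟩ ⟨9, 8, 12, 52, 82, 103, 7⟩
    15 16 29 32 (-12) (-16) 62892005597720346625 (by decide +kernel)) <|
  AllL.cons (i := 4) (j := 11) (k := 11) (OkB.mk ⟨15, 16, 16, 63, 72, 103, 16⟩ ⟨8, 9, 9, 52, 82, 103, 7⟩
    16 (-14) 10 14 4 (-15) 65105045152625328129 (by decide +kernel)) <|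
  AllL.cons (i := 4) (j := 11) (k := 12) (OkB.mk ⟨15, 15, 16, 63, 72, 103, 16⟩ ⟨8, 8, 8, 52, 82, 103, 7⟩
    17 (-12) 11 13 4 (-14) 61332658278560169985 (by decide +kernel)) <|
  AllL.nil

end Pool.Agent.MP_48470b_gt.Run
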