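import Pool.Agent.MP_48470b_gt.Run.OkB
import Pool.Agent.MP_48470b_gt.Run.F28

/-! Runs of the tests. -/

namespace Pool.Agent.MP_48470b_gt.Run

/-- the boxes of this part -/
def b56l : List (Nat × Nat × Nat) :=
  [(4, 11, 13), (4, 11, 14), (4, 11, 15), (4, 11, 16), (4, 11, 17), (4, 11, 18), (4, 11, 19), (4, 11, 20), (4, 11, 21), (4, 11, 22), (4, 12, 12), (4, 12, 13), (4, 12, 14), (4, 12, 15), (4, 12, 16), (4, 12, 17), (4, 12, 18), (4, 12, 19), (4, 12, 20), (4, 12, 21), (4, 12, 22), (4, 13, 13), (4, 13, 14), (4, 13, 15), (4, 13, 16), (4, 13, 17), (4, 13, 18), (4, 13, 19), (4, 13, 20), (4, 13, 21)]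

theorem b56 : AllL OkB b56l :=
  AllL.cons (i := 4) (j := 11) (k := 13) (OkB.mk ⟨15, 14, 16, 63, 72, 103, 16⟩ ⟨8, 8, 8, 52, 82, 103, 7⟩
    17 (-10) 13 13 4 (-13) 64744458802467700737 (by decide +kernel)) <|
  AllL.cons (i := 4) (j := 11) (k := 14) (OkB.mk ⟨15, 14, 16, 63, 72, 103, 15⟩ ⟨8, 8, 8, 52, 82, 103, 7⟩
    17 (-9) 15 14 3 (-12) 58535272686274215937 (by decide +kernel)) <|
  AllL.cons (i := 4) (j := 11) (k := 15) (OkB.mk ⟨15, 14, 16, 63, 72, 103, 15⟩ ⟨9, 8, 8, 52, 82, 103, 7⟩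
    17 (-7) 16 15 3 (-11) 60836928068014571521 (by decide +kernel)) <|
  AllL.cons (i := 4) (j := 11) (k := 16) (OkB.mk ⟨14, 14, 17, 63, 72, 103, 15⟩ ⟨9, 7, 9, 52, 82, 103, 7⟩
    17 (-5) 18 16 1 (-11) 78533858812772745217 (by decide +kernel)) <|
  AllL.cons (i := 4) (j := 11) (k := 17) (OkB.mk ⟨15, 13, 17, 63, 72, 103, 15⟩ ⟨9, 7, 10, 52, 82, 103, 7⟩
    16 (-2) 20 17 0 (-11) 77907015826344509441 (by decide +kernel)) <|
  AllL.cons (i := 4) (j := 11) (k := 18) (OkB.mk ⟨15, 13, 17, 63, 72, 103, 15⟩ ⟨9, 7, 10, 52, 82, 103, 7⟩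
    16 1 21 18 (-1) (-11) 76297311836704866305 (by decide +kernel)) <|
  AllL.cons (i := 4) (j := 11) (k := 19) (OkB.mk ⟨15, 13, 17, 63, 72, 103, 15⟩ ⟨8, 8, 10, 52, 82, 103, 7⟩
    16 4 22 19 (-4) (-11) 70484597106542641153 (by decide +kernel)) <|
  AllL.cons (i := 4) (j := 11) (k := 20) (OkB.mk ⟨15, 13, 17, 63, 72, 103, 15⟩ ⟨8, 8, 10, 52, 82, 103, 7⟩
    16 8 23 20 (-5) (-12) 73570309694564597761 (by decide +kernel)) <|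
  AllL.cons (i := 4) (j := 11) (k := 21) (OkB.mk ⟨14, 13, 18, 63, 72, 103, 15⟩ ⟨8, 8, 10, 52, 82, 103, 7⟩
    16 11 23 23 (-9) (-13) 71707148208635379713 (by decide +kernel)) <|
  AllL.cons (i := 4) (j := 11) (k := 22) (OkB.mk ⟨15, 12, 18, 63, 72, 103, 15⟩ ⟨9, 8, 10, 52, 82, 103, 7⟩
    16 14 24 26 (-12) (-14) 72528926085453185025 (by decide +kernel)) <|
  AllL.cons (i := 4) (j := 12) (k := 12) (OkB.mk ⟨15, 15, 15, 63, 72, 103, 16⟩ ⟨8, 8, 8, 52, 82, 103, 7⟩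
    18 (-12) 9 12 4 (-13) 63798184598426353665 (by decide +kernel)) <|
  AllL.cons (i := 4) (j := 12) (k := 13) (OkB.mk ⟨14, 15, 15, 63, 72, 103, 16⟩ ⟨8, 8, 8, 52, 82, 103, 7⟩
    18 (-10) 10 12 4 (-12) 79143759561967534081 (by decide +kernel)) <|
  AllL.cons (i := 4) (j := 12) (k := 14) (OkB.mk ⟨14, 14, 16, 63, 72, 103, 16⟩ ⟨8, 8, 8, 52, 82, 103, 7⟩
    18 (-9) 12 12 3 (-11) 72022209417283895297 (by decide +kernel)) <|
  AllL.cons (i := 4) (j := 12) (k := 15) (OkB.mk ⟨14, 14, 16, 63, 72, 103, 16⟩ ⟨8, 8, 8, 52, 82, 103, 7⟩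
    18 (-7) 13 13 3 (-10) 67806263197338435585 (by decide +kernel)) <|
  AllL.cons (i := 4) (j := 12) (k := 16) (OkB.mk ⟨14, 14, 16, 63, 72, 103, 16⟩ ⟨8, 8, 8, 52, 82, 103, 7⟩
    18 (-5) 15 14 2 (-10) 66245097973140684801 (by decide +kernel)) <|
  AllL.cons (i := 4) (j := 12) (k := 17) (OkB.mk ⟨14, 13, 16, 63, 72, 103, 16⟩ ⟨8, 7, 9, 52, 82, 103, 7⟩
    17 (-3) 16 14 0 (-10) 80975150521973211137 (by decide +kernel)) <|
  AllL.cons (i := 4) (j := 12) (k := 18) (OkB.mk ⟨14, 13, 16, 63, 72, 103, 15⟩ ⟨8, 7, 9, 52, 82, 103, 7⟩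
    17 0 17 15 (-1) (-9) 79327610550515400705 (by decide +kernel)) <|
  AllL.cons (i := 4) (j := 12) (k := 19) (OkB.mk ⟨14, 13, 16, 63, 72, 103, 15⟩ ⟨8, 8, 9, 52, 82, 103, 7⟩
    17 3 18 16 (-3) (-10) 79851978640918052865 (by decide +kernel)) <|
  AllL.cons (i := 4) (j := 12) (k := 20) (OkB.mk ⟨14, 13, 16, 63, 72, 103, 15⟩ ⟨8, 8, 9, 52, 82, 103, 7⟩
    17 6 19 17 (-5) (-10) 77830624644664655873 (by decide +kernel)) <|
  AllL.cons (i := 4) (j := 12) (k := 21) (OkB.mk ⟨14, 13, 16, 63, 72, 103, 15⟩ ⟨8, 8, 9, 52, 82, 103, 7⟩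
    17 9 19 20 (-9) (-11) 79057813624242307073 (by decide +kernel)) <|
  AllL.cons (i := 4) (j := 12) (k := 22) (OkB.mk ⟨14, 12, 17, 63, 72, 103, 15⟩ ⟨8, 8, 9, 52, 82, 103, 7⟩
    17 12 19 22 (-11) (-11) 72390679403251630081 (by decide +kernel)) <|
  AllL.cons (i := 4) (j := 13) (k := 13) (OkB.mk ⟨14, 15, 15, 63, 72, 103, 16⟩ ⟨7, 8, 8, 52, 82, 103, 7⟩
    18 (-11) 8 11 3 (-12) 67049113377050722305 (by decide +kernel)) <|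
  AllL.cons (i := 4) (j := 13) (k := 14) (OkB.mk ⟨14, 14, 16, 63, 72, 103, 16⟩ ⟨7, 8, 8, 52, 82, 103, 7⟩
    18 (-9) 9 11 3 (-11) 77695487656224358401 (by decide +kernel)) <|
  AllL.cons (i := 4) (j := 13) (k := 15) (OkB.mk ⟨14, 14, 15, 63, 72, 103, 16⟩ ⟨7, 8, 8, 52, 82, 103, 7⟩
    18 (-7) 10 12 3 (-10) 78001355298397224961 (by decide +kernel)) <|
  AllL.cons (i := 4) (j := 13) (k := 16) (OkB.mk ⟨14, 14, 15, 63, 72, 103, 16⟩ ⟨7, 8, 8, 52, 82, 103, 7⟩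
    18 (-5) 12 12 2 (-10) 78031081694765776897 (by decide +kernel)) <|
  AllL.cons (i := 4) (j := 13) (k := 17) (OkB.mk ⟨14, 13, 16, 63, 72, 103, 16⟩ ⟨8, 7, 8, 52, 82, 103, 7⟩
    18 (-3) 13 13 1 (-9) 81748286829011927041 (by decide +kernel)) <|
  AllL.cons (i := 4) (j := 13) (k := 18) (OkB.mk ⟨14, 13, 15, 63, 72, 103, 16⟩ ⟨8, 8, 8, 52, 82, 103, 7⟩
    18 (-1) 14 13 (-1) (-9) 92119076627581763585 (by decide +kernel)) <|
  AllL.cons (i := 4) (j := 13) (k := 19) (OkB.mk ⟨14, 13, 15, 63, 72, 103, 16⟩ ⟨8, 8, 8, 52, 82, 103, 7⟩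
    18 2 15 14 (-2) (-9) 94263794454082093057 (by decide +kernel)) <|
  AllL.cons (i := 4) (j := 13) (k := 20) (OkB.mk ⟨14, 13, 15, 63, 72, 103, 15⟩ ⟨8, 8, 8, 52, 82, 103, 7⟩
    18 5 15 15 (-4) (-9) 92377469419251564545 (by decide +kernel)) <|
  AllL.cons (i := 4) (j := 13) (k := 21) (OkB.mk ⟨13, 13, 16, 63, 72, 103, 15⟩ ⟨8, 7, 9, 52, 82, 103, 7⟩
    18 7 15 17 (-7) (-10) 85488178461551886337 (by decide +kernel)) <|
  AllL.nil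

end Pool.Agent.MP_48470b_gt.Run
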