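import Pool.Agent.MP_48470b_gt.Run.OkB
import Pool.Agent.MP_48470b_gt.Run.B56

/-! Runs of the tests. -/

namespace Pool.Agent.MP_48470b_gt.Run

/-- the boxes of this part -/
def b57l : List (Nat × Nat × Nat) :=
  [(4, 13, 22), (4, 14, 14), (4, 14, 15), (4, 14, 16), (4, 14, 17), (4, 14, 18), (4, 14, 19), (4, 14, 20), (4, 14, 21), (4, 14, 22), (4, 15, 15), (4, 15, 16), (4, 15, 17), (4, 15, 18), (4, 15, 19), (4, 15, 20), (4, 15, 21), (4, 15, 22), (4, 16, 16), (4, 16, 17), (4, 16, 18), (4, 16, 19), (4, 16, 20), (4, 16, 21), (4, 16, 22), (4, 17, 17), (4, 17, 18), (4, 17, 19), (4, 17, 20), (4, 17, 21), (4, 17, 22), (4, 18, 18)]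

theorem b57 : AllL OkB b57l :=
  AllL.cons (i := 4) (j := 13) (k := 22) (OkB.mk ⟨14, 12, 16, 63, 72, 103, 15⟩ ⟨8, 7, 9, 52, 82, 103, 7⟩
    18 10 16 19 (-10) (-10) 79486476511711592449 (by decide +kernel)) <|
  AllL.cons (i := 4) (j := 14) (k := 14) (OkB.mk ⟨14, 15, 15, 63, 72, 103, 16⟩ ⟨7, 8, 8, 52, 82, 103, 7⟩
    18 (-9) 7 11 3 (-11) 66908077371288453121 (by decide +kernel)) <|
  AllL.cons (i := 4) (j := 14) (k := 15) (OkB.mk ⟨14, 14, 15, 63, 72, 103, 16⟩ ⟨7, 8, 8, 52, 82, 103, 7⟩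
    18 (-7) 8 11 3 (-10) 86610954243543138305 (by decide +kernel)) <|
  AllL.cons (i := 4) (j := 14) (k := 16) (OkB.mk ⟨14, 14, 15, 63, 72, 103, 16⟩ ⟨7, 8, 8, 52, 82, 103, 7⟩
    18 (-6) 9 11 2 (-10) 81857159096004771841 (by decide +kernel)) <|
  AllL.cons (i := 4) (j := 14) (k := 17) (OkB.mk ⟨13, 14, 16, 63, 72, 103, 16⟩ ⟨7, 8, 8, 52, 82, 103, 7⟩
    18 (-4) 10 11 1 (-9) 107196172704413646849 (by decide +kernel)) <|
  AllL.cons (i := 4) (j := 14) (k := 18) (OkB.mk ⟨14, 13, 15, 63, 72, 103, 16⟩ ⟨7, 8, 8, 52, 82, 103, 7⟩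
    18 (-2) 11 12 0 (-9) 108264519087417196545 (by decide +kernel)) <|
  AllL.cons (i := 4) (j := 14) (k := 19) (OkB.mk ⟨13, 14, 15, 63, 72, 103, 16⟩ ⟨7, 8, 8, 52, 82, 103, 7⟩
    18 1 12 13 (-2) (-9) 106303243643456061441 (by decide +kernel)) <|
  AllL.cons (i := 4) (j := 14) (k := 20) (OkB.mk ⟨13, 14, 15, 63, 72, 103, 16⟩ ⟨8, 8, 8, 52, 82, 103, 7⟩
    19 3 12 13 (-4) (-9) 104034021380833935361 (by decide +kernel)) <|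
  AllL.cons (i := 4) (j := 14) (k := 21) (OkB.mk ⟨13, 13, 15, 63, 72, 103, 16⟩ ⟨8, 8, 8, 52, 82, 103, 7⟩
    19 6 12 15 (-6) (-9) 105102953528657182721 (by decide +kernel)) <|
  AllL.cons (i := 4) (j := 14) (k := 22) (OkB.mk ⟨13, 13, 15, 63, 72, 103, 16⟩ ⟨8, 8, 8, 52, 82, 103, 7⟩
    19 8 12 17 (-9) (-10) 86823577939561414657 (by decide +kernel)) <|
  AllL.cons (i := 4) (j := 15) (k := 15) (OkB.mk ⟨14, 15, 14, 63, 72, 103, 16⟩ ⟨7, 8, 8, 52, 82, 103, 7⟩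
    18 (-8) 6 10 2 (-10) 96410581973782757377 (by decide +kernel)) <|
  AllL.cons (i := 4) (j := 15) (k := 16) (OkB.mk ⟨13, 15, 15, 63, 72, 103, 16⟩ ⟨7, 7, 8, 52, 82, 103, 7⟩
    18 (-6) 7 10 2 (-10) 116259228936552054785 (by decide +kernel)) <|
  AllL.cons (i := 4) (j := 15) (k := 17) (OkB.mk ⟨13, 14, 15, 63, 72, 103, 16⟩ ⟨7, 7, 8, 52, 82, 103, 7⟩
    18 (-4) 8 10 1 (-9) 119481447130112983041 (by decide +kernel)) <|
  AllL.cons (i := 4) (j := 15) (k := 18) (OkB.mk ⟨13, 14, 15, 63, 72, 103, 16⟩ ⟨7, 8, 8, 52, 82, 103, 7⟩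
    19 (-2) 9 11 0 (-9) 113114778375790002177 (by decide +kernel)) <|
  AllL.cons (i := 4) (j := 15) (k := 19) (OkB.mk ⟨13, 14, 15, 63, 72, 103, 16⟩ ⟨7, 8, 8, 52, 82, 103, 7⟩
    19 0 9 11 (-1) (-8) 114439737303699030017 (by decide +kernel)) <|
  AllL.cons (i := 4) (j := 15) (k := 20) (OkB.mk ⟨13, 14, 15, 63, 72, 103, 16⟩ ⟨7, 8, 8, 52, 82, 103, 7⟩
    19 2 10 12 (-3) (-8) 114023130973545168897 (by decide +kernel)) <|
  AllL.cons (i := 4) (j := 15) (k := 21) (OkB.mk ⟨13, 13, 16, 63, 72, 103, 16⟩ ⟨7, 8, 8, 52, 82, 103, 7⟩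
    19 4 10 13 (-5) (-9) 122164824224275890177 (by decide +kernel)) <|
  AllL.cons (i := 4) (j := 15) (k := 22) (OkB.mk ⟨13, 13, 15, 63, 72, 103, 16⟩ ⟨7, 8, 8, 52, 82, 103, 7⟩
    20 6 10 15 (-8) (-9) 95684933573947686913 (by decide +kernel)) <|
  AllL.cons (i := 4) (j := 16) (k := 16) (OkB.mk ⟨13, 15, 15, 63, 72, 103, 16⟩ ⟨7, 7, 8, 52, 82, 103, 7⟩
    18 (-6) 5 10 2 (-10) 111553590474164928513 (by decide +kernel)) <|
  AllL.cons (i := 4) (j := 16) (k := 17) (OkB.mk ⟨13, 14, 15, 63, 72, 103, 16⟩ ⟨7, 7, 8, 52, 82, 103, 7⟩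
    19 (-5) 6 10 1 (-9) 118892895873072627713 (by decide +kernel)) <|
  AllL.cons (i := 4) (j := 16) (k := 18) (OkB.mk ⟨13, 14, 15, 63, 72, 103, 16⟩ ⟨7, 8, 8, 52, 82, 103, 7⟩
    19 (-3) 7 10 0 (-8) 119754269362629902337 (by decide +kernel)) <|
  AllL.cons (i := 4) (j := 16) (k := 19) (OkB.mk ⟨13, 14, 15, 63, 72, 103, 16⟩ ⟨7, 8, 8, 52, 82, 103, 7⟩
    19 (-1) 7 11 (-1) (-8) 124190910793453142017 (by decide +kernel)) <|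
  AllL.cons (i := 4) (j := 16) (k := 20) (OkB.mk ⟨13, 14, 15, 63, 72, 103, 16⟩ ⟨7, 8, 8, 52, 82, 103, 7⟩
    19 1 8 11 (-3) (-8) 128621571430777094145 (by decide +kernel)) <|
  AllL.cons (i := 4) (j := 16) (k := 21) (OkB.mk ⟨13, 14, 15, 63, 72, 103, 16⟩ ⟨7, 8, 8, 52, 82, 103, 7⟩
    20 3 8 12 (-5) (-8) 111612687025134632961 (by decide +kernel)) <|
  AllL.cons (i := 4) (j := 16) (k := 22) (OkB.mk ⟨13, 13, 15, 63, 72, 103, 16⟩ ⟨7, 8, 8, 52, 82, 103, 7⟩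
    20 5 8 13 (-7) (-9) 110234858218042949633 (by decide +kernel)) <|
  AllL.cons (i := 4) (j := 17) (k := 17) (OkB.mk ⟨13, 14, 14, 63, 72, 103, 16⟩ ⟨7, 8, 8, 52, 82, 103, 7⟩
    19 (-5) 4 9 1 (-9) 126182855877320507393 (by decide +kernel)) <|
  AllL.cons (i := 4) (j := 17) (k := 18) (OkB.mk ⟨13, 14, 14, 63, 72, 103, 16⟩ ⟨7, 8, 8, 52, 82, 103, 7⟩
    19 (-3) 5 9 0 (-8) 132104295814795362305 (by decide +kernel)) <|
  AllL.cons (i := 4) (j := 17) (k := 19) (OkB.mk ⟨13, 14, 14, 63, 72, 103, 16⟩ ⟨7, 8, 8, 52, 82, 103, 7⟩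
    19 (-1) 5 10 (-1) (-8) 144958621933694353409 (by decide +kernel)) <|
  AllL.cons (i := 4) (j := 17) (k := 20) (OkB.mk ⟨13, 14, 14, 63, 72, 103, 16⟩ ⟨7, 8, 8, 52, 82, 103, 7⟩
    20 1 6 10 (-2) (-8) 165680856585815982081 (by decide +kernel)) <|
  AllL.cons (i := 4) (j := 17) (k := 21) (OkB.mk ⟨13, 14, 14, 63, 72, 103, 16⟩ ⟨7, 8, 8, 52, 82, 103, 7⟩
    20 2 6 11 (-4) (-8) 149554386061678870529 (by decide +kernel)) <|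
  AllL.cons (i := 4) (j := 17) (k := 22) (OkB.mk ⟨13, 13, 14, 63, 72, 103, 16⟩ ⟨7, 8, 8, 52, 82, 103, 7⟩
    21 4 6 12 (-6) (-9) 164038936905482502145 (by decide +kernel)) <|
  AllL.cons (i := 4) (j := 18) (k := 18) (OkB.mk ⟨13, 14, 14, 63, 72, 103, 16⟩ ⟨7, 8, 8, 52, 82, 103, 7⟩
    19 (-3) 3 9 0 (-9) 143989728439007444993 (by decide +kernel)) <|
  AllL.nil

end Pool.Agent.MP_48470b_gt.Run
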