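import Pool.Agent.MP_48470b_gt.Run.OkB
import Pool.Agent.MP_48470b_gt.Run.F29

/-! Runs of the tests. -/

namespace Pool.Agent.MP_48470b_gt.Run

/-- the boxes of this part -/
def b58l : List (Nat × Nat × Nat) :=
  [(4, 18, 19), (4, 18, 20), (4, 18, 21), (4, 18, 22), (4, 19, 19), (4, 19, 20), (4, 19, 21), (4, 19, 22), (4, 20, 20), (4, 20, 21), (4, 20, 22), (4, 21, 21), (4, 21, 22), (4, 22, 22), (5, 5, 5), (5, 5, 6), (5, 5, 7), (5, 5, 8), (5, 5, 9), (5, 5, 10), (5, 5, 11), (5, 5, 12), (5, 5, 13), (5, 5, 14), (5, 5, 15), (5, 5, 16)]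

theorem b58 : AllL OkB b58l :=
  AllL.cons (i := 4) (j := 18) (k := 19) (OkB.mk ⟨13, 14, 14, 63, 72, 103, 15⟩ ⟨7, 8, 8, 52, 82, 103, 7⟩
    20 (-2) 4 9 (-1) (-8) 177147094079746605057 (by decide +kernel)) <|
  AllL.cons (i := 4) (j := 18) (k := 20) (OkB.mk ⟨13, 14, 15, 63, 72, 103, 15⟩ ⟨7, 8, 8, 52, 82, 103, 7⟩
    20 0 4 9 (-2) (-8) 214762392919102980097 (by decide +kernel)) <|
  AllL.cons (i := 4) (j := 18) (k := 21) (OkB.mk ⟨13, 14, 14, 63, 72, 103, 15⟩ ⟨7, 8, 8, 52, 82, 103, 7⟩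
    21 2 4 10 (-4) (-8) 187124010363383709697 (by decide +kernel)) <|
  AllL.cons (i := 4) (j := 18) (k := 22) (OkB.mk ⟨13, 14, 14, 63, 72, 103, 15⟩ ⟨7, 8, 8, 52, 82, 103, 7⟩
    21 3 4 12 (-6) (-9) 143441264276404174849 (by decide +kernel)) <|
  AllL.cons (i := 4) (j := 19) (k := 19) (OkB.mk ⟨13, 14, 14, 63, 72, 103, 15⟩ ⟨7, 8, 8, 52, 82, 103, 7⟩
    20 (-2) 2 9 (-2) (-9) 229139796217340887041 (by decide +kernel)) <|
  AllL.cons (i := 4) (j := 19) (k := 20) (OkB.mk ⟨13, 15, 14, 63, 72, 103, 15⟩ ⟨8, 8, 8, 52, 82, 103, 7⟩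
    21 (-1) 3 9 (-2) (-8) 222409062670386855937 (by decide +kernel)) <|
  AllL.cons (i := 4) (j := 19) (k := 21) (OkB.mk ⟨13, 14, 15, 63, 72, 103, 15⟩ ⟨8, 8, 8, 52, 82, 103, 7⟩
    21 1 3 10 (-4) (-9) 234121940138759028737 (by decide +kernel)) <|
  AllL.cons (i := 4) (j := 19) (k := 22) (OkB.mk ⟨13, 14, 14, 63, 72, 103, 15⟩ ⟨7, 8, 8, 52, 82, 103, 7⟩
    21 2 3 11 (-6) (-9) 193534155594175348737 (by decide +kernel)) <|
  AllL.cons (i := 4) (j := 20) (k := 20) (OkB.mk ⟨13, 15, 15, 63, 72, 103, 15⟩ ⟨7, 8, 9, 52, 82, 103, 7⟩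
    21 (-1) 1 9 (-3) (-9) 219814578479989522433 (by decide +kernel)) <|
  AllL.cons (i := 4) (j := 20) (k := 21) (OkB.mk ⟨13, 15, 15, 63, 72, 103, 15⟩ ⟨7, 8, 9, 52, 82, 103, 7⟩
    21 0 2 10 (-4) (-9) 223070577931363287041 (by decide +kernel)) <|
  AllL.cons (i := 4) (j := 20) (k := 22) (OkB.mk ⟨13, 14, 15, 63, 72, 103, 15⟩ ⟨7, 8, 9, 52, 82, 103, 7⟩
    22 1 2 11 (-5) (-9) 231148583895200432129 (by decide +kernel)) <|
  AllL.cons (i := 4) (j := 21) (k := 21) (OkB.mk ⟨13, 15, 15, 63, 72, 103, 15⟩ ⟨7, 8, 9, 52, 82, 103, 7⟩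
    22 0 0 9 (-4) (-10) 240145248041840934913 (by decide +kernel)) <|
  AllL.cons (i := 4) (j := 21) (k := 22) (OkB.mk ⟨13, 14, 15, 63, 72, 103, 15⟩ ⟨7, 8, 9, 52, 82, 103, 7⟩
    22 1 0 10 (-5) (-10) 294373395857168924673 (by decide +kernel)) <|
  AllL.cons (i := 4) (j := 22) (k := 22) (OkB.mk ⟨13, 14, 15, 63, 72, 103, 15⟩ ⟨7, 8, 9, 52, 82, 103, 7⟩
    23 0 0 10 (-6) (-12) 307256327008015089665 (by decide +kernel)) <|
  AllL.cons (i := 5) (j := 5) (k := 5) (OkB.mk ⟨18, 18, 20, 63, 72, 103, 15⟩ ⟨11, 11, 12, 52, 82, 103, 7⟩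
    20 (-22) 14 29 13 (-33) 112646259566203371521 (by decide +kernel)) <|
  AllL.cons (i := 5) (j := 5) (k := 6) (OkB.mk ⟨18, 17, 18, 63, 72, 103, 15⟩ ⟨11, 13, 11, 52, 82, 103, 7⟩
    18 (-20) 10 32 16 (-28) 98093393728503808001 (by decide +kernel)) <|
  AllL.cons (i := 5) (j := 5) (k := 7) (OkB.mk ⟨18, 16, 18, 63, 72, 103, 14⟩ ⟨11, 13, 11, 52, 82, 103, 7⟩
    16 (-18) 9 35 19 (-26) 99714145610979344385 (by decide +kernel)) <|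
  AllL.cons (i := 5) (j := 5) (k := 8) (OkB.mk ⟨17, 16, 19, 63, 72, 103, 14⟩ ⟨11, 11, 11, 52, 82, 103, 7⟩
    15 (-16) 8 39 22 (-23) 93676900023625842689 (by decide +kernel)) <|
  AllL.cons (i := 5) (j := 5) (k := 9) (OkB.mk ⟨17, 16, 17, 63, 72, 103, 14⟩ ⟨10, 10, 11, 52, 82, 103, 7⟩
    13 (-15) 10 41 18 (-22) 90502866140445802497 (by decide +kernel)) <|
  AllL.cons (i := 5) (j := 5) (k := 10) (OkB.mk ⟨16, 16, 17, 63, 72, 103, 14⟩ ⟨10, 10, 10, 52, 82, 103, 7⟩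
    13 (-13) 11 42 16 (-21) 89495836497266343937 (by decide +kernel)) <|
  AllL.cons (i := 5) (j := 5) (k := 11) (OkB.mk ⟨17, 15, 17, 63, 72, 103, 14⟩ ⟨10, 9, 10, 52, 82, 103, 7⟩
    12 (-11) 12 42 13 (-20) 72129886790015254529 (by decide +kernel)) <|
  AllL.cons (i := 5) (j := 5) (k := 12) (OkB.mk ⟨17, 15, 18, 63, 72, 103, 14⟩ ⟨10, 9, 10, 52, 82, 103, 7⟩
    11 (-9) 14 41 11 (-20) 71517974759175356417 (by decide +kernel)) <|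
  AllL.cons (i := 5) (j := 5) (k := 13) (OkB.mk ⟨17, 15, 18, 63, 72, 103, 14⟩ ⟨10, 9, 11, 52, 82, 103, 7⟩
    10 (-7) 16 44 7 (-20) 80877396379121483777 (by decide +kernel)) <|
  AllL.cons (i := 5) (j := 5) (k := 14) (OkB.mk ⟨18, 15, 18, 63, 72, 103, 14⟩ ⟨10, 10, 11, 52, 82, 103, 7⟩
    10 (-4) 17 48 8 (-20) 71036108977939152897 (by decide +kernel)) <|
  AllL.cons (i := 5) (j := 5) (k := 15) (OkB.mk ⟨18, 15, 18, 63, 72, 103, 14⟩ ⟨11, 9, 11, 52, 82, 103, 7⟩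
    10 (-2) 18 52 (-1) (-21) 80129673771530321921 (by decide +kernel)) <|
  AllL.cons (i := 5) (j := 5) (k := 16) (OkB.mk ⟨18, 15, 18, 63, 72, 103, 14⟩ ⟨11, 9, 11, 52, 82, 103, 7⟩
    9 1 19 56 2 (-21) 86929286499284287489 (by decide +kernel)) <|
  AllL.nil

end Pool.Agent.MP_48470b_gt.Run
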