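import Pool.Agent.MP_48470b_gt.Run.OkB
import Pool.Agent.MP_48470b_gt.Run.B58

/-! Runs of the tests. -/

namespace Pool.Agent.MP_48470b_gt.Run

/-- the boxes of this part -/
def b59l : List (Nat × Nat × Nat) :=
  [(5, 5, 17), (5, 5, 18), (5, 5, 19), (5, 5, 20), (5, 5, 21), (5, 5, 22), (5, 6, 6), (5, 6, 7), (5, 6, 8), (5, 6, 9), (5, 6, 10), (5, 6, 11), (5, 6, 12), (5, 6, 13), (5, 6, 14), (5, 6, 15), (5, 6, 16), (5, 6, 17), (5, 6, 18), (5, 6, 19), (5, 6, 20)]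

theorem b59 : AllL OkB b59l :=
  AllL.cons (i := 5) (j := 5) (k := 17) (OkB.mk ⟨18, 14, 19, 63, 72, 103, 14⟩ ⟨11, 9, 11, 52, 82, 103, 7⟩
    9 3 19 60 (-7) (-21) 82229660303916793857 (by decide +kernel)) <|
  AllL.cons (i := 5) (j := 5) (k := 18) (OkB.mk ⟨18, 14, 19, 63, 72, 103, 14⟩ ⟨11, 9, 11, 52, 82, 103, 7⟩
    9 6 19 64 (-3) (-22) 79187418557366403073 (by decide +kernel)) <|
  AllL.cons (i := 5) (j := 5) (k := 19) (OkB.mk ⟨18, 14, 19, 63, 72, 103, 14⟩ ⟨11, 9, 11, 52, 82, 103, 7⟩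
    9 8 18 68 (-17) (-22) 77033728578544467969 (by decide +kernel)) <|
  AllL.cons (i := 5) (j := 5) (k := 20) (OkB.mk ⟨18, 14, 18, 63, 72, 103, 13⟩ ⟨11, 9, 12, 52, 82, 103, 7⟩
    10 11 16 74 (-27) (-22) 81752582620941647873 (by decide +kernel)) <|
  AllL.cons (i := 5) (j := 5) (k := 21) (OkB.mk ⟨18, 14, 18, 63, 72, 103, 13⟩ ⟨11, 9, 11, 52, 82, 103, 7⟩
    10 15 15 86 (-26) (-22) 65253762346619240449 (by decide +kernel)) <|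
  AllL.cons (i := 5) (j := 5) (k := 22) (OkB.mk ⟨18, 13, 18, 63, 72, 103, 13⟩ ⟨11, 9, 11, 52, 82, 103, 7⟩
    10 18 12 100 (-43) (-23) 71420102693701550081 (by decide +kernel)) <|
  AllL.cons (i := 5) (j := 6) (k := 6) (OkB.mk ⟨18, 16, 17, 63, 72, 103, 15⟩ ⟨11, 11, 10, 52, 82, 103, 7⟩
    16 (-16) 10 27 15 (-30) 95464363157639659521 (by decide +kernel)) <|
  AllL.cons (i := 5) (j := 6) (k := 7) (OkB.mk ⟨17, 16, 16, 63, 72, 103, 15⟩ ⟨10, 10, 10, 52, 82, 103, 7⟩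
    14 (-15) 9 29 15 (-26) 87661518499868573697 (by decide +kernel)) <|
  AllL.cons (i := 5) (j := 6) (k := 8) (OkB.mk ⟨16, 16, 18, 63, 72, 103, 15⟩ ⟨10, 10, 10, 52, 82, 103, 7⟩
    13 (-14) 9 31 15 (-23) 87119443324456402945 (by decide +kernel)) <|
  AllL.cons (i := 5) (j := 6) (k := 9) (OkB.mk ⟨17, 15, 18, 63, 72, 103, 15⟩ ⟨10, 9, 10, 52, 82, 103, 7⟩
    13 (-13) 10 32 13 (-22) 78722394545488658433 (by decide +kernel)) <|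
  AllL.cons (i := 5) (j := 6) (k := 10) (OkB.mk ⟨17, 15, 17, 63, 72, 103, 15⟩ ⟨9, 9, 11, 52, 82, 103, 7⟩
    12 (-12) 12 33 11 (-20) 70443690601064955905 (by decide +kernel)) <|
  AllL.cons (i := 5) (j := 6) (k := 11) (OkB.mk ⟨17, 15, 17, 63, 72, 103, 15⟩ ⟨9, 9, 10, 52, 82, 103, 7⟩
    12 (-10) 13 33 12 (-20) 70710043032286134273 (by decide +kernel)) <|
  AllL.cons (i := 5) (j := 6) (k := 12) (OkB.mk ⟨17, 15, 18, 63, 72, 103, 15⟩ ⟨10, 9, 10, 52, 82, 103, 7⟩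
    11 (-9) 16 32 8 (-20) 69580820401304371201 (by decide +kernel)) <|
  AllL.cons (i := 5) (j := 6) (k := 13) (OkB.mk ⟨17, 15, 19, 63, 72, 103, 15⟩ ⟨10, 9, 11, 52, 82, 103, 7⟩
    11 (-7) 18 34 8 (-20) 74281795834878099457 (by decide +kernel)) <|
  AllL.cons (i := 5) (j := 6) (k := 14) (OkB.mk ⟨18, 15, 19, 63, 72, 103, 15⟩ ⟨10, 9, 12, 52, 82, 103, 7⟩
    10 (-5) 20 37 6 (-20) 71737942643111362561 (by decide +kernel)) <|
  AllL.cons (i := 5) (j := 6) (k := 15) (OkB.mk ⟨18, 15, 20, 63, 72, 103, 14⟩ ⟨11, 9, 12, 52, 82, 103, 7⟩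
    10 (-3) 22 40 0 (-21) 72001308800751501313 (by decide +kernel)) <|
  AllL.cons (i := 5) (j := 6) (k := 16) (OkB.mk ⟨19, 14, 21, 63, 72, 103, 14⟩ ⟨11, 9, 12, 52, 82, 103, 7⟩
    10 0 23 43 4 (-21) 75236856786092818433 (by decide +kernel)) <|
  AllL.cons (i := 5) (j := 6) (k := 17) (OkB.mk ⟨19, 14, 21, 63, 72, 103, 14⟩ ⟨11, 9, 13, 52, 82, 103, 7⟩
    9 2 24 46 (-4) (-22) 69893800921636274177 (by decide +kernel)) <|
  AllL.cons (i := 5) (j := 6) (k := 18) (OkB.mk ⟨19, 14, 21, 63, 72, 103, 14⟩ ⟨11, 9, 13, 52, 82, 103, 7⟩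
    9 5 25 49 0 (-23) 72686103334228066305 (by decide +kernel)) <|
  AllL.cons (i := 5) (j := 6) (k := 19) (OkB.mk ⟨19, 14, 21, 63, 72, 103, 14⟩ ⟨12, 9, 12, 52, 82, 103, 7⟩
    9 7 24 52 (-13) (-23) 75916144003264806913 (by decide +kernel)) <|
  AllL.cons (i := 5) (j := 6) (k := 20) (OkB.mk ⟨19, 15, 20, 63, 72, 103, 14⟩ ⟨12, 9, 12, 52, 82, 103, 7⟩
    10 10 23 56 (-18) (-23) 65540835624221671425 (by decide +kernel)) <|
  AllL.nil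

end Pool.Agent.MP_48470b_gt.Run
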