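import Pool.Agent.MP_48470b_gt.Run.OkF

/-! Runs of the tests. -/

namespace Pool.Agent.MP_48470b_gt.Run

/-- the boxes of this part -/
def f30l : List (Nat × Nat × Nat) :=
  [(5, 13, 14), (5, 13, 15), (5, 13, 16), (5, 13, 17), (5, 13, 18), (5, 13, 19), (5, 13, 20), (5, 13, 21), (5, 13, 22), (5, 14, 14), (5, 14, 15), (5, 14, 16), (5, 14, 17), (5, 14, 18), (5, 14, 19), (5, 14, 20), (5, 14, 21), (5, 14, 22), (5, 15, 15), (5, 15, 16), (5, 15, 17), (5, 15, 18), (5, 15, 19), (5, 15, 20), (5, 15, 21), (5, 15, 22), (5, 16, 16), (5, 16, 17), (5, 16, 18), (5, 16, 19), (5, 16, 20), (5, 16, 21), (5, 16, 22), (5, 17, 17), (5, 17, 18), (5, 17, 19), (5, 17, 20), (5, 17, 21), (5, 17, 22), (5, 18, 18), (5, 18, 19), (5, 18, 20), (5, 18, 21), (5, 18, 22), (5, 19, 19), (5, 19, 20), (5, 19, 21), (5, 19, 22), (5, 20, 20), (5, 20, 21), (5, 20, 22), (5, 21, 21), (5, 21, 22), (5, 22, 22), (6, 6, 6), (6, 6, 7), (6, 6, 8)]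

theorem f30 : AllL OkF f30l :=
  AllL.cons (i := 5) (j := 13) (k := 14) (OkF.mk (by decide +kernel)) <|
  AllL.cons (i := 5) (j := 13) (k := 15) (OkF.mk (by decide +kernel)) <|
  AllL.cons (i := 5) (j := 13) (k := 16) (OkF.mk (by decide +kernel)) <|
  AllL.cons (i := 5) (j := 13) (k := 17) (OkF.mk (by decide +kernel)) <|
  AllL.cons (i := 5) (j := 13) (k := 18) (OkF.mk (by decide +kernel)) <|
  AllL.cons (i := 5) (j := 13) (k := 19) (OkF.mk (by decide +kernel)) <|
  AllL.cons (i := 5) (j := 13) (k := 20) (OkF.mk (by decide +kernel)) <|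
  AllL.cons (i := 5) (j := 13) (k := 21) (OkF.mk (by decide +kernel)) <|
  AllL.cons (i := 5) (j := 13) (k := 22) (OkF.mk (by decide +kernel)) <|
  AllL.cons (i := 5) (j := 14) (k := 14) (OkF.mk (by decide +kernel)) <|
  AllL.cons (i := 5) (j := 14) (k := 15) (OkF.mk (by decide +kernel)) <|
  AllL.cons (i := 5) (j := 14) (k := 16) (OkF.mk (by decide +kernel)) <|
  AllL.cons (i := 5) (j := 14) (k := 17) (OkF.mk (by decide +kernel)) <|
  AllL.cons (i := 5) (j := 14) (k := 18) (OkF.mk (by decide +kernel)) <|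
  AllL.cons (i := 5) (j := 14) (k := 19) (OkF.mk (by decide +kernel)) <|
  AllL.cons (i := 5) (j := 14) (k := 20) (OkF.mk (by decide +kernel)) <|
  AllL.cons (i := 5) (j := 14) (k := 21) (OkF.mk (by decide +kernel)) <|
  AllL.cons (i := 5) (j := 14) (k := 22) (OkF.mk (by decide +kernel)) <|
  AllL.cons (i := 5) (j := 15) (k := 15) (OkF.mk (by decide +kernel)) <|
  AllL.cons (i := 5) (j := 15) (k := 16) (OkF.mk (by decide +kernel)) <|
  AllL.cons (i := 5) (j := 15) (k := 17) (OkF.mk (by decide +kernel)) <|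
  AllL.cons (i := 5) (j := 15) (k := 18) (OkF.mk (by decide +kernel)) <|
  AllL.cons (i := 5) (j := 15) (k := 19) (OkF.mk (by decide +kernel)) <|
  AllL.cons (i := 5) (j := 15) (k := 20) (OkF.mk (by decide +kernel)) <|
  AllL.cons (i := 5) (j := 15) (k := 21) (OkF.mk (by decide +kernel)) <|
  AllL.cons (i := 5) (j := 15) (k := 22) (OkF.mk (by decide +kernel)) <|
  AllL.cons (i := 5) (j := 16) (k := 16) (OkF.mk (by decide +kernel)) <|
  AllL.cons (i := 5) (j := 16) (k := 17) (OkF.mk (by decide +kernel)) <|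
  AllL.cons (i := 5) (j := 16) (k := 18) (OkF.mk (by decide +kernel)) <|
  AllL.cons (i := 5) (j := 16) (k := 19) (OkF.mk (by decide +kernel)) <|
  AllL.cons (i := 5) (j := 16) (k := 20) (OkF.mk (by decide +kernel)) <|
  AllL.cons (i := 5) (j := 16) (k := 21) (OkF.mk (by decide +kernel)) <|
  AllL.cons (i := 5) (j := 16) (k := 22) (OkF.mk (by decide +kernel)) <|
  AllL.cons (i := 5) (j := 17) (k := 17) (OkF.mk (by decide +kernel)) <|
  AllL.cons (i := 5) (j := 17) (k := 18) (OkF.mk (by decide +kernel)) <|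
  AllL.cons (i := 5) (j := 17) (k := 19) (OkF.mk (by decide +kernel)) <|
  AllL.cons (i := 5) (j := 17) (k := 20) (OkF.mk (by decide +kernel)) <|
  AllL.cons (i := 5) (j := 17) (k := 21) (OkF.mk (by decide +kernel)) <|
  AllL.cons (i := 5) (j := 17) (k := 22) (OkF.mk (by decide +kernel)) <|
  AllL.cons (i := 5) (j := 18) (k := 18) (OkF.mk (by decide +kernel)) <|
  AllL.cons (i := 5) (j := 18) (k := 19) (OkF.mk (by decide +kernel)) <|
  AllL.cons (i := 5) (j := 18) (k := 20) (OkF.mk (by decide +kernel)) <|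
  AllL.cons (i := 5) (j := 18) (k := 21) (OkF.mk (by decide +kernel)) <|
  AllL.cons (i := 5) (j := 18) (k := 22) (OkF.mk (by decide +kernel)) <|
  AllL.cons (i := 5) (j := 19) (k := 19) (OkF.mk (by decide +kernel)) <|
  AllL.cons (i := 5) (j := 19) (k := 20) (OkF.mk (by decide +kernel)) <|
  AllL.cons (i := 5) (j := 19) (k := 21) (OkF.mk (by decide +kernel)) <|
  AllL.cons (i := 5) (j := 19) (k := 22) (OkF.mk (by decide +kernel)) <|
  AllL.cons (i := 5) (j := 20) (k := 20) (OkF.mk (by decide +kernel)) <|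
  AllL.cons (i := 5) (j := 20) (k := 21) (OkF.mk (by decide +kernel)) <|
  AllL.cons (i := 5) (j := 20) (k := 22) (OkF.mk (by decide +kernel)) <|
  AllL.cons (i := 5) (j := 21) (k := 21) (OkF.mk (by decide +kernel)) <|
  AllL.cons (i := 5) (j := 21) (k := 22) (OkF.mk (by decide +kernel)) <|
  AllL.cons (i := 5) (j := 22) (k := 22) (OkF.mk (by decide +kernel)) <|
  AllL.cons (i := 6) (j := 6) (k := 6) (OkF.mk (by decide +kernel)) <|
  AllL.cons (i := 6) (j := 6) (k := 7) (OkF.mk (by decide +kernel)) <|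
  AllL.cons (i := 6) (j := 6) (k := 8) (OkF.mk (by decide +kernel)) <|
  AllL.nil

end Pool.Agent.MP_48470b_gt.Run
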