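import Pool.Agent.MP_48470b_gt.Run.OkB
import Pool.Agent.MP_48470b_gt.Run.F30

/-! Runs of the tests. -/

namespace Pool.Agent.MP_48470b_gt.Run

/-- the boxes of this part -/
def b60l : List (Nat × Nat × Nat) :=
  [(5, 6, 21), (5, 6, 22), (5, 7, 7), (5, 7, 8), (5, 7, 9), (5, 7, 10), (5, 7, 11), (5, 7, 12), (5, 7, 13), (5, 7, 14), (5, 7, 15), (5, 7, 16), (5, 7, 17), (5, 7, 18), (5, 7, 19), (5, 7, 20), (5, 7, 21), (5, 7, 22), (5, 8, 8), (5, 8, 9), (5, 8, 10)]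

theorem b60 : AllL OkB b60l :=
  AllL.cons (i := 5) (j := 6) (k := 21) (OkB.mk ⟨18, 14, 20, 63, 72, 103, 14⟩ ⟨12, 9, 12, 52, 82, 103, 7⟩
    10 13 21 65 (-27) (-24) 77423662543314878465 (by decide +kernel)) <|
  AllL.cons (i := 5) (j := 6) (k := 22) (OkB.mk ⟨18, 14, 19, 63, 72, 103, 13⟩ ⟨11, 9, 12, 52, 82, 103, 7⟩
    10 16 18 76 (-39) (-24) 71141037434162118657 (by decide +kernel)) <|
  AllL.cons (i := 5) (j := 7) (k := 7) (OkB.mk ⟨16, 17, 16, 63, 72, 103, 15⟩ ⟨9, 10, 11, 52, 82, 103, 7⟩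
    13 (-13) 8 24 12 (-27) 84979755351336288257 (by decide +kernel)) <|
  AllL.cons (i := 5) (j := 7) (k := 8) (OkB.mk ⟨17, 15, 17, 63, 72, 103, 15⟩ ⟨9, 9, 11, 52, 82, 103, 7⟩
    13 (-13) 9 26 11 (-24) 79111928975221325825 (by decide +kernel)) <|
  AllL.cons (i := 5) (j := 7) (k := 9) (OkB.mk ⟨18, 15, 16, 63, 72, 103, 15⟩ ⟨9, 9, 10, 52, 82, 103, 7⟩
    13 (-12) 10 26 10 (-21) 74105948466346721281 (by decide +kernel)) <|
  AllL.cons (i := 5) (j := 7) (k := 10) (OkB.mk ⟨17, 15, 17, 63, 72, 103, 15⟩ ⟨9, 9, 10, 52, 82, 103, 7⟩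
    12 (-12) 13 26 7 (-20) 62296221753192480769 (by decide +kernel)) <|
  AllL.cons (i := 5) (j := 7) (k := 11) (OkB.mk ⟨17, 15, 17, 63, 72, 103, 15⟩ ⟨9, 9, 10, 52, 82, 103, 7⟩
    12 (-11) 14 27 6 (-19) 70008312858645889025 (by decide +kernel)) <|
  AllL.cons (i := 5) (j := 7) (k := 12) (OkB.mk ⟨17, 15, 18, 63, 72, 103, 15⟩ ⟨10, 9, 10, 52, 82, 103, 7⟩
    12 (-9) 16 25 7 (-18) 69157694791831519233 (by decide +kernel)) <|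
  AllL.cons (i := 5) (j := 7) (k := 13) (OkB.mk ⟨17, 15, 19, 63, 72, 103, 15⟩ ⟨10, 9, 11, 52, 82, 103, 7⟩
    11 (-8) 19 27 5 (-18) 66025784023745298433 (by decide +kernel)) <|
  AllL.cons (i := 5) (j := 7) (k := 14) (OkB.mk ⟨17, 15, 21, 63, 72, 103, 15⟩ ⟨10, 9, 11, 52, 82, 103, 7⟩
    11 (-6) 21 29 4 (-19) 68393175219980730369 (by decide +kernel)) <|
  AllL.cons (i := 5) (j := 7) (k := 15) (OkB.mk ⟨18, 15, 20, 63, 72, 103, 15⟩ ⟨10, 9, 13, 52, 82, 103, 7⟩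
    11 (-4) 24 31 1 (-20) 69480830676435468289 (by decide +kernel)) <|
  AllL.cons (i := 5) (j := 7) (k := 16) (OkB.mk ⟨18, 15, 21, 63, 72, 103, 15⟩ ⟨11, 9, 12, 52, 82, 103, 7⟩
    10 (-2) 26 33 (-4) (-20) 68955734434457321473 (by decide +kernel)) <|
  AllL.cons (i := 5) (j := 7) (k := 17) (OkB.mk ⟨19, 14, 22, 63, 72, 103, 15⟩ ⟨11, 9, 13, 52, 82, 103, 7⟩
    10 1 28 36 (-2) (-21) 64047383548742598657 (by decide +kernel)) <|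
  AllL.cons (i := 5) (j := 7) (k := 18) (OkB.mk ⟨19, 14, 22, 63, 72, 103, 15⟩ ⟨12, 9, 13, 52, 82, 103, 7⟩
    10 4 30 37 1 (-22) 71192177231798468609 (by decide +kernel)) <|
  AllL.cons (i := 5) (j := 7) (k := 19) (OkB.mk ⟨19, 15, 22, 63, 72, 103, 14⟩ ⟨12, 9, 13, 52, 82, 103, 7⟩
    10 7 31 40 1 (-23) 66236563563885887489 (by decide +kernel)) <|
  AllL.cons (i := 5) (j := 7) (k := 20) (OkB.mk ⟨19, 15, 22, 63, 72, 103, 14⟩ ⟨12, 9, 14, 52, 82, 103, 7⟩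
    10 9 29 42 (-13) (-24) 67506750869813067777 (by decide +kernel)) <|
  AllL.cons (i := 5) (j := 7) (k := 21) (OkB.mk ⟨19, 14, 22, 63, 72, 103, 14⟩ ⟨12, 9, 13, 52, 82, 103, 7⟩
    10 12 28 49 (-19) (-24) 71345500005123227649 (by decide +kernel)) <|
  AllL.cons (i := 5) (j := 7) (k := 22) (OkB.mk ⟨19, 14, 21, 63, 72, 103, 14⟩ ⟨12, 9, 13, 52, 82, 103, 7⟩
    10 15 26 58 (-27) (-25) 64041126777824739329 (by decide +kernel)) <|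
  AllL.cons (i := 5) (j := 8) (k := 8) (OkB.mk ⟨17, 16, 16, 63, 72, 103, 15⟩ ⟨9, 9, 9, 52, 82, 103, 7⟩
    13 (-13) 9 22 8 (-24) 62956182167288283137 (by decide +kernel)) <|
  AllL.cons (i := 5) (j := 8) (k := 9) (OkB.mk ⟨17, 15, 16, 63, 72, 103, 15⟩ ⟨9, 9, 9, 52, 82, 103, 7⟩
    13 (-13) 11 22 6 (-21) 68266920636225421313 (by decide +kernel)) <|
  AllL.cons (i := 5) (j := 8) (k := 10) (OkB.mk ⟨17, 15, 16, 63, 72, 103, 15⟩ ⟨9, 9, 9, 52, 82, 103, 7⟩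
    13 (-12) 12 22 6 (-19) 70752101551071821825 (by decide +kernel)) <|
  AllL.nil

end Pool.Agent.MP_48470b_gt.Run
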