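import Pool.Agent.MP_48470b_gt.Run.OkB
import Pool.Agent.MP_48470b_gt.Run.B60

/-! Runs of the tests. -/

namespace Pool.Agent.MP_48470b_gt.Run

/-- the boxes of this part -/
def b61l : List (Nat × Nat × Nat) :=
  [(5, 8, 11), (5, 8, 12), (5, 8, 13), (5, 8, 14), (5, 8, 15), (5, 8, 16), (5, 8, 17), (5, 8, 18), (5, 8, 19), (5, 8, 20), (5, 8, 21), (5, 8, 22), (5, 9, 9), (5, 9, 10), (5, 9, 11), (5, 9, 12), (5, 9, 13), (5, 9, 14), (5, 9, 15), (5, 9, 16), (5, 9, 17), (5, 9, 18), (5, 9, 19)]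

theorem b61 : AllL OkB b61l :=
  AllL.cons (i := 5) (j := 8) (k := 11) (OkB.mk ⟨17, 14, 18, 63, 72, 103, 15⟩ ⟨9, 8, 9, 52, 82, 103, 7⟩
    13 (-11) 14 22 6 (-18) 66401266694874988545 (by decide +kernel)) <|
  AllL.cons (i := 5) (j := 8) (k := 12) (OkB.mk ⟨17, 15, 18, 63, 72, 103, 16⟩ ⟨9, 8, 10, 52, 82, 103, 7⟩
    13 (-10) 17 20 3 (-17) 54277933289516826625 (by decide +kernel)) <|
  AllL.cons (i := 5) (j := 8) (k := 13) (OkB.mk ⟨17, 14, 19, 63, 72, 103, 15⟩ ⟨10, 8, 10, 52, 82, 103, 7⟩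
    12 (-9) 19 21 2 (-17) 66875986750042275841 (by decide +kernel)) <|
  AllL.cons (i := 5) (j := 8) (k := 14) (OkB.mk ⟨17, 14, 20, 63, 72, 103, 15⟩ ⟨10, 8, 11, 52, 82, 103, 7⟩
    12 (-7) 21 23 3 (-17) 63704745626396786689 (by decide +kernel)) <|
  AllL.cons (i := 5) (j := 8) (k := 15) (OkB.mk ⟨17, 14, 21, 63, 72, 103, 15⟩ ⟨10, 9, 11, 52, 82, 103, 7⟩
    12 (-5) 24 24 1 (-17) 63872437229990182913 (by decide +kernel)) <|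
  AllL.cons (i := 5) (j := 8) (k := 16) (OkB.mk ⟨17, 14, 21, 63, 72, 103, 15⟩ ⟨10, 9, 12, 52, 82, 103, 7⟩
    11 (-3) 26 26 (-2) (-18) 67149651620782931969 (by decide +kernel)) <|
  AllL.cons (i := 5) (j := 8) (k := 17) (OkB.mk ⟨17, 14, 22, 63, 72, 103, 15⟩ ⟨10, 9, 13, 52, 82, 103, 7⟩
    11 0 28 28 (-2) (-19) 66394040292140384257 (by decide +kernel)) <|
  AllL.cons (i := 5) (j := 8) (k := 18) (OkB.mk ⟨18, 14, 21, 63, 72, 103, 15⟩ ⟨11, 9, 13, 52, 82, 103, 7⟩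
    11 3 30 30 (-2) (-20) 69884597322117021697 (by decide +kernel)) <|
  AllL.cons (i := 5) (j := 8) (k := 19) (OkB.mk ⟨18, 14, 22, 63, 72, 103, 15⟩ ⟨11, 9, 13, 52, 82, 103, 7⟩
    11 6 32 31 (-2) (-21) 69710333800085454849 (by decide +kernel)) <|
  AllL.cons (i := 5) (j := 8) (k := 20) (OkB.mk ⟨18, 15, 23, 63, 72, 103, 15⟩ ⟨11, 9, 14, 52, 82, 103, 7⟩
    11 9 33 33 (-3) (-22) 59715908755848691713 (by decide +kernel)) <|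
  AllL.cons (i := 5) (j := 8) (k := 21) (OkB.mk ⟨18, 14, 24, 63, 72, 103, 15⟩ ⟨11, 9, 14, 52, 82, 103, 7⟩
    11 12 33 39 (-8) (-23) 69184679555956211713 (by decide +kernel)) <|
  AllL.cons (i := 5) (j := 8) (k := 22) (OkB.mk ⟨18, 14, 23, 63, 72, 103, 14⟩ ⟨11, 9, 14, 52, 82, 103, 7⟩
    11 15 34 45 (-7) (-24) 64121569934730854401 (by decide +kernel)) <|
  AllL.cons (i := 5) (j := 9) (k := 9) (OkB.mk ⟨17, 15, 16, 63, 72, 103, 16⟩ ⟨10, 8, 9, 52, 82, 103, 7⟩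
    13 (-13) 10 19 6 (-20) 66726605038708326401 (by decide +kernel)) <|
  AllL.cons (i := 5) (j := 9) (k := 10) (OkB.mk ⟨17, 15, 16, 63, 72, 103, 16⟩ ⟨9, 8, 9, 52, 82, 103, 7⟩
    14 (-12) 11 19 6 (-18) 55322231016758706177 (by decide +kernel)) <|
  AllL.cons (i := 5) (j := 9) (k := 11) (OkB.mk ⟨17, 14, 17, 63, 72, 103, 16⟩ ⟨9, 8, 9, 52, 82, 103, 7⟩
    14 (-11) 13 18 5 (-17) 61933681570872295425 (by decide +kernel)) <|
  AllL.cons (i := 5) (j := 9) (k := 12) (OkB.mk ⟨16, 15, 17, 63, 72, 103, 16⟩ ⟨9, 8, 9, 52, 82, 103, 7⟩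
    14 (-10) 15 17 4 (-16) 56578145424806772737 (by decide +kernel)) <|
  AllL.cons (i := 5) (j := 9) (k := 13) (OkB.mk ⟨16, 14, 18, 63, 72, 103, 16⟩ ⟨9, 8, 9, 52, 82, 103, 7⟩
    14 (-9) 17 17 2 (-15) 60753578214681477121 (by decide +kernel)) <|
  AllL.cons (i := 5) (j := 9) (k := 14) (OkB.mk ⟨16, 14, 18, 63, 72, 103, 15⟩ ⟨9, 8, 10, 52, 82, 103, 7⟩
    13 (-7) 19 18 3 (-15) 60618785923136487425 (by decide +kernel)) <|
  AllL.cons (i := 5) (j := 9) (k := 15) (OkB.mk ⟨16, 14, 19, 63, 72, 103, 15⟩ ⟨9, 9, 10, 52, 82, 103, 7⟩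
    13 (-6) 22 20 1 (-15) 57537926442000580609 (by decide +kernel)) <|
  AllL.cons (i := 5) (j := 9) (k := 16) (OkB.mk ⟨16, 14, 19, 63, 72, 103, 15⟩ ⟨9, 8, 11, 52, 82, 103, 7⟩
    12 (-3) 23 21 1 (-15) 60485028134594281473 (by decide +kernel)) <|
  AllL.cons (i := 5) (j := 9) (k := 17) (OkB.mk ⟨16, 14, 19, 63, 72, 103, 15⟩ ⟨9, 9, 11, 52, 82, 103, 7⟩
    12 (-1) 26 23 (-2) (-16) 65861785542270648321 (by decide +kernel)) <|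
  AllL.cons (i := 5) (j := 9) (k := 18) (OkB.mk ⟨16, 14, 20, 63, 72, 103, 15⟩ ⟨10, 9, 11, 52, 82, 103, 7⟩
    12 2 27 24 (-3) (-16) 59802894281817980929 (by decide +kernel)) <|
  AllL.cons (i := 5) (j := 9) (k := 19) (OkB.mk ⟨16, 14, 20, 63, 72, 103, 15⟩ ⟨10, 8, 12, 52, 82, 103, 7⟩
    12 5 28 26 (-5) (-17) 68564734355724828673 (by decide +kernel)) <|
  AllL.nil

end Pool.Agent.MP_48470b_gt.Run
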