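import Pool.Agent.MP_48470b_gt.Run.OkB
import Pool.Agent.MP_48470b_gt.Run.F31

/-! Runs of the tests. -/

namespace Pool.Agent.MP_48470b_gt.Run

/-- the boxes of this part -/
def b62l : List (Nat × Nat × Nat) :=
  [(5, 9, 20), (5, 9, 21), (5, 9, 22), (5, 10, 10), (5, 10, 11), (5, 10, 12), (5, 10, 13), (5, 10, 14), (5, 10, 15), (5, 10, 16), (5, 10, 17), (5, 10, 18), (5, 10, 19), (5, 10, 20), (5, 10, 21), (5, 10, 22), (5, 11, 11), (5, 11, 12), (5, 11, 13), (5, 11, 14), (5, 11, 15), (5, 11, 16), (5, 11, 17), (5, 11, 18), (5, 11, 19), (5, 11, 20), (5, 11, 21), (5, 11, 22)]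

theorem b62 : AllL OkB b62l :=
  AllL.cons (i := 5) (j := 9) (k := 20) (OkB.mk ⟨16, 14, 22, 63, 72, 103, 15⟩ ⟨10, 9, 12, 52, 82, 103, 7⟩
    12 8 30 27 (-6) (-18) 66507519650292563969 (by decide +kernel)) <|
  AllL.cons (i := 5) (j := 9) (k := 21) (OkB.mk ⟨17, 14, 21, 63, 72, 103, 15⟩ ⟨10, 8, 13, 52, 82, 103, 7⟩
    12 11 31 31 (-9) (-20) 59317343349922332673 (by decide +kernel)) <|
  AllL.cons (i := 5) (j := 9) (k := 22) (OkB.mk ⟨17, 14, 21, 63, 72, 103, 15⟩ ⟨11, 8, 13, 52, 82, 103, 7⟩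
    12 14 31 37 (-13) (-21) 65150265317096685569 (by decide +kernel)) <|
  AllL.cons (i := 5) (j := 10) (k := 10) (OkB.mk ⟨17, 15, 15, 63, 72, 103, 16⟩ ⟨9, 8, 8, 52, 82, 103, 7⟩
    14 (-13) 10 17 5 (-17) 62456844596530905089 (by decide +kernel)) <|
  AllL.cons (i := 5) (j := 10) (k := 11) (OkB.mk ⟨16, 14, 16, 63, 72, 103, 16⟩ ⟨9, 8, 8, 52, 82, 103, 7⟩
    15 (-12) 11 16 4 (-16) 66298931299387179009 (by decide +kernel)) <|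
  AllL.cons (i := 5) (j := 10) (k := 12) (OkB.mk ⟨16, 14, 16, 63, 72, 103, 16⟩ ⟨9, 8, 8, 52, 82, 103, 7⟩
    15 (-10) 13 15 4 (-15) 64467693858692530177 (by decide +kernel)) <|
  AllL.cons (i := 5) (j := 10) (k := 13) (OkB.mk ⟨15, 14, 17, 63, 72, 103, 16⟩ ⟨8, 8, 9, 52, 82, 103, 7⟩
    15 (-9) 15 15 3 (-14) 59291108727605690369 (by decide +kernel)) <|
  AllL.cons (i := 5) (j := 10) (k := 14) (OkB.mk ⟨15, 14, 17, 63, 72, 103, 16⟩ ⟨8, 8, 9, 52, 82, 103, 7⟩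
    14 (-7) 17 15 3 (-13) 58919868109774913537 (by decide +kernel)) <|
  AllL.cons (i := 5) (j := 10) (k := 15) (OkB.mk ⟨15, 14, 17, 63, 72, 103, 15⟩ ⟨9, 8, 9, 52, 82, 103, 7⟩
    14 (-6) 19 16 1 (-13) 62196733405625843713 (by decide +kernel)) <|
  AllL.cons (i := 5) (j := 10) (k := 16) (OkB.mk ⟨15, 14, 17, 63, 72, 103, 15⟩ ⟨9, 8, 9, 52, 82, 103, 7⟩
    14 (-4) 20 17 0 (-13) 66008354565421793281 (by decide +kernel)) <|
  AllL.cons (i := 5) (j := 10) (k := 17) (OkB.mk ⟨15, 14, 17, 63, 72, 103, 15⟩ ⟨9, 8, 10, 52, 82, 103, 7⟩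
    13 (-1) 22 19 0 (-13) 73118143234223112193 (by decide +kernel)) <|
  AllL.cons (i := 5) (j := 10) (k := 18) (OkB.mk ⟨15, 13, 19, 63, 72, 103, 15⟩ ⟨9, 8, 10, 52, 82, 103, 7⟩
    13 1 23 20 (-3) (-14) 75911701563971731457 (by decide +kernel)) <|
  AllL.cons (i := 5) (j := 10) (k := 19) (OkB.mk ⟨15, 13, 19, 63, 72, 103, 15⟩ ⟨9, 8, 10, 52, 82, 103, 7⟩
    13 4 25 21 (-5) (-14) 72045355511438114817 (by decide +kernel)) <|
  AllL.cons (i := 5) (j := 10) (k := 20) (OkB.mk ⟨15, 13, 19, 63, 72, 103, 15⟩ ⟨9, 8, 11, 52, 82, 103, 7⟩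
    13 7 25 23 (-8) (-15) 71418835369111584769 (by decide +kernel)) <|
  AllL.cons (i := 5) (j := 10) (k := 21) (OkB.mk ⟨15, 13, 19, 63, 72, 103, 15⟩ ⟨9, 8, 11, 52, 82, 103, 7⟩
    13 10 26 26 (-10) (-16) 67906732721593909249 (by decide +kernel)) <|
  AllL.cons (i := 5) (j := 10) (k := 22) (OkB.mk ⟨15, 13, 20, 63, 72, 103, 15⟩ ⟨9, 8, 11, 52, 82, 103, 7⟩
    13 13 27 30 (-12) (-18) 61412211655681507329 (by decide +kernel)) <|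
  AllL.cons (i := 5) (j := 11) (k := 11) (OkB.mk ⟨15, 15, 15, 63, 72, 103, 16⟩ ⟨8, 8, 8, 52, 82, 103, 7⟩
    15 (-12) 9 15 5 (-15) 56180304871921025025 (by decide +kernel)) <|
  AllL.cons (i := 5) (j := 11) (k := 12) (OkB.mk ⟨15, 14, 15, 63, 72, 103, 16⟩ ⟨8, 8, 8, 52, 82, 103, 7⟩
    15 (-11) 11 13 3 (-14) 67870181519112798209 (by decide +kernel)) <|
  AllL.cons (i := 5) (j := 11) (k := 13) (OkB.mk ⟨15, 14, 15, 63, 72, 103, 16⟩ ⟨8, 8, 8, 52, 82, 103, 7⟩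
    15 (-9) 12 13 3 (-13) 59856225818445348865 (by decide +kernel)) <|
  AllL.cons (i := 5) (j := 11) (k := 14) (OkB.mk ⟨15, 14, 15, 63, 72, 103, 16⟩ ⟨8, 8, 8, 52, 82, 103, 7⟩
    15 (-8) 14 14 3 (-13) 61608812031309250561 (by decide +kernel)) <|
  AllL.cons (i := 5) (j := 11) (k := 15) (OkB.mk ⟨14, 14, 16, 63, 72, 103, 16⟩ ⟨8, 8, 8, 52, 82, 103, 7⟩
    15 (-6) 16 14 2 (-12) 78837322510210433025 (by decide +kernel)) <|
  AllL.cons (i := 5) (j := 11) (k := 16) (OkB.mk ⟨15, 13, 16, 63, 72, 103, 16⟩ ⟨8, 7, 9, 52, 82, 103, 7⟩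
    14 (-4) 17 15 1 (-12) 75536884372254752769 (by decide +kernel)) <|
  AllL.cons (i := 5) (j := 11) (k := 17) (OkB.mk ⟨15, 13, 16, 63, 72, 103, 15⟩ ⟨9, 7, 9, 52, 82, 103, 7⟩
    14 (-2) 19 16 0 (-12) 73919292211319537665 (by decide +kernel)) <|
  AllL.cons (i := 5) (j := 11) (k := 18) (OkB.mk ⟨15, 13, 16, 63, 72, 103, 15⟩ ⟨9, 7, 9, 52, 82, 103, 7⟩
    14 1 20 17 (-1) (-12) 74960446022500745217 (by decide +kernel)) <|
  AllL.cons (i := 5) (j := 11) (k := 19) (OkB.mk ⟨15, 13, 16, 63, 72, 103, 15⟩ ⟨8, 8, 9, 52, 82, 103, 7⟩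
    14 3 21 18 (-4) (-13) 77089379397511675905 (by decide +kernel)) <|
  AllL.cons (i := 5) (j := 11) (k := 20) (OkB.mk ⟨15, 13, 17, 63, 72, 103, 15⟩ ⟨9, 8, 9, 52, 82, 103, 7⟩
    14 7 22 19 (-4) (-13) 62127092263267860481 (by decide +kernel)) <|
  AllL.cons (i := 5) (j := 11) (k := 21) (OkB.mk ⟨14, 13, 18, 63, 72, 103, 15⟩ ⟨9, 8, 9, 52, 82, 103, 7⟩
    14 9 22 22 (-9) (-14) 71273297275550433281 (by decide +kernel)) <|
  AllL.cons (i := 5) (j := 11) (k := 22) (OkB.mk ⟨15, 12, 17, 63, 72, 103, 15⟩ ⟨9, 7, 10, 52, 82, 103, 7⟩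
    14 12 23 26 (-12) (-15) 73923131568484777985 (by decide +kernel)) <|
  AllL.nil

end Pool.Agent.MP_48470b_gt.Run
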