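import Pool.Agent.MP_48470b_gt.Run.OkB
import Pool.Agent.MP_48470b_gt.Run.B62

/-! Runs of the tests. -/

namespace Pool.Agent.MP_48470b_gt.Run

/-- the boxes of this part -/
def b63l : List (Nat × Nat × Nat) :=
  [(5, 12, 12), (5, 12, 13), (5, 12, 14), (5, 12, 15), (5, 12, 16), (5, 12, 17), (5, 12, 18), (5, 12, 19), (5, 12, 20), (5, 12, 21), (5, 12, 22), (5, 13, 13), (5, 13, 14), (5, 13, 15), (5, 13, 16), (5, 13, 17), (5, 13, 18), (5, 13, 19), (5, 13, 20), (5, 13, 21), (5, 13, 22), (5, 14, 14), (5, 14, 15), (5, 14, 16), (5, 14, 17), (5, 14, 18), (5, 14, 19), (5, 14, 20), (5, 14, 21), (5, 14, 22), (5, 15, 15), (5, 15, 16), (5, 15, 17)]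

theorem b63 : AllL OkB b63l :=
  AllL.cons (i := 5) (j := 12) (k := 12) (OkB.mk ⟨15, 14, 16, 63, 72, 103, 16⟩ ⟨8, 8, 8, 52, 82, 103, 7⟩
    16 (-11) 9 12 3 (-13) 71047484937556983809 (by decide +kernel)) <|
  AllL.cons (i := 5) (j := 12) (k := 13) (OkB.mk ⟨14, 14, 16, 63, 72, 103, 16⟩ ⟨7, 8, 8, 52, 82, 103, 7⟩
    16 (-9) 10 12 3 (-12) 77537769997484425217 (by decide +kernel)) <|
  AllL.cons (i := 5) (j := 12) (k := 14) (OkB.mk ⟨14, 14, 15, 63, 72, 103, 16⟩ ⟨7, 8, 8, 52, 82, 103, 7⟩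
    16 (-8) 11 13 3 (-12) 74702918409043050497 (by decide +kernel)) <|
  AllL.cons (i := 5) (j := 12) (k := 15) (OkB.mk ⟨14, 14, 15, 63, 72, 103, 16⟩ ⟨7, 8, 9, 52, 82, 103, 7⟩
    15 (-7) 13 13 2 (-11) 74344567366024691713 (by decide +kernel)) <|
  AllL.cons (i := 5) (j := 12) (k := 16) (OkB.mk ⟨14, 13, 16, 63, 72, 103, 16⟩ ⟨7, 8, 9, 52, 82, 103, 7⟩
    15 (-5) 14 13 1 (-11) 81711733702385467393 (by decide +kernel)) <|
  AllL.cons (i := 5) (j := 12) (k := 17) (OkB.mk ⟨14, 13, 16, 63, 72, 103, 16⟩ ⟨8, 7, 9, 52, 82, 103, 7⟩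
    15 (-3) 16 14 0 (-10) 76833422161536352257 (by decide +kernel)) <|
  AllL.cons (i := 5) (j := 12) (k := 18) (OkB.mk ⟨14, 13, 16, 63, 72, 103, 16⟩ ⟨8, 7, 9, 52, 82, 103, 7⟩
    15 0 17 15 (-1) (-10) 74031458065393385473 (by decide +kernel)) <|
  AllL.cons (i := 5) (j := 12) (k := 19) (OkB.mk ⟨14, 13, 16, 63, 72, 103, 16⟩ ⟨8, 8, 9, 52, 82, 103, 7⟩
    15 2 18 16 (-3) (-11) 74348025742410907649 (by decide +kernel)) <|
  AllL.cons (i := 5) (j := 12) (k := 20) (OkB.mk ⟨14, 13, 16, 63, 72, 103, 15⟩ ⟨8, 8, 9, 52, 82, 103, 7⟩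
    15 5 18 17 (-5) (-11) 69878472904911355905 (by decide +kernel)) <|
  AllL.cons (i := 5) (j := 12) (k := 21) (OkB.mk ⟨14, 12, 17, 63, 72, 103, 15⟩ ⟨8, 8, 9, 52, 82, 103, 7⟩
    15 8 19 19 (-7) (-12) 81897409193040674817 (by decide +kernel)) <|
  AllL.cons (i := 5) (j := 12) (k := 22) (OkB.mk ⟨14, 12, 16, 63, 72, 103, 15⟩ ⟨8, 8, 9, 52, 82, 103, 7⟩
    15 11 19 22 (-9) (-12) 77590059884283428865 (by decide +kernel)) <|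
  AllL.cons (i := 5) (j := 13) (k := 13) (OkB.mk ⟨14, 15, 15, 63, 72, 103, 16⟩ ⟨7, 8, 8, 52, 82, 103, 7⟩
    16 (-10) 8 12 3 (-12) 64458615878376751105 (by decide +kernel)) <|
  AllL.cons (i := 5) (j := 13) (k := 14) (OkB.mk ⟨14, 14, 15, 63, 72, 103, 16⟩ ⟨7, 8, 8, 52, 82, 103, 7⟩
    16 (-9) 9 12 2 (-12) 80480399426532147201 (by decide +kernel)) <|
  AllL.cons (i := 5) (j := 13) (k := 15) (OkB.mk ⟨14, 14, 15, 63, 72, 103, 16⟩ ⟨7, 8, 8, 52, 82, 103, 7⟩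
    16 (-7) 10 12 2 (-11) 75500216209224237057 (by decide +kernel)) <|
  AllL.cons (i := 5) (j := 13) (k := 16) (OkB.mk ⟨13, 14, 16, 63, 72, 103, 16⟩ ⟨7, 8, 8, 52, 82, 103, 7⟩
    16 (-5) 12 12 2 (-11) 88755261952206307329 (by decide +kernel)) <|
  AllL.cons (i := 5) (j := 13) (k := 17) (OkB.mk ⟨13, 14, 16, 63, 72, 103, 16⟩ ⟨7, 8, 8, 52, 82, 103, 7⟩
    16 (-3) 13 13 1 (-10) 88078942179478732801 (by decide +kernel)) <|
  AllL.cons (i := 5) (j := 13) (k := 18) (OkB.mk ⟨14, 13, 15, 63, 72, 103, 16⟩ ⟨8, 8, 8, 52, 82, 103, 7⟩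
    16 (-1) 14 13 (-1) (-10) 90840548976202088449 (by decide +kernel)) <|
  AllL.cons (i := 5) (j := 13) (k := 19) (OkB.mk ⟨14, 13, 15, 63, 72, 103, 16⟩ ⟨8, 8, 8, 52, 82, 103, 7⟩
    16 1 15 14 (-3) (-10) 95957348987162329089 (by decide +kernel)) <|
  AllL.cons (i := 5) (j := 13) (k := 20) (OkB.mk ⟨14, 13, 15, 63, 72, 103, 16⟩ ⟨8, 8, 8, 52, 82, 103, 7⟩
    16 4 15 15 (-4) (-10) 93350189489281040385 (by decide +kernel)) <|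
  AllL.cons (i := 5) (j := 13) (k := 21) (OkB.mk ⟨13, 13, 16, 63, 72, 103, 16⟩ ⟨8, 7, 9, 52, 82, 103, 7⟩
    16 7 16 17 (-6) (-11) 95291097717288206337 (by decide +kernel)) <|
  AllL.cons (i := 5) (j := 13) (k := 22) (OkB.mk ⟨14, 12, 15, 63, 72, 103, 15⟩ ⟨8, 7, 9, 52, 82, 103, 7⟩
    16 9 16 19 (-9) (-11) 92768496161141030913 (by decide +kernel)) <|
  AllL.cons (i := 5) (j := 14) (k := 14) (OkB.mk ⟨13, 15, 16, 63, 72, 103, 16⟩ ⟨7, 8, 8, 52, 82, 103, 7⟩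
    16 (-9) 7 11 2 (-11) 84412540392310833153 (by decide +kernel)) <|
  AllL.cons (i := 5) (j := 14) (k := 15) (OkB.mk ⟨14, 14, 15, 63, 72, 103, 16⟩ ⟨7, 8, 8, 52, 82, 103, 7⟩
    16 (-8) 9 11 2 (-11) 86701602242744549377 (by decide +kernel)) <|
  AllL.cons (i := 5) (j := 14) (k := 16) (OkB.mk ⟨13, 14, 16, 63, 72, 103, 16⟩ ⟨7, 7, 8, 52, 82, 103, 7⟩
    16 (-6) 9 11 1 (-10) 90290885246412914689 (by decide +kernel)) <|
  AllL.cons (i := 5) (j := 14) (k := 17) (OkB.mk ⟨13, 14, 16, 63, 72, 103, 16⟩ ⟨8, 7, 8, 52, 82, 103, 7⟩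
    16 (-4) 10 11 1 (-10) 87616752296260534273 (by decide +kernel)) <|
  AllL.cons (i := 5) (j := 14) (k := 18) (OkB.mk ⟨13, 13, 16, 63, 72, 103, 16⟩ ⟨8, 7, 8, 52, 82, 103, 7⟩
    16 (-2) 11 12 0 (-9) 110270735145018327041 (by decide +kernel)) <|
  AllL.cons (i := 5) (j := 14) (k := 19) (OkB.mk ⟨13, 14, 15, 63, 72, 103, 16⟩ ⟨7, 8, 8, 52, 82, 103, 7⟩
    16 0 12 12 (-2) (-9) 104858555458424668161 (by decide +kernel)) <|
  AllL.cons (i := 5) (j := 14) (k := 20) (OkB.mk ⟨13, 14, 15, 63, 72, 103, 16⟩ ⟨7, 8, 9, 52, 82, 103, 7⟩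
    16 3 13 13 (-3) (-9) 107282743164743450625 (by decide +kernel)) <|
  AllL.cons (i := 5) (j := 14) (k := 21) (OkB.mk ⟨13, 13, 16, 63, 72, 103, 16⟩ ⟨7, 8, 9, 52, 82, 103, 7⟩
    17 5 13 15 (-6) (-10) 97301572733179527169 (by decide +kernel)) <|
  AllL.cons (i := 5) (j := 14) (k := 22) (OkB.mk ⟨13, 13, 15, 63, 72, 103, 16⟩ ⟨7, 8, 9, 52, 82, 103, 7⟩
    17 8 13 17 (-8) (-10) 94800958798247755777 (by decide +kernel)) <|
  AllL.cons (i := 5) (j := 15) (k := 15) (OkB.mk ⟨13, 15, 15, 63, 72, 103, 16⟩ ⟨7, 8, 8, 52, 82, 103, 7⟩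
    16 (-8) 7 11 2 (-11) 94250086292862795777 (by decide +kernel)) <|
  AllL.cons (i := 5) (j := 15) (k := 16) (OkB.mk ⟨13, 14, 16, 63, 72, 103, 16⟩ ⟨7, 7, 8, 52, 82, 103, 7⟩
    16 (-6) 8 11 2 (-10) 100868759676298199041 (by decide +kernel)) <|
  AllL.cons (i := 5) (j := 15) (k := 17) (OkB.mk ⟨13, 14, 15, 63, 72, 103, 16⟩ ⟨7, 7, 8, 52, 82, 103, 7⟩
    16 (-5) 8 11 1 (-10) 100334814702178664449 (by decide +kernel)) <|
  AllL.nil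

end Pool.Agent.MP_48470b_gt.Run
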