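import Pool.Agent.MP_48470b_gt.Run.OkB
import Pool.Agent.MP_48470b_gt.Run.F32

/-! Runs of the tests. -/

namespace Pool.Agent.MP_48470b_gt.Run

/-- the boxes of this part -/
def b64l : List (Nat × Nat × Nat) :=
  [(5, 15, 18), (5, 15, 19), (5, 15, 20), (5, 15, 21), (5, 15, 22), (5, 16, 16), (5, 16, 17), (5, 16, 18), (5, 16, 19), (5, 16, 20), (5, 16, 21), (5, 16, 22), (5, 17, 17), (5, 17, 18), (5, 17, 19), (5, 17, 20), (5, 17, 21), (5, 17, 22), (5, 18, 18), (5, 18, 19), (5, 18, 20), (5, 18, 21), (5, 18, 22), (5, 19, 19), (5, 19, 20), (5, 19, 21), (5, 19, 22), (5, 20, 20), (5, 20, 21), (5, 20, 22), (5, 21, 21), (5, 21, 22)]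

theorem b64 : AllL OkB b64l :=
  AllL.cons (i := 5) (j := 15) (k := 18) (OkB.mk ⟨13, 14, 15, 63, 72, 103, 16⟩ ⟨7, 8, 8, 52, 82, 103, 7⟩
    17 (-3) 9 11 0 (-9) 104293230834765266945 (by decide +kernel)) <|
  AllL.cons (i := 5) (j := 15) (k := 19) (OkB.mk ⟨13, 14, 15, 63, 72, 103, 16⟩ ⟨7, 8, 8, 52, 82, 103, 7⟩
    17 0 10 11 (-1) (-9) 112512982813998317569 (by decide +kernel)) <|
  AllL.cons (i := 5) (j := 15) (k := 20) (OkB.mk ⟨13, 14, 15, 63, 72, 103, 16⟩ ⟨7, 8, 8, 52, 82, 103, 7⟩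
    17 2 10 12 (-3) (-9) 115591036891215953921 (by decide +kernel)) <|
  AllL.cons (i := 5) (j := 15) (k := 21) (OkB.mk ⟨13, 13, 16, 63, 72, 103, 16⟩ ⟨7, 8, 8, 52, 82, 103, 7⟩
    17 4 10 13 (-5) (-9) 127705970577493721089 (by decide +kernel)) <|
  AllL.cons (i := 5) (j := 15) (k := 22) (OkB.mk ⟨13, 13, 15, 63, 72, 103, 16⟩ ⟨7, 8, 8, 52, 82, 103, 7⟩
    18 6 11 15 (-7) (-10) 101268352713279668225 (by decide +kernel)) <|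
  AllL.cons (i := 5) (j := 16) (k := 16) (OkB.mk ⟨13, 14, 15, 63, 72, 103, 16⟩ ⟨7, 7, 8, 52, 82, 103, 7⟩
    16 (-7) 6 10 1 (-10) 108422549007459418113 (by decide +kernel)) <|
  AllL.cons (i := 5) (j := 16) (k := 17) (OkB.mk ⟨13, 14, 15, 63, 72, 103, 16⟩ ⟨8, 7, 8, 52, 82, 103, 7⟩
    17 (-5) 7 10 1 (-9) 102519944803679993857 (by decide +kernel)) <|
  AllL.cons (i := 5) (j := 16) (k := 18) (OkB.mk ⟨13, 14, 15, 63, 72, 103, 16⟩ ⟨7, 8, 8, 52, 82, 103, 7⟩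
    17 (-3) 7 10 0 (-9) 108868407844470259713 (by decide +kernel)) <|
  AllL.cons (i := 5) (j := 16) (k := 19) (OkB.mk ⟨13, 14, 15, 63, 72, 103, 16⟩ ⟨7, 8, 8, 52, 82, 103, 7⟩
    17 (-1) 8 10 (-1) (-8) 121638720417329840129 (by decide +kernel)) <|
  AllL.cons (i := 5) (j := 16) (k := 20) (OkB.mk ⟨13, 14, 15, 63, 72, 103, 16⟩ ⟨7, 8, 8, 52, 82, 103, 7⟩
    18 1 8 11 (-3) (-9) 129224076177568694273 (by decide +kernel)) <|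
  AllL.cons (i := 5) (j := 16) (k := 21) (OkB.mk ⟨13, 14, 15, 63, 72, 103, 16⟩ ⟨7, 8, 8, 52, 82, 103, 7⟩
    18 3 8 12 (-5) (-9) 117670785537703673857 (by decide +kernel)) <|
  AllL.cons (i := 5) (j := 16) (k := 22) (OkB.mk ⟨13, 13, 15, 63, 72, 103, 16⟩ ⟨7, 8, 8, 52, 82, 103, 7⟩
    18 5 8 13 (-7) (-9) 119713220058079559681 (by decide +kernel)) <|
  AllL.cons (i := 5) (j := 17) (k := 17) (OkB.mk ⟨13, 14, 14, 63, 72, 103, 16⟩ ⟨7, 8, 8, 52, 82, 103, 7⟩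
    17 (-5) 5 9 0 (-9) 111837050619119534081 (by decide +kernel)) <|
  AllL.cons (i := 5) (j := 17) (k := 18) (OkB.mk ⟨13, 14, 14, 63, 72, 103, 16⟩ ⟨7, 8, 8, 52, 82, 103, 7⟩
    17 (-3) 6 9 0 (-9) 123199906119931658241 (by decide +kernel)) <|
  AllL.cons (i := 5) (j := 17) (k := 19) (OkB.mk ⟨13, 14, 14, 63, 72, 103, 16⟩ ⟨7, 8, 8, 52, 82, 103, 7⟩
    18 (-2) 6 10 (-1) (-8) 141207299915710988289 (by decide +kernel)) <|
  AllL.cons (i := 5) (j := 17) (k := 20) (OkB.mk ⟨13, 14, 14, 63, 72, 103, 16⟩ ⟨7, 8, 8, 52, 82, 103, 7⟩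
    18 0 6 10 (-3) (-8) 166388010375438139393 (by decide +kernel)) <|
  AllL.cons (i := 5) (j := 17) (k := 21) (OkB.mk ⟨13, 14, 14, 63, 72, 103, 16⟩ ⟨7, 8, 8, 52, 82, 103, 7⟩
    18 2 7 11 (-4) (-9) 154934542884430413825 (by decide +kernel)) <|
  AllL.cons (i := 5) (j := 17) (k := 22) (OkB.mk ⟨13, 13, 15, 63, 72, 103, 16⟩ ⟨7, 8, 8, 52, 82, 103, 7⟩
    19 4 6 12 (-6) (-9) 153493277479096287233 (by decide +kernel)) <|
  AllL.cons (i := 5) (j := 18) (k := 18) (OkB.mk ⟨13, 14, 14, 63, 72, 103, 16⟩ ⟨7, 8, 8, 52, 82, 103, 7⟩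
    18 (-4) 4 9 (-1) (-9) 137491156634819362817 (by decide +kernel)) <|
  AllL.cons (i := 5) (j := 18) (k := 19) (OkB.mk ⟨13, 14, 14, 63, 72, 103, 15⟩ ⟨7, 8, 8, 52, 82, 103, 7⟩
    18 (-2) 4 9 (-1) (-8) 170782522918731513857 (by decide +kernel)) <|
  AllL.cons (i := 5) (j := 18) (k := 20) (OkB.mk ⟨13, 14, 15, 63, 72, 103, 15⟩ ⟨7, 8, 8, 52, 82, 103, 7⟩
    19 0 5 9 (-2) (-8) 213530422300895084545 (by decide +kernel)) <|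
  AllL.cons (i := 5) (j := 18) (k := 21) (OkB.mk ⟨13, 14, 14, 63, 72, 103, 15⟩ ⟨7, 8, 8, 52, 82, 103, 7⟩
    19 2 5 10 (-4) (-9) 191435199716500963329 (by decide +kernel)) <|
  AllL.cons (i := 5) (j := 18) (k := 22) (OkB.mk ⟨13, 14, 14, 63, 72, 103, 15⟩ ⟨7, 8, 8, 52, 82, 103, 7⟩
    19 3 5 12 (-6) (-9) 151067245479460864001 (by decide +kernel)) <|
  AllL.cons (i := 5) (j := 19) (k := 19) (OkB.mk ⟨13, 14, 14, 63, 72, 103, 15⟩ ⟨7, 8, 8, 52, 82, 103, 7⟩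
    19 (-2) 3 9 (-2) (-9) 233759836599994023937 (by decide +kernel)) <|
  AllL.cons (i := 5) (j := 19) (k := 20) (OkB.mk ⟨13, 15, 14, 63, 72, 103, 15⟩ ⟨8, 8, 8, 52, 82, 103, 7⟩
    19 (-1) 3 9 (-3) (-9) 230901933475398418433 (by decide +kernel)) <|
  AllL.cons (i := 5) (j := 19) (k := 21) (OkB.mk ⟨13, 14, 15, 63, 72, 103, 15⟩ ⟨8, 8, 8, 52, 82, 103, 7⟩
    20 1 3 10 (-4) (-9) 245134307341641973761 (by decide +kernel)) <|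
  AllL.cons (i := 5) (j := 19) (k := 22) (OkB.mk ⟨13, 14, 14, 63, 72, 103, 15⟩ ⟨7, 8, 8, 52, 82, 103, 7⟩
    20 2 3 11 (-6) (-9) 206476855097595789313 (by decide +kernel)) <|
  AllL.cons (i := 5) (j := 20) (k := 20) (OkB.mk ⟨13, 15, 15, 63, 72, 103, 15⟩ ⟨8, 8, 9, 52, 82, 103, 7⟩
    20 (-1) 2 9 (-3) (-9) 235678449343530008577 (by decide +kernel)) <|
  AllL.cons (i := 5) (j := 20) (k := 21) (OkB.mk ⟨13, 15, 15, 63, 72, 103, 15⟩ ⟨8, 8, 9, 52, 82, 103, 7⟩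
    20 0 2 10 (-4) (-9) 242106200504261410817 (by decide +kernel)) <|
  AllL.cons (i := 5) (j := 20) (k := 22) (OkB.mk ⟨13, 14, 15, 63, 72, 103, 15⟩ ⟨7, 8, 9, 52, 82, 103, 7⟩
    20 2 2 11 (-5) (-9) 250424103000288002049 (by decide +kernel)) <|
  AllL.cons (i := 5) (j := 21) (k := 21) (OkB.mk ⟨13, 15, 15, 63, 72, 103, 15⟩ ⟨8, 8, 9, 52, 82, 103, 7⟩
    20 0 0 9 (-4) (-10) 264866271931448426497 (by decide +kernel)) <|
  AllL.cons (i := 5) (j := 21) (k := 22) (OkB.mk ⟨13, 14, 16, 63, 72, 103, 15⟩ ⟨7, 8, 9, 52, 82, 103, 7⟩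
    21 1 0 10 (-5) (-10) 321123608862889345025 (by decide +kernel)) <|
  AllL.nil

end Pool.Agent.MP_48470b_gt.Run
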