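import Pool.Agent.MP_48470b_gt.Run.OkB
import Pool.Agent.MP_48470b_gt.Run.B64

/-! Runs of the tests. -/

namespace Pool.Agent.MP_48470b_gt.Run

/-- the boxes of this part -/
def b65l : List (Nat × Nat × Nat) :=
  [(5, 22, 22), (6, 6, 6), (6, 6, 7), (6, 6, 8), (6, 6, 9), (6, 6, 10), (6, 6, 11), (6, 6, 12), (6, 6, 13), (6, 6, 14), (6, 6, 15), (6, 6, 16), (6, 6, 17), (6, 6, 18), (6, 6, 19), (6, 6, 20), (6, 6, 21), (6, 6, 22), (6, 7, 7), (6, 7, 8), (6, 7, 9), (6, 7, 10)]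

theorem b65 : AllL OkB b65l :=
  AllL.cons (i := 5) (j := 22) (k := 22) (OkB.mk ⟨13, 15, 14, 63, 72, 103, 15⟩ ⟨7, 8, 9, 52, 82, 103, 7⟩
    21 0 0 10 (-6) (-12) 364565610694214418433 (by decide +kernel)) <|
  AllL.cons (i := 6) (j := 6) (k := 6) (OkB.mk ⟨16, 16, 16, 63, 72, 103, 15⟩ ⟨10, 10, 10, 52, 82, 103, 7⟩
    16 (-16) 10 23 11 (-25) 83423915336829763585 (by decide +kernel)) <|
  AllL.cons (i := 6) (j := 6) (k := 7) (OkB.mk ⟨16, 16, 16, 63, 72, 103, 15⟩ ⟨9, 9, 10, 52, 82, 103, 7⟩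
    15 (-14) 9 24 11 (-23) 79650509765241470977 (by decide +kernel)) <|
  AllL.cons (i := 6) (j := 6) (k := 8) (OkB.mk ⟨17, 15, 17, 63, 72, 103, 15⟩ ⟨11, 9, 9, 52, 82, 103, 7⟩
    14 (-13) 9 26 11 (-21) 76053660059989704705 (by decide +kernel)) <|
  AllL.cons (i := 6) (j := 6) (k := 9) (OkB.mk ⟨17, 15, 17, 63, 72, 103, 15⟩ ⟨9, 9, 10, 52, 82, 103, 7⟩
    13 (-12) 11 27 9 (-20) 66403542683944484865 (by decide +kernel)) <|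
  AllL.cons (i := 6) (j := 6) (k := 10) (OkB.mk ⟨17, 15, 17, 63, 72, 103, 15⟩ ⟨9, 9, 9, 52, 82, 103, 7⟩
    12 (-10) 12 27 10 (-20) 61849875695091580929 (by decide +kernel)) <|
  AllL.cons (i := 6) (j := 6) (k := 11) (OkB.mk ⟨17, 15, 17, 63, 72, 103, 15⟩ ⟨9, 8, 10, 52, 82, 103, 7⟩
    12 (-9) 13 27 8 (-20) 62807180886977544193 (by decide +kernel)) <|
  AllL.cons (i := 6) (j := 6) (k := 12) (OkB.mk ⟨17, 15, 18, 63, 72, 103, 15⟩ ⟨9, 10, 10, 52, 82, 103, 7⟩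
    11 (-8) 15 26 6 (-20) 66238744307760627713 (by decide +kernel)) <|
  AllL.cons (i := 6) (j := 6) (k := 13) (OkB.mk ⟨18, 15, 18, 63, 72, 103, 15⟩ ⟨10, 9, 10, 52, 82, 103, 7⟩
    10 (-7) 18 28 3 (-21) 68178524436837695489 (by decide +kernel)) <|
  AllL.cons (i := 6) (j := 6) (k := 14) (OkB.mk ⟨19, 15, 19, 63, 72, 103, 15⟩ ⟨11, 9, 11, 52, 82, 103, 7⟩
    9 (-5) 20 30 3 (-22) 59580977650960695297 (by decide +kernel)) <|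
  AllL.cons (i := 6) (j := 6) (k := 15) (OkB.mk ⟨19, 15, 20, 63, 72, 103, 15⟩ ⟨11, 9, 12, 52, 82, 103, 7⟩
    9 (-3) 21 33 3 (-23) 63560231178161094657 (by decide +kernel)) <|
  AllL.cons (i := 6) (j := 6) (k := 16) (OkB.mk ⟨20, 14, 21, 63, 72, 103, 15⟩ ⟨12, 9, 12, 52, 82, 103, 7⟩
    9 (-1) 23 35 0 (-25) 73247082275617636353 (by decide +kernel)) <|
  AllL.cons (i := 6) (j := 6) (k := 17) (OkB.mk ⟨20, 14, 21, 63, 72, 103, 15⟩ ⟨12, 9, 12, 52, 82, 103, 7⟩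
    8 1 25 37 (-3) (-26) 70586608420978163713 (by decide +kernel)) <|
  AllL.cons (i := 6) (j := 6) (k := 18) (OkB.mk ⟨21, 14, 21, 63, 72, 103, 15⟩ ⟨12, 9, 13, 52, 82, 103, 7⟩
    8 3 26 39 (-7) (-27) 69455133440426901505 (by decide +kernel)) <|
  AllL.cons (i := 6) (j := 6) (k := 19) (OkB.mk ⟨20, 15, 22, 63, 72, 103, 14⟩ ⟨13, 9, 13, 52, 82, 103, 7⟩
    8 6 27 41 4 (-28) 71450266145942142977 (by decide +kernel)) <|
  AllL.cons (i := 6) (j := 6) (k := 20) (OkB.mk ⟨20, 15, 22, 63, 72, 103, 14⟩ ⟨13, 9, 13, 52, 82, 103, 7⟩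
    8 8 27 44 (-7) (-29) 70075705637164023809 (by decide +kernel)) <|
  AllL.cons (i := 6) (j := 6) (k := 21) (OkB.mk ⟨20, 14, 21, 63, 72, 103, 14⟩ ⟨12, 9, 13, 52, 82, 103, 7⟩
    8 11 27 52 (-6) (-29) 73314831708220030977 (by decide +kernel)) <|
  AllL.cons (i := 6) (j := 6) (k := 22) (OkB.mk ⟨20, 14, 20, 63, 72, 103, 14⟩ ⟨12, 9, 13, 52, 82, 103, 7⟩
    9 13 23 61 (-24) (-29) 63335372116748926977 (by decide +kernel)) <|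
  AllL.cons (i := 6) (j := 7) (k := 7) (OkB.mk ⟨16, 16, 17, 63, 72, 103, 15⟩ ⟨9, 9, 9, 52, 82, 103, 7⟩
    14 (-13) 9 21 8 (-23) 74498021668427923457 (by decide +kernel)) <|
  AllL.cons (i := 6) (j := 7) (k := 8) (OkB.mk ⟨17, 15, 17, 63, 72, 103, 15⟩ ⟨9, 9, 9, 52, 82, 103, 7⟩
    13 (-12) 9 22 7 (-21) 73361808205077807105 (by decide +kernel)) <|
  AllL.cons (i := 6) (j := 7) (k := 9) (OkB.mk ⟨17, 15, 16, 63, 72, 103, 15⟩ ⟨9, 8, 9, 52, 82, 103, 7⟩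
    13 (-11) 10 23 7 (-20) 70846502046019878913 (by decide +kernel)) <|
  AllL.cons (i := 6) (j := 7) (k := 10) (OkB.mk ⟨17, 15, 16, 63, 72, 103, 15⟩ ⟨9, 8, 9, 52, 82, 103, 7⟩
    13 (-10) 12 23 6 (-19) 70650229049979305985 (by decide +kernel)) <|
  AllL.nil

end Pool.Agent.MP_48470b_gt.Run
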