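import Pool.Agent.MP_48470b_gt.Run.OkB
import Pool.Agent.MP_48470b_gt.Run.F33

/-! Runs of the tests. -/

namespace Pool.Agent.MP_48470b_gt.Run

/-- the boxes of this part -/
def b66l : List (Nat × Nat × Nat) :=
  [(6, 7, 11), (6, 7, 12), (6, 7, 13), (6, 7, 14), (6, 7, 15), (6, 7, 16), (6, 7, 17), (6, 7, 18), (6, 7, 19), (6, 7, 20), (6, 7, 21), (6, 7, 22), (6, 8, 8), (6, 8, 9), (6, 8, 10), (6, 8, 11), (6, 8, 12), (6, 8, 13), (6, 8, 14), (6, 8, 15), (6, 8, 16), (6, 8, 17), (6, 8, 18)]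

theorem b66 : AllL OkB b66l :=
  AllL.cons (i := 6) (j := 7) (k := 11) (OkB.mk ⟨17, 14, 18, 63, 72, 103, 15⟩ ⟨9, 8, 9, 52, 82, 103, 7⟩
    12 (-9) 14 23 6 (-19) 68210669346470494209 (by decide +kernel)) <|
  AllL.cons (i := 6) (j := 7) (k := 12) (OkB.mk ⟨17, 15, 17, 63, 72, 103, 15⟩ ⟨9, 8, 10, 52, 82, 103, 7⟩
    11 (-8) 16 21 4 (-19) 67373948144558538753 (by decide +kernel)) <|
  AllL.cons (i := 6) (j := 7) (k := 13) (OkB.mk ⟨17, 15, 18, 63, 72, 103, 15⟩ ⟨10, 8, 10, 52, 82, 103, 7⟩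
    11 (-7) 18 22 2 (-19) 65699047375999336449 (by decide +kernel)) <|
  AllL.cons (i := 6) (j := 7) (k := 14) (OkB.mk ⟨18, 15, 19, 63, 72, 103, 15⟩ ⟨10, 9, 11, 52, 82, 103, 7⟩
    10 (-5) 20 24 4 (-20) 54852347300925145089 (by decide +kernel)) <|
  AllL.cons (i := 6) (j := 7) (k := 15) (OkB.mk ⟨18, 15, 20, 63, 72, 103, 15⟩ ⟨11, 9, 11, 52, 82, 103, 7⟩
    10 (-4) 23 26 0 (-21) 58976877237919285249 (by decide +kernel)) <|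
  AllL.cons (i := 6) (j := 7) (k := 16) (OkB.mk ⟨19, 14, 21, 63, 72, 103, 15⟩ ⟨11, 9, 12, 52, 82, 103, 7⟩
    9 (-2) 25 28 (-2) (-22) 67529175134583652353 (by decide +kernel)) <|
  AllL.cons (i := 6) (j := 7) (k := 17) (OkB.mk ⟨19, 14, 21, 63, 72, 103, 15⟩ ⟨11, 9, 13, 52, 82, 103, 7⟩
    9 0 26 30 (-5) (-23) 67524880854482419713 (by decide +kernel)) <|
  AllL.cons (i := 6) (j := 7) (k := 18) (OkB.mk ⟨20, 14, 21, 63, 72, 103, 15⟩ ⟨12, 9, 13, 52, 82, 103, 7⟩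
    9 3 28 32 2 (-25) 65856109038614347777 (by decide +kernel)) <|
  AllL.cons (i := 6) (j := 7) (k := 19) (OkB.mk ⟨20, 14, 23, 63, 72, 103, 15⟩ ⟨12, 9, 13, 52, 82, 103, 7⟩
    9 5 29 34 (-4) (-27) 70379447236165632001 (by decide +kernel)) <|
  AllL.cons (i := 6) (j := 7) (k := 20) (OkB.mk ⟨20, 15, 22, 63, 72, 103, 15⟩ ⟨12, 9, 14, 52, 82, 103, 7⟩
    9 8 32 36 1 (-28) 63753666747007238145 (by decide +kernel)) <|
  AllL.cons (i := 6) (j := 7) (k := 21) (OkB.mk ⟨21, 14, 22, 63, 72, 103, 14⟩ ⟨12, 9, 14, 52, 82, 103, 7⟩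
    9 10 31 41 (-7) (-29) 70146674027495686145 (by decide +kernel)) <|
  AllL.cons (i := 6) (j := 7) (k := 22) (OkB.mk ⟨20, 14, 22, 63, 72, 103, 14⟩ ⟨12, 9, 13, 52, 82, 103, 7⟩
    9 13 32 49 (-6) (-30) 60544089363752943617 (by decide +kernel)) <|
  AllL.cons (i := 6) (j := 8) (k := 8) (OkB.mk ⟨18, 16, 15, 63, 72, 103, 16⟩ ⟨11, 8, 8, 52, 82, 103, 7⟩
    13 (-12) 9 20 6 (-21) 74396203180844122113 (by decide +kernel)) <|
  AllL.cons (i := 6) (j := 8) (k := 9) (OkB.mk ⟨17, 15, 16, 63, 72, 103, 16⟩ ⟨9, 8, 8, 52, 82, 103, 7⟩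
    13 (-11) 10 20 6 (-20) 58935542610101534721 (by decide +kernel)) <|
  AllL.cons (i := 6) (j := 8) (k := 10) (OkB.mk ⟨16, 15, 16, 63, 72, 103, 16⟩ ⟨9, 8, 8, 52, 82, 103, 7⟩
    13 (-10) 11 20 6 (-18) 67815631311284994049 (by decide +kernel)) <|
  AllL.cons (i := 6) (j := 8) (k := 11) (OkB.mk ⟨17, 14, 16, 63, 72, 103, 16⟩ ⟨9, 8, 8, 52, 82, 103, 7⟩
    13 (-9) 13 19 4 (-18) 67836765986355150849 (by decide +kernel)) <|
  AllL.cons (i := 6) (j := 8) (k := 12) (OkB.mk ⟨16, 15, 17, 63, 72, 103, 16⟩ ⟨9, 8, 9, 52, 82, 103, 7⟩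
    12 (-8) 15 18 4 (-18) 61965020538481934337 (by decide +kernel)) <|
  AllL.cons (i := 6) (j := 8) (k := 13) (OkB.mk ⟨17, 14, 18, 63, 72, 103, 16⟩ ⟨9, 8, 10, 52, 82, 103, 7⟩
    12 (-7) 17 19 3 (-17) 63171178884277207041 (by decide +kernel)) <|
  AllL.cons (i := 6) (j := 8) (k := 14) (OkB.mk ⟨17, 14, 18, 63, 72, 103, 16⟩ ⟨10, 8, 10, 52, 82, 103, 7⟩
    11 (-6) 19 20 2 (-18) 63851638180844404737 (by decide +kernel)) <|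
  AllL.cons (i := 6) (j := 8) (k := 15) (OkB.mk ⟨17, 14, 19, 63, 72, 103, 15⟩ ⟨10, 8, 11, 52, 82, 103, 7⟩
    11 (-4) 21 21 2 (-18) 61647022259397722113 (by decide +kernel)) <|
  AllL.cons (i := 6) (j := 8) (k := 16) (OkB.mk ⟨17, 14, 20, 63, 72, 103, 15⟩ ⟨10, 9, 11, 52, 82, 103, 7⟩
    10 (-2) 23 23 2 (-19) 61761960119724146689 (by decide +kernel)) <|
  AllL.cons (i := 6) (j := 8) (k := 17) (OkB.mk ⟨17, 14, 20, 63, 72, 103, 15⟩ ⟨10, 9, 12, 52, 82, 103, 7⟩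
    10 0 25 25 1 (-20) 65964178936996823041 (by decide +kernel)) <|
  AllL.cons (i := 6) (j := 8) (k := 18) (OkB.mk ⟨18, 14, 20, 63, 72, 103, 15⟩ ⟨11, 9, 12, 52, 82, 103, 7⟩
    10 2 27 26 (-3) (-21) 59716940647511359489 (by decide +kernel)) <|
  AllL.nil

end Pool.Agent.MP_48470b_gt.Run
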