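import Pool.Agent.MP_48470b_gt.Run.OkB
import Pool.Agent.MP_48470b_gt.Run.B66

/-! Runs of the tests. -/

namespace Pool.Agent.MP_48470b_gt.Run

/-- the boxes of this part -/
def b67l : List (Nat × Nat × Nat) :=
  [(6, 8, 19), (6, 8, 20), (6, 8, 21), (6, 8, 22), (6, 9, 9), (6, 9, 10), (6, 9, 11), (6, 9, 12), (6, 9, 13), (6, 9, 14), (6, 9, 15), (6, 9, 16), (6, 9, 17), (6, 9, 18), (6, 9, 19), (6, 9, 20), (6, 9, 21), (6, 9, 22), (6, 10, 10), (6, 10, 11), (6, 10, 12), (6, 10, 13), (6, 10, 14), (6, 10, 15), (6, 10, 16)]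

theorem b67 : AllL OkB b67l :=
  AllL.cons (i := 6) (j := 8) (k := 19) (OkB.mk ⟨18, 14, 21, 63, 72, 103, 15⟩ ⟨11, 9, 12, 52, 82, 103, 7⟩
    9 5 29 28 1 (-22) 60120413448710389761 (by decide +kernel)) <|
  AllL.cons (i := 6) (j := 8) (k := 20) (OkB.mk ⟨19, 14, 21, 63, 72, 103, 15⟩ ⟨11, 9, 13, 52, 82, 103, 7⟩
    9 7 30 29 (-4) (-24) 67150506765951434753 (by decide +kernel)) <|
  AllL.cons (i := 6) (j := 8) (k := 21) (OkB.mk ⟨19, 14, 22, 63, 72, 103, 15⟩ ⟨11, 9, 14, 52, 82, 103, 7⟩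
    9 10 32 34 (-2) (-25) 57740351755354374145 (by decide +kernel)) <|
  AllL.cons (i := 6) (j := 8) (k := 22) (OkB.mk ⟨19, 14, 22, 63, 72, 103, 15⟩ ⟨11, 9, 14, 52, 82, 103, 7⟩
    10 12 31 40 (-13) (-27) 56112258846057037825 (by decide +kernel)) <|
  AllL.cons (i := 6) (j := 9) (k := 9) (OkB.mk ⟨16, 15, 15, 63, 72, 103, 16⟩ ⟨9, 8, 8, 52, 82, 103, 7⟩
    13 (-12) 9 18 4 (-19) 70323125165349666817 (by decide +kernel)) <|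
  AllL.cons (i := 6) (j := 9) (k := 10) (OkB.mk ⟨16, 15, 15, 63, 72, 103, 16⟩ ⟨8, 8, 8, 52, 82, 103, 7⟩
    13 (-11) 11 18 4 (-18) 60043917813425897473 (by decide +kernel)) <|
  AllL.cons (i := 6) (j := 9) (k := 11) (OkB.mk ⟨17, 14, 15, 63, 72, 103, 16⟩ ⟨8, 8, 8, 52, 82, 103, 7⟩
    13 (-10) 12 17 3 (-17) 66906090141460201473 (by decide +kernel)) <|
  AllL.cons (i := 6) (j := 9) (k := 12) (OkB.mk ⟨16, 14, 17, 63, 72, 103, 16⟩ ⟨8, 8, 9, 52, 82, 103, 7⟩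
    13 (-8) 14 16 4 (-16) 66112181310993727489 (by decide +kernel)) <|
  AllL.cons (i := 6) (j := 9) (k := 13) (OkB.mk ⟨16, 14, 17, 63, 72, 103, 16⟩ ⟨8, 8, 9, 52, 82, 103, 7⟩
    13 (-7) 15 16 3 (-16) 56235074432318570497 (by decide +kernel)) <|
  AllL.cons (i := 6) (j := 9) (k := 14) (OkB.mk ⟨16, 14, 17, 63, 72, 103, 16⟩ ⟨9, 8, 9, 52, 82, 103, 7⟩
    12 (-6) 17 17 3 (-16) 55895599804925870081 (by decide +kernel)) <|
  AllL.cons (i := 6) (j := 9) (k := 15) (OkB.mk ⟨16, 14, 17, 63, 72, 103, 16⟩ ⟨9, 8, 10, 52, 82, 103, 7⟩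
    11 (-5) 19 18 1 (-16) 60521219384456249345 (by decide +kernel)) <|
  AllL.cons (i := 6) (j := 9) (k := 16) (OkB.mk ⟨16, 14, 18, 63, 72, 103, 15⟩ ⟨9, 8, 10, 52, 82, 103, 7⟩
    11 (-3) 21 19 0 (-16) 55003402468956569601 (by decide +kernel)) <|
  AllL.cons (i := 6) (j := 9) (k := 17) (OkB.mk ⟨16, 14, 18, 63, 72, 103, 15⟩ ⟨9, 8, 11, 52, 82, 103, 7⟩
    11 (-1) 22 20 (-2) (-16) 58535910265579372545 (by decide +kernel)) <|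
  AllL.cons (i := 6) (j := 9) (k := 18) (OkB.mk ⟨16, 14, 18, 63, 72, 103, 15⟩ ⟨9, 8, 11, 52, 82, 103, 7⟩
    10 2 24 22 0 (-17) 66631340052742930433 (by decide +kernel)) <|
  AllL.cons (i := 6) (j := 9) (k := 19) (OkB.mk ⟨17, 13, 19, 63, 72, 103, 15⟩ ⟨10, 8, 11, 52, 82, 103, 7⟩
    10 4 25 23 (-3) (-18) 67874539983205302273 (by decide +kernel)) <|
  AllL.cons (i := 6) (j := 9) (k := 20) (OkB.mk ⟨17, 13, 20, 63, 72, 103, 15⟩ ⟨10, 9, 11, 52, 82, 103, 7⟩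
    10 7 27 25 (-3) (-20) 70175975187742195713 (by decide +kernel)) <|
  AllL.cons (i := 6) (j := 9) (k := 21) (OkB.mk ⟨17, 13, 20, 63, 72, 103, 15⟩ ⟨10, 8, 12, 52, 82, 103, 7⟩
    10 9 27 29 (-10) (-21) 64781402805477834753 (by decide +kernel)) <|
  AllL.cons (i := 6) (j := 9) (k := 22) (OkB.mk ⟨17, 13, 20, 63, 72, 103, 15⟩ ⟨10, 8, 12, 52, 82, 103, 7⟩
    10 12 29 34 (-10) (-22) 66365939111396638721 (by decide +kernel)) <|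
  AllL.cons (i := 6) (j := 10) (k := 10) (OkB.mk ⟨16, 14, 15, 63, 72, 103, 16⟩ ⟨9, 7, 9, 52, 82, 103, 7⟩
    14 (-12) 9 16 4 (-17) 65984485404933357569 (by decide +kernel)) <|
  AllL.cons (i := 6) (j := 10) (k := 11) (OkB.mk ⟨15, 14, 15, 63, 72, 103, 16⟩ ⟨8, 7, 9, 52, 82, 103, 7⟩
    14 (-10) 10 16 5 (-16) 62229111961479544833 (by decide +kernel)) <|
  AllL.cons (i := 6) (j := 10) (k := 12) (OkB.mk ⟨15, 14, 16, 63, 72, 103, 16⟩ ⟨8, 8, 8, 52, 82, 103, 7⟩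
    14 (-9) 12 14 3 (-15) 61842742613406384129 (by decide +kernel)) <|
  AllL.cons (i := 6) (j := 10) (k := 13) (OkB.mk ⟨15, 14, 15, 63, 72, 103, 16⟩ ⟨8, 8, 8, 52, 82, 103, 7⟩
    13 (-8) 14 14 2 (-14) 66474169538476769281 (by decide +kernel)) <|
  AllL.cons (i := 6) (j := 10) (k := 14) (OkB.mk ⟨15, 14, 16, 63, 72, 103, 16⟩ ⟨8, 8, 8, 52, 82, 103, 7⟩
    13 (-6) 15 15 3 (-14) 55074040456044085249 (by decide +kernel)) <|
  AllL.cons (i := 6) (j := 10) (k := 15) (OkB.mk ⟨15, 14, 16, 63, 72, 103, 16⟩ ⟨8, 8, 9, 52, 82, 103, 7⟩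
    12 (-5) 17 15 1 (-14) 57185528154935001089 (by decide +kernel)) <|
  AllL.cons (i := 6) (j := 10) (k := 16) (OkB.mk ⟨15, 14, 16, 63, 72, 103, 16⟩ ⟨8, 8, 9, 52, 82, 103, 7⟩
    12 (-3) 18 16 1 (-14) 61439537405849763841 (by decide +kernel)) <|
  AllL.nil

end Pool.Agent.MP_48470b_gt.Run
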