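import Pool.Agent.MP_48470b_gt.Run.OkF

/-! Runs of the tests. -/

namespace Pool.Agent.MP_48470b_gt.Run

/-- the boxes of this part -/
def f34l : List (Nat × Nat × Nat) :=
  [(6, 21, 22), (6, 22, 22), (7, 7, 7), (7, 7, 8), (7, 7, 9), (7, 7, 10), (7, 7, 11), (7, 7, 12), (7, 7, 13), (7, 7, 14), (7, 7, 15), (7, 7, 16), (7, 7, 17), (7, 7, 18), (7, 7, 19), (7, 7, 20), (7, 7, 21), (7, 7, 22), (7, 8, 8), (7, 8, 9), (7, 8, 10), (7, 8, 11), (7, 8, 12), (7, 8, 13), (7, 8, 14), (7, 8, 15), (7, 8, 16), (7, 8, 17), (7, 8, 18), (7, 8, 19), (7, 8, 20), (7, 8, 21), (7, 8, 22), (7, 9, 9), (7, 9, 10), (7, 9, 11), (7, 9, 12), (7, 9, 13), (7, 9, 14), (7, 9, 15), (7, 9, 16), (7, 9, 17), (7, 9, 18), (7, 9, 19), (7, 9, 20), (7, 9, 21), (7, 9, 22), (7, 10, 10), (7, 10, 11)]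

theorem f34 : AllL OkF f34l :=
  AllL.cons (i := 6) (j := 21) (k := 22) (OkF.mk (by decide +kernel)) <|
  AllL.cons (i := 6) (j := 22) (k := 22) (OkF.mk (by decide +kernel)) <|
  AllL.cons (i := 7) (j := 7) (k := 7) (OkF.mk (by decide +kernel)) <|
  AllL.cons (i := 7) (j := 7) (k := 8) (OkF.mk (by decide +kernel)) <|
  AllL.cons (i := 7) (j := 7) (k := 9) (OkF.mk (by decide +kernel)) <|
  AllL.cons (i := 7) (j := 7) (k := 10) (OkF.mk (by decide +kernel)) <|
  AllL.cons (i := 7) (j := 7) (k := 11) (OkF.mk (by decide +kernel)) <|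
  AllL.cons (i := 7) (j := 7) (k := 12) (OkF.mk (by decide +kernel)) <|
  AllL.cons (i := 7) (j := 7) (k := 13) (OkF.mk (by decide +kernel)) <|
  AllL.cons (i := 7) (j := 7) (k := 14) (OkF.mk (by decide +kernel)) <|
  AllL.cons (i := 7) (j := 7) (k := 15) (OkF.mk (by decide +kernel)) <|
  AllL.cons (i := 7) (j := 7) (k := 16) (OkF.mk (by decide +kernel)) <|
  AllL.cons (i := 7) (j := 7) (k := 17) (OkF.mk (by decide +kernel)) <|
  AllL.cons (i := 7) (j := 7) (k := 18) (OkF.mk (by decide +kernel)) <|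
  AllL.cons (i := 7) (j := 7) (k := 19) (OkF.mk (by decide +kernel)) <|
  AllL.cons (i := 7) (j := 7) (k := 20) (OkF.mk (by decide +kernel)) <|
  AllL.cons (i := 7) (j := 7) (k := 21) (OkF.mk (by decide +kernel)) <|
  AllL.cons (i := 7) (j := 7) (k := 22) (OkF.mk (by decide +kernel)) <|
  AllL.cons (i := 7) (j := 8) (k := 8) (OkF.mk (by decide +kernel)) <|
  AllL.cons (i := 7) (j := 8) (k := 9) (OkF.mk (by decide +kernel)) <|
  AllL.cons (i := 7) (j := 8) (k := 10) (OkF.mk (by decide +kernel)) <|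
  AllL.cons (i := 7) (j := 8) (k := 11) (OkF.mk (by decide +kernel)) <|
  AllL.cons (i := 7) (j := 8) (k := 12) (OkF.mk (by decide +kernel)) <|
  AllL.cons (i := 7) (j := 8) (k := 13) (OkF.mk (by decide +kernel)) <|
  AllL.cons (i := 7) (j := 8) (k := 14) (OkF.mk (by decide +kernel)) <|
  AllL.cons (i := 7) (j := 8) (k := 15) (OkF.mk (by decide +kernel)) <|
  AllL.cons (i := 7) (j := 8) (k := 16) (OkF.mk (by decide +kernel)) <|
  AllL.cons (i := 7) (j := 8) (k := 17) (OkF.mk (by decide +kernel)) <|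
  AllL.cons (i := 7) (j := 8) (k := 18) (OkF.mk (by decide +kernel)) <|
  AllL.cons (i := 7) (j := 8) (k := 19) (OkF.mk (by decide +kernel)) <|
  AllL.cons (i := 7) (j := 8) (k := 20) (OkF.mk (by decide +kernel)) <|
  AllL.cons (i := 7) (j := 8) (k := 21) (OkF.mk (by decide +kernel)) <|
  AllL.cons (i := 7) (j := 8) (k := 22) (OkF.mk (by decide +kernel)) <|
  AllL.cons (i := 7) (j := 9) (k := 9) (OkF.mk (by decide +kernel)) <|
  AllL.cons (i := 7) (j := 9) (k := 10) (OkF.mk (by decide +kernel)) <|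
  AllL.cons (i := 7) (j := 9) (k := 11) (OkF.mk (by decide +kernel)) <|
  AllL.cons (i := 7) (j := 9) (k := 12) (OkF.mk (by decide +kernel)) <|
  AllL.cons (i := 7) (j := 9) (k := 13) (OkF.mk (by decide +kernel)) <|
  AllL.cons (i := 7) (j := 9) (k := 14) (OkF.mk (by decide +kernel)) <|
  AllL.cons (i := 7) (j := 9) (k := 15) (OkF.mk (by decide +kernel)) <|
  AllL.cons (i := 7) (j := 9) (k := 16) (OkF.mk (by decide +kernel)) <|
  AllL.cons (i := 7) (j := 9) (k := 17) (OkF.mk (by decide +kernel)) <|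
  AllL.cons (i := 7) (j := 9) (k := 18) (OkF.mk (by decide +kernel)) <|
  AllL.cons (i := 7) (j := 9) (k := 19) (OkF.mk (by decide +kernel)) <|
  AllL.cons (i := 7) (j := 9) (k := 20) (OkF.mk (by decide +kernel)) <|
  AllL.cons (i := 7) (j := 9) (k := 21) (OkF.mk (by decide +kernel)) <|
  AllL.cons (i := 7) (j := 9) (k := 22) (OkF.mk (by decide +kernel)) <|
  AllL.cons (i := 7) (j := 10) (k := 10) (OkF.mk (by decide +kernel)) <|
  AllL.cons (i := 7) (j := 10) (k := 11) (OkF.mk (by decide +kernel)) <|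
  AllL.nil

end Pool.Agent.MP_48470b_gt.Run
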