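import Pool.Agent.MP_48470b_gt.Run.OkB
import Pool.Agent.MP_48470b_gt.Run.F34

/-! Runs of the tests. -/

namespace Pool.Agent.MP_48470b_gt.Run

/-- the boxes of this part -/
def b68l : List (Nat × Nat × Nat) :=
  [(6, 10, 17), (6, 10, 18), (6, 10, 19), (6, 10, 20), (6, 10, 21), (6, 10, 22), (6, 11, 11), (6, 11, 12), (6, 11, 13), (6, 11, 14), (6, 11, 15), (6, 11, 16), (6, 11, 17), (6, 11, 18), (6, 11, 19), (6, 11, 20), (6, 11, 21), (6, 11, 22), (6, 12, 12), (6, 12, 13), (6, 12, 14), (6, 12, 15), (6, 12, 16), (6, 12, 17), (6, 12, 18), (6, 12, 19), (6, 12, 20), (6, 12, 21), (6, 12, 22), (6, 13, 13), (6, 13, 14), (6, 13, 15)]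

theorem b68 : AllL OkB b68l :=
  AllL.cons (i := 6) (j := 10) (k := 17) (OkB.mk ⟨15, 13, 17, 63, 72, 103, 16⟩ ⟨9, 8, 9, 52, 82, 103, 7⟩
    12 (-1) 19 17 0 (-14) 74591167345730781185 (by decide +kernel)) <|
  AllL.cons (i := 6) (j := 10) (k := 18) (OkB.mk ⟨15, 13, 17, 63, 72, 103, 15⟩ ⟨9, 8, 9, 52, 82, 103, 7⟩
    11 1 21 19 (-2) (-15) 72426041071590440961 (by decide +kernel)) <|
  AllL.cons (i := 6) (j := 10) (k := 19) (OkB.mk ⟨15, 13, 17, 63, 72, 103, 15⟩ ⟨9, 8, 10, 52, 82, 103, 7⟩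
    11 4 22 20 (-2) (-15) 71453104397770293249 (by decide +kernel)) <|
  AllL.cons (i := 6) (j := 10) (k := 20) (OkB.mk ⟨15, 13, 18, 63, 72, 103, 15⟩ ⟨9, 8, 10, 52, 82, 103, 7⟩
    11 6 23 21 (-5) (-16) 66536147084789153793 (by decide +kernel)) <|
  AllL.cons (i := 6) (j := 10) (k := 21) (OkB.mk ⟨15, 13, 18, 63, 72, 103, 15⟩ ⟨9, 8, 10, 52, 82, 103, 7⟩
    11 9 24 25 (-7) (-17) 63585790700338282497 (by decide +kernel)) <|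
  AllL.cons (i := 6) (j := 10) (k := 22) (OkB.mk ⟨15, 13, 18, 63, 72, 103, 15⟩ ⟨9, 8, 10, 52, 82, 103, 7⟩
    11 11 24 29 (-12) (-18) 69476414625421459457 (by decide +kernel)) <|
  AllL.cons (i := 6) (j := 11) (k := 11) (OkB.mk ⟨15, 14, 14, 63, 72, 103, 16⟩ ⟨8, 7, 8, 52, 82, 103, 7⟩
    14 (-11) 8 15 4 (-15) 58658089784364236801 (by decide +kernel)) <|
  AllL.cons (i := 6) (j := 11) (k := 12) (OkB.mk ⟨15, 14, 14, 63, 72, 103, 16⟩ ⟨7, 8, 8, 52, 82, 103, 7⟩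
    14 (-9) 10 13 4 (-14) 65832215139114287105 (by decide +kernel)) <|
  AllL.cons (i := 6) (j := 11) (k := 13) (OkB.mk ⟨15, 14, 14, 63, 72, 103, 16⟩ ⟨7, 8, 8, 52, 82, 103, 7⟩
    14 (-8) 11 13 3 (-14) 67312092506597883905 (by decide +kernel)) <|
  AllL.cons (i := 6) (j := 11) (k := 14) (OkB.mk ⟨14, 14, 15, 63, 72, 103, 16⟩ ⟨7, 8, 8, 52, 82, 103, 7⟩
    13 (-7) 13 13 2 (-13) 72109706765915914241 (by decide +kernel)) <|
  AllL.cons (i := 6) (j := 11) (k := 15) (OkB.mk ⟨14, 14, 15, 63, 72, 103, 16⟩ ⟨8, 7, 8, 52, 82, 103, 7⟩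
    13 (-5) 14 14 2 (-13) 69128402839994892289 (by decide +kernel)) <|
  AllL.cons (i := 6) (j := 11) (k := 16) (OkB.mk ⟨15, 13, 15, 63, 72, 103, 16⟩ ⟨8, 7, 9, 52, 82, 103, 7⟩
    13 (-4) 16 14 0 (-13) 70672488113127817217 (by decide +kernel)) <|
  AllL.cons (i := 6) (j := 11) (k := 17) (OkB.mk ⟨14, 13, 16, 63, 72, 103, 16⟩ ⟨8, 7, 9, 52, 82, 103, 7⟩
    12 (-2) 17 15 (-1) (-13) 77314319960223252481 (by decide +kernel)) <|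
  AllL.cons (i := 6) (j := 11) (k := 18) (OkB.mk ⟨14, 13, 16, 63, 72, 103, 16⟩ ⟨8, 7, 9, 52, 82, 103, 7⟩
    12 0 18 16 (-2) (-13) 76334682999982391297 (by decide +kernel)) <|
  AllL.cons (i := 6) (j := 11) (k := 19) (OkB.mk ⟨14, 13, 16, 63, 72, 103, 16⟩ ⟨8, 8, 9, 52, 82, 103, 7⟩
    12 3 19 17 (-3) (-13) 79570983601032921089 (by decide +kernel)) <|
  AllL.cons (i := 6) (j := 11) (k := 20) (OkB.mk ⟨14, 13, 16, 63, 72, 103, 15⟩ ⟨8, 8, 9, 52, 82, 103, 7⟩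
    12 6 20 18 (-3) (-14) 80181636141303201793 (by decide +kernel)) <|
  AllL.cons (i := 6) (j := 11) (k := 21) (OkB.mk ⟨15, 12, 17, 63, 72, 103, 15⟩ ⟨8, 8, 9, 52, 82, 103, 7⟩
    12 8 21 21 (-7) (-15) 76005647823178563585 (by decide +kernel)) <|
  AllL.cons (i := 6) (j := 11) (k := 22) (OkB.mk ⟨15, 12, 16, 63, 72, 103, 15⟩ ⟨8, 8, 9, 52, 82, 103, 7⟩
    12 11 22 25 (-8) (-16) 78221923240804089857 (by decide +kernel)) <|
  AllL.cons (i := 6) (j := 12) (k := 12) (OkB.mk ⟨14, 15, 15, 63, 72, 103, 16⟩ ⟨7, 8, 8, 52, 82, 103, 7⟩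
    14 (-10) 8 12 3 (-13) 68003567947602722817 (by decide +kernel)) <|
  AllL.cons (i := 6) (j := 12) (k := 13) (OkB.mk ⟨14, 14, 15, 63, 72, 103, 16⟩ ⟨7, 8, 8, 52, 82, 103, 7⟩
    14 (-9) 9 12 3 (-13) 72663900483611525121 (by decide +kernel)) <|
  AllL.cons (i := 6) (j := 12) (k := 14) (OkB.mk ⟨14, 14, 15, 63, 72, 103, 16⟩ ⟨7, 7, 8, 52, 82, 103, 7⟩
    14 (-7) 10 12 3 (-12) 67419729609715875841 (by decide +kernel)) <|
  AllL.cons (i := 6) (j := 12) (k := 15) (OkB.mk ⟨14, 14, 15, 63, 72, 103, 16⟩ ⟨7, 8, 8, 52, 82, 103, 7⟩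
    14 (-6) 12 13 2 (-12) 66455361430010986497 (by decide +kernel)) <|
  AllL.cons (i := 6) (j := 12) (k := 16) (OkB.mk ⟨14, 13, 16, 63, 72, 103, 16⟩ ⟨7, 8, 8, 52, 82, 103, 7⟩
    13 (-4) 13 13 1 (-11) 73852754165653045249 (by decide +kernel)) <|
  AllL.cons (i := 6) (j := 12) (k := 17) (OkB.mk ⟨14, 13, 15, 63, 72, 103, 16⟩ ⟨8, 8, 8, 52, 82, 103, 7⟩
    13 (-3) 14 14 (-1) (-11) 81115733803822743553 (by decide +kernel)) <|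
  AllL.cons (i := 6) (j := 12) (k := 18) (OkB.mk ⟨14, 13, 15, 63, 72, 103, 16⟩ ⟨8, 8, 8, 52, 82, 103, 7⟩
    13 0 15 14 (-1) (-11) 81113555258971258881 (by decide +kernel)) <|
  AllL.cons (i := 6) (j := 12) (k := 19) (OkB.mk ⟨14, 13, 15, 63, 72, 103, 16⟩ ⟨8, 7, 9, 52, 82, 103, 7⟩
    13 2 16 15 (-3) (-11) 83446442955693359105 (by decide +kernel)) <|
  AllL.cons (i := 6) (j := 12) (k := 20) (OkB.mk ⟨14, 13, 15, 63, 72, 103, 16⟩ ⟨8, 7, 10, 52, 82, 103, 7⟩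
    13 5 17 16 (-3) (-12) 81920611224848957441 (by decide +kernel)) <|
  AllL.cons (i := 6) (j := 12) (k := 21) (OkB.mk ⟨14, 12, 16, 63, 72, 103, 15⟩ ⟨8, 7, 9, 52, 82, 103, 7⟩
    13 7 17 18 (-6) (-12) 83933890270269014017 (by decide +kernel)) <|
  AllL.cons (i := 6) (j := 12) (k := 22) (OkB.mk ⟨14, 12, 16, 63, 72, 103, 15⟩ ⟨8, 7, 9, 52, 82, 103, 7⟩
    13 10 18 21 (-7) (-13) 68813727422488772609 (by decide +kernel)) <|
  AllL.cons (i := 6) (j := 13) (k := 13) (OkB.mk ⟨14, 15, 15, 63, 72, 103, 16⟩ ⟨7, 7, 8, 52, 82, 103, 7⟩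
    14 (-9) 7 12 3 (-12) 60750122312196423681 (by decide +kernel)) <|
  AllL.cons (i := 6) (j := 13) (k := 14) (OkB.mk ⟨14, 14, 15, 63, 72, 103, 16⟩ ⟨7, 7, 8, 52, 82, 103, 7⟩
    14 (-8) 9 12 3 (-12) 76210435299825680385 (by decide +kernel)) <|
  AllL.cons (i := 6) (j := 13) (k := 15) (OkB.mk ⟨14, 14, 15, 63, 72, 103, 16⟩ ⟨7, 7, 8, 52, 82, 103, 7⟩
    14 (-7) 10 12 2 (-11) 72060547051282235393 (by decide +kernel)) <|
  AllL.nil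

end Pool.Agent.MP_48470b_gt.Run
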