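import Pool.Agent.MP_48470b_gt.Run.OkB
import Pool.Agent.MP_48470b_gt.Run.B68

/-! Runs of the tests. -/

namespace Pool.Agent.MP_48470b_gt.Run

/-- the boxes of this part -/
def b69l : List (Nat × Nat × Nat) :=
  [(6, 13, 16), (6, 13, 17), (6, 13, 18), (6, 13, 19), (6, 13, 20), (6, 13, 21), (6, 13, 22), (6, 14, 14), (6, 14, 15), (6, 14, 16), (6, 14, 17), (6, 14, 18), (6, 14, 19), (6, 14, 20), (6, 14, 21), (6, 14, 22), (6, 15, 15), (6, 15, 16), (6, 15, 17), (6, 15, 18), (6, 15, 19), (6, 15, 20), (6, 15, 21), (6, 15, 22), (6, 16, 16), (6, 16, 17), (6, 16, 18), (6, 16, 19), (6, 16, 20), (6, 16, 21), (6, 16, 22), (6, 17, 17), (6, 17, 18), (6, 17, 19)]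

theorem b69 : AllL OkB b69l :=
  AllL.cons (i := 6) (j := 13) (k := 16) (OkB.mk ⟨13, 14, 16, 63, 72, 103, 16⟩ ⟨7, 7, 8, 52, 82, 103, 7⟩
    14 (-5) 11 12 1 (-11) 87829359774482300929 (by decide +kernel)) <|
  AllL.cons (i := 6) (j := 13) (k := 17) (OkB.mk ⟨13, 13, 16, 63, 72, 103, 16⟩ ⟨8, 7, 8, 52, 82, 103, 7⟩
    14 (-3) 12 12 0 (-11) 95534026839986012161 (by decide +kernel)) <|
  AllL.cons (i := 6) (j := 13) (k := 18) (OkB.mk ⟨13, 13, 16, 63, 72, 103, 16⟩ ⟨8, 7, 8, 52, 82, 103, 7⟩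
    14 (-1) 13 13 (-1) (-11) 95569845767723024385 (by decide +kernel)) <|
  AllL.cons (i := 6) (j := 13) (k := 19) (OkB.mk ⟨13, 13, 16, 63, 72, 103, 16⟩ ⟨8, 7, 8, 52, 82, 103, 7⟩
    14 1 14 13 (-2) (-11) 101937323075409281025 (by decide +kernel)) <|
  AllL.cons (i := 6) (j := 13) (k := 20) (OkB.mk ⟨13, 13, 16, 63, 72, 103, 16⟩ ⟨8, 8, 8, 52, 82, 103, 7⟩
    14 4 14 14 (-3) (-11) 103137902361766264833 (by decide +kernel)) <|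
  AllL.cons (i := 6) (j := 13) (k := 21) (OkB.mk ⟨13, 13, 16, 63, 72, 103, 16⟩ ⟨8, 8, 8, 52, 82, 103, 7⟩
    14 6 15 16 (-5) (-11) 93021869819668987905 (by decide +kernel)) <|
  AllL.cons (i := 6) (j := 13) (k := 22) (OkB.mk ⟨14, 12, 15, 63, 72, 103, 16⟩ ⟨8, 8, 8, 52, 82, 103, 7⟩
    14 8 15 18 (-8) (-12) 91091620119942529025 (by decide +kernel)) <|
  AllL.cons (i := 6) (j := 14) (k := 14) (OkB.mk ⟨13, 15, 15, 63, 72, 103, 16⟩ ⟨7, 7, 8, 52, 82, 103, 7⟩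
    14 (-9) 7 12 2 (-12) 94894080973489569793 (by decide +kernel)) <|
  AllL.cons (i := 6) (j := 14) (k := 15) (OkB.mk ⟨13, 15, 15, 63, 72, 103, 16⟩ ⟨7, 7, 8, 52, 82, 103, 7⟩
    14 (-7) 8 11 2 (-11) 99615055149183008769 (by decide +kernel)) <|
  AllL.cons (i := 6) (j := 14) (k := 16) (OkB.mk ⟨13, 14, 16, 63, 72, 103, 16⟩ ⟨7, 7, 8, 52, 82, 103, 7⟩
    14 (-6) 9 11 1 (-11) 98930520925084319745 (by decide +kernel)) <|
  AllL.cons (i := 6) (j := 14) (k := 17) (OkB.mk ⟨13, 13, 16, 63, 72, 103, 16⟩ ⟨7, 7, 8, 52, 82, 103, 7⟩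
    14 (-4) 10 11 0 (-10) 113039313257778642945 (by decide +kernel)) <|
  AllL.cons (i := 6) (j := 14) (k := 18) (OkB.mk ⟨13, 13, 16, 63, 72, 103, 16⟩ ⟨7, 8, 8, 52, 82, 103, 7⟩
    14 (-2) 11 12 (-1) (-10) 114894753973057617921 (by decide +kernel)) <|
  AllL.cons (i := 6) (j := 14) (k := 19) (OkB.mk ⟨13, 13, 16, 63, 72, 103, 16⟩ ⟨7, 8, 8, 52, 82, 103, 7⟩
    15 0 11 12 (-2) (-10) 118834363783884832769 (by decide +kernel)) <|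
  AllL.cons (i := 6) (j := 14) (k := 20) (OkB.mk ⟨13, 13, 16, 63, 72, 103, 16⟩ ⟨7, 8, 8, 52, 82, 103, 7⟩
    15 3 12 13 (-3) (-10) 112923822068225540097 (by decide +kernel)) <|
  AllL.cons (i := 6) (j := 14) (k := 21) (OkB.mk ⟨13, 13, 15, 63, 72, 103, 16⟩ ⟨7, 8, 8, 52, 82, 103, 7⟩
    15 5 12 14 (-5) (-11) 109940446250080927745 (by decide +kernel)) <|
  AllL.cons (i := 6) (j := 14) (k := 22) (OkB.mk ⟨13, 13, 15, 63, 72, 103, 16⟩ ⟨7, 8, 8, 52, 82, 103, 7⟩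
    15 7 12 16 (-7) (-11) 92086170855902543873 (by decide +kernel)) <|
  AllL.cons (i := 6) (j := 15) (k := 15) (OkB.mk ⟨13, 15, 15, 63, 72, 103, 16⟩ ⟨7, 7, 8, 52, 82, 103, 7⟩
    14 (-8) 7 11 1 (-11) 104257194066287001601 (by decide +kernel)) <|
  AllL.cons (i := 6) (j := 15) (k := 16) (OkB.mk ⟨13, 14, 15, 63, 72, 103, 16⟩ ⟨7, 7, 8, 52, 82, 103, 7⟩
    14 (-6) 7 11 1 (-10) 113291798510911356929 (by decide +kernel)) <|
  AllL.cons (i := 6) (j := 15) (k := 17) (OkB.mk ⟨13, 14, 15, 63, 72, 103, 16⟩ ⟨7, 7, 8, 52, 82, 103, 7⟩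
    15 (-5) 8 11 0 (-10) 115508233632600817665 (by decide +kernel)) <|
  AllL.cons (i := 6) (j := 15) (k := 18) (OkB.mk ⟨13, 14, 15, 63, 72, 103, 16⟩ ⟨7, 8, 8, 52, 82, 103, 7⟩
    15 (-3) 9 11 (-1) (-9) 117264843095949705217 (by decide +kernel)) <|
  AllL.cons (i := 6) (j := 15) (k := 19) (OkB.mk ⟨13, 14, 15, 63, 72, 103, 16⟩ ⟨7, 8, 8, 52, 82, 103, 7⟩
    15 0 9 11 (-1) (-9) 117736316980474937345 (by decide +kernel)) <|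
  AllL.cons (i := 6) (j := 15) (k := 20) (OkB.mk ⟨13, 14, 15, 63, 72, 103, 16⟩ ⟨7, 8, 8, 52, 82, 103, 7⟩
    15 2 10 12 (-3) (-9) 116253208972951027713 (by decide +kernel)) <|
  AllL.cons (i := 6) (j := 15) (k := 21) (OkB.mk ⟨13, 13, 15, 63, 72, 103, 16⟩ ⟨7, 8, 8, 52, 82, 103, 7⟩
    16 4 10 13 (-5) (-10) 131139193023884165121 (by decide +kernel)) <|
  AllL.cons (i := 6) (j := 15) (k := 22) (OkB.mk ⟨13, 13, 15, 63, 72, 103, 16⟩ ⟨7, 8, 8, 52, 82, 103, 7⟩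
    16 6 10 15 (-7) (-10) 98784528595781943297 (by decide +kernel)) <|
  AllL.cons (i := 6) (j := 16) (k := 16) (OkB.mk ⟨13, 14, 15, 63, 72, 103, 16⟩ ⟨7, 7, 8, 52, 82, 103, 7⟩
    15 (-6) 6 10 1 (-10) 120253204512131514369 (by decide +kernel)) <|
  AllL.cons (i := 6) (j := 16) (k := 17) (OkB.mk ⟨13, 14, 15, 63, 72, 103, 16⟩ ⟨7, 7, 8, 52, 82, 103, 7⟩
    15 (-5) 7 10 0 (-10) 118982141032875950081 (by decide +kernel)) <|
  AllL.cons (i := 6) (j := 16) (k := 18) (OkB.mk ⟨13, 14, 14, 63, 72, 103, 16⟩ ⟨7, 8, 8, 52, 82, 103, 7⟩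
    15 (-3) 7 10 0 (-9) 142943738288492511233 (by decide +kernel)) <|
  AllL.cons (i := 6) (j := 16) (k := 19) (OkB.mk ⟨13, 14, 15, 63, 72, 103, 16⟩ ⟨7, 8, 8, 52, 82, 103, 7⟩
    16 (-1) 8 10 (-1) (-9) 127919264700727033857 (by decide +kernel)) <|
  AllL.cons (i := 6) (j := 16) (k := 20) (OkB.mk ⟨13, 14, 15, 63, 72, 103, 16⟩ ⟨7, 8, 8, 52, 82, 103, 7⟩
    16 1 8 11 (-3) (-9) 130273353043216957441 (by decide +kernel)) <|
  AllL.cons (i := 6) (j := 16) (k := 21) (OkB.mk ⟨13, 13, 16, 63, 72, 103, 16⟩ ⟨7, 8, 8, 52, 82, 103, 7⟩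
    16 3 8 12 (-4) (-9) 157173265381692801025 (by decide +kernel)) <|
  AllL.cons (i := 6) (j := 16) (k := 22) (OkB.mk ⟨13, 13, 15, 63, 72, 103, 16⟩ ⟨7, 8, 8, 52, 82, 103, 7⟩
    17 5 8 13 (-6) (-10) 115120379394074345473 (by decide +kernel)) <|
  AllL.cons (i := 6) (j := 17) (k := 17) (OkB.mk ⟨13, 14, 14, 63, 72, 103, 16⟩ ⟨7, 8, 8, 52, 82, 103, 7⟩
    15 (-5) 5 9 0 (-9) 126440493304502026241 (by decide +kernel)) <|
  AllL.cons (i := 6) (j := 17) (k := 18) (OkB.mk ⟨13, 14, 14, 63, 72, 103, 16⟩ ⟨7, 8, 8, 52, 82, 103, 7⟩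
    16 (-3) 6 10 0 (-9) 136123718075171209217 (by decide +kernel)) <|
  AllL.cons (i := 6) (j := 17) (k := 19) (OkB.mk ⟨13, 14, 14, 63, 72, 103, 16⟩ ⟨7, 8, 8, 52, 82, 103, 7⟩
    16 (-2) 6 10 (-2) (-9) 147526565012908802049 (by decide +kernel)) <|
  AllL.nil

end Pool.Agent.MP_48470b_gt.Run
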