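import Pool.Agent.MP_48470b_gt.Run.OkF

/-! Runs of the tests. -/

namespace Pool.Agent.MP_48470b_gt.Run

/-- the boxes of this part -/
def f3l : List (Nat × Nat × Nat) :=
  [(0, 5, 14), (0, 5, 15), (0, 5, 16), (0, 5, 17), (0, 5, 18), (0, 5, 19), (0, 5, 20), (0, 5, 21), (0, 5, 22), (0, 6, 6), (0, 6, 7), (0, 6, 8), (0, 6, 9), (0, 6, 10), (0, 6, 11), (0, 6, 12), (0, 6, 13), (0, 6, 14), (0, 6, 15), (0, 6, 16), (0, 6, 17), (0, 6, 18), (0, 6, 19), (0, 6, 20), (0, 6, 21), (0, 6, 22)]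

theorem f3 : AllL OkF f3l :=
  AllL.cons (i := 0) (j := 5) (k := 14) (OkF.mk (by decide +kernel)) <|
  AllL.cons (i := 0) (j := 5) (k := 15) (OkF.mk (by decide +kernel)) <|
  AllL.cons (i := 0) (j := 5) (k := 16) (OkF.mk (by decide +kernel)) <|
  AllL.cons (i := 0) (j := 5) (k := 17) (OkF.mk (by decide +kernel)) <|
  AllL.cons (i := 0) (j := 5) (k := 18) (OkF.mk (by decide +kernel)) <|
  AllL.cons (i := 0) (j := 5) (k := 19) (OkF.mk (by decide +kernel)) <|
  AllL.cons (i := 0) (j := 5) (k := 20) (OkF.mk (by decide +kernel)) <|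
  AllL.cons (i := 0) (j := 5) (k := 21) (OkF.mk (by decide +kernel)) <|
  AllL.cons (i := 0) (j := 5) (k := 22) (OkF.mk (by decide +kernel)) <|
  AllL.cons (i := 0) (j := 6) (k := 6) (OkF.mk (by decide +kernel)) <|
  AllL.cons (i := 0) (j := 6) (k := 7) (OkF.mk (by decide +kernel)) <|
  AllL.cons (i := 0) (j := 6) (k := 8) (OkF.mk (by decide +kernel)) <|
  AllL.cons (i := 0) (j := 6) (k := 9) (OkF.mk (by decide +kernel)) <|
  AllL.cons (i := 0) (j := 6) (k := 10) (OkF.mk (by decide +kernel)) <|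
  AllL.cons (i := 0) (j := 6) (k := 11) (OkF.mk (by decide +kernel)) <|
  AllL.cons (i := 0) (j := 6) (k := 12) (OkF.mk (by decide +kernel)) <|
  AllL.cons (i := 0) (j := 6) (k := 13) (OkF.mk (by decide +kernel)) <|
  AllL.cons (i := 0) (j := 6) (k := 14) (OkF.mk (by decide +kernel)) <|
  AllL.cons (i := 0) (j := 6) (k := 15) (OkF.mk (by decide +kernel)) <|
  AllL.cons (i := 0) (j := 6) (k := 16) (OkF.mk (by decide +kernel)) <|
  AllL.cons (i := 0) (j := 6) (k := 17) (OkF.mk (by decide +kernel)) <|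
  AllL.cons (i := 0) (j := 6) (k := 18) (OkF.mk (by decide +kernel)) <|
  AllL.cons (i := 0) (j := 6) (k := 19) (OkF.mk (by decide +kernel)) <|
  AllL.cons (i := 0) (j := 6) (k := 20) (OkF.mk (by decide +kernel)) <|
  AllL.cons (i := 0) (j := 6) (k := 21) (OkF.mk (by decide +kernel)) <|
  AllL.cons (i := 0) (j := 6) (k := 22) (OkF.mk (by decide +kernel)) <|
  AllL.nil

end Pool.Agent.MP_48470b_gt.Run
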