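import Pool.Agent.MP_48470b_gt.Run.OkB
import Pool.Agent.MP_48470b_gt.Run.F3

/-! Runs of the tests. -/

namespace Pool.Agent.MP_48470b_gt.Run

/-- the boxes of this part -/
def b6l : List (Nat × Nat × Nat) :=
  [(0, 5, 9), (0, 5, 10), (0, 5, 11), (0, 5, 12), (0, 5, 13), (0, 5, 14), (0, 5, 15), (0, 5, 16), (0, 5, 17), (0, 5, 18)]

theorem b6 : AllL OkB b6l :=
  AllL.cons (i := 0) (j := 5) (k := 9) (OkB.mk ⟨21, 17, 25, 63, 72, 103, 13⟩ ⟨13, 12, 15, 52, 82, 103, 7⟩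
    17 0 0 44 109 (-54) 173374016712379203585 (by decide +kernel)) <|
  AllL.cons (i := 0) (j := 5) (k := 10) (OkB.mk ⟨21, 18, 27, 63, 72, 103, 13⟩ ⟨14, 13, 17, 52, 82, 103, 7⟩
    18 0 0 48 124 (-49) 155585286642306383873 (by decide +kernel)) <|
  AllL.cons (i := 0) (j := 5) (k := 11) (OkB.mk ⟨23, 17, 28, 63, 72, 103, 13⟩ ⟨15, 12, 18, 52, 82, 103, 7⟩
    18 0 0 53 133 (-42) 146739857983604260865 (by decide +kernel)) <|
  AllL.cons (i := 0) (j := 5) (k := 12) (OkB.mk ⟨23, 18, 28, 63, 72, 103, 13⟩ ⟨15, 12, 19, 52, 82, 103, 7⟩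
    19 0 0 58 126 (-34) 133027786900958609409 (by decide +kernel)) <|
  AllL.cons (i := 0) (j := 5) (k := 13) (OkB.mk ⟨23, 17, 28, 62, 73, 103, 13⟩ ⟨15, 12, 19, 52, 82, 103, 7⟩
    20 0 0 74 123 (-25) 139172419864851644417 (by decide +kernel)) <|
  AllL.cons (i := 0) (j := 5) (k := 14) (OkB.mk ⟨23, 17, 28, 63, 72, 103, 13⟩ ⟨15, 11, 19, 52, 82, 103, 7⟩
    21 0 0 99 108 (-18) 115082966999110778881 (by decide +kernel)) <|
  AllL.cons (i := 0) (j := 5) (k := 15) (OkB.mk ⟨22, 16, 29, 63, 72, 103, 13⟩ ⟨15, 11, 18, 52, 82, 103, 7⟩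
    21 0 0 131 70 (-13) 138456781418875846657 (by decide +kernel)) <|
  AllL.cons (i := 0) (j := 5) (k := 16) (OkB.mk ⟨21, 15, 28, 63, 72, 103, 13⟩ ⟨15, 11, 17, 52, 82, 103, 7⟩
    22 0 0 151 12 (-12) 135773376699483291649 (by decide +kernel)) <|
  AllL.cons (i := 0) (j := 5) (k := 17) (OkB.mk ⟨21, 15, 28, 63, 72, 103, 13⟩ ⟨15, 10, 18, 52, 82, 103, 7⟩
    23 0 0 152 (-46) (-12) 121206809847390011393 (by decide +kernel)) <|
  AllL.cons (i := 0) (j := 5) (k := 18) (OkB.mk ⟨21, 15, 28, 63, 72, 103, 12⟩ ⟨15, 10, 18, 52, 82, 103, 7⟩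
    23 0 0 145 (-94) (-14) 119250209114553319425 (by decide +kernel)) <|
  AllL.nil

end Pool.Agent.MP_48470b_gt.Run
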