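import Pool.Agent.MP_48470b_gt.Run.OkB
import Pool.Agent.MP_48470b_gt.Run.B6

/-! Runs of the tests. -/

namespace Pool.Agent.MP_48470b_gt.Run

/-- the boxes of this part -/
def b7l : List (Nat × Nat × Nat) :=
  [(0, 5, 19), (0, 5, 20), (0, 5, 21), (0, 5, 22), (0, 6, 6), (0, 6, 7), (0, 6, 8), (0, 6, 9), (0, 6, 10), (0, 6, 11)]

theorem b7 : AllL OkB b7l :=
  AllL.cons (i := 0) (j := 5) (k := 19) (OkB.mk ⟨21, 15, 28, 63, 72, 103, 12⟩ ⟨15, 10, 18, 52, 82, 103, 7⟩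
    24 0 0 135 (-137) (-17) 126751026311950499841 (by decide +kernel)) <|
  AllL.cons (i := 0) (j := 5) (k := 20) (OkB.mk ⟨21, 15, 28, 63, 72, 103, 12⟩ ⟨15, 10, 18, 52, 82, 103, 7⟩
    24 0 0 127 (-178) (-22) 137675784978088067073 (by decide +kernel)) <|
  AllL.cons (i := 0) (j := 5) (k := 21) (OkB.mk ⟨21, 14, 29, 63, 72, 103, 12⟩ ⟨15, 10, 18, 52, 82, 103, 7⟩
    24 0 0 129 (-232) (-27) 152470206098706530305 (by decide +kernel)) <|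
  AllL.cons (i := 0) (j := 5) (k := 22) (OkB.mk ⟨21, 14, 28, 63, 72, 103, 12⟩ ⟨15, 10, 18, 52, 82, 103, 7⟩
    25 0 0 135 (-285) (-33) 146367141958607962113 (by decide +kernel)) <|
  AllL.cons (i := 0) (j := 6) (k := 6) (OkB.mk ⟨19, 19, 19, 63, 72, 103, 14⟩ ⟨11, 11, 11, 52, 82, 103, 7⟩
    17 0 0 31 62 (-69) 164271820477632086017 (by decide +kernel)) <|
  AllL.cons (i := 0) (j := 6) (k := 7) (OkB.mk ⟨21, 20, 22, 63, 72, 103, 14⟩ ⟨13, 13, 13, 52, 82, 103, 7⟩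
    17 0 0 31 77 (-68) 160642146364561555457 (by decide +kernel)) <|
  AllL.cons (i := 0) (j := 6) (k := 8) (OkB.mk ⟨21, 21, 25, 63, 72, 103, 13⟩ ⟨13, 13, 16, 52, 82, 103, 7⟩
    18 0 0 31 91 (-64) 149292189097215918081 (by decide +kernel)) <|
  AllL.cons (i := 0) (j := 6) (k := 9) (OkB.mk ⟨23, 20, 26, 63, 72, 103, 13⟩ ⟨15, 14, 17, 52, 82, 103, 7⟩
    18 0 0 31 100 (-56) 141529004923370340353 (by decide +kernel)) <|
  AllL.cons (i := 0) (j := 6) (k := 10) (OkB.mk ⟨23, 19, 27, 63, 72, 103, 13⟩ ⟨15, 14, 18, 52, 82, 103, 7⟩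
    19 0 0 32 100 (-45) 123492103121719525377 (by decide +kernel)) <|
  AllL.cons (i := 0) (j := 6) (k := 11) (OkB.mk ⟨23, 18, 27, 63, 72, 103, 13⟩ ⟨15, 12, 18, 52, 82, 103, 7⟩
    20 0 0 35 95 (-34) 103430490652254666753 (by decide +kernel)) <|
  AllL.nil

end Pool.Agent.MP_48470b_gt.Run
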