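import Pool.Agent.MP_48470b_gt.Run.OkB
import Pool.Agent.MP_48470b_gt.Run.F35

/-! Runs of the tests. -/

namespace Pool.Agent.MP_48470b_gt.Run

/-- the boxes of this part -/
def b70l : List (Nat × Nat × Nat) :=
  [(6, 17, 20), (6, 17, 21), (6, 17, 22), (6, 18, 18), (6, 18, 19), (6, 18, 20), (6, 18, 21), (6, 18, 22), (6, 19, 19), (6, 19, 20), (6, 19, 21), (6, 19, 22), (6, 20, 20), (6, 20, 21), (6, 20, 22), (6, 21, 21), (6, 21, 22), (6, 22, 22), (7, 7, 7), (7, 7, 8), (7, 7, 9), (7, 7, 10), (7, 7, 11), (7, 7, 12), (7, 7, 13), (7, 7, 14), (7, 7, 15), (7, 7, 16), (7, 7, 17)]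

theorem b70 : AllL OkB b70l :=
  AllL.cons (i := 6) (j := 17) (k := 20) (OkB.mk ⟨13, 14, 14, 63, 72, 103, 16⟩ ⟨7, 8, 8, 52, 82, 103, 7⟩
    17 0 6 10 (-3) (-9) 164177912014137458689 (by decide +kernel)) <|
  AllL.cons (i := 6) (j := 17) (k := 21) (OkB.mk ⟨13, 14, 14, 63, 72, 103, 16⟩ ⟨7, 8, 8, 52, 82, 103, 7⟩
    17 2 6 11 (-4) (-9) 151585724723024101377 (by decide +kernel)) <|
  AllL.cons (i := 6) (j := 17) (k := 22) (OkB.mk ⟨13, 13, 14, 63, 72, 103, 16⟩ ⟨7, 8, 8, 52, 82, 103, 7⟩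
    17 4 6 12 (-6) (-9) 164277336315151777793 (by decide +kernel)) <|
  AllL.cons (i := 6) (j := 18) (k := 18) (OkB.mk ⟨13, 14, 14, 63, 72, 103, 16⟩ ⟨7, 8, 8, 52, 82, 103, 7⟩
    16 (-4) 4 9 (-1) (-9) 148647617035545608193 (by decide +kernel)) <|
  AllL.cons (i := 6) (j := 18) (k := 19) (OkB.mk ⟨13, 14, 14, 63, 72, 103, 15⟩ ⟨7, 8, 8, 52, 82, 103, 7⟩
    17 (-2) 4 9 (-2) (-9) 174750389903514664961 (by decide +kernel)) <|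
  AllL.cons (i := 6) (j := 18) (k := 20) (OkB.mk ⟨13, 14, 14, 63, 72, 103, 15⟩ ⟨7, 8, 8, 52, 82, 103, 7⟩
    17 0 5 9 (-3) (-9) 228578364826916487169 (by decide +kernel)) <|
  AllL.cons (i := 6) (j := 18) (k := 21) (OkB.mk ⟨13, 14, 14, 63, 72, 103, 15⟩ ⟨7, 8, 8, 52, 82, 103, 7⟩
    17 2 5 10 (-4) (-9) 193913390211295870977 (by decide +kernel)) <|
  AllL.cons (i := 6) (j := 18) (k := 22) (OkB.mk ⟨13, 15, 13, 63, 72, 103, 15⟩ ⟨7, 8, 8, 52, 82, 103, 7⟩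
    18 3 5 12 (-6) (-9) 190723311017492742145 (by decide +kernel)) <|
  AllL.cons (i := 6) (j := 19) (k := 19) (OkB.mk ⟨13, 14, 14, 63, 72, 103, 15⟩ ⟨7, 8, 8, 52, 82, 103, 7⟩
    17 (-2) 3 9 (-2) (-9) 249026995218875940865 (by decide +kernel)) <|
  AllL.cons (i := 6) (j := 19) (k := 20) (OkB.mk ⟨13, 15, 14, 63, 72, 103, 15⟩ ⟨8, 8, 8, 52, 82, 103, 7⟩
    18 (-1) 3 9 (-3) (-9) 245658621418535911425 (by decide +kernel)) <|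
  AllL.cons (i := 6) (j := 19) (k := 21) (OkB.mk ⟨13, 14, 15, 63, 72, 103, 15⟩ ⟨7, 8, 8, 52, 82, 103, 7⟩
    18 1 3 10 (-4) (-9) 258822652062871846913 (by decide +kernel)) <|
  AllL.cons (i := 6) (j := 19) (k := 22) (OkB.mk ⟨13, 14, 14, 63, 72, 103, 15⟩ ⟨7, 8, 8, 52, 82, 103, 7⟩
    18 3 3 11 (-5) (-9) 211140695075697197057 (by decide +kernel)) <|
  AllL.cons (i := 6) (j := 20) (k := 20) (OkB.mk ⟨13, 15, 15, 63, 72, 103, 15⟩ ⟨8, 8, 9, 52, 82, 103, 7⟩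
    18 (-1) 2 9 (-3) (-9) 252015504519371685889 (by decide +kernel)) <|
  AllL.cons (i := 6) (j := 20) (k := 21) (OkB.mk ⟨13, 15, 15, 63, 72, 103, 15⟩ ⟨8, 8, 9, 52, 82, 103, 7⟩
    18 0 2 10 (-4) (-9) 256223619055431450625 (by decide +kernel)) <|
  AllL.cons (i := 6) (j := 20) (k := 22) (OkB.mk ⟨13, 14, 15, 63, 72, 103, 15⟩ ⟨7, 8, 9, 52, 82, 103, 7⟩
    19 2 2 11 (-5) (-9) 260075953069219643393 (by decide +kernel)) <|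
  AllL.cons (i := 6) (j := 21) (k := 21) (OkB.mk ⟨13, 15, 15, 63, 72, 103, 15⟩ ⟨9, 8, 9, 52, 82, 103, 7⟩
    19 0 0 9 (-4) (-10) 280170429803799773185 (by decide +kernel)) <|
  AllL.cons (i := 6) (j := 21) (k := 22) (OkB.mk ⟨13, 15, 15, 63, 72, 103, 15⟩ ⟨7, 8, 9, 52, 82, 103, 7⟩
    19 1 0 10 (-5) (-10) 248097148955504148481 (by decide +kernel)) <|
  AllL.cons (i := 6) (j := 22) (k := 22) (OkB.mk ⟨12, 15, 16, 63, 72, 103, 15⟩ ⟨8, 8, 9, 52, 82, 103, 7⟩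
    20 1 (-1) 10 (-6) (-12) 350312794570348298241 (by decide +kernel)) <|
  AllL.cons (i := 7) (j := 7) (k := 7) (OkB.mk ⟨16, 16, 16, 63, 72, 103, 16⟩ ⟨8, 10, 11, 52, 82, 103, 7⟩
    15 (-12) 8 19 8 (-21) 72327701988552736769 (by decide +kernel)) <|
  AllL.cons (i := 7) (j := 7) (k := 8) (OkB.mk ⟨16, 16, 16, 63, 72, 103, 16⟩ ⟨8, 9, 9, 52, 82, 103, 7⟩
    14 (-11) 9 20 8 (-20) 68269311386821066753 (by decide +kernel)) <|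
  AllL.cons (i := 7) (j := 7) (k := 9) (OkB.mk ⟨16, 15, 16, 63, 72, 103, 16⟩ ⟨8, 8, 9, 52, 82, 103, 7⟩
    13 (-10) 10 20 7 (-19) 72923846335455559681 (by decide +kernel)) <|
  AllL.cons (i := 7) (j := 7) (k := 10) (OkB.mk ⟨16, 15, 16, 63, 72, 103, 16⟩ ⟨8, 8, 9, 52, 82, 103, 7⟩
    13 (-9) 11 20 6 (-19) 67663773912082153473 (by decide +kernel)) <|
  AllL.cons (i := 7) (j := 7) (k := 11) (OkB.mk ⟨16, 15, 16, 63, 72, 103, 16⟩ ⟨8, 8, 9, 52, 82, 103, 7⟩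
    12 (-8) 13 20 5 (-19) 69387995336289550337 (by decide +kernel)) <|
  AllL.cons (i := 7) (j := 7) (k := 12) (OkB.mk ⟨16, 15, 17, 63, 72, 103, 16⟩ ⟨9, 8, 9, 52, 82, 103, 7⟩
    11 (-7) 15 18 3 (-20) 65522011160520425473 (by decide +kernel)) <|
  AllL.cons (i := 7) (j := 7) (k := 13) (OkB.mk ⟨17, 15, 17, 63, 72, 103, 16⟩ ⟨9, 8, 10, 52, 82, 103, 7⟩
    10 (-6) 16 19 3 (-20) 54061949348525113345 (by decide +kernel)) <|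
  AllL.cons (i := 7) (j := 7) (k := 14) (OkB.mk ⟨18, 14, 18, 63, 72, 103, 16⟩ ⟨10, 8, 10, 52, 82, 103, 7⟩
    10 (-5) 18 20 2 (-21) 60862069088578437121 (by decide +kernel)) <|
  AllL.cons (i := 7) (j := 7) (k := 15) (OkB.mk ⟨18, 14, 19, 63, 72, 103, 15⟩ ⟨11, 9, 10, 52, 82, 103, 7⟩
    9 (-3) 19 22 4 (-21) 62157635734214803457 (by decide +kernel)) <|
  AllL.cons (i := 7) (j := 7) (k := 16) (OkB.mk ⟨18, 14, 20, 63, 72, 103, 15⟩ ⟨11, 9, 11, 52, 82, 103, 7⟩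
    9 (-2) 21 24 0 (-23) 66157398039491248129 (by decide +kernel)) <|
  AllL.cons (i := 7) (j := 7) (k := 17) (OkB.mk ⟨19, 14, 19, 63, 72, 103, 15⟩ ⟨11, 9, 11, 52, 82, 103, 7⟩
    8 0 23 25 0 (-24) 60832096676483170305 (by decide +kernel)) <|
  AllL.nil

end Pool.Agent.MP_48470b_gt.Run
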