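import Pool.Agent.MP_48470b_gt.Run.OkB
import Pool.Agent.MP_48470b_gt.Run.B70

/-! Runs of the tests. -/

namespace Pool.Agent.MP_48470b_gt.Run

/-- the boxes of this part -/
def b71l : List (Nat × Nat × Nat) :=
  [(7, 7, 18), (7, 7, 19), (7, 7, 20), (7, 7, 21), (7, 7, 22), (7, 8, 8), (7, 8, 9), (7, 8, 10), (7, 8, 11), (7, 8, 12), (7, 8, 13), (7, 8, 14), (7, 8, 15), (7, 8, 16), (7, 8, 17), (7, 8, 18), (7, 8, 19), (7, 8, 20), (7, 8, 21), (7, 8, 22), (7, 9, 9), (7, 9, 10), (7, 9, 11), (7, 9, 12)]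

theorem b71 : AllL OkB b71l :=
  AllL.cons (i := 7) (j := 7) (k := 18) (OkB.mk ⟨19, 14, 20, 63, 72, 103, 15⟩ ⟨11, 9, 12, 52, 82, 103, 7⟩
    8 2 24 27 0 (-26) 59224937643944968193 (by decide +kernel)) <|
  AllL.cons (i := 7) (j := 7) (k := 19) (OkB.mk ⟨20, 14, 20, 63, 72, 103, 15⟩ ⟨12, 9, 12, 52, 82, 103, 7⟩
    8 4 26 29 (-2) (-27) 60814679862543384577 (by decide +kernel)) <|
  AllL.cons (i := 7) (j := 7) (k := 20) (OkB.mk ⟨20, 15, 20, 63, 72, 103, 15⟩ ⟨12, 9, 13, 52, 82, 103, 7⟩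
    8 6 27 30 (-4) (-29) 68014029938179964929 (by decide +kernel)) <|
  AllL.cons (i := 7) (j := 7) (k := 21) (OkB.mk ⟨21, 14, 21, 63, 72, 103, 15⟩ ⟨12, 9, 13, 52, 82, 103, 7⟩
    8 8 27 35 (-10) (-31) 61827278669556482049 (by decide +kernel)) <|
  AllL.cons (i := 7) (j := 7) (k := 22) (OkB.mk ⟨20, 14, 22, 63, 72, 103, 14⟩ ⟨12, 9, 13, 52, 82, 103, 7⟩
    8 11 31 41 2 (-32) 65074562704573726721 (by decide +kernel)) <|
  AllL.cons (i := 7) (j := 8) (k := 8) (OkB.mk ⟨17, 15, 16, 63, 72, 103, 16⟩ ⟨8, 8, 9, 52, 82, 103, 7⟩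
    14 (-11) 8 19 7 (-20) 76522319469625737217 (by decide +kernel)) <|
  AllL.cons (i := 7) (j := 8) (k := 9) (OkB.mk ⟨17, 15, 15, 63, 72, 103, 16⟩ ⟨8, 8, 8, 52, 82, 103, 7⟩
    13 (-10) 9 19 6 (-19) 74767110784090636289 (by decide +kernel)) <|
  AllL.cons (i := 7) (j := 8) (k := 10) (OkB.mk ⟨16, 15, 15, 63, 72, 103, 16⟩ ⟨8, 8, 8, 52, 82, 103, 7⟩
    13 (-9) 11 18 5 (-19) 73170503627205246977 (by decide +kernel)) <|
  AllL.cons (i := 7) (j := 8) (k := 11) (OkB.mk ⟨16, 14, 16, 63, 72, 103, 16⟩ ⟨8, 8, 8, 52, 82, 103, 7⟩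
    12 (-8) 12 18 5 (-18) 65676013569470103553 (by decide +kernel)) <|
  AllL.cons (i := 7) (j := 8) (k := 12) (OkB.mk ⟨16, 15, 16, 63, 72, 103, 16⟩ ⟨9, 8, 8, 52, 82, 103, 7⟩
    12 (-7) 14 16 3 (-18) 53479746946501443585 (by decide +kernel)) <|
  AllL.cons (i := 7) (j := 8) (k := 13) (OkB.mk ⟨16, 15, 16, 63, 72, 103, 16⟩ ⟨9, 8, 9, 52, 82, 103, 7⟩
    11 (-6) 16 16 3 (-18) 57931472302468235265 (by decide +kernel)) <|
  AllL.cons (i := 7) (j := 8) (k := 14) (OkB.mk ⟨16, 14, 17, 63, 72, 103, 16⟩ ⟨9, 8, 9, 52, 82, 103, 7⟩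
    10 (-5) 17 17 2 (-18) 61500807004112814081 (by decide +kernel)) <|
  AllL.cons (i := 7) (j := 8) (k := 15) (OkB.mk ⟨16, 14, 18, 63, 72, 103, 16⟩ ⟨9, 8, 10, 52, 82, 103, 7⟩
    10 (-4) 18 19 1 (-18) 61413389095195901953 (by decide +kernel)) <|
  AllL.cons (i := 7) (j := 8) (k := 16) (OkB.mk ⟨17, 14, 18, 63, 72, 103, 16⟩ ⟨10, 8, 10, 52, 82, 103, 7⟩
    9 (-2) 20 20 2 (-19) 54427454089071689729 (by decide +kernel)) <|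
  AllL.cons (i := 7) (j := 8) (k := 17) (OkB.mk ⟨17, 14, 18, 63, 72, 103, 15⟩ ⟨10, 8, 11, 52, 82, 103, 7⟩
    9 0 21 22 2 (-20) 57575326467458334721 (by decide +kernel)) <|
  AllL.cons (i := 7) (j := 8) (k := 18) (OkB.mk ⟨17, 14, 18, 63, 72, 103, 15⟩ ⟨10, 8, 11, 52, 82, 103, 7⟩
    9 2 23 23 2 (-21) 67542554541826244609 (by decide +kernel)) <|
  AllL.cons (i := 7) (j := 8) (k := 19) (OkB.mk ⟨17, 14, 19, 63, 72, 103, 15⟩ ⟨11, 8, 11, 52, 82, 103, 7⟩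
    9 4 25 25 0 (-23) 66949350151577141249 (by decide +kernel)) <|
  AllL.cons (i := 7) (j := 8) (k := 20) (OkB.mk ⟨18, 14, 19, 63, 72, 103, 15⟩ ⟨11, 9, 11, 52, 82, 103, 7⟩
    9 6 26 26 (-2) (-24) 64554672512714145793 (by decide +kernel)) <|
  AllL.cons (i := 7) (j := 8) (k := 21) (OkB.mk ⟨18, 14, 20, 63, 72, 103, 15⟩ ⟨11, 9, 12, 52, 82, 103, 7⟩
    9 8 27 30 (-7) (-26) 61187509961871065089 (by decide +kernel)) <|
  AllL.cons (i := 7) (j := 8) (k := 22) (OkB.mk ⟨19, 13, 21, 63, 72, 103, 15⟩ ⟨11, 9, 12, 52, 82, 103, 7⟩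
    9 10 27 35 (-11) (-27) 68083271545500205057 (by decide +kernel)) <|
  AllL.cons (i := 7) (j := 9) (k := 9) (OkB.mk ⟨16, 15, 15, 63, 72, 103, 16⟩ ⟨9, 7, 8, 52, 82, 103, 7⟩
    13 (-11) 8 18 5 (-18) 59571669048080990209 (by decide +kernel)) <|
  AllL.cons (i := 7) (j := 9) (k := 10) (OkB.mk ⟨16, 14, 15, 63, 72, 103, 16⟩ ⟨8, 7, 8, 52, 82, 103, 7⟩
    13 (-10) 10 17 5 (-18) 72396092436434124801 (by decide +kernel)) <|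
  AllL.cons (i := 7) (j := 9) (k := 11) (OkB.mk ⟨16, 14, 15, 63, 72, 103, 16⟩ ⟨8, 7, 8, 52, 82, 103, 7⟩
    13 (-9) 12 16 4 (-17) 63379780429322125313 (by decide +kernel)) <|
  AllL.cons (i := 7) (j := 9) (k := 12) (OkB.mk ⟨15, 15, 15, 63, 72, 103, 16⟩ ⟨8, 8, 8, 52, 82, 103, 7⟩
    12 (-8) 13 15 3 (-17) 60543885954101805057 (by decide +kernel)) <|
  AllL.nil

end Pool.Agent.MP_48470b_gt.Run
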