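import Pool.Agent.MP_48470b_gt.Run.OkB
import Pool.Agent.MP_48470b_gt.Run.F36

/-! Runs of the tests. -/

namespace Pool.Agent.MP_48470b_gt.Run

/-- the boxes of this part -/
def b72l : List (Nat × Nat × Nat) :=
  [(7, 9, 13), (7, 9, 14), (7, 9, 15), (7, 9, 16), (7, 9, 17), (7, 9, 18), (7, 9, 19), (7, 9, 20), (7, 9, 21), (7, 9, 22), (7, 10, 10), (7, 10, 11), (7, 10, 12), (7, 10, 13), (7, 10, 14), (7, 10, 15), (7, 10, 16), (7, 10, 17), (7, 10, 18), (7, 10, 19), (7, 10, 20), (7, 10, 21), (7, 10, 22), (7, 11, 11), (7, 11, 12), (7, 11, 13), (7, 11, 14), (7, 11, 15), (7, 11, 16), (7, 11, 17)]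

theorem b72 : AllL OkB b72l :=
  AllL.cons (i := 7) (j := 9) (k := 13) (OkB.mk ⟨15, 15, 15, 63, 72, 103, 16⟩ ⟨8, 8, 8, 52, 82, 103, 7⟩
    12 (-6) 14 15 4 (-16) 62722294603583586305 (by decide +kernel)) <|
  AllL.cons (i := 7) (j := 9) (k := 14) (OkB.mk ⟨15, 14, 16, 63, 72, 103, 16⟩ ⟨8, 8, 9, 52, 82, 103, 7⟩
    11 (-5) 15 15 3 (-16) 61067269294402830337 (by decide +kernel)) <|
  AllL.cons (i := 7) (j := 9) (k := 15) (OkB.mk ⟨15, 14, 16, 63, 72, 103, 16⟩ ⟨9, 8, 9, 52, 82, 103, 7⟩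
    10 (-4) 16 16 2 (-16) 64436767070504353793 (by decide +kernel)) <|
  AllL.cons (i := 7) (j := 9) (k := 16) (OkB.mk ⟨15, 14, 17, 63, 72, 103, 16⟩ ⟨9, 8, 9, 52, 82, 103, 7⟩
    10 (-3) 18 17 (-1) (-16) 61667850995357450241 (by decide +kernel)) <|
  AllL.cons (i := 7) (j := 9) (k := 17) (OkB.mk ⟨15, 14, 17, 63, 72, 103, 16⟩ ⟨9, 8, 9, 52, 82, 103, 7⟩
    10 (-1) 19 18 (-1) (-17) 67226529061480169473 (by decide +kernel)) <|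
  AllL.cons (i := 7) (j := 9) (k := 18) (OkB.mk ⟨16, 13, 17, 63, 72, 103, 15⟩ ⟨9, 8, 10, 52, 82, 103, 7⟩
    9 1 20 20 (-2) (-18) 71792506457395560449 (by decide +kernel)) <|
  AllL.cons (i := 7) (j := 9) (k := 19) (OkB.mk ⟨16, 13, 18, 63, 72, 103, 15⟩ ⟨9, 8, 10, 52, 82, 103, 7⟩
    9 3 21 21 (-4) (-19) 64129358325346205697 (by decide +kernel)) <|
  AllL.cons (i := 7) (j := 9) (k := 20) (OkB.mk ⟨16, 13, 18, 63, 72, 103, 15⟩ ⟨9, 8, 11, 52, 82, 103, 7⟩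
    9 6 23 23 (-2) (-20) 67432982573121273857 (by decide +kernel)) <|
  AllL.cons (i := 7) (j := 9) (k := 21) (OkB.mk ⟨16, 13, 18, 63, 72, 103, 15⟩ ⟨10, 8, 11, 52, 82, 103, 7⟩
    9 8 25 26 (-5) (-21) 69658415410777686017 (by decide +kernel)) <|
  AllL.cons (i := 7) (j := 9) (k := 22) (OkB.mk ⟨16, 13, 19, 63, 72, 103, 15⟩ ⟨10, 8, 11, 52, 82, 103, 7⟩
    10 10 24 31 (-11) (-23) 68521825364695056385 (by decide +kernel)) <|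
  AllL.cons (i := 7) (j := 10) (k := 10) (OkB.mk ⟨15, 14, 15, 63, 72, 103, 16⟩ ⟨8, 7, 8, 52, 82, 103, 7⟩
    13 (-11) 8 16 4 (-17) 70725009722002374657 (by decide +kernel)) <|
  AllL.cons (i := 7) (j := 10) (k := 11) (OkB.mk ⟨16, 14, 14, 63, 72, 103, 16⟩ ⟨8, 7, 8, 52, 82, 103, 7⟩
    13 (-9) 9 15 5 (-16) 67903649278672764929 (by decide +kernel)) <|
  AllL.cons (i := 7) (j := 10) (k := 12) (OkB.mk ⟨14, 15, 15, 63, 72, 103, 16⟩ ⟨8, 7, 8, 52, 82, 103, 7⟩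
    13 (-8) 11 14 4 (-16) 74627518986851450881 (by decide +kernel)) <|
  AllL.cons (i := 7) (j := 10) (k := 13) (OkB.mk ⟨14, 15, 15, 63, 72, 103, 16⟩ ⟨8, 7, 8, 52, 82, 103, 7⟩
    12 (-7) 12 13 3 (-15) 65619743313139597313 (by decide +kernel)) <|
  AllL.cons (i := 7) (j := 10) (k := 14) (OkB.mk ⟨14, 14, 16, 63, 72, 103, 16⟩ ⟨8, 7, 8, 52, 82, 103, 7⟩
    12 (-6) 13 14 2 (-15) 65236873298260787201 (by decide +kernel)) <|
  AllL.cons (i := 7) (j := 10) (k := 15) (OkB.mk ⟨14, 14, 16, 63, 72, 103, 16⟩ ⟨8, 8, 8, 52, 82, 103, 7⟩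
    11 (-4) 14 14 2 (-14) 66786073362047172609 (by decide +kernel)) <|
  AllL.cons (i := 7) (j := 10) (k := 16) (OkB.mk ⟨15, 13, 16, 63, 72, 103, 16⟩ ⟨8, 8, 8, 52, 82, 103, 7⟩
    11 (-3) 16 15 1 (-14) 69634237837277659137 (by decide +kernel)) <|
  AllL.cons (i := 7) (j := 10) (k := 17) (OkB.mk ⟨15, 13, 16, 63, 72, 103, 16⟩ ⟨8, 8, 9, 52, 82, 103, 7⟩
    10 (-1) 17 16 0 (-15) 69870480142572191745 (by decide +kernel)) <|
  AllL.cons (i := 7) (j := 10) (k := 18) (OkB.mk ⟨15, 13, 16, 63, 72, 103, 16⟩ ⟨8, 8, 9, 52, 82, 103, 7⟩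
    10 1 18 17 (-1) (-15) 67684516886134915073 (by decide +kernel)) <|
  AllL.cons (i := 7) (j := 10) (k := 19) (OkB.mk ⟨15, 13, 16, 63, 72, 103, 16⟩ ⟨8, 8, 9, 52, 82, 103, 7⟩
    10 3 19 18 (-2) (-16) 65883013675829166081 (by decide +kernel)) <|
  AllL.cons (i := 7) (j := 10) (k := 20) (OkB.mk ⟨15, 13, 16, 63, 72, 103, 15⟩ ⟨9, 8, 9, 52, 82, 103, 7⟩
    10 5 20 20 (-5) (-17) 69364900094548115457 (by decide +kernel)) <|
  AllL.cons (i := 7) (j := 10) (k := 21) (OkB.mk ⟨15, 13, 17, 63, 72, 103, 15⟩ ⟨9, 8, 9, 52, 82, 103, 7⟩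
    10 8 22 23 (-4) (-18) 57184417373313040385 (by decide +kernel)) <|
  AllL.cons (i := 7) (j := 10) (k := 22) (OkB.mk ⟨15, 12, 17, 63, 72, 103, 15⟩ ⟨9, 7, 10, 52, 82, 103, 7⟩
    10 10 22 27 (-8) (-19) 74222901868925812737 (by decide +kernel)) <|
  AllL.cons (i := 7) (j := 11) (k := 11) (OkB.mk ⟨14, 14, 15, 63, 72, 103, 16⟩ ⟨7, 7, 8, 52, 82, 103, 7⟩
    13 (-10) 7 15 5 (-15) 72391568220963733505 (by decide +kernel)) <|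
  AllL.cons (i := 7) (j := 11) (k := 12) (OkB.mk ⟨14, 15, 14, 63, 72, 103, 16⟩ ⟨7, 8, 7, 52, 82, 103, 7⟩
    13 (-9) 9 13 4 (-15) 62487685622812114945 (by decide +kernel)) <|
  AllL.cons (i := 7) (j := 11) (k := 13) (OkB.mk ⟨14, 14, 14, 63, 72, 103, 16⟩ ⟨8, 8, 7, 52, 82, 103, 7⟩
    13 (-7) 10 13 4 (-14) 69704504601751846913 (by decide +kernel)) <|
  AllL.cons (i := 7) (j := 11) (k := 14) (OkB.mk ⟨14, 14, 14, 63, 72, 103, 16⟩ ⟨8, 8, 7, 52, 82, 103, 7⟩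
    12 (-6) 11 13 3 (-14) 65303538612398194689 (by decide +kernel)) <|
  AllL.cons (i := 7) (j := 11) (k := 15) (OkB.mk ⟨14, 14, 14, 63, 72, 103, 16⟩ ⟨7, 8, 8, 52, 82, 103, 7⟩
    12 (-5) 12 13 2 (-13) 69875833939565740033 (by decide +kernel)) <|
  AllL.cons (i := 7) (j := 11) (k := 16) (OkB.mk ⟨14, 13, 15, 63, 72, 103, 16⟩ ⟨8, 7, 8, 52, 82, 103, 7⟩
    11 (-3) 13 14 1 (-13) 72165690049711570945 (by decide +kernel)) <|
  AllL.cons (i := 7) (j := 11) (k := 17) (OkB.mk ⟨14, 13, 15, 63, 72, 103, 16⟩ ⟨8, 7, 8, 52, 82, 103, 7⟩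
    11 (-2) 15 14 (-1) (-13) 74350122785962983425 (by decide +kernel)) <|
  AllL.nil

end Pool.Agent.MP_48470b_gt.Run
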