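import Pool.Agent.MP_48470b_gt.Run.OkB
import Pool.Agent.MP_48470b_gt.Run.B72

/-! Runs of the tests. -/

namespace Pool.Agent.MP_48470b_gt.Run

/-- the boxes of this part -/
def b73l : List (Nat × Nat × Nat) :=
  [(7, 11, 18), (7, 11, 19), (7, 11, 20), (7, 11, 21), (7, 11, 22), (7, 12, 12), (7, 12, 13), (7, 12, 14), (7, 12, 15), (7, 12, 16), (7, 12, 17), (7, 12, 18), (7, 12, 19), (7, 12, 20), (7, 12, 21), (7, 12, 22), (7, 13, 13), (7, 13, 14), (7, 13, 15), (7, 13, 16), (7, 13, 17), (7, 13, 18), (7, 13, 19), (7, 13, 20), (7, 13, 21), (7, 13, 22), (7, 14, 14), (7, 14, 15), (7, 14, 16), (7, 14, 17), (7, 14, 18), (7, 14, 19), (7, 14, 20), (7, 14, 21)]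

theorem b73 : AllL OkB b73l :=
  AllL.cons (i := 7) (j := 11) (k := 18) (OkB.mk ⟨14, 13, 15, 63, 72, 103, 16⟩ ⟨8, 8, 8, 52, 82, 103, 7⟩
    11 0 16 15 (-2) (-13) 73217710196871135233 (by decide +kernel)) <|
  AllL.cons (i := 7) (j := 11) (k := 19) (OkB.mk ⟨14, 13, 15, 63, 72, 103, 16⟩ ⟨8, 8, 8, 52, 82, 103, 7⟩
    11 2 17 16 (-3) (-14) 74151616269489537025 (by decide +kernel)) <|
  AllL.cons (i := 7) (j := 11) (k := 20) (OkB.mk ⟨14, 13, 15, 63, 72, 103, 16⟩ ⟨8, 7, 9, 52, 82, 103, 7⟩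
    11 5 18 17 (-3) (-15) 73395080114129076225 (by decide +kernel)) <|
  AllL.cons (i := 7) (j := 11) (k := 21) (OkB.mk ⟨14, 13, 15, 63, 72, 103, 16⟩ ⟨8, 7, 9, 52, 82, 103, 7⟩
    11 7 18 20 (-6) (-15) 73829922256946462721 (by decide +kernel)) <|
  AllL.cons (i := 7) (j := 11) (k := 22) (OkB.mk ⟨14, 12, 16, 63, 72, 103, 15⟩ ⟨8, 7, 9, 52, 82, 103, 7⟩
    11 9 19 23 (-8) (-16) 73361173374551719937 (by decide +kernel)) <|
  AllL.cons (i := 7) (j := 12) (k := 12) (OkB.mk ⟨14, 14, 15, 63, 72, 103, 16⟩ ⟨7, 7, 8, 52, 82, 103, 7⟩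
    13 (-9) 7 13 4 (-13) 71016774753159479297 (by decide +kernel)) <|
  AllL.cons (i := 7) (j := 12) (k := 13) (OkB.mk ⟨14, 14, 15, 63, 72, 103, 16⟩ ⟨7, 7, 8, 52, 82, 103, 7⟩
    13 (-8) 8 12 3 (-13) 65362119904731332609 (by decide +kernel)) <|
  AllL.cons (i := 7) (j := 12) (k := 14) (OkB.mk ⟨14, 14, 15, 63, 72, 103, 16⟩ ⟨7, 7, 8, 52, 82, 103, 7⟩
    13 (-7) 9 12 2 (-12) 60634491622105546753 (by decide +kernel)) <|
  AllL.cons (i := 7) (j := 12) (k := 15) (OkB.mk ⟨14, 13, 16, 63, 72, 103, 16⟩ ⟨7, 7, 8, 52, 82, 103, 7⟩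
    12 (-6) 11 12 1 (-12) 76845241636657037313 (by decide +kernel)) <|
  AllL.cons (i := 7) (j := 12) (k := 16) (OkB.mk ⟨14, 13, 15, 63, 72, 103, 16⟩ ⟨8, 7, 8, 52, 82, 103, 7⟩
    12 (-4) 12 13 1 (-12) 76415119422379786241 (by decide +kernel)) <|
  AllL.cons (i := 7) (j := 12) (k := 17) (OkB.mk ⟨14, 13, 15, 63, 72, 103, 16⟩ ⟨8, 7, 8, 52, 82, 103, 7⟩
    12 (-2) 13 13 0 (-12) 75572956737421967361 (by decide +kernel)) <|
  AllL.cons (i := 7) (j := 12) (k := 18) (OkB.mk ⟨14, 13, 15, 63, 72, 103, 16⟩ ⟨8, 7, 8, 52, 82, 103, 7⟩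
    12 0 14 14 (-1) (-12) 80066432336601808897 (by decide +kernel)) <|
  AllL.cons (i := 7) (j := 12) (k := 19) (OkB.mk ⟨14, 13, 15, 63, 72, 103, 16⟩ ⟨8, 8, 8, 52, 82, 103, 7⟩
    12 2 14 14 (-2) (-12) 79579578345988292609 (by decide +kernel)) <|
  AllL.cons (i := 7) (j := 12) (k := 20) (OkB.mk ⟨14, 13, 15, 63, 72, 103, 16⟩ ⟨8, 8, 8, 52, 82, 103, 7⟩
    12 4 15 15 (-4) (-12) 76911617779236339713 (by decide +kernel)) <|
  AllL.cons (i := 7) (j := 12) (k := 21) (OkB.mk ⟨14, 12, 16, 63, 72, 103, 16⟩ ⟨8, 7, 9, 52, 82, 103, 7⟩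
    12 6 16 18 (-6) (-13) 91028350372589600769 (by decide +kernel)) <|
  AllL.cons (i := 7) (j := 12) (k := 22) (OkB.mk ⟨14, 12, 15, 63, 72, 103, 16⟩ ⟨8, 7, 9, 52, 82, 103, 7⟩
    12 8 16 20 (-8) (-13) 73013933308848898049 (by decide +kernel)) <|
  AllL.cons (i := 7) (j := 13) (k := 13) (OkB.mk ⟨14, 14, 15, 63, 72, 103, 16⟩ ⟨7, 7, 8, 52, 82, 103, 7⟩
    13 (-9) 7 12 3 (-13) 74700791541238071297 (by decide +kernel)) <|
  AllL.cons (i := 7) (j := 13) (k := 14) (OkB.mk ⟨14, 14, 15, 63, 72, 103, 16⟩ ⟨7, 7, 8, 52, 82, 103, 7⟩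
    13 (-7) 8 12 3 (-12) 69803291186022055937 (by decide +kernel)) <|
  AllL.cons (i := 7) (j := 13) (k := 15) (OkB.mk ⟨13, 14, 15, 63, 72, 103, 16⟩ ⟨7, 7, 8, 52, 82, 103, 7⟩
    13 (-6) 9 12 2 (-12) 89734574281639067649 (by decide +kernel)) <|
  AllL.cons (i := 7) (j := 13) (k := 16) (OkB.mk ⟨13, 14, 15, 63, 72, 103, 16⟩ ⟨7, 7, 8, 52, 82, 103, 7⟩
    12 (-5) 10 12 1 (-11) 83363146153796304897 (by decide +kernel)) <|
  AllL.cons (i := 7) (j := 13) (k := 17) (OkB.mk ⟨13, 13, 15, 63, 72, 103, 16⟩ ⟨7, 7, 8, 52, 82, 103, 7⟩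
    12 (-3) 11 12 0 (-11) 94133777341536534529 (by decide +kernel)) <|
  AllL.cons (i := 7) (j := 13) (k := 18) (OkB.mk ⟨13, 13, 15, 63, 72, 103, 16⟩ ⟨7, 8, 8, 52, 82, 103, 7⟩
    13 (-1) 12 12 (-1) (-11) 98452500960644169729 (by decide +kernel)) <|
  AllL.cons (i := 7) (j := 13) (k := 19) (OkB.mk ⟨13, 13, 15, 63, 72, 103, 16⟩ ⟨7, 8, 8, 52, 82, 103, 7⟩
    13 1 12 13 (-2) (-11) 102390148692971618305 (by decide +kernel)) <|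
  AllL.cons (i := 7) (j := 13) (k := 20) (OkB.mk ⟨13, 13, 16, 63, 72, 103, 16⟩ ⟨8, 7, 8, 52, 82, 103, 7⟩
    13 3 13 14 (-4) (-11) 91466833960479227905 (by decide +kernel)) <|
  AllL.cons (i := 7) (j := 13) (k := 21) (OkB.mk ⟨13, 13, 15, 63, 72, 103, 16⟩ ⟨8, 7, 8, 52, 82, 103, 7⟩
    13 5 13 16 (-6) (-12) 95591649358179729409 (by decide +kernel)) <|
  AllL.cons (i := 7) (j := 13) (k := 22) (OkB.mk ⟨13, 12, 16, 63, 72, 103, 16⟩ ⟨8, 7, 8, 52, 82, 103, 7⟩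
    13 8 14 18 (-6) (-12) 98766540585551527937 (by decide +kernel)) <|
  AllL.cons (i := 7) (j := 14) (k := 14) (OkB.mk ⟨13, 15, 15, 63, 72, 103, 16⟩ ⟨7, 7, 8, 52, 82, 103, 7⟩
    13 (-8) 6 12 2 (-12) 83988932509550247937 (by decide +kernel)) <|
  AllL.cons (i := 7) (j := 14) (k := 15) (OkB.mk ⟨13, 14, 15, 63, 72, 103, 16⟩ ⟨7, 7, 8, 52, 82, 103, 7⟩
    13 (-7) 8 11 1 (-11) 96664589088447266817 (by decide +kernel)) <|
  AllL.cons (i := 7) (j := 14) (k := 16) (OkB.mk ⟨13, 14, 15, 63, 72, 103, 16⟩ ⟨7, 7, 8, 52, 82, 103, 7⟩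
    13 (-5) 8 11 1 (-11) 90184511894472097793 (by decide +kernel)) <|
  AllL.cons (i := 7) (j := 14) (k := 17) (OkB.mk ⟨13, 13, 15, 63, 72, 103, 16⟩ ⟨7, 7, 8, 52, 82, 103, 7⟩
    13 (-4) 9 11 0 (-11) 106533822364355919873 (by decide +kernel)) <|
  AllL.cons (i := 7) (j := 14) (k := 18) (OkB.mk ⟨13, 13, 15, 63, 72, 103, 16⟩ ⟨7, 7, 8, 52, 82, 103, 7⟩
    13 (-2) 10 12 (-1) (-10) 112337263538571575297 (by decide +kernel)) <|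
  AllL.cons (i := 7) (j := 14) (k := 19) (OkB.mk ⟨13, 13, 15, 63, 72, 103, 16⟩ ⟨7, 8, 8, 52, 82, 103, 7⟩
    13 0 11 12 (-2) (-10) 116492366770765561857 (by decide +kernel)) <|
  AllL.cons (i := 7) (j := 14) (k := 20) (OkB.mk ⟨13, 13, 15, 63, 72, 103, 16⟩ ⟨7, 8, 8, 52, 82, 103, 7⟩
    14 2 11 12 (-3) (-11) 113714068700337799169 (by decide +kernel)) <|
  AllL.cons (i := 7) (j := 14) (k := 21) (OkB.mk ⟨13, 13, 15, 63, 72, 103, 16⟩ ⟨7, 8, 8, 52, 82, 103, 7⟩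
    14 5 11 14 (-4) (-11) 104304810204034236417 (by decide +kernel)) <|
  AllL.nil

end Pool.Agent.MP_48470b_gt.Run
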