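import Pool.Agent.MP_48470b_gt.Run.OkB
import Pool.Agent.MP_48470b_gt.Run.F37

/-! Runs of the tests. -/

namespace Pool.Agent.MP_48470b_gt.Run

/-- the boxes of this part -/
def b74l : List (Nat × Nat × Nat) :=
  [(7, 14, 22), (7, 15, 15), (7, 15, 16), (7, 15, 17), (7, 15, 18), (7, 15, 19), (7, 15, 20), (7, 15, 21), (7, 15, 22), (7, 16, 16), (7, 16, 17), (7, 16, 18), (7, 16, 19), (7, 16, 20), (7, 16, 21), (7, 16, 22), (7, 17, 17), (7, 17, 18), (7, 17, 19), (7, 17, 20), (7, 17, 21), (7, 17, 22), (7, 18, 18), (7, 18, 19), (7, 18, 20), (7, 18, 21), (7, 18, 22), (7, 19, 19), (7, 19, 20), (7, 19, 21), (7, 19, 22), (7, 20, 20), (7, 20, 21), (7, 20, 22), (7, 21, 21)]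

theorem b74 : AllL OkB b74l :=
  AllL.cons (i := 7) (j := 14) (k := 22) (OkB.mk ⟨13, 12, 16, 63, 72, 103, 16⟩ ⟨7, 8, 8, 52, 82, 103, 7⟩
    14 7 12 16 (-6) (-12) 117693846832023601153 (by decide +kernel)) <|
  AllL.cons (i := 7) (j := 15) (k := 15) (OkB.mk ⟨13, 14, 15, 63, 72, 103, 16⟩ ⟨7, 7, 8, 52, 82, 103, 7⟩
    13 (-7) 6 11 1 (-11) 107994928044696403969 (by decide +kernel)) <|
  AllL.cons (i := 7) (j := 15) (k := 16) (OkB.mk ⟨13, 14, 15, 63, 72, 103, 16⟩ ⟨7, 7, 8, 52, 82, 103, 7⟩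
    13 (-6) 7 11 1 (-11) 97999280755846414337 (by decide +kernel)) <|
  AllL.cons (i := 7) (j := 15) (k := 17) (OkB.mk ⟨13, 13, 15, 63, 72, 103, 16⟩ ⟨7, 7, 8, 52, 82, 103, 7⟩
    13 (-4) 8 11 0 (-10) 119707144431702376449 (by decide +kernel)) <|
  AllL.cons (i := 7) (j := 15) (k := 18) (OkB.mk ⟨13, 13, 15, 63, 72, 103, 16⟩ ⟨7, 8, 8, 52, 82, 103, 7⟩
    14 (-3) 8 11 (-1) (-10) 128439961796682448897 (by decide +kernel)) <|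
  AllL.cons (i := 7) (j := 15) (k := 19) (OkB.mk ⟨13, 13, 15, 63, 72, 103, 16⟩ ⟨7, 8, 8, 52, 82, 103, 7⟩
    14 (-1) 9 11 (-2) (-10) 127753603757671186433 (by decide +kernel)) <|
  AllL.cons (i := 7) (j := 15) (k := 20) (OkB.mk ⟨13, 13, 16, 63, 72, 103, 16⟩ ⟨7, 8, 8, 52, 82, 103, 7⟩
    14 2 9 11 (-3) (-10) 139050163792569696257 (by decide +kernel)) <|
  AllL.cons (i := 7) (j := 15) (k := 21) (OkB.mk ⟨13, 13, 15, 63, 72, 103, 16⟩ ⟨7, 8, 8, 52, 82, 103, 7⟩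
    14 4 9 13 (-4) (-10) 118008537642692509697 (by decide +kernel)) <|
  AllL.cons (i := 7) (j := 15) (k := 22) (OkB.mk ⟨13, 13, 15, 63, 72, 103, 16⟩ ⟨7, 7, 8, 52, 82, 103, 7⟩
    15 6 9 15 (-6) (-11) 98558721892785586177 (by decide +kernel)) <|
  AllL.cons (i := 7) (j := 16) (k := 16) (OkB.mk ⟨13, 14, 14, 63, 72, 103, 16⟩ ⟨7, 7, 8, 52, 82, 103, 7⟩
    13 (-6) 6 10 0 (-10) 109696454449394876417 (by decide +kernel)) <|
  AllL.cons (i := 7) (j := 16) (k := 17) (OkB.mk ⟨13, 13, 15, 63, 72, 103, 16⟩ ⟨7, 7, 8, 52, 82, 103, 7⟩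
    14 (-5) 6 10 0 (-10) 132670939852408094721 (by decide +kernel)) <|
  AllL.cons (i := 7) (j := 16) (k := 18) (OkB.mk ⟨13, 13, 15, 63, 72, 103, 16⟩ ⟨7, 8, 8, 52, 82, 103, 7⟩
    14 (-3) 7 10 (-1) (-9) 138014894430181392385 (by decide +kernel)) <|
  AllL.cons (i := 7) (j := 16) (k := 19) (OkB.mk ⟨13, 13, 15, 63, 72, 103, 16⟩ ⟨8, 8, 7, 52, 82, 103, 7⟩
    14 (-1) 7 10 (-2) (-9) 152473062492476538881 (by decide +kernel)) <|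
  AllL.cons (i := 7) (j := 16) (k := 20) (OkB.mk ⟨13, 14, 14, 63, 72, 103, 16⟩ ⟨7, 8, 8, 52, 82, 103, 7⟩
    15 1 8 11 (-3) (-9) 144685598765427458049 (by decide +kernel)) <|
  AllL.cons (i := 7) (j := 16) (k := 21) (OkB.mk ⟨13, 13, 15, 63, 72, 103, 16⟩ ⟨7, 8, 8, 52, 82, 103, 7⟩
    15 3 8 12 (-4) (-10) 140966972787280314369 (by decide +kernel)) <|
  AllL.cons (i := 7) (j := 16) (k := 22) (OkB.mk ⟨13, 13, 15, 63, 72, 103, 16⟩ ⟨7, 8, 8, 52, 82, 103, 7⟩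
    15 5 8 13 (-6) (-10) 113483045089545551873 (by decide +kernel)) <|
  AllL.cons (i := 7) (j := 17) (k := 17) (OkB.mk ⟨13, 13, 14, 63, 72, 103, 16⟩ ⟨8, 7, 8, 52, 82, 103, 7⟩
    14 (-5) 5 10 0 (-10) 148760340204575784961 (by decide +kernel)) <|
  AllL.cons (i := 7) (j := 17) (k := 18) (OkB.mk ⟨13, 13, 14, 63, 72, 103, 16⟩ ⟨7, 8, 8, 52, 82, 103, 7⟩
    14 (-3) 5 10 (-1) (-9) 152596750541214711809 (by decide +kernel)) <|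
  AllL.cons (i := 7) (j := 17) (k := 19) (OkB.mk ⟨13, 14, 14, 63, 72, 103, 16⟩ ⟨7, 8, 8, 52, 82, 103, 7⟩
    15 (-2) 6 10 (-2) (-9) 131582032052209319937 (by decide +kernel)) <|
  AllL.cons (i := 7) (j := 17) (k := 20) (OkB.mk ⟨13, 14, 14, 63, 72, 103, 16⟩ ⟨7, 8, 8, 52, 82, 103, 7⟩
    15 0 6 10 (-3) (-9) 143299768399903588353 (by decide +kernel)) <|
  AllL.cons (i := 7) (j := 17) (k := 21) (OkB.mk ⟨13, 14, 14, 63, 72, 103, 16⟩ ⟨7, 8, 8, 52, 82, 103, 7⟩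
    16 2 6 11 (-4) (-9) 139197807038581178369 (by decide +kernel)) <|
  AllL.cons (i := 7) (j := 17) (k := 22) (OkB.mk ⟨13, 13, 14, 63, 72, 103, 16⟩ ⟨7, 8, 8, 52, 82, 103, 7⟩
    16 4 6 12 (-6) (-10) 151902548036495081473 (by decide +kernel)) <|
  AllL.cons (i := 7) (j := 18) (k := 18) (OkB.mk ⟨13, 14, 14, 63, 72, 103, 16⟩ ⟨7, 8, 8, 52, 82, 103, 7⟩
    15 (-4) 4 9 (-1) (-9) 136121565093965070337 (by decide +kernel)) <|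
  AllL.cons (i := 7) (j := 18) (k := 19) (OkB.mk ⟨13, 14, 14, 63, 72, 103, 15⟩ ⟨7, 8, 8, 52, 82, 103, 7⟩
    15 (-2) 4 9 (-2) (-9) 158527617416508211201 (by decide +kernel)) <|
  AllL.cons (i := 7) (j := 18) (k := 20) (OkB.mk ⟨13, 14, 14, 63, 72, 103, 15⟩ ⟨7, 8, 8, 52, 82, 103, 7⟩
    16 0 4 9 (-3) (-9) 208827194242873950209 (by decide +kernel)) <|
  AllL.cons (i := 7) (j := 18) (k := 21) (OkB.mk ⟨13, 14, 14, 63, 72, 103, 15⟩ ⟨7, 8, 8, 52, 82, 103, 7⟩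
    16 2 4 10 (-4) (-9) 183820997169195778049 (by decide +kernel)) <|
  AllL.cons (i := 7) (j := 18) (k := 22) (OkB.mk ⟨13, 14, 13, 63, 72, 103, 15⟩ ⟨7, 8, 8, 52, 82, 103, 7⟩
    16 3 5 12 (-6) (-9) 192251977289313550337 (by decide +kernel)) <|
  AllL.cons (i := 7) (j := 19) (k := 19) (OkB.mk ⟨13, 14, 14, 63, 72, 103, 15⟩ ⟨7, 8, 8, 52, 82, 103, 7⟩
    16 (-2) 3 9 (-2) (-9) 243491344224773734401 (by decide +kernel)) <|
  AllL.cons (i := 7) (j := 19) (k := 20) (OkB.mk ⟨13, 15, 14, 63, 72, 103, 15⟩ ⟨8, 8, 8, 52, 82, 103, 7⟩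
    16 (-1) 3 9 (-3) (-9) 241958555608982487041 (by decide +kernel)) <|
  AllL.cons (i := 7) (j := 19) (k := 21) (OkB.mk ⟨13, 14, 15, 63, 72, 103, 15⟩ ⟨7, 8, 8, 52, 82, 103, 7⟩
    17 1 3 10 (-4) (-9) 257811843535666675713 (by decide +kernel)) <|
  AllL.cons (i := 7) (j := 19) (k := 22) (OkB.mk ⟨13, 14, 14, 63, 72, 103, 15⟩ ⟨7, 8, 8, 52, 82, 103, 7⟩
    17 3 3 11 (-5) (-9) 213155901015244931073 (by decide +kernel)) <|
  AllL.cons (i := 7) (j := 20) (k := 20) (OkB.mk ⟨13, 15, 15, 63, 72, 103, 15⟩ ⟨7, 9, 9, 52, 82, 103, 7⟩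
    17 (-1) 2 9 (-3) (-9) 250754435463373651969 (by decide +kernel)) <|
  AllL.cons (i := 7) (j := 20) (k := 21) (OkB.mk ⟨13, 15, 15, 63, 72, 103, 15⟩ ⟨7, 9, 9, 52, 82, 103, 7⟩
    17 0 2 9 (-4) (-9) 255364554540292505601 (by decide +kernel)) <|
  AllL.cons (i := 7) (j := 20) (k := 22) (OkB.mk ⟨13, 14, 15, 63, 72, 103, 15⟩ ⟨7, 8, 9, 52, 82, 103, 7⟩
    17 2 1 11 (-5) (-9) 262811623348716437505 (by decide +kernel)) <|
  AllL.cons (i := 7) (j := 21) (k := 21) (OkB.mk ⟨13, 15, 15, 63, 72, 103, 15⟩ ⟨7, 9, 9, 52, 82, 103, 7⟩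
    18 0 0 9 (-4) (-10) 281449535111100891137 (by decide +kernel)) <|
  AllL.nil

end Pool.Agent.MP_48470b_gt.Run
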