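import Pool.Agent.MP_48470b_gt.Run.OkB
import Pool.Agent.MP_48470b_gt.Run.B74

/-! Runs of the tests. -/

namespace Pool.Agent.MP_48470b_gt.Run

/-- the boxes of this part -/
def b75l : List (Nat × Nat × Nat) :=
  [(7, 21, 22), (7, 22, 22), (8, 8, 8), (8, 8, 9), (8, 8, 10), (8, 8, 11), (8, 8, 12), (8, 8, 13), (8, 8, 14), (8, 8, 15), (8, 8, 16), (8, 8, 17), (8, 8, 18), (8, 8, 19), (8, 8, 20), (8, 8, 21), (8, 8, 22), (8, 9, 9), (8, 9, 10), (8, 9, 11), (8, 9, 12), (8, 9, 13), (8, 9, 14), (8, 9, 15), (8, 9, 16), (8, 9, 17), (8, 9, 18), (8, 9, 19), (8, 9, 20), (8, 9, 21)]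

theorem b75 : AllL OkB b75l :=
  AllL.cons (i := 7) (j := 21) (k := 22) (OkB.mk ⟨13, 15, 15, 63, 72, 103, 15⟩ ⟨8, 8, 9, 52, 82, 103, 7⟩
    18 1 0 10 (-5) (-10) 247112336181714485249 (by decide +kernel)) <|
  AllL.cons (i := 7) (j := 22) (k := 22) (OkB.mk ⟨12, 15, 15, 63, 72, 103, 15⟩ ⟨8, 8, 9, 52, 82, 103, 7⟩
    18 1 (-1) 10 (-6) (-12) 367747944515794632705 (by decide +kernel)) <|
  AllL.cons (i := 8) (j := 8) (k := 8) (OkB.mk ⟨15, 16, 16, 63, 72, 103, 16⟩ ⟨8, 8, 8, 52, 82, 103, 7⟩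
    14 (-11) 7 18 7 (-19) 68046125369789513729 (by decide +kernel)) <|
  AllL.cons (i := 8) (j := 8) (k := 9) (OkB.mk ⟨15, 15, 15, 63, 72, 103, 16⟩ ⟨8, 8, 8, 52, 82, 103, 7⟩
    14 (-10) 9 18 6 (-19) 80812173211922857985 (by decide +kernel)) <|
  AllL.cons (i := 8) (j := 8) (k := 10) (OkB.mk ⟨15, 15, 15, 63, 72, 103, 16⟩ ⟨8, 8, 8, 52, 82, 103, 7⟩
    13 (-9) 10 17 5 (-19) 70676068122987855873 (by decide +kernel)) <|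
  AllL.cons (i := 8) (j := 8) (k := 11) (OkB.mk ⟨15, 15, 15, 63, 72, 103, 16⟩ ⟨8, 7, 8, 52, 82, 103, 7⟩
    12 (-8) 11 17 5 (-19) 63794649805982007297 (by decide +kernel)) <|
  AllL.cons (i := 8) (j := 8) (k := 12) (OkB.mk ⟨15, 15, 15, 63, 72, 103, 16⟩ ⟨8, 8, 8, 52, 82, 103, 7⟩
    11 (-7) 13 15 3 (-18) 64604357106711134209 (by decide +kernel)) <|
  AllL.cons (i := 8) (j := 8) (k := 13) (OkB.mk ⟨15, 15, 15, 63, 72, 103, 16⟩ ⟨8, 8, 8, 52, 82, 103, 7⟩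
    10 (-6) 14 15 2 (-18) 65099278351576596481 (by decide +kernel)) <|
  AllL.cons (i := 8) (j := 8) (k := 14) (OkB.mk ⟨15, 14, 16, 63, 72, 103, 16⟩ ⟨8, 8, 9, 52, 82, 103, 7⟩
    10 (-5) 15 15 1 (-18) 64193162985106046977 (by decide +kernel)) <|
  AllL.cons (i := 8) (j := 8) (k := 15) (OkB.mk ⟨16, 14, 16, 63, 72, 103, 16⟩ ⟨9, 8, 9, 52, 82, 103, 7⟩
    9 (-3) 15 16 3 (-18) 52679717959436861441 (by decide +kernel)) <|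
  AllL.cons (i := 8) (j := 8) (k := 16) (OkB.mk ⟨16, 14, 16, 63, 72, 103, 16⟩ ⟨9, 8, 9, 52, 82, 103, 7⟩
    9 (-2) 16 17 1 (-19) 56477759051118149633 (by decide +kernel)) <|
  AllL.cons (i := 8) (j := 8) (k := 17) (OkB.mk ⟨16, 14, 16, 63, 72, 103, 16⟩ ⟨9, 8, 10, 52, 82, 103, 7⟩
    8 (-1) 17 19 (-2) (-19) 66641833241962610689 (by decide +kernel)) <|
  AllL.cons (i := 8) (j := 8) (k := 18) (OkB.mk ⟨17, 13, 17, 63, 72, 103, 16⟩ ⟨9, 8, 10, 52, 82, 103, 7⟩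
    8 1 19 20 (-2) (-20) 70170935301318377473 (by decide +kernel)) <|
  AllL.cons (i := 8) (j := 8) (k := 19) (OkB.mk ⟨17, 13, 17, 63, 72, 103, 16⟩ ⟨10, 8, 10, 52, 82, 103, 7⟩
    8 3 20 22 (-2) (-22) 67367168006105858049 (by decide +kernel)) <|
  AllL.cons (i := 8) (j := 8) (k := 20) (OkB.mk ⟨17, 13, 18, 63, 72, 103, 15⟩ ⟨10, 8, 10, 52, 82, 103, 7⟩
    8 5 21 23 (-3) (-23) 65381951658522574849 (by decide +kernel)) <|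
  AllL.cons (i := 8) (j := 8) (k := 21) (OkB.mk ⟨17, 13, 18, 63, 72, 103, 15⟩ ⟨10, 9, 10, 52, 82, 103, 7⟩
    8 7 22 27 (-5) (-25) 64772858363179433985 (by decide +kernel)) <|
  AllL.cons (i := 8) (j := 8) (k := 22) (OkB.mk ⟨18, 13, 18, 63, 72, 103, 15⟩ ⟨11, 9, 10, 52, 82, 103, 7⟩
    8 9 24 31 (-5) (-27) 57399420275054870529 (by decide +kernel)) <|
  AllL.cons (i := 8) (j := 9) (k := 9) (OkB.mk ⟨15, 15, 15, 63, 72, 103, 16⟩ ⟨7, 9, 9, 52, 82, 103, 7⟩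
    14 (-11) 8 17 5 (-18) 64575235166859952129 (by decide +kernel)) <|
  AllL.cons (i := 8) (j := 9) (k := 10) (OkB.mk ⟨15, 15, 15, 63, 72, 103, 16⟩ ⟨7, 8, 9, 52, 82, 103, 7⟩
    13 (-10) 9 17 5 (-18) 58007352760996986881 (by decide +kernel)) <|
  AllL.cons (i := 8) (j := 9) (k := 11) (OkB.mk ⟨15, 14, 16, 63, 72, 103, 16⟩ ⟨7, 8, 9, 52, 82, 103, 7⟩
    13 (-9) 11 16 4 (-18) 70709481319283294209 (by decide +kernel)) <|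
  AllL.cons (i := 8) (j := 9) (k := 12) (OkB.mk ⟨15, 15, 14, 63, 72, 103, 16⟩ ⟨8, 8, 8, 52, 82, 103, 7⟩
    12 (-7) 11 14 4 (-17) 72303208168020770817 (by decide +kernel)) <|
  AllL.cons (i := 8) (j := 9) (k := 13) (OkB.mk ⟨14, 15, 15, 63, 72, 103, 16⟩ ⟨8, 8, 8, 52, 82, 103, 7⟩
    11 (-6) 12 14 3 (-17) 66811250803933708289 (by decide +kernel)) <|
  AllL.cons (i := 8) (j := 9) (k := 14) (OkB.mk ⟨14, 15, 15, 63, 72, 103, 16⟩ ⟨8, 8, 8, 52, 82, 103, 7⟩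
    10 (-5) 13 14 2 (-16) 69638974121053257729 (by decide +kernel)) <|
  AllL.cons (i := 8) (j := 9) (k := 15) (OkB.mk ⟨15, 14, 15, 63, 72, 103, 16⟩ ⟨8, 8, 8, 52, 82, 103, 7⟩
    10 (-4) 14 14 1 (-16) 53390686779529494529 (by decide +kernel)) <|
  AllL.cons (i := 8) (j := 9) (k := 16) (OkB.mk ⟨15, 14, 15, 63, 72, 103, 16⟩ ⟨9, 8, 8, 52, 82, 103, 7⟩
    9 (-2) 15 15 2 (-16) 57808341156369530881 (by decide +kernel)) <|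
  AllL.cons (i := 8) (j := 9) (k := 17) (OkB.mk ⟨15, 13, 16, 63, 72, 103, 16⟩ ⟨8, 8, 9, 52, 82, 103, 7⟩
    9 (-1) 16 17 0 (-16) 74144875850894409729 (by decide +kernel)) <|
  AllL.cons (i := 8) (j := 9) (k := 18) (OkB.mk ⟨15, 13, 16, 63, 72, 103, 16⟩ ⟨8, 8, 10, 52, 82, 103, 7⟩
    9 1 17 18 (-1) (-17) 70981756544765394945 (by decide +kernel)) <|
  AllL.cons (i := 8) (j := 9) (k := 19) (OkB.mk ⟨15, 13, 16, 63, 72, 103, 16⟩ ⟨9, 7, 10, 52, 82, 103, 7⟩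
    9 3 18 19 (-1) (-18) 71762778686637473793 (by decide +kernel)) <|
  AllL.cons (i := 8) (j := 9) (k := 20) (OkB.mk ⟨16, 13, 16, 63, 72, 103, 16⟩ ⟨9, 8, 9, 52, 82, 103, 7⟩
    9 5 19 21 (-3) (-19) 66478055487447236609 (by decide +kernel)) <|
  AllL.cons (i := 8) (j := 9) (k := 21) (OkB.mk ⟨16, 13, 16, 63, 72, 103, 15⟩ ⟨9, 8, 9, 52, 82, 103, 7⟩
    9 7 20 24 (-5) (-21) 68863415727337504769 (by decide +kernel)) <|
  AllL.nil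

end Pool.Agent.MP_48470b_gt.Run
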