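import Pool.Agent.MP_48470b_gt.Run.OkB
import Pool.Agent.MP_48470b_gt.Run.F39

/-! Runs of the tests. -/

namespace Pool.Agent.MP_48470b_gt.Run

/-- the boxes of this part -/
def b78l : List (Nat × Nat × Nat) :=
  [(8, 16, 21), (8, 16, 22), (8, 17, 17), (8, 17, 18), (8, 17, 19), (8, 17, 20), (8, 17, 21), (8, 17, 22), (8, 18, 18), (8, 18, 19), (8, 18, 20), (8, 18, 21), (8, 18, 22), (8, 19, 19), (8, 19, 20), (8, 19, 21), (8, 19, 22), (8, 20, 20), (8, 20, 21), (8, 20, 22), (8, 21, 21), (8, 21, 22), (8, 22, 22), (9, 9, 9), (9, 9, 10), (9, 9, 11), (9, 9, 12), (9, 9, 13), (9, 9, 14), (9, 9, 15), (9, 9, 16), (9, 9, 17), (9, 9, 18)]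

theorem b78 : AllL OkB b78l :=
  AllL.cons (i := 8) (j := 16) (k := 21) (OkB.mk ⟨13, 13, 14, 63, 72, 103, 16⟩ ⟨7, 8, 8, 52, 82, 103, 7⟩
    14 3 7 12 (-4) (-10) 154222143737148997633 (by decide +kernel)) <|
  AllL.cons (i := 8) (j := 16) (k := 22) (OkB.mk ⟨13, 13, 14, 63, 72, 103, 16⟩ ⟨7, 7, 8, 52, 82, 103, 7⟩
    14 5 7 13 (-6) (-10) 135243416355502817281 (by decide +kernel)) <|
  AllL.cons (i := 8) (j := 17) (k := 17) (OkB.mk ⟨13, 13, 13, 63, 72, 103, 16⟩ ⟨7, 7, 8, 52, 82, 103, 7⟩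
    13 (-4) 5 10 (-1) (-10) 158939645792560873473 (by decide +kernel)) <|
  AllL.cons (i := 8) (j := 17) (k := 18) (OkB.mk ⟨13, 13, 14, 63, 72, 103, 16⟩ ⟨7, 8, 8, 52, 82, 103, 7⟩
    13 (-3) 5 10 (-1) (-9) 151753473226344235009 (by decide +kernel)) <|
  AllL.cons (i := 8) (j := 17) (k := 19) (OkB.mk ⟨13, 14, 13, 63, 72, 103, 16⟩ ⟨7, 8, 8, 52, 82, 103, 7⟩
    14 (-1) 5 10 (-2) (-9) 182501608367193063425 (by decide +kernel)) <|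
  AllL.cons (i := 8) (j := 17) (k := 20) (OkB.mk ⟨13, 14, 14, 63, 72, 103, 16⟩ ⟨7, 8, 8, 52, 82, 103, 7⟩
    14 0 6 10 (-3) (-9) 150599915241943859201 (by decide +kernel)) <|
  AllL.cons (i := 8) (j := 17) (k := 21) (OkB.mk ⟨13, 13, 15, 63, 72, 103, 16⟩ ⟨7, 8, 8, 52, 82, 103, 7⟩
    15 2 6 11 (-4) (-9) 195493074784718159873 (by decide +kernel)) <|
  AllL.cons (i := 8) (j := 17) (k := 22) (OkB.mk ⟨13, 13, 14, 63, 72, 103, 16⟩ ⟨7, 8, 8, 52, 82, 103, 7⟩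
    15 4 5 12 (-6) (-10) 144590989500709076993 (by decide +kernel)) <|
  AllL.cons (i := 8) (j := 18) (k := 18) (OkB.mk ⟨13, 14, 13, 63, 72, 103, 16⟩ ⟨7, 8, 8, 52, 82, 103, 7⟩
    14 (-3) 4 9 (-2) (-9) 201087747150682521601 (by decide +kernel)) <|
  AllL.cons (i := 8) (j := 18) (k := 19) (OkB.mk ⟨13, 14, 14, 63, 72, 103, 15⟩ ⟨7, 8, 8, 52, 82, 103, 7⟩
    14 (-2) 4 9 (-2) (-9) 172379402617061638145 (by decide +kernel)) <|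
  AllL.cons (i := 8) (j := 18) (k := 20) (OkB.mk ⟨13, 14, 14, 63, 72, 103, 15⟩ ⟨7, 8, 8, 52, 82, 103, 7⟩
    15 0 4 9 (-3) (-9) 210295619097242632193 (by decide +kernel)) <|
  AllL.cons (i := 8) (j := 18) (k := 21) (OkB.mk ⟨13, 14, 14, 63, 72, 103, 15⟩ ⟨7, 8, 8, 52, 82, 103, 7⟩
    15 2 4 10 (-4) (-9) 185885223322839416833 (by decide +kernel)) <|
  AllL.cons (i := 8) (j := 18) (k := 22) (OkB.mk ⟨13, 13, 14, 63, 72, 103, 15⟩ ⟨7, 8, 8, 52, 82, 103, 7⟩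
    15 4 4 12 (-5) (-10) 202252597944133877761 (by decide +kernel)) <|
  AllL.cons (i := 8) (j := 19) (k := 19) (OkB.mk ⟨13, 14, 15, 63, 72, 103, 15⟩ ⟨7, 8, 8, 52, 82, 103, 7⟩
    15 (-2) 3 9 (-3) (-9) 208983407769707085825 (by decide +kernel)) <|
  AllL.cons (i := 8) (j := 19) (k := 20) (OkB.mk ⟨13, 15, 14, 63, 72, 103, 15⟩ ⟨8, 8, 8, 52, 82, 103, 7⟩
    15 0 3 9 (-3) (-9) 261778786243487727617 (by decide +kernel)) <|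
  AllL.cons (i := 8) (j := 19) (k := 21) (OkB.mk ⟨12, 15, 15, 63, 72, 103, 15⟩ ⟨7, 9, 8, 52, 82, 103, 7⟩
    15 1 3 10 (-4) (-9) 255860626973832249345 (by decide +kernel)) <|
  AllL.cons (i := 8) (j := 19) (k := 22) (OkB.mk ⟨13, 14, 14, 63, 72, 103, 15⟩ ⟨7, 8, 8, 52, 82, 103, 7⟩
    16 3 3 11 (-5) (-9) 219504604574203772929 (by decide +kernel)) <|
  AllL.cons (i := 8) (j := 20) (k := 20) (OkB.mk ⟨13, 15, 15, 63, 72, 103, 15⟩ ⟨7, 9, 9, 52, 82, 103, 7⟩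
    16 (-1) 1 9 (-3) (-9) 258863800048590782465 (by decide +kernel)) <|
  AllL.cons (i := 8) (j := 20) (k := 21) (OkB.mk ⟨12, 15, 16, 63, 72, 103, 15⟩ ⟨7, 9, 9, 52, 82, 103, 7⟩
    16 1 1 9 (-4) (-9) 295329198016659718145 (by decide +kernel)) <|
  AllL.cons (i := 8) (j := 20) (k := 22) (OkB.mk ⟨12, 15, 15, 63, 72, 103, 15⟩ ⟨7, 8, 9, 52, 82, 103, 7⟩
    16 2 1 11 (-5) (-9) 287390433793047265281 (by decide +kernel)) <|
  AllL.cons (i := 8) (j := 21) (k := 21) (OkB.mk ⟨12, 15, 16, 63, 72, 103, 15⟩ ⟨7, 9, 9, 52, 82, 103, 7⟩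
    16 0 0 9 (-4) (-10) 318307255183195766785 (by decide +kernel)) <|
  AllL.cons (i := 8) (j := 21) (k := 22) (OkB.mk ⟨12, 15, 15, 63, 72, 103, 15⟩ ⟨8, 8, 9, 52, 82, 103, 7⟩
    17 1 0 10 (-5) (-10) 319239718146802712577 (by decide +kernel)) <|
  AllL.cons (i := 8) (j := 22) (k := 22) (OkB.mk ⟨12, 15, 15, 63, 72, 103, 15⟩ ⟨8, 8, 9, 52, 82, 103, 7⟩
    17 1 (-1) 10 (-6) (-12) 321744900689986846721 (by decide +kernel)) <|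
  AllL.cons (i := 9) (j := 9) (k := 9) (OkB.mk ⟨14, 15, 15, 63, 72, 103, 16⟩ ⟨7, 8, 8, 52, 82, 103, 7⟩
    13 (-10) 7 17 7 (-18) 75508712822766829569 (by decide +kernel)) <|
  AllL.cons (i := 9) (j := 9) (k := 10) (OkB.mk ⟨14, 15, 15, 63, 72, 103, 16⟩ ⟨7, 8, 8, 52, 82, 103, 7⟩
    13 (-10) 8 16 6 (-18) 74638300660434468865 (by decide +kernel)) <|
  AllL.cons (i := 9) (j := 9) (k := 11) (OkB.mk ⟨14, 15, 15, 63, 72, 103, 16⟩ ⟨7, 7, 9, 52, 82, 103, 7⟩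
    12 (-9) 10 15 5 (-18) 69637330763486593025 (by decide +kernel)) <|
  AllL.cons (i := 9) (j := 9) (k := 12) (OkB.mk ⟨14, 15, 15, 63, 72, 103, 16⟩ ⟨7, 8, 8, 52, 82, 103, 7⟩
    12 (-8) 10 14 4 (-17) 64470079524046897153 (by decide +kernel)) <|
  AllL.cons (i := 9) (j := 9) (k := 13) (OkB.mk ⟨14, 15, 14, 63, 72, 103, 16⟩ ⟨8, 8, 7, 52, 82, 103, 7⟩
    11 (-6) 11 13 3 (-17) 62543437596849078273 (by decide +kernel)) <|
  AllL.cons (i := 9) (j := 9) (k := 14) (OkB.mk ⟨14, 14, 14, 63, 72, 103, 16⟩ ⟨8, 7, 8, 52, 82, 103, 7⟩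
    10 (-5) 11 13 2 (-16) 63928144398928314369 (by decide +kernel)) <|
  AllL.cons (i := 9) (j := 9) (k := 15) (OkB.mk ⟨14, 14, 14, 63, 72, 103, 16⟩ ⟨8, 8, 8, 52, 82, 103, 7⟩
    10 (-4) 12 13 1 (-16) 60874077817138053121 (by decide +kernel)) <|
  AllL.cons (i := 9) (j := 9) (k := 16) (OkB.mk ⟨14, 14, 14, 63, 72, 103, 16⟩ ⟨8, 8, 8, 52, 82, 103, 7⟩
    9 (-2) 12 14 2 (-16) 64934358204479963137 (by decide +kernel)) <|
  AllL.cons (i := 9) (j := 9) (k := 17) (OkB.mk ⟨14, 13, 15, 63, 72, 103, 16⟩ ⟨8, 7, 9, 52, 82, 103, 7⟩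
    9 (-1) 13 15 0 (-16) 81275872724605992961 (by decide +kernel)) <|
  AllL.cons (i := 9) (j := 9) (k := 18) (OkB.mk ⟨14, 13, 15, 63, 72, 103, 16⟩ ⟨8, 8, 10, 52, 82, 103, 7⟩
    9 1 14 16 0 (-17) 79904012891263598593 (by decide +kernel)) <|
  AllL.nil

end Pool.Agent.MP_48470b_gt.Run
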