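import Pool.Agent.MP_48470b_gt.Run.OkB
import Pool.Agent.MP_48470b_gt.Run.B78

/-! Runs of the tests. -/

namespace Pool.Agent.MP_48470b_gt.Run

/-- the boxes of this part -/
def b79l : List (Nat × Nat × Nat) :=
  [(9, 9, 19), (9, 9, 20), (9, 9, 21), (9, 9, 22), (9, 10, 10), (9, 10, 11), (9, 10, 12), (9, 10, 13), (9, 10, 14), (9, 10, 15), (9, 10, 16), (9, 10, 17), (9, 10, 18), (9, 10, 19), (9, 10, 20), (9, 10, 21), (9, 10, 22), (9, 11, 11), (9, 11, 12), (9, 11, 13), (9, 11, 14), (9, 11, 15), (9, 11, 16), (9, 11, 17), (9, 11, 18), (9, 11, 19), (9, 11, 20), (9, 11, 21), (9, 11, 22), (9, 12, 12), (9, 12, 13), (9, 12, 14), (9, 12, 15)]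

theorem b79 : AllL OkB b79l :=
  AllL.cons (i := 9) (j := 9) (k := 19) (OkB.mk ⟨15, 13, 15, 63, 72, 103, 16⟩ ⟨9, 7, 9, 52, 82, 103, 7⟩
    8 2 15 17 (-3) (-17) 67767229572479713281 (by decide +kernel)) <|
  AllL.cons (i := 9) (j := 9) (k := 20) (OkB.mk ⟨15, 13, 15, 63, 72, 103, 16⟩ ⟨9, 7, 9, 52, 82, 103, 7⟩
    8 4 16 19 (-4) (-18) 65821481294287077377 (by decide +kernel)) <|
  AllL.cons (i := 9) (j := 9) (k := 21) (OkB.mk ⟨15, 13, 15, 63, 72, 103, 16⟩ ⟨8, 8, 9, 52, 82, 103, 7⟩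
    8 6 16 22 (-6) (-20) 65054774106613874689 (by decide +kernel)) <|
  AllL.cons (i := 9) (j := 9) (k := 22) (OkB.mk ⟨15, 12, 16, 63, 72, 103, 15⟩ ⟨9, 8, 9, 52, 82, 103, 7⟩
    8 8 18 25 (-5) (-21) 71959835359590744065 (by decide +kernel)) <|
  AllL.cons (i := 9) (j := 10) (k := 10) (OkB.mk ⟨15, 15, 15, 63, 72, 103, 16⟩ ⟨7, 8, 8, 52, 82, 103, 7⟩
    13 (-11) 8 16 5 (-17) 59881874813381246977 (by decide +kernel)) <|
  AllL.cons (i := 9) (j := 10) (k := 11) (OkB.mk ⟨15, 15, 15, 63, 72, 103, 16⟩ ⟨7, 7, 8, 52, 82, 103, 7⟩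
    12 (-10) 9 15 5 (-17) 57811378282363355137 (by decide +kernel)) <|
  AllL.cons (i := 9) (j := 10) (k := 12) (OkB.mk ⟨15, 15, 14, 63, 72, 103, 16⟩ ⟨8, 7, 8, 52, 82, 103, 7⟩
    12 (-8) 9 13 5 (-16) 74414290834315804673 (by decide +kernel)) <|
  AllL.cons (i := 9) (j := 10) (k := 13) (OkB.mk ⟨14, 15, 14, 63, 72, 103, 16⟩ ⟨7, 7, 8, 52, 82, 103, 7⟩
    11 (-7) 10 13 4 (-16) 66564414704105553921 (by decide +kernel)) <|
  AllL.cons (i := 9) (j := 10) (k := 14) (OkB.mk ⟨14, 14, 14, 63, 72, 103, 16⟩ ⟨7, 7, 8, 52, 82, 103, 7⟩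
    11 (-6) 10 12 2 (-15) 62284204228539842561 (by decide +kernel)) <|
  AllL.cons (i := 9) (j := 10) (k := 15) (OkB.mk ⟨14, 13, 15, 63, 72, 103, 16⟩ ⟨7, 7, 8, 52, 82, 103, 7⟩
    10 (-4) 11 13 2 (-14) 80887330878995300353 (by decide +kernel)) <|
  AllL.cons (i := 9) (j := 10) (k := 16) (OkB.mk ⟨13, 14, 14, 63, 72, 103, 16⟩ ⟨8, 7, 8, 52, 82, 103, 7⟩
    10 (-3) 11 13 1 (-14) 81218224917644836865 (by decide +kernel)) <|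
  AllL.cons (i := 9) (j := 10) (k := 17) (OkB.mk ⟨13, 14, 14, 63, 72, 103, 16⟩ ⟨8, 7, 8, 52, 82, 103, 7⟩
    9 (-1) 12 14 1 (-14) 80891955287462772737 (by decide +kernel)) <|
  AllL.cons (i := 9) (j := 10) (k := 18) (OkB.mk ⟨14, 13, 14, 63, 72, 103, 16⟩ ⟨8, 7, 8, 52, 82, 103, 7⟩
    9 0 13 15 (-2) (-15) 77579202206959140865 (by decide +kernel)) <|
  AllL.cons (i := 9) (j := 10) (k := 19) (OkB.mk ⟨14, 13, 14, 63, 72, 103, 16⟩ ⟨8, 7, 8, 52, 82, 103, 7⟩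
    9 2 14 16 (-2) (-15) 80407353508979802113 (by decide +kernel)) <|
  AllL.cons (i := 9) (j := 10) (k := 20) (OkB.mk ⟨14, 13, 14, 63, 72, 103, 16⟩ ⟨8, 7, 8, 52, 82, 103, 7⟩
    9 4 15 17 (-3) (-16) 76505103453996974081 (by decide +kernel)) <|
  AllL.cons (i := 9) (j := 10) (k := 21) (OkB.mk ⟨14, 13, 14, 63, 72, 103, 16⟩ ⟨8, 7, 8, 52, 82, 103, 7⟩
    9 6 15 19 (-4) (-17) 76904226862074429441 (by decide +kernel)) <|
  AllL.cons (i := 9) (j := 10) (k := 22) (OkB.mk ⟨14, 12, 15, 63, 72, 103, 15⟩ ⟨8, 7, 8, 52, 82, 103, 7⟩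
    9 8 16 23 (-5) (-18) 72270066276219486209 (by decide +kernel)) <|
  AllL.cons (i := 9) (j := 11) (k := 11) (OkB.mk ⟨15, 15, 15, 63, 72, 103, 16⟩ ⟨7, 7, 8, 52, 82, 103, 7⟩
    12 (-10) 7 15 6 (-16) 57376636195104096257 (by decide +kernel)) <|
  AllL.cons (i := 9) (j := 11) (k := 12) (OkB.mk ⟨15, 16, 14, 63, 72, 103, 16⟩ ⟨7, 7, 8, 52, 82, 103, 7⟩
    12 (-9) 8 13 5 (-16) 71734360159350161409 (by decide +kernel)) <|
  AllL.cons (i := 9) (j := 11) (k := 13) (OkB.mk ⟨14, 15, 14, 63, 72, 103, 16⟩ ⟨7, 7, 7, 52, 82, 103, 7⟩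
    11 (-7) 8 12 4 (-15) 74674706864819666945 (by decide +kernel)) <|
  AllL.cons (i := 9) (j := 11) (k := 14) (OkB.mk ⟨14, 14, 14, 63, 72, 103, 16⟩ ⟨7, 7, 7, 52, 82, 103, 7⟩
    11 (-6) 9 12 3 (-14) 68065126030229110785 (by decide +kernel)) <|
  AllL.cons (i := 9) (j := 11) (k := 15) (OkB.mk ⟨13, 14, 15, 63, 72, 103, 16⟩ ⟨7, 7, 7, 52, 82, 103, 7⟩
    11 (-5) 9 12 2 (-14) 81200997082266075137 (by decide +kernel)) <|
  AllL.cons (i := 9) (j := 11) (k := 16) (OkB.mk ⟨13, 13, 15, 63, 72, 103, 16⟩ ⟨8, 7, 7, 52, 82, 103, 7⟩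
    10 (-3) 10 12 1 (-13) 91538911758043316225 (by decide +kernel)) <|
  AllL.cons (i := 9) (j := 11) (k := 17) (OkB.mk ⟨13, 13, 15, 63, 72, 103, 16⟩ ⟨8, 7, 7, 52, 82, 103, 7⟩
    10 (-2) 11 13 0 (-13) 86779958664020099073 (by decide +kernel)) <|
  AllL.cons (i := 9) (j := 11) (k := 18) (OkB.mk ⟨13, 13, 15, 63, 72, 103, 16⟩ ⟨7, 7, 8, 52, 82, 103, 7⟩
    10 0 12 13 (-1) (-14) 92307956095120310273 (by decide +kernel)) <|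
  AllL.cons (i := 9) (j := 11) (k := 19) (OkB.mk ⟨13, 13, 15, 63, 72, 103, 16⟩ ⟨8, 7, 8, 52, 82, 103, 7⟩
    10 2 13 14 (-1) (-14) 90304390960053747713 (by decide +kernel)) <|
  AllL.cons (i := 9) (j := 11) (k := 20) (OkB.mk ⟨13, 13, 15, 63, 72, 103, 16⟩ ⟨8, 7, 8, 52, 82, 103, 7⟩
    10 4 13 15 (-2) (-15) 87499772917719236609 (by decide +kernel)) <|
  AllL.cons (i := 9) (j := 11) (k := 21) (OkB.mk ⟨13, 13, 14, 63, 72, 103, 16⟩ ⟨8, 7, 8, 52, 82, 103, 7⟩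
    10 6 14 18 (-4) (-16) 83784926923109433345 (by decide +kernel)) <|
  AllL.cons (i := 9) (j := 11) (k := 22) (OkB.mk ⟨13, 12, 15, 63, 72, 103, 16⟩ ⟨8, 7, 8, 52, 82, 103, 7⟩
    10 8 15 20 (-3) (-16) 89158977333158215681 (by decide +kernel)) <|
  AllL.cons (i := 9) (j := 12) (k := 12) (OkB.mk ⟨15, 15, 15, 63, 72, 103, 16⟩ ⟨7, 7, 8, 52, 82, 103, 7⟩
    12 (-9) 6 13 5 (-14) 60683266095352643585 (by decide +kernel)) <|
  AllL.cons (i := 9) (j := 12) (k := 13) (OkB.mk ⟨14, 15, 15, 63, 72, 103, 16⟩ ⟨7, 7, 8, 52, 82, 103, 7⟩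
    12 (-8) 7 12 4 (-13) 69626366983290224641 (by decide +kernel)) <|
  AllL.cons (i := 9) (j := 12) (k := 14) (OkB.mk ⟨14, 14, 15, 63, 72, 103, 16⟩ ⟨7, 7, 7, 52, 82, 103, 7⟩
    11 (-7) 8 12 3 (-13) 67981359049672228865 (by decide +kernel)) <|
  AllL.cons (i := 9) (j := 12) (k := 15) (OkB.mk ⟨14, 13, 15, 63, 72, 103, 16⟩ ⟨7, 7, 7, 52, 82, 103, 7⟩
    11 (-5) 8 12 2 (-12) 81288222301770219521 (by decide +kernel)) <|
  AllL.nil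

end Pool.Agent.MP_48470b_gt.Run
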