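import Pool.Agent.MP_48470b_gt.Run.OkF

/-! Runs of the tests. -/

namespace Pool.Agent.MP_48470b_gt.Run

/-- the boxes of this part -/
def f40l : List (Nat × Nat × Nat) :=
  [(9, 17, 20), (9, 17, 21), (9, 17, 22), (9, 18, 18), (9, 18, 19), (9, 18, 20), (9, 18, 21), (9, 18, 22), (9, 19, 19), (9, 19, 20), (9, 19, 21), (9, 19, 22), (9, 20, 20), (9, 20, 21), (9, 20, 22), (9, 21, 21), (9, 21, 22), (9, 22, 22), (10, 10, 10), (10, 10, 11), (10, 10, 12), (10, 10, 13), (10, 10, 14), (10, 10, 15), (10, 10, 16), (10, 10, 17), (10, 10, 18), (10, 10, 19), (10, 10, 20), (10, 10, 21), (10, 10, 22), (10, 11, 11), (10, 11, 12), (10, 11, 13), (10, 11, 14), (10, 11, 15), (10, 11, 16), (10, 11, 17), (10, 11, 18), (10, 11, 19), (10, 11, 20), (10, 11, 21), (10, 11, 22), (10, 12, 12), (10, 12, 13), (10, 12, 14), (10, 12, 15), (10, 12, 16), (10, 12, 17), (10, 12, 18), (10, 12, 19), (10, 12, 20), (10, 12, 21), (10, 12, 22), (10, 13, 13), (10, 13, 14), (10, 13, 15), (10, 13, 16), (10,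 13, 17), (10, 13, 18), (10, 13, 19), (10, 13, 20), (10, 13, 21)]

theorem f40 : AllL OkF f40l :=
  AllL.cons (i := 9) (j := 17) (k := 20) (OkF.mk (by decide +kernel)) <|
  AllL.cons (i := 9) (j := 17) (k := 21) (OkF.mk (by decide +kernel)) <|
  AllL.cons (i := 9) (j := 17) (k := 22) (OkF.mk (by decide +kernel)) <|
  AllL.cons (i := 9) (j := 18) (k := 18) (OkF.mk (by decide +kernel)) <|
  AllL.cons (i := 9) (j := 18) (k := 19) (OkF.mk (by decide +kernel)) <|
  AllL.cons (i := 9) (j := 18) (k := 20) (OkF.mk (by decide +kernel)) <|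
  AllL.cons (i := 9) (j := 18) (k := 21) (OkF.mk (by decide +kernel)) <|
  AllL.cons (i := 9) (j := 18) (k := 22) (OkF.mk (by decide +kernel)) <|
  AllL.cons (i := 9) (j := 19) (k := 19) (OkF.mk (by decide +kernel)) <|
  AllL.cons (i := 9) (j := 19) (k := 20) (OkF.mk (by decide +kernel)) <|
  AllL.cons (i := 9) (j := 19) (k := 21) (OkF.mk (by decide +kernel)) <|
  AllL.cons (i := 9) (j := 19) (k := 22) (OkF.mk (by decide +kernel)) <|
  AllL.cons (i := 9) (j := 20) (k := 20) (OkF.mk (by decide +kernel)) <|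
  AllL.cons (i := 9) (j := 20) (k := 21) (OkF.mk (by decide +kernel)) <|
  AllL.cons (i := 9) (j := 20) (k := 22) (OkF.mk (by decide +kernel)) <|
  AllL.cons (i := 9) (j := 21) (k := 21) (OkF.mk (by decide +kernel)) <|
  AllL.cons (i := 9) (j := 21) (k := 22) (OkF.mk (by decide +kernel)) <|
  AllL.cons (i := 9) (j := 22) (k := 22) (OkF.mk (by decide +kernel)) <|
  AllL.cons (i := 10) (j := 10) (k := 10) (OkF.mk (by decide +kernel)) <|
  AllL.cons (i := 10) (j := 10) (k := 11) (OkF.mk (by decide +kernel)) <|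
  AllL.cons (i := 10) (j := 10) (k := 12) (OkF.mk (by decide +kernel)) <|
  AllL.cons (i := 10) (j := 10) (k := 13) (OkF.mk (by decide +kernel)) <|
  AllL.cons (i := 10) (j := 10) (k := 14) (OkF.mk (by decide +kernel)) <|
  AllL.cons (i := 10) (j := 10) (k := 15) (OkF.mk (by decide +kernel)) <|
  AllL.cons (i := 10) (j := 10) (k := 16) (OkF.mk (by decide +kernel)) <|
  AllL.cons (i := 10) (j := 10) (k := 17) (OkF.mk (by decide +kernel)) <|
  AllL.cons (i := 10) (j := 10) (k := 18) (OkF.mk (by decide +kernel)) <|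
  AllL.cons (i := 10) (j := 10) (k := 19) (OkF.mk (by decide +kernel)) <|
  AllL.cons (i := 10) (j := 10) (k := 20) (OkF.mk (by decide +kernel)) <|
  AllL.cons (i := 10) (j := 10) (k := 21) (OkF.mk (by decide +kernel)) <|
  AllL.cons (i := 10) (j := 10) (k := 22) (OkF.mk (by decide +kernel)) <|
  AllL.cons (i := 10) (j := 11) (k := 11) (OkF.mk (by decide +kernel)) <|
  AllL.cons (i := 10) (j := 11) (k := 12) (OkF.mk (by decide +kernel)) <|
  AllL.cons (i := 10) (j := 11) (k := 13) (OkF.mk (by decide +kernel)) <|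
  AllL.cons (i := 10) (j := 11) (k := 14) (OkF.mk (by decide +kernel)) <|
  AllL.cons (i := 10) (j := 11) (k := 15) (OkF.mk (by decide +kernel)) <|
  AllL.cons (i := 10) (j := 11) (k := 16) (OkF.mk (by decide +kernel)) <|
  AllL.cons (i := 10) (j := 11) (k := 17) (OkF.mk (by decide +kernel)) <|
  AllL.cons (i := 10) (j := 11) (k := 18) (OkF.mk (by decide +kernel)) <|
  AllL.cons (i := 10) (j := 11) (k := 19) (OkF.mk (by decide +kernel)) <|
  AllL.cons (i := 10) (j := 11) (k := 20) (OkF.mk (by decide +kernel)) <|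
  AllL.cons (i := 10) (j := 11) (k := 21) (OkF.mk (by decide +kernel)) <|
  AllL.cons (i := 10) (j := 11) (k := 22) (OkF.mk (by decide +kernel)) <|
  AllL.cons (i := 10) (j := 12) (k := 12) (OkF.mk (by decide +kernel)) <|
  AllL.cons (i := 10) (j := 12) (k := 13) (OkF.mk (by decide +kernel)) <|
  AllL.cons (i := 10) (j := 12) (k := 14) (OkF.mk (by decide +kernel)) <|
  AllL.cons (i := 10) (j := 12) (k := 15) (OkF.mk (by decide +kernel)) <|
  AllL.cons (i := 10) (j := 12) (k := 16) (OkF.mk (by decide +kernel)) <|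
  AllL.cons (i := 10) (j := 12) (k := 17) (OkF.mk (by decide +kernel)) <|
  AllL.cons (i := 10) (j := 12) (k := 18) (OkF.mk (by decide +kernel)) <|
  AllL.cons (i := 10) (j := 12) (k := 19) (OkF.mk (by decide +kernel)) <|
  AllL.cons (i := 10) (j := 12) (k := 20) (OkF.mk (by decide +kernel)) <|
  AllL.cons (i := 10) (j := 12) (k := 21) (OkF.mk (by decide +kernel)) <|
  AllL.cons (i := 10) (j := 12) (k := 22) (OkF.mk (by decide +kernel)) <|
  AllL.cons (i := 10) (j := 13) (k := 13) (OkF.mk (by decide +kernel)) <|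
  AllL.cons (i := 10) (j := 13) (k := 14) (OkF.mk (by decide +kernel)) <|
  AllL.cons (i := 10) (j := 13) (k := 15) (OkF.mk (by decide +kernel)) <|
  AllL.cons (i := 10) (j := 13) (k := 16) (OkF.mk (by decide +kernel)) <|
  AllL.cons (i := 10) (j := 13) (k := 17) (OkF.mk (by decide +kernel)) <|
  AllL.cons (i := 10) (j := 13) (k := 18) (OkF.mk (by decide +kernel)) <|
  AllL.cons (i := 10) (j := 13) (k := 19) (OkF.mk (by decide +kernel)) <|
  AllL.cons (i := 10) (j := 13) (k := 20) (OkF.mk (by decide +kernel)) <|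
  AllL.cons (i := 10) (j := 13) (k := 21) (OkF.mk (by decide +kernel)) <|
  AllL.nil

end Pool.Agent.MP_48470b_gt.Run
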