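import Pool.Agent.MP_48470b_gt.Run.OkB
import Pool.Agent.MP_48470b_gt.Run.F40

/-! Runs of the tests. -/

namespace Pool.Agent.MP_48470b_gt.Run

/-- the boxes of this part -/
def b80l : List (Nat × Nat × Nat) :=
  [(9, 12, 16), (9, 12, 17), (9, 12, 18), (9, 12, 19), (9, 12, 20), (9, 12, 21), (9, 12, 22), (9, 13, 13), (9, 13, 14), (9, 13, 15), (9, 13, 16), (9, 13, 17), (9, 13, 18), (9, 13, 19), (9, 13, 20), (9, 13, 21), (9, 13, 22), (9, 14, 14), (9, 14, 15), (9, 14, 16), (9, 14, 17), (9, 14, 18), (9, 14, 19), (9, 14, 20), (9, 14, 21), (9, 14, 22), (9, 15, 15), (9, 15, 16), (9, 15, 17), (9, 15, 18), (9, 15, 19), (9, 15, 20), (9, 15, 21), (9, 15, 22), (9, 16, 16), (9, 16, 17)]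

theorem b80 : AllL OkB b80l :=
  AllL.cons (i := 9) (j := 12) (k := 16) (OkB.mk ⟨13, 13, 15, 63, 72, 103, 16⟩ ⟨7, 7, 7, 52, 82, 103, 7⟩
    11 (-4) 9 12 1 (-12) 95512312859726970881 (by decide +kernel)) <|
  AllL.cons (i := 9) (j := 12) (k := 17) (OkB.mk ⟨13, 13, 15, 63, 72, 103, 16⟩ ⟨7, 7, 8, 52, 82, 103, 7⟩
    11 (-2) 10 12 0 (-12) 88691065591429070849 (by decide +kernel)) <|
  AllL.cons (i := 9) (j := 12) (k := 18) (OkB.mk ⟨13, 13, 15, 63, 72, 103, 16⟩ ⟨7, 7, 8, 52, 82, 103, 7⟩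
    11 (-1) 10 13 (-1) (-12) 101710911778456600577 (by decide +kernel)) <|
  AllL.cons (i := 9) (j := 12) (k := 19) (OkB.mk ⟨13, 13, 15, 63, 72, 103, 16⟩ ⟨7, 7, 8, 52, 82, 103, 7⟩
    11 1 11 13 (-2) (-12) 94885274160228990977 (by decide +kernel)) <|
  AllL.cons (i := 9) (j := 12) (k := 20) (OkB.mk ⟨13, 13, 15, 63, 72, 103, 16⟩ ⟨7, 7, 8, 52, 82, 103, 7⟩
    11 3 12 14 (-3) (-13) 95319830979778969601 (by decide +kernel)) <|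
  AllL.cons (i := 9) (j := 12) (k := 21) (OkB.mk ⟨13, 13, 15, 63, 72, 103, 16⟩ ⟨8, 7, 8, 52, 82, 103, 7⟩
    11 5 12 16 (-5) (-13) 81024565598182440961 (by decide +kernel)) <|
  AllL.cons (i := 9) (j := 12) (k := 22) (OkB.mk ⟨13, 12, 15, 63, 72, 103, 16⟩ ⟨8, 7, 8, 52, 82, 103, 7⟩
    11 7 13 18 (-5) (-14) 90935217751987322881 (by decide +kernel)) <|
  AllL.cons (i := 9) (j := 13) (k := 13) (OkB.mk ⟨14, 14, 15, 63, 72, 103, 16⟩ ⟨7, 7, 8, 52, 82, 103, 7⟩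
    11 (-8) 6 12 4 (-13) 79866848573611048961 (by decide +kernel)) <|
  AllL.cons (i := 9) (j := 13) (k := 14) (OkB.mk ⟨14, 14, 14, 63, 72, 103, 16⟩ ⟨7, 7, 7, 52, 82, 103, 7⟩
    11 (-7) 6 12 3 (-12) 80393861401795362817 (by decide +kernel)) <|
  AllL.cons (i := 9) (j := 13) (k := 15) (OkB.mk ⟨13, 14, 15, 63, 72, 103, 16⟩ ⟨7, 7, 7, 52, 82, 103, 7⟩
    11 (-6) 7 11 1 (-12) 90019411702346416129 (by decide +kernel)) <|
  AllL.cons (i := 9) (j := 13) (k := 16) (OkB.mk ⟨13, 13, 15, 63, 72, 103, 16⟩ ⟨7, 7, 7, 52, 82, 103, 7⟩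
    11 (-4) 8 11 1 (-11) 95286578312181186561 (by decide +kernel)) <|
  AllL.cons (i := 9) (j := 13) (k := 17) (OkB.mk ⟨13, 13, 15, 63, 72, 103, 16⟩ ⟨7, 7, 7, 52, 82, 103, 7⟩
    11 (-3) 9 12 0 (-11) 96341882288256057345 (by decide +kernel)) <|
  AllL.cons (i := 9) (j := 13) (k := 18) (OkB.mk ⟨13, 13, 15, 63, 72, 103, 16⟩ ⟨7, 7, 8, 52, 82, 103, 7⟩
    11 (-1) 9 12 (-1) (-11) 107535257692373254145 (by decide +kernel)) <|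
  AllL.cons (i := 9) (j := 13) (k := 19) (OkB.mk ⟨13, 13, 15, 63, 72, 103, 16⟩ ⟨7, 7, 8, 52, 82, 103, 7⟩
    11 1 10 12 (-2) (-11) 106167939529248342017 (by decide +kernel)) <|
  AllL.cons (i := 9) (j := 13) (k := 20) (OkB.mk ⟨13, 13, 15, 63, 72, 103, 16⟩ ⟨7, 7, 8, 52, 82, 103, 7⟩
    12 3 10 13 (-3) (-12) 106831533142079176705 (by decide +kernel)) <|
  AllL.cons (i := 9) (j := 13) (k := 21) (OkB.mk ⟨13, 13, 15, 63, 72, 103, 16⟩ ⟨7, 7, 8, 52, 82, 103, 7⟩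
    12 5 11 15 (-4) (-12) 92570771259995979777 (by decide +kernel)) <|
  AllL.cons (i := 9) (j := 13) (k := 22) (OkB.mk ⟨13, 12, 15, 63, 72, 103, 16⟩ ⟨7, 7, 8, 52, 82, 103, 7⟩
    12 6 11 17 (-6) (-13) 107623386985313337345 (by decide +kernel)) <|
  AllL.cons (i := 9) (j := 14) (k := 14) (OkB.mk ⟨14, 14, 14, 63, 72, 103, 16⟩ ⟨7, 7, 7, 52, 82, 103, 7⟩
    11 (-7) 6 11 2 (-12) 76007981948925378561 (by decide +kernel)) <|
  AllL.cons (i := 9) (j := 14) (k := 15) (OkB.mk ⟨13, 14, 14, 63, 72, 103, 16⟩ ⟨7, 7, 7, 52, 82, 103, 7⟩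
    11 (-6) 6 11 1 (-11) 94300858166420701185 (by decide +kernel)) <|
  AllL.cons (i := 9) (j := 14) (k := 16) (OkB.mk ⟨13, 13, 15, 63, 72, 103, 16⟩ ⟨7, 7, 7, 52, 82, 103, 7⟩
    11 (-5) 7 11 0 (-11) 96250620211810533377 (by decide +kernel)) <|
  AllL.cons (i := 9) (j := 14) (k := 17) (OkB.mk ⟨13, 13, 15, 63, 72, 103, 16⟩ ⟨7, 7, 7, 52, 82, 103, 7⟩
    11 (-3) 7 11 0 (-11) 102506269078053715969 (by decide +kernel)) <|
  AllL.cons (i := 9) (j := 14) (k := 18) (OkB.mk ⟨13, 13, 15, 63, 72, 103, 16⟩ ⟨7, 7, 8, 52, 82, 103, 7⟩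
    12 (-2) 8 11 (-1) (-11) 110952747776637665281 (by decide +kernel)) <|
  AllL.cons (i := 9) (j := 14) (k := 19) (OkB.mk ⟨13, 13, 15, 63, 72, 103, 16⟩ ⟨7, 7, 8, 52, 82, 103, 7⟩
    12 0 9 12 (-2) (-11) 120013264411793817601 (by decide +kernel)) <|
  AllL.cons (i := 9) (j := 14) (k := 20) (OkB.mk ⟨13, 13, 15, 63, 72, 103, 16⟩ ⟨7, 7, 8, 52, 82, 103, 7⟩
    12 2 9 12 (-3) (-11) 116847813316380196865 (by decide +kernel)) <|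
  AllL.cons (i := 9) (j := 14) (k := 21) (OkB.mk ⟨13, 13, 15, 63, 72, 103, 16⟩ ⟨7, 7, 8, 52, 82, 103, 7⟩
    12 4 9 13 (-4) (-12) 103226310380903989249 (by decide +kernel)) <|
  AllL.cons (i := 9) (j := 14) (k := 22) (OkB.mk ⟨13, 12, 15, 63, 72, 103, 16⟩ ⟨7, 7, 8, 52, 82, 103, 7⟩
    13 6 9 15 (-5) (-12) 125390278830313177089 (by decide +kernel)) <|
  AllL.cons (i := 9) (j := 15) (k := 15) (OkB.mk ⟨13, 14, 14, 63, 72, 103, 16⟩ ⟨7, 7, 7, 52, 82, 103, 7⟩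
    11 (-6) 6 11 1 (-11) 90331310578114494465 (by decide +kernel)) <|
  AllL.cons (i := 9) (j := 15) (k := 16) (OkB.mk ⟨13, 13, 14, 63, 72, 103, 16⟩ ⟨7, 7, 7, 52, 82, 103, 7⟩
    11 (-5) 6 11 0 (-11) 111188529386560159745 (by decide +kernel)) <|
  AllL.cons (i := 9) (j := 15) (k := 17) (OkB.mk ⟨13, 13, 14, 63, 72, 103, 16⟩ ⟨7, 7, 7, 52, 82, 103, 7⟩
    12 (-4) 7 11 (-1) (-10) 120758624993530609665 (by decide +kernel)) <|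
  AllL.cons (i := 9) (j := 15) (k := 18) (OkB.mk ⟨13, 13, 14, 63, 72, 103, 16⟩ ⟨7, 8, 7, 52, 82, 103, 7⟩
    12 (-2) 7 11 (-1) (-10) 129042861680465281025 (by decide +kernel)) <|
  AllL.cons (i := 9) (j := 15) (k := 19) (OkB.mk ⟨13, 13, 15, 63, 72, 103, 16⟩ ⟨7, 8, 7, 52, 82, 103, 7⟩
    12 0 7 11 (-2) (-10) 134173235574787276801 (by decide +kernel)) <|
  AllL.cons (i := 9) (j := 15) (k := 20) (OkB.mk ⟨13, 13, 15, 63, 72, 103, 16⟩ ⟨7, 7, 8, 52, 82, 103, 7⟩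
    13 2 8 11 (-3) (-10) 129554133487869493249 (by decide +kernel)) <|
  AllL.cons (i := 9) (j := 15) (k := 21) (OkB.mk ⟨13, 13, 15, 63, 72, 103, 16⟩ ⟨7, 7, 8, 52, 82, 103, 7⟩
    13 3 8 13 (-5) (-11) 113956911511372824577 (by decide +kernel)) <|
  AllL.cons (i := 9) (j := 15) (k := 22) (OkB.mk ⟨13, 12, 15, 63, 72, 103, 16⟩ ⟨7, 7, 8, 52, 82, 103, 7⟩
    13 5 8 14 (-6) (-11) 140581731950454112257 (by decide +kernel)) <|
  AllL.cons (i := 9) (j := 16) (k := 16) (OkB.mk ⟨13, 13, 14, 63, 72, 103, 16⟩ ⟨7, 7, 7, 52, 82, 103, 7⟩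
    12 (-5) 5 10 0 (-10) 120857230708138049537 (by decide +kernel)) <|
  AllL.cons (i := 9) (j := 16) (k := 17) (OkB.mk ⟨13, 13, 14, 63, 72, 103, 16⟩ ⟨7, 8, 7, 52, 82, 103, 7⟩
    12 (-4) 6 10 (-1) (-10) 121329307949669023745 (by decide +kernel)) <|
  AllL.nil

end Pool.Agent.MP_48470b_gt.Run
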