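import Pool.Agent.MP_48470b_gt.Run.OkB
import Pool.Agent.MP_48470b_gt.Run.B80

/-! Runs of the tests. -/

namespace Pool.Agent.MP_48470b_gt.Run

/-- the boxes of this part -/
def b81l : List (Nat × Nat × Nat) :=
  [(9, 16, 18), (9, 16, 19), (9, 16, 20), (9, 16, 21), (9, 16, 22), (9, 17, 17), (9, 17, 18), (9, 17, 19), (9, 17, 20), (9, 17, 21), (9, 17, 22), (9, 18, 18), (9, 18, 19), (9, 18, 20), (9, 18, 21), (9, 18, 22), (9, 19, 19), (9, 19, 20), (9, 19, 21), (9, 19, 22), (9, 20, 20), (9, 20, 21), (9, 20, 22), (9, 21, 21), (9, 21, 22), (9, 22, 22), (10, 10, 10), (10, 10, 11), (10, 10, 12), (10, 10, 13), (10, 10, 14), (10, 10, 15), (10, 10, 16), (10, 10, 17), (10, 10, 18), (10, 10, 19)]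

theorem b81 : AllL OkB b81l :=
  AllL.cons (i := 9) (j := 16) (k := 18) (OkB.mk ⟨13, 13, 14, 63, 72, 103, 16⟩ ⟨7, 8, 7, 52, 82, 103, 7⟩
    12 (-3) 6 10 (-2) (-10) 141107502467937992705 (by decide +kernel)) <|
  AllL.cons (i := 9) (j := 16) (k := 19) (OkB.mk ⟨13, 13, 14, 63, 72, 103, 16⟩ ⟨7, 8, 7, 52, 82, 103, 7⟩
    13 (-1) 6 10 (-2) (-10) 166214682950118670337 (by decide +kernel)) <|
  AllL.cons (i := 9) (j := 16) (k := 20) (OkB.mk ⟨13, 13, 14, 63, 72, 103, 16⟩ ⟨7, 8, 7, 52, 82, 103, 7⟩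
    13 1 6 10 (-3) (-10) 183579667148721618945 (by decide +kernel)) <|
  AllL.cons (i := 9) (j := 16) (k := 21) (OkB.mk ⟨13, 13, 14, 63, 72, 103, 16⟩ ⟨7, 8, 7, 52, 82, 103, 7⟩
    13 3 6 12 (-4) (-10) 146495527670775808001 (by decide +kernel)) <|
  AllL.cons (i := 9) (j := 16) (k := 22) (OkB.mk ⟨13, 12, 15, 63, 72, 103, 16⟩ ⟨8, 8, 7, 52, 82, 103, 7⟩
    14 5 6 13 (-5) (-11) 169761021228629360641 (by decide +kernel)) <|
  AllL.cons (i := 9) (j := 17) (k := 17) (OkB.mk ⟨13, 13, 13, 63, 72, 103, 16⟩ ⟨7, 7, 8, 52, 82, 103, 7⟩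
    12 (-4) 5 10 (-1) (-10) 149614887925947826177 (by decide +kernel)) <|
  AllL.cons (i := 9) (j := 17) (k := 18) (OkB.mk ⟨13, 13, 14, 63, 72, 103, 16⟩ ⟨7, 8, 8, 52, 82, 103, 7⟩
    13 (-3) 5 10 (-2) (-9) 161423866971195179009 (by decide +kernel)) <|
  AllL.cons (i := 9) (j := 17) (k := 19) (OkB.mk ⟨13, 14, 13, 63, 72, 103, 16⟩ ⟨7, 8, 8, 52, 82, 103, 7⟩
    13 (-1) 5 10 (-2) (-9) 180706202636058099713 (by decide +kernel)) <|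
  AllL.cons (i := 9) (j := 17) (k := 20) (OkB.mk ⟨13, 14, 13, 63, 72, 103, 16⟩ ⟨7, 8, 8, 52, 82, 103, 7⟩
    13 1 5 10 (-3) (-9) 194079960450467889153 (by decide +kernel)) <|
  AllL.cons (i := 9) (j := 17) (k := 21) (OkB.mk ⟨13, 13, 14, 63, 72, 103, 15⟩ ⟨7, 8, 8, 52, 82, 103, 7⟩
    14 2 5 11 (-4) (-10) 188152456843804803073 (by decide +kernel)) <|
  AllL.cons (i := 9) (j := 17) (k := 22) (OkB.mk ⟨13, 13, 14, 63, 72, 103, 15⟩ ⟨7, 8, 7, 52, 82, 103, 7⟩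
    14 4 5 12 (-6) (-10) 140766575935440814081 (by decide +kernel)) <|
  AllL.cons (i := 9) (j := 18) (k := 18) (OkB.mk ⟨13, 13, 15, 63, 72, 103, 16⟩ ⟨7, 8, 8, 52, 82, 103, 7⟩
    13 (-3) 4 9 (-2) (-9) 208953424087617634305 (by decide +kernel)) <|
  AllL.cons (i := 9) (j := 18) (k := 19) (OkB.mk ⟨13, 14, 14, 63, 72, 103, 15⟩ ⟨7, 8, 8, 52, 82, 103, 7⟩
    13 (-2) 4 9 (-3) (-9) 177804237545052045313 (by decide +kernel)) <|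
  AllL.cons (i := 9) (j := 18) (k := 20) (OkB.mk ⟨13, 14, 14, 63, 72, 103, 15⟩ ⟨7, 8, 8, 52, 82, 103, 7⟩
    14 0 4 9 (-3) (-9) 208494205497134546945 (by decide +kernel)) <|
  AllL.cons (i := 9) (j := 18) (k := 21) (OkB.mk ⟨13, 14, 14, 63, 72, 103, 15⟩ ⟨7, 8, 8, 52, 82, 103, 7⟩
    14 2 4 10 (-4) (-9) 176808638562193899521 (by decide +kernel)) <|
  AllL.cons (i := 9) (j := 18) (k := 22) (OkB.mk ⟨12, 14, 14, 63, 72, 103, 15⟩ ⟨7, 8, 8, 52, 82, 103, 7⟩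
    15 4 4 12 (-5) (-10) 244498963481063587841 (by decide +kernel)) <|
  AllL.cons (i := 9) (j := 19) (k := 19) (OkB.mk ⟨13, 14, 14, 63, 72, 103, 15⟩ ⟨7, 8, 8, 52, 82, 103, 7⟩
    14 (-2) 3 9 (-3) (-9) 250164716937301458945 (by decide +kernel)) <|
  AllL.cons (i := 9) (j := 19) (k := 20) (OkB.mk ⟨12, 15, 15, 63, 72, 103, 15⟩ ⟨7, 8, 8, 52, 82, 103, 7⟩
    14 0 3 9 (-3) (-9) 297908316394619928577 (by decide +kernel)) <|
  AllL.cons (i := 9) (j := 19) (k := 21) (OkB.mk ⟨12, 15, 15, 63, 72, 103, 15⟩ ⟨7, 8, 8, 52, 82, 103, 7⟩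
    15 1 3 10 (-4) (-9) 283356267494059802625 (by decide +kernel)) <|
  AllL.cons (i := 9) (j := 19) (k := 22) (OkB.mk ⟨12, 14, 15, 63, 72, 103, 15⟩ ⟨7, 8, 8, 52, 82, 103, 7⟩
    15 3 2 11 (-5) (-10) 270472073966425997313 (by decide +kernel)) <|
  AllL.cons (i := 9) (j := 20) (k := 20) (OkB.mk ⟨13, 15, 15, 63, 72, 103, 15⟩ ⟨7, 9, 9, 52, 82, 103, 7⟩
    15 (-1) 1 9 (-4) (-9) 252445257984936771585 (by decide +kernel)) <|
  AllL.cons (i := 9) (j := 20) (k := 21) (OkB.mk ⟨12, 15, 16, 63, 72, 103, 15⟩ ⟨7, 9, 9, 52, 82, 103, 7⟩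
    15 1 1 9 (-4) (-9) 315124037766583681025 (by decide +kernel)) <|
  AllL.cons (i := 9) (j := 20) (k := 22) (OkB.mk ⟨12, 15, 15, 63, 72, 103, 15⟩ ⟨7, 8, 9, 52, 82, 103, 7⟩
    15 2 1 11 (-5) (-10) 293316409628303556609 (by decide +kernel)) <|
  AllL.cons (i := 9) (j := 21) (k := 21) (OkB.mk ⟨12, 15, 16, 63, 72, 103, 15⟩ ⟨7, 9, 9, 52, 82, 103, 7⟩
    15 0 0 9 (-5) (-10) 327043962070559096833 (by decide +kernel)) <|
  AllL.cons (i := 9) (j := 21) (k := 22) (OkB.mk ⟨12, 15, 15, 63, 72, 103, 15⟩ ⟨7, 9, 9, 52, 82, 103, 7⟩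
    16 2 (-1) 10 (-5) (-10) 319182535158382198785 (by decide +kernel)) <|
  AllL.cons (i := 9) (j := 22) (k := 22) (OkB.mk ⟨12, 15, 15, 63, 72, 103, 15⟩ ⟨8, 8, 9, 52, 82, 103, 7⟩
    16 1 (-2) 10 (-6) (-12) 310496991295838355457 (by decide +kernel)) <|
  AllL.cons (i := 10) (j := 10) (k := 10) (OkB.mk ⟨15, 15, 15, 63, 72, 103, 16⟩ ⟨7, 8, 8, 52, 82, 103, 7⟩
    12 (-10) 7 16 7 (-17) 63351656571151056897 (by decide +kernel)) <|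
  AllL.cons (i := 10) (j := 10) (k := 11) (OkB.mk ⟨15, 15, 15, 63, 72, 103, 16⟩ ⟨7, 7, 8, 52, 82, 103, 7⟩
    12 (-10) 8 15 6 (-17) 63149839150288470017 (by decide +kernel)) <|
  AllL.cons (i := 10) (j := 10) (k := 12) (OkB.mk ⟨15, 15, 15, 63, 72, 103, 16⟩ ⟨7, 7, 8, 52, 82, 103, 7⟩
    11 (-9) 8 13 4 (-16) 62788434626040823809 (by decide +kernel)) <|
  AllL.cons (i := 10) (j := 10) (k := 13) (OkB.mk ⟨14, 15, 15, 63, 72, 103, 16⟩ ⟨7, 7, 8, 52, 82, 103, 7⟩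
    11 (-7) 8 12 4 (-16) 64036360944674144257 (by decide +kernel)) <|
  AllL.cons (i := 10) (j := 10) (k := 14) (OkB.mk ⟨14, 14, 14, 63, 72, 103, 16⟩ ⟨7, 7, 7, 52, 82, 103, 7⟩
    11 (-6) 9 12 3 (-15) 66743799338982440961 (by decide +kernel)) <|
  AllL.cons (i := 10) (j := 10) (k := 15) (OkB.mk ⟨14, 13, 14, 63, 72, 103, 16⟩ ⟨7, 7, 7, 52, 82, 103, 7⟩
    10 (-4) 9 12 3 (-14) 82109441901559021569 (by decide +kernel)) <|
  AllL.cons (i := 10) (j := 10) (k := 16) (OkB.mk ⟨14, 13, 14, 63, 72, 103, 16⟩ ⟨8, 7, 7, 52, 82, 103, 7⟩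
    10 (-3) 10 12 1 (-14) 82216430292816625665 (by decide +kernel)) <|
  AllL.cons (i := 10) (j := 10) (k := 17) (OkB.mk ⟨13, 14, 14, 63, 72, 103, 16⟩ ⟨8, 7, 8, 52, 82, 103, 7⟩
    9 (-1) 10 13 1 (-14) 85459728598183182337 (by decide +kernel)) <|
  AllL.cons (i := 10) (j := 10) (k := 18) (OkB.mk ⟨13, 14, 14, 63, 72, 103, 16⟩ ⟨7, 7, 8, 52, 82, 103, 7⟩
    9 0 11 14 (-1) (-15) 87758195396202987521 (by decide +kernel)) <|
  AllL.cons (i := 10) (j := 10) (k := 19) (OkB.mk ⟨14, 13, 14, 63, 72, 103, 16⟩ ⟨8, 7, 8, 52, 82, 103, 7⟩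
    9 2 12 14 (-1) (-15) 81763000493614825473 (by decide +kernel)) <|
  AllL.nil

end Pool.Agent.MP_48470b_gt.Run
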