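import Pool.Agent.MP_48470b_gt.Run.OkB
import Pool.Agent.MP_48470b_gt.Run.F41

/-! Runs of the tests. -/

namespace Pool.Agent.MP_48470b_gt.Run

/-- the boxes of this part -/
def b82l : List (Nat × Nat × Nat) :=
  [(10, 10, 20), (10, 10, 21), (10, 10, 22), (10, 11, 11), (10, 11, 12), (10, 11, 13), (10, 11, 14), (10, 11, 15), (10, 11, 16), (10, 11, 17), (10, 11, 18), (10, 11, 19), (10, 11, 20), (10, 11, 21), (10, 11, 22), (10, 12, 12), (10, 12, 13), (10, 12, 14), (10, 12, 15), (10, 12, 16), (10, 12, 17), (10, 12, 18), (10, 12, 19), (10, 12, 20), (10, 12, 21), (10, 12, 22), (10, 13, 13), (10, 13, 14), (10, 13, 15), (10, 13, 16), (10, 13, 17), (10, 13, 18), (10, 13, 19), (10, 13, 20)]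

theorem b82 : AllL OkB b82l :=
  AllL.cons (i := 10) (j := 10) (k := 20) (OkB.mk ⟨14, 13, 14, 63, 72, 103, 16⟩ ⟨8, 7, 8, 52, 82, 103, 7⟩
    9 4 13 16 (-2) (-16) 73624802315470897153 (by decide +kernel)) <|
  AllL.cons (i := 10) (j := 10) (k := 21) (OkB.mk ⟨14, 13, 14, 63, 72, 103, 16⟩ ⟨8, 7, 8, 52, 82, 103, 7⟩
    9 5 13 18 (-5) (-17) 64312269918647091201 (by decide +kernel)) <|
  AllL.cons (i := 10) (j := 10) (k := 22) (OkB.mk ⟨14, 12, 14, 63, 72, 103, 16⟩ ⟨8, 7, 8, 52, 82, 103, 7⟩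
    9 7 13 21 (-5) (-18) 70813396300663357441 (by decide +kernel)) <|
  AllL.cons (i := 10) (j := 11) (k := 11) (OkB.mk ⟨15, 15, 15, 63, 72, 103, 16⟩ ⟨7, 7, 8, 52, 82, 103, 7⟩
    12 (-10) 7 15 6 (-16) 62642247683180331009 (by decide +kernel)) <|
  AllL.cons (i := 10) (j := 11) (k := 12) (OkB.mk ⟨15, 15, 15, 63, 72, 103, 16⟩ ⟨7, 7, 8, 52, 82, 103, 7⟩
    11 (-9) 7 13 5 (-16) 64086680918953033729 (by decide +kernel)) <|
  AllL.cons (i := 10) (j := 11) (k := 13) (OkB.mk ⟨14, 15, 15, 63, 72, 103, 16⟩ ⟨7, 7, 8, 52, 82, 103, 7⟩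
    11 (-8) 7 12 4 (-15) 71912181701009211393 (by decide +kernel)) <|
  AllL.cons (i := 10) (j := 11) (k := 14) (OkB.mk ⟨14, 14, 14, 63, 72, 103, 16⟩ ⟨7, 7, 7, 52, 82, 103, 7⟩
    11 (-6) 8 12 4 (-14) 74683674619094761473 (by decide +kernel)) <|
  AllL.cons (i := 10) (j := 11) (k := 15) (OkB.mk ⟨14, 13, 14, 63, 72, 103, 16⟩ ⟨7, 7, 7, 52, 82, 103, 7⟩
    10 (-5) 8 12 2 (-14) 80909099147640963073 (by decide +kernel)) <|
  AllL.cons (i := 10) (j := 11) (k := 16) (OkB.mk ⟨13, 14, 14, 63, 72, 103, 16⟩ ⟨8, 7, 7, 52, 82, 103, 7⟩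
    10 (-3) 9 12 2 (-13) 83576443163247640577 (by decide +kernel)) <|
  AllL.cons (i := 10) (j := 11) (k := 17) (OkB.mk ⟨13, 14, 14, 63, 72, 103, 16⟩ ⟨8, 7, 7, 52, 82, 103, 7⟩
    10 (-2) 10 12 0 (-13) 89915452603062288385 (by decide +kernel)) <|
  AllL.cons (i := 10) (j := 11) (k := 18) (OkB.mk ⟨13, 14, 14, 63, 72, 103, 16⟩ ⟨7, 7, 8, 52, 82, 103, 7⟩
    10 0 10 13 0 (-14) 91591720614330630145 (by decide +kernel)) <|
  AllL.cons (i := 10) (j := 11) (k := 19) (OkB.mk ⟨13, 14, 14, 63, 72, 103, 16⟩ ⟨8, 7, 7, 52, 82, 103, 7⟩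
    10 2 11 14 (-1) (-14) 96123575216633806849 (by decide +kernel)) <|
  AllL.cons (i := 10) (j := 11) (k := 20) (OkB.mk ⟨13, 13, 15, 63, 72, 103, 16⟩ ⟨8, 7, 8, 52, 82, 103, 7⟩
    10 3 11 14 (-3) (-15) 101134557129025257473 (by decide +kernel)) <|
  AllL.cons (i := 10) (j := 11) (k := 21) (OkB.mk ⟨13, 13, 14, 63, 72, 103, 16⟩ ⟨7, 7, 8, 52, 82, 103, 7⟩
    10 5 12 17 (-4) (-15) 88006400800324583425 (by decide +kernel)) <|
  AllL.cons (i := 10) (j := 11) (k := 22) (OkB.mk ⟨13, 12, 14, 63, 72, 103, 16⟩ ⟨8, 7, 8, 52, 82, 103, 7⟩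
    10 7 13 19 (-5) (-16) 92490832641488060417 (by decide +kernel)) <|
  AllL.cons (i := 10) (j := 12) (k := 12) (OkB.mk ⟨15, 15, 15, 63, 72, 103, 16⟩ ⟨7, 7, 8, 52, 82, 103, 7⟩
    11 (-9) 6 13 5 (-14) 65497067639732699137 (by decide +kernel)) <|
  AllL.cons (i := 10) (j := 12) (k := 13) (OkB.mk ⟨14, 15, 15, 63, 72, 103, 16⟩ ⟨7, 7, 8, 52, 82, 103, 7⟩
    11 (-8) 6 12 4 (-13) 73673784596415643649 (by decide +kernel)) <|
  AllL.cons (i := 10) (j := 12) (k := 14) (OkB.mk ⟨14, 14, 15, 63, 72, 103, 16⟩ ⟨7, 8, 7, 52, 82, 103, 7⟩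
    11 (-6) 7 12 4 (-13) 71220066619114913793 (by decide +kernel)) <|
  AllL.cons (i := 10) (j := 12) (k := 15) (OkB.mk ⟨13, 14, 15, 63, 72, 103, 16⟩ ⟨7, 7, 7, 52, 82, 103, 7⟩
    11 (-5) 7 11 2 (-12) 93017060006053281793 (by decide +kernel)) <|
  AllL.cons (i := 10) (j := 12) (k := 16) (OkB.mk ⟨13, 13, 15, 63, 72, 103, 16⟩ ⟨7, 7, 7, 52, 82, 103, 7⟩
    11 (-4) 8 11 1 (-12) 104516578480006103041 (by decide +kernel)) <|
  AllL.cons (i := 10) (j := 12) (k := 17) (OkB.mk ⟨13, 13, 15, 63, 72, 103, 16⟩ ⟨7, 7, 8, 52, 82, 103, 7⟩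
    11 (-2) 8 12 1 (-12) 101380566396109324289 (by decide +kernel)) <|
  AllL.cons (i := 10) (j := 12) (k := 18) (OkB.mk ⟨13, 13, 16, 63, 72, 103, 16⟩ ⟨7, 7, 8, 52, 82, 103, 7⟩
    11 (-1) 9 12 (-1) (-12) 122467408587289264129 (by decide +kernel)) <|
  AllL.cons (i := 10) (j := 12) (k := 19) (OkB.mk ⟨13, 13, 15, 63, 72, 103, 16⟩ ⟨7, 7, 8, 52, 82, 103, 7⟩
    11 1 10 13 (-2) (-12) 117424060351110971393 (by decide +kernel)) <|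
  AllL.cons (i := 10) (j := 12) (k := 20) (OkB.mk ⟨13, 13, 15, 63, 72, 103, 16⟩ ⟨7, 7, 8, 52, 82, 103, 7⟩
    11 3 10 13 (-2) (-13) 112241216799838830593 (by decide +kernel)) <|
  AllL.cons (i := 10) (j := 12) (k := 21) (OkB.mk ⟨13, 13, 15, 63, 72, 103, 16⟩ ⟨7, 7, 8, 52, 82, 103, 7⟩
    11 5 11 15 (-3) (-13) 93310240795870101505 (by decide +kernel)) <|
  AllL.cons (i := 10) (j := 12) (k := 22) (OkB.mk ⟨13, 12, 15, 63, 72, 103, 16⟩ ⟨8, 7, 8, 52, 82, 103, 7⟩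
    11 7 11 18 (-4) (-14) 103920341774126546945 (by decide +kernel)) <|
  AllL.cons (i := 10) (j := 13) (k := 13) (OkB.mk ⟨14, 14, 15, 63, 72, 103, 16⟩ ⟨7, 7, 8, 52, 82, 103, 7⟩
    11 (-7) 5 12 4 (-12) 83537284468941258753 (by decide +kernel)) <|
  AllL.cons (i := 10) (j := 13) (k := 14) (OkB.mk ⟨14, 14, 14, 63, 72, 103, 16⟩ ⟨7, 7, 7, 52, 82, 103, 7⟩
    11 (-6) 6 11 3 (-12) 80620323963477688321 (by decide +kernel)) <|
  AllL.cons (i := 10) (j := 13) (k := 15) (OkB.mk ⟨14, 13, 14, 63, 72, 103, 16⟩ ⟨7, 7, 7, 52, 82, 103, 7⟩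
    11 (-5) 6 11 2 (-12) 95293233243747254273 (by decide +kernel)) <|
  AllL.cons (i := 10) (j := 13) (k := 16) (OkB.mk ⟨13, 13, 15, 63, 72, 103, 16⟩ ⟨7, 7, 7, 52, 82, 103, 7⟩
    11 (-4) 7 11 1 (-11) 103780063469314768897 (by decide +kernel)) <|
  AllL.cons (i := 10) (j := 13) (k := 17) (OkB.mk ⟨13, 13, 15, 63, 72, 103, 16⟩ ⟨7, 7, 7, 52, 82, 103, 7⟩
    11 (-3) 8 11 0 (-11) 109588031745218838529 (by decide +kernel)) <|
  AllL.cons (i := 10) (j := 13) (k := 18) (OkB.mk ⟨13, 13, 15, 63, 72, 103, 16⟩ ⟨7, 7, 7, 52, 82, 103, 7⟩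
    11 (-1) 8 12 (-1) (-11) 130862003256303812609 (by decide +kernel)) <|
  AllL.cons (i := 10) (j := 13) (k := 19) (OkB.mk ⟨13, 13, 15, 63, 72, 103, 16⟩ ⟨7, 7, 8, 52, 82, 103, 7⟩
    11 1 9 12 (-2) (-11) 120526993490247155713 (by decide +kernel)) <|
  AllL.cons (i := 10) (j := 13) (k := 20) (OkB.mk ⟨13, 13, 15, 63, 72, 103, 16⟩ ⟨7, 7, 8, 52, 82, 103, 7⟩
    11 3 9 13 (-2) (-12) 120928861966542307329 (by decide +kernel)) <|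
  AllL.nil

end Pool.Agent.MP_48470b_gt.Run
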