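import Pool.Agent.MP_48470b_gt.Run.OkB
import Pool.Agent.MP_48470b_gt.Run.B82

/-! Runs of the tests. -/

namespace Pool.Agent.MP_48470b_gt.Run

/-- the boxes of this part -/
def b83l : List (Nat × Nat × Nat) :=
  [(10, 13, 21), (10, 13, 22), (10, 14, 14), (10, 14, 15), (10, 14, 16), (10, 14, 17), (10, 14, 18), (10, 14, 19), (10, 14, 20), (10, 14, 21), (10, 14, 22), (10, 15, 15), (10, 15, 16), (10, 15, 17), (10, 15, 18), (10, 15, 19), (10, 15, 20), (10, 15, 21), (10, 15, 22), (10, 16, 16), (10, 16, 17), (10, 16, 18), (10, 16, 19), (10, 16, 20), (10, 16, 21), (10, 16, 22), (10, 17, 17), (10, 17, 18), (10, 17, 19), (10, 17, 20), (10, 17, 21), (10, 17, 22), (10, 18, 18), (10, 18, 19), (10, 18, 20)]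

theorem b83 : AllL OkB b83l :=
  AllL.cons (i := 10) (j := 13) (k := 21) (OkB.mk ⟨13, 13, 15, 63, 72, 103, 16⟩ ⟨7, 7, 8, 52, 82, 103, 7⟩
    11 4 9 14 (-4) (-12) 103354871465176465409 (by decide +kernel)) <|
  AllL.cons (i := 10) (j := 13) (k := 22) (OkB.mk ⟨13, 12, 15, 63, 72, 103, 16⟩ ⟨7, 7, 8, 52, 82, 103, 7⟩
    11 6 10 16 (-5) (-13) 119655992676877074433 (by decide +kernel)) <|
  AllL.cons (i := 10) (j := 14) (k := 14) (OkB.mk ⟨14, 14, 14, 63, 72, 103, 16⟩ ⟨7, 7, 7, 52, 82, 103, 7⟩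
    11 (-6) 5 11 2 (-11) 74591288841765650433 (by decide +kernel)) <|
  AllL.cons (i := 10) (j := 14) (k := 15) (OkB.mk ⟨13, 14, 14, 63, 72, 103, 16⟩ ⟨7, 7, 7, 52, 82, 103, 7⟩
    11 (-5) 6 11 2 (-11) 95888371949827522561 (by decide +kernel)) <|
  AllL.cons (i := 10) (j := 14) (k := 16) (OkB.mk ⟨13, 13, 14, 63, 72, 103, 16⟩ ⟨7, 7, 7, 52, 82, 103, 7⟩
    11 (-4) 6 11 1 (-11) 110266085997539229697 (by decide +kernel)) <|
  AllL.cons (i := 10) (j := 14) (k := 17) (OkB.mk ⟨13, 13, 14, 63, 72, 103, 16⟩ ⟨7, 7, 7, 52, 82, 103, 7⟩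
    11 (-3) 7 11 0 (-11) 129048939368426766337 (by decide +kernel)) <|
  AllL.cons (i := 10) (j := 14) (k := 18) (OkB.mk ⟨13, 13, 15, 63, 72, 103, 16⟩ ⟨7, 7, 8, 52, 82, 103, 7⟩
    11 (-2) 7 11 (-2) (-11) 136158755112701919233 (by decide +kernel)) <|
  AllL.cons (i := 10) (j := 14) (k := 19) (OkB.mk ⟨13, 13, 15, 63, 72, 103, 16⟩ ⟨7, 7, 8, 52, 82, 103, 7⟩
    12 0 8 11 (-2) (-11) 132857232443964391425 (by decide +kernel)) <|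
  AllL.cons (i := 10) (j := 14) (k := 20) (OkB.mk ⟨13, 13, 15, 63, 72, 103, 16⟩ ⟨7, 7, 8, 52, 82, 103, 7⟩
    12 2 8 12 (-3) (-11) 129605317128532000769 (by decide +kernel)) <|
  AllL.cons (i := 10) (j := 14) (k := 21) (OkB.mk ⟨13, 13, 15, 63, 72, 103, 16⟩ ⟨7, 7, 8, 52, 82, 103, 7⟩
    12 4 8 13 (-4) (-12) 112240308740673241089 (by decide +kernel)) <|
  AllL.cons (i := 10) (j := 14) (k := 22) (OkB.mk ⟨13, 12, 15, 63, 72, 103, 16⟩ ⟨7, 7, 8, 52, 82, 103, 7⟩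
    12 6 8 15 (-5) (-12) 134894041725413621761 (by decide +kernel)) <|
  AllL.cons (i := 10) (j := 15) (k := 15) (OkB.mk ⟨13, 13, 14, 63, 72, 103, 16⟩ ⟨7, 7, 7, 52, 82, 103, 7⟩
    11 (-5) 5 11 1 (-11) 115223600721056235521 (by decide +kernel)) <|
  AllL.cons (i := 10) (j := 15) (k := 16) (OkB.mk ⟨13, 13, 14, 63, 72, 103, 16⟩ ⟨7, 7, 7, 52, 82, 103, 7⟩
    11 (-4) 6 10 0 (-10) 110253936806369165313 (by decide +kernel)) <|
  AllL.cons (i := 10) (j := 15) (k := 17) (OkB.mk ⟨13, 13, 14, 63, 72, 103, 16⟩ ⟨7, 8, 7, 52, 82, 103, 7⟩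
    11 (-3) 6 10 (-1) (-10) 133668740194984001537 (by decide +kernel)) <|
  AllL.cons (i := 10) (j := 15) (k := 18) (OkB.mk ⟨13, 13, 14, 63, 72, 103, 16⟩ ⟨7, 8, 7, 52, 82, 103, 7⟩
    11 (-2) 7 10 (-2) (-10) 149630438318899462145 (by decide +kernel)) <|
  AllL.cons (i := 10) (j := 15) (k := 19) (OkB.mk ⟨13, 13, 14, 63, 72, 103, 16⟩ ⟨7, 8, 7, 52, 82, 103, 7⟩
    12 0 7 11 (-2) (-10) 167173782270103257089 (by decide +kernel)) <|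
  AllL.cons (i := 10) (j := 15) (k := 20) (OkB.mk ⟨13, 13, 15, 63, 72, 103, 16⟩ ⟨7, 8, 7, 52, 82, 103, 7⟩
    12 2 7 11 (-3) (-10) 147797056005896929281 (by decide +kernel)) <|
  AllL.cons (i := 10) (j := 15) (k := 21) (OkB.mk ⟨13, 13, 14, 63, 72, 103, 16⟩ ⟨7, 8, 7, 52, 82, 103, 7⟩
    12 3 7 12 (-4) (-11) 146950611272904736769 (by decide +kernel)) <|
  AllL.cons (i := 10) (j := 15) (k := 22) (OkB.mk ⟨13, 12, 15, 63, 72, 103, 16⟩ ⟨7, 8, 7, 52, 82, 103, 7⟩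
    13 5 7 14 (-6) (-11) 146918341293824278529 (by decide +kernel)) <|
  AllL.cons (i := 10) (j := 16) (k := 16) (OkB.mk ⟨13, 13, 13, 63, 72, 103, 16⟩ ⟨7, 7, 8, 52, 82, 103, 7⟩
    11 (-5) 5 10 (-1) (-10) 146992229162405593089 (by decide +kernel)) <|
  AllL.cons (i := 10) (j := 16) (k := 17) (OkB.mk ⟨13, 13, 14, 63, 72, 103, 16⟩ ⟨7, 7, 8, 52, 82, 103, 7⟩
    11 (-4) 5 10 (-2) (-10) 145009239875624370177 (by decide +kernel)) <|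
  AllL.cons (i := 10) (j := 16) (k := 18) (OkB.mk ⟨13, 13, 14, 63, 72, 103, 16⟩ ⟨7, 8, 7, 52, 82, 103, 7⟩
    12 (-2) 6 10 (-2) (-10) 168328138637384351745 (by decide +kernel)) <|
  AllL.cons (i := 10) (j := 16) (k := 19) (OkB.mk ⟨13, 13, 14, 63, 72, 103, 16⟩ ⟨7, 8, 7, 52, 82, 103, 7⟩
    12 (-1) 6 10 (-3) (-10) 196823367855850389505 (by decide +kernel)) <|
  AllL.cons (i := 10) (j := 16) (k := 20) (OkB.mk ⟨13, 13, 14, 63, 72, 103, 16⟩ ⟨7, 8, 7, 52, 82, 103, 7⟩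
    12 1 6 10 (-3) (-10) 195320849344927629313 (by decide +kernel)) <|
  AllL.cons (i := 10) (j := 16) (k := 21) (OkB.mk ⟨13, 13, 14, 63, 72, 103, 16⟩ ⟨7, 8, 7, 52, 82, 103, 7⟩
    13 3 6 12 (-4) (-10) 147988110719752077313 (by decide +kernel)) <|
  AllL.cons (i := 10) (j := 16) (k := 22) (OkB.mk ⟨13, 12, 14, 63, 72, 103, 16⟩ ⟨7, 8, 7, 52, 82, 103, 7⟩
    13 5 6 13 (-5) (-11) 180698035738564886529 (by decide +kernel)) <|
  AllL.cons (i := 10) (j := 17) (k := 17) (OkB.mk ⟨13, 13, 13, 63, 72, 103, 16⟩ ⟨7, 7, 8, 52, 82, 103, 7⟩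
    11 (-4) 5 10 (-2) (-10) 183550107465803628545 (by decide +kernel)) <|
  AllL.cons (i := 10) (j := 17) (k := 18) (OkB.mk ⟨13, 13, 14, 63, 72, 103, 16⟩ ⟨7, 8, 8, 52, 82, 103, 7⟩
    12 (-2) 5 9 (-2) (-9) 206081961235872481281 (by decide +kernel)) <|
  AllL.cons (i := 10) (j := 17) (k := 19) (OkB.mk ⟨13, 14, 13, 63, 72, 103, 15⟩ ⟨7, 8, 8, 52, 82, 103, 7⟩
    12 (-1) 5 10 (-3) (-9) 203134400909491044353 (by decide +kernel)) <|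
  AllL.cons (i := 10) (j := 17) (k := 20) (OkB.mk ⟨13, 14, 13, 63, 72, 103, 15⟩ ⟨7, 8, 8, 52, 82, 103, 7⟩
    13 1 5 10 (-3) (-9) 204158040737392361473 (by decide +kernel)) <|
  AllL.cons (i := 10) (j := 17) (k := 21) (OkB.mk ⟨12, 14, 14, 63, 72, 103, 15⟩ ⟨7, 8, 7, 52, 82, 103, 7⟩
    13 3 5 11 (-4) (-10) 197815200186749681665 (by decide +kernel)) <|
  AllL.cons (i := 10) (j := 17) (k := 22) (OkB.mk ⟨13, 13, 13, 63, 72, 103, 15⟩ ⟨7, 8, 7, 52, 82, 103, 7⟩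
    13 4 5 12 (-6) (-10) 178073564979860078593 (by decide +kernel)) <|
  AllL.cons (i := 10) (j := 18) (k := 18) (OkB.mk ⟨13, 14, 14, 63, 72, 103, 15⟩ ⟨7, 8, 8, 52, 82, 103, 7⟩
    12 (-3) 4 9 (-3) (-9) 156786477257128411137 (by decide +kernel)) <|
  AllL.cons (i := 10) (j := 18) (k := 19) (OkB.mk ⟨13, 14, 14, 63, 72, 103, 15⟩ ⟨7, 8, 8, 52, 82, 103, 7⟩
    12 (-1) 4 9 (-3) (-9) 193252166458339753985 (by decide +kernel)) <|
  AllL.cons (i := 10) (j := 18) (k := 20) (OkB.mk ⟨13, 14, 14, 63, 72, 103, 15⟩ ⟨7, 8, 8, 52, 82, 103, 7⟩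
    13 0 4 9 (-4) (-9) 219837768004853039105 (by decide +kernel)) <|
  AllL.nil

end Pool.Agent.MP_48470b_gt.Run
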