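import Pool.Agent.MP_48470b_gt.Run.OkB
import Pool.Agent.MP_48470b_gt.Run.F42

/-! Runs of the tests. -/

namespace Pool.Agent.MP_48470b_gt.Run

/-- the boxes of this part -/
def b84l : List (Nat × Nat × Nat) :=
  [(10, 18, 21), (10, 18, 22), (10, 19, 19), (10, 19, 20), (10, 19, 21), (10, 19, 22), (10, 20, 20), (10, 20, 21), (10, 20, 22), (10, 21, 21), (10, 21, 22), (10, 22, 22), (11, 11, 11), (11, 11, 12), (11, 11, 13), (11, 11, 14), (11, 11, 15), (11, 11, 16), (11, 11, 17), (11, 11, 18), (11, 11, 19), (11, 11, 20), (11, 11, 21), (11, 11, 22), (11, 12, 12), (11, 12, 13), (11, 12, 14), (11, 12, 15), (11, 12, 16), (11, 12, 17), (11, 12, 18), (11, 12, 19), (11, 12, 20), (11, 12, 21)]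

theorem b84 : AllL OkB b84l :=
  AllL.cons (i := 10) (j := 18) (k := 21) (OkB.mk ⟨12, 14, 15, 63, 72, 103, 15⟩ ⟨7, 8, 8, 52, 82, 103, 7⟩
    13 2 4 10 (-4) (-9) 226821941455910600705 (by decide +kernel)) <|
  AllL.cons (i := 10) (j := 18) (k := 22) (OkB.mk ⟨12, 14, 14, 63, 72, 103, 15⟩ ⟨7, 8, 8, 52, 82, 103, 7⟩
    14 4 3 12 (-5) (-10) 215809423482495696897 (by decide +kernel)) <|
  AllL.cons (i := 10) (j := 19) (k := 19) (OkB.mk ⟨12, 15, 15, 63, 72, 103, 15⟩ ⟨7, 8, 8, 52, 82, 103, 7⟩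
    13 (-2) 3 9 (-3) (-9) 233211454351007023105 (by decide +kernel)) <|
  AllL.cons (i := 10) (j := 19) (k := 20) (OkB.mk ⟨12, 15, 15, 63, 72, 103, 15⟩ ⟨8, 8, 8, 52, 82, 103, 7⟩
    13 0 2 9 (-4) (-9) 254679059205592186881 (by decide +kernel)) <|
  AllL.cons (i := 10) (j := 19) (k := 21) (OkB.mk ⟨12, 15, 15, 63, 72, 103, 15⟩ ⟨7, 8, 8, 52, 82, 103, 7⟩
    14 1 3 10 (-4) (-9) 243715697785715032065 (by decide +kernel)) <|
  AllL.cons (i := 10) (j := 19) (k := 22) (OkB.mk ⟨12, 14, 15, 63, 72, 103, 15⟩ ⟨7, 8, 8, 52, 82, 103, 7⟩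
    14 3 2 11 (-5) (-10) 240465696720026599425 (by decide +kernel)) <|
  AllL.cons (i := 10) (j := 20) (k := 20) (OkB.mk ⟨13, 15, 15, 63, 72, 103, 15⟩ ⟨7, 9, 9, 52, 82, 103, 7⟩
    14 (-1) 1 9 (-4) (-9) 251814657005203750913 (by decide +kernel)) <|
  AllL.cons (i := 10) (j := 20) (k := 21) (OkB.mk ⟨12, 15, 16, 63, 72, 103, 15⟩ ⟨7, 9, 9, 52, 82, 103, 7⟩
    14 1 1 9 (-4) (-9) 275592703851263688705 (by decide +kernel)) <|
  AllL.cons (i := 10) (j := 20) (k := 22) (OkB.mk ⟨12, 14, 16, 63, 72, 103, 15⟩ ⟨7, 8, 9, 52, 82, 103, 7⟩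
    14 2 1 10 (-5) (-10) 285259565552449355777 (by decide +kernel)) <|
  AllL.cons (i := 10) (j := 21) (k := 21) (OkB.mk ⟨12, 15, 15, 63, 72, 103, 15⟩ ⟨7, 9, 9, 52, 82, 103, 7⟩
    14 0 0 9 (-5) (-10) 321423351400661778433 (by decide +kernel)) <|
  AllL.cons (i := 10) (j := 21) (k := 22) (OkB.mk ⟨12, 15, 15, 63, 72, 103, 15⟩ ⟨7, 8, 9, 52, 82, 103, 7⟩
    15 2 (-1) 10 (-5) (-10) 282025654190165983233 (by decide +kernel)) <|
  AllL.cons (i := 10) (j := 22) (k := 22) (OkB.mk ⟨12, 15, 15, 63, 72, 103, 15⟩ ⟨7, 8, 9, 52, 82, 103, 7⟩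
    15 1 (-2) 10 (-6) (-12) 281987757735208288257 (by decide +kernel)) <|
  AllL.cons (i := 11) (j := 11) (k := 11) (OkB.mk ⟨14, 15, 16, 63, 72, 103, 16⟩ ⟨7, 7, 7, 52, 82, 103, 7⟩
    11 (-9) 6 15 7 (-16) 83178554644167131137 (by decide +kernel)) <|
  AllL.cons (i := 11) (j := 11) (k := 12) (OkB.mk ⟨14, 15, 16, 63, 72, 103, 16⟩ ⟨7, 8, 7, 52, 82, 103, 7⟩
    11 (-9) 6 13 5 (-15) 81414705996260966401 (by decide +kernel)) <|
  AllL.cons (i := 11) (j := 11) (k := 13) (OkB.mk ⟨14, 15, 15, 63, 72, 103, 16⟩ ⟨7, 8, 7, 52, 82, 103, 7⟩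
    11 (-8) 6 12 4 (-15) 70407678296720408577 (by decide +kernel)) <|
  AllL.cons (i := 11) (j := 11) (k := 14) (OkB.mk ⟨14, 14, 14, 63, 72, 103, 16⟩ ⟨7, 7, 7, 52, 82, 103, 7⟩
    11 (-6) 7 11 3 (-14) 76841727322616758273 (by decide +kernel)) <|
  AllL.cons (i := 11) (j := 11) (k := 15) (OkB.mk ⟨14, 13, 14, 63, 72, 103, 16⟩ ⟨7, 7, 7, 52, 82, 103, 7⟩
    10 (-5) 7 11 2 (-13) 82779069496764137473 (by decide +kernel)) <|
  AllL.cons (i := 11) (j := 11) (k := 16) (OkB.mk ⟨14, 13, 14, 63, 72, 103, 16⟩ ⟨7, 7, 7, 52, 82, 103, 7⟩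
    10 (-3) 8 11 2 (-13) 93062210901292089345 (by decide +kernel)) <|
  AllL.cons (i := 11) (j := 11) (k := 17) (OkB.mk ⟨14, 13, 14, 63, 72, 103, 16⟩ ⟨7, 7, 7, 52, 82, 103, 7⟩
    10 (-2) 8 12 1 (-13) 90859212773766725633 (by decide +kernel)) <|
  AllL.cons (i := 11) (j := 11) (k := 18) (OkB.mk ⟨14, 13, 14, 63, 72, 103, 16⟩ ⟨7, 7, 7, 52, 82, 103, 7⟩
    10 0 9 12 0 (-13) 120099611121507368961 (by decide +kernel)) <|
  AllL.cons (i := 11) (j := 11) (k := 19) (OkB.mk ⟨14, 13, 14, 63, 72, 103, 16⟩ ⟨7, 7, 7, 52, 82, 103, 7⟩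
    10 1 9 13 (-1) (-14) 103907638429096083457 (by decide +kernel)) <|
  AllL.cons (i := 11) (j := 11) (k := 20) (OkB.mk ⟨14, 13, 14, 63, 72, 103, 16⟩ ⟨7, 7, 7, 52, 82, 103, 7⟩
    10 3 10 14 (-2) (-14) 98128409600435683329 (by decide +kernel)) <|
  AllL.cons (i := 11) (j := 11) (k := 21) (OkB.mk ⟨14, 12, 15, 63, 72, 103, 16⟩ ⟨7, 7, 7, 52, 82, 103, 7⟩
    10 5 10 16 (-3) (-15) 132572313934274494465 (by decide +kernel)) <|
  AllL.cons (i := 11) (j := 11) (k := 22) (OkB.mk ⟨14, 12, 14, 63, 72, 103, 16⟩ ⟨8, 7, 7, 52, 82, 103, 7⟩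
    10 6 10 18 (-5) (-16) 91065068700838133761 (by decide +kernel)) <|
  AllL.cons (i := 11) (j := 12) (k := 12) (OkB.mk ⟨14, 15, 15, 63, 72, 103, 16⟩ ⟨7, 8, 8, 52, 82, 103, 7⟩
    11 (-8) 6 12 5 (-13) 81567920192812482561 (by decide +kernel)) <|
  AllL.cons (i := 11) (j := 12) (k := 13) (OkB.mk ⟨14, 15, 15, 63, 72, 103, 16⟩ ⟨7, 8, 7, 52, 82, 103, 7⟩
    11 (-7) 6 12 5 (-13) 72107027118640070657 (by decide +kernel)) <|
  AllL.cons (i := 11) (j := 12) (k := 14) (OkB.mk ⟨14, 14, 14, 63, 72, 103, 16⟩ ⟨7, 7, 8, 52, 82, 103, 7⟩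
    11 (-6) 6 11 3 (-12) 87833659277263765505 (by decide +kernel)) <|
  AllL.cons (i := 11) (j := 12) (k := 15) (OkB.mk ⟨14, 13, 14, 63, 72, 103, 16⟩ ⟨7, 7, 7, 52, 82, 103, 7⟩
    10 (-5) 6 11 2 (-12) 96290185313102331905 (by decide +kernel)) <|
  AllL.cons (i := 11) (j := 12) (k := 16) (OkB.mk ⟨14, 13, 14, 63, 72, 103, 16⟩ ⟨7, 7, 7, 52, 82, 103, 7⟩
    10 (-4) 7 11 1 (-12) 106379975123984711681 (by decide +kernel)) <|
  AllL.cons (i := 11) (j := 12) (k := 17) (OkB.mk ⟨14, 13, 14, 63, 72, 103, 16⟩ ⟨7, 7, 7, 52, 82, 103, 7⟩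
    10 (-2) 7 11 1 (-12) 113075280344707497985 (by decide +kernel)) <|
  AllL.cons (i := 11) (j := 12) (k := 18) (OkB.mk ⟨13, 14, 15, 63, 72, 103, 16⟩ ⟨7, 7, 7, 52, 82, 103, 7⟩
    10 (-1) 8 12 (-1) (-12) 111273008026018119681 (by decide +kernel)) <|
  AllL.cons (i := 11) (j := 12) (k := 19) (OkB.mk ⟨13, 14, 15, 63, 72, 103, 16⟩ ⟨7, 7, 8, 52, 82, 103, 7⟩
    10 1 9 12 (-1) (-12) 119043862392979062785 (by decide +kernel)) <|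
  AllL.cons (i := 11) (j := 12) (k := 20) (OkB.mk ⟨14, 13, 14, 63, 72, 103, 16⟩ ⟨7, 7, 8, 52, 82, 103, 7⟩
    11 3 9 13 (-2) (-13) 124474886471922221057 (by decide +kernel)) <|
  AllL.cons (i := 11) (j := 12) (k := 21) (OkB.mk ⟨13, 13, 15, 63, 72, 103, 16⟩ ⟨7, 7, 8, 52, 82, 103, 7⟩
    11 5 9 15 (-3) (-13) 107520809422389510145 (by decide +kernel)) <|
  AllL.nil

end Pool.Agent.MP_48470b_gt.Run
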