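import Pool.Agent.MP_48470b_gt.Run.OkB
import Pool.Agent.MP_48470b_gt.Run.B84

/-! Runs of the tests. -/

namespace Pool.Agent.MP_48470b_gt.Run

/-- the boxes of this part -/
def b85l : List (Nat × Nat × Nat) :=
  [(11, 12, 22), (11, 13, 13), (11, 13, 14), (11, 13, 15), (11, 13, 16), (11, 13, 17), (11, 13, 18), (11, 13, 19), (11, 13, 20), (11, 13, 21), (11, 13, 22), (11, 14, 14), (11, 14, 15), (11, 14, 16), (11, 14, 17), (11, 14, 18), (11, 14, 19), (11, 14, 20), (11, 14, 21), (11, 14, 22), (11, 15, 15), (11, 15, 16), (11, 15, 17), (11, 15, 18), (11, 15, 19), (11, 15, 20), (11, 15, 21), (11, 15, 22), (11, 16, 16), (11, 16, 17), (11, 16, 18), (11, 16, 19), (11, 16, 20), (11, 16, 21)]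

theorem b85 : AllL OkB b85l :=
  AllL.cons (i := 11) (j := 12) (k := 22) (OkB.mk ⟨13, 12, 15, 63, 72, 103, 16⟩ ⟨7, 7, 7, 52, 82, 103, 7⟩
    11 6 10 17 (-5) (-14) 123672994637282279425 (by decide +kernel)) <|
  AllL.cons (i := 11) (j := 13) (k := 13) (OkB.mk ⟨14, 14, 15, 63, 72, 103, 16⟩ ⟨7, 7, 8, 52, 82, 103, 7⟩
    11 (-7) 5 11 3 (-12) 80055917569466433537 (by decide +kernel)) <|
  AllL.cons (i := 11) (j := 13) (k := 14) (OkB.mk ⟨14, 14, 14, 63, 72, 103, 16⟩ ⟨7, 7, 8, 52, 82, 103, 7⟩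
    11 (-6) 5 11 3 (-12) 79390220316013756417 (by decide +kernel)) <|
  AllL.cons (i := 11) (j := 13) (k := 15) (OkB.mk ⟨14, 13, 14, 63, 72, 103, 16⟩ ⟨7, 7, 7, 52, 82, 103, 7⟩
    10 (-5) 6 11 2 (-11) 98565751757816725505 (by decide +kernel)) <|
  AllL.cons (i := 11) (j := 13) (k := 16) (OkB.mk ⟨13, 13, 15, 63, 72, 103, 16⟩ ⟨7, 7, 7, 52, 82, 103, 7⟩
    10 (-4) 6 11 1 (-11) 118288113487944089601 (by decide +kernel)) <|
  AllL.cons (i := 11) (j := 13) (k := 17) (OkB.mk ⟨13, 13, 15, 63, 72, 103, 16⟩ ⟨8, 7, 8, 52, 82, 103, 7⟩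
    10 (-2) 7 11 0 (-11) 129185115945111126017 (by decide +kernel)) <|
  AllL.cons (i := 11) (j := 13) (k := 18) (OkB.mk ⟨13, 14, 14, 63, 72, 103, 16⟩ ⟨7, 7, 8, 52, 82, 103, 7⟩
    11 (-1) 7 11 (-1) (-11) 124649232594764824577 (by decide +kernel)) <|
  AllL.cons (i := 11) (j := 13) (k := 19) (OkB.mk ⟨13, 14, 15, 63, 72, 103, 16⟩ ⟨8, 7, 7, 52, 82, 103, 7⟩
    11 1 8 12 (-1) (-11) 123195169698717106177 (by decide +kernel)) <|
  AllL.cons (i := 11) (j := 13) (k := 20) (OkB.mk ⟨13, 13, 15, 63, 72, 103, 16⟩ ⟨8, 7, 8, 52, 82, 103, 7⟩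
    11 2 8 12 (-3) (-12) 140764392030470144001 (by decide +kernel)) <|
  AllL.cons (i := 11) (j := 13) (k := 21) (OkB.mk ⟨13, 13, 15, 63, 72, 103, 16⟩ ⟨7, 7, 8, 52, 82, 103, 7⟩
    11 4 8 14 (-4) (-12) 119473635924631355393 (by decide +kernel)) <|
  AllL.cons (i := 11) (j := 13) (k := 22) (OkB.mk ⟨13, 12, 15, 63, 72, 103, 16⟩ ⟨7, 7, 7, 52, 82, 103, 7⟩
    11 6 9 16 (-5) (-13) 137355989822126161921 (by decide +kernel)) <|
  AllL.cons (i := 11) (j := 14) (k := 14) (OkB.mk ⟨13, 14, 14, 63, 72, 103, 16⟩ ⟨8, 7, 7, 52, 82, 103, 7⟩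
    10 (-6) 5 11 2 (-11) 95848145079974756353 (by decide +kernel)) <|
  AllL.cons (i := 11) (j := 14) (k := 15) (OkB.mk ⟨13, 13, 14, 63, 72, 103, 16⟩ ⟨7, 7, 7, 52, 82, 103, 7⟩
    10 (-5) 5 10 1 (-11) 115467537683599851521 (by decide +kernel)) <|
  AllL.cons (i := 11) (j := 14) (k := 16) (OkB.mk ⟨13, 13, 14, 63, 72, 103, 16⟩ ⟨7, 8, 7, 52, 82, 103, 7⟩
    10 (-4) 6 10 0 (-10) 123904419432379711489 (by decide +kernel)) <|
  AllL.cons (i := 11) (j := 14) (k := 17) (OkB.mk ⟨13, 13, 14, 63, 72, 103, 16⟩ ⟨7, 7, 8, 52, 82, 103, 7⟩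
    10 (-3) 6 11 (-1) (-10) 150927753050585038849 (by decide +kernel)) <|
  AllL.cons (i := 11) (j := 14) (k := 18) (OkB.mk ⟨13, 14, 14, 63, 72, 103, 16⟩ ⟨7, 7, 8, 52, 82, 103, 7⟩
    11 (-1) 6 11 (-1) (-10) 117576814676924170241 (by decide +kernel)) <|
  AllL.cons (i := 11) (j := 14) (k := 19) (OkB.mk ⟨13, 13, 15, 63, 72, 103, 16⟩ ⟨7, 7, 8, 52, 82, 103, 7⟩
    11 0 7 11 (-2) (-11) 158718661272686034945 (by decide +kernel)) <|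
  AllL.cons (i := 11) (j := 14) (k := 20) (OkB.mk ⟨13, 13, 15, 63, 72, 103, 16⟩ ⟨7, 7, 8, 52, 82, 103, 7⟩
    11 2 7 12 (-3) (-11) 153230944724947304449 (by decide +kernel)) <|
  AllL.cons (i := 11) (j := 14) (k := 21) (OkB.mk ⟨13, 13, 15, 63, 72, 103, 16⟩ ⟨7, 7, 7, 52, 82, 103, 7⟩
    12 4 7 13 (-4) (-12) 124318360821225750529 (by decide +kernel)) <|
  AllL.cons (i := 11) (j := 14) (k := 22) (OkB.mk ⟨13, 12, 15, 63, 72, 103, 16⟩ ⟨7, 7, 7, 52, 82, 103, 7⟩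
    12 6 7 15 (-5) (-12) 143555764943419604993 (by decide +kernel)) <|
  AllL.cons (i := 11) (j := 15) (k := 15) (OkB.mk ⟨13, 13, 14, 63, 72, 103, 16⟩ ⟨8, 7, 7, 52, 82, 103, 7⟩
    10 (-5) 5 10 0 (-10) 115978424661934342145 (by decide +kernel)) <|
  AllL.cons (i := 11) (j := 15) (k := 16) (OkB.mk ⟨13, 13, 14, 63, 72, 103, 16⟩ ⟨7, 8, 7, 52, 82, 103, 7⟩
    10 (-4) 5 10 0 (-10) 119680124345766641665 (by decide +kernel)) <|
  AllL.cons (i := 11) (j := 15) (k := 17) (OkB.mk ⟨13, 13, 14, 63, 72, 103, 16⟩ ⟨7, 8, 8, 52, 82, 103, 7⟩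
    10 (-3) 6 10 (-1) (-10) 170128369712736763905 (by decide +kernel)) <|
  AllL.cons (i := 11) (j := 15) (k := 18) (OkB.mk ⟨13, 14, 13, 63, 72, 103, 16⟩ ⟨7, 8, 8, 52, 82, 103, 7⟩
    11 (-1) 6 10 (-2) (-10) 156137699563481858049 (by decide +kernel)) <|
  AllL.cons (i := 11) (j := 15) (k := 19) (OkB.mk ⟨13, 13, 15, 63, 72, 103, 16⟩ ⟨7, 8, 7, 52, 82, 103, 7⟩
    11 0 6 11 (-3) (-10) 183898379010852257793 (by decide +kernel)) <|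
  AllL.cons (i := 11) (j := 15) (k := 20) (OkB.mk ⟨13, 13, 14, 63, 72, 103, 16⟩ ⟨7, 8, 8, 52, 82, 103, 7⟩
    12 2 6 11 (-3) (-10) 181594104042658725889 (by decide +kernel)) <|
  AllL.cons (i := 11) (j := 15) (k := 21) (OkB.mk ⟨13, 13, 14, 63, 72, 103, 16⟩ ⟨7, 7, 8, 52, 82, 103, 7⟩
    12 4 6 12 (-4) (-11) 142949776668913303553 (by decide +kernel)) <|
  AllL.cons (i := 11) (j := 15) (k := 22) (OkB.mk ⟨13, 12, 14, 63, 72, 103, 16⟩ ⟨7, 8, 7, 52, 82, 103, 7⟩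
    12 5 6 14 (-6) (-11) 167065902587232387073 (by decide +kernel)) <|
  AllL.cons (i := 11) (j := 16) (k := 16) (OkB.mk ⟨13, 13, 14, 63, 72, 103, 16⟩ ⟨7, 7, 8, 52, 82, 103, 7⟩
    10 (-4) 4 10 (-1) (-10) 140423806896333389825 (by decide +kernel)) <|
  AllL.cons (i := 11) (j := 16) (k := 17) (OkB.mk ⟨13, 13, 14, 63, 72, 103, 16⟩ ⟨7, 8, 8, 52, 82, 103, 7⟩
    10 (-3) 5 10 (-2) (-10) 188135478460126593025 (by decide +kernel)) <|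
  AllL.cons (i := 11) (j := 16) (k := 18) (OkB.mk ⟨13, 14, 13, 63, 72, 103, 16⟩ ⟨7, 8, 8, 52, 82, 103, 7⟩
    11 (-2) 5 10 (-2) (-10) 156453305167825076225 (by decide +kernel)) <|
  AllL.cons (i := 11) (j := 16) (k := 19) (OkB.mk ⟨13, 14, 13, 63, 72, 103, 16⟩ ⟨7, 8, 8, 52, 82, 103, 7⟩
    11 0 5 10 (-3) (-10) 164434788579272556545 (by decide +kernel)) <|
  AllL.cons (i := 11) (j := 16) (k := 20) (OkB.mk ⟨13, 14, 13, 63, 72, 103, 16⟩ ⟨7, 8, 8, 52, 82, 103, 7⟩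
    12 1 5 10 (-4) (-10) 180035083141013045249 (by decide +kernel)) <|
  AllL.cons (i := 11) (j := 16) (k := 21) (OkB.mk ⟨13, 13, 14, 63, 72, 103, 16⟩ ⟨7, 8, 7, 52, 82, 103, 7⟩
    12 3 5 12 (-5) (-10) 152159026303543017473 (by decide +kernel)) <|
  AllL.nil

end Pool.Agent.MP_48470b_gt.Run
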