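import Pool.Agent.MP_48470b_gt.Run.OkF

/-! Runs of the tests. -/

namespace Pool.Agent.MP_48470b_gt.Run

/-- the boxes of this part -/
def f43l : List (Nat × Nat × Nat) :=
  [(11, 20, 21), (11, 20, 22), (11, 21, 21), (11, 21, 22), (11, 22, 22), (12, 12, 12), (12, 12, 13), (12, 12, 14), (12, 12, 15), (12, 12, 16), (12, 12, 17), (12, 12, 18), (12, 12, 19), (12, 12, 20), (12, 12, 21), (12, 12, 22), (12, 13, 13), (12, 13, 14), (12, 13, 15), (12, 13, 16), (12, 13, 17), (12, 13, 18), (12, 13, 19), (12, 13, 20), (12, 13, 21), (12, 13, 22), (12, 14, 14), (12, 14, 15), (12, 14, 16), (12, 14, 17), (12, 14, 18), (12, 14, 19), (12, 14, 20), (12, 14, 21), (12, 14, 22), (12, 15, 15), (12, 15, 16), (12, 15, 17), (12, 15, 18), (12, 15, 19), (12, 15, 20), (12, 15, 21), (12, 15, 22), (12, 16, 16), (12, 16, 17), (12, 16, 18), (12, 16, 19), (12, 16, 20), (12, 16, 21), (12, 16, 22), (12, 17, 17), (12, 17, 18), (12, 17, 19), (12, 17, 20), (12, 17, 21), (12, 17, 22), (12, 18, 18), (12, 18,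 19), (12, 18, 20)]

theorem f43 : AllL OkF f43l :=
  AllL.cons (i := 11) (j := 20) (k := 21) (OkF.mk (by decide +kernel)) <|
  AllL.cons (i := 11) (j := 20) (k := 22) (OkF.mk (by decide +kernel)) <|
  AllL.cons (i := 11) (j := 21) (k := 21) (OkF.mk (by decide +kernel)) <|
  AllL.cons (i := 11) (j := 21) (k := 22) (OkF.mk (by decide +kernel)) <|
  AllL.cons (i := 11) (j := 22) (k := 22) (OkF.mk (by decide +kernel)) <|
  AllL.cons (i := 12) (j := 12) (k := 12) (OkF.mk (by decide +kernel)) <|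
  AllL.cons (i := 12) (j := 12) (k := 13) (OkF.mk (by decide +kernel)) <|
  AllL.cons (i := 12) (j := 12) (k := 14) (OkF.mk (by decide +kernel)) <|
  AllL.cons (i := 12) (j := 12) (k := 15) (OkF.mk (by decide +kernel)) <|
  AllL.cons (i := 12) (j := 12) (k := 16) (OkF.mk (by decide +kernel)) <|
  AllL.cons (i := 12) (j := 12) (k := 17) (OkF.mk (by decide +kernel)) <|
  AllL.cons (i := 12) (j := 12) (k := 18) (OkF.mk (by decide +kernel)) <|
  AllL.cons (i := 12) (j := 12) (k := 19) (OkF.mk (by decide +kernel)) <|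
  AllL.cons (i := 12) (j := 12) (k := 20) (OkF.mk (by decide +kernel)) <|
  AllL.cons (i := 12) (j := 12) (k := 21) (OkF.mk (by decide +kernel)) <|
  AllL.cons (i := 12) (j := 12) (k := 22) (OkF.mk (by decide +kernel)) <|
  AllL.cons (i := 12) (j := 13) (k := 13) (OkF.mk (by decide +kernel)) <|
  AllL.cons (i := 12) (j := 13) (k := 14) (OkF.mk (by decide +kernel)) <|
  AllL.cons (i := 12) (j := 13) (k := 15) (OkF.mk (by decide +kernel)) <|
  AllL.cons (i := 12) (j := 13) (k := 16) (OkF.mk (by decide +kernel)) <|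
  AllL.cons (i := 12) (j := 13) (k := 17) (OkF.mk (by decide +kernel)) <|
  AllL.cons (i := 12) (j := 13) (k := 18) (OkF.mk (by decide +kernel)) <|
  AllL.cons (i := 12) (j := 13) (k := 19) (OkF.mk (by decide +kernel)) <|
  AllL.cons (i := 12) (j := 13) (k := 20) (OkF.mk (by decide +kernel)) <|
  AllL.cons (i := 12) (j := 13) (k := 21) (OkF.mk (by decide +kernel)) <|
  AllL.cons (i := 12) (j := 13) (k := 22) (OkF.mk (by decide +kernel)) <|
  AllL.cons (i := 12) (j := 14) (k := 14) (OkF.mk (by decide +kernel)) <|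
  AllL.cons (i := 12) (j := 14) (k := 15) (OkF.mk (by decide +kernel)) <|
  AllL.cons (i := 12) (j := 14) (k := 16) (OkF.mk (by decide +kernel)) <|
  AllL.cons (i := 12) (j := 14) (k := 17) (OkF.mk (by decide +kernel)) <|
  AllL.cons (i := 12) (j := 14) (k := 18) (OkF.mk (by decide +kernel)) <|
  AllL.cons (i := 12) (j := 14) (k := 19) (OkF.mk (by decide +kernel)) <|
  AllL.cons (i := 12) (j := 14) (k := 20) (OkF.mk (by decide +kernel)) <|
  AllL.cons (i := 12) (j := 14) (k := 21) (OkF.mk (by decide +kernel)) <|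
  AllL.cons (i := 12) (j := 14) (k := 22) (OkF.mk (by decide +kernel)) <|
  AllL.cons (i := 12) (j := 15) (k := 15) (OkF.mk (by decide +kernel)) <|
  AllL.cons (i := 12) (j := 15) (k := 16) (OkF.mk (by decide +kernel)) <|
  AllL.cons (i := 12) (j := 15) (k := 17) (OkF.mk (by decide +kernel)) <|
  AllL.cons (i := 12) (j := 15) (k := 18) (OkF.mk (by decide +kernel)) <|
  AllL.cons (i := 12) (j := 15) (k := 19) (OkF.mk (by decide +kernel)) <|
  AllL.cons (i := 12) (j := 15) (k := 20) (OkF.mk (by decide +kernel)) <|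
  AllL.cons (i := 12) (j := 15) (k := 21) (OkF.mk (by decide +kernel)) <|
  AllL.cons (i := 12) (j := 15) (k := 22) (OkF.mk (by decide +kernel)) <|
  AllL.cons (i := 12) (j := 16) (k := 16) (OkF.mk (by decide +kernel)) <|
  AllL.cons (i := 12) (j := 16) (k := 17) (OkF.mk (by decide +kernel)) <|
  AllL.cons (i := 12) (j := 16) (k := 18) (OkF.mk (by decide +kernel)) <|
  AllL.cons (i := 12) (j := 16) (k := 19) (OkF.mk (by decide +kernel)) <|
  AllL.cons (i := 12) (j := 16) (k := 20) (OkF.mk (by decide +kernel)) <|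
  AllL.cons (i := 12) (j := 16) (k := 21) (OkF.mk (by decide +kernel)) <|
  AllL.cons (i := 12) (j := 16) (k := 22) (OkF.mk (by decide +kernel)) <|
  AllL.cons (i := 12) (j := 17) (k := 17) (OkF.mk (by decide +kernel)) <|
  AllL.cons (i := 12) (j := 17) (k := 18) (OkF.mk (by decide +kernel)) <|
  AllL.cons (i := 12) (j := 17) (k := 19) (OkF.mk (by decide +kernel)) <|
  AllL.cons (i := 12) (j := 17) (k := 20) (OkF.mk (by decide +kernel)) <|
  AllL.cons (i := 12) (j := 17) (k := 21) (OkF.mk (by decide +kernel)) <|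
  AllL.cons (i := 12) (j := 17) (k := 22) (OkF.mk (by decide +kernel)) <|
  AllL.cons (i := 12) (j := 18) (k := 18) (OkF.mk (by decide +kernel)) <|
  AllL.cons (i := 12) (j := 18) (k := 19) (OkF.mk (by decide +kernel)) <|
  AllL.cons (i := 12) (j := 18) (k := 20) (OkF.mk (by decide +kernel)) <|
  AllL.nil

end Pool.Agent.MP_48470b_gt.Run
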