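import Pool.Agent.MP_48470b_gt.Run.OkB
import Pool.Agent.MP_48470b_gt.Run.F43

/-! Runs of the tests. -/

namespace Pool.Agent.MP_48470b_gt.Run

/-- the boxes of this part -/
def b86l : List (Nat × Nat × Nat) :=
  [(11, 16, 22), (11, 17, 17), (11, 17, 18), (11, 17, 19), (11, 17, 20), (11, 17, 21), (11, 17, 22), (11, 18, 18), (11, 18, 19), (11, 18, 20), (11, 18, 21), (11, 18, 22), (11, 19, 19), (11, 19, 20), (11, 19, 21), (11, 19, 22), (11, 20, 20), (11, 20, 21), (11, 20, 22), (11, 21, 21), (11, 21, 22), (11, 22, 22), (12, 12, 12), (12, 12, 13), (12, 12, 14), (12, 12, 15), (12, 12, 16), (12, 12, 17), (12, 12, 18), (12, 12, 19), (12, 12, 20), (12, 12, 21), (12, 12, 22), (12, 13, 13), (12, 13, 14)]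

theorem b86 : AllL OkB b86l :=
  AllL.cons (i := 11) (j := 16) (k := 22) (OkB.mk ⟨13, 12, 14, 63, 72, 103, 16⟩ ⟨7, 8, 7, 52, 82, 103, 7⟩
    12 5 5 13 (-5) (-11) 180399990296989925377 (by decide +kernel)) <|
  AllL.cons (i := 11) (j := 17) (k := 17) (OkB.mk ⟨13, 13, 14, 63, 72, 103, 16⟩ ⟨7, 8, 8, 52, 82, 103, 7⟩
    11 (-3) 4 9 (-2) (-10) 187410645485602471937 (by decide +kernel)) <|
  AllL.cons (i := 11) (j := 17) (k := 18) (OkB.mk ⟨13, 14, 13, 63, 72, 103, 15⟩ ⟨7, 8, 8, 52, 82, 103, 7⟩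
    11 (-2) 4 9 (-3) (-9) 208600580086025945089 (by decide +kernel)) <|
  AllL.cons (i := 11) (j := 17) (k := 19) (OkB.mk ⟨13, 14, 13, 63, 72, 103, 15⟩ ⟨7, 8, 8, 52, 82, 103, 7⟩
    11 (-1) 5 9 (-3) (-9) 228351189781699362817 (by decide +kernel)) <|
  AllL.cons (i := 11) (j := 17) (k := 20) (OkB.mk ⟨13, 14, 13, 63, 72, 103, 15⟩ ⟨7, 8, 8, 52, 82, 103, 7⟩
    12 1 4 10 (-4) (-10) 217965161714041225217 (by decide +kernel)) <|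
  AllL.cons (i := 11) (j := 17) (k := 21) (OkB.mk ⟨13, 13, 13, 63, 72, 103, 15⟩ ⟨7, 8, 8, 52, 82, 103, 7⟩
    12 3 4 11 (-4) (-10) 214878394556929277953 (by decide +kernel)) <|
  AllL.cons (i := 11) (j := 17) (k := 22) (OkB.mk ⟨12, 13, 14, 63, 72, 103, 15⟩ ⟨7, 8, 7, 52, 82, 103, 7⟩
    13 4 4 12 (-6) (-10) 209854450776835883009 (by decide +kernel)) <|
  AllL.cons (i := 11) (j := 18) (k := 18) (OkB.mk ⟨13, 14, 14, 63, 72, 103, 15⟩ ⟨7, 8, 8, 52, 82, 103, 7⟩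
    11 (-2) 3 9 (-3) (-9) 171121854059856789505 (by decide +kernel)) <|
  AllL.cons (i := 11) (j := 18) (k := 19) (OkB.mk ⟨13, 14, 14, 63, 72, 103, 15⟩ ⟨7, 8, 8, 52, 82, 103, 7⟩
    11 (-1) 3 9 (-3) (-9) 205396633439256444929 (by decide +kernel)) <|
  AllL.cons (i := 11) (j := 18) (k := 20) (OkB.mk ⟨13, 14, 14, 63, 72, 103, 15⟩ ⟨7, 8, 8, 52, 82, 103, 7⟩
    12 1 3 9 (-4) (-9) 226185599513652101121 (by decide +kernel)) <|
  AllL.cons (i := 11) (j := 18) (k := 21) (OkB.mk ⟨12, 14, 14, 63, 72, 103, 15⟩ ⟨7, 8, 8, 52, 82, 103, 7⟩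
    12 2 3 10 (-5) (-10) 276783705841586929665 (by decide +kernel)) <|
  AllL.cons (i := 11) (j := 18) (k := 22) (OkB.mk ⟨12, 13, 15, 63, 72, 103, 15⟩ ⟨7, 8, 8, 52, 82, 103, 7⟩
    13 4 3 12 (-6) (-10) 249894458216144699393 (by decide +kernel)) <|
  AllL.cons (i := 11) (j := 19) (k := 19) (OkB.mk ⟨13, 14, 14, 63, 72, 103, 15⟩ ⟨7, 8, 9, 52, 82, 103, 7⟩
    12 (-2) 2 9 (-4) (-9) 276722698064530243585 (by decide +kernel)) <|
  AllL.cons (i := 11) (j := 19) (k := 20) (OkB.mk ⟨12, 15, 15, 63, 72, 103, 15⟩ ⟨7, 8, 9, 52, 82, 103, 7⟩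
    12 0 2 9 (-4) (-9) 318113668706378711041 (by decide +kernel)) <|
  AllL.cons (i := 11) (j := 19) (k := 21) (OkB.mk ⟨13, 14, 14, 63, 72, 103, 15⟩ ⟨7, 8, 9, 52, 82, 103, 7⟩
    13 2 2 10 (-5) (-9) 297823006112054509569 (by decide +kernel)) <|
  AllL.cons (i := 11) (j := 19) (k := 22) (OkB.mk ⟨12, 14, 14, 63, 72, 103, 15⟩ ⟨7, 8, 8, 52, 82, 103, 7⟩
    13 3 2 11 (-6) (-10) 284119208716968919041 (by decide +kernel)) <|
  AllL.cons (i := 11) (j := 20) (k := 20) (OkB.mk ⟨12, 15, 16, 63, 72, 103, 15⟩ ⟨7, 9, 9, 52, 82, 103, 7⟩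
    12 (-1) 1 8 (-4) (-9) 334270637209169166337 (by decide +kernel)) <|
  AllL.cons (i := 11) (j := 20) (k := 21) (OkB.mk ⟨12, 15, 15, 63, 72, 103, 15⟩ ⟨7, 9, 9, 52, 82, 103, 7⟩
    13 1 1 9 (-5) (-9) 334003563910637027329 (by decide +kernel)) <|
  AllL.cons (i := 11) (j := 20) (k := 22) (OkB.mk ⟨12, 14, 15, 63, 72, 103, 15⟩ ⟨7, 8, 9, 52, 82, 103, 7⟩
    13 3 1 11 (-5) (-10) 309769145247137267713 (by decide +kernel)) <|
  AllL.cons (i := 11) (j := 21) (k := 21) (OkB.mk ⟨12, 15, 15, 63, 72, 103, 15⟩ ⟨7, 9, 9, 52, 82, 103, 7⟩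
    13 0 0 9 (-5) (-10) 327764477125481988097 (by decide +kernel)) <|
  AllL.cons (i := 11) (j := 21) (k := 22) (OkB.mk ⟨12, 14, 16, 63, 72, 103, 15⟩ ⟨7, 8, 9, 52, 82, 103, 7⟩
    14 2 (-1) 10 (-6) (-10) 345266621826237202433 (by decide +kernel)) <|
  AllL.cons (i := 11) (j := 22) (k := 22) (OkB.mk ⟨12, 14, 15, 63, 72, 103, 15⟩ ⟨7, 8, 9, 52, 82, 103, 7⟩
    14 1 (-2) 10 (-6) (-12) 370662492830185816065 (by decide +kernel)) <|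
  AllL.cons (i := 12) (j := 12) (k := 12) (OkB.mk ⟨14, 15, 15, 63, 72, 103, 16⟩ ⟨7, 8, 8, 52, 82, 103, 7⟩
    10 (-7) 5 12 5 (-13) 84258639825625677825 (by decide +kernel)) <|
  AllL.cons (i := 12) (j := 12) (k := 13) (OkB.mk ⟨14, 14, 16, 63, 72, 103, 16⟩ ⟨7, 8, 8, 52, 82, 103, 7⟩
    10 (-6) 5 11 4 (-12) 84209852433116954625 (by decide +kernel)) <|
  AllL.cons (i := 12) (j := 12) (k := 14) (OkB.mk ⟨14, 14, 14, 63, 72, 103, 17⟩ ⟨7, 7, 8, 52, 82, 103, 7⟩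
    9 (-5) 5 11 4 (-12) 87578554712555782145 (by decide +kernel)) <|
  AllL.cons (i := 12) (j := 12) (k := 15) (OkB.mk ⟨14, 13, 14, 63, 72, 103, 17⟩ ⟨7, 7, 8, 52, 82, 103, 7⟩
    9 (-4) 5 11 3 (-11) 105682988243506692097 (by decide +kernel)) <|
  AllL.cons (i := 12) (j := 12) (k := 16) (OkB.mk ⟨14, 13, 14, 63, 72, 103, 17⟩ ⟨7, 7, 8, 52, 82, 103, 7⟩
    9 (-3) 5 11 2 (-11) 120433079254316482561 (by decide +kernel)) <|
  AllL.cons (i := 12) (j := 12) (k := 17) (OkB.mk ⟨14, 13, 15, 63, 72, 103, 17⟩ ⟨7, 7, 8, 52, 82, 103, 7⟩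
    9 (-2) 6 11 1 (-11) 121153723776733544449 (by decide +kernel)) <|
  AllL.cons (i := 12) (j := 12) (k := 18) (OkB.mk ⟨14, 14, 14, 63, 72, 103, 17⟩ ⟨7, 7, 8, 52, 82, 103, 7⟩
    9 0 6 11 1 (-11) 109517260030029594625 (by decide +kernel)) <|
  AllL.cons (i := 12) (j := 12) (k := 19) (OkB.mk ⟨14, 14, 14, 63, 72, 103, 16⟩ ⟨7, 7, 8, 52, 82, 103, 7⟩
    10 1 7 12 (-1) (-12) 121510854224406118401 (by decide +kernel)) <|
  AllL.cons (i := 12) (j := 12) (k := 20) (OkB.mk ⟨14, 13, 15, 63, 72, 103, 16⟩ ⟨7, 7, 8, 52, 82, 103, 7⟩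
    10 3 7 13 (-1) (-12) 125323937184911196161 (by decide +kernel)) <|
  AllL.cons (i := 12) (j := 12) (k := 21) (OkB.mk ⟨14, 13, 14, 63, 72, 103, 16⟩ ⟨7, 7, 8, 52, 82, 103, 7⟩
    10 4 8 14 (-3) (-13) 122226218891986599937 (by decide +kernel)) <|
  AllL.cons (i := 12) (j := 12) (k := 22) (OkB.mk ⟨14, 12, 15, 63, 72, 103, 16⟩ ⟨7, 7, 8, 52, 82, 103, 7⟩
    10 6 8 16 (-3) (-14) 131205848854733783041 (by decide +kernel)) <|
  AllL.cons (i := 12) (j := 13) (k := 13) (OkB.mk ⟨14, 14, 14, 63, 72, 103, 17⟩ ⟨7, 7, 9, 52, 82, 103, 7⟩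
    9 (-6) 4 11 3 (-11) 86896479821090521089 (by decide +kernel)) <|
  AllL.cons (i := 12) (j := 13) (k := 14) (OkB.mk ⟨14, 14, 14, 63, 72, 103, 17⟩ ⟨7, 7, 8, 52, 82, 103, 7⟩
    9 (-5) 4 10 3 (-11) 78452936268796919809 (by decide +kernel)) <|
  AllL.nil

end Pool.Agent.MP_48470b_gt.Run
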