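import Pool.Agent.MP_48470b_gt.Run.OkB
import Pool.Agent.MP_48470b_gt.Run.B86

/-! Runs of the tests. -/

namespace Pool.Agent.MP_48470b_gt.Run

/-- the boxes of this part -/
def b87l : List (Nat × Nat × Nat) :=
  [(12, 13, 15), (12, 13, 16), (12, 13, 17), (12, 13, 18), (12, 13, 19), (12, 13, 20), (12, 13, 21), (12, 13, 22), (12, 14, 14), (12, 14, 15), (12, 14, 16), (12, 14, 17), (12, 14, 18), (12, 14, 19), (12, 14, 20), (12, 14, 21), (12, 14, 22), (12, 15, 15), (12, 15, 16), (12, 15, 17), (12, 15, 18), (12, 15, 19), (12, 15, 20), (12, 15, 21), (12, 15, 22), (12, 16, 16), (12, 16, 17), (12, 16, 18), (12, 16, 19), (12, 16, 20), (12, 16, 21), (12, 16, 22), (12, 17, 17)]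

theorem b87 : AllL OkB b87l :=
  AllL.cons (i := 12) (j := 13) (k := 15) (OkB.mk ⟨14, 13, 14, 63, 72, 103, 17⟩ ⟨7, 7, 8, 52, 82, 103, 7⟩
    9 (-4) 5 10 2 (-11) 109917737074359795713 (by decide +kernel)) <|
  AllL.cons (i := 12) (j := 13) (k := 16) (OkB.mk ⟨14, 13, 14, 63, 72, 103, 17⟩ ⟨7, 7, 8, 52, 82, 103, 7⟩
    9 (-3) 5 10 1 (-11) 128546990732431327233 (by decide +kernel)) <|
  AllL.cons (i := 12) (j := 13) (k := 17) (OkB.mk ⟨14, 13, 15, 63, 72, 103, 16⟩ ⟨8, 7, 8, 52, 82, 103, 7⟩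
    9 (-2) 5 11 0 (-11) 140338215688547074049 (by decide +kernel)) <|
  AllL.cons (i := 12) (j := 13) (k := 18) (OkB.mk ⟨14, 14, 14, 63, 72, 103, 16⟩ ⟨8, 7, 8, 52, 82, 103, 7⟩
    9 (-1) 6 11 (-1) (-11) 112458255722237394945 (by decide +kernel)) <|
  AllL.cons (i := 12) (j := 13) (k := 19) (OkB.mk ⟨14, 14, 14, 63, 72, 103, 16⟩ ⟨8, 7, 8, 52, 82, 103, 7⟩
    10 1 6 11 (-1) (-11) 123424111384242159617 (by decide +kernel)) <|
  AllL.cons (i := 12) (j := 13) (k := 20) (OkB.mk ⟨14, 13, 15, 63, 72, 103, 16⟩ ⟨8, 7, 8, 52, 82, 103, 7⟩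
    10 2 7 12 (-3) (-12) 137710239137017102337 (by decide +kernel)) <|
  AllL.cons (i := 12) (j := 13) (k := 21) (OkB.mk ⟨14, 13, 14, 63, 72, 103, 16⟩ ⟨7, 7, 8, 52, 82, 103, 7⟩
    10 4 7 14 (-3) (-12) 134724459099259404289 (by decide +kernel)) <|
  AllL.cons (i := 12) (j := 13) (k := 22) (OkB.mk ⟨14, 12, 15, 63, 72, 103, 16⟩ ⟨7, 7, 8, 52, 82, 103, 7⟩
    10 5 7 16 (-5) (-13) 145445469189799149569 (by decide +kernel)) <|
  AllL.cons (i := 12) (j := 14) (k := 14) (OkB.mk ⟨14, 13, 14, 63, 72, 103, 17⟩ ⟨7, 7, 8, 52, 82, 103, 7⟩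
    9 (-5) 4 10 2 (-10) 103069046408149467137 (by decide +kernel)) <|
  AllL.cons (i := 12) (j := 14) (k := 15) (OkB.mk ⟨13, 14, 14, 63, 72, 103, 16⟩ ⟨7, 7, 8, 52, 82, 103, 7⟩
    9 (-4) 4 10 1 (-10) 112030631186061590529 (by decide +kernel)) <|
  AllL.cons (i := 12) (j := 14) (k := 16) (OkB.mk ⟨13, 14, 14, 63, 72, 103, 16⟩ ⟨7, 7, 8, 52, 82, 103, 7⟩
    9 (-3) 4 10 0 (-10) 111498306204886630401 (by decide +kernel)) <|
  AllL.cons (i := 12) (j := 14) (k := 17) (OkB.mk ⟨13, 14, 14, 63, 72, 103, 16⟩ ⟨8, 7, 8, 52, 82, 103, 7⟩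
    9 (-2) 5 10 0 (-10) 128437042868188610561 (by decide +kernel)) <|
  AllL.cons (i := 12) (j := 14) (k := 18) (OkB.mk ⟨13, 14, 14, 63, 72, 103, 16⟩ ⟨7, 8, 8, 52, 82, 103, 7⟩
    9 (-1) 5 10 (-1) (-10) 143891723195187724289 (by decide +kernel)) <|
  AllL.cons (i := 12) (j := 14) (k := 19) (OkB.mk ⟨14, 14, 14, 63, 72, 103, 16⟩ ⟨8, 8, 7, 52, 82, 103, 7⟩
    10 1 6 11 (-2) (-10) 124190931684174069761 (by decide +kernel)) <|
  AllL.cons (i := 12) (j := 14) (k := 20) (OkB.mk ⟨14, 13, 14, 63, 72, 103, 16⟩ ⟨8, 7, 8, 52, 82, 103, 7⟩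
    10 2 6 12 (-3) (-11) 167408712858025852929 (by decide +kernel)) <|
  AllL.cons (i := 12) (j := 14) (k := 21) (OkB.mk ⟨14, 13, 14, 63, 72, 103, 16⟩ ⟨7, 7, 8, 52, 82, 103, 7⟩
    10 4 6 13 (-4) (-12) 138180228543405883393 (by decide +kernel)) <|
  AllL.cons (i := 12) (j := 14) (k := 22) (OkB.mk ⟨14, 12, 14, 63, 72, 103, 16⟩ ⟨7, 8, 7, 52, 82, 103, 7⟩
    11 5 6 15 (-5) (-12) 169762378025978036225 (by decide +kernel)) <|
  AllL.cons (i := 12) (j := 15) (k := 15) (OkB.mk ⟨13, 14, 14, 63, 72, 103, 16⟩ ⟨7, 7, 8, 52, 82, 103, 7⟩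
    9 (-4) 4 10 0 (-10) 107953665572329226241 (by decide +kernel)) <|
  AllL.cons (i := 12) (j := 15) (k := 16) (OkB.mk ⟨13, 14, 13, 63, 72, 103, 16⟩ ⟨7, 7, 8, 52, 82, 103, 7⟩
    9 (-3) 4 10 0 (-10) 149666880944607330305 (by decide +kernel)) <|
  AllL.cons (i := 12) (j := 15) (k := 17) (OkB.mk ⟨13, 14, 13, 63, 72, 103, 16⟩ ⟨8, 8, 7, 52, 82, 103, 7⟩
    9 (-2) 4 10 (-1) (-9) 152848882576237002753 (by decide +kernel)) <|
  AllL.cons (i := 12) (j := 15) (k := 18) (OkB.mk ⟨13, 14, 13, 63, 72, 103, 16⟩ ⟨7, 8, 8, 52, 82, 103, 7⟩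
    9 (-1) 5 10 (-2) (-10) 166915455724009029633 (by decide +kernel)) <|
  AllL.cons (i := 12) (j := 15) (k := 19) (OkB.mk ⟨13, 14, 14, 63, 72, 103, 16⟩ ⟨8, 8, 7, 52, 82, 103, 7⟩
    10 0 5 10 (-3) (-10) 158656251480864980993 (by decide +kernel)) <|
  AllL.cons (i := 12) (j := 15) (k := 20) (OkB.mk ⟨13, 14, 14, 63, 72, 103, 16⟩ ⟨7, 8, 8, 52, 82, 103, 7⟩
    10 2 5 11 (-3) (-10) 160627966787731849217 (by decide +kernel)) <|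
  AllL.cons (i := 12) (j := 15) (k := 21) (OkB.mk ⟨13, 13, 14, 63, 72, 103, 16⟩ ⟨7, 8, 8, 52, 82, 103, 7⟩
    10 3 5 12 (-5) (-11) 172029377763283566593 (by decide +kernel)) <|
  AllL.cons (i := 12) (j := 15) (k := 22) (OkB.mk ⟨14, 12, 14, 63, 72, 103, 16⟩ ⟨7, 8, 8, 52, 82, 103, 7⟩
    11 5 5 14 (-5) (-11) 165402408839494500353 (by decide +kernel)) <|
  AllL.cons (i := 12) (j := 16) (k := 16) (OkB.mk ⟨13, 14, 14, 63, 72, 103, 16⟩ ⟨7, 8, 8, 52, 82, 103, 7⟩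
    9 (-3) 3 9 (-1) (-9) 129804819115345444865 (by decide +kernel)) <|
  AllL.cons (i := 12) (j := 16) (k := 17) (OkB.mk ⟨13, 14, 14, 63, 72, 103, 16⟩ ⟨7, 8, 8, 52, 82, 103, 7⟩
    9 (-2) 4 9 (-2) (-9) 144975665051119648769 (by decide +kernel)) <|
  AllL.cons (i := 12) (j := 16) (k := 18) (OkB.mk ⟨13, 15, 13, 63, 72, 103, 16⟩ ⟨7, 8, 8, 52, 82, 103, 7⟩
    9 (-1) 4 10 (-2) (-9) 192383090340074094593 (by decide +kernel)) <|
  AllL.cons (i := 12) (j := 16) (k := 19) (OkB.mk ⟨13, 14, 13, 63, 72, 103, 16⟩ ⟨8, 8, 8, 52, 82, 103, 7⟩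
    9 0 4 10 (-3) (-10) 201289490079632326657 (by decide +kernel)) <|
  AllL.cons (i := 12) (j := 16) (k := 20) (OkB.mk ⟨13, 14, 13, 63, 72, 103, 15⟩ ⟨8, 8, 7, 52, 82, 103, 7⟩
    10 2 4 10 (-3) (-10) 193898842710387720193 (by decide +kernel)) <|
  AllL.cons (i := 12) (j := 16) (k := 21) (OkB.mk ⟨13, 13, 14, 63, 72, 103, 15⟩ ⟨7, 8, 8, 52, 82, 103, 7⟩
    10 3 4 12 (-5) (-10) 173810018015330172929 (by decide +kernel)) <|
  AllL.cons (i := 12) (j := 16) (k := 22) (OkB.mk ⟨13, 12, 14, 63, 72, 103, 15⟩ ⟨7, 8, 8, 52, 82, 103, 7⟩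
    11 5 4 13 (-5) (-11) 197396565532520480769 (by decide +kernel)) <|
  AllL.cons (i := 12) (j := 17) (k := 17) (OkB.mk ⟨13, 14, 14, 63, 72, 103, 16⟩ ⟨7, 8, 8, 52, 82, 103, 7⟩
    9 (-2) 3 9 (-2) (-9) 172250684989821157377 (by decide +kernel)) <|
  AllL.nil

end Pool.Agent.MP_48470b_gt.Run
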