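import Pool.Agent.MP_48470b_gt.Run.OkB
import Pool.Agent.MP_48470b_gt.Run.F44

/-! Runs of the tests. -/

namespace Pool.Agent.MP_48470b_gt.Run

/-- the boxes of this part -/
def b88l : List (Nat × Nat × Nat) :=
  [(12, 17, 18), (12, 17, 19), (12, 17, 20), (12, 17, 21), (12, 17, 22), (12, 18, 18), (12, 18, 19), (12, 18, 20), (12, 18, 21), (12, 18, 22), (12, 19, 19), (12, 19, 20), (12, 19, 21), (12, 19, 22), (12, 20, 20), (12, 20, 21), (12, 20, 22), (12, 21, 21), (12, 21, 22), (12, 22, 22), (13, 13, 13), (13, 13, 14), (13, 13, 15), (13, 13, 16), (13, 13, 17), (13, 13, 18), (13, 13, 19), (13, 13, 20), (13, 13, 21), (13, 13, 22), (13, 14, 14)]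

theorem b88 : AllL OkB b88l :=
  AllL.cons (i := 12) (j := 17) (k := 18) (OkB.mk ⟨13, 14, 14, 63, 72, 103, 15⟩ ⟨7, 9, 8, 52, 82, 103, 7⟩
    9 (-1) 3 9 (-3) (-9) 194277574850694348801 (by decide +kernel)) <|
  AllL.cons (i := 12) (j := 17) (k := 19) (OkB.mk ⟨13, 14, 14, 63, 72, 103, 15⟩ ⟨7, 9, 8, 52, 82, 103, 7⟩
    9 0 3 9 (-3) (-9) 202398272377136873473 (by decide +kernel)) <|
  AllL.cons (i := 12) (j := 17) (k := 20) (OkB.mk ⟨13, 15, 13, 63, 72, 103, 15⟩ ⟨7, 9, 8, 52, 82, 103, 7⟩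
    10 1 4 10 (-4) (-10) 234554575011983654913 (by decide +kernel)) <|
  AllL.cons (i := 12) (j := 17) (k := 21) (OkB.mk ⟨13, 13, 14, 63, 72, 103, 15⟩ ⟨7, 8, 8, 52, 82, 103, 7⟩
    10 3 3 11 (-5) (-10) 213156080922835025921 (by decide +kernel)) <|
  AllL.cons (i := 12) (j := 17) (k := 22) (OkB.mk ⟨13, 13, 13, 63, 72, 103, 15⟩ ⟨7, 8, 8, 52, 82, 103, 7⟩
    11 4 3 12 (-6) (-10) 180839680461452083201 (by decide +kernel)) <|
  AllL.cons (i := 12) (j := 18) (k := 18) (OkB.mk ⟨13, 14, 14, 63, 72, 103, 15⟩ ⟨7, 8, 9, 52, 82, 103, 7⟩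
    9 (-2) 3 9 (-3) (-9) 223287613142910107649 (by decide +kernel)) <|
  AllL.cons (i := 12) (j := 18) (k := 19) (OkB.mk ⟨13, 14, 14, 63, 72, 103, 15⟩ ⟨8, 8, 8, 52, 82, 103, 7⟩
    9 (-1) 3 9 (-4) (-9) 250925509439611994113 (by decide +kernel)) <|
  AllL.cons (i := 12) (j := 18) (k := 20) (OkB.mk ⟨13, 14, 14, 63, 72, 103, 15⟩ ⟨8, 8, 8, 52, 82, 103, 7⟩
    10 1 3 9 (-4) (-9) 257532430555574960129 (by decide +kernel)) <|
  AllL.cons (i := 12) (j := 18) (k := 21) (OkB.mk ⟨13, 14, 14, 63, 72, 103, 15⟩ ⟨8, 8, 8, 52, 82, 103, 7⟩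
    10 2 3 10 (-5) (-10) 203346895138015150081 (by decide +kernel)) <|
  AllL.cons (i := 12) (j := 18) (k := 22) (OkB.mk ⟨13, 13, 14, 63, 72, 103, 15⟩ ⟨7, 8, 8, 52, 82, 103, 7⟩
    11 4 2 12 (-6) (-10) 197458664987184594945 (by decide +kernel)) <|
  AllL.cons (i := 12) (j := 19) (k := 19) (OkB.mk ⟨13, 14, 15, 63, 72, 103, 15⟩ ⟨7, 9, 9, 52, 82, 103, 7⟩
    10 (-1) 2 9 (-4) (-9) 270261803775046975489 (by decide +kernel)) <|
  AllL.cons (i := 12) (j := 19) (k := 20) (OkB.mk ⟨13, 14, 15, 63, 72, 103, 15⟩ ⟨7, 9, 9, 52, 82, 103, 7⟩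
    10 0 2 9 (-4) (-9) 306835323318544891905 (by decide +kernel)) <|
  AllL.cons (i := 12) (j := 19) (k := 21) (OkB.mk ⟨13, 14, 14, 63, 72, 103, 15⟩ ⟨7, 9, 9, 52, 82, 103, 7⟩
    10 2 2 10 (-5) (-9) 289134479961659277313 (by decide +kernel)) <|
  AllL.cons (i := 12) (j := 19) (k := 22) (OkB.mk ⟨13, 13, 14, 63, 72, 103, 15⟩ ⟨7, 9, 8, 52, 82, 103, 7⟩
    11 3 2 11 (-6) (-10) 287423763838775853057 (by decide +kernel)) <|
  AllL.cons (i := 12) (j := 20) (k := 20) (OkB.mk ⟨13, 15, 15, 63, 72, 103, 15⟩ ⟨7, 9, 9, 52, 82, 103, 7⟩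
    10 0 0 8 (-4) (-9) 257127871574326640641 (by decide +kernel)) <|
  AllL.cons (i := 12) (j := 20) (k := 21) (OkB.mk ⟨13, 14, 15, 63, 72, 103, 15⟩ ⟨7, 9, 9, 52, 82, 103, 7⟩
    11 1 1 9 (-5) (-9) 335526127755484725249 (by decide +kernel)) <|
  AllL.cons (i := 12) (j := 20) (k := 22) (OkB.mk ⟨13, 14, 15, 63, 72, 103, 15⟩ ⟨7, 9, 9, 52, 82, 103, 7⟩
    11 3 0 11 (-6) (-10) 240988228076255051777 (by decide +kernel)) <|
  AllL.cons (i := 12) (j := 21) (k := 21) (OkB.mk ⟨13, 14, 16, 63, 72, 103, 15⟩ ⟨7, 9, 9, 52, 82, 103, 7⟩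
    11 0 (-1) 9 (-5) (-10) 361644143565466501121 (by decide +kernel)) <|
  AllL.cons (i := 12) (j := 21) (k := 22) (OkB.mk ⟨13, 14, 15, 63, 72, 103, 15⟩ ⟨7, 9, 9, 52, 82, 103, 7⟩
    11 2 (-1) 10 (-6) (-10) 285336765424931438593 (by decide +kernel)) <|
  AllL.cons (i := 12) (j := 22) (k := 22) (OkB.mk ⟨13, 14, 14, 63, 72, 103, 15⟩ ⟨7, 9, 8, 52, 82, 103, 7⟩
    12 1 (-2) 10 (-6) (-12) 354678032753991090177 (by decide +kernel)) <|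
  AllL.cons (i := 13) (j := 13) (k := 13) (OkB.mk ⟨14, 14, 14, 63, 72, 103, 17⟩ ⟨7, 8, 8, 52, 82, 103, 7⟩
    9 (-5) 4 10 3 (-11) 77482919485543284737 (by decide +kernel)) <|
  AllL.cons (i := 13) (j := 13) (k := 14) (OkB.mk ⟨13, 14, 14, 63, 72, 103, 17⟩ ⟨7, 7, 8, 52, 82, 103, 7⟩
    9 (-4) 4 10 3 (-11) 101488390553642991617 (by decide +kernel)) <|
  AllL.cons (i := 13) (j := 13) (k := 15) (OkB.mk ⟨13, 14, 14, 63, 72, 103, 16⟩ ⟨7, 7, 8, 52, 82, 103, 7⟩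
    9 (-3) 4 10 2 (-10) 99824502493547593729 (by decide +kernel)) <|
  AllL.cons (i := 13) (j := 13) (k := 16) (OkB.mk ⟨13, 14, 14, 63, 72, 103, 16⟩ ⟨7, 7, 8, 52, 82, 103, 7⟩
    9 (-2) 4 10 2 (-10) 111493059610276790273 (by decide +kernel)) <|
  AllL.cons (i := 13) (j := 13) (k := 17) (OkB.mk ⟨13, 14, 14, 63, 72, 103, 16⟩ ⟨7, 8, 8, 52, 82, 103, 7⟩
    9 (-1) 5 10 1 (-10) 133451068915960512513 (by decide +kernel)) <|
  AllL.cons (i := 13) (j := 13) (k := 18) (OkB.mk ⟨13, 14, 15, 63, 72, 103, 16⟩ ⟨7, 8, 8, 52, 82, 103, 7⟩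
    9 0 5 11 0 (-10) 147206215015891730433 (by decide +kernel)) <|
  AllL.cons (i := 13) (j := 13) (k := 19) (OkB.mk ⟨14, 14, 14, 63, 72, 103, 16⟩ ⟨7, 8, 8, 52, 82, 103, 7⟩
    9 1 5 11 (-1) (-11) 124775087231165530113 (by decide +kernel)) <|
  AllL.cons (i := 13) (j := 13) (k := 20) (OkB.mk ⟨14, 13, 14, 63, 72, 103, 16⟩ ⟨7, 8, 8, 52, 82, 103, 7⟩
    9 3 6 12 (-2) (-11) 161890313201363451905 (by decide +kernel)) <|
  AllL.cons (i := 13) (j := 13) (k := 21) (OkB.mk ⟨14, 13, 14, 63, 72, 103, 16⟩ ⟨7, 8, 8, 52, 82, 103, 7⟩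
    10 4 6 14 (-3) (-12) 140211599228027273217 (by decide +kernel)) <|
  AllL.cons (i := 13) (j := 13) (k := 22) (OkB.mk ⟨14, 12, 15, 63, 72, 103, 16⟩ ⟨7, 7, 8, 52, 82, 103, 7⟩
    10 5 6 15 (-5) (-13) 170998628905513910273 (by decide +kernel)) <|
  AllL.cons (i := 13) (j := 14) (k := 14) (OkB.mk ⟨13, 13, 15, 63, 72, 103, 16⟩ ⟨7, 7, 9, 52, 82, 103, 7⟩
    9 (-4) 3 10 2 (-10) 111111410740499578881 (by decide +kernel)) <|
  AllL.nil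

end Pool.Agent.MP_48470b_gt.Run
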