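import Pool.Agent.MP_48470b_gt.Run.OkB
import Pool.Agent.MP_48470b_gt.Run.B88

/-! Runs of the tests. -/

namespace Pool.Agent.MP_48470b_gt.Run

/-- the boxes of this part -/
def b89l : List (Nat × Nat × Nat) :=
  [(13, 14, 15), (13, 14, 16), (13, 14, 17), (13, 14, 18), (13, 14, 19), (13, 14, 20), (13, 14, 21), (13, 14, 22), (13, 15, 15), (13, 15, 16), (13, 15, 17), (13, 15, 18), (13, 15, 19), (13, 15, 20), (13, 15, 21), (13, 15, 22), (13, 16, 16), (13, 16, 17), (13, 16, 18), (13, 16, 19), (13, 16, 20), (13, 16, 21), (13, 16, 22), (13, 17, 17), (13, 17, 18), (13, 17, 19), (13, 17, 20), (13, 17, 21), (13, 17, 22), (13, 18, 18), (13, 18, 19), (13, 18, 20), (13, 18, 21)]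

theorem b89 : AllL OkB b89l :=
  AllL.cons (i := 13) (j := 14) (k := 15) (OkB.mk ⟨13, 14, 13, 63, 72, 103, 16⟩ ⟨7, 7, 8, 52, 82, 103, 7⟩
    9 (-3) 3 9 1 (-10) 122016690596078419969 (by decide +kernel)) <|
  AllL.cons (i := 13) (j := 14) (k := 16) (OkB.mk ⟨13, 14, 13, 63, 72, 103, 16⟩ ⟨8, 7, 8, 52, 82, 103, 7⟩
    9 (-2) 4 9 1 (-9) 140846854715358576641 (by decide +kernel)) <|
  AllL.cons (i := 13) (j := 14) (k := 17) (OkB.mk ⟨13, 14, 13, 63, 72, 103, 16⟩ ⟨7, 8, 8, 52, 82, 103, 7⟩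
    9 (-1) 4 10 0 (-9) 156173767942919421953 (by decide +kernel)) <|
  AllL.cons (i := 13) (j := 14) (k := 18) (OkB.mk ⟨13, 15, 13, 63, 72, 103, 16⟩ ⟨7, 8, 8, 52, 82, 103, 7⟩
    9 0 5 10 (-1) (-10) 164378714036011794433 (by decide +kernel)) <|
  AllL.cons (i := 13) (j := 14) (k := 19) (OkB.mk ⟨13, 14, 14, 63, 72, 103, 16⟩ ⟨7, 8, 8, 52, 82, 103, 7⟩
    9 1 5 11 (-2) (-10) 161763446464509378561 (by decide +kernel)) <|
  AllL.cons (i := 13) (j := 14) (k := 20) (OkB.mk ⟨13, 14, 14, 63, 72, 103, 16⟩ ⟨7, 8, 8, 52, 82, 103, 7⟩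
    9 3 5 11 (-2) (-11) 177714230148812767233 (by decide +kernel)) <|
  AllL.cons (i := 13) (j := 14) (k := 21) (OkB.mk ⟨14, 13, 14, 63, 72, 103, 16⟩ ⟨7, 8, 8, 52, 82, 103, 7⟩
    10 4 5 13 (-4) (-11) 141707925701779259393 (by decide +kernel)) <|
  AllL.cons (i := 13) (j := 14) (k := 22) (OkB.mk ⟨14, 12, 14, 63, 72, 103, 15⟩ ⟨7, 8, 8, 52, 82, 103, 7⟩
    10 5 5 15 (-5) (-12) 182583025141645574145 (by decide +kernel)) <|
  AllL.cons (i := 13) (j := 15) (k := 15) (OkB.mk ⟨13, 14, 14, 63, 72, 103, 16⟩ ⟨7, 8, 8, 52, 82, 103, 7⟩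
    8 (-3) 3 9 1 (-9) 108732328024809144321 (by decide +kernel)) <|
  AllL.cons (i := 13) (j := 15) (k := 16) (OkB.mk ⟨13, 15, 13, 63, 72, 103, 16⟩ ⟨7, 8, 8, 52, 82, 103, 7⟩
    8 (-2) 3 9 0 (-9) 166103972437123137537 (by decide +kernel)) <|
  AllL.cons (i := 13) (j := 15) (k := 17) (OkB.mk ⟨13, 14, 13, 63, 72, 103, 16⟩ ⟨7, 8, 8, 52, 82, 103, 7⟩
    8 (-1) 4 9 (-1) (-9) 179989500000265568257 (by decide +kernel)) <|
  AllL.cons (i := 13) (j := 15) (k := 18) (OkB.mk ⟨13, 14, 13, 63, 72, 103, 16⟩ ⟨7, 8, 8, 52, 82, 103, 7⟩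
    8 0 4 10 (-1) (-9) 180714521128716992513 (by decide +kernel)) <|
  AllL.cons (i := 13) (j := 15) (k := 19) (OkB.mk ⟨13, 14, 13, 63, 72, 103, 16⟩ ⟨7, 8, 8, 52, 82, 103, 7⟩
    9 1 4 10 (-2) (-10) 191075409137883938817 (by decide +kernel)) <|
  AllL.cons (i := 13) (j := 15) (k := 20) (OkB.mk ⟨13, 14, 13, 63, 72, 103, 15⟩ ⟨7, 8, 8, 52, 82, 103, 7⟩
    9 2 4 11 (-3) (-10) 189745983169109164033 (by decide +kernel)) <|
  AllL.cons (i := 13) (j := 15) (k := 21) (OkB.mk ⟨13, 13, 14, 63, 72, 103, 15⟩ ⟨7, 8, 8, 52, 82, 103, 7⟩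
    10 4 4 12 (-4) (-11) 177122459796604190721 (by decide +kernel)) <|
  AllL.cons (i := 13) (j := 15) (k := 22) (OkB.mk ⟨14, 12, 14, 63, 72, 103, 15⟩ ⟨7, 8, 8, 52, 82, 103, 7⟩
    10 5 4 14 (-5) (-11) 174046775991578132481 (by decide +kernel)) <|
  AllL.cons (i := 13) (j := 16) (k := 16) (OkB.mk ⟨13, 14, 14, 63, 72, 103, 16⟩ ⟨7, 8, 8, 52, 82, 103, 7⟩
    8 (-2) 3 9 (-1) (-9) 154066996599155851265 (by decide +kernel)) <|
  AllL.cons (i := 13) (j := 16) (k := 17) (OkB.mk ⟨13, 14, 14, 63, 72, 103, 16⟩ ⟨7, 8, 8, 52, 82, 103, 7⟩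
    8 (-2) 3 9 (-2) (-9) 165087198097264607233 (by decide +kernel)) <|
  AllL.cons (i := 13) (j := 16) (k := 18) (OkB.mk ⟨13, 14, 14, 63, 72, 103, 15⟩ ⟨8, 8, 8, 52, 82, 103, 7⟩
    8 (-1) 4 9 (-2) (-9) 192896116280841469953 (by decide +kernel)) <|
  AllL.cons (i := 13) (j := 16) (k := 19) (OkB.mk ⟨13, 14, 13, 63, 72, 103, 15⟩ ⟨8, 8, 8, 52, 82, 103, 7⟩
    9 1 4 10 (-3) (-9) 234604053310111481857 (by decide +kernel)) <|
  AllL.cons (i := 13) (j := 16) (k := 20) (OkB.mk ⟨13, 14, 13, 63, 72, 103, 15⟩ ⟨8, 8, 8, 52, 82, 103, 7⟩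
    9 2 4 10 (-4) (-10) 196127670427633844225 (by decide +kernel)) <|
  AllL.cons (i := 13) (j := 16) (k := 21) (OkB.mk ⟨13, 13, 13, 63, 72, 103, 15⟩ ⟨7, 8, 8, 52, 82, 103, 7⟩
    9 3 4 12 (-5) (-10) 207175332503524212737 (by decide +kernel)) <|
  AllL.cons (i := 13) (j := 16) (k := 22) (OkB.mk ⟨13, 12, 14, 63, 72, 103, 15⟩ ⟨7, 8, 8, 52, 82, 103, 7⟩
    10 5 3 13 (-5) (-11) 206301345416573091841 (by decide +kernel)) <|
  AllL.cons (i := 13) (j := 17) (k := 17) (OkB.mk ⟨13, 14, 14, 63, 72, 103, 15⟩ ⟨7, 8, 8, 52, 82, 103, 7⟩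
    8 (-2) 2 9 (-2) (-9) 205738891617773813761 (by decide +kernel)) <|
  AllL.cons (i := 13) (j := 17) (k := 18) (OkB.mk ⟨13, 14, 14, 63, 72, 103, 15⟩ ⟨8, 8, 8, 52, 82, 103, 7⟩
    8 (-1) 3 9 (-3) (-9) 236129349441354203137 (by decide +kernel)) <|
  AllL.cons (i := 13) (j := 17) (k := 19) (OkB.mk ⟨13, 14, 14, 63, 72, 103, 15⟩ ⟨8, 8, 8, 52, 82, 103, 7⟩
    8 0 3 9 (-3) (-9) 234137672913201922049 (by decide +kernel)) <|
  AllL.cons (i := 13) (j := 17) (k := 20) (OkB.mk ⟨13, 15, 13, 63, 72, 103, 15⟩ ⟨8, 8, 8, 52, 82, 103, 7⟩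
    9 2 3 10 (-4) (-9) 246079260207584641025 (by decide +kernel)) <|
  AllL.cons (i := 13) (j := 17) (k := 21) (OkB.mk ⟨13, 13, 13, 63, 72, 103, 15⟩ ⟨7, 8, 8, 52, 82, 103, 7⟩
    9 3 3 11 (-5) (-10) 250928445547975016449 (by decide +kernel)) <|
  AllL.cons (i := 13) (j := 17) (k := 22) (OkB.mk ⟨13, 13, 13, 63, 72, 103, 15⟩ ⟨7, 8, 8, 52, 82, 103, 7⟩
    10 4 3 13 (-6) (-10) 180819134162541740033 (by decide +kernel)) <|
  AllL.cons (i := 13) (j := 18) (k := 18) (OkB.mk ⟨13, 14, 14, 63, 72, 103, 15⟩ ⟨7, 8, 9, 52, 82, 103, 7⟩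
    8 (-1) 2 9 (-3) (-9) 256363644335129886721 (by decide +kernel)) <|
  AllL.cons (i := 13) (j := 18) (k := 19) (OkB.mk ⟨13, 14, 14, 63, 72, 103, 15⟩ ⟨8, 8, 8, 52, 82, 103, 7⟩
    8 0 2 9 (-4) (-9) 286438199548788604929 (by decide +kernel)) <|
  AllL.cons (i := 13) (j := 18) (k := 20) (OkB.mk ⟨13, 14, 14, 63, 72, 103, 15⟩ ⟨8, 8, 8, 52, 82, 103, 7⟩
    9 1 2 9 (-4) (-9) 264102414540475465729 (by decide +kernel)) <|
  AllL.cons (i := 13) (j := 18) (k := 21) (OkB.mk ⟨13, 14, 14, 63, 72, 103, 15⟩ ⟨8, 8, 8, 52, 82, 103, 7⟩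
    9 3 2 10 (-5) (-10) 204652512419441016833 (by decide +kernel)) <|
  AllL.nil

end Pool.Agent.MP_48470b_gt.Run
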