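import Pool.Agent.MP_48470b_gt.Run.OkB
import Pool.Agent.MP_48470b_gt.Run.F4

/-! Runs of the tests. -/

namespace Pool.Agent.MP_48470b_gt.Run

/-- the boxes of this part -/
def b8l : List (Nat × Nat × Nat) :=
  [(0, 6, 12), (0, 6, 13), (0, 6, 14), (0, 6, 15), (0, 6, 16), (0, 6, 17), (0, 6, 18), (0, 6, 19), (0, 6, 20), (0, 6, 21), (0, 6, 22), (0, 7, 7)]

theorem b8 : AllL OkB b8l :=
  AllL.cons (i := 0) (j := 6) (k := 12) (OkB.mk ⟨21, 18, 27, 63, 72, 103, 13⟩ ⟨15, 12, 18, 52, 82, 103, 7⟩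
    21 0 0 37 82 (-26) 97453863202524758017 (by decide +kernel)) <|
  AllL.cons (i := 0) (j := 6) (k := 13) (OkB.mk ⟨21, 17, 25, 63, 72, 103, 13⟩ ⟨14, 11, 17, 52, 82, 103, 7⟩
    22 0 0 45 77 (-19) 95000508338939101185 (by decide +kernel)) <|
  AllL.cons (i := 0) (j := 6) (k := 14) (OkB.mk ⟨21, 16, 24, 63, 72, 103, 13⟩ ⟨13, 10, 17, 52, 82, 103, 7⟩
    23 0 0 58 69 (-14) 98430137856207880193 (by decide +kernel)) <|
  AllL.cons (i := 0) (j := 6) (k := 15) (OkB.mk ⟨21, 15, 24, 63, 72, 103, 13⟩ ⟨13, 10, 15, 52, 82, 103, 7⟩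
    24 0 0 78 52 (-10) 96995237523686948865 (by decide +kernel)) <|
  AllL.cons (i := 0) (j := 6) (k := 16) (OkB.mk ⟨19, 15, 25, 63, 72, 103, 13⟩ ⟨13, 10, 15, 52, 82, 103, 7⟩
    24 0 0 96 17 (-8) 100029454347183063041 (by decide +kernel)) <|
  AllL.cons (i := 0) (j := 6) (k := 17) (OkB.mk ⟨19, 15, 24, 63, 72, 103, 13⟩ ⟨13, 9, 15, 52, 82, 103, 7⟩
    25 0 0 101 (-28) (-8) 95165221502971805697 (by decide +kernel)) <|
  AllL.cons (i := 0) (j := 6) (k := 18) (OkB.mk ⟨19, 15, 24, 63, 72, 103, 13⟩ ⟨13, 10, 15, 52, 82, 103, 7⟩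
    25 0 0 94 (-67) (-10) 97921698803073679361 (by decide +kernel)) <|
  AllL.cons (i := 0) (j := 6) (k := 19) (OkB.mk ⟨19, 15, 24, 63, 72, 103, 13⟩ ⟨13, 10, 15, 52, 82, 103, 7⟩
    26 0 0 85 (-99) (-13) 105512272020864237569 (by decide +kernel)) <|
  AllL.cons (i := 0) (j := 6) (k := 20) (OkB.mk ⟨19, 15, 25, 63, 72, 103, 13⟩ ⟨13, 10, 16, 52, 82, 103, 7⟩
    26 0 0 76 (-128) (-17) 99605930577062002689 (by decide +kernel)) <|
  AllL.cons (i := 0) (j := 6) (k := 21) (OkB.mk ⟨19, 14, 25, 63, 72, 103, 12⟩ ⟨13, 10, 16, 52, 82, 103, 7⟩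
    27 0 0 77 (-167) (-22) 112355206743703158785 (by decide +kernel)) <|
  AllL.cons (i := 0) (j := 6) (k := 22) (OkB.mk ⟨19, 14, 25, 63, 72, 103, 12⟩ ⟨13, 10, 16, 52, 82, 103, 7⟩
    27 0 0 80 (-209) (-27) 117370625322951639041 (by decide +kernel)) <|
  AllL.cons (i := 0) (j := 7) (k := 7) (OkB.mk ⟨21, 24, 24, 63, 72, 103, 14⟩ ⟨13, 15, 15, 52, 82, 103, 7⟩
    18 0 0 24 72 (-76) 142479482697803628545 (by decide +kernel)) <|
  AllL.nil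

end Pool.Agent.MP_48470b_gt.Run
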