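import Pool.Agent.MP_48470b_gt.Run.OkB
import Pool.Agent.MP_48470b_gt.Run.B8

/-! Runs of the tests. -/

namespace Pool.Agent.MP_48470b_gt.Run

/-- the boxes of this part -/
def b9l : List (Nat × Nat × Nat) :=
  [(0, 7, 8), (0, 7, 9), (0, 7, 10), (0, 7, 11), (0, 7, 12), (0, 7, 13), (0, 7, 14), (0, 7, 15), (0, 7, 16), (0, 7, 17), (0, 7, 18), (0, 7, 19), (0, 7, 20), (0, 7, 21), (0, 7, 22)]

theorem b9 : AllL OkB b9l :=
  AllL.cons (i := 0) (j := 7) (k := 8) (OkB.mk ⟨23, 22, 26, 63, 72, 103, 14⟩ ⟨15, 15, 16, 52, 82, 103, 7⟩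
    19 0 0 22 76 (-63) 127016768101901402113 (by decide +kernel)) <|
  AllL.cons (i := 0) (j := 7) (k := 9) (OkB.mk ⟨21, 22, 26, 63, 72, 103, 14⟩ ⟨15, 15, 16, 52, 82, 103, 7⟩
    20 0 0 21 71 (-48) 106364582648390615041 (by decide +kernel)) <|
  AllL.cons (i := 0) (j := 7) (k := 10) (OkB.mk ⟨21, 19, 25, 63, 72, 103, 14⟩ ⟨13, 15, 16, 52, 82, 103, 7⟩
    21 0 0 22 64 (-34) 89297155158444081153 (by decide +kernel)) <|
  AllL.cons (i := 0) (j := 7) (k := 11) (OkB.mk ⟨21, 17, 23, 63, 72, 103, 14⟩ ⟨13, 11, 15, 52, 82, 103, 7⟩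
    22 0 0 23 56 (-25) 90720501273024528385 (by decide +kernel)) <|
  AllL.cons (i := 0) (j := 7) (k := 12) (OkB.mk ⟨19, 17, 22, 63, 72, 103, 14⟩ ⟨12, 10, 15, 52, 82, 103, 7⟩
    23 0 0 24 46 (-18) 76603754798336966657 (by decide +kernel)) <|
  AllL.cons (i := 0) (j := 7) (k := 13) (OkB.mk ⟨19, 15, 22, 63, 72, 103, 14⟩ ⟨11, 10, 13, 52, 82, 103, 7⟩
    25 0 0 29 42 (-14) 81356143945381314561 (by decide +kernel)) <|
  AllL.cons (i := 0) (j := 7) (k := 14) (OkB.mk ⟨19, 15, 21, 63, 72, 103, 14⟩ ⟨11, 9, 14, 52, 82, 103, 7⟩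
    26 0 0 35 38 (-10) 67102870149800132609 (by decide +kernel)) <|
  AllL.cons (i := 0) (j := 7) (k := 15) (OkB.mk ⟨18, 15, 22, 63, 72, 103, 14⟩ ⟨11, 9, 13, 52, 82, 103, 7⟩
    27 0 0 46 30 (-8) 94669860590894186497 (by decide +kernel)) <|
  AllL.cons (i := 0) (j := 7) (k := 16) (OkB.mk ⟨19, 14, 21, 63, 72, 103, 14⟩ ⟨11, 9, 13, 52, 82, 103, 7⟩
    28 0 0 57 14 (-7) 75188522667252645889 (by decide +kernel)) <|
  AllL.cons (i := 0) (j := 7) (k := 17) (OkB.mk ⟨18, 14, 21, 63, 72, 103, 14⟩ ⟨11, 9, 13, 52, 82, 103, 7⟩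
    29 0 0 63 (-11) (-6) 85224457573972836353 (by decide +kernel)) <|
  AllL.cons (i := 0) (j := 7) (k := 18) (OkB.mk ⟨18, 14, 21, 63, 72, 103, 14⟩ ⟨11, 9, 13, 52, 82, 103, 7⟩
    29 0 0 61 (-37) (-7) 87528197767198408705 (by decide +kernel)) <|
  AllL.cons (i := 0) (j := 7) (k := 19) (OkB.mk ⟨18, 14, 21, 63, 72, 103, 13⟩ ⟨11, 9, 13, 52, 82, 103, 7⟩
    30 0 0 55 (-57) (-9) 88962870088495529985 (by decide +kernel)) <|
  AllL.cons (i := 0) (j := 7) (k := 20) (OkB.mk ⟨18, 14, 21, 63, 72, 103, 13⟩ ⟨11, 9, 13, 52, 82, 103, 7⟩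
    31 0 0 49 (-75) (-12) 89748081781986295809 (by decide +kernel)) <|
  AllL.cons (i := 0) (j := 7) (k := 21) (OkB.mk ⟨17, 14, 22, 63, 72, 103, 13⟩ ⟨11, 9, 13, 52, 82, 103, 7⟩
    31 0 0 49 (-99) (-16) 85503485037800062977 (by decide +kernel)) <|
  AllL.cons (i := 0) (j := 7) (k := 22) (OkB.mk ⟨18, 13, 21, 63, 72, 103, 13⟩ ⟨11, 9, 13, 52, 82, 103, 7⟩
    31 0 0 51 (-126) (-19) 105519194271194808321 (by decide +kernel)) <|
  AllL.nil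

end Pool.Agent.MP_48470b_gt.Run
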