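import Pool.Agent.MP_48470b_gt.Run.OkF

/-! Runs of the tests. -/

namespace Pool.Agent.MP_48470b_gt.Run

/-- the boxes of this part -/
def f45l : List (Nat × Nat × Nat) :=
  [(13, 20, 20), (13, 20, 21), (13, 20, 22), (13, 21, 21), (13, 21, 22), (13, 22, 22), (14, 14, 14), (14, 14, 15), (14, 14, 16), (14, 14, 17), (14, 14, 18), (14, 14, 19), (14, 14, 20), (14, 14, 21), (14, 14, 22), (14, 15, 15), (14, 15, 16), (14, 15, 17), (14, 15, 18), (14, 15, 19), (14, 15, 20), (14, 15, 21), (14, 15, 22), (14, 16, 16), (14, 16, 17), (14, 16, 18), (14, 16, 19), (14, 16, 20), (14, 16, 21), (14, 16, 22), (14, 17, 17), (14, 17, 18), (14, 17, 19), (14, 17, 20), (14, 17, 21), (14, 17, 22), (14, 18, 18), (14, 18, 19), (14, 18, 20), (14, 18, 21), (14, 18, 22), (14, 19, 19), (14, 19, 20), (14, 19, 21), (14, 19, 22), (14, 20, 20), (14, 20, 21), (14, 20, 22), (14, 21, 21), (14, 21, 22), (14, 22, 22), (15, 15, 15), (15, 15, 16), (15, 15, 17), (15, 15, 18), (15, 15, 19), (15, 15, 20), (15, 15,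 21), (15, 15, 22), (15, 16, 16)]

theorem f45 : AllL OkF f45l :=
  AllL.cons (i := 13) (j := 20) (k := 20) (OkF.mk (by decide +kernel)) <|
  AllL.cons (i := 13) (j := 20) (k := 21) (OkF.mk (by decide +kernel)) <|
  AllL.cons (i := 13) (j := 20) (k := 22) (OkF.mk (by decide +kernel)) <|
  AllL.cons (i := 13) (j := 21) (k := 21) (OkF.mk (by decide +kernel)) <|
  AllL.cons (i := 13) (j := 21) (k := 22) (OkF.mk (by decide +kernel)) <|
  AllL.cons (i := 13) (j := 22) (k := 22) (OkF.mk (by decide +kernel)) <|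
  AllL.cons (i := 14) (j := 14) (k := 14) (OkF.mk (by decide +kernel)) <|
  AllL.cons (i := 14) (j := 14) (k := 15) (OkF.mk (by decide +kernel)) <|
  AllL.cons (i := 14) (j := 14) (k := 16) (OkF.mk (by decide +kernel)) <|
  AllL.cons (i := 14) (j := 14) (k := 17) (OkF.mk (by decide +kernel)) <|
  AllL.cons (i := 14) (j := 14) (k := 18) (OkF.mk (by decide +kernel)) <|
  AllL.cons (i := 14) (j := 14) (k := 19) (OkF.mk (by decide +kernel)) <|
  AllL.cons (i := 14) (j := 14) (k := 20) (OkF.mk (by decide +kernel)) <|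
  AllL.cons (i := 14) (j := 14) (k := 21) (OkF.mk (by decide +kernel)) <|
  AllL.cons (i := 14) (j := 14) (k := 22) (OkF.mk (by decide +kernel)) <|
  AllL.cons (i := 14) (j := 15) (k := 15) (OkF.mk (by decide +kernel)) <|
  AllL.cons (i := 14) (j := 15) (k := 16) (OkF.mk (by decide +kernel)) <|
  AllL.cons (i := 14) (j := 15) (k := 17) (OkF.mk (by decide +kernel)) <|
  AllL.cons (i := 14) (j := 15) (k := 18) (OkF.mk (by decide +kernel)) <|
  AllL.cons (i := 14) (j := 15) (k := 19) (OkF.mk (by decide +kernel)) <|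
  AllL.cons (i := 14) (j := 15) (k := 20) (OkF.mk (by decide +kernel)) <|
  AllL.cons (i := 14) (j := 15) (k := 21) (OkF.mk (by decide +kernel)) <|
  AllL.cons (i := 14) (j := 15) (k := 22) (OkF.mk (by decide +kernel)) <|
  AllL.cons (i := 14) (j := 16) (k := 16) (OkF.mk (by decide +kernel)) <|
  AllL.cons (i := 14) (j := 16) (k := 17) (OkF.mk (by decide +kernel)) <|
  AllL.cons (i := 14) (j := 16) (k := 18) (OkF.mk (by decide +kernel)) <|
  AllL.cons (i := 14) (j := 16) (k := 19) (OkF.mk (by decide +kernel)) <|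
  AllL.cons (i := 14) (j := 16) (k := 20) (OkF.mk (by decide +kernel)) <|
  AllL.cons (i := 14) (j := 16) (k := 21) (OkF.mk (by decide +kernel)) <|
  AllL.cons (i := 14) (j := 16) (k := 22) (OkF.mk (by decide +kernel)) <|
  AllL.cons (i := 14) (j := 17) (k := 17) (OkF.mk (by decide +kernel)) <|
  AllL.cons (i := 14) (j := 17) (k := 18) (OkF.mk (by decide +kernel)) <|
  AllL.cons (i := 14) (j := 17) (k := 19) (OkF.mk (by decide +kernel)) <|
  AllL.cons (i := 14) (j := 17) (k := 20) (OkF.mk (by decide +kernel)) <|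
  AllL.cons (i := 14) (j := 17) (k := 21) (OkF.mk (by decide +kernel)) <|
  AllL.cons (i := 14) (j := 17) (k := 22) (OkF.mk (by decide +kernel)) <|
  AllL.cons (i := 14) (j := 18) (k := 18) (OkF.mk (by decide +kernel)) <|
  AllL.cons (i := 14) (j := 18) (k := 19) (OkF.mk (by decide +kernel)) <|
  AllL.cons (i := 14) (j := 18) (k := 20) (OkF.mk (by decide +kernel)) <|
  AllL.cons (i := 14) (j := 18) (k := 21) (OkF.mk (by decide +kernel)) <|
  AllL.cons (i := 14) (j := 18) (k := 22) (OkF.mk (by decide +kernel)) <|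
  AllL.cons (i := 14) (j := 19) (k := 19) (OkF.mk (by decide +kernel)) <|
  AllL.cons (i := 14) (j := 19) (k := 20) (OkF.mk (by decide +kernel)) <|
  AllL.cons (i := 14) (j := 19) (k := 21) (OkF.mk (by decide +kernel)) <|
  AllL.cons (i := 14) (j := 19) (k := 22) (OkF.mk (by decide +kernel)) <|
  AllL.cons (i := 14) (j := 20) (k := 20) (OkF.mk (by decide +kernel)) <|
  AllL.cons (i := 14) (j := 20) (k := 21) (OkF.mk (by decide +kernel)) <|
  AllL.cons (i := 14) (j := 20) (k := 22) (OkF.mk (by decide +kernel)) <|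
  AllL.cons (i := 14) (j := 21) (k := 21) (OkF.mk (by decide +kernel)) <|
  AllL.cons (i := 14) (j := 21) (k := 22) (OkF.mk (by decide +kernel)) <|
  AllL.cons (i := 14) (j := 22) (k := 22) (OkF.mk (by decide +kernel)) <|
  AllL.cons (i := 15) (j := 15) (k := 15) (OkF.mk (by decide +kernel)) <|
  AllL.cons (i := 15) (j := 15) (k := 16) (OkF.mk (by decide +kernel)) <|
  AllL.cons (i := 15) (j := 15) (k := 17) (OkF.mk (by decide +kernel)) <|
  AllL.cons (i := 15) (j := 15) (k := 18) (OkF.mk (by decide +kernel)) <|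
  AllL.cons (i := 15) (j := 15) (k := 19) (OkF.mk (by decide +kernel)) <|
  AllL.cons (i := 15) (j := 15) (k := 20) (OkF.mk (by decide +kernel)) <|
  AllL.cons (i := 15) (j := 15) (k := 21) (OkF.mk (by decide +kernel)) <|
  AllL.cons (i := 15) (j := 15) (k := 22) (OkF.mk (by decide +kernel)) <|
  AllL.cons (i := 15) (j := 16) (k := 16) (OkF.mk (by decide +kernel)) <|
  AllL.nil

end Pool.Agent.MP_48470b_gt.Run
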