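import Pool.Agent.MP_48470b_gt.Run.OkB
import Pool.Agent.MP_48470b_gt.Run.F45

/-! Runs of the tests. -/

namespace Pool.Agent.MP_48470b_gt.Run

/-- the boxes of this part -/
def b90l : List (Nat × Nat × Nat) :=
  [(13, 18, 22), (13, 19, 19), (13, 19, 20), (13, 19, 21), (13, 19, 22), (13, 20, 20), (13, 20, 21), (13, 20, 22), (13, 21, 21), (13, 21, 22), (13, 22, 22), (14, 14, 14), (14, 14, 15), (14, 14, 16), (14, 14, 17), (14, 14, 18), (14, 14, 19), (14, 14, 20), (14, 14, 21), (14, 14, 22), (14, 15, 15), (14, 15, 16), (14, 15, 17), (14, 15, 18), (14, 15, 19), (14, 15, 20), (14, 15, 21), (14, 15, 22), (14, 16, 16), (14, 16, 17), (14, 16, 18)]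

theorem b90 : AllL OkB b90l :=
  AllL.cons (i := 13) (j := 18) (k := 22) (OkB.mk ⟨13, 13, 13, 63, 72, 103, 15⟩ ⟨7, 8, 8, 52, 82, 103, 7⟩
    10 4 2 12 (-6) (-10) 257735671019361796097 (by decide +kernel)) <|
  AllL.cons (i := 13) (j := 19) (k := 19) (OkB.mk ⟨13, 14, 14, 63, 72, 103, 15⟩ ⟨7, 9, 9, 52, 82, 103, 7⟩
    8 (-1) 1 8 (-4) (-9) 332579086948347412481 (by decide +kernel)) <|
  AllL.cons (i := 13) (j := 19) (k := 20) (OkB.mk ⟨13, 14, 15, 63, 72, 103, 15⟩ ⟨7, 9, 9, 52, 82, 103, 7⟩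
    9 1 1 9 (-4) (-9) 296167939846065618945 (by decide +kernel)) <|
  AllL.cons (i := 13) (j := 19) (k := 21) (OkB.mk ⟨13, 14, 14, 63, 72, 103, 15⟩ ⟨7, 9, 9, 52, 82, 103, 7⟩
    9 2 1 10 (-5) (-9) 268682664834269970433 (by decide +kernel)) <|
  AllL.cons (i := 13) (j := 19) (k := 22) (OkB.mk ⟨13, 13, 14, 63, 72, 103, 15⟩ ⟨7, 9, 8, 52, 82, 103, 7⟩
    10 3 1 11 (-6) (-10) 259088759303000031233 (by decide +kernel)) <|
  AllL.cons (i := 13) (j := 20) (k := 20) (OkB.mk ⟨13, 14, 15, 63, 72, 103, 15⟩ ⟨7, 9, 9, 52, 82, 103, 7⟩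
    9 0 0 8 (-4) (-9) 360896733768933441537 (by decide +kernel)) <|
  AllL.cons (i := 13) (j := 20) (k := 21) (OkB.mk ⟨13, 14, 15, 63, 72, 103, 15⟩ ⟨7, 9, 9, 52, 82, 103, 7⟩
    9 1 0 9 (-5) (-10) 287679288691803553793 (by decide +kernel)) <|
  AllL.cons (i := 13) (j := 20) (k := 22) (OkB.mk ⟨13, 13, 15, 63, 72, 103, 14⟩ ⟨7, 9, 9, 52, 82, 103, 7⟩
    10 3 0 11 (-6) (-10) 340836237303770775553 (by decide +kernel)) <|
  AllL.cons (i := 13) (j := 21) (k := 21) (OkB.mk ⟨13, 14, 14, 63, 72, 103, 15⟩ ⟨7, 9, 9, 52, 82, 103, 7⟩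
    10 1 (-1) 9 (-5) (-10) 377920791160161304577 (by decide +kernel)) <|
  AllL.cons (i := 13) (j := 21) (k := 22) (OkB.mk ⟨13, 14, 14, 63, 72, 103, 15⟩ ⟨7, 9, 9, 52, 82, 103, 7⟩
    10 2 (-1) 10 (-6) (-11) 316016857975890116609 (by decide +kernel)) <|
  AllL.cons (i := 13) (j := 22) (k := 22) (OkB.mk ⟨12, 14, 14, 63, 72, 103, 15⟩ ⟨7, 9, 8, 52, 82, 103, 7⟩
    10 1 (-2) 10 (-6) (-12) 412276712161228619777 (by decide +kernel)) <|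
  AllL.cons (i := 14) (j := 14) (k := 14) (OkB.mk ⟨13, 13, 14, 63, 72, 103, 16⟩ ⟨8, 7, 8, 52, 82, 103, 7⟩
    9 (-3) 2 9 2 (-9) 127012145617579278337 (by decide +kernel)) <|
  AllL.cons (i := 14) (j := 14) (k := 15) (OkB.mk ⟨13, 14, 14, 63, 72, 103, 16⟩ ⟨7, 8, 8, 52, 82, 103, 7⟩
    8 (-2) 3 9 2 (-9) 120596362778355171329 (by decide +kernel)) <|
  AllL.cons (i := 14) (j := 14) (k := 16) (OkB.mk ⟨13, 15, 13, 63, 72, 103, 16⟩ ⟨8, 7, 8, 52, 82, 103, 7⟩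
    8 (-1) 3 9 1 (-9) 155474400207450406913 (by decide +kernel)) <|
  AllL.cons (i := 14) (j := 14) (k := 17) (OkB.mk ⟨13, 14, 13, 63, 72, 103, 16⟩ ⟨7, 8, 8, 52, 82, 103, 7⟩
    8 (-1) 4 9 0 (-9) 186744410021207998465 (by decide +kernel)) <|
  AllL.cons (i := 14) (j := 14) (k := 18) (OkB.mk ⟨13, 14, 13, 63, 72, 103, 16⟩ ⟨8, 8, 8, 52, 82, 103, 7⟩
    8 0 4 10 (-1) (-9) 175399297202094342145 (by decide +kernel)) <|
  AllL.cons (i := 14) (j := 14) (k := 19) (OkB.mk ⟨13, 14, 13, 63, 72, 103, 16⟩ ⟨7, 8, 8, 52, 82, 103, 7⟩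
    8 2 4 10 (-1) (-10) 187097652320886849537 (by decide +kernel)) <|
  AllL.cons (i := 14) (j := 14) (k := 20) (OkB.mk ⟨13, 14, 14, 63, 72, 103, 15⟩ ⟨7, 8, 8, 52, 82, 103, 7⟩
    9 3 4 11 (-2) (-10) 168642751520166641665 (by decide +kernel)) <|
  AllL.cons (i := 14) (j := 14) (k := 21) (OkB.mk ⟨13, 13, 14, 63, 72, 103, 15⟩ ⟨7, 8, 8, 52, 82, 103, 7⟩
    9 4 4 13 (-4) (-11) 185474445503824396289 (by decide +kernel)) <|
  AllL.cons (i := 14) (j := 14) (k := 22) (OkB.mk ⟨14, 12, 14, 63, 72, 103, 15⟩ ⟨7, 8, 8, 52, 82, 103, 7⟩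
    9 5 4 15 (-5) (-12) 178961643132954869761 (by decide +kernel)) <|
  AllL.cons (i := 14) (j := 15) (k := 15) (OkB.mk ⟨13, 14, 14, 63, 72, 103, 16⟩ ⟨7, 8, 8, 52, 82, 103, 7⟩
    8 (-2) 2 9 1 (-9) 143312281804300353537 (by decide +kernel)) <|
  AllL.cons (i := 14) (j := 15) (k := 16) (OkB.mk ⟨13, 14, 14, 63, 72, 103, 16⟩ ⟨7, 9, 8, 52, 82, 103, 7⟩
    8 (-2) 3 9 0 (-8) 168118193351691337729 (by decide +kernel)) <|
  AllL.cons (i := 14) (j := 15) (k := 17) (OkB.mk ⟨13, 14, 14, 63, 72, 103, 16⟩ ⟨8, 8, 8, 52, 82, 103, 7⟩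
    8 (-1) 3 9 0 (-8) 182162516507285782529 (by decide +kernel)) <|
  AllL.cons (i := 14) (j := 15) (k := 18) (OkB.mk ⟨13, 15, 13, 63, 72, 103, 15⟩ ⟨8, 8, 8, 52, 82, 103, 7⟩
    8 0 3 9 (-1) (-9) 190961203002545799169 (by decide +kernel)) <|
  AllL.cons (i := 14) (j := 15) (k := 19) (OkB.mk ⟨13, 14, 13, 63, 72, 103, 15⟩ ⟨8, 8, 8, 52, 82, 103, 7⟩
    8 1 4 10 (-2) (-9) 207343933128355872769 (by decide +kernel)) <|
  AllL.cons (i := 14) (j := 15) (k := 20) (OkB.mk ⟨13, 14, 13, 63, 72, 103, 15⟩ ⟨7, 8, 8, 52, 82, 103, 7⟩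
    8 3 4 11 (-3) (-10) 188484819142794280961 (by decide +kernel)) <|
  AllL.cons (i := 14) (j := 15) (k := 21) (OkB.mk ⟨13, 13, 13, 63, 72, 103, 15⟩ ⟨7, 8, 8, 52, 82, 103, 7⟩
    9 4 4 12 (-4) (-10) 204430605409310474241 (by decide +kernel)) <|
  AllL.cons (i := 14) (j := 15) (k := 22) (OkB.mk ⟨13, 12, 14, 63, 72, 103, 15⟩ ⟨7, 8, 8, 52, 82, 103, 7⟩
    9 5 4 14 (-6) (-11) 201408485137865244673 (by decide +kernel)) <|
  AllL.cons (i := 14) (j := 16) (k := 16) (OkB.mk ⟨13, 14, 14, 63, 72, 103, 16⟩ ⟨7, 8, 8, 52, 82, 103, 7⟩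
    8 (-2) 2 8 0 (-8) 194465711735567286273 (by decide +kernel)) <|
  AllL.cons (i := 14) (j := 16) (k := 17) (OkB.mk ⟨13, 14, 14, 63, 72, 103, 15⟩ ⟨8, 8, 8, 52, 82, 103, 7⟩
    8 (-1) 2 9 (-1) (-8) 199885784266380935169 (by decide +kernel)) <|
  AllL.cons (i := 14) (j := 16) (k := 18) (OkB.mk ⟨13, 14, 14, 63, 72, 103, 15⟩ ⟨8, 8, 8, 52, 82, 103, 7⟩
    8 0 3 9 (-2) (-8) 227114399041954250753 (by decide +kernel)) <|
  AllL.nil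

end Pool.Agent.MP_48470b_gt.Run
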