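import Pool.Agent.MP_48470b_gt.Run.OkB
import Pool.Agent.MP_48470b_gt.Run.B90

/-! Runs of the tests. -/

namespace Pool.Agent.MP_48470b_gt.Run

/-- the boxes of this part -/
def b91l : List (Nat × Nat × Nat) :=
  [(14, 16, 19), (14, 16, 20), (14, 16, 21), (14, 16, 22), (14, 17, 17), (14, 17, 18), (14, 17, 19), (14, 17, 20), (14, 17, 21), (14, 17, 22), (14, 18, 18), (14, 18, 19), (14, 18, 20), (14, 18, 21), (14, 18, 22), (14, 19, 19), (14, 19, 20), (14, 19, 21), (14, 19, 22), (14, 20, 20), (14, 20, 21), (14, 20, 22), (14, 21, 21), (14, 21, 22), (14, 22, 22), (15, 15, 15), (15, 15, 16), (15, 15, 17), (15, 15, 18), (15, 15, 19)]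

theorem b91 : AllL OkB b91l :=
  AllL.cons (i := 14) (j := 16) (k := 19) (OkB.mk ⟨13, 15, 13, 63, 72, 103, 15⟩ ⟨8, 8, 8, 52, 82, 103, 7⟩
    8 1 3 9 (-3) (-9) 221149970398856609793 (by decide +kernel)) <|
  AllL.cons (i := 14) (j := 16) (k := 20) (OkB.mk ⟨13, 14, 13, 63, 72, 103, 15⟩ ⟨8, 8, 8, 52, 82, 103, 7⟩
    8 2 3 10 (-4) (-9) 214665603047948812289 (by decide +kernel)) <|
  AllL.cons (i := 14) (j := 16) (k := 21) (OkB.mk ⟨13, 13, 13, 63, 72, 103, 15⟩ ⟨7, 8, 8, 52, 82, 103, 7⟩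
    9 4 3 12 (-5) (-10) 214844311895491477505 (by decide +kernel)) <|
  AllL.cons (i := 14) (j := 16) (k := 22) (OkB.mk ⟨13, 12, 14, 63, 72, 103, 15⟩ ⟨7, 8, 8, 52, 82, 103, 7⟩
    9 5 3 13 (-6) (-10) 219380927932898738177 (by decide +kernel)) <|
  AllL.cons (i := 14) (j := 17) (k := 17) (OkB.mk ⟨13, 14, 15, 63, 72, 103, 15⟩ ⟨7, 8, 9, 52, 82, 103, 7⟩
    7 (-1) 2 8 (-2) (-8) 217380022379020812289 (by decide +kernel)) <|
  AllL.cons (i := 14) (j := 17) (k := 18) (OkB.mk ⟨13, 14, 15, 63, 72, 103, 15⟩ ⟨7, 9, 8, 52, 82, 103, 7⟩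
    7 0 2 9 (-2) (-9) 254025447646513070081 (by decide +kernel)) <|
  AllL.cons (i := 14) (j := 17) (k := 19) (OkB.mk ⟨13, 14, 14, 63, 72, 103, 15⟩ ⟨8, 9, 8, 52, 82, 103, 7⟩
    8 1 2 9 (-3) (-9) 274526592363082547201 (by decide +kernel)) <|
  AllL.cons (i := 14) (j := 17) (k := 20) (OkB.mk ⟨13, 15, 13, 63, 72, 103, 15⟩ ⟨8, 8, 8, 52, 82, 103, 7⟩
    8 2 2 10 (-4) (-9) 263230906577367072769 (by decide +kernel)) <|
  AllL.cons (i := 14) (j := 17) (k := 21) (OkB.mk ⟨13, 13, 13, 63, 72, 103, 15⟩ ⟨7, 8, 8, 52, 82, 103, 7⟩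
    8 3 2 11 (-5) (-10) 274718937078954983425 (by decide +kernel)) <|
  AllL.cons (i := 14) (j := 17) (k := 22) (OkB.mk ⟨13, 13, 13, 63, 72, 103, 15⟩ ⟨7, 8, 8, 52, 82, 103, 7⟩
    9 5 2 13 (-6) (-10) 192545143510601302017 (by decide +kernel)) <|
  AllL.cons (i := 14) (j := 18) (k := 18) (OkB.mk ⟨13, 14, 15, 63, 72, 103, 15⟩ ⟨7, 8, 9, 52, 82, 103, 7⟩
    7 (-1) 1 8 (-3) (-9) 262972635694049001473 (by decide +kernel)) <|
  AllL.cons (i := 14) (j := 18) (k := 19) (OkB.mk ⟨13, 14, 14, 63, 72, 103, 15⟩ ⟨8, 8, 8, 52, 82, 103, 7⟩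
    8 0 2 9 (-4) (-9) 323047790495381061633 (by decide +kernel)) <|
  AllL.cons (i := 14) (j := 18) (k := 20) (OkB.mk ⟨13, 14, 14, 63, 72, 103, 15⟩ ⟨8, 8, 8, 52, 82, 103, 7⟩
    8 1 2 9 (-4) (-9) 289999149924515577857 (by decide +kernel)) <|
  AllL.cons (i := 14) (j := 18) (k := 21) (OkB.mk ⟨13, 13, 14, 63, 72, 103, 14⟩ ⟨8, 8, 8, 52, 82, 103, 7⟩
    8 3 1 10 (-5) (-9) 319684599517976461313 (by decide +kernel)) <|
  AllL.cons (i := 14) (j := 18) (k := 22) (OkB.mk ⟨13, 13, 13, 63, 72, 103, 14⟩ ⟨7, 8, 8, 52, 82, 103, 7⟩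
    9 4 1 12 (-6) (-10) 257755882242103574529 (by decide +kernel)) <|
  AllL.cons (i := 14) (j := 19) (k := 19) (OkB.mk ⟨13, 14, 15, 63, 72, 103, 15⟩ ⟨7, 8, 9, 52, 82, 103, 7⟩
    8 0 0 8 (-4) (-9) 313350460777233907713 (by decide +kernel)) <|
  AllL.cons (i := 14) (j := 19) (k := 20) (OkB.mk ⟨13, 14, 14, 63, 72, 103, 15⟩ ⟨8, 8, 8, 52, 82, 103, 7⟩
    8 1 1 9 (-4) (-9) 379254723889659379713 (by decide +kernel)) <|
  AllL.cons (i := 14) (j := 19) (k := 21) (OkB.mk ⟨13, 14, 14, 63, 72, 103, 14⟩ ⟨8, 8, 8, 52, 82, 103, 7⟩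
    8 2 1 10 (-5) (-9) 268735827320984567809 (by decide +kernel)) <|
  AllL.cons (i := 14) (j := 19) (k := 22) (OkB.mk ⟨13, 13, 14, 63, 72, 103, 14⟩ ⟨7, 8, 8, 52, 82, 103, 7⟩
    8 3 1 11 (-6) (-10) 258571289548550045697 (by decide +kernel)) <|
  AllL.cons (i := 14) (j := 20) (k := 20) (OkB.mk ⟨13, 14, 15, 63, 72, 103, 15⟩ ⟨7, 9, 9, 52, 82, 103, 7⟩
    8 0 0 8 (-4) (-10) 339869006820420878337 (by decide +kernel)) <|
  AllL.cons (i := 14) (j := 20) (k := 21) (OkB.mk ⟨13, 14, 14, 63, 72, 103, 14⟩ ⟨7, 9, 9, 52, 82, 103, 7⟩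
    8 2 (-1) 9 (-5) (-10) 346975837115748712449 (by decide +kernel)) <|
  AllL.cons (i := 14) (j := 20) (k := 22) (OkB.mk ⟨13, 13, 14, 63, 72, 103, 14⟩ ⟨7, 8, 9, 52, 82, 103, 7⟩
    9 3 (-1) 11 (-6) (-10) 344487522592763150337 (by decide +kernel)) <|
  AllL.cons (i := 14) (j := 21) (k := 21) (OkB.mk ⟨12, 14, 15, 63, 72, 103, 14⟩ ⟨7, 8, 9, 52, 82, 103, 7⟩
    8 1 (-2) 9 (-5) (-11) 452399564915472334849 (by decide +kernel)) <|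
  AllL.cons (i := 14) (j := 21) (k := 22) (OkB.mk ⟨12, 14, 14, 63, 72, 103, 14⟩ ⟨7, 8, 9, 52, 82, 103, 7⟩
    9 2 (-1) 10 (-6) (-11) 402603102482305384449 (by decide +kernel)) <|
  AllL.cons (i := 14) (j := 22) (k := 22) (OkB.mk ⟨12, 14, 14, 63, 72, 103, 14⟩ ⟨7, 8, 8, 52, 82, 103, 7⟩
    9 2 (-3) 10 (-6) (-12) 368666801297885757441 (by decide +kernel)) <|
  AllL.cons (i := 15) (j := 15) (k := 15) (OkB.mk ⟨14, 14, 14, 63, 72, 103, 16⟩ ⟨7, 9, 9, 52, 82, 103, 7⟩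
    8 (-2) 1 8 1 (-8) 130579430692110729217 (by decide +kernel)) <|
  AllL.cons (i := 15) (j := 15) (k := 16) (OkB.mk ⟨13, 15, 14, 63, 72, 103, 16⟩ ⟨7, 9, 9, 52, 82, 103, 7⟩
    8 (-1) 2 8 1 (-8) 199767070545685774337 (by decide +kernel)) <|
  AllL.cons (i := 15) (j := 15) (k := 17) (OkB.mk ⟨13, 15, 14, 63, 72, 103, 15⟩ ⟨8, 8, 8, 52, 82, 103, 7⟩
    8 0 2 8 0 (-8) 210007053232605495297 (by decide +kernel)) <|
  AllL.cons (i := 15) (j := 15) (k := 18) (OkB.mk ⟨13, 15, 14, 63, 72, 103, 15⟩ ⟨8, 8, 8, 52, 82, 103, 7⟩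
    8 1 3 9 0 (-8) 209529210014659510273 (by decide +kernel)) <|
  AllL.cons (i := 15) (j := 15) (k := 19) (OkB.mk ⟨13, 15, 13, 63, 72, 103, 15⟩ ⟨8, 8, 8, 52, 82, 103, 7⟩
    8 2 3 10 (-1) (-8) 226559381102854668289 (by decide +kernel)) <|
  AllL.nil

end Pool.Agent.MP_48470b_gt.Run
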