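import Pool.Agent.MP_48470b_gt.Run.OkF

/-! Runs of the tests. -/

namespace Pool.Agent.MP_48470b_gt.Run

/-- the boxes of this part -/
def f46l : List (Nat × Nat × Nat) :=
  [(15, 16, 17), (15, 16, 18), (15, 16, 19), (15, 16, 20), (15, 16, 21), (15, 16, 22), (15, 17, 17), (15, 17, 18), (15, 17, 19), (15, 17, 20), (15, 17, 21), (15, 17, 22), (15, 18, 18), (15, 18, 19), (15, 18, 20), (15, 18, 21), (15, 18, 22), (15, 19, 19), (15, 19, 20), (15, 19, 21), (15, 19, 22), (15, 20, 20), (15, 20, 21), (15, 20, 22), (15, 21, 21), (15, 21, 22), (15, 22, 22), (16, 16, 16), (16, 16, 17), (16, 16, 18), (16, 16, 19), (16, 16, 20), (16, 16, 21), (16, 16, 22), (16, 17, 17), (16, 17, 18), (16, 17, 19), (16, 17, 20), (16, 17, 21), (16, 17, 22), (16, 18, 18), (16, 18, 19), (16, 18, 20), (16, 18, 21), (16, 18, 22), (16, 19, 19), (16, 19, 20), (16, 19, 21), (16, 19, 22), (16, 20, 20), (16, 20, 21), (16, 20, 22), (16, 21, 21), (16, 21, 22), (16, 22, 22), (17, 17, 17), (17, 17, 18)]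

theorem f46 : AllL OkF f46l :=
  AllL.cons (i := 15) (j := 16) (k := 17) (OkF.mk (by decide +kernel)) <|
  AllL.cons (i := 15) (j := 16) (k := 18) (OkF.mk (by decide +kernel)) <|
  AllL.cons (i := 15) (j := 16) (k := 19) (OkF.mk (by decide +kernel)) <|
  AllL.cons (i := 15) (j := 16) (k := 20) (OkF.mk (by decide +kernel)) <|
  AllL.cons (i := 15) (j := 16) (k := 21) (OkF.mk (by decide +kernel)) <|
  AllL.cons (i := 15) (j := 16) (k := 22) (OkF.mk (by decide +kernel)) <|
  AllL.cons (i := 15) (j := 17) (k := 17) (OkF.mk (by decide +kernel)) <|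
  AllL.cons (i := 15) (j := 17) (k := 18) (OkF.mk (by decide +kernel)) <|
  AllL.cons (i := 15) (j := 17) (k := 19) (OkF.mk (by decide +kernel)) <|
  AllL.cons (i := 15) (j := 17) (k := 20) (OkF.mk (by decide +kernel)) <|
  AllL.cons (i := 15) (j := 17) (k := 21) (OkF.mk (by decide +kernel)) <|
  AllL.cons (i := 15) (j := 17) (k := 22) (OkF.mk (by decide +kernel)) <|
  AllL.cons (i := 15) (j := 18) (k := 18) (OkF.mk (by decide +kernel)) <|
  AllL.cons (i := 15) (j := 18) (k := 19) (OkF.mk (by decide +kernel)) <|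
  AllL.cons (i := 15) (j := 18) (k := 20) (OkF.mk (by decide +kernel)) <|
  AllL.cons (i := 15) (j := 18) (k := 21) (OkF.mk (by decide +kernel)) <|
  AllL.cons (i := 15) (j := 18) (k := 22) (OkF.mk (by decide +kernel)) <|
  AllL.cons (i := 15) (j := 19) (k := 19) (OkF.mk (by decide +kernel)) <|
  AllL.cons (i := 15) (j := 19) (k := 20) (OkF.mk (by decide +kernel)) <|
  AllL.cons (i := 15) (j := 19) (k := 21) (OkF.mk (by decide +kernel)) <|
  AllL.cons (i := 15) (j := 19) (k := 22) (OkF.mk (by decide +kernel)) <|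
  AllL.cons (i := 15) (j := 20) (k := 20) (OkF.mk (by decide +kernel)) <|
  AllL.cons (i := 15) (j := 20) (k := 21) (OkF.mk (by decide +kernel)) <|
  AllL.cons (i := 15) (j := 20) (k := 22) (OkF.mk (by decide +kernel)) <|
  AllL.cons (i := 15) (j := 21) (k := 21) (OkF.mk (by decide +kernel)) <|
  AllL.cons (i := 15) (j := 21) (k := 22) (OkF.mk (by decide +kernel)) <|
  AllL.cons (i := 15) (j := 22) (k := 22) (OkF.mk (by decide +kernel)) <|
  AllL.cons (i := 16) (j := 16) (k := 16) (OkF.mk (by decide +kernel)) <|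
  AllL.cons (i := 16) (j := 16) (k := 17) (OkF.mk (by decide +kernel)) <|
  AllL.cons (i := 16) (j := 16) (k := 18) (OkF.mk (by decide +kernel)) <|
  AllL.cons (i := 16) (j := 16) (k := 19) (OkF.mk (by decide +kernel)) <|
  AllL.cons (i := 16) (j := 16) (k := 20) (OkF.mk (by decide +kernel)) <|
  AllL.cons (i := 16) (j := 16) (k := 21) (OkF.mk (by decide +kernel)) <|
  AllL.cons (i := 16) (j := 16) (k := 22) (OkF.mk (by decide +kernel)) <|
  AllL.cons (i := 16) (j := 17) (k := 17) (OkF.mk (by decide +kernel)) <|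
  AllL.cons (i := 16) (j := 17) (k := 18) (OkF.mk (by decide +kernel)) <|
  AllL.cons (i := 16) (j := 17) (k := 19) (OkF.mk (by decide +kernel)) <|
  AllL.cons (i := 16) (j := 17) (k := 20) (OkF.mk (by decide +kernel)) <|
  AllL.cons (i := 16) (j := 17) (k := 21) (OkF.mk (by decide +kernel)) <|
  AllL.cons (i := 16) (j := 17) (k := 22) (OkF.mk (by decide +kernel)) <|
  AllL.cons (i := 16) (j := 18) (k := 18) (OkF.mk (by decide +kernel)) <|
  AllL.cons (i := 16) (j := 18) (k := 19) (OkF.mk (by decide +kernel)) <|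
  AllL.cons (i := 16) (j := 18) (k := 20) (OkF.mk (by decide +kernel)) <|
  AllL.cons (i := 16) (j := 18) (k := 21) (OkF.mk (by decide +kernel)) <|
  AllL.cons (i := 16) (j := 18) (k := 22) (OkF.mk (by decide +kernel)) <|
  AllL.cons (i := 16) (j := 19) (k := 19) (OkF.mk (by decide +kernel)) <|
  AllL.cons (i := 16) (j := 19) (k := 20) (OkF.mk (by decide +kernel)) <|
  AllL.cons (i := 16) (j := 19) (k := 21) (OkF.mk (by decide +kernel)) <|
  AllL.cons (i := 16) (j := 19) (k := 22) (OkF.mk (by decide +kernel)) <|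
  AllL.cons (i := 16) (j := 20) (k := 20) (OkF.mk (by decide +kernel)) <|
  AllL.cons (i := 16) (j := 20) (k := 21) (OkF.mk (by decide +kernel)) <|
  AllL.cons (i := 16) (j := 20) (k := 22) (OkF.mk (by decide +kernel)) <|
  AllL.cons (i := 16) (j := 21) (k := 21) (OkF.mk (by decide +kernel)) <|
  AllL.cons (i := 16) (j := 21) (k := 22) (OkF.mk (by decide +kernel)) <|
  AllL.cons (i := 16) (j := 22) (k := 22) (OkF.mk (by decide +kernel)) <|
  AllL.cons (i := 17) (j := 17) (k := 17) (OkF.mk (by decide +kernel)) <|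
  AllL.cons (i := 17) (j := 17) (k := 18) (OkF.mk (by decide +kernel)) <|
  AllL.nil

end Pool.Agent.MP_48470b_gt.Run
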