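import Pool.Agent.MP_48470b_gt.Run.OkB
import Pool.Agent.MP_48470b_gt.Run.F46

/-! Runs of the tests. -/

namespace Pool.Agent.MP_48470b_gt.Run

/-- the boxes of this part -/
def b92l : List (Nat × Nat × Nat) :=
  [(15, 15, 20), (15, 15, 21), (15, 15, 22), (15, 16, 16), (15, 16, 17), (15, 16, 18), (15, 16, 19), (15, 16, 20), (15, 16, 21), (15, 16, 22), (15, 17, 17), (15, 17, 18), (15, 17, 19), (15, 17, 20), (15, 17, 21), (15, 17, 22), (15, 18, 18), (15, 18, 19), (15, 18, 20), (15, 18, 21), (15, 18, 22), (15, 19, 19), (15, 19, 20), (15, 19, 21), (15, 19, 22), (15, 20, 20), (15, 20, 21), (15, 20, 22), (15, 21, 21), (15, 21, 22), (15, 22, 22)]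

theorem b92 : AllL OkB b92l :=
  AllL.cons (i := 15) (j := 15) (k := 20) (OkB.mk ⟨13, 14, 13, 63, 72, 103, 15⟩ ⟨8, 8, 8, 52, 82, 103, 7⟩
    8 3 3 11 (-3) (-9) 214910104197396430849 (by decide +kernel)) <|
  AllL.cons (i := 15) (j := 15) (k := 21) (OkB.mk ⟨13, 13, 13, 63, 72, 103, 15⟩ ⟨7, 8, 8, 52, 82, 103, 7⟩
    8 4 3 12 (-4) (-10) 213461464230135857153 (by decide +kernel)) <|
  AllL.cons (i := 15) (j := 15) (k := 22) (OkB.mk ⟨13, 12, 14, 63, 72, 103, 15⟩ ⟨7, 8, 8, 52, 82, 103, 7⟩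
    9 5 3 14 (-6) (-10) 215426902562558705665 (by decide +kernel)) <|
  AllL.cons (i := 15) (j := 16) (k := 16) (OkB.mk ⟨14, 14, 14, 63, 72, 103, 15⟩ ⟨8, 8, 8, 52, 82, 103, 7⟩
    7 (-1) 1 8 0 (-8) 191694668380298543105 (by decide +kernel)) <|
  AllL.cons (i := 15) (j := 16) (k := 17) (OkB.mk ⟨14, 14, 14, 63, 72, 103, 15⟩ ⟨8, 8, 8, 52, 82, 103, 7⟩
    7 (-1) 2 8 (-1) (-8) 229063419466751148033 (by decide +kernel)) <|
  AllL.cons (i := 15) (j := 16) (k := 18) (OkB.mk ⟨13, 15, 14, 63, 72, 103, 15⟩ ⟨8, 8, 8, 52, 82, 103, 7⟩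
    7 0 2 9 (-1) (-8) 260865358025180839937 (by decide +kernel)) <|
  AllL.cons (i := 15) (j := 16) (k := 19) (OkB.mk ⟨13, 15, 14, 63, 72, 103, 15⟩ ⟨8, 8, 8, 52, 82, 103, 7⟩
    7 1 2 9 (-2) (-8) 230268995896017420289 (by decide +kernel)) <|
  AllL.cons (i := 15) (j := 16) (k := 20) (OkB.mk ⟨13, 14, 13, 63, 72, 103, 15⟩ ⟨8, 8, 8, 52, 82, 103, 7⟩
    8 3 2 10 (-3) (-9) 267703078176686080001 (by decide +kernel)) <|
  AllL.cons (i := 15) (j := 16) (k := 21) (OkB.mk ⟨13, 13, 13, 63, 72, 103, 14⟩ ⟨7, 8, 8, 52, 82, 103, 7⟩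
    8 4 2 11 (-4) (-9) 255406188922467778561 (by decide +kernel)) <|
  AllL.cons (i := 15) (j := 16) (k := 22) (OkB.mk ⟨12, 13, 14, 63, 72, 103, 14⟩ ⟨7, 8, 8, 52, 82, 103, 7⟩
    8 5 2 13 (-6) (-10) 238853174544646012929 (by decide +kernel)) <|
  AllL.cons (i := 15) (j := 17) (k := 17) (OkB.mk ⟨13, 15, 15, 63, 72, 103, 15⟩ ⟨7, 9, 9, 52, 82, 103, 7⟩
    7 (-1) 1 8 (-1) (-8) 257745872700561162241 (by decide +kernel)) <|
  AllL.cons (i := 15) (j := 17) (k := 18) (OkB.mk ⟨13, 15, 14, 63, 72, 103, 15⟩ ⟨7, 9, 9, 52, 82, 103, 7⟩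
    7 0 1 8 (-2) (-8) 332451428975438200833 (by decide +kernel)) <|
  AllL.cons (i := 15) (j := 17) (k := 19) (OkB.mk ⟨13, 15, 14, 63, 72, 103, 14⟩ ⟨7, 9, 9, 52, 82, 103, 7⟩
    7 1 2 9 (-3) (-8) 279990441674478190593 (by decide +kernel)) <|
  AllL.cons (i := 15) (j := 17) (k := 20) (OkB.mk ⟨13, 14, 14, 63, 72, 103, 14⟩ ⟨7, 9, 8, 52, 82, 103, 7⟩
    7 2 2 9 (-4) (-9) 297885708786285412353 (by decide +kernel)) <|
  AllL.cons (i := 15) (j := 17) (k := 21) (OkB.mk ⟨12, 14, 14, 63, 72, 103, 14⟩ ⟨7, 8, 8, 52, 82, 103, 7⟩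
    8 3 2 11 (-5) (-9) 281845751960190320641 (by decide +kernel)) <|
  AllL.cons (i := 15) (j := 17) (k := 22) (OkB.mk ⟨12, 13, 14, 63, 72, 103, 14⟩ ⟨7, 8, 8, 52, 82, 103, 7⟩
    8 5 1 12 (-6) (-10) 283793335323289714689 (by decide +kernel)) <|
  AllL.cons (i := 15) (j := 18) (k := 18) (OkB.mk ⟨13, 15, 15, 63, 72, 103, 15⟩ ⟨7, 9, 9, 52, 82, 103, 7⟩
    7 (-1) 1 8 (-3) (-8) 294555448319571656705 (by decide +kernel)) <|
  AllL.cons (i := 15) (j := 18) (k := 19) (OkB.mk ⟨13, 15, 14, 63, 72, 103, 14⟩ ⟨7, 9, 9, 52, 82, 103, 7⟩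
    7 0 1 8 (-3) (-9) 350281364343273553921 (by decide +kernel)) <|
  AllL.cons (i := 15) (j := 18) (k := 20) (OkB.mk ⟨13, 14, 14, 63, 72, 103, 14⟩ ⟨7, 9, 8, 52, 82, 103, 7⟩
    7 2 1 9 (-4) (-9) 375998196260387422209 (by decide +kernel)) <|
  AllL.cons (i := 15) (j := 18) (k := 21) (OkB.mk ⟨12, 14, 14, 63, 72, 103, 14⟩ ⟨7, 9, 8, 52, 82, 103, 7⟩
    7 3 1 10 (-5) (-9) 357140871042805268481 (by decide +kernel)) <|
  AllL.cons (i := 15) (j := 18) (k := 22) (OkB.mk ⟨12, 13, 14, 63, 72, 103, 14⟩ ⟨7, 8, 8, 52, 82, 103, 7⟩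
    8 4 1 12 (-6) (-10) 344601846925601275905 (by decide +kernel)) <|
  AllL.cons (i := 15) (j := 19) (k := 19) (OkB.mk ⟨13, 14, 15, 63, 72, 103, 14⟩ ⟨7, 9, 9, 52, 82, 103, 7⟩
    7 0 0 8 (-4) (-9) 421695536271254880257 (by decide +kernel)) <|
  AllL.cons (i := 15) (j := 19) (k := 20) (OkB.mk ⟨12, 15, 15, 63, 72, 103, 14⟩ ⟨7, 9, 8, 52, 82, 103, 7⟩
    7 1 0 9 (-4) (-9) 422125824786665832449 (by decide +kernel)) <|
  AllL.cons (i := 15) (j := 19) (k := 21) (OkB.mk ⟨12, 14, 15, 63, 72, 103, 14⟩ ⟨7, 9, 8, 52, 82, 103, 7⟩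
    7 2 0 10 (-5) (-9) 411782188939572412417 (by decide +kernel)) <|
  AllL.cons (i := 15) (j := 19) (k := 22) (OkB.mk ⟨13, 13, 13, 63, 72, 103, 14⟩ ⟨7, 8, 8, 52, 82, 103, 7⟩
    8 4 0 11 (-6) (-10) 392455108374139240449 (by decide +kernel)) <|
  AllL.cons (i := 15) (j := 20) (k := 20) (OkB.mk ⟨12, 15, 15, 63, 72, 103, 14⟩ ⟨7, 9, 9, 52, 82, 103, 7⟩
    7 1 (-1) 8 (-4) (-9) 479102845679677997057 (by decide +kernel)) <|
  AllL.cons (i := 15) (j := 20) (k := 21) (OkB.mk ⟨12, 14, 15, 63, 72, 103, 14⟩ ⟨7, 8, 9, 52, 82, 103, 7⟩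
    7 2 (-1) 9 (-5) (-9) 474023897730893479937 (by decide +kernel)) <|
  AllL.cons (i := 15) (j := 20) (k := 22) (OkB.mk ⟨12, 13, 15, 63, 72, 103, 14⟩ ⟨7, 8, 8, 52, 82, 103, 7⟩
    8 3 (-1) 11 (-6) (-10) 466304041462007857153 (by decide +kernel)) <|
  AllL.cons (i := 15) (j := 21) (k := 21) (OkB.mk ⟨12, 14, 14, 63, 72, 103, 14⟩ ⟨7, 8, 8, 52, 82, 103, 7⟩
    8 1 (-2) 9 (-5) (-11) 502889338699184603137 (by decide +kernel)) <|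
  AllL.cons (i := 15) (j := 21) (k := 22) (OkB.mk ⟨12, 13, 15, 63, 72, 103, 14⟩ ⟨7, 8, 8, 52, 82, 103, 7⟩
    8 2 (-2) 11 (-6) (-11) 495890651969518305281 (by decide +kernel)) <|
  AllL.cons (i := 15) (j := 22) (k := 22) (OkB.mk ⟨12, 13, 14, 63, 72, 103, 14⟩ ⟨7, 8, 8, 52, 82, 103, 7⟩
    8 2 (-3) 10 (-6) (-12) 496569068098603188225 (by decide +kernel)) <|
  AllL.nil

end Pool.Agent.MP_48470b_gt.Run
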