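import Pool.Agent.MP_48470b_gt.Run.OkB
import Pool.Agent.MP_48470b_gt.Run.B92

/-! Runs of the tests. -/

namespace Pool.Agent.MP_48470b_gt.Run

/-- the boxes of this part -/
def b93l : List (Nat × Nat × Nat) :=
  [(16, 16, 16), (16, 16, 17), (16, 16, 18), (16, 16, 19), (16, 16, 20), (16, 16, 21), (16, 16, 22), (16, 17, 17), (16, 17, 18), (16, 17, 19), (16, 17, 20), (16, 17, 21), (16, 17, 22), (16, 18, 18), (16, 18, 19), (16, 18, 20), (16, 18, 21), (16, 18, 22), (16, 19, 19), (16, 19, 20), (16, 19, 21), (16, 19, 22), (16, 20, 20), (16, 20, 21), (16, 20, 22), (16, 21, 21), (16, 21, 22), (16, 22, 22), (17, 17, 17), (17, 17, 18)]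

theorem b93 : AllL OkB b93l :=
  AllL.cons (i := 16) (j := 16) (k := 16) (OkB.mk ⟨14, 14, 14, 63, 72, 103, 15⟩ ⟨8, 8, 8, 52, 82, 103, 7⟩
    8 (-1) 1 8 1 (-8) 224995495549450846209 (by decide +kernel)) <|
  AllL.cons (i := 16) (j := 16) (k := 17) (OkB.mk ⟨14, 14, 15, 63, 72, 103, 15⟩ ⟨8, 8, 8, 52, 82, 103, 7⟩
    7 0 1 8 0 (-7) 289512413719085187073 (by decide +kernel)) <|
  AllL.cons (i := 16) (j := 16) (k := 18) (OkB.mk ⟨14, 15, 14, 63, 72, 103, 15⟩ ⟨8, 8, 8, 52, 82, 103, 7⟩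
    7 1 2 8 (-1) (-7) 255512036845289472001 (by decide +kernel)) <|
  AllL.cons (i := 16) (j := 16) (k := 19) (OkB.mk ⟨13, 15, 14, 63, 72, 103, 14⟩ ⟨8, 9, 8, 52, 82, 103, 7⟩
    7 2 2 9 (-2) (-8) 314207729102689927169 (by decide +kernel)) <|
  AllL.cons (i := 16) (j := 16) (k := 20) (OkB.mk ⟨13, 15, 13, 63, 72, 103, 14⟩ ⟨8, 8, 8, 52, 82, 103, 7⟩
    7 3 2 10 (-3) (-8) 274360457393076174849 (by decide +kernel)) <|
  AllL.cons (i := 16) (j := 16) (k := 21) (OkB.mk ⟨13, 13, 13, 63, 72, 103, 14⟩ ⟨8, 8, 8, 52, 82, 103, 7⟩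
    8 4 2 11 (-4) (-9) 324441989381342887937 (by decide +kernel)) <|
  AllL.cons (i := 16) (j := 16) (k := 22) (OkB.mk ⟨13, 13, 13, 63, 72, 103, 14⟩ ⟨7, 8, 8, 52, 82, 103, 7⟩
    8 5 2 13 (-6) (-9) 200146146558253989889 (by decide +kernel)) <|
  AllL.cons (i := 16) (j := 17) (k := 17) (OkB.mk ⟨14, 14, 16, 63, 72, 103, 15⟩ ⟨8, 8, 8, 52, 82, 103, 7⟩
    7 (-1) 1 8 (-1) (-8) 337980897003340562433 (by decide +kernel)) <|
  AllL.cons (i := 16) (j := 17) (k := 18) (OkB.mk ⟨14, 15, 14, 63, 72, 103, 14⟩ ⟨8, 9, 8, 52, 82, 103, 7⟩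
    7 0 1 8 (-1) (-8) 358874552115302236161 (by decide +kernel)) <|
  AllL.cons (i := 16) (j := 17) (k := 19) (OkB.mk ⟨13, 16, 14, 63, 72, 103, 14⟩ ⟨8, 9, 8, 52, 82, 103, 7⟩
    7 1 1 9 (-2) (-8) 372477224539763245057 (by decide +kernel)) <|
  AllL.cons (i := 16) (j := 17) (k := 20) (OkB.mk ⟨13, 15, 14, 63, 72, 103, 14⟩ ⟨8, 8, 8, 52, 82, 103, 7⟩
    7 2 1 9 (-3) (-8) 305498279383457071105 (by decide +kernel)) <|
  AllL.cons (i := 16) (j := 17) (k := 21) (OkB.mk ⟨13, 14, 13, 63, 72, 103, 14⟩ ⟨8, 8, 8, 52, 82, 103, 7⟩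
    7 4 1 11 (-5) (-9) 329296609745148313601 (by decide +kernel)) <|
  AllL.cons (i := 16) (j := 17) (k := 22) (OkB.mk ⟨13, 13, 13, 63, 72, 103, 14⟩ ⟨7, 8, 8, 52, 82, 103, 7⟩
    8 5 1 12 (-6) (-9) 255837013174919364609 (by decide +kernel)) <|
  AllL.cons (i := 16) (j := 18) (k := 18) (OkB.mk ⟨13, 15, 16, 63, 72, 103, 14⟩ ⟨8, 8, 9, 52, 82, 103, 7⟩
    7 0 0 8 (-2) (-8) 412773741857079296001 (by decide +kernel)) <|
  AllL.cons (i := 16) (j := 18) (k := 19) (OkB.mk ⟨13, 15, 15, 63, 72, 103, 14⟩ ⟨8, 9, 8, 52, 82, 103, 7⟩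
    7 1 0 8 (-3) (-8) 420881098871503060993 (by decide +kernel)) <|
  AllL.cons (i := 16) (j := 18) (k := 20) (OkB.mk ⟨13, 15, 14, 63, 72, 103, 14⟩ ⟨8, 8, 9, 52, 82, 103, 7⟩
    7 2 1 9 (-4) (-8) 432105662335258984449 (by decide +kernel)) <|
  AllL.cons (i := 16) (j := 18) (k := 21) (OkB.mk ⟨13, 14, 14, 63, 72, 103, 14⟩ ⟨8, 9, 8, 52, 82, 103, 7⟩
    7 3 1 10 (-5) (-9) 347125871387233746945 (by decide +kernel)) <|
  AllL.cons (i := 16) (j := 18) (k := 22) (OkB.mk ⟨13, 13, 13, 63, 72, 103, 14⟩ ⟨7, 8, 8, 52, 82, 103, 7⟩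
    7 4 0 12 (-6) (-9) 365534926401366392833 (by decide +kernel)) <|
  AllL.cons (i := 16) (j := 19) (k := 19) (OkB.mk ⟨13, 15, 15, 63, 72, 103, 14⟩ ⟨8, 8, 9, 52, 82, 103, 7⟩
    7 0 0 8 (-3) (-9) 454430187932186836993 (by decide +kernel)) <|
  AllL.cons (i := 16) (j := 19) (k := 20) (OkB.mk ⟨13, 16, 14, 63, 72, 103, 14⟩ ⟨8, 8, 9, 52, 82, 103, 7⟩
    7 1 0 9 (-4) (-9) 546467256660377206785 (by decide +kernel)) <|
  AllL.cons (i := 16) (j := 19) (k := 21) (OkB.mk ⟨13, 14, 14, 63, 72, 103, 14⟩ ⟨8, 8, 8, 52, 82, 103, 7⟩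
    7 3 0 10 (-5) (-9) 444615959374725120001 (by decide +kernel)) <|
  AllL.cons (i := 16) (j := 19) (k := 22) (OkB.mk ⟨13, 13, 14, 63, 72, 103, 13⟩ ⟨8, 8, 8, 52, 82, 103, 7⟩
    7 4 (-1) 11 (-6) (-9) 381101313948651618305 (by decide +kernel)) <|
  AllL.cons (i := 16) (j := 20) (k := 20) (OkB.mk ⟨13, 14, 16, 63, 72, 103, 14⟩ ⟨8, 8, 9, 52, 82, 103, 7⟩
    7 1 (-1) 8 (-4) (-9) 606037864542298439681 (by decide +kernel)) <|
  AllL.cons (i := 16) (j := 20) (k := 21) (OkB.mk ⟨13, 14, 14, 63, 72, 103, 14⟩ ⟨8, 8, 8, 52, 82, 103, 7⟩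
    7 2 (-1) 9 (-5) (-9) 519998417476297687041 (by decide +kernel)) <|
  AllL.cons (i := 16) (j := 20) (k := 22) (OkB.mk ⟨13, 13, 14, 63, 72, 103, 13⟩ ⟨8, 8, 8, 52, 82, 103, 7⟩
    7 3 (-1) 11 (-6) (-10) 450575481309744857089 (by decide +kernel)) <|
  AllL.cons (i := 16) (j := 21) (k := 21) (OkB.mk ⟨13, 14, 14, 63, 72, 103, 14⟩ ⟨7, 8, 9, 52, 82, 103, 7⟩
    7 1 (-2) 9 (-5) (-11) 465729385970358288385 (by decide +kernel)) <|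
  AllL.cons (i := 16) (j := 21) (k := 22) (OkB.mk ⟨13, 13, 14, 63, 72, 103, 13⟩ ⟨7, 8, 8, 52, 82, 103, 7⟩
    7 2 (-2) 11 (-6) (-11) 451720799141689819137 (by decide +kernel)) <|
  AllL.cons (i := 16) (j := 22) (k := 22) (OkB.mk ⟨13, 13, 13, 63, 72, 103, 14⟩ ⟨7, 8, 8, 52, 82, 103, 7⟩
    7 2 (-3) 11 (-6) (-12) 462632062539547017217 (by decide +kernel)) <|
  AllL.cons (i := 17) (j := 17) (k := 17) (OkB.mk ⟨14, 15, 15, 63, 72, 103, 14⟩ ⟨8, 8, 8, 52, 82, 103, 7⟩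
    7 0 0 7 0 (-7) 355429935292474195969 (by decide +kernel)) <|
  AllL.cons (i := 17) (j := 17) (k := 18) (OkB.mk ⟨14, 16, 14, 63, 72, 103, 14⟩ ⟨8, 9, 8, 52, 82, 103, 7⟩
    7 1 0 8 (-1) (-7) 460984785076490338305 (by decide +kernel)) <|
  AllL.nil

end Pool.Agent.MP_48470b_gt.Run
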