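import Pool.Agent.MP_48470b_gt.Run.OkF

/-! Runs of the tests. -/

namespace Pool.Agent.MP_48470b_gt.Run

/-- the boxes of this part -/
def f47l : List (Nat × Nat × Nat) :=
  [(17, 17, 19), (17, 17, 20), (17, 17, 21), (17, 17, 22), (17, 18, 18), (17, 18, 19), (17, 18, 20), (17, 18, 21), (17, 18, 22), (17, 19, 19), (17, 19, 20), (17, 19, 21), (17, 19, 22), (17, 20, 20), (17, 20, 21), (17, 20, 22), (17, 21, 21), (17, 21, 22), (17, 22, 22), (18, 18, 18), (18, 18, 19), (18, 18, 20), (18, 18, 21), (18, 18, 22), (18, 19, 19), (18, 19, 20), (18, 19, 21), (18, 19, 22), (18, 20, 20), (18, 20, 21), (18, 20, 22), (18, 21, 21), (18, 21, 22), (18, 22, 22), (19, 19, 19), (19, 19, 20), (19, 19, 21), (19, 19, 22), (19, 20, 20), (19, 20, 21), (19, 20, 22), (19, 21, 21), (19, 21, 22), (19, 22, 22), (20, 20, 20), (20, 20, 21), (20, 20, 22), (20, 21, 21), (20, 21, 22), (20, 22, 22), (21, 21, 21), (21, 21, 22), (21, 22, 22), (22, 22, 22)]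

theorem f47 : AllL OkF f47l :=
  AllL.cons (i := 17) (j := 17) (k := 19) (OkF.mk (by decide +kernel)) <|
  AllL.cons (i := 17) (j := 17) (k := 20) (OkF.mk (by decide +kernel)) <|
  AllL.cons (i := 17) (j := 17) (k := 21) (OkF.mk (by decide +kernel)) <|
  AllL.cons (i := 17) (j := 17) (k := 22) (OkF.mk (by decide +kernel)) <|
  AllL.cons (i := 17) (j := 18) (k := 18) (OkF.mk (by decide +kernel)) <|
  AllL.cons (i := 17) (j := 18) (k := 19) (OkF.mk (by decide +kernel)) <|
  AllL.cons (i := 17) (j := 18) (k := 20) (OkF.mk (by decide +kernel)) <|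
  AllL.cons (i := 17) (j := 18) (k := 21) (OkF.mk (by decide +kernel)) <|
  AllL.cons (i := 17) (j := 18) (k := 22) (OkF.mk (by decide +kernel)) <|
  AllL.cons (i := 17) (j := 19) (k := 19) (OkF.mk (by decide +kernel)) <|
  AllL.cons (i := 17) (j := 19) (k := 20) (OkF.mk (by decide +kernel)) <|
  AllL.cons (i := 17) (j := 19) (k := 21) (OkF.mk (by decide +kernel)) <|
  AllL.cons (i := 17) (j := 19) (k := 22) (OkF.mk (by decide +kernel)) <|
  AllL.cons (i := 17) (j := 20) (k := 20) (OkF.mk (by decide +kernel)) <|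
  AllL.cons (i := 17) (j := 20) (k := 21) (OkF.mk (by decide +kernel)) <|
  AllL.cons (i := 17) (j := 20) (k := 22) (OkF.mk (by decide +kernel)) <|
  AllL.cons (i := 17) (j := 21) (k := 21) (OkF.mk (by decide +kernel)) <|
  AllL.cons (i := 17) (j := 21) (k := 22) (OkF.mk (by decide +kernel)) <|
  AllL.cons (i := 17) (j := 22) (k := 22) (OkF.mk (by decide +kernel)) <|
  AllL.cons (i := 18) (j := 18) (k := 18) (OkF.mk (by decide +kernel)) <|
  AllL.cons (i := 18) (j := 18) (k := 19) (OkF.mk (by decide +kernel)) <|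
  AllL.cons (i := 18) (j := 18) (k := 20) (OkF.mk (by decide +kernel)) <|
  AllL.cons (i := 18) (j := 18) (k := 21) (OkF.mk (by decide +kernel)) <|
  AllL.cons (i := 18) (j := 18) (k := 22) (OkF.mk (by decide +kernel)) <|
  AllL.cons (i := 18) (j := 19) (k := 19) (OkF.mk (by decide +kernel)) <|
  AllL.cons (i := 18) (j := 19) (k := 20) (OkF.mk (by decide +kernel)) <|
  AllL.cons (i := 18) (j := 19) (k := 21) (OkF.mk (by decide +kernel)) <|
  AllL.cons (i := 18) (j := 19) (k := 22) (OkF.mk (by decide +kernel)) <|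
  AllL.cons (i := 18) (j := 20) (k := 20) (OkF.mk (by decide +kernel)) <|
  AllL.cons (i := 18) (j := 20) (k := 21) (OkF.mk (by decide +kernel)) <|
  AllL.cons (i := 18) (j := 20) (k := 22) (OkF.mk (by decide +kernel)) <|
  AllL.cons (i := 18) (j := 21) (k := 21) (OkF.mk (by decide +kernel)) <|
  AllL.cons (i := 18) (j := 21) (k := 22) (OkF.mk (by decide +kernel)) <|
  AllL.cons (i := 18) (j := 22) (k := 22) (OkF.mk (by decide +kernel)) <|
  AllL.cons (i := 19) (j := 19) (k := 19) (OkF.mk (by decide +kernel)) <|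
  AllL.cons (i := 19) (j := 19) (k := 20) (OkF.mk (by decide +kernel)) <|
  AllL.cons (i := 19) (j := 19) (k := 21) (OkF.mk (by decide +kernel)) <|
  AllL.cons (i := 19) (j := 19) (k := 22) (OkF.mk (by decide +kernel)) <|
  AllL.cons (i := 19) (j := 20) (k := 20) (OkF.mk (by decide +kernel)) <|
  AllL.cons (i := 19) (j := 20) (k := 21) (OkF.mk (by decide +kernel)) <|
  AllL.cons (i := 19) (j := 20) (k := 22) (OkF.mk (by decide +kernel)) <|
  AllL.cons (i := 19) (j := 21) (k := 21) (OkF.mk (by decide +kernel)) <|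
  AllL.cons (i := 19) (j := 21) (k := 22) (OkF.mk (by decide +kernel)) <|
  AllL.cons (i := 19) (j := 22) (k := 22) (OkF.mk (by decide +kernel)) <|
  AllL.cons (i := 20) (j := 20) (k := 20) (OkF.mk (by decide +kernel)) <|
  AllL.cons (i := 20) (j := 20) (k := 21) (OkF.mk (by decide +kernel)) <|
  AllL.cons (i := 20) (j := 20) (k := 22) (OkF.mk (by decide +kernel)) <|
  AllL.cons (i := 20) (j := 21) (k := 21) (OkF.mk (by decide +kernel)) <|
  AllL.cons (i := 20) (j := 21) (k := 22) (OkF.mk (by decide +kernel)) <|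
  AllL.cons (i := 20) (j := 22) (k := 22) (OkF.mk (by decide +kernel)) <|
  AllL.cons (i := 21) (j := 21) (k := 21) (OkF.mk (by decide +kernel)) <|
  AllL.cons (i := 21) (j := 21) (k := 22) (OkF.mk (by decide +kernel)) <|
  AllL.cons (i := 21) (j := 22) (k := 22) (OkF.mk (by decide +kernel)) <|
  AllL.cons (i := 22) (j := 22) (k := 22) (OkF.mk (by decide +kernel)) <|
  AllL.nil

end Pool.Agent.MP_48470b_gt.Run
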