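import Pool.Agent.MP_48470b_gt.Run.OkB
import Pool.Agent.MP_48470b_gt.Run.F47

/-! Runs of the tests. -/

namespace Pool.Agent.MP_48470b_gt.Run

/-- the boxes of this part -/
def b94l : List (Nat × Nat × Nat) :=
  [(17, 17, 19), (17, 17, 20), (17, 17, 21), (17, 17, 22), (17, 18, 18), (17, 18, 19), (17, 18, 20), (17, 18, 21), (17, 18, 22), (17, 19, 19), (17, 19, 20), (17, 19, 21), (17, 19, 22), (17, 20, 20), (17, 20, 21), (17, 20, 22), (17, 21, 21), (17, 21, 22), (17, 22, 22), (18, 18, 18), (18, 18, 19), (18, 18, 20), (18, 18, 21), (18, 18, 22), (18, 19, 19), (18, 19, 20), (18, 19, 21), (18, 19, 22), (18, 20, 20)]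

theorem b94 : AllL OkB b94l :=
  AllL.cons (i := 17) (j := 17) (k := 19) (OkB.mk ⟨14, 15, 14, 63, 72, 103, 14⟩ ⟨8, 9, 8, 52, 82, 103, 7⟩
    7 2 1 8 (-2) (-7) 414284938950719045633 (by decide +kernel)) <|
  AllL.cons (i := 17) (j := 17) (k := 20) (OkB.mk ⟨14, 15, 14, 63, 72, 103, 14⟩ ⟨8, 9, 8, 52, 82, 103, 7⟩
    7 3 1 9 (-3) (-8) 347711305666248310785 (by decide +kernel)) <|
  AllL.cons (i := 17) (j := 17) (k := 21) (OkB.mk ⟨13, 14, 14, 63, 72, 103, 14⟩ ⟨8, 8, 8, 52, 82, 103, 7⟩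
    7 4 1 11 (-4) (-8) 425897811713376387073 (by decide +kernel)) <|
  AllL.cons (i := 17) (j := 17) (k := 22) (OkB.mk ⟨13, 13, 13, 63, 72, 103, 14⟩ ⟨8, 8, 8, 52, 82, 103, 7⟩
    7 5 0 12 (-6) (-9) 364087058566146424833 (by decide +kernel)) <|
  AllL.cons (i := 17) (j := 18) (k := 18) (OkB.mk ⟨14, 15, 15, 63, 72, 103, 14⟩ ⟨8, 8, 10, 52, 82, 103, 7⟩
    7 0 0 8 (-1) (-8) 437536343504013230081 (by decide +kernel)) <|
  AllL.cons (i := 17) (j := 18) (k := 19) (OkB.mk ⟨14, 15, 15, 63, 72, 103, 14⟩ ⟨9, 8, 9, 52, 82, 103, 7⟩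
    7 1 0 8 (-2) (-8) 461141696930646065153 (by decide +kernel)) <|
  AllL.cons (i := 17) (j := 18) (k := 20) (OkB.mk ⟨14, 15, 14, 63, 72, 103, 14⟩ ⟨8, 8, 9, 52, 82, 103, 7⟩
    7 2 0 9 (-3) (-8) 533647877693933355009 (by decide +kernel)) <|
  AllL.cons (i := 17) (j := 18) (k := 21) (OkB.mk ⟨14, 14, 14, 63, 72, 103, 13⟩ ⟨8, 8, 8, 52, 82, 103, 7⟩
    7 3 0 10 (-5) (-8) 433102179272887369729 (by decide +kernel)) <|
  AllL.cons (i := 17) (j := 18) (k := 22) (OkB.mk ⟨13, 13, 14, 63, 72, 103, 13⟩ ⟨8, 8, 8, 52, 82, 103, 7⟩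
    7 4 0 11 (-6) (-9) 425052848847180529665 (by decide +kernel)) <|
  AllL.cons (i := 17) (j := 19) (k := 19) (OkB.mk ⟨14, 15, 15, 63, 72, 103, 14⟩ ⟨8, 9, 9, 52, 82, 103, 7⟩
    7 0 0 8 (-3) (-8) 537723675351439114241 (by decide +kernel)) <|
  AllL.cons (i := 17) (j := 19) (k := 20) (OkB.mk ⟨14, 15, 15, 63, 72, 103, 13⟩ ⟨8, 9, 9, 52, 82, 103, 7⟩
    7 2 (-1) 8 (-4) (-8) 526580250210815967233 (by decide +kernel)) <|
  AllL.cons (i := 17) (j := 19) (k := 21) (OkB.mk ⟨14, 14, 14, 63, 72, 103, 13⟩ ⟨8, 8, 9, 52, 82, 103, 7⟩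
    7 3 (-1) 10 (-5) (-9) 602579760697527238657 (by decide +kernel)) <|
  AllL.cons (i := 17) (j := 19) (k := 22) (OkB.mk ⟨13, 13, 15, 63, 72, 103, 13⟩ ⟨8, 8, 8, 52, 82, 103, 7⟩
    7 4 (-1) 11 (-6) (-9) 533842936141942095873 (by decide +kernel)) <|
  AllL.cons (i := 17) (j := 20) (k := 20) (OkB.mk ⟨14, 15, 15, 63, 72, 103, 13⟩ ⟨8, 9, 9, 52, 82, 103, 7⟩
    7 1 (-2) 8 (-4) (-9) 570677490328673452033 (by decide +kernel)) <|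
  AllL.cons (i := 17) (j := 20) (k := 21) (OkB.mk ⟨14, 14, 15, 63, 72, 103, 13⟩ ⟨8, 8, 9, 52, 82, 103, 7⟩
    7 2 (-2) 9 (-5) (-9) 569195250110701764609 (by decide +kernel)) <|
  AllL.cons (i := 17) (j := 20) (k := 22) (OkB.mk ⟨14, 13, 14, 63, 72, 103, 13⟩ ⟨8, 8, 8, 52, 82, 103, 7⟩
    7 3 (-1) 11 (-6) (-9) 638231456289367523329 (by decide +kernel)) <|
  AllL.cons (i := 17) (j := 21) (k := 21) (OkB.mk ⟨13, 14, 15, 63, 72, 103, 13⟩ ⟨8, 8, 8, 52, 82, 103, 7⟩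
    7 1 (-2) 9 (-5) (-11) 723059856718314864641 (by decide +kernel)) <|
  AllL.cons (i := 17) (j := 21) (k := 22) (OkB.mk ⟨13, 13, 15, 63, 72, 103, 13⟩ ⟨8, 8, 8, 52, 82, 103, 7⟩
    7 3 (-3) 11 (-6) (-11) 707444792554317414401 (by decide +kernel)) <|
  AllL.cons (i := 17) (j := 22) (k := 22) (OkB.mk ⟨13, 13, 14, 63, 72, 103, 13⟩ ⟨8, 8, 8, 52, 82, 103, 7⟩
    7 2 (-3) 11 (-6) (-12) 664634264852396769281 (by decide +kernel)) <|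
  AllL.cons (i := 18) (j := 18) (k := 18) (OkB.mk ⟨14, 15, 16, 63, 72, 103, 14⟩ ⟨8, 9, 9, 52, 82, 103, 7⟩
    7 1 (-1) 7 (-1) (-7) 604887238817970388993 (by decide +kernel)) <|
  AllL.cons (i := 18) (j := 18) (k := 19) (OkB.mk ⟨14, 15, 15, 63, 72, 103, 13⟩ ⟨9, 9, 8, 52, 82, 103, 7⟩
    7 1 0 8 (-2) (-7) 724341202830313390081 (by decide +kernel)) <|
  AllL.cons (i := 18) (j := 18) (k := 20) (OkB.mk ⟨14, 15, 15, 63, 72, 103, 13⟩ ⟨8, 9, 9, 52, 82, 103, 7⟩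
    7 2 0 9 (-3) (-8) 681660210517406384129 (by decide +kernel)) <|
  AllL.cons (i := 18) (j := 18) (k := 21) (OkB.mk ⟨14, 14, 15, 63, 72, 103, 13⟩ ⟨8, 8, 9, 52, 82, 103, 7⟩
    7 3 0 10 (-5) (-8) 576147797071859023873 (by decide +kernel)) <|
  AllL.cons (i := 18) (j := 18) (k := 22) (OkB.mk ⟨14, 13, 14, 63, 72, 103, 13⟩ ⟨8, 8, 8, 52, 82, 103, 7⟩
    7 4 (-1) 11 (-6) (-9) 509635706201973981185 (by decide +kernel)) <|
  AllL.cons (i := 18) (j := 19) (k := 19) (OkB.mk ⟨14, 15, 16, 63, 72, 103, 13⟩ ⟨8, 9, 9, 52, 82, 103, 7⟩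
    7 1 (-1) 8 (-2) (-8) 809350724985070551041 (by decide +kernel)) <|
  AllL.cons (i := 18) (j := 19) (k := 20) (OkB.mk ⟨14, 15, 16, 63, 72, 103, 13⟩ ⟨8, 9, 9, 52, 82, 103, 7⟩
    7 2 (-1) 8 (-3) (-8) 855779696113417715713 (by decide +kernel)) <|
  AllL.cons (i := 18) (j := 19) (k := 21) (OkB.mk ⟨14, 14, 15, 63, 72, 103, 13⟩ ⟨8, 9, 9, 52, 82, 103, 7⟩
    7 3 (-1) 10 (-5) (-8) 798050459321108529153 (by decide +kernel)) <|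
  AllL.cons (i := 18) (j := 19) (k := 22) (OkB.mk ⟨14, 13, 15, 63, 72, 103, 13⟩ ⟨9, 8, 8, 52, 82, 103, 7⟩
    7 4 (-1) 11 (-6) (-9) 669388279764821737473 (by decide +kernel)) <|
  AllL.cons (i := 18) (j := 20) (k := 20) (OkB.mk ⟨14, 15, 16, 63, 72, 103, 13⟩ ⟨8, 9, 10, 52, 82, 103, 7⟩
    7 1 (-2) 8 (-4) (-9) 926935323104807747585 (by decide +kernel)) <|
  AllL.nil

end Pool.Agent.MP_48470b_gt.Run
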