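import Pool.Agent.MP_48470b_gt.Run.OkB
import Pool.Agent.MP_48470b_gt.Run.B94

/-! Runs of the tests. -/

namespace Pool.Agent.MP_48470b_gt.Run

/-- the boxes of this part -/
def b95l : List (Nat × Nat × Nat) :=
  [(18, 20, 21), (18, 20, 22), (18, 21, 21), (18, 21, 22), (18, 22, 22), (19, 19, 19), (19, 19, 20), (19, 19, 21), (19, 19, 22), (19, 20, 20), (19, 20, 21), (19, 20, 22), (19, 21, 21), (19, 21, 22), (19, 22, 22), (20, 20, 20), (20, 20, 21), (20, 20, 22), (20, 21, 21), (20, 21, 22), (20, 22, 22), (21, 21, 21), (21, 21, 22), (21, 22, 22), (22, 22, 22)]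

theorem b95 : AllL OkB b95l :=
  AllL.cons (i := 18) (j := 20) (k := 21) (OkB.mk ⟨14, 14, 16, 63, 72, 103, 13⟩ ⟨8, 9, 9, 52, 82, 103, 7⟩
    7 2 (-2) 10 (-5) (-9) 905137318167171825665 (by decide +kernel)) <|
  AllL.cons (i := 18) (j := 20) (k := 22) (OkB.mk ⟨15, 13, 15, 63, 72, 103, 13⟩ ⟨8, 8, 9, 52, 82, 103, 7⟩
    7 3 (-2) 11 (-6) (-9) 804564290559983747073 (by decide +kernel)) <|
  AllL.cons (i := 18) (j := 21) (k := 21) (OkB.mk ⟨14, 14, 15, 63, 72, 103, 13⟩ ⟨8, 9, 9, 52, 82, 103, 7⟩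
    7 2 (-3) 9 (-5) (-11) 934371453421802749953 (by decide +kernel)) <|
  AllL.cons (i := 18) (j := 21) (k := 22) (OkB.mk ⟨14, 14, 14, 63, 72, 103, 13⟩ ⟨9, 8, 8, 52, 82, 103, 7⟩
    7 3 (-3) 11 (-6) (-11) 830626314015198937089 (by decide +kernel)) <|
  AllL.cons (i := 18) (j := 22) (k := 22) (OkB.mk ⟨14, 13, 14, 63, 72, 103, 13⟩ ⟨8, 8, 8, 52, 82, 103, 7⟩
    7 2 (-4) 11 (-6) (-12) 948034046618637434881 (by decide +kernel)) <|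
  AllL.cons (i := 19) (j := 19) (k := 19) (OkB.mk ⟨15, 15, 15, 63, 72, 103, 13⟩ ⟨9, 9, 9, 52, 82, 103, 7⟩
    8 1 (-2) 8 (-2) (-8) 820680819437421461505 (by decide +kernel)) <|
  AllL.cons (i := 19) (j := 19) (k := 20) (OkB.mk ⟨15, 15, 15, 63, 72, 103, 13⟩ ⟨9, 9, 10, 52, 82, 103, 7⟩
    8 2 (-2) 8 (-3) (-8) 988647850831014526977 (by decide +kernel)) <|
  AllL.cons (i := 19) (j := 19) (k := 21) (OkB.mk ⟨15, 14, 16, 63, 72, 103, 13⟩ ⟨9, 10, 9, 52, 82, 103, 7⟩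
    8 3 (-2) 10 (-4) (-8) 909507560915427393537 (by decide +kernel)) <|
  AllL.cons (i := 19) (j := 19) (k := 22) (OkB.mk ⟨14, 14, 15, 63, 72, 103, 13⟩ ⟨8, 9, 10, 52, 82, 103, 7⟩
    8 4 (-2) 11 (-6) (-9) 882496164832403783681 (by decide +kernel)) <|
  AllL.cons (i := 19) (j := 20) (k := 20) (OkB.mk ⟨15, 15, 16, 63, 72, 103, 13⟩ ⟨9, 9, 10, 52, 82, 103, 7⟩
    7 2 (-3) 8 (-3) (-9) 1063255905026080505857 (by decide +kernel)) <|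
  AllL.cons (i := 19) (j := 20) (k := 21) (OkB.mk ⟨15, 15, 15, 63, 72, 103, 13⟩ ⟨9, 10, 9, 52, 82, 103, 7⟩
    7 2 (-2) 10 (-5) (-9) 1055108491703545233409 (by decide +kernel)) <|
  AllL.cons (i := 19) (j := 20) (k := 22) (OkB.mk ⟨15, 14, 15, 63, 72, 103, 12⟩ ⟨9, 9, 9, 52, 82, 103, 7⟩
    7 3 (-2) 11 (-6) (-9) 843981852372180664321 (by decide +kernel)) <|
  AllL.cons (i := 19) (j := 21) (k := 21) (OkB.mk ⟨15, 14, 16, 63, 72, 103, 13⟩ ⟨9, 9, 9, 52, 82, 103, 7⟩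
    7 2 (-3) 9 (-5) (-11) 1232721487755204362241 (by decide +kernel)) <|
  AllL.cons (i := 19) (j := 21) (k := 22) (OkB.mk ⟨16, 14, 14, 63, 72, 103, 12⟩ ⟨9, 9, 9, 52, 82, 103, 7⟩
    7 3 (-3) 11 (-6) (-11) 1131607410267197014017 (by decide +kernel)) <|
  AllL.cons (i := 19) (j := 22) (k := 22) (OkB.mk ⟨15, 14, 14, 63, 72, 103, 12⟩ ⟨10, 8, 8, 52, 82, 103, 7⟩
    7 2 (-4) 11 (-6) (-12) 883227206061895188481 (by decide +kernel)) <|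
  AllL.cons (i := 20) (j := 20) (k := 20) (OkB.mk ⟨15, 16, 16, 63, 72, 103, 13⟩ ⟨9, 10, 10, 52, 82, 103, 7⟩
    8 2 (-3) 8 (-3) (-9) 1160236340649356427265 (by decide +kernel)) <|
  AllL.cons (i := 20) (j := 20) (k := 21) (OkB.mk ⟨15, 15, 16, 63, 72, 103, 12⟩ ⟨9, 10, 10, 52, 82, 103, 7⟩
    8 3 (-3) 10 (-4) (-9) 1271426482882035580929 (by decide +kernel)) <|
  AllL.cons (i := 20) (j := 20) (k := 22) (OkB.mk ⟨15, 14, 16, 63, 72, 103, 12⟩ ⟨9, 9, 10, 52, 82, 103, 7⟩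
    8 3 (-3) 11 (-6) (-9) 1078557609338234470401 (by decide +kernel)) <|
  AllL.cons (i := 20) (j := 21) (k := 21) (OkB.mk ⟨15, 15, 16, 63, 72, 103, 12⟩ ⟨9, 9, 11, 52, 82, 103, 7⟩
    8 2 (-3) 10 (-5) (-11) 1392514452702332190721 (by decide +kernel)) <|
  AllL.cons (i := 20) (j := 21) (k := 22) (OkB.mk ⟨15, 14, 15, 63, 72, 103, 12⟩ ⟨9, 9, 9, 52, 82, 103, 7⟩
    8 3 (-4) 11 (-6) (-11) 1406852132844481806337 (by decide +kernel)) <|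
  AllL.cons (i := 20) (j := 22) (k := 22) (OkB.mk ⟨16, 14, 14, 63, 72, 103, 12⟩ ⟨9, 9, 9, 52, 82, 103, 7⟩
    8 3 (-5) 11 (-6) (-13) 1231254090944207650817 (by decide +kernel)) <|
  AllL.cons (i := 21) (j := 21) (k := 21) (OkB.mk ⟨15, 15, 15, 63, 72, 103, 12⟩ ⟨9, 10, 10, 52, 82, 103, 7⟩
    9 3 (-5) 10 (-5) (-11) 1548718253255608500225 (by decide +kernel)) <|
  AllL.cons (i := 21) (j := 21) (k := 22) (OkB.mk ⟨15, 14, 15, 63, 72, 103, 12⟩ ⟨9, 9, 10, 52, 82, 103, 7⟩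
    9 3 (-4) 11 (-6) (-11) 1599036990446477770753 (by decide +kernel)) <|
  AllL.cons (i := 21) (j := 22) (k := 22) (OkB.mk ⟨15, 14, 15, 63, 72, 103, 12⟩ ⟨9, 9, 9, 52, 82, 103, 7⟩
    9 3 (-5) 11 (-6) (-13) 1607828335777477033985 (by decide +kernel)) <|
  AllL.cons (i := 22) (j := 22) (k := 22) (OkB.mk ⟨14, 15, 15, 63, 72, 103, 12⟩ ⟨9, 9, 9, 52, 82, 103, 7⟩
    11 4 (-7) 11 (-7) (-13) 1559656858483991511041 (by decide +kernel)) <|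
  AllL.nil

end Pool.Agent.MP_48470b_gt.Run
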