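import Pool.Agent.MP_48470b_gt.Run.B1
import Pool.Agent.MP_48470b_gt.Run.B3
import Pool.Agent.MP_48470b_gt.Run.B5
import Pool.Agent.MP_48470b_gt.Run.B7
import Pool.Agent.MP_48470b_gt.Run.B9
import Pool.Agent.MP_48470b_gt.Run.B11
import Pool.Agent.MP_48470b_gt.Run.B13
import Pool.Agent.MP_48470b_gt.Run.B15
import Pool.Agent.MP_48470b_gt.Run.B17
import Pool.Agent.MP_48470b_gt.Run.B19
import Pool.Agent.MP_48470b_gt.Run.B21
import Pool.Agent.MP_48470b_gt.Run.B23
import Pool.Agent.MP_48470b_gt.Run.B25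
import Pool.Agent.MP_48470b_gt.Run.B27
import Pool.Agent.MP_48470b_gt.Run.B29
import Pool.Agent.MP_48470b_gt.Run.B31
import Pool.Agent.MP_48470b_gt.Run.B33
import Pool.Agent.MP_48470b_gt.Run.B35
import Pool.Agent.MP_48470b_gt.Run.B37
import Pool.Agent.MP_48470b_gt.Run.B39
import Pool.Agent.MP_48470b_gt.Run.B41
import Pool.Agent.MP_48470b_gt.Run.B43
import Pool.Agent.MP_48470b_gt.Run.B45
import Pool.Agent.MP_48470b_gt.Run.B47
import Pool.Agent.MP_48470b_gt.Run.B49
import Pool.Agent.MP_48470b_gt.Run.B51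
import Pool.Agent.MP_48470b_gt.Run.B53
import Pool.Agent.MP_48470b_gt.Run.B55
import Pool.Agent.MP_48470b_gt.Run.B57
import Pool.Agent.MP_48470b_gt.Run.B59
import Pool.Agent.MP_48470b_gt.Run.B61
import Pool.Agent.MP_48470b_gt.Run.B63
import Pool.Agent.MP_48470b_gt.Run.B65
import Pool.Agent.MP_48470b_gt.Run.B67
import Pool.Agent.MP_48470b_gt.Run.B69
import Pool.Agent.MP_48470b_gt.Run.B71
import Pool.Agent.MP_48470b_gt.Run.B73
import Pool.Agent.MP_48470b_gt.Run.B75
import Pool.Agent.MP_48470b_gt.Run.B77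
import Pool.Agent.MP_48470b_gt.Run.B79
import Pool.Agent.MP_48470b_gt.Run.B81
import Pool.Agent.MP_48470b_gt.Run.B83
import Pool.Agent.MP_48470b_gt.Run.B85
import Pool.Agent.MP_48470b_gt.Run.B87
import Pool.Agent.MP_48470b_gt.Run.B89
import Pool.Agent.MP_48470b_gt.Run.B91
import Pool.Agent.MP_48470b_gt.Run.B93
import Pool.Agent.MP_48470b_gt.Run.B95

/-! All boxes. -/

namespace Pool.Agent.MP_48470b_gt.Run

theorem allF : ∀ i j k, i ≤ j → j ≤ k → k < 23 → OkF i j k :=
  AllL.all (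
    AllL.app f0 <|
    AllL.app f1 <|
    AllL.app f2 <|
    AllL.app f3 <|
    AllL.app f4 <|
    AllL.app f5 <|
    AllL.app f6 <|
    AllL.app f7 <|
    AllL.app f8 <|
    AllL.app f9 <|
    AllL.app f10 <|
    AllL.app f11 <|
    AllL.app f12 <|
    AllL.app f13 <|
    AllL.app f14 <|
    AllL.app f15 <|
    AllL.app f16 <|
    AllL.app f17 <|
    AllL.app f18 <|
    AllL.app f19 <|
    AllL.app f20 <|
    AllL.app f21 <|
    AllL.app f22 <|
    AllL.app f23 <|
    AllL.app f24 <|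
    AllL.app f25 <|
    AllL.app f26 <|
    AllL.app f27 <|
    AllL.app f28 <|
    AllL.app f29 <|
    AllL.app f30 <|
    AllL.app f31 <|
    AllL.app f32 <|
    AllL.app f33 <|
    AllL.app f34 <|
    AllL.app f35 <|
    AllL.app f36 <|
    AllL.app f37 <|
    AllL.app f38 <|
    AllL.app f39 <|
    AllL.app f40 <|
    AllL.app f41 <|
    AllL.app f42 <|
    AllL.app f43 <|
    AllL.app f44 <|
    AllL.app f45 <|
    AllL.app f46 <|
    f47) (by decide +kernel)

theorem allB : ∀ i j k, i ≤ j → j ≤ k → k < 23 → OkB i j k :=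
  AllL.all (
    AllL.app b0 <|
    AllL.app b1 <|
    AllL.app b2 <|
    AllL.app b3 <|
    AllL.app b4 <|
    AllL.app b5 <|
    AllL.app b6 <|
    AllL.app b7 <|
    AllL.app b8 <|
    AllL.app b9 <|
    AllL.app b10 <|
    AllL.app b11 <|
    AllL.app b12 <|
    AllL.app b13 <|
    AllL.app b14 <|
    AllL.app b15 <|
    AllL.app b16 <|
    AllL.app b17 <|
    AllL.app b18 <|
    AllL.app b19 <|
    AllL.app b20 <|
    AllL.app b21 <|
    AllL.app b22 <|
    AllL.app b23 <|
    AllL.app b24 <|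
    AllL.app b25 <|
    AllL.app b26 <|
    AllL.app b27 <|
    AllL.app b28 <|
    AllL.app b29 <|
    AllL.app b30 <|
    AllL.app b31 <|
    AllL.app b32 <|
    AllL.app b33 <|
    AllL.app b34 <|
    AllL.app b35 <|
    AllL.app b36 <|
    AllL.app b37 <|
    AllL.app b38 <|
    AllL.app b39 <|
    AllL.app b40 <|
    AllL.app b41 <|
    AllL.app b42 <|
    AllL.app b43 <|
    AllL.app b44 <|
    AllL.app b45 <|
    AllL.app b46 <|
    AllL.app b47 <|
    AllL.app b48 <|
    AllL.app b49 <|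
    AllL.app b50 <|
    AllL.app b51 <|
    AllL.app b52 <|
    AllL.app b53 <|
    AllL.app b54 <|
    AllL.app b55 <|
    AllL.app b56 <|
    AllL.app b57 <|
    AllL.app b58 <|
    AllL.app b59 <|
    AllL.app b60 <|
    AllL.app b61 <|
    AllL.app b62 <|
    AllL.app b63 <|
    AllL.app b64 <|
    AllL.app b65 <|
    AllL.app b66 <|
    AllL.app b67 <|
    AllL.app b68 <|
    AllL.app b69 <|
    AllL.app b70 <|
    AllL.app b71 <|
    AllL.app b72 <|
    AllL.app b73 <|
    AllL.app b74 <|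
    AllL.app b75 <|
    AllL.app b76 <|
    AllL.app b77 <|
    AllL.app b78 <|
    AllL.app b79 <|
    AllL.app b80 <|
    AllL.app b81 <|
    AllL.app b82 <|
    AllL.app b83 <|
    AllL.app b84 <|
    AllL.app b85 <|
    AllL.app b86 <|
    AllL.app b87 <|
    AllL.app b88 <|
    AllL.app b89 <|
    AllL.app b90 <|
    AllL.app b91 <|
    AllL.app b92 <|
    AllL.app b93 <|
    AllL.app b94 <|
    b95) (by decide +kernel)

end Pool.Agent.MP_48470b_gt.Run
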