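import Pool.Agent.MP_48470b_gt.Run.OkB
import Pool.Agent.MP_48470b_gt.Run.F0

/-! Runs of the tests. -/

namespace Pool.Agent.MP_48470b_gt.Run

/-- the boxes of this part -/
def b0l : List (Nat × Nat × Nat) :=
  [(0, 0, 0), (0, 0, 1), (0, 0, 2), (0, 0, 3), (0, 0, 4), (0, 0, 5), (0, 0, 6), (0, 0, 7), (0, 0, 8), (0, 0, 9), (0, 0, 10), (0, 0, 11), (0, 0, 12), (0, 0, 13), (0, 0, 14), (0, 0, 15), (0, 0, 16), (0, 0, 17), (0, 0, 18), (0, 0, 19), (0, 0, 20), (0, 0, 21)]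

theorem b0 : AllL OkB b0l :=
  AllL.cons (i := 0) (j := 0) (k := 0) (OkB.mk ⟨15, 15, 15, 63, 72, 103, 15⟩ ⟨6, 7, 7, 52, 82, 103, 7⟩
    32 0 0 32 0 (-32) 167607531360923680769 (by decide +kernel)) <|
  AllL.cons (i := 0) (j := 0) (k := 1) (OkB.mk ⟨15, 15, 15, 63, 72, 103, 15⟩ ⟨7, 7, 7, 52, 82, 103, 7⟩
    31 0 0 35 0 (-31) 174306383193840812033 (by decide +kernel)) <|
  AllL.cons (i := 0) (j := 0) (k := 2) (OkB.mk ⟨15, 15, 15, 63, 72, 103, 15⟩ ⟨7, 7, 7, 52, 82, 103, 7⟩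
    30 0 0 35 0 (-30) 166381754841470861313 (by decide +kernel)) <|
  AllL.cons (i := 0) (j := 0) (k := 3) (OkB.mk ⟨15, 15, 15, 63, 72, 103, 15⟩ ⟨7, 8, 7, 52, 82, 103, 7⟩
    27 0 0 37 0 (-27) 174041130961442177025 (by decide +kernel)) <|
  AllL.cons (i := 0) (j := 0) (k := 4) (OkB.mk ⟨15, 15, 15, 63, 72, 103, 15⟩ ⟨7, 8, 9, 52, 82, 103, 7⟩
    25 0 0 43 0 (-25) 200345305222561660929 (by decide +kernel)) <|
  AllL.cons (i := 0) (j := 0) (k := 5) (OkB.mk ⟨15, 15, 16, 63, 72, 103, 14⟩ ⟨8, 8, 9, 52, 82, 103, 7⟩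
    24 0 0 52 0 (-24) 230223261709860077569 (by decide +kernel)) <|
  AllL.cons (i := 0) (j := 0) (k := 6) (OkB.mk ⟨15, 17, 17, 63, 72, 103, 14⟩ ⟨7, 9, 9, 52, 82, 103, 7⟩
    23 0 0 67 0 (-23) 233650363862213459969 (by decide +kernel)) <|
  AllL.cons (i := 0) (j := 0) (k := 7) (OkB.mk ⟨17, 16, 17, 63, 72, 103, 14⟩ ⟨9, 9, 9, 52, 82, 103, 7⟩
    23 0 0 85 0 (-23) 200684831252122959873 (by decide +kernel)) <|
  AllL.cons (i := 0) (j := 0) (k := 8) (OkB.mk ⟨17, 16, 19, 63, 72, 103, 13⟩ ⟨9, 9, 11, 52, 82, 103, 7⟩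
    22 0 0 104 0 (-22) 215256731972561534977 (by decide +kernel)) <|
  AllL.cons (i := 0) (j := 0) (k := 9) (OkB.mk ⟨17, 16, 20, 63, 72, 103, 13⟩ ⟨9, 9, 11, 52, 82, 103, 7⟩
    22 0 0 118 0 (-22) 263442151348365164545 (by decide +kernel)) <|
  AllL.cons (i := 0) (j := 0) (k := 10) (OkB.mk ⟨17, 16, 21, 63, 72, 103, 13⟩ ⟨9, 9, 11, 52, 82, 103, 7⟩
    21 0 0 126 0 (-21) 259780405855501942785 (by decide +kernel)) <|
  AllL.cons (i := 0) (j := 0) (k := 11) (OkB.mk ⟨18, 16, 19, 63, 72, 103, 13⟩ ⟨9, 8, 11, 52, 82, 103, 7⟩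
    21 0 0 133 0 (-21) 247119127452722397185 (by decide +kernel)) <|
  AllL.cons (i := 0) (j := 0) (k := 12) (OkB.mk ⟨17, 16, 19, 63, 72, 103, 13⟩ ⟨9, 9, 11, 52, 82, 103, 7⟩
    20 0 0 131 0 (-20) 251325334885863784449 (by decide +kernel)) <|
  AllL.cons (i := 0) (j := 0) (k := 13) (OkB.mk ⟨18, 15, 19, 63, 72, 103, 13⟩ ⟨9, 8, 11, 52, 82, 103, 7⟩
    20 0 0 144 0 (-20) 259330718931320045569 (by decide +kernel)) <|
  AllL.cons (i := 0) (j := 0) (k := 14) (OkB.mk ⟨17, 15, 19, 63, 72, 103, 13⟩ ⟨9, 8, 11, 52, 82, 103, 7⟩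
    19 0 0 159 0 (-19) 231444499995069251585 (by decide +kernel)) <|
  AllL.cons (i := 0) (j := 0) (k := 15) (OkB.mk ⟨17, 15, 19, 63, 72, 103, 13⟩ ⟨9, 8, 11, 52, 82, 103, 7⟩
    19 0 0 173 0 (-19) 201771320813935394817 (by decide +kernel)) <|
  AllL.cons (i := 0) (j := 0) (k := 16) (OkB.mk ⟨17, 15, 19, 63, 72, 103, 13⟩ ⟨9, 8, 9, 52, 82, 103, 7⟩
    18 0 0 183 0 (-18) 178328519873547730945 (by decide +kernel)) <|
  AllL.cons (i := 0) (j := 0) (k := 17) (OkB.mk ⟨17, 14, 19, 63, 72, 103, 13⟩ ⟨9, 8, 9, 52, 82, 103, 7⟩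
    18 0 0 190 0 (-18) 227707290758584205313 (by decide +kernel)) <|
  AllL.cons (i := 0) (j := 0) (k := 18) (OkB.mk ⟨17, 15, 17, 63, 72, 103, 13⟩ ⟨9, 8, 9, 52, 82, 103, 7⟩
    18 0 0 195 0 (-18) 191986624176723066881 (by decide +kernel)) <|
  AllL.cons (i := 0) (j := 0) (k := 19) (OkB.mk ⟨17, 15, 17, 63, 72, 103, 13⟩ ⟨9, 8, 9, 52, 82, 103, 7⟩
    18 0 0 199 0 (-18) 161111905423264317441 (by decide +kernel)) <|
  AllL.cons (i := 0) (j := 0) (k := 20) (OkB.mk ⟨17, 14, 17, 63, 72, 103, 13⟩ ⟨9, 7, 9, 52, 82, 103, 7⟩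
    18 0 0 203 0 (-18) 154876998843879129089 (by decide +kernel)) <|
  AllL.cons (i := 0) (j := 0) (k := 21) (OkB.mk ⟨17, 13, 17, 63, 72, 103, 12⟩ ⟨9, 7, 9, 52, 82, 103, 7⟩
    18 0 0 226 0 (-18) 155601333464757960705 (by decide +kernel)) <|
  AllL.nil

end Pool.Agent.MP_48470b_gt.Run
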