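import Pool.Agent.MP_48470b_gt.Run.OkB
import Pool.Agent.MP_48470b_gt.Run.B0

/-! Runs of the tests. -/

namespace Pool.Agent.MP_48470b_gt.Run

/-- the boxes of this part -/
def b1l : List (Nat × Nat × Nat) :=
  [(0, 0, 22), (0, 1, 1), (0, 1, 2), (0, 1, 3), (0, 1, 4), (0, 1, 5), (0, 1, 6), (0, 1, 7), (0, 1, 8), (0, 1, 9), (0, 1, 10), (0, 1, 11), (0, 1, 12), (0, 1, 13), (0, 1, 14), (0, 1, 15), (0, 1, 16), (0, 1, 17), (0, 1, 18), (0, 1, 19)]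

theorem b1 : AllL OkB b1l :=
  AllL.cons (i := 0) (j := 0) (k := 22) (OkB.mk ⟨16, 13, 17, 63, 72, 103, 12⟩ ⟨9, 7, 9, 52, 82, 103, 7⟩
    19 0 0 255 0 (-19) 207933933954038497281 (by decide +kernel)) <|
  AllL.cons (i := 0) (j := 1) (k := 1) (OkB.mk ⟨15, 15, 15, 63, 72, 103, 15⟩ ⟨7, 7, 8, 52, 82, 103, 7⟩
    31 0 0 34 3 (-34) 179558171484293693441 (by decide +kernel)) <|
  AllL.cons (i := 0) (j := 1) (k := 2) (OkB.mk ⟨15, 15, 15, 63, 72, 103, 15⟩ ⟨7, 8, 7, 52, 82, 103, 7⟩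
    29 0 0 35 5 (-33) 175556330552284938241 (by decide +kernel)) <|
  AllL.cons (i := 0) (j := 1) (k := 3) (OkB.mk ⟨15, 15, 15, 63, 72, 103, 15⟩ ⟨7, 8, 8, 52, 82, 103, 7⟩
    27 0 0 37 6 (-31) 192240004707198697473 (by decide +kernel)) <|
  AllL.cons (i := 0) (j := 1) (k := 4) (OkB.mk ⟨15, 15, 16, 63, 72, 103, 15⟩ ⟨9, 8, 8, 52, 82, 103, 7⟩
    25 0 0 43 7 (-29) 195089936509931880449 (by decide +kernel)) <|
  AllL.cons (i := 0) (j := 1) (k := 5) (OkB.mk ⟨15, 15, 17, 63, 72, 103, 14⟩ ⟨9, 8, 9, 52, 82, 103, 7⟩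
    24 0 0 52 7 (-27) 210707207668644184065 (by decide +kernel)) <|
  AllL.cons (i := 0) (j := 1) (k := 6) (OkB.mk ⟨17, 15, 17, 63, 72, 103, 14⟩ ⟨9, 9, 9, 52, 82, 103, 7⟩
    23 0 0 65 9 (-26) 202951247698509955073 (by decide +kernel)) <|
  AllL.cons (i := 0) (j := 1) (k := 7) (OkB.mk ⟨17, 16, 18, 63, 72, 103, 14⟩ ⟨9, 9, 10, 52, 82, 103, 7⟩
    22 0 0 82 13 (-25) 169970465686775922689 (by decide +kernel)) <|
  AllL.cons (i := 0) (j := 1) (k := 8) (OkB.mk ⟨17, 16, 19, 63, 72, 103, 13⟩ ⟨9, 9, 12, 52, 82, 103, 7⟩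
    21 0 0 98 19 (-24) 197303445281424015361 (by decide +kernel)) <|
  AllL.cons (i := 0) (j := 1) (k := 9) (OkB.mk ⟨17, 16, 20, 63, 72, 103, 13⟩ ⟨10, 10, 12, 52, 82, 103, 7⟩
    21 0 0 109 27 (-23) 239554411449882247169 (by decide +kernel)) <|
  AllL.cons (i := 0) (j := 1) (k := 10) (OkB.mk ⟨19, 16, 19, 63, 72, 103, 13⟩ ⟨11, 8, 12, 52, 82, 103, 7⟩
    20 0 0 118 33 (-23) 171304461088436781057 (by decide +kernel)) <|
  AllL.cons (i := 0) (j := 1) (k := 11) (OkB.mk ⟨19, 16, 19, 63, 72, 103, 13⟩ ⟨11, 8, 12, 52, 82, 103, 7⟩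
    20 0 0 127 37 (-22) 163284881798110117889 (by decide +kernel)) <|
  AllL.cons (i := 0) (j := 1) (k := 12) (OkB.mk ⟨19, 16, 18, 63, 72, 103, 13⟩ ⟨11, 9, 11, 52, 82, 103, 7⟩
    19 0 0 128 37 (-21) 208348783676928032769 (by decide +kernel)) <|
  AllL.cons (i := 0) (j := 1) (k := 13) (OkB.mk ⟨19, 15, 19, 63, 72, 103, 13⟩ ⟨11, 9, 11, 52, 82, 103, 7⟩
    19 0 0 142 41 (-20) 210702078721778515969 (by decide +kernel)) <|
  AllL.cons (i := 0) (j := 1) (k := 14) (OkB.mk ⟨19, 15, 18, 63, 72, 103, 13⟩ ⟨10, 9, 11, 52, 82, 103, 7⟩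
    19 0 0 158 45 (-20) 201077003547689615361 (by decide +kernel)) <|
  AllL.cons (i := 0) (j := 1) (k := 15) (OkB.mk ⟨17, 15, 20, 63, 72, 103, 13⟩ ⟨9, 9, 11, 52, 82, 103, 7⟩
    19 0 0 172 46 (-20) 236252460383926747137 (by decide +kernel)) <|
  AllL.cons (i := 0) (j := 1) (k := 16) (OkB.mk ⟨17, 15, 19, 63, 72, 103, 13⟩ ⟨9, 9, 10, 52, 82, 103, 7⟩
    18 0 0 184 42 (-19) 207057312299788271617 (by decide +kernel)) <|
  AllL.cons (i := 0) (j := 1) (k := 17) (OkB.mk ⟨17, 15, 18, 63, 72, 103, 13⟩ ⟨9, 8, 10, 52, 82, 103, 7⟩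
    18 0 0 193 32 (-19) 197978266969558745089 (by decide +kernel)) <|
  AllL.cons (i := 0) (j := 1) (k := 18) (OkB.mk ⟨17, 15, 18, 63, 72, 103, 12⟩ ⟨9, 8, 10, 52, 82, 103, 7⟩
    18 0 0 201 15 (-19) 171009502113439940609 (by decide +kernel)) <|
  AllL.cons (i := 0) (j := 1) (k := 19) (OkB.mk ⟨17, 14, 19, 63, 72, 103, 12⟩ ⟨9, 8, 10, 52, 82, 103, 7⟩
    18 0 0 206 (-4) (-19) 179030869347112321025 (by decide +kernel)) <|
  AllL.nil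

end Pool.Agent.MP_48470b_gt.Run
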