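import Pool.Agent.MP_48470b_gt.Run.OkB
import Pool.Agent.MP_48470b_gt.Run.F12

/-! Runs of the tests. -/

namespace Pool.Agent.MP_48470b_gt.Run

/-- the boxes of this part -/
def b24l : List (Nat × Nat × Nat) :=
  [(1, 8, 9), (1, 8, 10), (1, 8, 11), (1, 8, 12), (1, 8, 13), (1, 8, 14), (1, 8, 15), (1, 8, 16), (1, 8, 17), (1, 8, 18), (1, 8, 19), (1, 8, 20), (1, 8, 21), (1, 8, 22), (1, 9, 9), (1, 9, 10), (1, 9, 11)]

theorem b24 : AllL OkB b24l :=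
  AllL.cons (i := 1) (j := 8) (k := 9) (OkB.mk ⟨20, 20, 21, 63, 72, 103, 14⟩ ⟨12, 13, 15, 52, 82, 103, 7⟩
    20 (-13) 2 18 40 (-36) 88625639564335120385 (by decide +kernel)) <|
  AllL.cons (i := 1) (j := 8) (k := 10) (OkB.mk ⟨19, 18, 20, 63, 72, 103, 14⟩ ⟨12, 11, 13, 52, 82, 103, 7⟩
    21 (-14) 4 19 34 (-25) 77343817383295320065 (by decide +kernel)) <|
  AllL.cons (i := 1) (j := 8) (k := 11) (OkB.mk ⟨18, 16, 21, 63, 72, 103, 15⟩ ⟨12, 10, 12, 52, 82, 103, 7⟩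
    22 (-14) 6 20 30 (-19) 73462796561382637569 (by decide +kernel)) <|
  AllL.cons (i := 1) (j := 8) (k := 12) (OkB.mk ⟨18, 16, 20, 63, 72, 103, 15⟩ ⟨11, 10, 12, 52, 82, 103, 7⟩
    23 (-14) 8 21 24 (-15) 61574498197551710209 (by decide +kernel)) <|
  AllL.cons (i := 1) (j := 8) (k := 13) (OkB.mk ⟨17, 16, 20, 63, 72, 103, 15⟩ ⟨10, 10, 12, 52, 82, 103, 7⟩
    24 (-13) 11 23 21 (-12) 70382515973118754817 (by decide +kernel)) <|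
  AllL.cons (i := 1) (j := 8) (k := 14) (OkB.mk ⟨17, 15, 21, 63, 72, 103, 15⟩ ⟨10, 10, 12, 52, 82, 103, 7⟩
    24 (-12) 14 26 18 (-10) 60344349882427899905 (by decide +kernel)) <|
  AllL.cons (i := 1) (j := 8) (k := 15) (OkB.mk ⟨17, 15, 21, 63, 72, 103, 15⟩ ⟨10, 9, 13, 52, 82, 103, 7⟩
    25 (-9) 17 31 14 (-8) 63233802668548816897 (by decide +kernel)) <|
  AllL.cons (i := 1) (j := 8) (k := 16) (OkB.mk ⟨17, 14, 22, 63, 72, 103, 15⟩ ⟨10, 9, 13, 52, 82, 103, 7⟩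
    26 (-5) 20 36 7 (-8) 66728770114542370817 (by decide +kernel)) <|
  AllL.cons (i := 1) (j := 8) (k := 17) (OkB.mk ⟨17, 14, 22, 63, 72, 103, 14⟩ ⟨10, 9, 13, 52, 82, 103, 7⟩
    26 1 22 40 (-3) (-7) 67601213349729140737 (by decide +kernel)) <|
  AllL.cons (i := 1) (j := 8) (k := 18) (OkB.mk ⟨17, 14, 23, 63, 72, 103, 14⟩ ⟨10, 9, 14, 52, 82, 103, 7⟩
    27 8 22 42 (-14) (-8) 64149024602637467649 (by decide +kernel)) <|
  AllL.cons (i := 1) (j := 8) (k := 19) (OkB.mk ⟨17, 14, 23, 63, 72, 103, 14⟩ ⟨11, 9, 14, 52, 82, 103, 7⟩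
    28 14 20 42 (-25) (-9) 69883474720745062401 (by decide +kernel)) <|
  AllL.cons (i := 1) (j := 8) (k := 20) (OkB.mk ⟨17, 15, 22, 63, 72, 103, 14⟩ ⟨11, 9, 14, 52, 82, 103, 7⟩
    28 18 18 41 (-36) (-10) 64724967622403162113 (by decide +kernel)) <|
  AllL.cons (i := 1) (j := 8) (k := 21) (OkB.mk ⟨17, 14, 22, 63, 72, 103, 14⟩ ⟨10, 9, 14, 52, 82, 103, 7⟩
    29 21 15 43 (-50) (-12) 64806560731032977409 (by decide +kernel)) <|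
  AllL.cons (i := 1) (j := 8) (k := 22) (OkB.mk ⟨17, 14, 21, 63, 72, 103, 13⟩ ⟨10, 9, 14, 52, 82, 103, 7⟩
    29 22 13 45 (-66) (-15) 71287336389769691137 (by decide +kernel)) <|
  AllL.cons (i := 1) (j := 9) (k := 9) (OkB.mk ⟨19, 19, 19, 63, 72, 103, 15⟩ ⟨11, 12, 12, 52, 82, 103, 7⟩
    21 (-14) 4 15 27 (-30) 66528523483479015425 (by decide +kernel)) <|
  AllL.cons (i := 1) (j := 9) (k := 10) (OkB.mk ⟨18, 17, 19, 63, 72, 103, 15⟩ ⟨11, 10, 12, 52, 82, 103, 7⟩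
    22 (-15) 5 15 23 (-22) 65627674915144466433 (by decide +kernel)) <|
  AllL.cons (i := 1) (j := 9) (k := 11) (OkB.mk ⟨17, 17, 19, 63, 72, 103, 15⟩ ⟨11, 10, 11, 52, 82, 103, 7⟩
    23 (-14) 7 16 20 (-16) 67406539593351168001 (by decide +kernel)) <|
  AllL.nil

end Pool.Agent.MP_48470b_gt.Run
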