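import Pool.Agent.MP_48470b_gt.Run.OkB
import Pool.Agent.MP_48470b_gt.Run.B24

/-! Runs of the tests. -/

namespace Pool.Agent.MP_48470b_gt.Run

/-- the boxes of this part -/
def b25l : List (Nat × Nat × Nat) :=
  [(1, 9, 12), (1, 9, 13), (1, 9, 14), (1, 9, 15), (1, 9, 16), (1, 9, 17), (1, 9, 18), (1, 9, 19), (1, 9, 20), (1, 9, 21), (1, 9, 22), (1, 10, 10), (1, 10, 11), (1, 10, 12), (1, 10, 13), (1, 10, 14), (1, 10, 15), (1, 10, 16), (1, 10, 17), (1, 10, 18), (1, 10, 19)]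

theorem b25 : AllL OkB b25l :=
  AllL.cons (i := 1) (j := 9) (k := 12) (OkB.mk ⟨17, 17, 19, 63, 72, 103, 15⟩ ⟨10, 10, 11, 52, 82, 103, 7⟩
    24 (-13) 8 16 16 (-13) 59153869060616224769 (by decide +kernel)) <|
  AllL.cons (i := 1) (j := 9) (k := 13) (OkB.mk ⟨16, 16, 20, 63, 72, 103, 15⟩ ⟨10, 10, 11, 52, 82, 103, 7⟩
    25 (-12) 10 17 14 (-11) 65891771285944401921 (by decide +kernel)) <|
  AllL.cons (i := 1) (j := 9) (k := 14) (OkB.mk ⟨16, 15, 20, 63, 72, 103, 15⟩ ⟨10, 9, 11, 52, 82, 103, 7⟩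
    26 (-11) 12 19 12 (-9) 63011417645738098689 (by decide +kernel)) <|
  AllL.cons (i := 1) (j := 9) (k := 15) (OkB.mk ⟨16, 15, 20, 63, 72, 103, 15⟩ ⟨9, 9, 12, 52, 82, 103, 7⟩
    26 (-9) 14 22 10 (-8) 66193957763187474433 (by decide +kernel)) <|
  AllL.cons (i := 1) (j := 9) (k := 16) (OkB.mk ⟨16, 14, 22, 63, 72, 103, 15⟩ ⟨10, 9, 12, 52, 82, 103, 7⟩
    27 (-5) 17 26 6 (-7) 62289223086803779585 (by decide +kernel)) <|
  AllL.cons (i := 1) (j := 9) (k := 17) (OkB.mk ⟨16, 14, 22, 63, 72, 103, 15⟩ ⟨9, 9, 13, 52, 82, 103, 7⟩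
    28 0 20 29 0 (-7) 59492658692264820737 (by decide +kernel)) <|
  AllL.cons (i := 1) (j := 9) (k := 18) (OkB.mk ⟨16, 14, 22, 63, 72, 103, 15⟩ ⟨10, 9, 13, 52, 82, 103, 7⟩
    29 5 21 30 (-8) (-7) 65655886459367849985 (by decide +kernel)) <|
  AllL.cons (i := 1) (j := 9) (k := 19) (OkB.mk ⟨16, 14, 23, 63, 72, 103, 15⟩ ⟨10, 9, 14, 52, 82, 103, 7⟩
    29 11 21 31 (-16) (-8) 65878597212498296833 (by decide +kernel)) <|
  AllL.cons (i := 1) (j := 9) (k := 20) (OkB.mk ⟨16, 15, 23, 63, 72, 103, 15⟩ ⟨10, 9, 14, 52, 82, 103, 7⟩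
    30 16 20 30 (-23) (-9) 60019137707553849345 (by decide +kernel)) <|
  AllL.cons (i := 1) (j := 9) (k := 21) (OkB.mk ⟨16, 14, 23, 63, 72, 103, 14⟩ ⟨10, 9, 14, 52, 82, 103, 7⟩
    31 20 18 32 (-32) (-10) 65717140114712297473 (by decide +kernel)) <|
  AllL.cons (i := 1) (j := 9) (k := 22) (OkB.mk ⟨16, 14, 23, 63, 72, 103, 14⟩ ⟨10, 9, 14, 52, 82, 103, 7⟩
    31 22 17 35 (-43) (-12) 57820179460626841601 (by decide +kernel)) <|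
  AllL.cons (i := 1) (j := 10) (k := 10) (OkB.mk ⟨17, 18, 18, 63, 72, 103, 15⟩ ⟨10, 10, 11, 52, 82, 103, 7⟩
    24 (-14) 5 12 16 (-20) 61892612062795792385 (by decide +kernel)) <|
  AllL.cons (i := 1) (j := 10) (k := 11) (OkB.mk ⟨16, 18, 18, 63, 72, 103, 15⟩ ⟨9, 10, 11, 52, 82, 103, 7⟩
    25 (-13) 6 13 14 (-15) 72736080123440136193 (by decide +kernel)) <|
  AllL.cons (i := 1) (j := 10) (k := 12) (OkB.mk ⟨16, 17, 18, 63, 72, 103, 15⟩ ⟨9, 9, 11, 52, 82, 103, 7⟩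
    25 (-11) 7 13 12 (-12) 63897536331673239553 (by decide +kernel)) <|
  AllL.cons (i := 1) (j := 10) (k := 13) (OkB.mk ⟨15, 16, 19, 63, 72, 103, 15⟩ ⟨9, 9, 10, 52, 82, 103, 7⟩
    26 (-10) 8 14 10 (-10) 64461572740021747713 (by decide +kernel)) <|
  AllL.cons (i := 1) (j := 10) (k := 14) (OkB.mk ⟨15, 15, 19, 63, 72, 103, 15⟩ ⟨9, 8, 10, 52, 82, 103, 7⟩
    26 (-8) 9 15 9 (-9) 56553372878077165569 (by decide +kernel)) <|
  AllL.cons (i := 1) (j := 10) (k := 15) (OkB.mk ⟨15, 14, 19, 63, 72, 103, 15⟩ ⟨9, 9, 10, 52, 82, 103, 7⟩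
    26 (-7) 11 17 8 (-8) 66989077980589850625 (by decide +kernel)) <|
  AllL.cons (i := 1) (j := 10) (k := 16) (OkB.mk ⟨15, 14, 19, 63, 72, 103, 15⟩ ⟨9, 8, 11, 52, 82, 103, 7⟩
    27 (-5) 12 20 5 (-7) 68510314302585962497 (by decide +kernel)) <|
  AllL.cons (i := 1) (j := 10) (k := 17) (OkB.mk ⟨15, 14, 20, 63, 72, 103, 15⟩ ⟨9, 8, 11, 52, 82, 103, 7⟩
    28 (-1) 14 22 1 (-7) 59148104321151795201 (by decide +kernel)) <|
  AllL.cons (i := 1) (j := 10) (k := 18) (OkB.mk ⟨15, 14, 20, 63, 72, 103, 15⟩ ⟨9, 9, 11, 52, 82, 103, 7⟩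
    28 3 16 24 (-4) (-7) 64707478927890710529 (by decide +kernel)) <|
  AllL.cons (i := 1) (j := 10) (k := 19) (OkB.mk ⟨15, 14, 21, 63, 72, 103, 15⟩ ⟨9, 9, 12, 52, 82, 103, 7⟩
    29 7 16 24 (-11) (-7) 60763363730729730049 (by decide +kernel)) <|
  AllL.nil

end Pool.Agent.MP_48470b_gt.Run
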