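import Pool.Agent.MP_48470b_gt.Run.OkB
import Pool.Agent.MP_48470b_gt.Run.F25

/-! Runs of the tests. -/

namespace Pool.Agent.MP_48470b_gt.Run

/-- the boxes of this part -/
def b50l : List (Nat × Nat × Nat) :=
  [(3, 18, 22), (3, 19, 19), (3, 19, 20), (3, 19, 21), (3, 19, 22), (3, 20, 20), (3, 20, 21), (3, 20, 22), (3, 21, 21), (3, 21, 22), (3, 22, 22), (4, 4, 4), (4, 4, 5), (4, 4, 6), (4, 4, 7), (4, 4, 8), (4, 4, 9), (4, 4, 10), (4, 4, 11), (4, 4, 12), (4, 4, 13), (4, 4, 14)]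

theorem b50 : AllL OkB b50l :=
  AllL.cons (i := 3) (j := 18) (k := 22) (OkB.mk ⟨13, 14, 14, 63, 72, 103, 15⟩ ⟨7, 8, 8, 52, 82, 103, 7⟩
    22 2 4 12 (-6) (-9) 149809089304642715649 (by decide +kernel)) <|
  AllL.cons (i := 3) (j := 19) (k := 19) (OkB.mk ⟨13, 14, 14, 63, 72, 103, 15⟩ ⟨7, 8, 8, 52, 82, 103, 7⟩
    21 (-2) 2 8 (-1) (-9) 227031149656496144385 (by decide +kernel)) <|
  AllL.cons (i := 3) (j := 19) (k := 20) (OkB.mk ⟨13, 15, 14, 63, 72, 103, 15⟩ ⟨8, 8, 8, 52, 82, 103, 7⟩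
    22 0 2 9 (-2) (-8) 220414853142322085889 (by decide +kernel)) <|
  AllL.cons (i := 3) (j := 19) (k := 21) (OkB.mk ⟨13, 14, 15, 63, 72, 103, 15⟩ ⟨8, 8, 8, 52, 82, 103, 7⟩
    22 1 2 10 (-4) (-8) 239025731624631271425 (by decide +kernel)) <|
  AllL.cons (i := 3) (j := 19) (k := 22) (OkB.mk ⟨13, 14, 14, 63, 72, 103, 15⟩ ⟨7, 8, 8, 52, 82, 103, 7⟩
    22 2 2 11 (-6) (-9) 197634350590067736577 (by decide +kernel)) <|
  AllL.cons (i := 3) (j := 20) (k := 20) (OkB.mk ⟨13, 15, 15, 63, 72, 103, 15⟩ ⟨7, 8, 9, 52, 82, 103, 7⟩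
    22 (-1) 1 8 (-3) (-9) 224841778876085436417 (by decide +kernel)) <|
  AllL.cons (i := 3) (j := 20) (k := 21) (OkB.mk ⟨13, 15, 15, 63, 72, 103, 15⟩ ⟨7, 8, 9, 52, 82, 103, 7⟩
    23 0 1 10 (-4) (-9) 224058554824739782657 (by decide +kernel)) <|
  AllL.cons (i := 3) (j := 20) (k := 22) (OkB.mk ⟨12, 15, 15, 63, 72, 103, 15⟩ ⟨7, 8, 9, 52, 82, 103, 7⟩
    23 1 1 11 (-5) (-9) 280056730680760991745 (by decide +kernel)) <|
  AllL.cons (i := 3) (j := 21) (k := 21) (OkB.mk ⟨12, 15, 15, 63, 72, 103, 15⟩ ⟨7, 8, 9, 52, 82, 103, 7⟩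
    23 0 0 9 (-4) (-10) 327314123897253658625 (by decide +kernel)) <|
  AllL.cons (i := 3) (j := 21) (k := 22) (OkB.mk ⟨12, 15, 15, 63, 72, 103, 15⟩ ⟨7, 8, 9, 52, 82, 103, 7⟩
    23 1 0 10 (-5) (-10) 301966222111723749377 (by decide +kernel)) <|
  AllL.cons (i := 3) (j := 22) (k := 22) (OkB.mk ⟨13, 14, 14, 63, 72, 103, 15⟩ ⟨7, 8, 8, 52, 82, 103, 7⟩
    24 0 0 10 (-6) (-12) 350239849395548848129 (by decide +kernel)) <|
  AllL.cons (i := 4) (j := 4) (k := 4) (OkB.mk ⟨18, 19, 19, 63, 72, 103, 15⟩ ⟨11, 11, 12, 52, 82, 103, 7⟩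
    24 (-24) 15 34 15 (-37) 138434991022558674945 (by decide +kernel)) <|
  AllL.cons (i := 4) (j := 4) (k := 5) (OkB.mk ⟨19, 19, 20, 63, 72, 103, 14⟩ ⟨12, 12, 12, 52, 82, 103, 7⟩
    22 (-25) 11 38 20 (-35) 132165690619945025537 (by decide +kernel)) <|
  AllL.cons (i := 4) (j := 4) (k := 6) (OkB.mk ⟨19, 20, 20, 63, 72, 103, 14⟩ ⟨12, 12, 13, 52, 82, 103, 7⟩
    20 (-25) 7 44 27 (-32) 131266434144447496193 (by decide +kernel)) <|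
  AllL.cons (i := 4) (j := 4) (k := 7) (OkB.mk ⟨19, 19, 21, 63, 72, 103, 14⟩ ⟨14, 12, 13, 52, 82, 103, 7⟩
    18 (-23) 4 53 37 (-30) 128103690046661459969 (by decide +kernel)) <|
  AllL.cons (i := 4) (j := 4) (k := 8) (OkB.mk ⟨19, 18, 20, 63, 72, 103, 14⟩ ⟨13, 12, 13, 52, 82, 103, 7⟩
    17 (-21) 5 60 38 (-27) 119069186344789999617 (by decide +kernel)) <|
  AllL.cons (i := 4) (j := 4) (k := 9) (OkB.mk ⟨19, 17, 19, 63, 72, 103, 14⟩ ⟨12, 11, 13, 52, 82, 103, 7⟩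
    16 (-18) 6 64 35 (-24) 117483455831804477441 (by decide +kernel)) <|
  AllL.cons (i := 4) (j := 4) (k := 10) (OkB.mk ⟨18, 16, 20, 63, 72, 103, 14⟩ ⟨12, 11, 12, 52, 82, 103, 7⟩
    14 (-15) 8 66 31 (-22) 108104312546668838913 (by decide +kernel)) <|
  AllL.cons (i := 4) (j := 4) (k := 11) (OkB.mk ⟨18, 16, 19, 63, 72, 103, 14⟩ ⟨12, 10, 12, 52, 82, 103, 7⟩
    14 (-12) 9 67 28 (-20) 85335982687645597697 (by decide +kernel)) <|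
  AllL.cons (i := 4) (j := 4) (k := 12) (OkB.mk ⟨18, 16, 19, 63, 72, 103, 14⟩ ⟨11, 10, 12, 52, 82, 103, 7⟩
    13 (-9) 10 66 24 (-19) 82861372477588635649 (by decide +kernel)) <|
  AllL.cons (i := 4) (j := 4) (k := 13) (OkB.mk ⟨19, 15, 19, 63, 72, 103, 14⟩ ⟨11, 10, 12, 52, 82, 103, 7⟩
    12 (-6) 11 73 18 (-18) 94006542268287156225 (by decide +kernel)) <|
  AllL.cons (i := 4) (j := 4) (k := 14) (OkB.mk ⟨18, 15, 20, 63, 72, 103, 13⟩ ⟨11, 10, 12, 52, 82, 103, 7⟩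
    12 (-3) 12 82 8 (-17) 96292116055520706561 (by decide +kernel)) <|
  AllL.nil

end Pool.Agent.MP_48470b_gt.Run
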