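import Pool.Agent.MP_48470b_gt.Run.OkB
import Pool.Agent.MP_48470b_gt.Run.B50

/-! Runs of the tests. -/

namespace Pool.Agent.MP_48470b_gt.Run

/-- the boxes of this part -/
def b51l : List (Nat × Nat × Nat) :=
  [(4, 4, 15), (4, 4, 16), (4, 4, 17), (4, 4, 18), (4, 4, 19), (4, 4, 20), (4, 4, 21), (4, 4, 22), (4, 5, 5), (4, 5, 6), (4, 5, 7), (4, 5, 8), (4, 5, 9), (4, 5, 10), (4, 5, 11), (4, 5, 12), (4, 5, 13), (4, 5, 14)]

theorem b51 : AllL OkB b51l :=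
  AllL.cons (i := 4) (j := 4) (k := 15) (OkB.mk ⟨19, 15, 19, 63, 72, 103, 13⟩ ⟨11, 10, 12, 52, 82, 103, 7⟩
    12 1 12 90 2 (-17) 91477384186864599041 (by decide +kernel)) <|
  AllL.cons (i := 4) (j := 4) (k := 16) (OkB.mk ⟨19, 15, 19, 63, 72, 103, 13⟩ ⟨12, 9, 12, 52, 82, 103, 7⟩
    12 4 12 96 (-8) (-17) 93649402612204699649 (by decide +kernel)) <|
  AllL.cons (i := 4) (j := 4) (k := 17) (OkB.mk ⟨19, 15, 20, 63, 72, 103, 13⟩ ⟨12, 9, 12, 52, 82, 103, 7⟩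
    12 6 11 102 (-22) (-17) 81932634796815548417 (by decide +kernel)) <|
  AllL.cons (i := 4) (j := 4) (k := 18) (OkB.mk ⟨19, 15, 20, 63, 72, 103, 13⟩ ⟨12, 10, 12, 52, 82, 103, 7⟩
    12 8 10 109 (-37) (-17) 84464691190888923137 (by decide +kernel)) <|
  AllL.cons (i := 4) (j := 4) (k := 19) (OkB.mk ⟨19, 15, 20, 63, 72, 103, 13⟩ ⟨12, 10, 13, 52, 82, 103, 7⟩
    12 11 8 116 (-49) (-18) 90071275253511749633 (by decide +kernel)) <|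
  AllL.cons (i := 4) (j := 4) (k := 20) (OkB.mk ⟨19, 15, 21, 63, 72, 103, 13⟩ ⟨13, 10, 13, 52, 82, 103, 7⟩
    12 14 5 124 (-72) (-19) 92862150912327548929 (by decide +kernel)) <|
  AllL.cons (i := 4) (j := 4) (k := 21) (OkB.mk ⟨20, 14, 20, 63, 72, 103, 12⟩ ⟨13, 10, 13, 52, 82, 103, 7⟩
    13 17 1 139 (-104) (-21) 95671280250870824961 (by decide +kernel)) <|
  AllL.cons (i := 4) (j := 4) (k := 22) (OkB.mk ⟨20, 14, 20, 63, 72, 103, 12⟩ ⟨13, 10, 13, 52, 82, 103, 7⟩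
    13 19 (-3) 154 (-145) (-23) 95336533111160700929 (by decide +kernel)) <|
  AllL.cons (i := 4) (j := 5) (k := 5) (OkB.mk ⟨19, 19, 19, 63, 72, 103, 15⟩ ⟨11, 13, 13, 52, 82, 103, 7⟩
    19 (-21) 12 33 18 (-38) 125259776008506048513 (by decide +kernel)) <|
  AllL.cons (i := 4) (j := 5) (k := 6) (OkB.mk ⟨19, 18, 20, 63, 72, 103, 14⟩ ⟨12, 11, 12, 52, 82, 103, 7⟩
    17 (-20) 8 37 23 (-34) 118326305986407563265 (by decide +kernel)) <|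
  AllL.cons (i := 4) (j := 5) (k := 7) (OkB.mk ⟨19, 18, 19, 63, 72, 103, 14⟩ ⟨12, 12, 12, 52, 82, 103, 7⟩
    16 (-18) 6 42 30 (-31) 96346594795092705281 (by decide +kernel)) <|
  AllL.cons (i := 4) (j := 5) (k := 8) (OkB.mk ⟨19, 17, 19, 63, 72, 103, 14⟩ ⟨12, 11, 13, 52, 82, 103, 7⟩
    15 (-17) 6 46 31 (-28) 97489205491971129345 (by decide +kernel)) <|
  AllL.cons (i := 4) (j := 5) (k := 9) (OkB.mk ⟨19, 16, 19, 63, 72, 103, 14⟩ ⟨11, 11, 13, 52, 82, 103, 7⟩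
    14 (-15) 7 49 32 (-25) 103137529902202355713 (by decide +kernel)) <|
  AllL.cons (i := 4) (j := 5) (k := 10) (OkB.mk ⟨17, 16, 19, 63, 72, 103, 14⟩ ⟨11, 11, 11, 52, 82, 103, 7⟩
    13 (-13) 9 50 29 (-23) 92054594393781305345 (by decide +kernel)) <|
  AllL.cons (i := 4) (j := 5) (k := 11) (OkB.mk ⟨17, 15, 19, 63, 72, 103, 14⟩ ⟨11, 10, 11, 52, 82, 103, 7⟩
    12 (-11) 10 51 26 (-21) 90711753283636035585 (by decide +kernel)) <|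
  AllL.cons (i := 4) (j := 5) (k := 12) (OkB.mk ⟨17, 15, 19, 63, 72, 103, 14⟩ ⟨10, 10, 11, 52, 82, 103, 7⟩
    12 (-9) 12 50 21 (-19) 87851910483090079745 (by decide +kernel)) <|
  AllL.cons (i := 4) (j := 5) (k := 13) (OkB.mk ⟨17, 15, 19, 63, 72, 103, 14⟩ ⟨10, 10, 11, 52, 82, 103, 7⟩
    12 (-7) 14 55 15 (-18) 75690163714870214657 (by decide +kernel)) <|
  AllL.cons (i := 4) (j := 5) (k := 14) (OkB.mk ⟨17, 15, 19, 63, 72, 103, 14⟩ ⟨11, 9, 11, 52, 82, 103, 7⟩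
    11 (-4) 15 61 11 (-18) 72874675488266649601 (by decide +kernel)) <|
  AllL.nil

end Pool.Agent.MP_48470b_gt.Run
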