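import Pool.Agent.MP_48470b_gt.Run.OkF

/-! Runs of the tests. -/

namespace Pool.Agent.MP_48470b_gt.Run

/-- the boxes of this part -/
def f38l : List (Nat × Nat × Nat) :=
  [(8, 15, 22), (8, 16, 16), (8, 16, 17), (8, 16, 18), (8, 16, 19), (8, 16, 20), (8, 16, 21), (8, 16, 22), (8, 17, 17), (8, 17, 18), (8, 17, 19), (8, 17, 20), (8, 17, 21), (8, 17, 22), (8, 18, 18), (8, 18, 19), (8, 18, 20), (8, 18, 21), (8, 18, 22), (8, 19, 19), (8, 19, 20), (8, 19, 21), (8, 19, 22), (8, 20, 20), (8, 20, 21), (8, 20, 22), (8, 21, 21), (8, 21, 22), (8, 22, 22), (9, 9, 9), (9, 9, 10), (9, 9, 11), (9, 9, 12), (9, 9, 13), (9, 9, 14), (9, 9, 15), (9, 9, 16), (9, 9, 17), (9, 9, 18), (9, 9, 19), (9, 9, 20), (9, 9, 21), (9, 9, 22), (9, 10, 10), (9, 10, 11), (9, 10, 12), (9, 10, 13), (9, 10, 14), (9, 10, 15), (9, 10, 16), (9, 10, 17), (9, 10, 18), (9, 10, 19), (9, 10, 20), (9, 10, 21)]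

theorem f38 : AllL OkF f38l :=
  AllL.cons (i := 8) (j := 15) (k := 22) (OkF.mk (by decide +kernel)) <|
  AllL.cons (i := 8) (j := 16) (k := 16) (OkF.mk (by decide +kernel)) <|
  AllL.cons (i := 8) (j := 16) (k := 17) (OkF.mk (by decide +kernel)) <|
  AllL.cons (i := 8) (j := 16) (k := 18) (OkF.mk (by decide +kernel)) <|
  AllL.cons (i := 8) (j := 16) (k := 19) (OkF.mk (by decide +kernel)) <|
  AllL.cons (i := 8) (j := 16) (k := 20) (OkF.mk (by decide +kernel)) <|
  AllL.cons (i := 8) (j := 16) (k := 21) (OkF.mk (by decide +kernel)) <|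
  AllL.cons (i := 8) (j := 16) (k := 22) (OkF.mk (by decide +kernel)) <|
  AllL.cons (i := 8) (j := 17) (k := 17) (OkF.mk (by decide +kernel)) <|
  AllL.cons (i := 8) (j := 17) (k := 18) (OkF.mk (by decide +kernel)) <|
  AllL.cons (i := 8) (j := 17) (k := 19) (OkF.mk (by decide +kernel)) <|
  AllL.cons (i := 8) (j := 17) (k := 20) (OkF.mk (by decide +kernel)) <|
  AllL.cons (i := 8) (j := 17) (k := 21) (OkF.mk (by decide +kernel)) <|
  AllL.cons (i := 8) (j := 17) (k := 22) (OkF.mk (by decide +kernel)) <|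
  AllL.cons (i := 8) (j := 18) (k := 18) (OkF.mk (by decide +kernel)) <|
  AllL.cons (i := 8) (j := 18) (k := 19) (OkF.mk (by decide +kernel)) <|
  AllL.cons (i := 8) (j := 18) (k := 20) (OkF.mk (by decide +kernel)) <|
  AllL.cons (i := 8) (j := 18) (k := 21) (OkF.mk (by decide +kernel)) <|
  AllL.cons (i := 8) (j := 18) (k := 22) (OkF.mk (by decide +kernel)) <|
  AllL.cons (i := 8) (j := 19) (k := 19) (OkF.mk (by decide +kernel)) <|
  AllL.cons (i := 8) (j := 19) (k := 20) (OkF.mk (by decide +kernel)) <|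
  AllL.cons (i := 8) (j := 19) (k := 21) (OkF.mk (by decide +kernel)) <|
  AllL.cons (i := 8) (j := 19) (k := 22) (OkF.mk (by decide +kernel)) <|
  AllL.cons (i := 8) (j := 20) (k := 20) (OkF.mk (by decide +kernel)) <|
  AllL.cons (i := 8) (j := 20) (k := 21) (OkF.mk (by decide +kernel)) <|
  AllL.cons (i := 8) (j := 20) (k := 22) (OkF.mk (by decide +kernel)) <|
  AllL.cons (i := 8) (j := 21) (k := 21) (OkF.mk (by decide +kernel)) <|
  AllL.cons (i := 8) (j := 21) (k := 22) (OkF.mk (by decide +kernel)) <|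
  AllL.cons (i := 8) (j := 22) (k := 22) (OkF.mk (by decide +kernel)) <|
  AllL.cons (i := 9) (j := 9) (k := 9) (OkF.mk (by decide +kernel)) <|
  AllL.cons (i := 9) (j := 9) (k := 10) (OkF.mk (by decide +kernel)) <|
  AllL.cons (i := 9) (j := 9) (k := 11) (OkF.mk (by decide +kernel)) <|
  AllL.cons (i := 9) (j := 9) (k := 12) (OkF.mk (by decide +kernel)) <|
  AllL.cons (i := 9) (j := 9) (k := 13) (OkF.mk (by decide +kernel)) <|
  AllL.cons (i := 9) (j := 9) (k := 14) (OkF.mk (by decide +kernel)) <|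
  AllL.cons (i := 9) (j := 9) (k := 15) (OkF.mk (by decide +kernel)) <|
  AllL.cons (i := 9) (j := 9) (k := 16) (OkF.mk (by decide +kernel)) <|
  AllL.cons (i := 9) (j := 9) (k := 17) (OkF.mk (by decide +kernel)) <|
  AllL.cons (i := 9) (j := 9) (k := 18) (OkF.mk (by decide +kernel)) <|
  AllL.cons (i := 9) (j := 9) (k := 19) (OkF.mk (by decide +kernel)) <|
  AllL.cons (i := 9) (j := 9) (k := 20) (OkF.mk (by decide +kernel)) <|
  AllL.cons (i := 9) (j := 9) (k := 21) (OkF.mk (by decide +kernel)) <|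
  AllL.cons (i := 9) (j := 9) (k := 22) (OkF.mk (by decide +kernel)) <|
  AllL.cons (i := 9) (j := 10) (k := 10) (OkF.mk (by decide +kernel)) <|
  AllL.cons (i := 9) (j := 10) (k := 11) (OkF.mk (by decide +kernel)) <|
  AllL.cons (i := 9) (j := 10) (k := 12) (OkF.mk (by decide +kernel)) <|
  AllL.cons (i := 9) (j := 10) (k := 13) (OkF.mk (by decide +kernel)) <|
  AllL.cons (i := 9) (j := 10) (k := 14) (OkF.mk (by decide +kernel)) <|
  AllL.cons (i := 9) (j := 10) (k := 15) (OkF.mk (by decide +kernel)) <|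
  AllL.cons (i := 9) (j := 10) (k := 16) (OkF.mk (by decide +kernel)) <|
  AllL.cons (i := 9) (j := 10) (k := 17) (OkF.mk (by decide +kernel)) <|
  AllL.cons (i := 9) (j := 10) (k := 18) (OkF.mk (by decide +kernel)) <|
  AllL.cons (i := 9) (j := 10) (k := 19) (OkF.mk (by decide +kernel)) <|
  AllL.cons (i := 9) (j := 10) (k := 20) (OkF.mk (by decide +kernel)) <|
  AllL.cons (i := 9) (j := 10) (k := 21) (OkF.mk (by decide +kernel)) <|
  AllL.nil

end Pool.Agent.MP_48470b_gt.Run
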