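import Pool.Agent.MP_48470b_gt.Run.OkB
import Pool.Agent.MP_48470b_gt.Run.F38

/-! Runs of the tests. -/

namespace Pool.Agent.MP_48470b_gt.Run

/-- the boxes of this part -/
def b76l : List (Nat × Nat × Nat) :=
  [(8, 9, 22), (8, 10, 10), (8, 10, 11), (8, 10, 12), (8, 10, 13), (8, 10, 14), (8, 10, 15), (8, 10, 16), (8, 10, 17), (8, 10, 18), (8, 10, 19), (8, 10, 20), (8, 10, 21), (8, 10, 22), (8, 11, 11), (8, 11, 12), (8, 11, 13), (8, 11, 14), (8, 11, 15), (8, 11, 16), (8, 11, 17), (8, 11, 18), (8, 11, 19), (8, 11, 20), (8, 11, 21), (8, 11, 22), (8, 12, 12), (8, 12, 13), (8, 12, 14), (8, 12, 15), (8, 12, 16), (8, 12, 17), (8, 12, 18), (8, 12, 19)]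

theorem b76 : AllL OkB b76l :=
  AllL.cons (i := 8) (j := 9) (k := 22) (OkB.mk ⟨16, 12, 18, 63, 72, 103, 15⟩ ⟨9, 8, 10, 52, 82, 103, 7⟩
    9 9 21 28 (-7) (-22) 70206124621209534465 (by decide +kernel)) <|
  AllL.cons (i := 8) (j := 10) (k := 10) (OkB.mk ⟨14, 15, 15, 63, 72, 103, 16⟩ ⟨7, 8, 8, 52, 82, 103, 7⟩
    13 (-11) 8 16 5 (-17) 71266764252336095233 (by decide +kernel)) <|
  AllL.cons (i := 8) (j := 10) (k := 11) (OkB.mk ⟨14, 15, 15, 63, 72, 103, 16⟩ ⟨7, 8, 8, 52, 82, 103, 7⟩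
    13 (-9) 9 15 5 (-17) 65692905091729719297 (by decide +kernel)) <|
  AllL.cons (i := 8) (j := 10) (k := 12) (OkB.mk ⟨14, 15, 14, 63, 72, 103, 16⟩ ⟨7, 8, 8, 52, 82, 103, 7⟩
    12 (-8) 10 13 4 (-16) 72926956304094724097 (by decide +kernel)) <|
  AllL.cons (i := 8) (j := 10) (k := 13) (OkB.mk ⟨14, 15, 14, 63, 72, 103, 16⟩ ⟨7, 8, 8, 52, 82, 103, 7⟩
    12 (-7) 11 13 3 (-15) 62016454180600807425 (by decide +kernel)) <|
  AllL.cons (i := 8) (j := 10) (k := 14) (OkB.mk ⟨14, 14, 14, 63, 72, 103, 16⟩ ⟨7, 8, 8, 52, 82, 103, 7⟩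
    11 (-5) 11 13 3 (-15) 65345651694448410625 (by decide +kernel)) <|
  AllL.cons (i := 8) (j := 10) (k := 15) (OkB.mk ⟨14, 14, 14, 63, 72, 103, 16⟩ ⟨8, 7, 8, 52, 82, 103, 7⟩
    10 (-4) 12 13 2 (-15) 64429768129237745665 (by decide +kernel)) <|
  AllL.cons (i := 8) (j := 10) (k := 16) (OkB.mk ⟨14, 13, 15, 63, 72, 103, 16⟩ ⟨8, 7, 8, 52, 82, 103, 7⟩
    10 (-3) 13 14 0 (-14) 74840956733791141889 (by decide +kernel)) <|
  AllL.cons (i := 8) (j := 10) (k := 17) (OkB.mk ⟨14, 13, 15, 63, 72, 103, 16⟩ ⟨8, 8, 8, 52, 82, 103, 7⟩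
    10 (-1) 14 15 0 (-15) 77174170298271924225 (by decide +kernel)) <|
  AllL.cons (i := 8) (j := 10) (k := 18) (OkB.mk ⟨14, 13, 15, 63, 72, 103, 16⟩ ⟨8, 8, 8, 52, 82, 103, 7⟩
    10 1 15 16 0 (-15) 75546677035128586241 (by decide +kernel)) <|
  AllL.cons (i := 8) (j := 10) (k := 19) (OkB.mk ⟨14, 13, 15, 63, 72, 103, 16⟩ ⟨9, 8, 8, 52, 82, 103, 7⟩
    9 3 16 17 (-1) (-16) 79656572334918074369 (by decide +kernel)) <|
  AllL.cons (i := 8) (j := 10) (k := 20) (OkB.mk ⟨14, 13, 16, 63, 72, 103, 16⟩ ⟨9, 7, 9, 52, 82, 103, 7⟩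
    9 5 17 18 (-2) (-17) 75753062377048768513 (by decide +kernel)) <|
  AllL.cons (i := 8) (j := 10) (k := 21) (OkB.mk ⟨14, 13, 16, 63, 72, 103, 16⟩ ⟨9, 7, 9, 52, 82, 103, 7⟩
    9 7 18 21 (-3) (-18) 76471608756402126849 (by decide +kernel)) <|
  AllL.cons (i := 8) (j := 10) (k := 22) (OkB.mk ⟨15, 12, 16, 63, 72, 103, 15⟩ ⟨8, 7, 9, 52, 82, 103, 7⟩
    10 9 19 25 (-6) (-19) 64966759162883080193 (by decide +kernel)) <|
  AllL.cons (i := 8) (j := 11) (k := 11) (OkB.mk ⟨14, 15, 15, 63, 72, 103, 16⟩ ⟨7, 7, 8, 52, 82, 103, 7⟩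
    13 (-10) 7 15 5 (-16) 65754072435411386369 (by decide +kernel)) <|
  AllL.cons (i := 8) (j := 11) (k := 12) (OkB.mk ⟨14, 16, 14, 63, 72, 103, 16⟩ ⟨7, 7, 8, 52, 82, 103, 7⟩
    12 (-9) 8 13 4 (-15) 72054847183003844609 (by decide +kernel)) <|
  AllL.cons (i := 8) (j := 11) (k := 13) (OkB.mk ⟨14, 14, 15, 63, 72, 103, 16⟩ ⟨7, 7, 8, 52, 82, 103, 7⟩
    12 (-7) 9 12 4 (-15) 73931096843033247745 (by decide +kernel)) <|
  AllL.cons (i := 8) (j := 11) (k := 14) (OkB.mk ⟨14, 14, 14, 63, 72, 103, 16⟩ ⟨7, 7, 8, 52, 82, 103, 7⟩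
    11 (-6) 10 12 3 (-14) 64486131706617659393 (by decide +kernel)) <|
  AllL.cons (i := 8) (j := 11) (k := 15) (OkB.mk ⟨14, 13, 15, 63, 72, 103, 16⟩ ⟨7, 7, 8, 52, 82, 103, 7⟩
    11 (-5) 11 12 1 (-14) 78740250614323740673 (by decide +kernel)) <|
  AllL.cons (i := 8) (j := 11) (k := 16) (OkB.mk ⟨14, 13, 14, 63, 72, 103, 16⟩ ⟨7, 7, 8, 52, 82, 103, 7⟩
    11 (-3) 12 13 1 (-13) 82128264166237011969 (by decide +kernel)) <|
  AllL.cons (i := 8) (j := 11) (k := 17) (OkB.mk ⟨14, 13, 14, 63, 72, 103, 16⟩ ⟨8, 7, 8, 52, 82, 103, 7⟩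
    10 (-2) 13 13 (-1) (-13) 83407665791921815553 (by decide +kernel)) <|
  AllL.cons (i := 8) (j := 11) (k := 18) (OkB.mk ⟨14, 13, 14, 63, 72, 103, 16⟩ ⟨8, 7, 8, 52, 82, 103, 7⟩
    10 0 14 14 (-1) (-14) 86006421859870965761 (by decide +kernel)) <|
  AllL.cons (i := 8) (j := 11) (k := 19) (OkB.mk ⟨14, 13, 14, 63, 72, 103, 16⟩ ⟨8, 7, 8, 52, 82, 103, 7⟩
    10 2 14 15 (-2) (-14) 86301265111268982785 (by decide +kernel)) <|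
  AllL.cons (i := 8) (j := 11) (k := 20) (OkB.mk ⟨14, 13, 14, 63, 72, 103, 16⟩ ⟨8, 7, 8, 52, 82, 103, 7⟩
    10 4 15 16 (-4) (-15) 82749997584692019201 (by decide +kernel)) <|
  AllL.cons (i := 8) (j := 11) (k := 21) (OkB.mk ⟨14, 13, 14, 63, 72, 103, 16⟩ ⟨8, 7, 8, 52, 82, 103, 7⟩
    10 6 16 19 (-6) (-16) 78413309182537105409 (by decide +kernel)) <|
  AllL.cons (i := 8) (j := 11) (k := 22) (OkB.mk ⟨14, 12, 15, 63, 72, 103, 16⟩ ⟨8, 7, 8, 52, 82, 103, 7⟩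
    10 8 16 22 (-8) (-16) 69169195133702242305 (by decide +kernel)) <|
  AllL.cons (i := 8) (j := 12) (k := 12) (OkB.mk ⟨14, 15, 15, 63, 72, 103, 16⟩ ⟨7, 7, 8, 52, 82, 103, 7⟩
    12 (-9) 6 13 5 (-13) 66542484669811654657 (by decide +kernel)) <|
  AllL.cons (i := 8) (j := 12) (k := 13) (OkB.mk ⟨14, 14, 15, 63, 72, 103, 16⟩ ⟨7, 7, 8, 52, 82, 103, 7⟩
    12 (-8) 8 12 4 (-13) 77132175001404833793 (by decide +kernel)) <|
  AllL.cons (i := 8) (j := 12) (k := 14) (OkB.mk ⟨14, 14, 15, 63, 72, 103, 16⟩ ⟨7, 7, 8, 52, 82, 103, 7⟩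
    12 (-7) 8 12 3 (-13) 64429523350461612033 (by decide +kernel)) <|
  AllL.cons (i := 8) (j := 12) (k := 15) (OkB.mk ⟨13, 14, 15, 63, 72, 103, 16⟩ ⟨7, 7, 8, 52, 82, 103, 7⟩
    11 (-5) 9 12 2 (-12) 82174741072498917377 (by decide +kernel)) <|
  AllL.cons (i := 8) (j := 12) (k := 16) (OkB.mk ⟨13, 13, 15, 63, 72, 103, 16⟩ ⟨7, 7, 8, 52, 82, 103, 7⟩
    11 (-4) 10 12 1 (-12) 91702929343532498945 (by decide +kernel)) <|
  AllL.cons (i := 8) (j := 12) (k := 17) (OkB.mk ⟨13, 13, 15, 63, 72, 103, 16⟩ ⟨7, 7, 8, 52, 82, 103, 7⟩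
    11 (-2) 11 13 0 (-12) 87725920194442297345 (by decide +kernel)) <|
  AllL.cons (i := 8) (j := 12) (k := 18) (OkB.mk ⟨13, 13, 15, 63, 72, 103, 16⟩ ⟨8, 7, 8, 52, 82, 103, 7⟩
    11 (-1) 12 13 (-2) (-12) 97661516006473859073 (by decide +kernel)) <|
  AllL.cons (i := 8) (j := 12) (k := 19) (OkB.mk ⟨13, 13, 15, 63, 72, 103, 16⟩ ⟨8, 7, 8, 52, 82, 103, 7⟩
    11 1 13 14 (-3) (-12) 96703242144843825153 (by decide +kernel)) <|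
  AllL.nil

end Pool.Agent.MP_48470b_gt.Run
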