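import Pool.Agent.MP_48470b_gt.Run.OkB
import Pool.Agent.MP_48470b_gt.Run.B76

/-! Runs of the tests. -/

namespace Pool.Agent.MP_48470b_gt.Run

/-- the boxes of this part -/
def b77l : List (Nat × Nat × Nat) :=
  [(8, 12, 20), (8, 12, 21), (8, 12, 22), (8, 13, 13), (8, 13, 14), (8, 13, 15), (8, 13, 16), (8, 13, 17), (8, 13, 18), (8, 13, 19), (8, 13, 20), (8, 13, 21), (8, 13, 22), (8, 14, 14), (8, 14, 15), (8, 14, 16), (8, 14, 17), (8, 14, 18), (8, 14, 19), (8, 14, 20), (8, 14, 21), (8, 14, 22), (8, 15, 15), (8, 15, 16), (8, 15, 17), (8, 15, 18), (8, 15, 19), (8, 15, 20), (8, 15, 21), (8, 15, 22), (8, 16, 16), (8, 16, 17), (8, 16, 18), (8, 16, 19), (8, 16, 20)]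

theorem b77 : AllL OkB b77l :=
  AllL.cons (i := 8) (j := 12) (k := 20) (OkB.mk ⟨13, 13, 15, 63, 72, 103, 16⟩ ⟨8, 7, 8, 52, 82, 103, 7⟩
    11 4 13 15 (-3) (-12) 95178131418749337601 (by decide +kernel)) <|
  AllL.cons (i := 8) (j := 12) (k := 21) (OkB.mk ⟨13, 13, 15, 63, 72, 103, 16⟩ ⟨8, 7, 8, 52, 82, 103, 7⟩
    11 6 14 17 (-4) (-13) 82122374769641783297 (by decide +kernel)) <|
  AllL.cons (i := 8) (j := 12) (k := 22) (OkB.mk ⟨13, 12, 15, 63, 72, 103, 16⟩ ⟨8, 7, 8, 52, 82, 103, 7⟩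
    11 8 15 19 (-5) (-14) 89520339251330285569 (by decide +kernel)) <|
  AllL.cons (i := 8) (j := 13) (k := 13) (OkB.mk ⟨14, 14, 15, 63, 72, 103, 16⟩ ⟨7, 7, 8, 52, 82, 103, 7⟩
    12 (-8) 6 12 4 (-13) 74904124226562686977 (by decide +kernel)) <|
  AllL.cons (i := 8) (j := 13) (k := 14) (OkB.mk ⟨14, 14, 15, 63, 72, 103, 16⟩ ⟨7, 7, 8, 52, 82, 103, 7⟩
    12 (-7) 7 12 3 (-12) 67700420359758020609 (by decide +kernel)) <|
  AllL.cons (i := 8) (j := 13) (k := 15) (OkB.mk ⟨13, 14, 15, 63, 72, 103, 16⟩ ⟨7, 7, 7, 52, 82, 103, 7⟩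
    12 (-6) 8 12 2 (-12) 82271428689071702017 (by decide +kernel)) <|
  AllL.cons (i := 8) (j := 13) (k := 16) (OkB.mk ⟨13, 13, 15, 63, 72, 103, 16⟩ ⟨7, 8, 7, 52, 82, 103, 7⟩
    12 (-5) 9 12 1 (-11) 92651743144556101633 (by decide +kernel)) <|
  AllL.cons (i := 8) (j := 13) (k := 17) (OkB.mk ⟨13, 13, 15, 63, 72, 103, 16⟩ ⟨7, 7, 8, 52, 82, 103, 7⟩
    12 (-3) 10 12 0 (-11) 90103633880717197313 (by decide +kernel)) <|
  AllL.cons (i := 8) (j := 13) (k := 18) (OkB.mk ⟨13, 13, 15, 63, 72, 103, 16⟩ ⟨7, 7, 8, 52, 82, 103, 7⟩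
    12 (-1) 10 12 (-1) (-11) 97917386655908495361 (by decide +kernel)) <|
  AllL.cons (i := 8) (j := 13) (k := 19) (OkB.mk ⟨13, 13, 15, 63, 72, 103, 16⟩ ⟨7, 7, 8, 52, 82, 103, 7⟩
    12 1 11 13 (-2) (-11) 102290637393099751425 (by decide +kernel)) <|
  AllL.cons (i := 8) (j := 13) (k := 20) (OkB.mk ⟨13, 13, 15, 63, 72, 103, 16⟩ ⟨7, 7, 8, 52, 82, 103, 7⟩
    12 3 12 13 (-3) (-12) 103631191931376107521 (by decide +kernel)) <|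
  AllL.cons (i := 8) (j := 13) (k := 21) (OkB.mk ⟨13, 13, 15, 63, 72, 103, 16⟩ ⟨7, 8, 8, 52, 82, 103, 7⟩
    12 5 12 15 (-4) (-12) 89279148456515993601 (by decide +kernel)) <|
  AllL.cons (i := 8) (j := 13) (k := 22) (OkB.mk ⟨13, 12, 15, 63, 72, 103, 16⟩ ⟨7, 7, 8, 52, 82, 103, 7⟩
    12 7 12 17 (-6) (-13) 95063467474257182721 (by decide +kernel)) <|
  AllL.cons (i := 8) (j := 14) (k := 14) (OkB.mk ⟨13, 15, 14, 63, 72, 103, 16⟩ ⟨7, 7, 7, 52, 82, 103, 7⟩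
    12 (-7) 6 12 3 (-12) 95049386303718162433 (by decide +kernel)) <|
  AllL.cons (i := 8) (j := 14) (k := 15) (OkB.mk ⟨13, 14, 15, 63, 72, 103, 16⟩ ⟨7, 7, 7, 52, 82, 103, 7⟩
    12 (-6) 7 11 2 (-11) 83689183099830140929 (by decide +kernel)) <|
  AllL.cons (i := 8) (j := 14) (k := 16) (OkB.mk ⟨13, 13, 15, 63, 72, 103, 16⟩ ⟨7, 7, 7, 52, 82, 103, 7⟩
    12 (-5) 8 11 1 (-11) 101000968940151635969 (by decide +kernel)) <|
  AllL.cons (i := 8) (j := 14) (k := 17) (OkB.mk ⟨13, 13, 15, 63, 72, 103, 16⟩ ⟨7, 8, 7, 52, 82, 103, 7⟩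
    12 (-4) 8 11 (-1) (-11) 96061274551341809665 (by decide +kernel)) <|
  AllL.cons (i := 8) (j := 14) (k := 18) (OkB.mk ⟨13, 13, 15, 63, 72, 103, 16⟩ ⟨7, 7, 8, 52, 82, 103, 7⟩
    12 (-2) 9 11 (-1) (-11) 101469277055822594049 (by decide +kernel)) <|
  AllL.cons (i := 8) (j := 14) (k := 19) (OkB.mk ⟨13, 13, 15, 63, 72, 103, 16⟩ ⟨7, 7, 8, 52, 82, 103, 7⟩
    12 0 10 12 (-2) (-11) 112227003413026570241 (by decide +kernel)) <|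
  AllL.cons (i := 8) (j := 14) (k := 20) (OkB.mk ⟨13, 13, 15, 63, 72, 103, 16⟩ ⟨7, 7, 8, 52, 82, 103, 7⟩
    13 2 10 12 (-3) (-11) 111563235115285872641 (by decide +kernel)) <|
  AllL.cons (i := 8) (j := 14) (k := 21) (OkB.mk ⟨13, 13, 15, 63, 72, 103, 16⟩ ⟨7, 7, 8, 52, 82, 103, 7⟩
    13 4 10 14 (-5) (-11) 99505903331358801921 (by decide +kernel)) <|
  AllL.cons (i := 8) (j := 14) (k := 22) (OkB.mk ⟨13, 12, 15, 63, 72, 103, 16⟩ ⟨7, 7, 8, 52, 82, 103, 7⟩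
    13 6 10 16 (-6) (-12) 111230043097334284289 (by decide +kernel)) <|
  AllL.cons (i := 8) (j := 15) (k := 15) (OkB.mk ⟨13, 14, 14, 63, 72, 103, 16⟩ ⟨7, 7, 7, 52, 82, 103, 7⟩
    12 (-7) 6 11 1 (-11) 96804185558610870273 (by decide +kernel)) <|
  AllL.cons (i := 8) (j := 15) (k := 16) (OkB.mk ⟨13, 14, 14, 63, 72, 103, 16⟩ ⟨7, 7, 7, 52, 82, 103, 7⟩
    12 (-5) 6 11 1 (-11) 98362525587681050625 (by decide +kernel)) <|
  AllL.cons (i := 8) (j := 15) (k := 17) (OkB.mk ⟨13, 13, 14, 63, 72, 103, 16⟩ ⟨7, 8, 7, 52, 82, 103, 7⟩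
    12 (-4) 7 11 0 (-10) 124779627389554524161 (by decide +kernel)) <|
  AllL.cons (i := 8) (j := 15) (k := 18) (OkB.mk ⟨13, 13, 15, 63, 72, 103, 16⟩ ⟨7, 8, 7, 52, 82, 103, 7⟩
    13 (-2) 8 11 (-1) (-10) 112875336079341780993 (by decide +kernel)) <|
  AllL.cons (i := 8) (j := 15) (k := 19) (OkB.mk ⟨13, 13, 15, 63, 72, 103, 16⟩ ⟨8, 8, 7, 52, 82, 103, 7⟩
    13 (-1) 8 11 (-2) (-10) 123978730063181905921 (by decide +kernel)) <|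
  AllL.cons (i := 8) (j := 15) (k := 20) (OkB.mk ⟨13, 13, 15, 63, 72, 103, 16⟩ ⟨7, 7, 8, 52, 82, 103, 7⟩
    13 2 8 11 (-3) (-10) 128161305143151689729 (by decide +kernel)) <|
  AllL.cons (i := 8) (j := 15) (k := 21) (OkB.mk ⟨13, 13, 15, 63, 72, 103, 16⟩ ⟨7, 7, 8, 52, 82, 103, 7⟩
    14 4 9 13 (-4) (-11) 109575734807173791745 (by decide +kernel)) <|
  AllL.cons (i := 8) (j := 15) (k := 22) (OkB.mk ⟨13, 12, 15, 63, 72, 103, 16⟩ ⟨7, 7, 8, 52, 82, 103, 7⟩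
    14 6 9 14 (-5) (-11) 127666603388294922241 (by decide +kernel)) <|
  AllL.cons (i := 8) (j := 16) (k := 16) (OkB.mk ⟨13, 14, 14, 63, 72, 103, 16⟩ ⟨8, 7, 7, 52, 82, 103, 7⟩
    12 (-6) 6 10 0 (-10) 95972006439233257473 (by decide +kernel)) <|
  AllL.cons (i := 8) (j := 16) (k := 17) (OkB.mk ⟨13, 13, 14, 63, 72, 103, 16⟩ ⟨7, 8, 7, 52, 82, 103, 7⟩
    13 (-4) 6 10 0 (-10) 120381668701941792769 (by decide +kernel)) <|
  AllL.cons (i := 8) (j := 16) (k := 18) (OkB.mk ⟨13, 13, 14, 63, 72, 103, 16⟩ ⟨7, 8, 7, 52, 82, 103, 7⟩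
    13 (-3) 6 10 (-1) (-10) 131684243065444237313 (by decide +kernel)) <|
  AllL.cons (i := 8) (j := 16) (k := 19) (OkB.mk ⟨13, 13, 14, 63, 72, 103, 16⟩ ⟨8, 8, 7, 52, 82, 103, 7⟩
    13 (-1) 7 10 (-2) (-9) 156991668529420828673 (by decide +kernel)) <|
  AllL.cons (i := 8) (j := 16) (k := 20) (OkB.mk ⟨13, 13, 15, 63, 72, 103, 16⟩ ⟨7, 8, 8, 52, 82, 103, 7⟩
    14 1 7 11 (-3) (-10) 159813971666532302849 (by decide +kernel)) <|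
  AllL.nil

end Pool.Agent.MP_48470b_gt.Run
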