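/-! Conjunctions along lists of index triples. -/

namespace Pool.Agent.MP_48470b_gt.Run

/-- the property holds for all triples of the list -/
def AllL (p : Nat → Nat → Nat → Prop) (l : List (Nat × Nat × Nat)) : Prop :=
  List.rec True (fun a _ r => p a.1 a.2.1 a.2.2 ∧ r) l

/-- the sorted triples below `n` -/
def srt (n : Nat) : List (Nat × Nat × Nat) :=
  (List.range n).flatMap fun i => (List.range n).flatMap fun j =>
    ((List.range n).filter fun k => Nat.ble i j && Nat.ble j k).map fun k => (i, j, k)

variable {p : Nat → Nat → Nat → Prop}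

theorem AllL.nil : AllL p [] := trivial

theorem AllL.cons {i j k : Nat} {l : List (Nat × Nat × Nat)} (h : p i j k) (t : AllL p l) :
    AllL p ((i, j, k) :: l) := ⟨h, t⟩

theorem AllL.app {l m : List (Nat × Nat × Nat)} (h : AllL p l) (t : AllL p m) :
    AllL p (l ++ m) := by
  induction l with
  | nil => exact t
  | cons a l ih => exact ⟨h.1, ih h.2⟩

theorem AllL.mem {l : List (Nat × Nat × Nat)} (h : AllL p l) {a : Nat × Nat × Nat} (m : a ∈ l) :
    p a.1 a.2.1 a.2.2 := by
  induction l with
  | nil => cases m
  | cons b l ih =>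
    cases m with
    | head => exact h.1
    | tail _ m => exact ih h.2 m

theorem AllL.all {l : List (Nat × Nat × Nat)} {n : Nat} (h : AllL p l) (e : l = srt n)
    (i j k : Nat) (h1 : i ≤ j) (h2 : j ≤ k) (h3 : k < n) : p i j k := by
  refine AllL.mem (a := (i, j, k)) h (e ▸ ?_)
  simp only [srt, List.mem_flatMap, List.mem_range, List.mem_map, List.mem_filter,
    Bool.and_eq_true, Nat.ble_eq]
  exact ⟨i, by omega, j, by omega, k, ⟨h3, h1, h2⟩, rfl⟩

end Pool.Agent.MP_48470b_gt.Run
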