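import Pool.Agent.MP_48470b_gt.Run.All
import Pool.Agent.MP_48470b_gt.Ck.Glue
import Pool.Agent.MP_48470b_gt.Gap.Run.Count

/-! The counterexample. -/

namespace Pool.Agent.MP_48470b_gt.Run

theorem chkF_eq (d p : ℕ → ℕ → ℕ → Ck.Rc) (ef : ℕ → ℕ → ℕ → ℕ → ℕ) (ep w w' : ℕ → ℕ → ℕ → ℕ)
    (e e' : Ck.Ke) (i j k : ℕ) :
    Ck.Tab.chkF ⟨d, p, ef, ep, w, e⟩ i j k = Ck.Tab.chkF ⟨d, p, ef, ep, w', e'⟩ i j k := rfl

/-- **There is an embedded shrinking three-sphere that is not round.** -/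
theorem not_uniq : ¬ Geo.Uniq :=
  Ck.Tab.final' tB Top.ke0_ok allB
    (fun i j k a b c => (chkF_eq _ _ _ _ _ _ _ _ i j k).trans (allF i j k a b c))
    fun _ _ h => Gap.Run.count h

end Pool.Agent.MP_48470b_gt.Run
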