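import Pool.Agent.MP_48470b_gt.Dat.Tab
import Pool.Agent.MP_48470b_gt.Dat.Yr
import Pool.Agent.MP_48470b_gt.Ck.BoxX
import Pool.Agent.MP_48470b_gt.Gap.Run.CW
import Pool.Agent.MP_48470b_gt.Run.Base

/-! The tests on a box, as a property of the box. -/

namespace Pool.Agent.MP_48470b_gt.Run

/-- the tables -/
noncomputable def tB : Ck.Tab := Dat.tab Gap.Run.cw Ck.ke0

/-- the parameters of a box -/
noncomputable def pm (i j k : Nat) (h l : Ck.Rn) (b00 b01 b02 b11 b12 b22 : Int) (et : Nat) :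
    Ck.Pm := ⟨h, l, b00, b01, b02, b11, b12, b22, Dat.toR (Dat.yr i j k), 30, et⟩

/-- the tests on the box pass -/
def OkB (i j k : Nat) : Prop := ∃ p, tB.chkB p i j k = true

theorem OkB.mk {i j k : Nat} (h l : Ck.Rn) (b00 b01 b02 b11 b12 b22 : Int) (et : Nat)
    (e : tB.chkB (pm i j k h l b00 b01 b02 b11 b12 b22 et) i j k = true) : OkB i j k := ⟨_, e⟩

end Pool.Agent.MP_48470b_gt.Run
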