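import Pool.Agent.MP_48470b_gt.Dat.Tab
import Pool.Agent.MP_48470b_gt.Ck.ChkX
import Pool.Agent.MP_48470b_gt.Run.Base

/-! The tests on the faces, as a property of a box. -/

namespace Pool.Agent.MP_48470b_gt.Run

/-- the tables without words and constants -/
noncomputable def tF : Ck.Tab := Dat.tab (fun _ _ _ => 0)
  ⟨fun _ => 0, fun _ => 0, fun _ => 0, fun _ => 0, fun _ _ => 0, fun _ _ => 0⟩

/-- the tests on the faces pass -/
def OkF (i j k : Nat) : Prop := tF.chkF i j k = true

theorem OkF.mk {i j k : Nat} (h : tF.chkF i j k = true) : OkF i j k := h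

end Pool.Agent.MP_48470b_gt.Run
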